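import Pool.Agent.R856.CM11

set_option autoImplicit false

/-!
Reduction of the weighted sums modulo `p^2`, and the case `p ≡ 7 (mod 12)`.
-/

namespace Pool.Agent.R856.CM

open Finset Pool.Agent.Helper857.Pad Pool.Agent.R856.TK

section

variable {p : ℕ} [hp : Fact p.Prime] {m : ℕ} (hm : 2*m+1 = p) (hm2 : 2 ≤ m)
include hm hm2

lemma red (v : ℕ → ℚ) (hv : ∀ k < p, v k ∈ Zp p) :
    I p 2 (∑ k ∈ range p, v k * (((2*k).choose k : ℚ)^2 / (-16)^k) - ∑ k ∈ range (m+1), v k * aa m k) := by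
  have hn : ∀ k : ℕ, ((2*k).choose k : ℚ)^2 / (-16)^k = (-1)^k * (((2*k).choose k : ℚ)^2 * ((16:ℚ)^k)⁻¹) := by
    intro k
    have e1 : (-16:ℚ)^k = (-1)^k * 16^k := by rw [← mul_pow]; norm_num
    have h1 : ((-1:ℚ)^k) * (-1)^k = 1 := by rw [← mul_pow]; norm_num
    have h16 : (16:ℚ)^k ≠ 0 := by positivity
    have hm1 : ((-1:ℚ)^k) ≠ 0 := pow_ne_zero k (by norm_num)
    rw [e1, div_eq_iff (mul_ne_zero hm1 h16)]
    field_simp
    rw [show ((-1:ℚ)^k)^2 = (-1)^k * (-1)^k by ring, h1, mul_one]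
  have hbig : I p 2 (∑ k ∈ range m, v (m+1+k) * (((2*(m+1+k)).choose (m+1+k) : ℚ)^2 / (-16)^(m+1+k))) := by
    apply I.sum
    intro k hk
    rw [mem_range] at hk
    have hd : p ∣ (2*(m+1+k)).choose (m+1+k) :=
      Nat.Prime.dvd_choose hp.out (by omega) (by omega) (by omega)
    obtain ⟨d, hd⟩ := hd
    rw [hn, hd]
    have e : v (m+1+k) * ((-1)^(m+1+k) * (((p*d:ℕ):ℚ)^2 * ((16:ℚ)^(m+1+k))⁻¹)) =
        (p:ℚ)^2 * (v (m+1+k) * ((-1)^(m+1+k) * ((d:ℚ)^2 * ((16:ℚ)^(m+1+k))⁻¹))) := by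
      push_cast; ring
    rw [e]
    exact (I.p_pow 2).mul_mem ((Zp p).mul_mem (hv _ (by omega)) ((Zp p).mul_mem
      ((Zp p).pow_mem ((Zp p).neg_mem (Zp p).one_mem) _) ((Zp p).mul_mem ((Zp p).pow_mem (nat_mem d) 2) (inv16 hm hm2 _))))
  have hsmall : I p 2 (∑ k ∈ range (m+1), v k * (((2*k).choose k : ℚ)^2 / (-16)^k) - ∑ k ∈ range (m+1), v k * aa m k) := by
    rw [← sum_sub_distrib]
    apply I.sum
    intro k hk
    rw [mem_range] at hk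
    have h := aa_exp hm hm2 k (by omega)
    have h1 : ((-1:ℚ)^k) * (-1)^k = 1 := by rw [← mul_pow]; norm_num
    have e : v k * (((2*k).choose k : ℚ)^2 / (-16)^k) - v k * aa m k =
        -((aa m k * (-1)^k - ((2*k).choose k : ℚ)^2 / 16^k) * (v k * (-1)^k)) := by
      rw [hn, div_eq_mul_inv]
      linear_combination (v k * aa m k) * h1
    rw [e]
    exact (h.mul_mem ((Zp p).mul_mem (hv k (by omega)) ((Zp p).pow_mem ((Zp p).neg_mem (Zp p).one_mem) _))).neg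
  have hsplit : ∑ k ∈ range p, v k * (((2*k).choose k : ℚ)^2 / (-16)^k) =
      ∑ k ∈ range (m+1), v k * (((2*k).choose k : ℚ)^2 / (-16)^k) +
      ∑ k ∈ range m, v (m+1+k) * (((2*(m+1+k)).choose (m+1+k) : ℚ)^2 / (-16)^(m+1+k)) := by
    rw [← Finset.sum_range_add (fun k => v k * (((2*k).choose k : ℚ)^2 / (-16)^k)), show m + 1 + m = p by omega]
  rw [hsplit]
  have e : ∀ a b d : ℚ, a + b - d = (a - d) + b := fun a b d => by ring
  rw [e]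
  exact hsmall.add hbig

lemma S1_I : I p 2 (∑ k ∈ range p, (k:ℚ) * t k - Sd m) := by
  have h := red hm hm2 (fun k => (k:ℚ) * ((2*k).choose k : ℚ) * (-1)^k) (by
    intro k _
    exact (Zp p).mul_mem ((Zp p).mul_mem (nat_mem _) (nat_mem _)) ((Zp p).pow_mem ((Zp p).neg_mem (Zp p).one_mem) _))
  have e1 : ∑ k ∈ range p, (k:ℚ) * ((2*k).choose k : ℚ) * (-1)^k * (((2*k).choose k : ℚ)^2 / (-16)^k) =
      ∑ k ∈ range p, (k:ℚ) * t k := by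
    apply sum_congr rfl
    intro k _
    unfold t
    have e1 : (-16:ℚ)^k = (-1)^k * 16^k := by rw [← mul_pow]; norm_num
    have hm1 : ((-1:ℚ)^k) ≠ 0 := pow_ne_zero k (by norm_num)
    rw [e1]
    field_simp
  have e2 : ∑ k ∈ range (m+1), (k:ℚ) * ((2*k).choose k : ℚ) * (-1)^k * aa m k = Sd m := by
    unfold Sd cc aa
    apply sum_congr rfl
    intro k _
    ring
  rw [e1, e2] at h
  exact h

/-- the linear relation -/
lemma lin_I : I p 2 (3 * Sd m + (AA m : ℚ) - p) := by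
  have h0 := S0_I hm hm2
  have h1 := (linear_rel (p := p) (by omega)).mono (show 2 ≤ 4 by norm_num)
  have h2 := S1_I hm hm2
  have e : 3 * Sd m + (AA m : ℚ) - p = (3 * (∑ k ∈ range p, (k:ℚ) * t k) + ∑ k ∈ range p, t k - (p:ℚ)) -
      (∑ k ∈ range p, t k - (AA m : ℚ)) - 3 * (∑ k ∈ range p, (k:ℚ) * t k - Sd m) := by ring
  rw [e]
  exact (h1.sub h0).sub (h2.mem_mul m3)

end

section

variable {p : ℕ} [hp : Fact p.Prime] {c : ℕ} (hc : 6*c+1 = p) (hc1 : 1 ≤ c)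
include hc hc1

lemma T_s1 : (p:ℤ) ∣ TT (3*c) + s1 p := by
  have h1 := (T_exp hc hc1).mono (show 1 ≤ 2 by norm_num)
  have h2 := (trace_exp hc hc1).mono (show 1 ≤ 2 by norm_num)
  have mP1 := hs_mem hc hc1 (3*c) (by omega)
  have mP2 := hs_mem hc hc1 (2*c) (by omega)
  have mP3 := hs_mem hc hc1 c (by omega)
  have mbi := inv_nat_mem (b_unit hc hc1)
  have mb : ((3*c).choose (2*c) : ℚ) ∈ Zp p := nat_mem _
  have m3i : (1/3:ℚ) ∈ Zp p := by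
    have := one_div_c hc hc1 (k := 3) (by omega) (by omega)
    exact_mod_cast this
  have mc : (c:ℚ) ∈ Zp p := nat_mem _
  have mQ : hs (3*c) - hs (2*c) ∈ Zp p := (Zp p).sub_mem mP1 mP2
  have mP : hs (3*c) - hs c ∈ Zp p := (Zp p).sub_mem mP1 mP3
  have h3 : I p 1 (((TT (3*c) + s1 p : ℤ)) : ℚ) := by
    have e : (((TT (3*c) + s1 p : ℤ)) : ℚ) = ((TT (3*c) : ℚ) - ((3*c).choose (2*c) : ℚ) * (1 - (p:ℚ) * (1/3) * (hs (3*c) - hs (2*c)))) -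
      (-(s1 p : ℚ) - (((3*c).choose (2*c) : ℚ) + (p:ℚ) * (((3*c).choose (2*c) : ℚ)⁻¹ +
      (c:ℚ) * ((3*c).choose (2*c) : ℚ) * (hs (3*c) - hs c) +
      2 * (c:ℚ) * ((3*c).choose (2*c) : ℚ) * (hs (3*c) - hs (2*c))))) -
      (p:ℚ)^1 * ((((3*c).choose (2*c) : ℚ)⁻¹ +
      (c:ℚ) * ((3*c).choose (2*c) : ℚ) * (hs (3*c) - hs c) +
      2 * (c:ℚ) * ((3*c).choose (2*c) : ℚ) * (hs (3*c) - hs (2*c))) + ((3*c).choose (2*c) : ℚ) * ((1/3) * (hs (3*c) - hs (2*c)))) := by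
      push_cast; ring
    rw [e]
    apply (h1.sub h2).sub
    apply (I.p_pow 1).mul_mem
    exact (Zp p).add_mem ((Zp p).add_mem ((Zp p).add_mem mbi ((Zp p).mul_mem ((Zp p).mul_mem mc mb) mP))
      ((Zp p).mul_mem ((Zp p).mul_mem ((Zp p).mul_mem m2 mc) mb) mQ)) ((Zp p).mul_mem mb ((Zp p).mul_mem m3i mQ))
  have := num_of_I h3
  rw [pow_one, Rat.num_intCast] at this
  exact this

/-- integral form of the first weighted sum -/
def Sz (m : ℕ) : ℤ := ∑ k ∈ range (m+1), chi3 k * ((m.choose k : ℤ) * ((m+k).choose k : ℤ))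

omit hp hc hc1 in
lemma Sz_cast (m : ℕ) : (Sz m : ℚ) = Sg1 m := by
  unfold Sz Sg1 aa
  push_cast; rfl

omit hc hc1 in
lemma symb (j : ℕ) (hj : p = 4*j+3) (x y : ℤ) (hx : x % 3 = 1) (hy : y % 4 = 1) (hxy : (p:ℤ) = x^2 + 3*y^2) :
    ((-3 : ZMod p))^(j+1) * (y : ZMod p) = (-1)^j * (x : ZMod p) ∧ (y : ZMod p) ≠ 0 := by
  have jX := leg_x x y hxy (by omega) (by omega) hx
  have jY := leg_y x y hxy (by omega) hy
  rw [← jacobiSym.legendreSym.to_jacobiSym] at jX jY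
  have eX := legendreSym.eq_pow p x
  have eY := legendreSym.eq_pow p y
  rw [jX, show (p-3)/4 = j by omega, show p/2 = 2*j+1 by omega] at eX
  rw [jY, show p/2 = 2*j+1 by omega] at eY
  push_cast at eX eY
  have h2 : ((x:ZMod p))^2 = -3 * (y:ZMod p)^2 := by
    have : ((p:ℤ) : ZMod p) = (((x^2+3*y^2 : ℤ)) : ZMod p) := by rw [← hxy]
    push_cast at this
    rw [ZMod.natCast_self] at this
    linear_combination -this
  have h3 : (-3 : ZMod p)^(j+1) * (y : ZMod p)^(2*j+1) * y = (x:ZMod p)^(2*j+1) * x := by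
    have e1 : (-3 : ZMod p)^(j+1) * (y : ZMod p)^(2*j+1) * y = (-3 * (y:ZMod p)^2)^(j+1) := by
      rw [mul_pow, ← pow_mul]; ring
    rw [e1, ← h2, ← pow_mul]; ring
  constructor
  · rw [← eX, ← eY, mul_one] at h3
    exact h3
  · intro h0
    rw [h0, zero_pow (by omega)] at eY
    exact one_ne_zero eY

/-- the first weighted sum modulo `p` -/
lemma Sz_mod (j : ℕ) (hj : p = 4*j+3) (x y : ℤ) (hx : x % 3 = 1) (hy : y % 4 = 1) (hxy : (p:ℤ) = x^2 + 3*y^2)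
    (hs1 : s1 p = -(2*x)) : (p:ℤ) ∣ Sz (3*c) - 4 * (-1)^j * y := by
  obtain ⟨hr, hy0⟩ := symb j hj x y hx hy hxy
  have hT := T_s1 hc hc1
  obtain ⟨w1, -, -⟩ := weighted (3*c) (by omega)
  rw [← Sz_cast] at w1
  have w1' : (-3:ℤ)^((3*c+1)/2) * Sz (3*c) = 2 * TT (3*c) := by exact_mod_cast w1
  have w2 := congrArg (Int.cast : ℤ → ZMod p) w1'
  have hT2 := zmod_of_dvd hT
  rw [hs1] at hT2
  rw [show (3*c+1)/2 = j+1 by omega] at w2
  push_cast at w2 hT2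
  apply dvd_of_zmod
  push_cast
  have h3 : (3 : ZMod p) ≠ 0 := by
    have : ((3:ℕ) : ZMod p) ≠ 0 := by
      rw [Ne, ZMod.natCast_eq_zero_iff]
      intro hd
      exact absurd (Nat.le_of_dvd (by norm_num) hd) (by omega)
    exact_mod_cast this
  have hr0 : (-3 : ZMod p)^(j+1) ≠ 0 := pow_ne_zero _ (neg_ne_zero.mpr h3)
  apply mul_left_cancel₀ hr0
  have h1 : ((-1:ZMod p)^j) * (-1)^j = 1 := by rw [← mul_pow]; norm_num
  rw [mul_zero]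
  linear_combination w2 + 2 * hT2 - 4 * (-1)^j * hr - 4 * (x:ZMod p) * h1

/-- the two congruences for `p ≡ 7 (mod 12)` -/
theorem partA (j : ℕ) (hj : p = 4*j+3) (x y : ℤ) (hy : y % 4 = 1) (hxy : (p:ℤ) = x^2 + 3*y^2) :
    I p 2 (Sg1 (3*c) - (-1)^j * (4*y - p/(3*y))) ∧ I p 2 (Sg2 (3*c) + (-1)^j * y) := by
  have hm : 2*(3*c)+1 = p := by omega
  have hsq := s1_sq hc hc1 x y hxy
  have hs3 := s1_mod3 hc hc1
  obtain ⟨X, hX, hX2⟩ : ∃ X : ℤ, s1 p = -(2*X) ∧ X^2 = x^2 := by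
    have : (s1 p - 2*x) * (s1 p + 2*x) = 0 := by linear_combination hsq
    rcases mul_eq_zero.mp this with h | h
    · exact ⟨-x, by linarith, by ring⟩
    · exact ⟨x, by linarith, by ring⟩
  have hX3 : X % 3 = 1 := by omega
  have hXy : (p:ℤ) = X^2 + 3*y^2 := by rw [hX2]; exact hxy
  have hmod := Sz_mod hc hc1 j hj X y hX3 hy hXy hX
  obtain ⟨-, hy0⟩ := symb (p := p) j hj X y hX3 hy hXy
  obtain ⟨w1, w2, w3⟩ := weighted (3*c) (by omega)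
  have hA := A_exp hc hc1
  have hL := lin_I (p := p) hm (by omega)
  have hyp : ¬ (p:ℤ) ∣ y := fun h => hy0 (zmod_of_dvd h)
  have iy := inv_int_mem hyp
  have yq : (y:ℚ) ≠ 0 := by
    intro h; apply hyp
    have : y = 0 := by exact_mod_cast h
    rw [this]; exact dvd_zero _
  have m3i : (1/3:ℚ) ∈ Zp p := by
    have := one_div_c hc hc1 (k := 3) (by omega) (by omega)
    exact_mod_cast this
  have m8i : (1/8:ℚ) ∈ Zp p := by
    have h := half' hm (by omega)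
    have : (1/8:ℚ) = (2:ℚ)⁻¹ * 2⁻¹ * 2⁻¹ := by norm_num
    rw [this]
    exact (Zp p).mul_mem ((Zp p).mul_mem h h) h
  have mp' : (p:ℚ) ∈ Zp p := nat_mem _
  have m4 : (4:ℚ) ∈ Zp p := by exact_mod_cast nat_mem (p := p) 4
  have my : (y:ℚ) ∈ Zp p := int_mem _
  have pq : (p:ℚ) = (x:ℚ)^2 + 3*(y:ℚ)^2 := by exact_mod_cast hxy
  have hsq' : (s1 p : ℚ)^2 = 4*(x:ℚ)^2 := by exact_mod_cast hsq
  rw [hsq'] at hA
  have hSz : I p 1 (Sg1 (3*c) - 4 * (-1)^j * (y:ℚ)) := by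
    obtain ⟨k, hk⟩ := hmod
    rw [← Sz_cast]
    have e : (Sz (3*c) : ℚ) - 4 * (-1)^j * (y:ℚ) = (p:ℚ)^1 * (k:ℚ) := by
      rw [pow_one]; exact_mod_cast hk
    rw [e]
    exact (I.p_pow 1).mul_mem (int_mem k)
  have hε : ((-1:ℚ)^j) * (-1)^j = 1 := by rw [← mul_pow]; norm_num
  have mε : ((-1:ℚ)^j) ∈ Zp p := (Zp p).pow_mem ((Zp p).neg_mem (Zp p).one_mem) _
  have mS1 : Sg1 (3*c) ∈ Zp p := by rw [← Sz_cast]; exact int_mem _
  have mS2 : Sg2 (3*c) ∈ Zp p := by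
    unfold Sg2 aa
    apply (Zp p).sum_mem
    intro k _
    exact (Zp p).mul_mem (int_mem _) ((Zp p).mul_mem (nat_mem _) ((Zp p).mul_mem (nat_mem _) (nat_mem _)))
  generalize ((-1:ℚ)^j) = ε at *
  generalize Sg1 (3*c) = S at *
  generalize Sg2 (3*c) = V at *
  generalize Sd (3*c) = D at *
  generalize (AA (3*c) : ℚ) = A at *
  generalize (y:ℚ) = Y at *
  generalize (x:ℚ) = XX at *
  -- the target
  obtain ⟨τ, hτ⟩ : ∃ τ, τ = 4*Y - p/(3*Y) := ⟨_, rfl⟩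
  have mτ : τ ∈ Zp p := by
    have e : τ = 4*Y - p * (1/3) * Y⁻¹ := by rw [hτ]; field_simp
    rw [e]
    exact (Zp p).sub_mem ((Zp p).mul_mem m4 my) ((Zp p).mul_mem ((Zp p).mul_mem mp' m3i) iy)
  rw [← hτ]
  have hquad : I p 2 (S^2 - τ^2) := by
    have n3 : ¬ p ∣ 3 := fun h => absurd (Nat.le_of_dvd (by norm_num) h) (by omega)
    apply I.cancel n3
    have e : ((3:ℕ):ℚ) * (S^2 - τ^2) = -4 * (A - (4*XX^2 - 2*p)) - (p:ℚ)^2 * ((1/3) * Y⁻¹^2) := by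
      have e1 : τ * Y = 4*Y^2 - p/3 := by rw [hτ]; field_simp
      have e2 : τ = 4*Y - p * (1/3) * Y⁻¹ := by rw [hτ]; field_simp
      have e3 : Y * Y⁻¹ = 1 := mul_inv_cancel₀ yq
      push_cast
      rw [e2]
      linear_combination w3 + 16 * pq + 8 * p * e3
    rw [e]
    exact (hA.mem_mul ((Zp p).neg_mem m4)).sub ((I.p_pow 2).mul_mem ((Zp p).mul_mem m3i ((Zp p).pow_mem iy 2)))
  -- the unit
  have hu : I p 1 ((S + ε*τ) * (ε * (1/8) * Y⁻¹) - 1) := by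
    have e : (S + ε*τ) * (ε * (1/8) * Y⁻¹) - 1 = (S - 4*ε*Y) * (ε * (1/8) * Y⁻¹) - (p:ℚ)^1 * ((1/3)*(1/8)*Y⁻¹*Y⁻¹) := by
      have e2 : τ = 4*Y - p * (1/3) * Y⁻¹ := by rw [hτ]; field_simp
      have e3 : Y * Y⁻¹ = 1 := mul_inv_cancel₀ yq
      rw [e2]
      linear_combination (1/2 + 1/2*ε^2 - 1/2 + 1/2*ε^2) * e3 + (1 - (p:ℚ)*(1/3)*(1/8)*Y⁻¹*Y⁻¹) * hε
    rw [e]
    exact (hSz.mul_mem ((Zp p).mul_mem ((Zp p).mul_mem mε m8i) iy)).sub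
      ((I.p_pow 1).mul_mem ((Zp p).mul_mem ((Zp p).mul_mem ((Zp p).mul_mem m3i m8i) iy) iy))
  obtain ⟨u0, u1, -⟩ := unit hu
  have first : I p 2 (S - ε*τ) := by
    have e : S - ε*τ = ((S + ε*τ) * (ε * (1/8) * Y⁻¹))⁻¹ * ((S^2 - τ^2) * (ε * (1/8) * Y⁻¹)) := by
      rw [eq_inv_mul_iff_mul_eq₀ u0]
      linear_combination (-(τ^2 * (ε * (1/8) * Y⁻¹))) * hε
    rw [e]
    exact (hquad.mul_mem ((Zp p).mul_mem ((Zp p).mul_mem mε m8i) iy)).mem_mul u1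
  refine ⟨first, ?_⟩
  -- second
  have h12 : I p 2 ((ε*τ) * (12 * (V + ε*Y))) := by
    have e : (ε*τ) * (12 * (V + ε*Y)) = -4 * (3*D + A - p) - (S - ε*τ) * (12 * V) - 3 * (S^2 - τ^2) +
        ((p:ℚ)^2 * (-((1/3) * Y⁻¹^2))) := by
      have e2 : τ = 4*Y - p * (1/3) * Y⁻¹ := by rw [hτ]; field_simp
      have e3 : Y * Y⁻¹ = 1 := mul_inv_cancel₀ yq
      have e4 : (ε*τ) * (12 * (V + ε*Y)) = 12*ε*τ*V + 12*(ε*ε)*τ*Y := by ring
      rw [e4, hε, e2]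
      linear_combination 12 * w2 + w3 + 4 * p * e3
    rw [e]
    have m12 : (12:ℚ) ∈ Zp p := by exact_mod_cast nat_mem (p := p) 12
    exact (((hL.mem_mul ((Zp p).neg_mem m4)).sub (first.mul_mem ((Zp p).mul_mem m12 mS2))).sub (hquad.mem_mul m3)).add
      ((I.p_pow 2).mul_mem ((Zp p).neg_mem ((Zp p).mul_mem m3i ((Zp p).pow_mem iy 2))))
  have hu2 : I p 1 ((ε*τ) * (ε * (2 * (1/8)) * Y⁻¹) - 1) := by
    have e : (ε*τ) * (ε * (2 * (1/8)) * Y⁻¹) - 1 = (p:ℚ)^1 * (-((1/3) * (2 * (1/8)) * Y⁻¹ * Y⁻¹)) := by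
      have e2 : τ = 4*Y - p * (1/3) * Y⁻¹ := by rw [hτ]; field_simp
      have e3 : Y * Y⁻¹ = 1 := mul_inv_cancel₀ yq
      rw [e2]
      linear_combination (ε*ε) * e3 + (1 - (p:ℚ)*(1/3)*(2*(1/8))*Y⁻¹*Y⁻¹) * hε
    rw [e]
    exact (I.p_pow 1).mul_mem ((Zp p).neg_mem ((Zp p).mul_mem ((Zp p).mul_mem ((Zp p).mul_mem m3i ((Zp p).mul_mem m2 m8i)) iy) iy))
  obtain ⟨v0, v1, -⟩ := unit hu2
  have n12 : ¬ p ∣ 12 := by
    intro h
    have h1 : p ∣ 2^2*3 := h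
    rcases (Nat.Prime.dvd_mul hp.out).mp h1 with h2 | h2
    · exact absurd (Nat.le_of_dvd (by norm_num) (hp.out.dvd_of_dvd_pow h2)) (by omega)
    · exact absurd (Nat.le_of_dvd (by norm_num) h2) (by omega)
  apply I.cancel n12
  have e : ((12:ℕ):ℚ) * (V + ε*Y) = ((ε*τ) * (ε * (2 * (1/8)) * Y⁻¹))⁻¹ *
      (((ε*τ) * (12 * (V + ε*Y))) * (ε * (2 * (1/8)) * Y⁻¹)) := by
    rw [eq_inv_mul_iff_mul_eq₀ v0]
    push_cast
    ring
  rw [e]
  exact (h12.mul_mem ((Zp p).mul_mem ((Zp p).mul_mem mε ((Zp p).mul_mem m2 m8i)) iy)).mem_mul v1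

end

end Pool.Agent.R856.CM
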