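import Mathlib

set_option autoImplicit false

/-!
The square formula for Legendre polynomials, by uniqueness for a third-order equation,
and its specialisation at a cube root of unity.
-/

namespace Pool.Agent.R856.CM

open Finset Polynomial

/-- the Euler operator -/
noncomputable def th (P : ℚ[X]) : ℚ[X] := X * derivative P

lemma th_coeff (P : ℚ[X]) (k : ℕ) : (th P).coeff k = (k:ℚ) * P.coeff k := by
  unfold th
  cases k with
  | zero => simp
  | succ k => rw [coeff_X_mul, coeff_derivative]; push_cast; ring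

lemma th_mul (P Q : ℚ[X]) : th (P * Q) = th P * Q + P * th Q := by
  unfold th; rw [derivative_mul]; ring

lemma th_add (P Q : ℚ[X]) : th (P + Q) = th P + th Q := by
  unfold th; rw [derivative_add]; ring

lemma th_sub (P Q : ℚ[X]) : th (P - Q) = th P - th Q := by
  unfold th; rw [derivative_sub]; ring

lemma th_C (c : ℚ) : th (C c) = 0 := by
  unfold th; rw [derivative_C, mul_zero]

lemma th_X : th X = X := by
  unfold th; rw [derivative_X, mul_one]

/-- the third-order operator -/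
noncomputable def L3 (N : ℚ) (g : ℚ[X]) : ℚ[X] :=
  th ((1+X) * th ((1+X) * th g)) - C (2*N) * (X * ((1+X) * th g) + th (X * ((1+X) * g)))

lemma two_C : (2:ℚ[X]) = C 2 := (map_ofNat (C : ℚ →+* ℚ[X]) 2).symm

lemma four_C : (4:ℚ[X]) = C 4 := (map_ofNat (C : ℚ →+* ℚ[X]) 4).symm

lemma one_C : (1:ℚ[X]) = C 1 := (map_one (C : ℚ →+* ℚ[X])).symm

lemma L3_sub (N : ℚ) (g g' : ℚ[X]) : L3 N (g - g') = L3 N g - L3 N g' := by
  unfold L3
  simp only [th_sub, mul_sub]
  ring

lemma coeff_E (P : ℚ[X]) (k : ℕ) : ((1+X) * P).coeff (k+1) = P.coeff (k+1) + P.coeff k := by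
  rw [add_mul, one_mul, coeff_add, coeff_X_mul]

lemma coeff_E0 (P : ℚ[X]) : ((1+X) * P).coeff 0 = P.coeff 0 := by
  rw [add_mul, one_mul, coeff_add, coeff_X_mul_zero, add_zero]

lemma L3_unique (N : ℚ) (g : ℚ[X]) (h : L3 N g = 0) (h0 : g.coeff 0 = 0) : g = 0 := by
  have key : ∀ k, g.coeff k = 0 := by
    intro k
    induction k using Nat.strong_induction_on with
    | _ k ih =>
      rcases k with _ | _ | _ | k
      · exact h0
      · have h1 : (L3 N g).coeff (0+1) = 0 := by rw [h]; simp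
        unfold L3 at h1
        rw [coeff_sub, coeff_C_mul, coeff_add, th_coeff, th_coeff, coeff_E, coeff_X_mul, coeff_X_mul,
          coeff_E0, coeff_E0, th_coeff, th_coeff, th_coeff, coeff_E, coeff_E0, th_coeff, th_coeff, h0] at h1
        push_cast at h1
        linarith
      · have h1 : (L3 N g).coeff (1+1) = 0 := by rw [h]; simp
        have g1 := ih 1 (by omega)
        unfold L3 at h1
        rw [coeff_sub, coeff_C_mul, coeff_add, th_coeff, th_coeff, coeff_E, coeff_X_mul, coeff_X_mul,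
          coeff_E, coeff_E, th_coeff, th_coeff, th_coeff, th_coeff, coeff_E, coeff_E, th_coeff, th_coeff, th_coeff, h0, g1] at h1
        push_cast at h1
        linarith
      · have h1 : (L3 N g).coeff (k+2+1) = 0 := by rw [h]; simp
        have g1 := ih (k+2) (by omega)
        have g2 := ih (k+1) (by omega)
        have g3 := ih k (by omega)
        unfold L3 at h1
        rw [coeff_sub, coeff_C_mul, coeff_add, th_coeff, th_coeff, coeff_E, coeff_X_mul, coeff_X_mul,
          coeff_E, coeff_E, th_coeff, th_coeff, th_coeff, th_coeff, coeff_E, coeff_E, th_coeff, th_coeff, th_coeff, g1, g2] at h1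
        push_cast at h1
        have h2 : ((k:ℚ)+2+1)^3 * g.coeff (k+2+1) = 0 := by linear_combination h1
        have h3 : ((k:ℚ)+2+1)^3 ≠ 0 := by positivity
        exact (mul_eq_zero.mp h2).resolve_left h3
  ext k
  rw [key k, coeff_zero]

/-- coefficients of the Legendre polynomial -/
def aa (n k : ℕ) : ℚ := (n.choose k : ℚ) * ((n+k).choose k : ℚ)

lemma choose_r (n k : ℕ) : (n.choose (k+1) : ℚ) * ((k:ℚ)+1) = (n.choose k : ℚ) * ((n:ℚ) - k) := by
  have h := Nat.choose_succ_right_eq n k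
  have h2 : ((n.choose (k+1) : ℕ):ℚ) * ((k+1:ℕ):ℚ) = ((n.choose k:ℕ):ℚ) * ((n-k:ℕ):ℚ) := by exact_mod_cast h
  rcases Nat.lt_or_ge n k with hk | hk
  · rw [Nat.choose_eq_zero_of_lt hk, Nat.choose_eq_zero_of_lt (by omega)]; simp
  · rw [Nat.cast_sub hk] at h2
    push_cast at h2; exact h2

lemma choose_s (n k : ℕ) : ((n+(k+1)).choose (k+1) : ℚ) * ((k:ℚ)+1) = ((n+k).choose k : ℚ) * ((n:ℚ) + k + 1) := by
  have h := Nat.add_one_mul_choose_eq (n+k) k
  have h2 : (((n+k+1:ℕ)):ℚ) * (((n+k).choose k:ℕ):ℚ) = (((n+k+1).choose (k+1):ℕ):ℚ) * ((k+1:ℕ):ℚ) := by exact_mod_cast h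
  push_cast at h2
  rw [show n + (k+1) = n+k+1 by ring]
  linear_combination -h2

lemma aa_succ (n k : ℕ) : ((k:ℚ)+1)^2 * aa n (k+1) = ((n:ℚ)*(n+1) - k*(k+1)) * aa n k := by
  unfold aa
  have h1 := choose_r n k
  have h2 := choose_s n k
  calc ((k:ℚ)+1)^2 * ((n.choose (k+1) : ℚ) * ((n+(k+1)).choose (k+1) : ℚ))
      = ((n.choose (k+1) : ℚ) * ((k:ℚ)+1)) * (((n+(k+1)).choose (k+1) : ℚ) * ((k:ℚ)+1)) := by ring
    _ = _ := by rw [h1, h2]; ring

noncomputable def ff (n : ℕ) : ℚ[X] := ∑ k ∈ range (n+1), C (aa n k) * X^k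

lemma ff_coeff (n k : ℕ) : (ff n).coeff k = aa n k := by
  unfold ff
  rw [finsetSum_coeff]
  simp only [coeff_C_mul_X_pow]
  rw [Finset.sum_ite_eq]
  split_ifs with h
  · rfl
  · rw [mem_range] at h
    unfold aa
    rw [Nat.choose_eq_zero_of_lt (by omega)]; simp

lemma ff_ode (n : ℕ) : th ((1+X) * th (ff n)) = C ((n:ℚ)*(n+1)) * (X * ff n) := by
  ext k
  rw [th_coeff, coeff_C_mul]
  cases k with
  | zero => simp
  | succ k =>
    rw [coeff_E, coeff_X_mul, th_coeff, th_coeff, ff_coeff, ff_coeff]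
    have := aa_succ n k
    push_cast
    linear_combination this

lemma ff_sq_ode (n : ℕ) : L3 ((n:ℚ)*(n+1)) (ff n ^ 2) = 0 := by
  have h := ff_ode n
  generalize ff n = f at *
  generalize (n:ℚ)*(n+1) = N at *
  have hC : (C (2*N) : ℚ[X]) = 2 * C N := by rw [C_mul, ← two_C]
  have e1 : th (f^2) = 2 * f * th f := by
    rw [pow_two, th_mul]; ring
  have e2 : (1+X) * th (f^2) = (2*f) * ((1+X) * th f) := by rw [e1]; ring
  have t2 : th (2*f) = 2 * th f := by
    rw [two_C, th_mul, th_C]; ring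
  have e3 : (1+X) * th ((1+X) * th (f^2)) = 2 * ((1+X) * th f)^2 + C (2*N) * (X * ((1+X) * f^2)) := by
    rw [e2, th_mul, h, t2, hC]
    ring
  unfold L3
  rw [e3]
  have e4 : th (2 * ((1+X) * th f)^2 + C (2*N) * (X * ((1+X) * f^2))) =
      4 * ((1+X) * th f) * (C N * (X * f)) + C (2*N) * th (X * ((1+X) * f^2)) := by
    rw [th_add, th_mul (C (2*N)), th_C, zero_mul, zero_add]
    congr 1
    rw [two_C, th_mul, th_C, pow_two, th_mul, h, ← two_C]
    ring
  rw [e4, e1, hC]
  ring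

/-- coefficients of the square in the variable `x = y + y^2` -/
def cc (n k : ℕ) : ℚ := (n.choose k : ℚ) * ((n+k).choose k : ℚ) * ((2*k).choose k : ℚ)

lemma cc_succ (n k : ℕ) : ((k:ℚ)+1)^3 * cc n (k+1) = 2*(2*(k:ℚ)+1)*((n:ℚ)*(n+1) - k*(k+1)) * cc n k := by
  have h1 := aa_succ n k
  have h0 := Nat.succ_mul_centralBinom_succ k
  rw [Nat.centralBinom_eq_two_mul_choose, Nat.centralBinom_eq_two_mul_choose] at h0
  have h2 : ((k:ℚ)+1) * ((2*(k+1)).choose (k+1) : ℚ) = 2 * (2*(k:ℚ)+1) * ((2*k).choose k : ℚ) := by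
    exact_mod_cast h0
  have e1 : cc n (k+1) = aa n (k+1) * ((2*(k+1)).choose (k+1) : ℚ) := rfl
  have e2 : cc n k = aa n k * ((2*k).choose k : ℚ) := rfl
  rw [e1, e2]
  calc ((k:ℚ)+1)^3 * (aa n (k+1) * ((2*(k+1)).choose (k+1) : ℚ))
      = (((k:ℚ)+1)^2 * aa n (k+1)) * (((k:ℚ)+1) * ((2*(k+1)).choose (k+1) : ℚ)) := by ring
    _ = _ := by rw [h1, h2]; ring

noncomputable def GG (n : ℕ) : ℚ[X] := ∑ k ∈ range (n+1), C (cc n k) * X^k

lemma GG_coeff (n k : ℕ) : (GG n).coeff k = cc n k := by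
  unfold GG
  rw [finsetSum_coeff]
  simp only [coeff_C_mul_X_pow]
  rw [Finset.sum_ite_eq]
  split_ifs with h
  · rfl
  · rw [mem_range] at h
    unfold cc
    rw [Nat.choose_eq_zero_of_lt (by omega)]; simp

noncomputable def MM (n : ℕ) : ℚ[X] := 2 * (X * th (GG n)) + (1 + 4*X) * th (th (GG n))

lemma MM_der (n : ℕ) : derivative (MM n) = C (2*((n:ℚ)*(n+1))) * (2 * th (GG n) + GG n) := by
  ext k
  rw [coeff_derivative, coeff_C_mul]
  have two := two_C
  have four := four_C
  have e : MM n = C 2 * (X * th (GG n)) + th (th (GG n)) + C 4 * (X * th (th (GG n))) := by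
    unfold MM; rw [two, four]; ring
  rw [e, two, coeff_add, coeff_add, coeff_add, coeff_C_mul, coeff_C_mul, coeff_C_mul, coeff_X_mul, coeff_X_mul,
    th_coeff, th_coeff, th_coeff, th_coeff, th_coeff, GG_coeff, GG_coeff]
  have := cc_succ n k
  push_cast
  linear_combination this

lemma th_comp (P : ℚ[X]) : th (P.comp (X + X^2)) = X * (1 + 2*X) * (derivative P).comp (X + X^2) := by
  unfold th
  rw [derivative_comp]
  simp only [derivative_add, derivative_X, derivative_X_pow, Nat.cast_ofNat, Nat.add_one_sub_one, pow_one]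
  rw [← two_C]
  ring

lemma th_comp' (P : ℚ[X]) : (1+X) * th (P.comp (X + X^2)) = (1 + 2*X) * (th P).comp (X + X^2) := by
  rw [th_comp]
  unfold th
  rw [mul_comp, X_comp]
  ring

lemma GG_ode (n : ℕ) : L3 ((n:ℚ)*(n+1)) ((GG n).comp (X + X^2)) = 0 := by
  set N : ℚ := (n:ℚ)*(n+1)
  have hW : th (1 + 2*X : ℚ[X]) = 2*X := by
    rw [two_C, one_C, th_add, th_mul, th_C, th_C, th_X]; ring
  have e1 : (1+X) * th ((1+X) * th ((GG n).comp (X + X^2))) = (MM n).comp (X + X^2) := by
    rw [th_comp', th_mul, hW, mul_add]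
    have := th_comp' (th (GG n))
    have e2 : (1+X) * ((1+2*X) * th ((th (GG n)).comp (X+X^2))) = (1+2*X)^2 * (th (th (GG n))).comp (X+X^2) := by
      calc (1+X) * ((1+2*X) * th ((th (GG n)).comp (X+X^2))) = (1+2*X) * ((1+X) * th ((th (GG n)).comp (X+X^2))) := by ring
        _ = (1+2*X) * ((1+2*X) * (th (th (GG n))).comp (X+X^2)) := by rw [this]
        _ = _ := by ring
    rw [e2]
    unfold MM
    simp only [add_comp, mul_comp, X_comp, one_comp, ofNat_comp]
    ring
  unfold L3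
  rw [e1, th_comp, MM_der]
  have e3 : X * ((1+X) * th ((GG n).comp (X+X^2))) = X * ((1+2*X) * (th (GG n)).comp (X+X^2)) := by
    rw [← th_comp']
  have e4 : th (X * ((1+X) * (GG n).comp (X+X^2))) = X * (1+2*X) * (GG n + th (GG n)).comp (X+X^2) := by
    have : X * ((1+X) * (GG n).comp (X+X^2)) = (X * GG n).comp (X + X^2) := by
      rw [mul_comp, X_comp]; ring
    rw [this, th_comp, derivative_mul, derivative_X, one_mul]
    rfl
  rw [e3, e4]
  simp only [add_comp, mul_comp, C_comp, ofNat_comp]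
  ring

/-- the square formula -/
theorem square (n : ℕ) : ff n ^ 2 = (GG n).comp (X + X^2) := by
  have h : L3 ((n:ℚ)*(n+1)) (ff n ^ 2 - (GG n).comp (X + X^2)) = 0 := by
    rw [L3_sub, ff_sq_ode, GG_ode, sub_zero]
  have h0 : (ff n ^ 2 - (GG n).comp (X + X^2)).coeff 0 = 0 := by
    rw [coeff_sub, coeff_zero_eq_eval_zero, coeff_zero_eq_eval_zero, eval_pow, eval_comp]
    simp only [eval_add, eval_X, eval_pow]
    rw [show (0:ℚ) + 0^2 = 0 by norm_num, ← coeff_zero_eq_eval_zero, ← coeff_zero_eq_eval_zero, ff_coeff, GG_coeff]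
    unfold aa cc; simp
  exact sub_eq_zero.mp (L3_unique _ _ h h0)

end Pool.Agent.R856.CM
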