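import Pool.Agent.R856.CM9

set_option autoImplicit false

/-!
Sums weighted by the cubic Legendre symbol: the rational identities for odd `m`.
-/

namespace Pool.Agent.R856.CM

open Finset Polynomial

/-- first weighted sum -/
def Sg1 (m : ℕ) : ℚ := ∑ k ∈ range (m+1), (chi3 k : ℚ) * aa m k
/-- second weighted sum -/
def Sg2 (m : ℕ) : ℚ := ∑ k ∈ range (m+1), (chi3 k : ℚ) * ((k:ℚ) * aa m k)
/-- derivative sum -/
def Sd (m : ℕ) : ℚ := ∑ k ∈ range (m+1), (k:ℚ) * (cc m k * (-1)^k)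

lemma th_ff (n : ℕ) : th (ff n) = ∑ k ∈ range (n+1), C ((k:ℚ) * aa n k) * X^k := by
  ext j
  rw [th_coeff, ff_coeff, finsetSum_coeff]
  simp only [coeff_C_mul_X_pow]
  rw [Finset.sum_ite_eq]
  split_ifs with h
  · rfl
  · rw [mem_range] at h
    unfold aa
    rw [Nat.choose_eq_zero_of_lt (by omega)]; simp

lemma th_GG (n : ℕ) : th (GG n) = ∑ k ∈ range (n+1), C ((k:ℚ) * cc n k) * X^k := by
  ext j
  rw [th_coeff, GG_coeff, finsetSum_coeff]
  simp only [coeff_C_mul_X_pow]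
  rw [Finset.sum_ite_eq]
  split_ifs with h
  · rfl
  · rw [mem_range] at h
    unfold cc
    rw [Nat.choose_eq_zero_of_lt (by omega)]; simp

lemma GG_der_eval (n : ℕ) : (derivative (GG n)).eval (-1) = -Sd n := by
  have h1 : (th (GG n)).eval (-1) = Sd n := by
    rw [th_GG, eval_finsetSum]
    unfold Sd
    apply sum_congr rfl
    intro k _
    simp only [eval_mul, eval_C, eval_pow, eval_X]
    ring
  unfold th at h1
  rw [eval_mul, eval_X] at h1
  linarith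

lemma sq_der (n : ℕ) : 2 * ff n * th (ff n) = X * (1 + 2*X) * (derivative (GG n)).comp (X + X^2) := by
  rw [← th_comp, ← square, pow_two, th_mul]; ring

section

variable {w : ℂ} (hw : w^2 + w + 1 = 0)
include hw

lemma wval : aeval w (X + X^2 : ℚ[X]) = ((-1 : ℚ) : ℂ) := by
  rw [map_add, map_pow, aeval_X]
  push_cast
  linear_combination hw

lemma fv_sq (n : ℕ) : (fv n w)^2 = (AA n : ℂ) := by
  have h1 : (aeval w (ff n))^2 = ((AA n : ℚ) : ℂ) := by
    rw [← map_pow, square, aeval_comp, wval hw, ← GG_eval]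
    exact aeval_algebraMap_apply ℂ (-1:ℚ) (GG n)
  rw [ff_aeval] at h1
  unfold fv
  rw [h1]; simp

lemma fv_der (n : ℕ) : 2 * fv n w * (∑ k ∈ range (n+1), ((k:ℂ) * (aa n k : ℂ)) * w^k) =
    -(w * (1 + 2*w)) * (Sd n : ℂ) := by
  have h0 := congrArg (aeval w) (sq_der n)
  rw [map_mul, map_mul, map_mul, map_mul, aeval_comp, wval hw, ff_aeval, th_ff, map_sum] at h0
  have h1 : aeval ((-1:ℚ):ℂ) (derivative (GG n)) = ((-Sd n : ℚ) : ℂ) := by
    rw [← GG_der_eval]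
    exact aeval_algebraMap_apply ℂ (-1:ℚ) (derivative (GG n))
  rw [h1] at h0
  have h2 : ∑ x ∈ range (n+1), aeval w (C ((x:ℚ) * aa n x) * X^x) = ∑ k ∈ range (n+1), ((k:ℂ) * (aa n k : ℂ)) * w^k := by
    apply sum_congr rfl
    intro k _
    rw [map_mul, map_pow, aeval_X, aeval_C]
    simp
  rw [h2] at h0
  unfold fv
  have h3 : aeval w (2:ℚ[X]) = (2:ℂ) := map_ofNat (aeval w) 2
  have h4 : aeval w (1 + 2*X : ℚ[X]) = 1 + 2*w := by
    rw [map_add, map_mul, aeval_X, map_one, h3]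
  rw [h3, h4, aeval_X] at h0
  rw [h0]
  push_cast
  ring

end

lemma aa_cast (n k : ℕ) : ((aa n k : ℚ) : ℂ) = (n.choose k : ℂ) * ((n+k).choose k : ℂ) := by
  unfold aa; push_cast; ring

theorem weighted (m : ℕ) (hodd : m % 2 = 1) :
    (-3:ℚ)^((m+1)/2) * Sg1 m = 2 * (TT m : ℚ) ∧ Sg1 m * Sg2 m = - Sd m ∧ 3 * Sg1 m ^ 2 = -4 * (AA m : ℚ) := by
  obtain ⟨w, hw⟩ : ∃ w : ℂ, w^2 + w + 1 = 0 := by
    obtain ⟨s, hs⟩ : ∃ s : ℂ, s^2 = -3 := by
      refine ⟨Complex.I * (Real.sqrt 3 : ℂ), ?_⟩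
      rw [mul_pow, Complex.I_sq]
      have : ((Real.sqrt 3 : ℂ))^2 = 3 := by
        rw [← Complex.ofReal_pow, Real.sq_sqrt (by norm_num)]; simp
      rw [this]; ring
    exact ⟨(s-1)/2, by linear_combination hs/4⟩
  have hw' := w_sq hw
  obtain ⟨s, hs⟩ : ∃ s : ℂ, s = 2*w+1 := ⟨_, rfl⟩
  have hs2 : s^2 = -3 := by rw [hs]; linear_combination 4 * hw
  have hs0 : s ≠ 0 := by
    rintro rfl; norm_num at hs2
  have hT1 := T_fv m w hw
  have hT2 := T_fv2 m hw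
  rw [← hs] at hT1 hT2
  obtain ⟨j, hj⟩ : ∃ j, m = 2*j+1 := ⟨m/2, by omega⟩
  have hneg : (-s)^m = -(s^m) := by
    rw [hj]; exact Odd.neg_pow ⟨j, rfl⟩ s
  rw [hneg] at hT2
  have hsm : s^m ≠ 0 := pow_ne_zero m hs0
  have hf2 : fv m (w^2) = - fv m w := by
    apply mul_left_cancel₀ hsm
    linear_combination hT2 - hT1
  have hd := fv_diff m hw
  rw [← hs, hf2] at hd
  have hS1 : ((Sg1 m : ℚ) : ℂ) = ∑ k ∈ range (m+1), (chi3 k : ℂ) * ((m.choose k : ℂ) * ((m+k).choose k : ℂ)) := by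
    unfold Sg1
    push_cast
    apply sum_congr rfl
    intro k _
    rw [aa_cast]
  rw [← hS1] at hd
  -- derivative difference
  have d1 := fv_der hw m
  have d2 := fv_der hw' m
  have hS2 : s * ((Sg2 m : ℚ) : ℂ) = (∑ k ∈ range (m+1), ((k:ℂ) * (aa m k : ℂ)) * w^k) -
      ∑ k ∈ range (m+1), ((k:ℂ) * (aa m k : ℂ)) * (w^2)^k := by
    unfold Sg2
    push_cast
    rw [mul_sum, ← sum_sub_distrib]
    apply sum_congr rfl
    intro k _
    have := chi_w hw k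
    rw [← hs] at this
    linear_combination (-((k:ℂ) * (aa m k : ℂ))) * this
  rw [hf2] at d2
  set D1 := ∑ k ∈ range (m+1), ((k:ℂ) * (aa m k : ℂ)) * w^k
  set D2 := ∑ k ∈ range (m+1), ((k:ℂ) * (aa m k : ℂ)) * (w^2)^k
  have hsq := fv_sq hw m
  generalize fv m w = F at *
  have hs2' : s^2 ≠ 0 := pow_ne_zero 2 hs0
  refine ⟨?_, ?_, ?_⟩
  · have key : ((((-3:ℚ)^((m+1)/2) * Sg1 m : ℚ)) : ℂ) = ((2 * (TT m : ℚ) : ℚ) : ℂ) := by
      push_cast
      have e1 : (-3:ℂ)^((m+1)/2) = s^m * s := by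
        rw [← hs2, ← pow_mul, ← pow_succ]; congr 1; omega
      rw [e1]
      linear_combination (-(s^m)) * hd - hT1 + hT1 - 2 * hT1
    exact_mod_cast key
  · have key : (((Sg1 m * Sg2 m : ℚ)) : ℂ) = ((-Sd m : ℚ) : ℂ) := by
      push_cast
      apply mul_left_cancel₀ hs2'
      have e : s^2 * ((Sg1 m : ℂ) * (Sg2 m : ℂ)) = (s * (Sg1 m : ℂ)) * (s * (Sg2 m : ℂ)) := by ring
      rw [e, ← hd, hS2]
      have e2 : (F - -F) * (D1 - D2) = 2 * F * D1 + 2 * (-F) * D2 := by ring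
      rw [e2, d1, d2]
      have e3 : 1 + 2*w = s := by rw [hs]; ring
      have e4 : 1 + 2*w^2 = -s := by rw [hs]; linear_combination 2 * hw
      rw [e3, e4, hs]
      linear_combination ((Sd m : ℂ) * (2*w+1)) * hw - 0 * hw
    exact_mod_cast key
  · have key : (((3 * Sg1 m ^ 2 : ℚ)) : ℂ) = ((-4 * (AA m : ℚ) : ℚ) : ℂ) := by
      push_cast
      have e : (s * (Sg1 m : ℂ))^2 = 4 * F^2 := by rw [← hd]; ring
      rw [hsq, mul_pow, hs2] at e
      linear_combination -e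
    exact_mod_cast key

end Pool.Agent.R856.CM
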