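import Pool.Agent.R856.CM10

set_option autoImplicit false

/-!
Jacobi symbols attached to `p = x^2+3y^2`, `p ≡ 3 (mod 4)`, and the character sum modulo 3.
-/

namespace Pool.Agent.R856.CM

open Finset Pool.Agent.Helper857.Pad Pool.Agent.R856.TK

section symbols

variable {p : ℕ} [hp : Fact p.Prime]

lemma cop (x y : ℤ) (hxy : (p:ℤ) = x^2 + 3*y^2) : Int.gcd x y = 1 := by
  have h1 : ((Int.gcd x y : ℕ) : ℤ)^2 ∣ (p:ℤ) := by
    rw [hxy]
    exact dvd_add (pow_dvd_pow_of_dvd (Int.gcd_dvd_left x y) 2)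
      (Dvd.dvd.mul_left (pow_dvd_pow_of_dvd (Int.gcd_dvd_right x y) 2) 3)
  have h2 : (Int.gcd x y)^2 ∣ p := by exact_mod_cast h1
  rcases (Nat.dvd_prime_pow hp.out (m := 1) (i := (Int.gcd x y)^2)).mp (by rwa [pow_one]) with ⟨k, hk, e⟩
  interval_cases k
  · rw [pow_zero] at e
    rw [pow_two] at e
    exact Nat.eq_one_of_mul_eq_one_right e
  · exfalso
    have hd : p ∣ (Int.gcd x y)^2 := by rw [e, pow_one]
    have hd2 := hp.out.dvd_of_dvd_pow hd
    obtain ⟨z, hz⟩ := hd2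
    rw [hz, pow_one, mul_pow] at e
    have h0 := hp.out.two_le
    have hz0 : z ≠ 0 := by
      rintro rfl
      simp at e
      omega
    have hz1 : 1 ≤ z^2 := Nat.one_le_iff_ne_zero.mpr (pow_ne_zero 2 hz0)
    nlinarith

lemma leg_y (x y : ℤ) (hxy : (p:ℤ) = x^2 + 3*y^2) (hp4 : p % 4 = 3) (hy : y % 4 = 1) : jacobiSym y p = 1 := by
  have hodd : Odd p := Nat.odd_iff.mpr (by omega)
  have hc := cop x y hxy
  obtain ⟨n, hn⟩ : ∃ n : ℕ, n = y.natAbs := ⟨_, rfl⟩
  have hgn : x.gcd n = 1 := by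
    rw [hn]
    show Nat.gcd x.natAbs ((y.natAbs:ℤ)).natAbs = 1
    rw [Int.natAbs_natCast]
    exact hc
  have hpn : jacobiSym (p:ℤ) n = 1 := by
    have : jacobiSym (p:ℤ) n = jacobiSym (x^2) n := by
      apply jacobiSym.mod_left'
      apply Int.ModEq.symm
      rw [Int.modEq_iff_dvd]
      have : (n:ℤ) ∣ y := by rw [hn]; exact Int.natAbs_dvd.mpr dvd_rfl
      have e : (p:ℤ) - x^2 = y * (3*y) := by rw [hxy]; ring
      rw [e]
      exact Dvd.dvd.mul_right this _
    rw [this]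
    exact jacobiSym.sq_one' hgn
  rcases le_total 0 y with h0 | h0
  · have e : y = (n:ℤ) := by omega
    rw [e, jacobiSym.quadratic_reciprocity_one_mod_four (by omega) hodd, hpn]
  · have e : y = -(n:ℤ) := by omega
    have h3 : ZMod.χ₄ (p : ZMod 4) = -1 := ZMod.χ₄_nat_three_mod_four hp4
    rw [e, jacobiSym.neg _ hodd, jacobiSym.quadratic_reciprocity_three_mod_four (by omega) hp4, hpn, h3]
    norm_num

lemma leg_odd (x y : ℤ) (hxy : (p:ℤ) = x^2 + 3*y^2) (hp4 : p % 4 = 3) (n : ℕ) (hn : Odd n) (hd : (n:ℤ) ∣ x) :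
    jacobiSym (n:ℤ) p = jacobiSym (n:ℤ) 3 := by
  have hodd : Odd p := Nat.odd_iff.mpr (by omega)
  have hc := cop x y hxy
  have hgn : y.gcd n = 1 := by
    have h1 : y.gcd n ∣ Int.gcd x y := by
      apply Int.dvd_gcd
      · exact dvd_trans (Int.gcd_dvd_right y n) hd
      · exact Int.gcd_dvd_left y n
    rw [hc] at h1
    exact Nat.dvd_one.mp h1
  have hpn : jacobiSym (p:ℤ) n = jacobiSym 3 n := by
    have : jacobiSym (p:ℤ) n = jacobiSym (3 * y^2) n := by
      apply jacobiSym.mod_left'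
      apply Int.ModEq.symm
      rw [Int.modEq_iff_dvd]
      have e : (p:ℤ) - 3*y^2 = x * x := by rw [hxy]; ring
      rw [e]
      exact Dvd.dvd.mul_right hd _
    rw [this, jacobiSym.mul_left, jacobiSym.sq_one' hgn, mul_one]
  have h3 : Odd 3 := by decide
  have hn2 : n % 4 = 1 ∨ n % 4 = 3 := by
    obtain ⟨k, hk⟩ := hn
    omega
  rcases hn2 with h | h
  · rw [jacobiSym.quadratic_reciprocity_one_mod_four h hodd, hpn]
    have := jacobiSym.quadratic_reciprocity_one_mod_four h h3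
    rw [this]; rfl
  · rw [jacobiSym.quadratic_reciprocity_three_mod_four h hp4, hpn]
    have := jacobiSym.quadratic_reciprocity_three_mod_four h (show 3 % 4 = 3 by norm_num)
    rw [this]; rfl

lemma leg_x (x y : ℤ) (hxy : (p:ℤ) = x^2 + 3*y^2) (hp4 : p % 4 = 3) (hy : y % 2 = 1) (hx : x % 3 = 1) :
    jacobiSym x p = (-1)^((p-3)/4) := by
  have hodd : Odd p := Nat.odd_iff.mpr (by omega)
  have h3 : Odd 3 := by decide
  have hx0 : x ≠ 0 := by rintro rfl; omega
  have j23 : jacobiSym 2 3 = -1 := by norm_num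
  have jx3 : jacobiSym x 3 = 1 := by
    rw [jacobiSym.mod_left]
    have : x % ((3:ℕ):ℤ) = 1 := by exact_mod_cast hx
    rw [this]; exact jacobiSym.one_left 3
  obtain ⟨e, n, hn, hN⟩ := Nat.exists_eq_two_pow_mul_odd (Int.natAbs_ne_zero.mpr hx0)
  have hdn : (n:ℤ) ∣ x := by
    have : n ∣ x.natAbs := ⟨2^e, by rw [hN]; ring⟩
    exact Int.natCast_dvd.mpr this
  have hj := leg_odd x y hxy hp4 n hn hdn
  have hJp : jacobiSym ((x.natAbs : ℕ) : ℤ) p = (jacobiSym 2 p)^e * jacobiSym (n:ℤ) p := by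
    rw [hN]; push_cast
    rw [jacobiSym.mul_left, jacobiSym.pow_left]
  have hJ3 : jacobiSym ((x.natAbs : ℕ) : ℤ) 3 = (jacobiSym 2 3)^e * jacobiSym (n:ℤ) 3 := by
    rw [hN]; push_cast
    rw [jacobiSym.mul_left, jacobiSym.pow_left]
  have hy2 : ∃ r, y^2 = 8*r+1 := by
    obtain ⟨q, hq⟩ : ∃ q, y = 2*q+1 := ⟨y/2, by omega⟩
    rcases Int.even_or_odd' q with ⟨r, hr | hr⟩
    · exact ⟨2*r^2+r, by rw [hq, hr]; ring⟩
    · exact ⟨2*r^2+3*r+1, by rw [hq, hr]; ring⟩
  obtain ⟨r, hr⟩ := hy2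
  have key : jacobiSym ((x.natAbs : ℕ) : ℤ) p = (-1)^((p-3)/4) * jacobiSym ((x.natAbs : ℕ) : ℤ) 3 := by
    rw [hJp, hJ3, hj, j23, jacobiSym.at_two hodd, ZMod.χ₈_nat_eq_if_mod_eight]
    have h8 : p % 8 = 3 ∨ p % 8 = 7 := by omega
    rcases h8 with h8 | h8
    · have e1 : (p-3)/4 = 2*((p-3)/8) := by omega
      rw [if_neg (by omega), if_neg (by omega), e1, pow_mul]
      norm_num
    · have e1 : (p-3)/4 = 2*((p-7)/8)+1 := by omega
      have he : e = 1 := by
        -- x = 2 mod 4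
        have h5 : x^2 % 8 = 4 := by
          have : (p:ℤ) % 8 = 7 := by omega
          rw [hxy, hr] at this
          omega
        have h6 : x % 4 = 2 := by
          have h7 : x % 4 = 0 ∨ x % 4 = 1 ∨ x % 4 = 2 ∨ x % 4 = 3 := by omega
          rcases h7 with h | h | h | h
          · obtain ⟨q, hq⟩ : ∃ q, x = 4*q := ⟨x/4, by omega⟩
            rw [hq] at h5
            have : (4*q)^2 = 8*(2*q^2) := by ring
            omega
          · obtain ⟨q, hq⟩ : ∃ q, x = 4*q+1 := ⟨x/4, by omega⟩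
            rw [hq] at h5
            have : (4*q+1)^2 = 8*(2*q^2+q)+1 := by ring
            omega
          · exact h
          · obtain ⟨q, hq⟩ : ∃ q, x = 4*q+3 := ⟨x/4, by omega⟩
            rw [hq] at h5
            have : (4*q+3)^2 = 8*(2*q^2+3*q+1)+1 := by ring
            omega
        have h8' : x.natAbs % 4 = 2 := by omega
        rw [hN] at h8'
        rcases e with _ | _ | e
        · obtain ⟨k, hk⟩ := hn
          omega
        · rfl
        · exfalso
          have : 2^(e+1+1) * n = 4 * (2^e * n) := by ring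
          rw [this] at h8'
          omega
      have e2 : (-1:ℤ)^(2*((p-7)/8)+1) = -1 := by rw [pow_succ, pow_mul]; norm_num
      rw [if_neg (by omega), if_pos (by omega), e1, he, e2]
      ring
  have hχp : ZMod.χ₄ (p : ZMod 4) = -1 := ZMod.χ₄_nat_three_mod_four hp4
  have hχ3 : ZMod.χ₄ ((3:ℕ) : ZMod 4) = -1 := ZMod.χ₄_nat_three_mod_four (by norm_num)
  rcases le_total 0 x with h0 | h0
  · have e0 : ((x.natAbs : ℕ) : ℤ) = x := by omega
    rw [e0, jx3, mul_one] at key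
    exact key
  · have e0 : ((x.natAbs : ℕ) : ℤ) = -x := by omega
    rw [e0, jacobiSym.neg _ hodd, jacobiSym.neg _ h3, jx3, hχp, hχ3] at key
    linarith

end symbols

section

variable {p : ℕ} [hp : Fact p.Prime] {c : ℕ} (hc : 6*c+1 = p) (hc1 : 1 ≤ c)

omit hp in
lemma shift_sum (N : ℕ) (h : ℕ → ℤ) (hh : ∀ i, h (i+N) = h i) : ∑ i ∈ range (N*3), h i = 3 * ∑ i ∈ range N, h i := by
  rw [show N*3 = N + N + N by ring, sum_range_add, sum_range_add]
  have e1 : ∑ x ∈ range N, h (N + x) = ∑ x ∈ range N, h x := by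
    apply sum_congr rfl; intro i _; rw [add_comm, hh]
  have e2 : ∑ x ∈ range N, h (N + N + x) = ∑ x ∈ range N, h x := by
    apply sum_congr rfl; intro i _
    rw [show N + N + i = (i + N) + N by ring, hh, hh]
  rw [e1, e2]; ring

include hc hc1

lemma s1_mod3 : s1 p % 3 = 1 := by
  obtain ⟨g, hg, -⟩ := exists_gen hc hc1
  have e0 : s1 p = 1 + ∑ x : ZMod p, (quadraticChar (ZMod p) (x^3+1) - if x = 0 then 1 else 0) := by
    unfold s1
    rw [sum_sub_distrib]
    simp
  have e1 : ∑ x : ZMod p, (quadraticChar (ZMod p) (x^3+1) - if x = 0 then 1 else 0) =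
      ∑ i ∈ range (p-1), (quadraticChar (ZMod p) (((g^i : (ZMod p)ˣ) : ZMod p)^3+1)) := by
    rw [sum_units _ (by simp), sum_gen g hg]
    apply sum_congr rfl
    intro i _
    rw [if_neg (Units.ne_zero _), sub_zero]
  rw [e0, e1, show p - 1 = (2*c)*3 by omega, shift_sum]
  · omega
  · intro i
    have h6 : ((g^(i+2*c) : (ZMod p)ˣ) : ZMod p)^3 = ((g^i : (ZMod p)ˣ) : ZMod p)^3 := by
      rw [← Units.val_pow_eq_pow_val, ← Units.val_pow_eq_pow_val, ← pow_mul, ← pow_mul]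
      congr 1
      have : g^(p-1) = 1 := ZMod.units_pow_card_sub_one_eq_one p g
      rw [show (i+2*c)*3 = i*3 + (p-1) by omega, pow_add, this, mul_one]
    rw [h6]

end

end Pool.Agent.R856.CM
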