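import Pool.Agent.R856.CM12

set_option autoImplicit false

/-!
The harmonic weighted sum: an argument with the Legendre differential operator in
characteristic `p`.
-/

namespace Pool.Agent.R856.CM

open Finset Polynomial

section field

variable {K : Type*} [Field K]

/-- the differential operator -/
noncomputable def DD (u : K[X]) : K[X] := 4 * derivative (X * ((1+X) * derivative u)) + u

lemma xder_coeff (u : K[X]) (k : ℕ) : (X * derivative u).coeff k = (k:K) * u.coeff k := by
  cases k with
  | zero => simp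
  | succ k => rw [coeff_X_mul, coeff_derivative]; push_cast; ring

lemma DD_coeff (u : K[X]) (k : ℕ) : (DD u).coeff k = 4*((k:K)+1)^2 * u.coeff (k+1) + (2*(k:K)+1)^2 * u.coeff k := by
  unfold DD
  have e : X * ((1+X) * derivative u) = X * derivative u + X * (X * derivative u) := by ring
  have four : (4:K[X]) = C 4 := (map_ofNat (C : K →+* K[X]) 4).symm
  rw [e, four, coeff_add, coeff_C_mul, coeff_derivative, coeff_add, coeff_X_mul, coeff_X_mul, coeff_derivative, xder_coeff]
  ring

lemma DD_add (u v : K[X]) : DD (u + v) = DD u + DD v := by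
  unfold DD
  rw [derivative_add, mul_add, mul_add, derivative_add]; ring

lemma DD_C_mul (c : K) (u : K[X]) : DD (C c * u) = C c * DD u := by
  unfold DD
  rw [derivative_C_mul]
  have : X * ((1+X) * (C c * derivative u)) = C c * (X * ((1+X) * derivative u)) := by ring
  rw [this, derivative_C_mul]; ring

lemma four_comp (q : K[X]) : (4:K[X]).comp q = 4 := by
  have four : (4:K[X]) = C 4 := (map_ofNat (C : K →+* K[X]) 4).symm
  rw [four, C_comp]

lemma der_comp (u : K[X]) : derivative (u.comp (-1 - X)) = -(derivative u).comp (-1 - X) := by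
  rw [derivative_comp]
  have : derivative (-1 - X : K[X]) = -1 := by
    rw [derivative_sub, derivative_neg, derivative_one, derivative_X]; ring
  rw [this]; ring

lemma DD_comp (u : K[X]) : DD (u.comp (-1 - X)) = (DD u).comp (-1 - X) := by
  unfold DD
  rw [der_comp]
  have e1 : X * ((1+X) * -(derivative u).comp (-1 - X)) = -(X * ((1+X) * derivative u)).comp (-1 - X) := by
    simp only [mul_comp, add_comp, X_comp, one_comp]
    ring
  rw [e1, derivative_neg, der_comp]
  simp only [add_comp, mul_comp, four_comp, neg_neg]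

/-- reversal -/
noncomputable def rv (m : ℕ) (u : K[X]) : K[X] := ∑ k ∈ range (m+1), C (u.coeff (m-k)) * X^k

lemma rv_coeff (m : ℕ) (u : K[X]) (k : ℕ) : (rv m u).coeff k = if k ≤ m then u.coeff (m-k) else 0 := by
  unfold rv
  rw [finsetSum_coeff]
  simp only [coeff_C_mul_X_pow]
  rw [Finset.sum_ite_eq]
  simp only [mem_range, Nat.lt_succ_iff]

lemma rv_deg (m : ℕ) (u : K[X]) : (rv m u).natDegree ≤ m := by
  rw [natDegree_le_iff_coeff_eq_zero]
  intro k hk
  rw [rv_coeff, if_neg (by omega)]

lemma co_zero {m : ℕ} {u : K[X]} (h : u.natDegree ≤ m) {k : ℕ} (hk : m < k) : u.coeff k = 0 :=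
  coeff_eq_zero_of_natDegree_lt (lt_of_le_of_lt h hk)

lemma comp_deg {m : ℕ} {u : K[X]} (h : u.natDegree ≤ m) : (u.comp (-1 - X)).natDegree ≤ m := by
  refine le_trans natDegree_comp_le ?_
  have h1 : (-1 - X : K[X]).natDegree ≤ 1 := by
    refine le_trans (natDegree_sub_le _ _) ?_
    rw [natDegree_X]
    simp
  calc u.natDegree * (-1 - X : K[X]).natDegree ≤ u.natDegree * 1 := Nat.mul_le_mul_left _ h1
    _ ≤ m := by omega

lemma rv_eval {m : ℕ} {u : K[X]} (h : u.natDegree ≤ m) {x y : K} (hxy : x * y = 1) :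
    (rv m u).eval x = x^m * u.eval y := by
  unfold rv
  rw [eval_finsetSum, eval_eq_sum_range' (lt_of_le_of_lt h (Nat.lt_succ_self m)), mul_sum, ← sum_range_reflect]
  apply sum_congr rfl
  intro k hk
  rw [mem_range] at hk
  simp only [eval_mul, eval_C, eval_pow, eval_X]
  rw [show m - (m + 1 - 1 - k) = k by omega, show m + 1 - 1 - k = m - k by omega]
  have : x^m * y^k = x^(m-k) := by
    rw [show m = (m-k) + k by omega, pow_add, Nat.add_sub_cancel, mul_assoc, ← mul_pow, hxy, one_pow, mul_one]
  linear_combination (-(u.coeff k)) * this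

section
variable {m : ℕ} (hm1 : 1 ≤ m) (h2m : 2*(m:K)+1 = 0)
include hm1 h2m

lemma DD_rv {u : K[X]} (_ : u.natDegree ≤ m) : DD (rv m u) = rv (m-1) (DD u) := by
  ext k
  rw [DD_coeff, rv_coeff, rv_coeff, rv_coeff]
  rcases lt_trichotomy k m with hk | hk | hk
  · rw [if_pos (by omega), if_pos (by omega), if_pos (by omega), DD_coeff]
    obtain ⟨j, hj⟩ : ∃ j, m = k + 1 + j := ⟨m - (k+1), by omega⟩
    rw [show m - (k+1) = j by omega, show m - k = j+1 by omega, show m - 1 - k = j by omega]
    have e : (m:K) = k + 1 + j := by rw [hj]; push_cast; ring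
    rw [e] at h2m
    have e1 : 2*(j:K)+1 = -(2*((k:K)+1)) := by linear_combination h2m
    have e2 : 2*((j:K)+1) = -(2*(k:K)+1) := by linear_combination h2m
    have e3 : 4*((j:K)+1)^2 = (2*(k:K)+1)^2 := by
      calc 4*((j:K)+1)^2 = (2*((j:K)+1))^2 := by ring
        _ = _ := by rw [e2]; ring
    rw [e1, e3]; ring
  · rw [if_neg (by omega), if_pos (by omega), if_neg (by omega), hk, h2m]; ring
  · rw [if_neg (by omega), if_neg (by omega), if_neg (by omega)]; ring

end

/-- the kernel is one-dimensional -/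
lemma ker_one {m : ℕ} (hinv : ∀ k < m, 4*((k:K)+1)^2 ≠ 0) {f u : K[X]} (hf : f.natDegree ≤ m) (hu : u.natDegree ≤ m)
    (hf0 : f.coeff 0 = 1) (Df : DD f = 0) (Du : DD u = 0) : u = C (u.coeff 0) * f := by
  ext k
  rw [coeff_C_mul]
  induction k with
  | zero => rw [hf0, mul_one]
  | succ k ih =>
    rcases Nat.lt_or_ge k m with hk | hk
    · have h1 := congrArg (fun q => q.coeff k) Df
      have h2 := congrArg (fun q => q.coeff k) Du
      simp only [DD_coeff, coeff_zero] at h1 h2
      apply mul_left_cancel₀ (hinv k hk)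
      rw [ih] at h2
      linear_combination h2 - (u.coeff 0) * h1
    · rw [co_zero hu (by omega), co_zero hf (by omega), mul_zero]

/-- abstract form of the argument -/
theorem equal_values {m : ℕ} (hm1 : 1 ≤ m) (h3m : m % 3 = 0) (h2m : 2*(m:K)+1 = 0) (h3 : (3:K) ≠ 0)
    (hinv : ∀ k < m, 4*((k:K)+1)^2 ≠ 0) {f h : K[X]} (hf : f.natDegree ≤ m) (hh : h.natDegree ≤ m)
    (hf0 : f.coeff 0 = 1) (Df : DD f = 0) (Dh : DD h = 4 * derivative f) {w : K} (hw : w^2 + w + 1 = 0)
    (hfw : f.eval w ≠ 0) (hff : f.eval w = f.eval (w^2)) : h.eval w = h.eval (w^2) := by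
  have hw3 : w^3 = 1 := w3 hw
  have hwm : w^m = 1 := by
    obtain ⟨j, hj⟩ : ∃ j, m = 3*j := ⟨m/3, by omega⟩
    rw [hj, pow_mul, hw3, one_pow]
  have hwm2 : (w^2)^m = 1 := by rw [← pow_mul, mul_comm, pow_mul, hwm, one_pow]
  have i1 : w * w^2 = 1 := by rw [← hw3]; ring
  have i2 : w^2 * w = 1 := by rw [← hw3]; ring
  have c1 : (-1 - w) = w^2 := by linear_combination -hw
  have c2 : (-1 - w^2) = w := by linear_combination -hw
  -- symmetries of f
  have hA : f.comp (-1 - X) = f := by
    have h1 := ker_one hinv hf (comp_deg hf) hf0 Df (by rw [DD_comp, Df, zero_comp])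
    have h2 := congrArg (fun q => q.eval w) h1
    simp only [eval_comp, eval_mul, eval_C, eval_sub, eval_neg, eval_one, eval_X] at h2
    rw [c1, ← hff] at h2
    have h4 : (f.comp (-1 - X)).coeff 0 = 1 := by
      apply mul_right_cancel₀ hfw
      rw [← h2, one_mul]
    rw [h1, h4, C_1, one_mul]
  have hB : rv m f = f := by
    have h1 := ker_one hinv hf (rv_deg m f) hf0 Df (by
      rw [DD_rv hm1 h2m hf, Df]; ext k; rw [rv_coeff]; simp)
    have h2 := congrArg (fun q => q.eval w) h1
    simp only [eval_mul, eval_C] at h2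
    rw [rv_eval hf i1, hwm, one_mul, ← hff] at h2
    have h4 : (rv m f).coeff 0 = 1 := by
      apply mul_right_cancel₀ hfw
      rw [← h2, one_mul]
    rw [h1, h4, C_1, one_mul]
  -- derivative relations
  have hA' : (derivative f).comp (-1 - X) = -derivative f := by
    have := der_comp f
    rw [hA] at this
    exact neg_eq_iff_eq_neg.mp this.symm
  have hB' : rv (m-1) (derivative f) = (m : K[X]) * f - X * derivative f := by
    ext k
    rw [rv_coeff, coeff_sub, xder_coeff, ← C_eq_natCast, coeff_C_mul]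
    have hk0 := rv_coeff m f k
    rw [hB] at hk0
    rcases Nat.lt_or_ge k m with hk | hk
    · rw [if_pos (by omega), coeff_derivative, hk0, if_pos (by omega), show m - 1 - k + 1 = m - k by omega]
      have : ((m-1-k:ℕ):K) + 1 = (m:K) - k := by
        have e : ((m-1-k+1:ℕ):K) = ((m-k:ℕ):K) := by rw [show m-1-k+1 = m-k by omega]
        rw [Nat.cast_sub (by omega)] at e
        rw [← e]; push_cast; ring
      rw [this]; ring
    · rw [if_neg (by omega)]
      rcases Nat.eq_or_lt_of_le hk with h5 | h5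
      · rw [← h5]; ring
      · rw [co_zero hf h5]; ring
  have hrv4 : rv (m-1) (4 * derivative f) = 4 * rv (m-1) (derivative f) := by
    have four : (4:K[X]) = C 4 := (map_ofNat (C : K →+* K[X]) 4).symm
    ext k
    rw [rv_coeff, four, coeff_C_mul, coeff_C_mul, rv_coeff]
    split_ifs <;> ring
  have hrvn : rv (m-1) (-(4 * derivative f)) = -(4 * rv (m-1) (derivative f)) := by
    rw [← hrv4]
    ext k
    rw [rv_coeff, coeff_neg, coeff_neg, rv_coeff]
    split_ifs <;> ring
  -- the three transforms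
  have d1 : DD ((rv m h).comp (-1 - X)) = 4 * ((m : K[X]) * f - (1+X) * derivative f) := by
    rw [DD_comp, DD_rv hm1 h2m hh, Dh, hrv4, hB']
    simp only [mul_comp, sub_comp, X_comp, natCast_comp, four_comp]
    rw [hA, hA']
    ring
  have d2 : DD (rv m (h.comp (-1 - X))) = 4 * (X * derivative f - (m : K[X]) * f) := by
    rw [DD_rv hm1 h2m (comp_deg hh), DD_comp, Dh, mul_comp, four_comp, hA', mul_neg, hrvn, hB']
    ring
  have Ds : DD (h + (rv m h).comp (-1 - X) + rv m (h.comp (-1 - X))) = 0 := by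
    rw [DD_add, DD_add, Dh, d1, d2]; ring
  have hdeg : (h + (rv m h).comp (-1 - X) + rv m (h.comp (-1 - X))).natDegree ≤ m := by
    refine le_trans (natDegree_add_le _ _) (max_le (le_trans (natDegree_add_le _ _) (max_le hh (comp_deg (rv_deg m h)))) (rv_deg m _))
  have hk := ker_one hinv hf hdeg hf0 Df Ds
  set κ := (h + (rv m h).comp (-1 - X) + rv m (h.comp (-1 - X))).coeff 0
  have e1 := congrArg (fun q => q.eval w) hk
  have e2 := congrArg (fun q => q.eval (w^2)) hk
  simp only [eval_add, eval_mul, eval_C, eval_comp, eval_sub, eval_neg, eval_one, eval_X] at e1 e2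
  rw [c1, rv_eval hh i2, rv_eval (comp_deg hh) i1, hwm, hwm2, eval_comp] at e1
  rw [c2, rv_eval hh i1, rv_eval (comp_deg hh) i2, hwm, hwm2, eval_comp] at e2
  simp only [eval_sub, eval_neg, eval_one, eval_X] at e1 e2
  rw [c2] at e1
  rw [c1] at e2
  apply mul_left_cancel₀ h3
  linear_combination e1 - e2 + κ * hff

end field

end Pool.Agent.R856.CM
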