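import Pool.Agent.R856.CM13

set_option autoImplicit false

/-!
The case `p ≡ 1 (mod 12)`.
-/

namespace Pool.Agent.R856.CM

open Finset Polynomial Pool.Agent.Helper857.Pad Pool.Agent.R856.TK

lemma Sg1_even (m : ℕ) (heven : m % 2 = 0) : Sg1 m = 0 := by
  obtain ⟨w, hw⟩ : ∃ w : ℂ, w^2 + w + 1 = 0 := by
    obtain ⟨s, hs⟩ : ∃ s : ℂ, s^2 = -3 := by
      refine ⟨Complex.I * (Real.sqrt 3 : ℂ), ?_⟩
      rw [mul_pow, Complex.I_sq]
      have : ((Real.sqrt 3 : ℂ))^2 = 3 := by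
        rw [← Complex.ofReal_pow, Real.sq_sqrt (by norm_num)]; simp
      rw [this]; ring
    exact ⟨(s-1)/2, by linear_combination hs/4⟩
  obtain ⟨s, hs⟩ : ∃ s : ℂ, s = 2*w+1 := ⟨_, rfl⟩
  have hs2 : s^2 = -3 := by rw [hs]; linear_combination 4 * hw
  have hs0 : s ≠ 0 := by
    rintro rfl; norm_num at hs2
  have hT1 := T_fv m w hw
  have hT2 := T_fv2 m hw
  rw [← hs] at hT1 hT2
  have hneg : (-s)^m = s^m := Even.neg_pow (Nat.even_iff.mpr heven) s
  rw [hneg] at hT2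
  have hsm : s^m ≠ 0 := pow_ne_zero m hs0
  have hf2 : fv m (w^2) = fv m w := by
    apply mul_left_cancel₀ hsm
    linear_combination hT1 - hT2
  have hd := fv_diff m hw
  rw [← hs, hf2, sub_self] at hd
  have hS1 : ((Sg1 m : ℚ) : ℂ) = ∑ k ∈ range (m+1), (chi3 k : ℂ) * ((m.choose k : ℂ) * ((m+k).choose k : ℂ)) := by
    unfold Sg1
    push_cast
    apply sum_congr rfl
    intro k _
    rw [aa_cast]
  rw [← hS1] at hd
  have h0 := (mul_eq_zero.mp hd.symm).resolve_left hs0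
  exact_mod_cast h0

section

variable {p : ℕ} [hp : Fact p.Prime] {c : ℕ} (hc : 6*c+1 = p) (hc1 : 1 ≤ c)
include hc hc1

lemma T_b : (p:ℤ) ∣ TT (3*c) - ((3*c).choose (2*c) : ℤ) := by
  have h1 := (T_exp hc hc1).mono (show 1 ≤ 2 by norm_num)
  have mP1 := hs_mem hc hc1 (3*c) (by omega)
  have mP2 := hs_mem hc hc1 (2*c) (by omega)
  have mb : ((3*c).choose (2*c) : ℚ) ∈ Zp p := nat_mem _
  have m3i : (1/3:ℚ) ∈ Zp p := by
    have := one_div_c hc hc1 (k := 3) (by omega) (by omega)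
    exact_mod_cast this
  have mQ : hs (3*c) - hs (2*c) ∈ Zp p := (Zp p).sub_mem mP1 mP2
  have h3 : I p 1 (((TT (3*c) - ((3*c).choose (2*c) : ℤ) : ℤ)) : ℚ) := by
    have e : (((TT (3*c) - ((3*c).choose (2*c) : ℤ) : ℤ)) : ℚ) =
      ((TT (3*c) : ℚ) - ((3*c).choose (2*c) : ℚ) * (1 - (p:ℚ) * (1/3) * (hs (3*c) - hs (2*c)))) -
      (p:ℚ)^1 * (((3*c).choose (2*c) : ℚ) * ((1/3) * (hs (3*c) - hs (2*c)))) := by
      push_cast; ring
    rw [e]
    exact h1.sub ((I.p_pow 1).mul_mem ((Zp p).mul_mem mb ((Zp p).mul_mem m3i mQ)))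
  have := num_of_I h3
  rw [pow_one, Rat.num_intCast] at this
  exact this

omit hc1 in
lemma az_rec (k : ℕ) : 4*((k:ZMod p)+1)^2 * (((3*c).choose (k+1) : ZMod p) * ((3*c+(k+1)).choose (k+1) : ZMod p)) +
    (2*(k:ZMod p)+1)^2 * (((3*c).choose k : ZMod p) * ((3*c+k).choose k : ZMod p)) = 0 := by
  have h := aa_succ (3*c) k
  unfold aa at h
  have h' : ((k:ℤ)+1)^2 * (((3*c).choose (k+1) : ℤ) * ((3*c+(k+1)).choose (k+1) : ℤ)) =
      (((3*c:ℕ):ℤ)*(((3*c:ℕ):ℤ)+1) - k*(k+1)) * (((3*c).choose k : ℤ) * ((3*c+k).choose k : ℤ)) := by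
    exact_mod_cast h
  have h2 := congrArg (Int.cast : ℤ → ZMod p) h'
  push_cast at h2
  have hp0 : 6*(c:ZMod p)+1 = 0 := by
    have : ((6*c+1:ℕ) : ZMod p) = 0 := by rw [hc]; exact ZMod.natCast_self p
    push_cast at this; exact this
  linear_combination 4 * h2 + (((3*c).choose k : ZMod p) * ((3*c+k).choose k : ZMod p)) * (6*(c:ZMod p)+1) * hp0

/-- harmonic numbers modulo `p` -/
def Hm (p : ℕ) (k : ℕ) : ZMod p := ∑ i ∈ range k, ((i:ZMod p)+1)⁻¹

theorem harm_zmod (hev : c % 2 = 0) :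
    ∑ k ∈ range (3*c+1), (chi3 k : ZMod p) * ((((3*c).choose k : ZMod p) * ((3*c+k).choose k : ZMod p)) * Hm p k) = 0 := by
  obtain ⟨g, hg, w, hw⟩ := exists_gen hc hc1
  obtain ⟨a, ha⟩ : ∃ a : ℕ → ZMod p, a = fun k => ((3*c).choose k : ZMod p) * ((3*c+k).choose k : ZMod p) := ⟨_, rfl⟩
  have ha0 : ∀ k, 3*c < k → a k = 0 := by
    intro k hk
    rw [ha]; simp only
    rw [Nat.choose_eq_zero_of_lt hk]; simp
  obtain ⟨f, hf⟩ : ∃ f : (ZMod p)[X], f = ∑ k ∈ range (3*c+1), C (a k) * X^k := ⟨_, rfl⟩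
  obtain ⟨h, hh⟩ : ∃ h : (ZMod p)[X], h = ∑ k ∈ range (3*c+1), C (a k * Hm p k) * X^k := ⟨_, rfl⟩
  have fco : ∀ k, f.coeff k = a k := by
    intro k
    rw [hf, finsetSum_coeff]
    simp only [coeff_C_mul_X_pow]
    rw [Finset.sum_ite_eq]
    split_ifs with h1
    · rfl
    · rw [mem_range] at h1
      rw [ha0 k (by omega)]
  have hco : ∀ k, h.coeff k = a k * Hm p k := by
    intro k
    rw [hh, finsetSum_coeff]
    simp only [coeff_C_mul_X_pow]
    rw [Finset.sum_ite_eq]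
    split_ifs with h1
    · rfl
    · rw [mem_range] at h1
      rw [ha0 k (by omega), zero_mul]
  have hrec : ∀ k : ℕ, 4*((k:ZMod p)+1)^2 * a (k+1) + (2*(k:ZMod p)+1)^2 * a k = 0 := by
    intro k
    rw [ha]
    exact az_rec hc k
  have fdeg : f.natDegree ≤ 3*c := by
    rw [natDegree_le_iff_coeff_eq_zero]
    intro k hk; rw [fco, ha0 k hk]
  have hdeg : h.natDegree ≤ 3*c := by
    rw [natDegree_le_iff_coeff_eq_zero]
    intro k hk; rw [hco, ha0 k hk, zero_mul]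
  have Df : DD f = 0 := by
    ext k
    rw [DD_coeff, fco, fco, coeff_zero]
    exact hrec k
  have Dh : DD h = 4 * derivative f := by
    have four : (4:(ZMod p)[X]) = C 4 := (map_ofNat (C : ZMod p →+* (ZMod p)[X]) 4).symm
    ext k
    rw [DD_coeff, hco, hco, four, coeff_C_mul, coeff_derivative, fco]
    have h1 := hrec k
    by_cases hk : (k:ZMod p)+1 = 0
    · rw [hk] at h1 ⊢
      linear_combination (Hm p k) * h1
    · have h2 : Hm p (k+1) = Hm p k + ((k:ZMod p)+1)⁻¹ := by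
        unfold Hm; rw [sum_range_succ]
      have h3 : ((k:ZMod p)+1) * ((k:ZMod p)+1)⁻¹ = 1 := mul_inv_cancel₀ hk
      rw [h2]
      linear_combination (Hm p k) * h1 + 4 * ((k:ZMod p)+1) * a (k+1) * h3
  have feval : ∀ x : ZMod p, f.eval x = fv (3*c) x := by
    intro x
    rw [hf, eval_finsetSum, ha]
    unfold fv
    apply sum_congr rfl
    intro k _
    simp only [eval_mul, eval_C, eval_pow, eval_X]
  have heval : ∀ x : ZMod p, h.eval x = ∑ k ∈ range (3*c+1), (a k * Hm p k) * x^k := by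
    intro x
    rw [hh, eval_finsetSum]
    apply sum_congr rfl
    intro k _
    simp only [eval_mul, eval_C, eval_pow, eval_X]
  obtain ⟨s, hs⟩ : ∃ s : ZMod p, s = 2*w+1 := ⟨_, rfl⟩
  have hs2 : s^2 = -3 := by rw [hs]; linear_combination 4 * hw
  have h3 : (3 : ZMod p) ≠ 0 := by
    have : ((3:ℕ) : ZMod p) ≠ 0 := by
      rw [Ne, ZMod.natCast_eq_zero_iff]
      intro hd
      exact absurd (Nat.le_of_dvd (by norm_num) hd) (by omega)
    exact_mod_cast this
  have h2 : (2 : ZMod p) ≠ 0 := by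
    have : ((2:ℕ) : ZMod p) ≠ 0 := by
      rw [Ne, ZMod.natCast_eq_zero_iff]
      intro hd
      exact absurd (Nat.le_of_dvd (by norm_num) hd) (by omega)
    exact_mod_cast this
  have hs0 : s ≠ 0 := by
    rintro rfl
    apply h3
    linear_combination hs2
  have hT1 := T_fv (3*c) w hw
  have hT2 := T_fv2 (3*c) hw
  rw [← hs] at hT1 hT2
  have hneg : (-s)^(3*c) = s^(3*c) := Even.neg_pow (Nat.even_iff.mpr (by omega)) s
  rw [hneg] at hT2
  have hff : f.eval w = f.eval (w^2) := by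
    rw [feval, feval]
    apply mul_left_cancel₀ (pow_ne_zero (3*c) hs0)
    rw [← hT1, ← hT2]
  have hfw : f.eval w ≠ 0 := by
    rw [feval]
    intro h0
    rw [h0, mul_zero] at hT1
    have hb := zmod_of_dvd (T_b hc hc1)
    push_cast at hb
    rw [hT1, zero_sub, neg_eq_zero] at hb
    rw [ZMod.natCast_eq_zero_iff] at hb
    exact b_unit hc hc1 hb
  have hinv : ∀ k < 3*c, 4*((k:ZMod p)+1)^2 ≠ 0 := by
    intro k hk
    have h4 : (4 : ZMod p) ≠ 0 := by
      have : (4 : ZMod p) = 2*2 := by norm_num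
      rw [this]; exact mul_ne_zero h2 h2
    refine mul_ne_zero h4 (pow_ne_zero 2 ?_)
    have : ((k+1:ℕ) : ZMod p) ≠ 0 := by
      rw [Ne, ZMod.natCast_eq_zero_iff]
      intro hd
      exact absurd (Nat.le_of_dvd (by omega) hd) (by omega)
    push_cast at this; exact this
  have h2m : 2*((3*c:ℕ):ZMod p)+1 = 0 := by
    have : ((6*c+1:ℕ) : ZMod p) = 0 := by rw [hc]; exact ZMod.natCast_self p
    push_cast at this ⊢
    linear_combination this
  have key := equal_values (m := 3*c) (by omega) (by omega) h2m h3 hinv fdeg hdeg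
    (by rw [fco, ha]; simp) Df Dh hw hfw hff
  rw [heval, heval] at key
  apply mul_left_cancel₀ hs0
  rw [mul_zero, mul_sum]
  have e : ∑ k ∈ range (3*c+1), s * ((chi3 k : ZMod p) * ((((3*c).choose k : ZMod p) * ((3*c+k).choose k : ZMod p)) * Hm p k)) =
      ∑ k ∈ range (3*c+1), (a k * Hm p k) * w^k - ∑ k ∈ range (3*c+1), (a k * Hm p k) * (w^2)^k := by
    rw [← sum_sub_distrib]
    apply sum_congr rfl
    intro k _
    have := chi_w hw k
    rw [← hs] at this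
    rw [ha]; simp only
    linear_combination (-((((3*c).choose k : ZMod p) * ((3*c+k).choose k : ZMod p)) * Hm p k)) * this
  rw [e, key, sub_self]

theorem harm_I (hev : c % 2 = 0) : I p 1 (∑ k ∈ range (3*c+1), (chi3 k : ℚ) * (aa (3*c) k * hs k)) := by
  obtain ⟨u, hu⟩ : ∃ u : ℕ → ℤ, u = fun (i:ℕ) => ((((i:ZMod p)+1)⁻¹).val : ℤ) := ⟨_, rfl⟩
  have huc : ∀ i, ((u i : ℤ) : ZMod p) = ((i:ZMod p)+1)⁻¹ := by
    intro i; rw [hu]; simp
  obtain ⟨Z, hZ⟩ : ∃ Z : ℤ, Z = ∑ k ∈ range (3*c+1), chi3 k * ((((3*c).choose k : ℤ) * ((3*c+k).choose k : ℤ)) * ∑ i ∈ range k, u i) := ⟨_, rfl⟩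
  have hZp : (p:ℤ) ∣ Z := by
    apply dvd_of_zmod
    rw [hZ]
    push_cast
    rw [← harm_zmod hc hc1 hev]
    apply sum_congr rfl
    intro k _
    unfold Hm
    simp only [huc]
  obtain ⟨z, hz⟩ := hZp
  have hd : ∀ k < p, I p 1 (hs k - ∑ i ∈ range k, (u i : ℚ)) := by
    intro k hk
    unfold hs
    rw [← sum_sub_distrib]
    apply I.sum
    intro i hi
    rw [mem_range] at hi
    have h1 : (p:ℤ) ∣ ((i:ℤ)+1) * u i - 1 := by
      apply dvd_of_zmod
      push_cast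
      rw [huc]
      have : ((i+1:ℕ) : ZMod p) ≠ 0 := by
        rw [Ne, ZMod.natCast_eq_zero_iff]
        intro hd
        exact absurd (Nat.le_of_dvd (by omega) hd) (by omega)
      push_cast at this
      rw [mul_inv_cancel₀ this, sub_self]
    obtain ⟨q, hq⟩ := h1
    have hq' : ((i:ℚ)+1) * (u i : ℚ) - 1 = p * q := by exact_mod_cast hq
    have i1 := one_div_c hc hc1 (k := i+1) (by omega) (by omega)
    have hi0 : (i:ℚ)+1 ≠ 0 := by positivity
    have e : 1 / ((i:ℚ)+1) - (u i : ℚ) = (p:ℚ)^1 * (-((q:ℚ) * (1/((i+1:ℕ):ℚ)))) := by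
      push_cast
      field_simp
      linear_combination -hq'
    rw [e]
    exact (I.p_pow 1).mul_mem ((Zp p).neg_mem ((Zp p).mul_mem (int_mem q) i1))
  have e : ∑ k ∈ range (3*c+1), (chi3 k : ℚ) * (aa (3*c) k * hs k) =
      ∑ k ∈ range (3*c+1), (hs k - ∑ i ∈ range k, (u i : ℚ)) * ((chi3 k : ℚ) * aa (3*c) k) + (p:ℚ)^1 * (z:ℚ) := by
    have hZq : (Z:ℚ) = ∑ k ∈ range (3*c+1), (chi3 k : ℚ) * (aa (3*c) k * ∑ i ∈ range k, (u i : ℚ)) := by
      rw [hZ]; unfold aa; push_cast; rfl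
    have hz' : (p:ℚ)^1 * (z:ℚ) = Z := by rw [hz]; push_cast; ring
    rw [hz', hZq, ← sum_add_distrib]
    apply sum_congr rfl
    intro k _
    ring
  rw [e]
  apply I.add
  · apply I.sum
    intro k hk
    rw [mem_range] at hk
    apply (hd k (by omega)).mul_mem
    unfold aa
    exact (Zp p).mul_mem (int_mem _) ((Zp p).mul_mem (nat_mem _) (nat_mem _))
  · exact (I.p_pow 1).mul_mem (int_mem z)

omit hc hc1 in
lemma choose_prod (k : ℕ) : ((p-1).choose k : ℚ) * (-1)^k = ∏ i ∈ range k, (1 - (p:ℚ)/((i:ℚ)+1)) := by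
  have hp1 : ((p-1:ℕ):ℚ) = (p:ℚ) - 1 := by
    rw [Nat.cast_sub hp.out.one_le]; simp
  induction k with
  | zero => simp
  | succ k ih =>
    have h := choose_r (p-1) k
    have hk : (k:ℚ)+1 ≠ 0 := by positivity
    rw [prod_range_succ, ← ih]
    rw [hp1] at h
    have e : ((p-1).choose (k+1) : ℚ) = ((p-1).choose k : ℚ) * ((p:ℚ) - 1 - k) / ((k:ℚ)+1) := by
      rw [eq_div_iff hk]; exact h
    rw [e, pow_succ]
    field_simp
    ring

theorem partB (hev : c % 2 = 0) :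
    I p 2 (∑ k ∈ range p, ((p-1).choose k : ℚ) * ((chi3 k : ℚ) * (((2*k).choose k : ℚ)^2 / 16^k))) := by
  have hm : 2*(3*c)+1 = p := by omega
  have h := red (p := p) (m := 3*c) hm (by omega) (fun k => (chi3 k : ℚ) * (((p-1).choose k : ℚ) * (-1)^k)) (by
    intro k _
    exact (Zp p).mul_mem (int_mem _) ((Zp p).mul_mem (nat_mem _) ((Zp p).pow_mem ((Zp p).neg_mem (Zp p).one_mem) _)))
  have e1 : ∑ k ∈ range p, (chi3 k : ℚ) * (((p-1).choose k : ℚ) * (-1)^k) * (((2*k).choose k : ℚ)^2 / (-16)^k) =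
      ∑ k ∈ range p, ((p-1).choose k : ℚ) * ((chi3 k : ℚ) * (((2*k).choose k : ℚ)^2 / 16^k)) := by
    apply sum_congr rfl
    intro k _
    have e1 : (-16:ℚ)^k = (-1)^k * 16^k := by rw [← mul_pow]; norm_num
    have hm1 : ((-1:ℚ)^k) ≠ 0 := pow_ne_zero k (by norm_num)
    rw [e1]
    field_simp
  rw [e1] at h
  have h2 : I p 2 (∑ k ∈ range (3*c+1), (chi3 k : ℚ) * (((p-1).choose k : ℚ) * (-1)^k) * aa (3*c) k) := by
    have hterm : ∀ k < 3*c+1, I p 2 ((((p-1).choose k : ℚ) * (-1)^k) - (1 - (p:ℚ) * hs k)) := by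
      intro k hk
      have a1 := prod_one_sub (p := p) (m := 1) (fun i => (p:ℚ)/((i:ℚ)+1)) k (by
        intro i hi
        have := one_div_c hc hc1 (k := i+1) (by omega) (by omega)
        push_cast at this
        have e : (p:ℚ)/((i:ℚ)+1) = (p:ℚ)^1 * (1/((i:ℚ)+1)) := by ring
        rw [e]; exact (I.p_pow 1).mul_mem this)
      rw [choose_prod]
      have e2 : ∑ i ∈ range k, (p:ℚ)/((i:ℚ)+1) = (p:ℚ) * hs k := by
        unfold hs; rw [mul_sum]; apply sum_congr rfl; intro i _; ring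
      rw [← e2]
      exact a1
    have hH := harm_I hc hc1 hev
    have h0 := Sg1_even (3*c) (by omega)
    have e : ∑ k ∈ range (3*c+1), (chi3 k : ℚ) * (((p-1).choose k : ℚ) * (-1)^k) * aa (3*c) k =
        ∑ k ∈ range (3*c+1), ((((p-1).choose k : ℚ) * (-1)^k) - (1 - (p:ℚ) * hs k)) * ((chi3 k : ℚ) * aa (3*c) k) +
        Sg1 (3*c) - (p:ℚ)^1 * ∑ k ∈ range (3*c+1), (chi3 k : ℚ) * (aa (3*c) k * hs k) := by
      unfold Sg1
      rw [mul_sum, ← sum_add_distrib, ← sum_sub_distrib]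
      apply sum_congr rfl
      intro k _
      ring
    rw [e, h0, add_zero]
    apply I.sub
    · apply I.sum
      intro k hk
      rw [mem_range] at hk
      apply (hterm k hk).mul_mem
      unfold aa
      exact (Zp p).mul_mem (int_mem _) ((Zp p).mul_mem (nat_mem _) (nat_mem _))
    · exact (I.p_pow 1).mul hH
  have e3 : ∀ a b : ℚ, a = (a - b) + b := fun a b => by ring
  rw [e3 (∑ k ∈ range p, ((p-1).choose k : ℚ) * ((chi3 k : ℚ) * (((2*k).choose k : ℚ)^2 / 16^k)))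
    (∑ k ∈ range (3*c+1), (chi3 k : ℚ) * (((p-1).choose k : ℚ) * (-1)^k) * aa (3*c) k)]
  exact h.add h2

end

end Pool.Agent.R856.CM
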