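import Pool.Agent.R856.CM1

set_option autoImplicit false

/-!
`T_n^2 = (-3)^n A_n`.
-/

namespace Pool.Agent.R856.CM

open Finset Polynomial

/-- `T_n = [x^{2n}] ((x-1)^3+1)^n` -/
def TT (n : ℕ) : ℤ := ∑ i ∈ range (n+1), (n.choose i : ℤ) * ((3*i).choose (2*n) : ℤ) * (-1)^i

/-- `A_n = ∑ C(n,k) C(n+k,k) C(2k,k) (-1)^k` -/
def AA (n : ℕ) : ℤ := ∑ k ∈ range (n+1), (n.choose k : ℤ) * ((n+k).choose k : ℤ) * ((2*k).choose k : ℤ) * (-1)^k

lemma GG_eval (n : ℕ) : (GG n).eval (-1) = (AA n : ℚ) := by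
  unfold GG AA cc
  rw [eval_finsetSum]
  push_cast
  apply sum_congr rfl
  intro k _
  simp only [eval_mul, eval_C, eval_pow, eval_X]

lemma ff_aeval (n : ℕ) (w : ℂ) : aeval w (ff n) = ∑ k ∈ range (n+1), ((n.choose k : ℂ) * ((n+k).choose k : ℂ)) * w^k := by
  unfold ff aa
  rw [map_sum]
  apply sum_congr rfl
  intro k _
  rw [map_mul, map_pow, aeval_X, aeval_C]
  simp

lemma way1 (n : ℕ) (s w : ℂ) : ((((X + C (s*w)) * (X + C (s*w) + C s))^n : ℂ[X])).coeff n =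
    s^n * ∑ k ∈ range (n+1), ((n.choose k : ℂ) * ((n+k).choose k : ℂ)) * w^k := by
  rw [mul_pow, add_pow (X + C (s*w)) (C s) n, mul_sum, finsetSum_coeff, mul_sum]
  apply sum_congr rfl
  intro k hk
  rw [mem_range] at hk
  have e : (X + C (s*w) : ℂ[X])^n * ((X + C (s*w))^k * (C s)^(n-k) * (n.choose k : ℂ[X])) =
      C (s^(n-k) * (n.choose k : ℂ)) * (X + C (s*w))^(n+k) := by
    have e0 : (C (s^(n-k) * (n.choose k : ℂ)) : ℂ[X]) = (C s)^(n-k) * (n.choose k : ℂ[X]) := by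
      rw [C_mul, C_pow, C_eq_natCast]
    rw [e0, pow_add]; ring
  rw [e, coeff_C_mul, coeff_X_add_C_pow, show n + k - n = k by omega, Nat.choose_symm_add]
  rw [mul_pow]
  have : s^n = s^(n-k) * s^k := by rw [← pow_add]; congr 1; omega
  rw [this]; ring

lemma way2 (n : ℕ) : ((((X + C (-1))^3 + 1)^n : ℂ[X])).coeff (2*n) = (TT n : ℂ) := by
  rw [add_pow, finsetSum_coeff]
  unfold TT
  push_cast
  apply sum_congr rfl
  intro i _
  have e : (((X + C (-1) : ℂ[X])^3)^i * 1^(n-i) * (n.choose i : ℂ[X])) = C (n.choose i : ℂ) * (X + C (-1))^(3*i) := by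
    rw [← pow_mul, one_pow, mul_one, C_eq_natCast, mul_comm]
  rw [e, coeff_C_mul, coeff_X_add_C_pow]
  rcases Nat.lt_or_ge (3*i) (2*n) with h | h
  · rw [Nat.choose_eq_zero_of_lt h]; simp
  · have : (-1:ℂ)^(3*i-2*n) = (-1)^i := by
      have h1 : (-1:ℂ)^(3*i-2*n) * (-1)^(2*n) = (-1)^(3*i) := by
        rw [← pow_add]; congr 1; omega
      have h2 : (-1:ℂ)^(2*n) = 1 := by rw [pow_mul]; norm_num
      have h3 : (-1:ℂ)^(3*i) = (-1)^i := by rw [pow_mul]; norm_num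
      rw [h2, mul_one, h3] at h1
      exact h1
    rw [this]; ring

theorem T_sq (n : ℕ) : (TT n)^2 = (-3)^n * AA n := by
  obtain ⟨s, hs⟩ : ∃ s : ℂ, s^2 = -3 := by
    refine ⟨Complex.I * (Real.sqrt 3 : ℂ), ?_⟩
    rw [mul_pow, Complex.I_sq]
    have : ((Real.sqrt 3 : ℂ))^2 = 3 := by
      rw [← Complex.ofReal_pow, Real.sq_sqrt (by norm_num)]; simp
    rw [this]; ring
  obtain ⟨w, hw⟩ : ∃ w : ℂ, w = (s-1)/2 := ⟨_, rfl⟩
  have hsw : s = 2*w+1 := by rw [hw]; ring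
  have hw2 : w + w^2 = -1 := by rw [hw]; linear_combination hs/4
  have hT : (TT n : ℂ) = s^n * aeval w (ff n) := by
    rw [ff_aeval, ← way1 n s w, ← way2 n]
    have e : ((X + C (-1))^3 + 1 : ℂ[X]) = X * ((X + C (s*w)) * (X + C (s*w) + C s)) := by
      have e1 : (C (-1) : ℂ[X]) = -1 := by rw [C_neg, C_1]
      have e2 : (X + C (s*w)) * (X + C (s*w) + C s) = X^2 + C (s + 2*(s*w)) * X + C (s*w*(s*w) + s*w*s) := by
        simp only [C_add, C_mul, map_ofNat]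
        ring
      have e3 : s + 2*(s*w) = -3 := by
        linear_combination hs - s * hsw
      have e4 : s*w*(s*w) + s*w*s = 3 := by
        have : s*w*(s*w) + s*w*s = s^2 * (w + w^2) := by ring
        rw [this, hs, hw2]; ring
      rw [e2, e3, e4, e1, C_neg]
      have e5 : (C 3 : ℂ[X]) = 3 := map_ofNat (C : ℂ →+* ℂ[X]) 3
      rw [e5]; ring
    rw [e, mul_pow, show 2*n = n + n by ring, coeff_X_pow_mul]
  have h1 : (aeval w (ff n))^2 = ((AA n : ℚ) : ℂ) := by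
    rw [← map_pow, square, aeval_comp]
    have : aeval w (X + X^2 : ℚ[X]) = ((-1 : ℚ) : ℂ) := by
      rw [map_add, map_pow, aeval_X, hw2]; simp
    rw [this, ← GG_eval]
    exact aeval_algebraMap_apply ℂ (-1:ℚ) (GG n)
  have h2 : ((TT n : ℤ) : ℂ)^2 = (-3)^n * ((AA n : ℤ) : ℂ) := by
    rw [hT, mul_pow, h1, ← pow_mul, mul_comm n 2, pow_mul, hs]
    simp
  exact_mod_cast h2

end Pool.Agent.R856.CM
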