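import Pool.Agent.R856.TKH
import Pool.Agent.R856.CM2

set_option autoImplicit false

/-!
`S_0(p) ≡ A_m (mod p^2)` and the case `p ≡ 2 (mod 3)`.
-/

namespace Pool.Agent.R856.CM

open Finset Pool.Agent.Helper857.Pad Pool.Agent.R856.TK

section

variable {p : ℕ} [hp : Fact p.Prime] {m : ℕ} (hm : 2*m+1 = p) (hm2 : 2 ≤ m)
include hm hm2

lemma half_lt_inv {k : ℕ} (h0 : 0 < k) (h1 : k < p) : ((k:ℚ))⁻¹ ∈ Zp p := inv_small hm hm2 h0 h1

lemma aa_exp (k : ℕ) (hk : k ≤ m) :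
    I p 2 (aa m k * (-1)^k - ((2*k).choose k : ℚ)^2 / 16^k) := by
  have hN : (m:ℚ)*(m+1) = ((p:ℚ)^2 - 1)/4 := by
    rw [← hm]; push_cast; ring
  induction k with
  | zero => simp [aa]; exact I.zero 2
  | succ k ih =>
    have ih' := ih (by omega)
    have ha := aa_succ m k
    have h0 := Nat.succ_mul_centralBinom_succ k
    rw [Nat.centralBinom_eq_two_mul_choose, Nat.centralBinom_eq_two_mul_choose] at h0
    have h2 : ((k:ℚ)+1) * ((2*(k+1)).choose (k+1) : ℚ) = 2 * (2*(k:ℚ)+1) * ((2*k).choose k : ℚ) := by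
      exact_mod_cast h0
    have hk1 : ((k:ℚ)+1) ≠ 0 := by positivity
    have e1 : aa m (k+1) = (((p:ℚ)^2 - 1)/4 - k*(k+1)) * aa m k / ((k:ℚ)+1)^2 := by
      rw [eq_div_iff (pow_ne_zero 2 hk1), ← hN]; linear_combination ha
    have e2 : ((2*(k+1)).choose (k+1) : ℚ) = 2 * (2*(k:ℚ)+1) * ((2*k).choose k : ℚ) / ((k:ℚ)+1) := by
      rw [eq_div_iff hk1]; linear_combination h2
    have i1 : (((2*(k+1):ℕ)):ℚ)⁻¹ ∈ Zp p := inv_small hm hm2 (by omega) (by omega)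
    have m1 : ((2*k+1:ℕ):ℚ) ∈ Zp p := nat_mem _
    have mA : aa m k * (-1)^k ∈ Zp p := by
      unfold aa
      exact (Zp p).mul_mem ((Zp p).mul_mem (nat_mem _) (nat_mem _)) ((Zp p).pow_mem ((Zp p).neg_mem (Zp p).one_mem) _)
    have e : aa m (k+1) * (-1)^(k+1) - ((2*(k+1)).choose (k+1) : ℚ)^2 / 16^(k+1) =
        (aa m k * (-1)^k - ((2*k).choose k : ℚ)^2 / 16^k) * ((((2*k+1:ℕ):ℚ))^2 * ((((2*(k+1):ℕ)):ℚ)⁻¹)^2) -
        (p:ℚ)^2 * (aa m k * (-1)^k * ((((2*(k+1):ℕ)):ℚ)⁻¹)^2) := by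
      rw [e1, e2, pow_succ, pow_succ]
      have h16 : (16:ℚ)^k ≠ 0 := by positivity
      push_cast
      field_simp
      ring
    rw [e]
    exact (ih'.mul_mem ((Zp p).mul_mem ((Zp p).pow_mem m1 2) ((Zp p).pow_mem i1 2))).sub
      ((I.p_pow 2).mul_mem ((Zp p).mul_mem mA ((Zp p).pow_mem i1 2)))

lemma inv16 (k : ℕ) : ((16:ℚ)^k)⁻¹ ∈ Zp p := by
  have h2 := half' hm hm2
  have e : ((16:ℚ)^k)⁻¹ = (((2:ℚ)⁻¹)^4)^k := by
    rw [← inv_pow]; congr 1; norm_num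
  rw [e]
  exact (Zp p).pow_mem ((Zp p).pow_mem h2 4) k

theorem S0_I : I p 2 (∑ k ∈ range p, t k - (AA m : ℚ)) := by
  have hsplit : ∑ k ∈ range p, t k = ∑ k ∈ range (m+1), t k + ∑ k ∈ range m, t (m+1+k) := by
    rw [← Finset.sum_range_add, show m + 1 + m = p by omega]
  have hbig : I p 2 (∑ k ∈ range m, t (m+1+k)) := by
    apply I.sum
    intro k hk
    rw [mem_range] at hk
    have hd : p ∣ (2*(m+1+k)).choose (m+1+k) :=
      Nat.Prime.dvd_choose hp.out (by omega) (by omega) (by omega)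
    obtain ⟨c, hc⟩ := hd
    have e : t (m+1+k) = (p:ℚ)^3 * ((c:ℚ)^3 * ((16:ℚ)^(m+1+k))⁻¹) := by
      unfold t; rw [hc]; push_cast; rw [div_eq_mul_inv]; ring
    rw [e]
    exact ((I.p_pow 3).mul_mem ((Zp p).mul_mem ((Zp p).pow_mem (nat_mem c) 3) (inv16 hm hm2 _))).mono (by norm_num)
  have hsmall : I p 2 (∑ k ∈ range (m+1), t k - (AA m : ℚ)) := by
    unfold AA
    push_cast
    rw [← sum_sub_distrib]
    apply I.sum
    intro k hk
    rw [mem_range] at hk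
    have h := aa_exp hm hm2 k (by omega)
    have e : t k - (m.choose k : ℚ) * ((m+k).choose k : ℚ) * ((2*k).choose k : ℚ) * (-1)^k =
        -((aa m k * (-1)^k - ((2*k).choose k : ℚ)^2 / 16^k) * ((2*k).choose k : ℚ)) := by
      unfold t aa; ring
    rw [e]
    exact (h.mul_mem (nat_mem _)).neg
  rw [hsplit]
  have e : ∑ k ∈ range (m+1), t k + ∑ k ∈ range m, t (m+1+k) - (AA m : ℚ) =
    (∑ k ∈ range (m+1), t k - (AA m : ℚ)) + ∑ k ∈ range m, t (m+1+k) := by ring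
  rw [e]
  exact hsmall.add hbig

omit hm2 in
lemma T_dvd (h3 : p % 3 = 2) : (p:ℤ) ∣ TT m := by
  unfold TT
  apply Finset.dvd_sum
  intro i hi
  rw [mem_range] at hi
  apply Dvd.dvd.mul_right
  apply Dvd.dvd.mul_left
  rcases Nat.lt_or_ge (3*i) (2*m) with h | h
  · rw [Nat.choose_eq_zero_of_lt h]; simp
  · have hne : 3*i ≠ 2*m := by omega
    exact_mod_cast Nat.Prime.dvd_choose hp.out (a := 2*m) (b := 3*i) (by omega) (by omega) (by omega)

theorem A_dvd (h3 : p % 3 = 2) : (p:ℤ)^2 ∣ AA m := by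
  have h1 := T_dvd hm h3
  have h2 : (p:ℤ)^2 ∣ (-3)^m * AA m := by
    rw [← T_sq]; exact pow_dvd_pow_of_dvd h1 2
  have hc : IsCoprime ((p:ℤ)^2) ((-3)^m) := by
    apply IsCoprime.pow
    rw [IsCoprime.neg_right_iff, Int.isCoprime_iff_gcd_eq_one]
    have : Nat.Coprime p 3 := by
      rw [Nat.Prime.coprime_iff_not_dvd hp.out]
      intro hd
      exact absurd (Nat.le_of_dvd (by norm_num) hd) (by omega)
    exact this
  exact hc.dvd_of_dvd_mul_left h2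

theorem S0_zero (h3 : p % 3 = 2) : I p 2 (∑ k ∈ range p, t k) := by
  obtain ⟨c, hc⟩ := A_dvd hm hm2 h3
  have h := S0_I hm hm2
  have e : ∑ k ∈ range p, t k = (∑ k ∈ range p, t k - (AA m : ℚ)) + (p:ℚ)^2 * (c:ℚ) := by
    rw [hc]; push_cast; ring
  rw [e]
  exact h.add ((I.p_pow 2).mul_mem (int_mem c))

/-- item 2 -/
theorem item2 (h3 : p % 3 = 2) : I p 2 (∑ k ∈ range p, (k:ℚ) * t k - (p:ℚ)/3) := by
  have h0 := S0_zero hm hm2 h3
  have h1 := (linear_rel (p := p) (by omega)).mono (show 2 ≤ 4 by norm_num)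
  have n3 : ¬ p ∣ 3 := fun h => absurd (Nat.le_of_dvd (by norm_num) h) (by omega)
  apply I.cancel n3
  have e : ((3:ℕ):ℚ) * (∑ k ∈ range p, (k:ℚ) * t k - (p:ℚ)/3) =
      (3 * (∑ k ∈ range p, (k:ℚ) * t k) + ∑ k ∈ range p, t k - (p:ℚ)) - ∑ k ∈ range p, t k := by
    push_cast; ring
  rw [e]
  exact h1.sub h0

end

end Pool.Agent.R856.CM
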