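import Pool.Agent.R856.CM3

set_option autoImplicit false

/-!
`T_m` and `(-3)^m` modulo `p^2` for `p = 6c+1`, `m = 3c`.
-/

namespace Pool.Agent.R856.CM

open Finset Pool.Agent.Helper857.Pad Pool.Agent.R856.TK

/-- harmonic numbers -/
def hs (n : ℕ) : ℚ := ∑ i ∈ range n, 1 / ((i:ℚ)+1)

lemma hs_succ (n : ℕ) : hs (n+1) = hs n + 1 / ((n:ℚ)+1) := by
  unfold hs; rw [sum_range_succ]

lemma alt_zero (n : ℕ) : ∑ l ∈ range (n+1), ((n+1).choose (l+1) : ℚ) * (-1)^(l+1) = -1 := by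
  have h := Int.alternating_sum_range_choose (n := n+1)
  rw [if_neg (by omega), sum_range_succ'] at h
  have h2 : ((∑ k ∈ range (n+1), ((-1)^(k+1) * ((n+1).choose (k+1) : ℤ)) + (-1)^0 * ((n+1).choose 0 : ℤ) : ℤ) : ℚ) = 0 := by
    rw [h]; simp
  push_cast at h2
  simp only [Nat.choose_zero_right, Nat.cast_one, mul_one] at h2
  have e : ∑ l ∈ range (n+1), ((n+1).choose (l+1) : ℚ) * (-1)^(l+1) = ∑ k ∈ range (n+1), ((-1)^(k+1) * ((n+1).choose (k+1) : ℚ)) :=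
    sum_congr rfl (fun _ _ => mul_comm _ _)
  rw [e]; linarith

/-- `∑_{l ≥ 1} C(n,r+l) (-1)^l / l` -/
def Zs (n r : ℕ) : ℚ := ∑ l ∈ range n, (n.choose (r+l+1) : ℚ) * (-1)^(l+1) / ((l:ℚ)+1)

lemma Zs_eq (n r : ℕ) : Zs n r = -((n.choose r : ℚ) * (hs n - hs r)) := by
  induction n generalizing r with
  | zero =>
    unfold Zs
    cases r with
    | zero => simp
    | succ r => simp
  | succ n ih =>
    cases r with
    | zero =>
      have e : Zs (n+1) 0 = Zs n 0 + (1/((n:ℚ)+1)) * ∑ l ∈ range (n+1), ((n+1).choose (l+1) : ℚ) * (-1)^(l+1) := by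
        have e1 : Zs n 0 = ∑ l ∈ range (n+1), (n.choose (l+1) : ℚ) * (-1)^(l+1) / ((l:ℚ)+1) := by
          unfold Zs
          rw [sum_range_succ, Nat.choose_succ_self]
          simp
        rw [e1, mul_sum, ← sum_add_distrib]
        unfold Zs
        apply sum_congr rfl
        intro l _
        have h1 := Nat.add_one_mul_choose_eq n l
        have h2 : ((n:ℚ)+1) * (n.choose l : ℚ) = ((n+1).choose (l+1) : ℚ) * ((l:ℚ)+1) := by exact_mod_cast h1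
        have h3 : ((n+1).choose (l+1) : ℚ) = (n.choose l : ℚ) + (n.choose (l+1) : ℚ) := by
          rw [Nat.choose_succ_succ]; push_cast; ring
        have hn : (n:ℚ)+1 ≠ 0 := by positivity
        have hl : (l:ℚ)+1 ≠ 0 := by positivity
        have h4 : (n.choose l : ℚ) = ((n+1).choose (l+1) : ℚ) * ((l:ℚ)+1) / ((n:ℚ)+1) := by
          rw [eq_div_iff hn]; linear_combination h2
        have h5 : (n.choose (l+1) : ℚ) = ((n+1).choose (l+1) : ℚ) - ((n+1).choose (l+1) : ℚ) * ((l:ℚ)+1) / ((n:ℚ)+1) := by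
          rw [← h4]; linear_combination -h3
        rw [show 0 + l + 1 = l + 1 by ring, h5]
        field_simp
        ring
      rw [e, ih, alt_zero, hs_succ]
      unfold hs
      simp
      ring
    | succ r =>
      have e : Zs (n+1) (r+1) = Zs n (r+1) + Zs n r := by
        have e1 : Zs n (r+1) = ∑ l ∈ range (n+1), (n.choose (r+1+l+1) : ℚ) * (-1)^(l+1) / ((l:ℚ)+1) := by
          unfold Zs
          rw [sum_range_succ, Nat.choose_eq_zero_of_lt (show n < r+1+n+1 by omega)]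
          simp
        have e2 : Zs n r = ∑ l ∈ range (n+1), (n.choose (r+l+1) : ℚ) * (-1)^(l+1) / ((l:ℚ)+1) := by
          unfold Zs
          rw [sum_range_succ, Nat.choose_eq_zero_of_lt (show n < r+n+1 by omega)]
          simp
        rw [e1, e2, ← sum_add_distrib]
        unfold Zs
        apply sum_congr rfl
        intro l _
        have h3 : ((n+1).choose (r+1+l+1) : ℚ) = (n.choose (r+l+1) : ℚ) + (n.choose (r+1+l+1) : ℚ) := by
          rw [Nat.choose_succ_succ, show r+1+l = r+l+1 by ring]; push_cast; ring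
        rw [h3]; ring
      rw [e, ih, ih, hs_succ n, hs_succ r]
      have h1 := Nat.add_one_mul_choose_eq n r
      have h2 : ((n:ℚ)+1) * (n.choose r : ℚ) = ((n+1).choose (r+1) : ℚ) * ((r:ℚ)+1) := by exact_mod_cast h1
      have h3 : ((n+1).choose (r+1) : ℚ) = (n.choose r : ℚ) + (n.choose (r+1) : ℚ) := by
        rw [Nat.choose_succ_succ]; push_cast; ring
      have hn : (n:ℚ)+1 ≠ 0 := by positivity
      have hr : (r:ℚ)+1 ≠ 0 := by positivity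
      have h4 : (n.choose r : ℚ) = ((n+1).choose (r+1) : ℚ) * ((r:ℚ)+1) / ((n:ℚ)+1) := by
        rw [eq_div_iff hn]; linear_combination h2
      have h5 : (n.choose (r+1) : ℚ) = ((n+1).choose (r+1) : ℚ) - ((n+1).choose (r+1) : ℚ) * ((r:ℚ)+1) / ((n:ℚ)+1) := by
        rw [← h4]; linear_combination -h3
      rw [h5, h4]
      field_simp
      ring

lemma hs_diff (a c : ℕ) : hs (a+c) - hs a = ∑ j ∈ range c, 1 / (((a+c:ℕ):ℚ) - j) := by
  unfold hs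
  rw [sum_range_add, add_sub_cancel_left, ← sum_range_reflect]
  apply sum_congr rfl
  intro j hj
  rw [mem_range] at hj
  congr 1
  rw [show c - 1 - j = c - (1+j) by omega, Nat.cast_add a (c - (1+j)), Nat.cast_sub (by omega)]
  push_cast; ring

lemma refl_a (a D P k : ℚ) (ha : a ≠ 0) (hD : D ≠ 0) (h : a + 3*D = k*P) :
    3*(1/a) + 1/D = P * (k * ((1/a)*(1/D))) := by
  have : P * (k * ((1/a)*(1/D))) = (k*P) * ((1/a)*(1/D)) := by ring
  rw [this, ← h]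
  field_simp
  ring

lemma refl_b (a D P : ℚ) (ha : a ≠ 0) (hD : D ≠ 0) (h : a + D = P) :
    1/a + 1/D = P * ((1/a)*(1/D)) := by
  rw [← h]
  field_simp
  ring

section

variable {p : ℕ} [hp : Fact p.Prime] {c : ℕ} (hc : 6*c+1 = p) (hc1 : 1 ≤ c)
include hc hc1

lemma inv_c {k : ℕ} (h0 : 0 < k) (h1 : k < p) : ((k:ℚ))⁻¹ ∈ Zp p :=
  inv_small (m := 3*c) (by omega) (by omega) h0 h1

lemma one_div_c {k : ℕ} (h0 : 0 < k) (h1 : k < p) : 1 / (k:ℚ) ∈ Zp p := by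
  rw [one_div]; exact inv_c hc hc1 h0 h1

lemma hs_mem (n : ℕ) (hn : n < p) : hs n ∈ Zp p := by
  unfold hs
  apply (Zp p).sum_mem
  intro i hi
  rw [mem_range] at hi
  have := one_div_c hc hc1 (k := i+1) (by omega) (by omega)
  push_cast at this
  exact this

lemma choose_exp (l : ℕ) (hl : 1 ≤ l) (hl2 : l ≤ c) :
    I p 2 (((6*c+3*l).choose (6*c) : ℚ) - (p:ℚ) * (1 / (3 * (l:ℚ)))) := by
  obtain ⟨J, hJ⟩ : ∃ J, 3*l = J + 1 := ⟨3*l-1, by omega⟩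
  have h1 : ((6*c+3*l).choose (6*c)) * (J+1) = p * (6*c+3*l).choose J := by
    have h := Nat.choose_succ_right_eq (6*c+3*l) J
    have h2 : (6*c+3*l).choose (6*c) = (6*c+3*l).choose (J+1) := by
      rw [hJ]; exact Nat.choose_symm_add
    rw [h2, h, mul_comm]; congr 1; omega
  have h3 : (6*c+3*l).choose J ≡ 1 [MOD p] := by
    have h := Choose.choose_modEq_choose_mod_mul_choose_div_nat (p := p) (n := 6*c+3*l) (k := J)
    have e1 : (6*c+3*l) % p = J := by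
      rw [show 6*c+3*l = J + p by omega, Nat.add_mod_right, Nat.mod_eq_of_lt (by omega)]
    have e2 : (6*c+3*l) / p = 1 := by
      rw [show 6*c+3*l = J + p by omega, Nat.add_div_right _ (by omega), Nat.div_eq_of_lt (by omega)]
    have e3 : J % p = J := Nat.mod_eq_of_lt (by omega)
    have e4 : J / p = 0 := Nat.div_eq_of_lt (by omega)
    rw [e1, e2, e3, e4] at h
    simpa using h
  obtain ⟨z, hz⟩ : ∃ z : ℤ, ((6*c+3*l).choose J : ℤ) = 1 + p * z := by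
    have h4 : (p:ℤ) ∣ ((6*c+3*l).choose J : ℤ) - 1 := by
      have := (Nat.modEq_iff_dvd.mp h3.symm)
      push_cast at this; exact this
    obtain ⟨z, hz⟩ := h4
    exact ⟨z, by linarith⟩
  have hz' : ((6*c+3*l).choose J : ℚ) = 1 + p * z := by exact_mod_cast hz
  have h1' : ((6*c+3*l).choose (6*c) : ℚ) * ((J:ℚ)+1) = (p:ℚ) * ((6*c+3*l).choose J : ℚ) := by exact_mod_cast h1
  have hJq : (J:ℚ)+1 = 3*l := by
    have : ((3*l:ℕ):ℚ) = ((J+1:ℕ):ℚ) := by rw [hJ]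
    push_cast at this; linarith
  have hJ0 : (J:ℚ)+1 ≠ 0 := by positivity
  have i1 := inv_c hc hc1 (k := J+1) (by omega) (by omega)
  have e : ((6*c+3*l).choose (6*c) : ℚ) - (p:ℚ) * (1 / (3 * (l:ℚ))) = (p:ℚ)^2 * ((z:ℚ) * ((J+1:ℕ):ℚ)⁻¹) := by
    have e1 : ((6*c+3*l).choose (6*c) : ℚ) = (p:ℚ) * (1 + p * z) / ((J:ℚ)+1) := by
      rw [eq_div_iff hJ0, h1', hz']
    rw [e1, ← hJq]
    push_cast
    field_simp
    ring
  rw [e]
  exact (I.p_pow 2).mul_mem ((Zp p).mul_mem (int_mem z) i1)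

/-- `T_m` modulo `p^2` -/
theorem T_exp : I p 2 ((TT (3*c) : ℚ) - ((3*c).choose (2*c) : ℚ) * (1 - (p:ℚ) * (1/3) * (hs (3*c) - hs (2*c)))) := by
  have hT : (TT (3*c) : ℚ) = ((3*c).choose (2*c) : ℚ) +
      ∑ l ∈ range c, ((3*c).choose (2*c+l+1) : ℚ) * ((6*c+3*(l+1)).choose (6*c) : ℚ) * (-1)^(l+1) := by
    unfold TT
    push_cast
    rw [show 3*c+1 = 2*c + (c+1) by ring, sum_range_add]
    have h0 : ∑ i ∈ range (2*c), ((3*c).choose i : ℚ) * ((3*i).choose (2*(3*c)) : ℚ) * (-1)^i = 0 := by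
      apply sum_eq_zero
      intro i hi
      rw [mem_range] at hi
      rw [Nat.choose_eq_zero_of_lt (show 3*i < 2*(3*c) by omega)]; simp
    rw [h0, zero_add, sum_range_succ', add_comm]
    congr 1
    · rw [show 3*(2*c+0) = 6*c by ring, show 2*(3*c) = 6*c by ring, Nat.choose_self, add_zero, pow_mul]
      simp
    · apply sum_congr rfl
      intro l _
      rw [show 3*(2*c+(l+1)) = 6*c+3*(l+1) by ring, show 2*(3*c) = 6*c by ring, pow_add, pow_mul]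
      simp [add_assoc]
  have hZ := Zs_eq (3*c) (2*c)
  have hZ2 : Zs (3*c) (2*c) = ∑ l ∈ range c, ((3*c).choose (2*c+l+1) : ℚ) * (-1)^(l+1) / ((l:ℚ)+1) := by
    unfold Zs
    have hsp := sum_range_add (fun l => ((3*c).choose (2*c+l+1) : ℚ) * (-1)^(l+1) / ((l:ℚ)+1)) c (2*c)
    rw [show c + 2*c = 3*c by ring] at hsp
    rw [hsp]
    have h0 : ∑ x ∈ range (2*c), ((3*c).choose (2*c+(c+x)+1) : ℚ) * (-1)^(c+x+1) / (((c+x:ℕ):ℚ)+1) = 0 := by
      apply sum_eq_zero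
      intro i hi
      rw [Nat.choose_eq_zero_of_lt (show 3*c < 2*c+(c+i)+1 by omega)]; simp
    rw [h0, add_zero]
  have e : (TT (3*c) : ℚ) - ((3*c).choose (2*c) : ℚ) * (1 - (p:ℚ) * (1/3) * (hs (3*c) - hs (2*c))) =
      ∑ l ∈ range c, (((6*c+3*(l+1)).choose (6*c) : ℚ) - (p:ℚ) * (1 / (3 * ((l+1:ℕ):ℚ)))) *
        (((3*c).choose (2*c+l+1) : ℚ) * (-1)^(l+1)) := by
    rw [hT]
    have e1 : ((3*c).choose (2*c) : ℚ) * (1 - (p:ℚ) * (1/3) * (hs (3*c) - hs (2*c))) =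
        ((3*c).choose (2*c) : ℚ) + (p:ℚ) * (1/3) * Zs (3*c) (2*c) := by rw [hZ]; ring
    rw [e1, hZ2, add_sub_add_left_eq_sub, mul_sum, ← sum_sub_distrib]
    apply sum_congr rfl
    intro l _
    have hl : (l:ℚ)+1 ≠ 0 := by positivity
    push_cast
    field_simp
  rw [e]
  apply I.sum
  intro l hl
  rw [mem_range] at hl
  exact (choose_exp hc hc1 (l+1) (by omega) (by omega)).mul_mem ((Zp p).mul_mem (nat_mem _)
    ((Zp p).pow_mem ((Zp p).neg_mem (Zp p).one_mem) _))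

omit hc1 in
/-- exact product for `(-3)^m` -/
lemma neg3_prod : (-3:ℚ)^(3*c) = (∏ j ∈ range c, (1 - (p:ℚ)/(3*(j:ℚ)+1))) * ∏ j ∈ range c, (1 + (p:ℚ)/(3*(j:ℚ)+2)) := by
  have f1 : ∏ k ∈ range (3*c), ((k:ℚ)+1) = (∏ j ∈ range c, (3*(j:ℚ)+1)) * (∏ j ∈ range c, (3*(j:ℚ)+2)) * ∏ j ∈ range c, (3*((j:ℚ)+1)) := by
    clear hc
    induction c with
    | zero => simp
    | succ c ih =>
      rw [show 3*(c+1) = 3*c+1+1+1 by ring, prod_range_succ, prod_range_succ, prod_range_succ, ih,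
        prod_range_succ, prod_range_succ, prod_range_succ]
      push_cast; ring
  have f2 : (3:ℚ)^(3*c) * ∏ k ∈ range (3*c), ((k:ℚ)+1) =
      (∏ k ∈ range c, (3*((k:ℚ)+1))) * (∏ k ∈ range c, (3*((c:ℚ)+k+1))) * ∏ k ∈ range c, (3*(2*(c:ℚ)+k+1)) := by
    have : (3:ℚ)^(3*c) * ∏ k ∈ range (3*c), ((k:ℚ)+1) = ∏ k ∈ range (3*c), (3*((k:ℚ)+1)) := by
      rw [prod_mul_distrib, prod_const, card_range]
    rw [this, show 3*c = c + c + c by ring, prod_range_add, prod_range_add]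
    push_cast
    congr 1
    apply prod_congr rfl; intro k _; ring
  have f3 : ∏ k ∈ range c, (3*((c:ℚ)+k+1)) = ∏ j ∈ range c, (-(3*(j:ℚ)+1) * (1 - (p:ℚ)/(3*(j:ℚ)+1))) := by
    rw [← prod_range_reflect]
    apply prod_congr rfl
    intro j hj
    rw [mem_range] at hj
    have h3 : 3*(j:ℚ)+1 ≠ 0 := by positivity
    rw [show c - 1 - j = c - (1+j) by omega, Nat.cast_sub (by omega), ← hc]
    push_cast
    field_simp
    ring
  have f4 : ∏ k ∈ range c, (3*(2*(c:ℚ)+k+1)) = ∏ j ∈ range c, ((3*(j:ℚ)+2) * (1 + (p:ℚ)/(3*(j:ℚ)+2))) := by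
    apply prod_congr rfl
    intro j hj
    have h3 : 3*(j:ℚ)+2 ≠ 0 := by positivity
    rw [← hc]
    push_cast
    field_simp
    ring
  have f5 : ∏ j ∈ range c, (-(3*(j:ℚ)+1) * (1 - (p:ℚ)/(3*(j:ℚ)+1))) =
      (-1)^c * (∏ j ∈ range c, (3*(j:ℚ)+1)) * ∏ j ∈ range c, (1 - (p:ℚ)/(3*(j:ℚ)+1)) := by
    rw [prod_mul_distrib]
    congr 1
    have : ∀ j ∈ range c, -(3*(j:ℚ)+1) = (-1) * (3*(j:ℚ)+1) := fun j _ => by ring
    rw [prod_congr rfl this, prod_mul_distrib, prod_const, card_range]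
  have f6 : ∏ j ∈ range c, ((3*(j:ℚ)+2) * (1 + (p:ℚ)/(3*(j:ℚ)+2))) =
      (∏ j ∈ range c, (3*(j:ℚ)+2)) * ∏ j ∈ range c, (1 + (p:ℚ)/(3*(j:ℚ)+2)) := prod_mul_distrib
  rw [f1, f3, f4, f5, f6] at f2
  have p1 : ∏ j ∈ range c, (3*(j:ℚ)+1) ≠ 0 := prod_ne_zero_iff.mpr (fun j _ => by positivity)
  have p2 : ∏ j ∈ range c, (3*(j:ℚ)+2) ≠ 0 := prod_ne_zero_iff.mpr (fun j _ => by positivity)
  have p3 : ∏ j ∈ range c, (3*((j:ℚ)+1)) ≠ 0 := prod_ne_zero_iff.mpr (fun j _ => by positivity)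
  have f7 : (3:ℚ)^(3*c) = (-1)^c * ((∏ j ∈ range c, (1 - (p:ℚ)/(3*(j:ℚ)+1))) * ∏ j ∈ range c, (1 + (p:ℚ)/(3*(j:ℚ)+2))) := by
    apply mul_right_cancel₀ (mul_ne_zero (mul_ne_zero p1 p2) p3)
    linear_combination f2
  have f8 : (-3:ℚ)^(3*c) = (-1)^c * 3^(3*c) := by
    rw [neg_pow, pow_mul (-1:ℚ)]; norm_num
  rw [f8, f7, ← mul_assoc, ← mul_pow]
  norm_num

/-- the harmonic number combination attached to `(-3)^m` -/
def ww (c : ℕ) : ℚ := ∑ j ∈ range c, (1/(3*(j:ℚ)+2) - 1/(3*(j:ℚ)+1))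

lemma neg3_exp : I p 2 ((-3:ℚ)^(3*c) - (1 + (p:ℚ) * ww c)) := by
  have m1 : ∀ j < c, 1/(3*(j:ℚ)+1) ∈ Zp p := by
    intro j hj
    have := one_div_c hc hc1 (k := 3*j+1) (by omega) (by omega)
    push_cast at this; exact this
  have m2' : ∀ j < c, 1/(3*(j:ℚ)+2) ∈ Zp p := by
    intro j hj
    have := one_div_c hc hc1 (k := 3*j+2) (by omega) (by omega)
    push_cast at this; exact this
  have a1 := prod_one_sub (p := p) (m := 1) (fun j => (p:ℚ)/(3*(j:ℚ)+1)) c (by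
    intro j hj
    have e : (p:ℚ)/(3*(j:ℚ)+1) = (p:ℚ)^1 * (1/(3*(j:ℚ)+1)) := by ring
    rw [e]; exact (I.p_pow 1).mul_mem (m1 j hj))
  have a2 := prod_one_sub (p := p) (m := 1) (fun j => -((p:ℚ)/(3*(j:ℚ)+2))) c (by
    intro j hj
    have e : -((p:ℚ)/(3*(j:ℚ)+2)) = (p:ℚ)^1 * (-(1/(3*(j:ℚ)+2))) := by ring
    rw [e]; exact (I.p_pow 1).mul_mem ((Zp p).neg_mem (m2' j hj)))
  rw [neg3_prod hc]
  have e2 : ∏ i ∈ range c, (1 - -((p:ℚ)/(3*(i:ℚ)+2))) = ∏ j ∈ range c, (1 + (p:ℚ)/(3*(j:ℚ)+2)) :=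
    prod_congr rfl (fun j _ => by ring)
  rw [e2] at a2
  set A := ∏ j ∈ range c, (1 - (p:ℚ)/(3*(j:ℚ)+1))
  set B := ∏ j ∈ range c, (1 + (p:ℚ)/(3*(j:ℚ)+2))
  set u := ∑ j ∈ range c, 1/(3*(j:ℚ)+1) with hu
  set v := ∑ j ∈ range c, 1/(3*(j:ℚ)+2) with hv
  have mu : u ∈ Zp p := by
    rw [hu]; exact (Zp p).sum_mem (fun j hj => m1 j (mem_range.mp hj))
  have mv : v ∈ Zp p := by
    rw [hv]; exact (Zp p).sum_mem (fun j hj => m2' j (mem_range.mp hj))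
  have s1 : ∑ i ∈ range c, (p:ℚ)/(3*(i:ℚ)+1) = (p:ℚ) * u := by
    rw [hu, mul_sum]; exact sum_congr rfl (fun j _ => by ring)
  have s2 : ∑ i ∈ range c, -((p:ℚ)/(3*(i:ℚ)+2)) = -((p:ℚ) * v) := by
    rw [hv, mul_sum, ← sum_neg_distrib]; exact sum_congr rfl (fun j _ => by ring)
  rw [s1] at a1
  rw [s2] at a2
  have hw : ww c = v - u := by
    unfold ww; rw [sum_sub_distrib]
  have mB : B ∈ Zp p := by
    have : B = (B - (1 - -((p:ℚ) * v))) + (1 + (p:ℚ) * v) := by ring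
    rw [this]
    exact (Zp p).add_mem a2.mem ((Zp p).add_mem (Zp p).one_mem ((Zp p).mul_mem (nat_mem p) mv))
  rw [hw]
  have e : A * B - (1 + (p:ℚ) * (v - u)) = (A - (1 - (p:ℚ) * u)) * B + (B - (1 - -((p:ℚ) * v))) * (1 - (p:ℚ) * u) -
      (p:ℚ)^2 * (u * v) := by ring
  rw [e]
  have mu1 : 1 - (p:ℚ) * u ∈ Zp p := (Zp p).sub_mem (Zp p).one_mem ((Zp p).mul_mem (nat_mem p) mu)
  exact ((a1.mul_mem mB).add (a2.mul_mem mu1)).sub ((I.p_pow 2).mul_mem ((Zp p).mul_mem mu mv))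

lemma ww_mem : ww c ∈ Zp p := by
  unfold ww
  apply (Zp p).sum_mem
  intro j hj
  rw [mem_range] at hj
  have h1 := one_div_c hc hc1 (k := 3*j+1) (by omega) (by omega)
  have h2 := one_div_c hc hc1 (k := 3*j+2) (by omega) (by omega)
  push_cast at h1 h2
  exact (Zp p).sub_mem h2 h1

/-- `3 w ≡ H_{3c} - H_c (mod p)` -/
lemma ww_exp : I p 1 (3 * ww c - (hs (3*c) - hs c)) := by
  -- reflections
  have r1 : I p 1 (∑ j ∈ range c, (3 * (1/(3*(j:ℚ)+1)) + 1/(((c+c:ℕ):ℚ) - j))) := by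
    apply I.sum
    intro j hj
    rw [mem_range] at hj
    have i1 := one_div_c hc hc1 (k := 3*j+1) (by omega) (by omega)
    have i2 := one_div_c hc hc1 (k := c+c-j) (by omega) (by omega)
    rw [Nat.cast_sub (by omega)] at i2
    have h2 : ((c+c:ℕ):ℚ) - j ≠ 0 := by
      have : (j:ℚ) < ((c+c:ℕ):ℚ) := by exact_mod_cast (show j < c + c by omega)
      intro h0; linarith
    have h3 : 3*(j:ℚ)+1 ≠ 0 := by positivity
    have e : 3 * (1/(3*(j:ℚ)+1)) + 1/(((c+c:ℕ):ℚ) - j) = (p:ℚ)^1 * ((1/((3*j+1:ℕ):ℚ)) * (1/(((c+c:ℕ):ℚ) - j))) := by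
      have := refl_a (3*(j:ℚ)+1) (((c+c:ℕ):ℚ) - j) (p:ℚ) 1 h3 h2 (by rw [← hc]; push_cast; ring)
      push_cast at this ⊢
      rw [this]; ring
    rw [e]
    exact (I.p_pow 1).mul_mem ((Zp p).mul_mem i1 i2)
  have r2 : I p 1 (∑ j ∈ range c, (3 * (1/(3*(j:ℚ)+2)) + 1/(((3*c+c:ℕ):ℚ) - j))) := by
    apply I.sum
    intro j hj
    rw [mem_range] at hj
    have i1 := one_div_c hc hc1 (k := 3*j+2) (by omega) (by omega)
    have i2 := one_div_c hc hc1 (k := 3*c+c-j) (by omega) (by omega)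
    rw [Nat.cast_sub (by omega)] at i2
    have h2 : ((3*c+c:ℕ):ℚ) - j ≠ 0 := by
      have : (j:ℚ) < ((3*c+c:ℕ):ℚ) := by exact_mod_cast (show j < 3*c + c by omega)
      intro h0; linarith
    have h3 : 3*(j:ℚ)+2 ≠ 0 := by positivity
    have e : 3 * (1/(3*(j:ℚ)+2)) + 1/(((3*c+c:ℕ):ℚ) - j) = (p:ℚ)^1 * (2 * ((1/((3*j+2:ℕ):ℚ)) * (1/(((3*c+c:ℕ):ℚ) - j)))) := by
      have := refl_a (3*(j:ℚ)+2) (((3*c+c:ℕ):ℚ) - j) (p:ℚ) 2 h3 h2 (by rw [← hc]; push_cast; ring)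
      push_cast at this ⊢
      rw [this]; ring
    rw [e]
    exact (I.p_pow 1).mul_mem ((Zp p).mul_mem m2 ((Zp p).mul_mem i1 i2))
  have r3 : I p 1 (hs (4*c) - hs (2*c)) := by
    have n2 : ¬ p ∣ 2 := fun h => absurd (Nat.le_of_dvd (by norm_num) h) (by omega)
    apply I.cancel n2
    have d1 := hs_diff (2*c) (2*c)
    have d2 : hs (2*c+2*c) - hs (2*c) = ∑ j ∈ range (2*c), 1/(((2*c+j:ℕ):ℚ)+1) := by
      unfold hs; rw [sum_range_add, add_sub_cancel_left]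
    rw [show 4*c = 2*c+2*c by ring]
    have e : ((2:ℕ):ℚ) * (hs (2*c+2*c) - hs (2*c)) = ∑ j ∈ range (2*c), (1/(((2*c+2*c:ℕ):ℚ) - j) + 1/(((2*c+j:ℕ):ℚ)+1)) := by
      rw [sum_add_distrib, ← d1, ← d2]; push_cast; ring
    rw [e]
    apply I.sum
    intro j hj
    rw [mem_range] at hj
    have i1 := one_div_c hc hc1 (k := 2*c+2*c-j) (by omega) (by omega)
    have i2 := one_div_c hc hc1 (k := 2*c+j+1) (by omega) (by omega)
    rw [Nat.cast_sub (by omega)] at i1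
    have h2 : ((2*c+2*c:ℕ):ℚ) - j ≠ 0 := by
      have : (j:ℚ) < ((2*c+2*c:ℕ):ℚ) := by exact_mod_cast (show j < 2*c + 2*c by omega)
      intro h0; linarith
    have e : 1/(((2*c+2*c:ℕ):ℚ) - j) + 1/(((2*c+j:ℕ):ℚ)+1) = (p:ℚ)^1 * ((1/(((2*c+2*c:ℕ):ℚ) - j)) * (1/((2*c+j+1:ℕ):ℚ))) := by
      have h3 : ((2*c+j:ℕ):ℚ)+1 ≠ 0 := by positivity
      have := refl_b (((2*c+2*c:ℕ):ℚ) - j) (((2*c+j:ℕ):ℚ)+1) (p:ℚ) h2 h3 (by rw [← hc]; push_cast; ring)
      push_cast at this ⊢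
      rw [this]; ring
    rw [e]
    exact (I.p_pow 1).mul_mem ((Zp p).mul_mem i1 i2)
  have d1 := hs_diff c c
  have d2 := hs_diff (3*c) c
  rw [sum_add_distrib, ← mul_sum, ← d1] at r1
  rw [sum_add_distrib, ← mul_sum, ← d2] at r2
  have e : 3 * ww c - (hs (3*c) - hs c) =
      (3 * ∑ j ∈ range c, 1/(3*(j:ℚ)+2) + (hs (3*c+c) - hs (3*c))) -
      (3 * ∑ j ∈ range c, 1/(3*(j:ℚ)+1) + (hs (c+c) - hs c)) - (hs (4*c) - hs (2*c)) := by
    unfold ww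
    rw [sum_sub_distrib, show 3*c+c = 4*c by ring, show c+c = 2*c by ring]; ring
  rw [e]
  exact (r2.sub r1).sub r3

end

end Pool.Agent.R856.CM
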