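import Pool.Agent.R856.CM4

set_option autoImplicit false

/-!
Evaluation modulo `p` of the sums of reciprocals which occur in the character sum.
-/

namespace Pool.Agent.R856.CM

open Finset Pool.Agent.Helper857.Pad Pool.Agent.R856.TK

/-- partial fractions -/
lemma partial_frac (n : ℕ) : ∀ a : ℚ, 0 < a →
    (∑ q ∈ range (n+1), (n.choose q : ℚ) * (-1)^q / (a+q)) * ∏ i ∈ range (n+1), (a + i) = (n.factorial : ℚ) := by
  induction n with
  | zero => intro a ha; simp; field_simp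
  | succ n ih =>
    intro a ha
    have h1 := ih a ha
    have h2 := ih (a+1) (by linarith)
    have e : ∑ q ∈ range (n+1+1), ((n+1).choose q : ℚ) * (-1)^q / (a+q) =
        ∑ q ∈ range (n+1), (n.choose q : ℚ) * (-1)^q / (a+q) - ∑ q ∈ range (n+1), (n.choose q : ℚ) * (-1)^q / (a+1+q) := by
      have e1 : ∑ q ∈ range (n+1), (n.choose q : ℚ) * (-1)^q / (a+q) =
          ∑ q ∈ range (n+1+1), (n.choose q : ℚ) * (-1)^q / (a+q) := by
        rw [sum_range_succ _ (n+1), Nat.choose_succ_self]; simp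
      rw [e1, sum_range_succ', sum_range_succ' _ (n+1)]
      have e2 : ∀ q ∈ range (n+1), ((n+1).choose (q+1) : ℚ) * (-1)^(q+1) / (a+((q+1:ℕ):ℚ)) =
          (n.choose (q+1) : ℚ) * (-1)^(q+1) / (a+((q+1:ℕ):ℚ)) - (n.choose q : ℚ) * (-1)^q / (a+1+q) := by
        intro q _
        rw [Nat.choose_succ_succ]
        push_cast
        rw [show a + 1 + (q:ℚ) = a + (q + 1) by ring, pow_succ]
        ring
      rw [sum_congr rfl e2, sum_sub_distrib]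
      simp only [Nat.choose_zero_right]
      ring
    rw [e]
    set A := ∑ q ∈ range (n+1), (n.choose q : ℚ) * (-1)^q / (a+q)
    set B := ∑ q ∈ range (n+1), (n.choose q : ℚ) * (-1)^q / (a+1+q)
    have p1 : ∏ i ∈ range (n+1+1), (a + (i:ℚ)) = (∏ i ∈ range (n+1), (a + (i:ℚ))) * (a+n+1) := by
      rw [prod_range_succ]; push_cast; ring
    have p2 : ∏ i ∈ range (n+1+1), (a + (i:ℚ)) = (∏ i ∈ range (n+1), (a + 1 + (i:ℚ))) * a := by
      rw [prod_range_succ']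
      congr 1
      · apply prod_congr rfl; intro i _; push_cast; ring
      · simp
    rw [sub_mul]
    nth_rewrite 1 [p1]
    rw [p2, Nat.factorial_succ]
    push_cast
    linear_combination (a+n+1) * h1 - a * h2

lemma choose_mul_left (n q : ℕ) (hn : 1 ≤ n) (hq : q < n) :
    (n:ℚ) * ((n-1).choose q : ℚ) = ((n:ℚ) - q) * (n.choose q : ℚ) := by
  obtain ⟨k, rfl⟩ : ∃ k, n = k + 1 := ⟨n-1, by omega⟩
  have h1 := Nat.add_one_mul_choose_eq k q
  have h2 : ((k:ℚ)+1) * (k.choose q : ℚ) = ((k+1).choose (q+1) : ℚ) * ((q:ℚ)+1) := by exact_mod_cast h1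
  have h3 := choose_r (k+1) q
  rw [Nat.add_sub_cancel]
  push_cast at h3 ⊢
  linear_combination h2 + h3

lemma choose_mul_left' (n q : ℕ) (hn : 1 ≤ n) :
    (n:ℚ) * ((n-1).choose q : ℚ) = ((q:ℚ) + 1) * (n.choose (q+1) : ℚ) := by
  obtain ⟨k, rfl⟩ : ∃ k, n = k + 1 := ⟨n-1, by omega⟩
  have h1 := Nat.add_one_mul_choose_eq k q
  have h2 : ((k:ℚ)+1) * (k.choose q : ℚ) = ((k+1).choose (q+1) : ℚ) * ((q:ℚ)+1) := by exact_mod_cast h1
  rw [Nat.add_sub_cancel]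
  push_cast
  linear_combination h2

lemma sub_ne {a b : ℕ} (h : b < a) : (a:ℚ) - b ≠ 0 := by
  have : (b:ℚ) < (a:ℚ) := by exact_mod_cast h
  intro h0; linarith

/-- alternating sum over all indices, split at `2c` -/
lemma alt_split (c : ℕ) (hc1 : 1 ≤ c) :
    ∑ q ∈ range (2*c), ((3*c).choose q : ℚ) * (-1)^q + ∑ j ∈ range c, ((3*c).choose (2*c+j+1) : ℚ) * (-1)^(j+1) =
      -((3*c).choose (2*c) : ℚ) := by
  have h := Int.alternating_sum_range_choose (n := 3*c)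
  rw [if_neg (by omega), show 3*c+1 = 2*c + (c+1) by ring, sum_range_add, sum_range_succ'] at h
  have h2 : ((∑ x ∈ range (2*c), (-1)^x * ((3*c).choose x : ℤ) + (∑ k ∈ range c, (-1)^(2*c+(k+1)) * ((3*c).choose (2*c+(k+1)) : ℤ) +
    (-1)^(2*c+0) * ((3*c).choose (2*c+0) : ℤ)) : ℤ) : ℚ) = 0 := by rw [h]; simp
  push_cast at h2
  have e1 : ∑ q ∈ range (2*c), ((3*c).choose q : ℚ) * (-1)^q = ∑ x ∈ range (2*c), (-1)^x * ((3*c).choose x : ℚ) :=
    sum_congr rfl (fun _ _ => mul_comm _ _)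
  have e2 : ∑ j ∈ range c, ((3*c).choose (2*c+j+1) : ℚ) * (-1)^(j+1) =
      ∑ k ∈ range c, (-1)^(2*c+(k+1)) * ((3*c).choose (2*c+(k+1)) : ℚ) := by
    apply sum_congr rfl
    intro k _
    rw [pow_add (-1:ℚ) (2*c), pow_mul]
    norm_num
    rw [mul_comm, add_assoc]
  rw [e1, e2]
  have e3 : (-1:ℚ)^(2*c+0) * ((3*c).choose (2*c+0) : ℚ) = ((3*c).choose (2*c) : ℚ) := by
    rw [add_zero, pow_mul]; norm_num
  rw [e3] at h2
  linarith

noncomputable def K2 (c : ℕ) : ℚ := ∑ q ∈ range (2*c), ((3*c-1).choose q : ℚ) * (-1)^(q+1) / (((2*c:ℕ):ℚ) - q)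
noncomputable def K4 (c : ℕ) : ℚ := ∑ q ∈ range (3*c), ((3*c-1).choose q : ℚ) * (-1)^(q+1) / (((4*c:ℕ):ℚ) - q)
noncomputable def K6 (c : ℕ) : ℚ := ∑ q ∈ range (3*c), ((3*c-1).choose q : ℚ) * (-1)^(q+1) / (((6*c:ℕ):ℚ) - q)
noncomputable def K8 (c : ℕ) : ℚ := ∑ j ∈ range c, ((3*c-1).choose (2*c+j) : ℚ) * (-1)^(j+1) / (((6*c:ℕ):ℚ) - j)

lemma K2_eq (c : ℕ) (hc1 : 1 ≤ c) : ((3*c:ℕ):ℚ) * K2 c =
    -(∑ q ∈ range (2*c), ((3*c).choose q : ℚ) * (-1)^q) - (c:ℚ) * Zs (3*c) c := by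
  have hZ : Zs (3*c) c = ∑ q ∈ range (2*c), ((3*c).choose q : ℚ) * (-1)^q / (((2*c:ℕ):ℚ) - q) := by
    unfold Zs
    have hsp := sum_range_add (fun l => ((3*c).choose (c+l+1) : ℚ) * (-1)^(l+1) / ((l:ℚ)+1)) (2*c) c
    rw [show 2*c + c = 3*c by ring] at hsp
    rw [hsp]
    have h0 : ∑ x ∈ range c, ((3*c).choose (c+(2*c+x)+1) : ℚ) * (-1)^(2*c+x+1) / (((2*c+x:ℕ):ℚ)+1) = 0 := by
      apply sum_eq_zero
      intro i hi
      rw [Nat.choose_eq_zero_of_lt (show 3*c < c+(2*c+i)+1 by omega)]; simp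
    rw [h0, add_zero, ← sum_range_reflect]
    apply sum_congr rfl
    intro q hq
    rw [mem_range] at hq
    have e1 : (3*c).choose (c + (2*c-1-q) + 1) = (3*c).choose q := by
      rw [← Nat.choose_symm (show q ≤ 3*c by omega)]; congr 1; omega
    have e2 : (-1:ℚ)^(2*c-1-q+1) = (-1)^q := by
      have h1 : (-1:ℚ)^(2*c-1-q+1) * (-1)^q = 1 := by
        rw [← pow_add, show 2*c-1-q+1+q = 2*c by omega, pow_mul]; norm_num
      have h2 : (-1:ℚ)^q * (-1)^q = 1 := by rw [← mul_pow]; norm_num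
      calc (-1:ℚ)^(2*c-1-q+1) = (-1:ℚ)^(2*c-1-q+1) * ((-1)^q * (-1)^q) := by rw [h2, mul_one]
        _ = ((-1:ℚ)^(2*c-1-q+1) * (-1)^q) * (-1)^q := by ring
        _ = (-1)^q := by rw [h1, one_mul]
    have e3 : (((2*c-1-q:ℕ):ℚ)+1) = ((2*c:ℕ):ℚ) - q := by
      have h0 : 2*c-1-q + 1 + q = 2*c := by omega
      have : ((2*c-1-q:ℕ):ℚ) + 1 + q = ((2*c:ℕ):ℚ) := by exact_mod_cast h0
      linarith
    rw [e1, e2, e3]
  rw [hZ]
  unfold K2
  rw [mul_sum, mul_sum, ← sum_neg_distrib, ← sum_sub_distrib]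
  apply sum_congr rfl
  intro q hq
  rw [mem_range] at hq
  have h1 := choose_mul_left (3*c) q (by omega) (by omega)
  have h2 := sub_ne hq
  have e : ((3*c:ℕ):ℚ) * (((3*c-1).choose q : ℚ) * (-1)^(q+1) / (((2*c:ℕ):ℚ) - q)) =
      (((3*c:ℕ):ℚ) * ((3*c-1).choose q : ℚ)) * (-1)^(q+1) / (((2*c:ℕ):ℚ) - q) := by ring
  rw [e, h1, pow_succ]
  have h3 : ((3*c:ℕ):ℚ) - q = (((2*c:ℕ):ℚ) - q) + c := by push_cast; ring
  rw [h3]
  generalize ((2*c:ℕ):ℚ) - q = D at *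
  field_simp
  ring

lemma K4_eq (c : ℕ) (hc1 : 1 ≤ c) : ((3*c:ℕ):ℚ) * K4 c * ((4*c).choose c : ℚ) = (-1)^c := by
  have h0 : ((3*c:ℕ):ℚ) * K4 c = (c:ℚ) * ((-1)^c * ∑ q ∈ range (3*c+1), ((3*c).choose q : ℚ) * (-1)^q / ((c:ℚ)+q)) := by
    have e1 : ((-1:ℚ))^c * ∑ q ∈ range (3*c+1), ((3*c).choose q : ℚ) * (-1)^q / ((c:ℚ)+q) =
        ∑ q ∈ range (3*c+1), ((3*c).choose q : ℚ) * (-1)^q / (((4*c:ℕ):ℚ) - q) := by
      rw [mul_sum, ← sum_range_reflect]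
      apply sum_congr rfl
      intro q hq
      rw [mem_range] at hq
      have f1 : (3*c).choose (3*c+1-1-q) = (3*c).choose q := by
        rw [Nat.add_sub_cancel]; exact Nat.choose_symm (show q ≤ 3*c by omega)
      have f2 : (-1:ℚ)^c * (-1)^(3*c+1-1-q) = (-1)^q := by
        have h1 : (-1:ℚ)^c * (-1)^(3*c+1-1-q) * (-1)^q = 1 := by
          rw [← pow_add, ← pow_add, show c + (3*c+1-1-q) + q = 2*(2*c) by omega, pow_mul]; norm_num
        have h2 : (-1:ℚ)^q * (-1)^q = 1 := by rw [← mul_pow]; norm_num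
        calc (-1:ℚ)^c * (-1)^(3*c+1-1-q) = ((-1:ℚ)^c * (-1)^(3*c+1-1-q)) * ((-1)^q * (-1)^q) := by rw [h2, mul_one]
          _ = ((-1:ℚ)^c * (-1)^(3*c+1-1-q) * (-1)^q) * (-1)^q := by ring
          _ = (-1)^q := by rw [h1, one_mul]
      have f3 : (c:ℚ) + ((3*c+1-1-q:ℕ):ℚ) = ((4*c:ℕ):ℚ) - q := by
        rw [Nat.add_sub_cancel, Nat.cast_sub (by omega)]; push_cast; ring
      rw [f1, f3, ← f2]
      ring
    rw [e1, sum_range_succ]
    have e2 := Int.alternating_sum_range_choose (n := 3*c)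
    rw [if_neg (by omega), sum_range_succ] at e2
    have e3 : ((∑ x ∈ range (3*c), (-1)^x * ((3*c).choose x : ℤ) + (-1)^(3*c) * ((3*c).choose (3*c) : ℤ) : ℤ) : ℚ) = 0 := by
      rw [e2]; simp
    push_cast at e3
    rw [Nat.choose_self] at e3 ⊢
    have e4 : ((4*c:ℕ):ℚ) - ((3*c:ℕ):ℚ) = c := by push_cast; ring
    rw [e4]
    have hc0 : (c:ℚ) ≠ 0 := by
      have : c ≠ 0 := by omega
      exact_mod_cast this
    have e5 : (c:ℚ) * (∑ x ∈ range (3*c), ((3*c).choose x : ℚ) * (-1)^x / (((4*c:ℕ):ℚ) - x) + ((1:ℕ):ℚ) * (-1)^(3*c) / c) =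
        ∑ x ∈ range (3*c), ((c:ℚ) * (((3*c).choose x : ℚ) * (-1)^x / (((4*c:ℕ):ℚ) - x)) - (-1)^x * ((3*c).choose x : ℚ)) := by
      rw [sum_sub_distrib, ← mul_sum]
      have : ((1:ℕ):ℚ) * (-1)^(3*c) / c * c = (-1)^(3*c) := by
        push_cast; field_simp
      push_cast at e3 this ⊢
      linear_combination this + e3
    rw [e5]
    unfold K4
    rw [mul_sum]
    apply sum_congr rfl
    intro q hq
    rw [mem_range] at hq
    have h1 := choose_mul_left (3*c) q (by omega) (by omega)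
    have h2 := sub_ne (show q < 4*c by omega)
    have e : ((3*c:ℕ):ℚ) * (((3*c-1).choose q : ℚ) * (-1)^(q+1) / (((4*c:ℕ):ℚ) - q)) =
        (((3*c:ℕ):ℚ) * ((3*c-1).choose q : ℚ)) * (-1)^(q+1) / (((4*c:ℕ):ℚ) - q) := by ring
    rw [e, h1, pow_succ]
    have h3 : ((3*c:ℕ):ℚ) - q = (((4*c:ℕ):ℚ) - q) - c := by push_cast; ring
    rw [h3]
    generalize ((4*c:ℕ):ℚ) - q = D at *
    field_simp
    ring
  have hcpos : (0:ℚ) < c := by exact_mod_cast hc1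
  have hpf := partial_frac (3*c) (c:ℚ) hcpos
  have hprod : (∏ i ∈ range (3*c+1), ((c:ℚ) + i)) * ((c-1).factorial : ℚ) = ((4*c).factorial : ℚ) := by
    have h1 := Nat.ascFactorial_eq_prod_range c (3*c+1)
    have h2 := Nat.factorial_mul_ascFactorial (c-1) (3*c+1)
    rw [show c - 1 + 1 = c by omega, h1, show c - 1 + (3*c+1) = 4*c by omega] at h2
    rw [← h2]; push_cast; ring
  have hch : ((4*c).choose c : ℚ) * ((c.factorial : ℚ) * ((3*c).factorial : ℚ)) = ((4*c).factorial : ℚ) := by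
    have h := Nat.choose_mul_factorial_mul_factorial (show c ≤ 4*c by omega)
    rw [show 4*c - c = 3*c by omega] at h
    rw [← h]; push_cast; ring
  have hcf : (c.factorial : ℚ) = c * ((c-1).factorial : ℚ) := by
    have := Nat.mul_factorial_pred (show c ≠ 0 by omega)
    rw [← this]; push_cast; ring
  rw [h0]
  set S := ∑ q ∈ range (3*c+1), ((3*c).choose q : ℚ) * (-1)^q / ((c:ℚ)+q)
  set P := ∏ i ∈ range (3*c+1), ((c:ℚ) + i)
  have hP : P ≠ 0 := by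
    apply prod_ne_zero_iff.mpr; intro i _; positivity
  have hf1 : ((c-1).factorial : ℚ) ≠ 0 := by exact_mod_cast (Nat.factorial_ne_zero _)
  have hf2 : ((3*c).factorial : ℚ) ≠ 0 := by exact_mod_cast (Nat.factorial_ne_zero _)
  -- S = n!/P ; binom = P (c-1)! / (c (c-1)! n!) = P/(c n!)
  have hb : ((4*c).choose c : ℚ) * ((c:ℚ) * ((3*c).factorial : ℚ)) = P := by
    apply mul_right_cancel₀ hf1
    rw [hprod, ← hch, hcf]; ring
  have : (c:ℚ) * ((-1)^c * S) * ((4*c).choose c : ℚ) = (-1)^c := by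
    apply mul_right_cancel₀ hf2
    have : (c:ℚ) * ((-1)^c * S) * ((4*c).choose c : ℚ) * ((3*c).factorial : ℚ) =
      (-1)^c * (S * (((4*c).choose c : ℚ) * ((c:ℚ) * ((3*c).factorial : ℚ)))) := by ring
    rw [this, hb, hpf]
  exact this

section

variable {p : ℕ} [hp : Fact p.Prime] {c : ℕ} (hc : 6*c+1 = p) (hc1 : 1 ≤ c)
include hc hc1

lemma inv_sub {a b : ℕ} (h : b < a) (h2 : a - b < p) : 1/((a:ℚ) - b) ∈ Zp p := by
  have := one_div_c hc hc1 (k := a - b) (by omega) h2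
  rwa [Nat.cast_sub h.le] at this

lemma K6_I : I p 1 (((3*c:ℕ):ℚ) * K6 c - 1) := by
  have h := alt_zero (3*c-1)
  rw [show 3*c-1+1 = 3*c by omega] at h
  have e : ((3*c:ℕ):ℚ) * K6 c - 1 = ∑ q ∈ range (3*c), ((p:ℚ)^1 * ((3*c).choose (q+1) * (-1)^(q+1) * (1/(((6*c:ℕ):ℚ) - q)))) := by
    have e1 : ((3*c:ℕ):ℚ) * K6 c - 1 = ((3*c:ℕ):ℚ) * K6 c + ∑ l ∈ range (3*c), ((3*c).choose (l+1) : ℚ) * (-1)^(l+1) := by
      rw [h]; ring
    rw [e1]
    unfold K6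
    rw [mul_sum, ← sum_add_distrib]
    apply sum_congr rfl
    intro q hq
    rw [mem_range] at hq
    have h1 := choose_mul_left' (3*c) q (by omega)
    have h2 := sub_ne (show q < 6*c by omega)
    have e : ((3*c:ℕ):ℚ) * (((3*c-1).choose q : ℚ) * (-1)^(q+1) / (((6*c:ℕ):ℚ) - q)) =
        (((3*c:ℕ):ℚ) * ((3*c-1).choose q : ℚ)) * (-1)^(q+1) / (((6*c:ℕ):ℚ) - q) := by ring
    rw [e, h1, ← hc]
    have h3 : ((6*c+1:ℕ):ℚ) = (((6*c:ℕ):ℚ) - q) + (q + 1) := by push_cast; ring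
    rw [h3]
    generalize ((6*c:ℕ):ℚ) - q = D at *
    field_simp
    ring
  rw [e]
  apply I.sum
  intro q hq
  rw [mem_range] at hq
  exact (I.p_pow 1).mul_mem ((Zp p).mul_mem ((Zp p).mul_mem (nat_mem _) ((Zp p).pow_mem ((Zp p).neg_mem (Zp p).one_mem) _))
    (inv_sub hc hc1 (by omega) (by omega)))

lemma K8_I : I p 1 (((3*c:ℕ):ℚ) * K8 c + (∑ j ∈ range c, ((3*c).choose (2*c+j+1) : ℚ) * (-1)^(j+1)) + 2*(c:ℚ) * Zs (3*c) (2*c)) := by
  have hZ2 : Zs (3*c) (2*c) = ∑ l ∈ range c, ((3*c).choose (2*c+l+1) : ℚ) * (-1)^(l+1) / ((l:ℚ)+1) := by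
    unfold Zs
    have hsp := sum_range_add (fun l => ((3*c).choose (2*c+l+1) : ℚ) * (-1)^(l+1) / ((l:ℚ)+1)) c (2*c)
    rw [show c + 2*c = 3*c by ring] at hsp
    rw [hsp]
    have h0 : ∑ x ∈ range (2*c), ((3*c).choose (2*c+(c+x)+1) : ℚ) * (-1)^(c+x+1) / (((c+x:ℕ):ℚ)+1) = 0 := by
      apply sum_eq_zero
      intro i hi
      rw [Nat.choose_eq_zero_of_lt (show 3*c < 2*c+(c+i)+1 by omega)]; simp
    rw [h0, add_zero]
  rw [hZ2]
  unfold K8
  rw [mul_sum, mul_sum, ← sum_add_distrib, ← sum_add_distrib]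
  apply I.sum
  intro j hj
  rw [mem_range] at hj
  have h1 := choose_mul_left' (3*c) (2*c+j) (by omega)
  have h2 := sub_ne (show j < 6*c by omega)
  have i1 := inv_sub hc hc1 (a := 6*c) (b := j) (by omega) (by omega)
  have i2 := one_div_c hc hc1 (k := j+1) (by omega) (by omega)
  push_cast at i2
  have e : ((3*c:ℕ):ℚ) * (((3*c-1).choose (2*c+j) : ℚ) * (-1)^(j+1) / (((6*c:ℕ):ℚ) - j)) =
      (((3*c:ℕ):ℚ) * ((3*c-1).choose (2*c+j) : ℚ)) * (-1)^(j+1) / (((6*c:ℕ):ℚ) - j) := by ring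
  rw [e, h1]
  have hj1 : (j:ℚ)+1 ≠ 0 := by positivity
  have e2 : (((2*c+j:ℕ):ℚ)+1) * ((3*c).choose (2*c+j+1) : ℚ) * (-1)^(j+1) / (((6*c:ℕ):ℚ) - j) +
      ((3*c).choose (2*c+j+1) : ℚ) * (-1)^(j+1) + 2*(c:ℚ) * (((3*c).choose (2*c+j+1) : ℚ) * (-1)^(j+1) / ((j:ℚ)+1)) =
      (p:ℚ)^1 * (((2*c+j+1:ℕ):ℚ) * ((3*c).choose (2*c+j+1) : ℚ) * (-1)^(j+1) * ((1/(((6*c:ℕ):ℚ) - j)) * (1/((j:ℚ)+1)))) := by
    rw [← hc]
    have h3 : ((6*c+1:ℕ):ℚ) = (((6*c:ℕ):ℚ) - j) + (j + 1) := by push_cast; ring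
    rw [h3]
    generalize ((6*c:ℕ):ℚ) - j = D at *
    push_cast
    field_simp
    ring
  rw [e2]
  exact (I.p_pow 1).mul_mem ((Zp p).mul_mem ((Zp p).mul_mem ((Zp p).mul_mem (nat_mem _) (nat_mem _))
    ((Zp p).pow_mem ((Zp p).neg_mem (Zp p).one_mem) _)) ((Zp p).mul_mem i1 i2))

lemma b_unit : ¬ p ∣ (3*c).choose (2*c) := by
  intro h
  have h2 : p ∣ (3*c).factorial := by
    rw [← Nat.choose_mul_factorial_mul_factorial (show 2*c ≤ 3*c by omega), mul_assoc]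
    exact Dvd.dvd.mul_right h _
  exact absurd ((Nat.Prime.dvd_factorial hp.out).mp h2) (by omega)

lemma b4_unit : ¬ p ∣ (4*c).choose c := by
  intro h
  have h2 : p ∣ (4*c).factorial := by
    rw [← Nat.choose_mul_factorial_mul_factorial (show c ≤ 4*c by omega), mul_assoc]
    exact Dvd.dvd.mul_right h _
  exact absurd ((Nat.Prime.dvd_factorial hp.out).mp h2) (by omega)

lemma b4_eq : ((4*c).choose c : ZMod p) = (-1)^c * ((3*c).choose (2*c) : ZMod p) := by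
  have h1 := Nat.ascFactorial_eq_factorial_mul_choose (3*c) c
  have h2 := Nat.descFactorial_eq_factorial_mul_choose (3*c) c
  rw [Nat.ascFactorial_eq_prod_range] at h1
  rw [Nat.descFactorial_eq_prod_range] at h2
  have h1' : (∏ i ∈ range c, (((3*c:ℕ):ZMod p) + 1 + i)) = (c.factorial : ZMod p) * ((4*c).choose c : ZMod p) := by
    have := congrArg (Nat.cast : ℕ → ZMod p) h1
    rw [show 3*c+c = 4*c by ring] at this
    push_cast at this ⊢
    exact this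
  have h2' : (∏ i ∈ range c, (((3*c:ℕ):ZMod p) - i)) = (c.factorial : ZMod p) * ((3*c).choose c : ZMod p) := by
    have := congrArg (Nat.cast : ℕ → ZMod p) h2
    rw [Nat.cast_prod] at this
    push_cast at this
    rw [← this]
    apply prod_congr rfl
    intro i hi
    rw [mem_range] at hi
    rw [Nat.cast_sub (by omega)]
  have hp0 : (6:ZMod p) * (c:ZMod p) + 1 = 0 := by
    have : ((6*c+1:ℕ):ZMod p) = 0 := by rw [hc]; exact ZMod.natCast_self p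
    push_cast at this; exact this
  have h3 : (∏ i ∈ range c, (((3*c:ℕ):ZMod p) + 1 + i)) = (-1)^c * ∏ i ∈ range c, (((3*c:ℕ):ZMod p) - i) := by
    have : ∀ i ∈ range c, (((3*c:ℕ):ZMod p) + 1 + i) = (-1) * (((3*c:ℕ):ZMod p) - i) := by
      intro i _
      push_cast
      linear_combination hp0
    rw [prod_congr rfl this, prod_mul_distrib, prod_const, card_range]
  have hf : (c.factorial : ZMod p) ≠ 0 := by
    intro h0
    rw [ZMod.natCast_eq_zero_iff] at h0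
    exact absurd ((Nat.Prime.dvd_factorial hp.out).mp h0) (by omega)
  have h4 : (3*c).choose c = (3*c).choose (2*c) := by
    rw [← Nat.choose_symm (show c ≤ 3*c by omega)]; congr 1; omega
  apply mul_left_cancel₀ hf
  rw [← h1', h3, h2', h4]; ring

/-- `1/C(4c,c) ≡ (-1)^c / C(3c,c)` -/
lemma K4_I : I p 1 (((3*c:ℕ):ℚ) * K4 c - ((3*c).choose (2*c) : ℚ)⁻¹) := by
  have h := K4_eq c hc1
  have hz := b4_eq hc hc1
  have hd : ((((4*c).choose c : ℤ) - (-1)^c * ((3*c).choose (2*c) : ℤ) : ℤ) : ZMod p) = 0 := by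
    push_cast; rw [hz]; ring
  obtain ⟨z, hz2⟩ := (ZMod.intCast_zmod_eq_zero_iff_dvd _ p).mp hd
  have hz3 : ((4*c).choose c : ℚ) = (-1)^c * ((3*c).choose (2*c) : ℚ) + p * z := by
    have : ((((4*c).choose c : ℤ) - (-1)^c * ((3*c).choose (2*c) : ℤ) : ℤ) : ℚ) = ((p:ℤ) * z : ℤ) := by rw [hz2]
    push_cast at this; linarith
  have u1 := inv_nat_mem (b_unit hc hc1)
  have u2 := inv_nat_mem (b4_unit hc hc1)
  have n1 : ((3*c).choose (2*c) : ℚ) ≠ 0 := by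
    have := b_unit hc hc1
    intro h0; apply this
    have : (3*c).choose (2*c) = 0 := by exact_mod_cast h0
    rw [this]; exact dvd_zero p
  have n2 : ((4*c).choose c : ℚ) ≠ 0 := by
    have := b4_unit hc hc1
    intro h0; apply this
    have : (4*c).choose c = 0 := by exact_mod_cast h0
    rw [this]; exact dvd_zero p
  have hs : ((-1:ℚ)^c) * ((-1:ℚ)^c) = 1 := by rw [← mul_pow]; norm_num
  have e1 : ((3*c:ℕ):ℚ) * K4 c = (-1)^c * ((4*c).choose c : ℚ)⁻¹ := by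
    rw [← h, mul_inv_cancel_right₀ n2]
  have e : ((3*c:ℕ):ℚ) * K4 c - ((3*c).choose (2*c) : ℚ)⁻¹ =
      (p:ℚ)^1 * (-((z:ℚ) * (((4*c).choose c : ℚ)⁻¹ * ((3*c).choose (2*c) : ℚ)⁻¹))) := by
    rw [e1]
    have : (-1)^c * ((4*c).choose c : ℚ)⁻¹ - ((3*c).choose (2*c) : ℚ)⁻¹ =
        ((-1)^c * ((3*c).choose (2*c) : ℚ) - ((4*c).choose c : ℚ)) * (((4*c).choose c : ℚ)⁻¹ * ((3*c).choose (2*c) : ℚ)⁻¹) := by
      field_simp
    rw [this, hz3]; ring
  rw [e]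
  exact (I.p_pow 1).mul_mem ((Zp p).neg_mem ((Zp p).mul_mem (int_mem z) ((Zp p).mul_mem u2 u1)))

/-- the sum of the four pieces -/
theorem K_I : I p 1 (((3*c:ℕ):ℚ) * (K2 c + K4 c + K6 c + K8 c) -
    (1 + ((3*c).choose (2*c) : ℚ)⁻¹ + ((3*c).choose (2*c) : ℚ) +
      (c:ℚ) * ((3*c).choose (2*c) : ℚ) * (hs (3*c) - hs c) +
      2 * (c:ℚ) * ((3*c).choose (2*c) : ℚ) * (hs (3*c) - hs (2*c)))) := by
  have h2 := K2_eq c hc1
  have h4 := K4_I hc hc1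
  have h6 := K6_I hc hc1
  have h8 := K8_I hc hc1
  have ha := alt_split c hc1
  rw [Zs_eq] at h2 h8
  have hsym : (3*c).choose c = (3*c).choose (2*c) := by
    rw [← Nat.choose_symm (show c ≤ 3*c by omega)]; congr 1; omega
  rw [hsym] at h2
  set b : ℚ := ((3*c).choose (2*c) : ℚ)
  set P := hs (3*c) - hs c
  set Q := hs (3*c) - hs (2*c)
  set s1 := ∑ q ∈ range (2*c), ((3*c).choose q : ℚ) * (-1)^q
  set s2 := ∑ j ∈ range c, ((3*c).choose (2*c+j+1) : ℚ) * (-1)^(j+1)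
  have e : ((3*c:ℕ):ℚ) * (K2 c + K4 c + K6 c + K8 c) - (1 + b⁻¹ + b + (c:ℚ) * b * P + 2 * (c:ℚ) * b * Q) =
      (((3*c:ℕ):ℚ) * K4 c - b⁻¹) + (((3*c:ℕ):ℚ) * K6 c - 1) + (((3*c:ℕ):ℚ) * K8 c + s2 + 2*(c:ℚ) * -(b * Q)) := by
    linear_combination h2 - ha
  rw [e]
  exact (h4.add h6).add h8

end

end Pool.Agent.R856.CM
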