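import Pool.Agent.R856.CM5

set_option autoImplicit false

/-!
The character sum `∑_x χ(x^3+1)` modulo `p^2`.
-/

namespace Pool.Agent.R856.CM

open Finset Pool.Agent.Helper857.Pad Pool.Agent.R856.TK

section

variable {p : ℕ} [hp : Fact p.Prime]

lemma pow_p_congr {a b : ℤ} (h : (p:ℤ) ∣ a - b) : (p:ℤ)^2 ∣ a^p - b^p := by
  have := dvd_sub_pow_of_dvd_sub (R := ℤ) (p := p) h 1
  simpa using this

lemma dvd_of_zmod {a : ℤ} (h : (a : ZMod p) = 0) : (p:ℤ) ∣ a :=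
  (ZMod.intCast_zmod_eq_zero_iff_dvd _ p).mp h

lemma zmod_of_dvd {a : ℤ} (h : (p:ℤ) ∣ a) : (a : ZMod p) = 0 :=
  (ZMod.intCast_zmod_eq_zero_iff_dvd _ p).mpr h

lemma v_cast (x : ZMod p) : (((x.val : ℕ) : ℤ) : ZMod p) = x := by simp

lemma sum_pow_zmod (n : ℕ) (hn : 0 < n) : ∑ x : ZMod p, x^n = if (p - 1) ∣ n then -1 else 0 := by
  have h := FiniteField.sum_pow_units (ZMod p) n
  rw [ZMod.card] at h
  rw [← h]
  classical
  let φ : (ZMod p)ˣ ↪ ZMod p := ⟨fun x ↦ x, Units.val_injective⟩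
  have hu : univ.map φ = univ \ {0} := by
    ext x
    simpa only [mem_map, mem_univ, Function.Embedding.coeFn_mk, true_and, mem_sdiff,
      mem_singleton, φ] using! isUnit_iff_ne_zero
  calc
    ∑ x : ZMod p, x ^ n = ∑ x ∈ univ \ {(0 : ZMod p)}, x ^ n := by
      rw [← sum_sdiff ({0} : Finset (ZMod p)).subset_univ, sum_singleton, zero_pow hn.ne', add_zero]
    _ = ∑ x : (ZMod p)ˣ, (x ^ n : ZMod p) := by simp [φ, ← hu, univ.sum_map φ]

lemma exists_pow_ne (n : ℕ) (h : ¬ (p-1) ∣ n) : ∃ g : ZMod p, g ≠ 0 ∧ g^n ≠ 1 := by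
  by_contra hcon
  push Not at hcon
  have h0 := FiniteField.sum_pow_units (ZMod p) n
  rw [ZMod.card, if_neg h] at h0
  have h1 : ∀ x : (ZMod p)ˣ, (x:ZMod p)^n = 1 := fun x => hcon x x.ne_zero
  rw [sum_congr rfl (fun x _ => h1 x)] at h0
  simp only [sum_const, card_univ, nsmul_eq_mul, mul_one, ZMod.card_units_eq_totient, Nat.totient_prime hp.out] at h0
  rw [Nat.cast_sub hp.out.one_le] at h0
  simp at h0

/-- power sums of `p`-th powers -/
def Wp (p : ℕ) [Fact p.Prime] (n : ℕ) : ℤ := ∑ x : ZMod p, ((x.val : ℕ) : ℤ)^(p*n)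

lemma Wp_zero : Wp p 0 = p := by
  unfold Wp; simp

lemma Wp_mul (n : ℕ) (hn : 0 < n) (h : (p-1) ∣ n) : (p:ℤ)^2 ∣ Wp p n - ((p:ℤ) - 1) := by
  have hs : ∑ x : ZMod p, (if x = 0 then (0:ℤ) else 1) = (p:ℤ) - 1 := by
    have : ∑ x : ZMod p, (if x = 0 then (0:ℤ) else 1) = ∑ x : ZMod p, ((1:ℤ) - (if x = 0 then 1 else 0)) := by
      apply sum_congr rfl; intro x _; split_ifs <;> simp
    rw [this, sum_sub_distrib]
    simp
  rw [← hs]
  unfold Wp
  rw [← sum_sub_distrib]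
  apply dvd_sum
  intro x _
  by_cases hx : x = 0
  · rw [if_pos hx, hx]
    rw [ZMod.val_zero]
    have : p * n ≠ 0 := (Nat.mul_pos hp.out.pos hn).ne'
    rw [Nat.cast_zero, zero_pow this]; simp
  · rw [if_neg hx, mul_comm p n, pow_mul, ← one_pow p]
    apply pow_p_congr
    apply dvd_of_zmod
    push_cast
    rw [ZMod.natCast_zmod_val]
    obtain ⟨k, rfl⟩ := h
    rw [pow_mul, ZMod.pow_card_sub_one_eq_one hx]; simp

lemma Wp_not (n : ℕ) (h : ¬ (p-1) ∣ n) : (p:ℤ)^2 ∣ Wp p n := by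
  obtain ⟨g, hg0, hg⟩ := exists_pow_ne n h
  have hperm : ∑ x : ZMod p, (((g*x).val : ℕ) : ℤ)^(p*n) = Wp p n := by
    unfold Wp
    exact Fintype.sum_equiv (Equiv.mulLeft₀ g hg0) _ _ (fun x => rfl)
  have h1 : (p:ℤ)^2 ∣ (((g.val : ℕ) : ℤ)^(p*n) - 1) * Wp p n := by
    have e : (((g.val : ℕ) : ℤ)^(p*n) - 1) * Wp p n =
        ∑ x : ZMod p, ((((g.val : ℕ) : ℤ) * ((x.val : ℕ) : ℤ))^n)^p - ∑ x : ZMod p, ((((g*x).val : ℕ) : ℤ)^n)^p := by
      have e1 : ∑ x : ZMod p, ((((g*x).val : ℕ) : ℤ)^n)^p = Wp p n := by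
        rw [← hperm]; apply sum_congr rfl; intro x _; rw [← pow_mul, mul_comm n p]
      rw [e1]
      unfold Wp
      rw [sub_mul, one_mul, mul_sum]
      congr 1
      apply sum_congr rfl; intro x _
      rw [← pow_mul, mul_comm n p, mul_pow]
    rw [e, ← sum_sub_distrib]
    apply dvd_sum
    intro x _
    apply pow_p_congr
    apply dvd_of_zmod
    push_cast
    rw [ZMod.natCast_zmod_val, ZMod.natCast_zmod_val, ZMod.natCast_zmod_val]
    ring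
  have h2 : IsCoprime ((p:ℤ)^2) (((g.val : ℕ) : ℤ)^(p*n) - 1) := by
    apply IsCoprime.pow_left
    rw [Int.isCoprime_iff_gcd_eq_one]
    have h3 : ¬ (p:ℤ) ∣ (((g.val : ℕ) : ℤ)^(p*n) - 1) := by
      intro hd
      have := zmod_of_dvd hd
      push_cast at this
      rw [ZMod.natCast_zmod_val, pow_mul, ZMod.pow_card] at this
      exact hg (sub_eq_zero.mp this)
    have h4 := (Nat.Prime.coprime_iff_not_dvd hp.out (n := ((((g.val : ℕ) : ℤ)^(p*n) - 1)).natAbs)).mpr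
      (fun hd => h3 (Int.natCast_dvd.mpr hd))
    exact h4
  exact h2.dvd_of_dvd_mul_left h1

/-- `C(p,r)/p` -/
def ee (p r : ℕ) : ℕ := p.choose r / p

lemma ee_zero : ee p 0 = 0 := by
  unfold ee; rw [Nat.choose_zero_right]; exact Nat.div_eq_of_lt hp.out.one_lt

lemma ee_mul (r : ℕ) (h0 : 0 < r) (h1 : r < p) : p * ee p r = p.choose r := by
  unfold ee
  exact Nat.mul_div_cancel' (hp.out.dvd_choose_self h0.ne' h1)

lemma choose_pred (r : ℕ) (h1 : r < p) : (p:ℤ) ∣ ((p-1).choose r : ℤ) - (-1)^r := by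
  induction r with
  | zero => simp
  | succ r ih =>
    have ih' := ih (by omega)
    have h2 : p.choose (r+1) = (p-1).choose r + (p-1).choose (r+1) := by
      obtain ⟨k, hk⟩ : ∃ k, p = k + 1 := ⟨p-1, by omega⟩
      rw [hk, Nat.choose_succ_succ, Nat.add_sub_cancel]
    have h3 : (p:ℤ) ∣ (p.choose (r+1) : ℤ) := by
      exact_mod_cast hp.out.dvd_choose_self (by omega) h1
    have e : ((p-1).choose (r+1) : ℤ) - (-1)^(r+1) = (p.choose (r+1) : ℤ) - (((p-1).choose r : ℤ) - (-1)^r) := by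
      rw [h2]; push_cast; ring
    rw [e]
    exact dvd_sub h3 ih'

lemma ee_I (r : ℕ) (h1 : r + 1 < p) : I p 1 ((ee p (r+1) : ℚ) - (-1)^r / ((r:ℚ)+1)) := by
  obtain ⟨z, hz⟩ := choose_pred (p := p) r (by omega)
  have hz' : ((p-1).choose r : ℚ) = (-1)^r + p * z := by
    have : ((((p-1).choose r : ℤ) - (-1)^r : ℤ) : ℚ) = ((p:ℤ) * z : ℤ) := by rw [hz]
    push_cast at this; linarith
  have h2 := ee_mul (p := p) (r+1) (by omega) h1
  have h3 : p * (p-1).choose r = p.choose (r+1) * (r+1) := by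
    have := Nat.add_one_mul_choose_eq (p-1) r
    rw [show p - 1 + 1 = p by omega] at this
    exact this
  have h4 : (ee p (r+1)) * (r+1) = (p-1).choose r := by
    apply Nat.eq_of_mul_eq_mul_left hp.out.pos
    rw [h3, ← h2]; ring
  have h4' : (ee p (r+1) : ℚ) * ((r:ℚ)+1) = (-1)^r + p * z := by
    rw [← hz']; exact_mod_cast h4
  have hr : (r:ℚ)+1 ≠ 0 := by positivity
  have i1 : (((r+1:ℕ):ℚ))⁻¹ ∈ Zp p := inv_nat_mem (fun hd => absurd (Nat.le_of_dvd (by omega) hd) (by omega))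
  have e : (ee p (r+1) : ℚ) - (-1)^r / ((r:ℚ)+1) = (p:ℚ)^1 * ((z:ℚ) * ((r+1:ℕ):ℚ)⁻¹) := by
    have : (ee p (r+1) : ℚ) = ((-1)^r + p * z) / ((r:ℚ)+1) := by rw [eq_div_iff hr, h4']
    rw [this]; push_cast; field_simp; ring
  rw [e]
  exact (I.p_pow 1).mul_mem ((Zp p).mul_mem (int_mem z) i1)

lemma binom_p (z : ℤ) : (z+1)^p = 1 + z^p + p * ∑ r ∈ range p, (ee p r : ℤ) * z^r := by
  rw [add_pow, sum_range_succ]
  simp only [one_pow, mul_one]
  obtain ⟨k, hk⟩ : ∃ k, p = k + 1 := ⟨p-1, by have := hp.out.pos; omega⟩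
  have e1 : ∑ x ∈ range p, z^x * (p.choose x : ℤ) = 1 + (p:ℤ) * ∑ r ∈ range p, (ee p r : ℤ) * z^r := by
    have hr : range p = range (k+1) := by rw [hk]
    rw [hr, sum_range_succ', sum_range_succ' (fun r => (ee p r : ℤ) * z^r), ee_zero]
    simp only [pow_zero, Nat.choose_zero_right, Nat.cast_one, mul_one, Nat.cast_zero, add_zero]
    rw [add_comm, mul_sum]
    congr 1
    apply sum_congr rfl
    intro r hr
    rw [mem_range] at hr
    have := ee_mul (p := p) (r+1) (by omega) (by omega)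
    rw [← this]; push_cast; ring
  rw [e1, Nat.choose_self]
  push_cast; ring

lemma pow_expand (a b : ℤ) (m : ℕ) (q : ℤ) : q^2 ∣ (a + q*b)^m - (a^m + m * q * b * a^(m-1)) := by
  induction m with
  | zero => simp
  | succ m ih =>
    rcases m with _ | m
    · simp
    · obtain ⟨k, hk⟩ := ih
      have e : (a+q*b)^(m+1) = a^(m+1) + ((m+1:ℕ):ℤ) * q * b * a^(m+1-1) + q^2 * k := by linarith
      rw [pow_succ (a+q*b) (m+1), e]
      rw [Nat.add_sub_cancel, Nat.add_sub_cancel]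
      refine ⟨k * (a + q*b) + ((m+1:ℕ):ℤ) * b * b * a^m, ?_⟩
      push_cast
      ring

lemma chi_pow {m : ℕ} (hm : 2*m+1 = p) (hm1 : 1 ≤ m) (a : ℤ) :
    (p:ℤ)^2 ∣ (quadraticChar (ZMod p) (a : ZMod p)) - (a^p)^m := by
  have hF : ringChar (ZMod p) ≠ 2 := by rw [ZMod.ringChar_zmod_n]; omega
  have h1 := quadraticChar_eq_pow_of_char_ne_two' hF (a : ZMod p)
  rw [ZMod.card, show p / 2 = m by omega] at h1
  have h2 : (p:ℤ) ∣ (quadraticChar (ZMod p) (a : ZMod p)) - a^m := by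
    apply dvd_of_zmod; push_cast; rw [h1]; ring
  have h3 := pow_p_congr h2
  have h4 : (quadraticChar (ZMod p) (a : ZMod p))^p = quadraticChar (ZMod p) (a : ZMod p) := by
    have hodd : Odd p := ⟨m, hm.symm⟩
    by_cases ha : (a : ZMod p) = 0
    · rw [ha, MulChar.map_zero, zero_pow hp.out.ne_zero]
    · rcases quadraticChar_dichotomy ha with h | h
      · rw [h, one_pow]
      · rw [h, hodd.neg_one_pow]
  rw [h4, ← pow_mul, mul_comm m p, pow_mul] at h3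
  exact h3

/-- the character sum -/
noncomputable def s1 (p : ℕ) [Fact p.Prime] : ℤ := ∑ x : ZMod p, quadraticChar (ZMod p) (x^3+1)

lemma term_exp {m : ℕ} (hm : 2*m+1 = p) (hm1 : 1 ≤ m) (x : ZMod p) :
    (p:ℤ)^2 ∣ quadraticChar (ZMod p) (x^3+1) -
      ((1 + ((((x.val:ℕ):ℤ))^3)^p)^m + m * p * (∑ r ∈ range p, (ee p r : ℤ) * ((((x.val:ℕ):ℤ))^3)^r) *
        (1 + (((x.val:ℕ):ℤ))^3)^(m-1)) := by
  have h1 := chi_pow hm hm1 ((((x.val:ℕ):ℤ))^3 + 1)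
  push_cast at h1
  rw [ZMod.natCast_zmod_val] at h1
  set Z : ℤ := ((x.val:ℕ):ℤ)^3 with hZ
  set E : ℤ := ∑ r ∈ range p, (ee p r : ℤ) * Z^r
  have h2 := binom_p (p := p) Z
  rw [h2] at h1
  have h3 := pow_expand (1 + Z^p) E m (p:ℤ)
  have h4 : (p:ℤ) ∣ (1 + Z^p)^(m-1) - (1+Z)^(m-1) := by
    apply dvd_of_zmod
    push_cast
    rw [ZMod.pow_card]; ring
  obtain ⟨k, hk⟩ := h4
  have h5 : (p:ℤ)^2 ∣ m * p * E * (1+Z^p)^(m-1) - m * p * E * (1+Z)^(m-1) := by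
    refine ⟨m * E * k, ?_⟩
    have : (1 + Z^p)^(m-1) = (1+Z)^(m-1) + p * k := by linarith
    rw [this]; ring
  have h6 := dvd_add (dvd_add h1 h3) h5
  have e6 : quadraticChar (ZMod p) (x^3+1) - ((1 + Z^p)^m + m * p * E * (1+Z)^(m-1)) =
      quadraticChar (ZMod p) (x^3+1) - (1 + Z^p + p * E)^m + ((1 + Z^p + p * E)^m - ((1+Z^p)^m + m * p * E * (1+Z^p)^(m-1))) +
      (m * p * E * (1+Z^p)^(m-1) - m * p * E * (1+Z)^(m-1)) := by ring
  rw [e6]
  exact h6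

end

section

variable {p : ℕ} [hp : Fact p.Prime] {c : ℕ} (hc : 6*c+1 = p) (hc1 : 1 ≤ c)
include hc hc1

/-- the main part -/
lemma main_part : (p:ℤ)^2 ∣ ∑ x : ZMod p, (1 + ((((x.val:ℕ):ℤ))^3)^p)^(3*c) -
    ((p:ℤ) + ((p:ℤ)-1) * ((3*c).choose (2*c) : ℤ)) := by
  have e1 : ∑ x : ZMod p, (1 + ((((x.val:ℕ):ℤ))^3)^p)^(3*c) = ∑ j ∈ range (3*c+1), ((3*c).choose j : ℤ) * Wp p (3*j) := by
    have : ∀ x : ZMod p, (1 + ((((x.val:ℕ):ℤ))^3)^p)^(3*c) =
        ∑ j ∈ range (3*c+1), ((3*c).choose j : ℤ) * ((((x.val:ℕ):ℤ))^(p*(3*j))) := by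
      intro x
      rw [add_comm, add_pow]
      apply sum_congr rfl
      intro j _
      rw [one_pow, mul_one, ← pow_mul, ← pow_mul, mul_comm]
      congr 2; ring
    rw [sum_congr rfl (fun x _ => this x), sum_comm]
    apply sum_congr rfl
    intro j _
    unfold Wp
    rw [mul_sum]
  have e2 : ((p:ℤ) + ((p:ℤ)-1) * ((3*c).choose (2*c) : ℤ)) =
      ∑ j ∈ range (3*c+1), ((3*c).choose j : ℤ) * (if j = 0 then (p:ℤ) else if j = 2*c then ((p:ℤ)-1) else 0) := by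
    have : ∀ j ∈ range (3*c+1), ((3*c).choose j : ℤ) * (if j = 0 then (p:ℤ) else if j = 2*c then ((p:ℤ)-1) else 0) =
        (if j = 0 then ((3*c).choose j : ℤ) * (p:ℤ) else 0) + (if j = 2*c then ((3*c).choose j : ℤ) * ((p:ℤ)-1) else 0) := by
      intro j _
      by_cases h0 : j = 0
      · rw [if_pos h0, if_pos h0, if_neg (by omega)]; ring
      · rw [if_neg h0, if_neg h0]
        split_ifs <;> ring
    rw [sum_congr rfl this, sum_add_distrib, sum_ite_eq', sum_ite_eq', if_pos (by rw [mem_range]; omega),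
      if_pos (by rw [mem_range]; omega)]
    simp
    ring
  rw [e1, e2, ← sum_sub_distrib]
  apply dvd_sum
  intro j hj
  rw [mem_range] at hj
  rw [← mul_sub]
  apply Dvd.dvd.mul_left
  by_cases h0 : j = 0
  · rw [if_pos h0, h0, mul_zero, Wp_zero]; simp
  · rw [if_neg h0]
    by_cases h1 : j = 2*c
    · rw [if_pos h1, h1]
      exact Wp_mul _ (by omega) ⟨1, by omega⟩
    · rw [if_neg h1, sub_zero]
      apply Wp_not
      rintro ⟨k, hk⟩
      have hk2 : 3*j = 6*c*k := by rw [hk]; congr 1; omega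
      have hk3 : j = 2*c*k := by nlinarith
      have : k < 2 := by
        by_contra hcon
        have : 2*c*2 ≤ 2*c*k := Nat.mul_le_mul_left _ (by omega)
        omega
      interval_cases k
      · omega
      · omega

omit hp hc in
lemma block (u a : ℕ) (hu : u < 2*c) {M : Type} [AddCommMonoid M] (f : ℕ → M) :
    ∑ s ∈ range (2*c), (if 2*c ∣ 2*c*a + s + 1 + u then f (2*c*a+s+1) else 0) = f (2*c*(a+1) - u) := by
  have : ∀ s ∈ range (2*c), (if 2*c ∣ 2*c*a + s + 1 + u then f (2*c*a+s+1) else 0) =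
      (if s = 2*c-1-u then f (2*c*a+s+1) else 0) := by
    intro s hs
    rw [mem_range] at hs
    have hiff : (2*c ∣ 2*c*a + s + 1 + u) ↔ s = 2*c-1-u := by
      constructor
      · intro h
        have h2 : 2*c ∣ s + 1 + u := by
          have : 2*c*a + s + 1 + u = 2*c*a + (s+1+u) := by ring
          rw [this] at h
          exact (Nat.dvd_add_right (dvd_mul_right _ _)).mp h
        obtain ⟨k, hk⟩ := h2
        have hk2 : k < 2 := by
          by_contra hcon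
          have : 2*c*2 ≤ 2*c*k := Nat.mul_le_mul_left _ (by omega)
          omega
        interval_cases k
        · omega
        · omega
      · intro h
        refine ⟨a+1, ?_⟩
        rw [h]
        have : 2*c*a + (2*c-1-u) + 1 + u = 2*c*a + 2*c := by omega
        rw [this]; ring
    simp only [hiff]
  rw [sum_congr rfl this, sum_ite_eq', if_pos (by rw [mem_range]; omega)]
  congr 1
  have : 2*c*(a+1) = 2*c*a + 2*c := by ring
  rw [this]; omega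

omit hp hc in
lemma filt (u : ℕ) (hu : u < 2*c) {M : Type} [AddCommMonoid M] (f : ℕ → M) (hf : f 0 = 0) :
    ∑ r ∈ range (6*c+1), (if 2*c ∣ r + u then f r else 0) = f (2*c-u) + f (4*c-u) + f (6*c-u) := by
  rw [sum_range_succ', hf]
  rw [show (if 2*c ∣ 0 + u then (0:M) else 0) = 0 by split_ifs <;> rfl, add_zero]
  rw [show 6*c = 2*c + 2*c + 2*c by ring, sum_range_add, sum_range_add]
  have b0 := block hc1 u 0 hu f
  have b1 := block hc1 u 1 hu f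
  have b2 := block hc1 u 2 hu f
  congr 1
  · congr 1
    · rw [show 2*c - u = 2*c*(0+1) - u by ring_nf, ← b0]
      apply sum_congr rfl; intro s _; rw [show 2*c*0 + s + 1 = s+1 by ring]
    · rw [show 4*c - u = 2*c*(1+1) - u by congr 1; ring, ← b1]
      apply sum_congr rfl; intro s _; rw [show 2*c*1 + s + 1 = 2*c+s+1 by ring]
  · rw [show 2*c+2*c+2*c - u = 2*c*(2+1) - u by congr 1; ring, ← b2]
    apply sum_congr rfl; intro s _; rw [show 2*c*2 + s + 1 = 2*c+2*c+s+1 by ring]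

/-- the integer which occurs in the second part -/
def Kint (p c : ℕ) : ℤ :=
  ∑ q ∈ range (2*c), ((3*c-1).choose q : ℤ) * ((ee p (2*c-q) : ℤ) + ee p (4*c-q) + ee p (6*c-q)) +
  ∑ j ∈ range c, ((3*c-1).choose (2*c+j) : ℤ) * ((ee p (2*c-j) : ℤ) + ee p (4*c-j) + ee p (6*c-j))

lemma second_part : (p:ℤ) ∣ ∑ x : ZMod p, (∑ r ∈ range p, (ee p r : ℤ) * ((((x.val:ℕ):ℤ))^3)^r) *
        (1 + (((x.val:ℕ):ℤ))^3)^(3*c-1) + Kint p c := by
  apply dvd_of_zmod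
  push_cast
  have h1 : ∀ x : ZMod p, (∑ r ∈ range p, (ee p r : ZMod p) * (((x.val:ℕ):ZMod p)^3)^r) *
      (1 + ((x.val:ℕ):ZMod p)^3)^(3*c-1) =
      ∑ r ∈ range p, ∑ q ∈ range (3*c), (ee p r : ZMod p) * ((3*c-1).choose q : ZMod p) * x^(3*(r+q)) := by
    intro x
    rw [ZMod.natCast_zmod_val, add_comm (1:ZMod p), add_pow, show 3*c-1+1 = 3*c by omega, sum_mul_sum]
    apply sum_congr rfl; intro r _
    apply sum_congr rfl; intro q _
    rw [one_pow, mul_one, ← pow_mul, ← pow_mul, mul_add, pow_add]; ring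
  rw [sum_congr rfl (fun x _ => h1 x), sum_comm]
  have h2 : ∀ r ∈ range p, ∑ x : ZMod p, ∑ q ∈ range (3*c), (ee p r : ZMod p) * ((3*c-1).choose q : ZMod p) * x^(3*(r+q)) =
      ∑ q ∈ range (3*c), -(((3*c-1).choose q : ZMod p) * (if 2*c ∣ r + q then (ee p r : ZMod p) else 0)) := by
    intro r hr
    rw [sum_comm]
    apply sum_congr rfl; intro q _
    rw [← mul_sum]
    rcases Nat.eq_zero_or_pos r with h0 | h0
    · rw [h0, ee_zero]; simp
    · rw [sum_pow_zmod _ (by omega)]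
      have hiff : (p - 1 ∣ 3*(r+q)) ↔ (2*c ∣ r+q) := by
        rw [show p - 1 = 3*(2*c) by omega]
        exact Nat.mul_dvd_mul_iff_left (by norm_num)
      simp only [hiff]
      split_ifs <;> ring
  rw [sum_congr rfl h2, sum_comm]
  have h3 : ∑ q ∈ range (3*c), ∑ r ∈ range p, -(((3*c-1).choose q : ZMod p) * (if 2*c ∣ r + q then (ee p r : ZMod p) else 0)) =
      - ∑ q ∈ range (3*c), (((3*c-1).choose q : ZMod p) * ∑ r ∈ range p, (if 2*c ∣ r + q then (ee p r : ZMod p) else 0)) := by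
    rw [← sum_neg_distrib]
    apply sum_congr rfl; intro q _
    rw [mul_sum, ← sum_neg_distrib]
  rw [h3]
  have h4 : ∑ q ∈ range (3*c), (((3*c-1).choose q : ZMod p) * ∑ r ∈ range p, (if 2*c ∣ r + q then (ee p r : ZMod p) else 0)) =
      ((Kint p c : ℤ) : ZMod p) := by
    unfold Kint
    push_cast
    rw [show 3*c = 2*c + c by ring, sum_range_add, show 2*c+c = 3*c by ring]
    have hf0 : (ee p 0 : ZMod p) = 0 := by rw [ee_zero]; simp
    congr 1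
    · apply sum_congr rfl; intro q hq
      rw [mem_range] at hq
      rw [show range p = range (6*c+1) by rw [hc], filt hc1 q hq (fun r => (ee p r : ZMod p)) hf0]
    · apply sum_congr rfl; intro j hj
      rw [mem_range] at hj
      have hiff : ∀ r, (2*c ∣ r + (2*c+j)) ↔ (2*c ∣ r + j) := by
        intro r
        rw [show r + (2*c+j) = 2*c + (r+j) by ring]
        exact Nat.dvd_add_right (dvd_refl _)
      simp only [hiff]
      rw [show range p = range (6*c+1) by rw [hc], filt hc1 j (by omega) (fun r => (ee p r : ZMod p)) hf0]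
  rw [h4]
  unfold Kint
  push_cast
  ring

theorem s1_exp : (p:ℤ)^2 ∣ s1 p - ((p:ℤ) + ((p:ℤ)-1) * ((3*c).choose (2*c) : ℤ) - 3*c*p*Kint p c) := by
  have h1 := main_part hc hc1
  obtain ⟨k, hk⟩ := second_part hc hc1
  have h2 : (p:ℤ)^2 ∣ s1 p - ∑ x : ZMod p, ((1 + ((((x.val:ℕ):ℤ))^3)^p)^(3*c) +
      ((3*c:ℕ):ℤ) * p * (∑ r ∈ range p, (ee p r : ℤ) * ((((x.val:ℕ):ℤ))^3)^r) * (1 + (((x.val:ℕ):ℤ))^3)^(3*c-1)) := by
    unfold s1
    rw [← sum_sub_distrib]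
    apply dvd_sum
    intro x _
    exact term_exp (m := 3*c) (by omega) (by omega) x
  rw [sum_add_distrib] at h2
  have e : ∑ x : ZMod p, ((3*c:ℕ):ℤ) * p * (∑ r ∈ range p, (ee p r : ℤ) * ((((x.val:ℕ):ℤ))^3)^r) * (1 + (((x.val:ℕ):ℤ))^3)^(3*c-1) =
      ((3*c:ℕ):ℤ) * p * ∑ x : ZMod p, (∑ r ∈ range p, (ee p r : ℤ) * ((((x.val:ℕ):ℤ))^3)^r) * (1 + (((x.val:ℕ):ℤ))^3)^(3*c-1) := by
    rw [mul_sum]; apply sum_congr rfl; intro x _; ring
  rw [e] at h2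
  have hk2 : ∑ x : ZMod p, (∑ r ∈ range p, (ee p r : ℤ) * ((((x.val:ℕ):ℤ))^3)^r) * (1 + (((x.val:ℕ):ℤ))^3)^(3*c-1) =
      p * k - Kint p c := by linarith
  rw [hk2] at h2
  have h4 : (p:ℤ)^2 ∣ 3*(c:ℤ)*p*(p*k) := ⟨3*c*k, by ring⟩
  have h5 := dvd_add (dvd_add h2 h1) h4
  set M0 := ∑ x : ZMod p, (1 + ((((x.val:ℕ):ℤ))^3)^p)^(3*c)
  have e6 : s1 p - ((p:ℤ) + ((p:ℤ)-1) * ((3*c).choose (2*c) : ℤ) - 3*c*p*Kint p c) =
      s1 p - (M0 + ((3*c:ℕ):ℤ) * p * (p * k - Kint p c)) + (M0 - ((p:ℤ) + ((p:ℤ)-1) * ((3*c).choose (2*c) : ℤ))) +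
      3*(c:ℤ)*p*(p*k) := by push_cast; ring
  rw [e6]
  exact h5

lemma ee_I' (r : ℕ) (h0 : 0 < r) (h1 : r < p) : I p 1 ((ee p r : ℚ) + (-1)^r / (r:ℚ)) := by
  obtain ⟨k, rfl⟩ : ∃ k, r = k + 1 := ⟨r-1, by omega⟩
  have := ee_I (p := p) k h1
  have e : (ee p (k+1) : ℚ) + (-1)^(k+1) / ((k+1:ℕ):ℚ) = (ee p (k+1) : ℚ) - (-1)^k / ((k:ℚ)+1) := by
    push_cast; rw [pow_succ]; ring
  rw [e]; exact this

lemma ee_q (a q : ℕ) (h0 : q < 2*a) (h1 : 2*a - q < p) : I p 1 ((ee p (2*a-q) : ℚ) - (-1)^(q+1) / (((2*a:ℕ):ℚ) - q)) := by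
  have := ee_I' hc hc1 (2*a-q) (by omega) h1
  have e : (-1:ℚ)^(2*a-q) = (-1)^q := by
    have h1 : (-1:ℚ)^(2*a-q) * (-1)^q = 1 := by
      rw [← pow_add, show 2*a-q+q = 2*a by omega, pow_mul]; norm_num
    have h2 : (-1:ℚ)^q * (-1)^q = 1 := by rw [← mul_pow]; norm_num
    calc (-1:ℚ)^(2*a-q) = (-1:ℚ)^(2*a-q) * ((-1)^q * (-1)^q) := by rw [h2, mul_one]
      _ = ((-1:ℚ)^(2*a-q) * (-1)^q) * (-1)^q := by ring
      _ = (-1)^q := by rw [h1, one_mul]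
  rw [e, Nat.cast_sub h0.le] at this
  have e2 : (ee p (2*a-q) : ℚ) - (-1)^(q+1) / (((2*a:ℕ):ℚ) - q) = (ee p (2*a-q) : ℚ) + (-1)^q / (((2*a:ℕ):ℚ) - q) := by
    rw [pow_succ]; ring
  rw [e2]; exact this

lemma Kint_I : I p 1 ((Kint p c : ℚ) - (K2 c + K4 c + K6 c + K8 c)) := by
  have hK4 : K4 c = ∑ q ∈ range (2*c), ((3*c-1).choose q : ℚ) * (-1)^(q+1) / (((4*c:ℕ):ℚ) - q) +
      ∑ j ∈ range c, ((3*c-1).choose (2*c+j) : ℚ) * (-1)^(j+1) / (((2*c:ℕ):ℚ) - j) := by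
    unfold K4
    have := sum_range_add (fun q => ((3*c-1).choose q : ℚ) * (-1)^(q+1) / (((4*c:ℕ):ℚ) - q)) (2*c) c
    rw [show 2*c+c = 3*c by ring] at this
    rw [this]
    congr 1
    apply sum_congr rfl; intro j _
    have e : (-1:ℚ)^(2*c+j+1) = (-1)^(j+1) := by
      rw [show 2*c+j+1 = 2*c+(j+1) by ring, pow_add, pow_mul]; norm_num
    rw [e]
    congr 1
    push_cast; ring
  have hK6 : K6 c = ∑ q ∈ range (2*c), ((3*c-1).choose q : ℚ) * (-1)^(q+1) / (((6*c:ℕ):ℚ) - q) +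
      ∑ j ∈ range c, ((3*c-1).choose (2*c+j) : ℚ) * (-1)^(j+1) / (((4*c:ℕ):ℚ) - j) := by
    unfold K6
    have := sum_range_add (fun q => ((3*c-1).choose q : ℚ) * (-1)^(q+1) / (((6*c:ℕ):ℚ) - q)) (2*c) c
    rw [show 2*c+c = 3*c by ring] at this
    rw [this]
    congr 1
    apply sum_congr rfl; intro j _
    have e : (-1:ℚ)^(2*c+j+1) = (-1)^(j+1) := by
      rw [show 2*c+j+1 = 2*c+(j+1) by ring, pow_add, pow_mul]; norm_num
    rw [e]
    congr 1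
    push_cast; ring
  have e : (Kint p c : ℚ) - (K2 c + K4 c + K6 c + K8 c) =
      ∑ q ∈ range (2*c), ((3*c-1).choose q : ℚ) * (((ee p (2*c-q) : ℚ) - (-1)^(q+1) / (((2*c:ℕ):ℚ) - q)) +
        ((ee p (4*c-q) : ℚ) - (-1)^(q+1) / (((4*c:ℕ):ℚ) - q)) + ((ee p (6*c-q) : ℚ) - (-1)^(q+1) / (((6*c:ℕ):ℚ) - q))) +
      ∑ j ∈ range c, ((3*c-1).choose (2*c+j) : ℚ) * (((ee p (2*c-j) : ℚ) - (-1)^(j+1) / (((2*c:ℕ):ℚ) - j)) +
        ((ee p (4*c-j) : ℚ) - (-1)^(j+1) / (((4*c:ℕ):ℚ) - j)) + ((ee p (6*c-j) : ℚ) - (-1)^(j+1) / (((6*c:ℕ):ℚ) - j))) := by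
    rw [hK4, hK6]
    unfold Kint K2 K8
    push_cast
    simp only [mul_add, mul_sub, sum_add_distrib, sum_sub_distrib, mul_div_assoc]
    ring
  rw [e]
  have f4 : ∀ q, 4*c - q = 2*(2*c) - q := fun q => by congr 1; ring
  have f6 : ∀ q, 6*c - q = 2*(3*c) - q := fun q => by congr 1; ring
  apply I.add
  · apply I.sum
    intro q hq
    rw [mem_range] at hq
    have a2 := ee_q hc hc1 c q (by omega) (by omega)
    have a4 := ee_q hc hc1 (2*c) q (by omega) (by omega)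
    have a6 := ee_q hc hc1 (3*c) q (by omega) (by omega)
    rw [← f4, show 2*(2*c) = 4*c by ring] at a4
    rw [← f6, show 2*(3*c) = 6*c by ring] at a6
    exact I.mem_mul (nat_mem _) ((a2.add a4).add a6)
  · apply I.sum
    intro q hq
    rw [mem_range] at hq
    have a2 := ee_q hc hc1 c q (by omega) (by omega)
    have a4 := ee_q hc hc1 (2*c) q (by omega) (by omega)
    have a6 := ee_q hc hc1 (3*c) q (by omega) (by omega)
    rw [← f4, show 2*(2*c) = 4*c by ring] at a4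
    rw [← f6, show 2*(3*c) = 6*c by ring] at a6
    exact I.mem_mul (nat_mem _) ((a2.add a4).add a6)

/-- the trace in terms of the binomial coefficient, modulo `p^2` -/
theorem trace_exp : I p 2 (-(s1 p : ℚ) - (((3*c).choose (2*c) : ℚ) + (p:ℚ) * (((3*c).choose (2*c) : ℚ)⁻¹ +
      (c:ℚ) * ((3*c).choose (2*c) : ℚ) * (hs (3*c) - hs c) +
      2 * (c:ℚ) * ((3*c).choose (2*c) : ℚ) * (hs (3*c) - hs (2*c))))) := by
  obtain ⟨k, hk⟩ := s1_exp hc hc1
  have hk2 : (s1 p : ℚ) = (p:ℚ) + ((p:ℚ)-1) * ((3*c).choose (2*c) : ℚ) - 3*c*p*(Kint p c : ℚ) + (p:ℚ)^2 * k := by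
    have : ((s1 p - ((p:ℤ) + ((p:ℤ)-1) * ((3*c).choose (2*c) : ℤ) - 3*c*p*Kint p c) : ℤ) : ℚ) = ((p:ℤ)^2 * k : ℤ) := by rw [hk]
    push_cast at this; linarith
  have h1 := Kint_I hc hc1
  have h2 := K_I hc hc1
  have h3 : I p 1 (((3*c:ℕ):ℚ) * (Kint p c : ℚ) -
    (1 + ((3*c).choose (2*c) : ℚ)⁻¹ + ((3*c).choose (2*c) : ℚ) +
      (c:ℚ) * ((3*c).choose (2*c) : ℚ) * (hs (3*c) - hs c) +
      2 * (c:ℚ) * ((3*c).choose (2*c) : ℚ) * (hs (3*c) - hs (2*c)))) := by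
    have e : (((3*c:ℕ):ℚ) * (Kint p c : ℚ) -
      (1 + ((3*c).choose (2*c) : ℚ)⁻¹ + ((3*c).choose (2*c) : ℚ) +
      (c:ℚ) * ((3*c).choose (2*c) : ℚ) * (hs (3*c) - hs c) +
      2 * (c:ℚ) * ((3*c).choose (2*c) : ℚ) * (hs (3*c) - hs (2*c)))) =
      ((3*c:ℕ):ℚ) * ((Kint p c : ℚ) - (K2 c + K4 c + K6 c + K8 c)) + (((3*c:ℕ):ℚ) * (K2 c + K4 c + K6 c + K8 c) -
    (1 + ((3*c).choose (2*c) : ℚ)⁻¹ + ((3*c).choose (2*c) : ℚ) +
      (c:ℚ) * ((3*c).choose (2*c) : ℚ) * (hs (3*c) - hs c) +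
      2 * (c:ℚ) * ((3*c).choose (2*c) : ℚ) * (hs (3*c) - hs (2*c)))) := by ring
    rw [e]
    exact (I.mem_mul (nat_mem _) h1).add h2
  have h4 := (I.p_pow (p := p) 1).mul h3
  have e : -(s1 p : ℚ) - (((3*c).choose (2*c) : ℚ) + (p:ℚ) * (((3*c).choose (2*c) : ℚ)⁻¹ +
      (c:ℚ) * ((3*c).choose (2*c) : ℚ) * (hs (3*c) - hs c) +
      2 * (c:ℚ) * ((3*c).choose (2*c) : ℚ) * (hs (3*c) - hs (2*c)))) =
      (p:ℚ)^1 * (((3*c:ℕ):ℚ) * (Kint p c : ℚ) -
    (1 + ((3*c).choose (2*c) : ℚ)⁻¹ + ((3*c).choose (2*c) : ℚ) +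
      (c:ℚ) * ((3*c).choose (2*c) : ℚ) * (hs (3*c) - hs c) +
      2 * (c:ℚ) * ((3*c).choose (2*c) : ℚ) * (hs (3*c) - hs (2*c)))) - (p:ℚ)^2 * k := by
    rw [hk2]; push_cast; ring
  rw [e]
  exact h4.sub ((I.p_pow 2).mul_mem (int_mem k))

end

end Pool.Agent.R856.CM
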