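import Pool.Agent.R856.CM6

set_option autoImplicit false

/-!
`S_0(p) ≡ t^2 - 2p (mod p^2)` with `t` the character sum.
-/

namespace Pool.Agent.R856.CM

open Finset Pool.Agent.Helper857.Pad Pool.Agent.R856.TK

section

variable {p : ℕ} [hp : Fact p.Prime] {c : ℕ} (hc : 6*c+1 = p) (hc1 : 1 ≤ c)
include hc hc1

theorem A_exp : I p 2 ((AA (3*c) : ℚ) - ((s1 p : ℚ)^2 - 2*p)) := by
  have hT := T_exp hc hc1
  have ht := trace_exp hc hc1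
  have hU := neg3_exp hc hc1
  have hw := ww_exp hc hc1
  have hTU := T_sq (3*c)
  have hTU' : (TT (3*c) : ℚ)^2 = (-3)^(3*c) * (AA (3*c) : ℚ) := by exact_mod_cast hTU
  have mP1 := hs_mem hc hc1 (3*c) (by omega)
  have mP2 := hs_mem hc hc1 (2*c) (by omega)
  have mP3 := hs_mem hc hc1 c (by omega)
  have mw := ww_mem hc hc1
  have mbi := inv_nat_mem (b_unit hc hc1)
  have n1 : ((3*c).choose (2*c) : ℚ) ≠ 0 := by
    have := b_unit hc hc1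
    intro h0; apply this
    have : (3*c).choose (2*c) = 0 := by exact_mod_cast h0
    rw [this]; exact dvd_zero p
  have mb : ((3*c).choose (2*c) : ℚ) ∈ Zp p := nat_mem _
  have mT : (TT (3*c) : ℚ) ∈ Zp p := int_mem _
  have mt : (-(s1 p : ℚ)) ∈ Zp p := (Zp p).neg_mem (int_mem _)
  have m3i : (1/3:ℚ) ∈ Zp p := by
    have := one_div_c hc hc1 (k := 3) (by omega) (by omega)
    exact_mod_cast this
  have mc : (c:ℚ) ∈ Zp p := nat_mem _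
  have mp' : (p:ℚ) ∈ Zp p := nat_mem _
  have m1 : (1:ℚ) ∈ Zp p := (Zp p).one_mem
  have mQ : hs (3*c) - hs (2*c) ∈ Zp p := (Zp p).sub_mem mP1 mP2
  have mP : hs (3*c) - hs c ∈ Zp p := (Zp p).sub_mem mP1 mP3
  have hpc : (p:ℚ) = 6*c+1 := by rw [← hc]; push_cast; ring
  have hUu : ((-3:ℚ)^(3*c))⁻¹ ∈ Zp p ∧ (-3:ℚ)^(3*c) ≠ 0 := by
    have h1 : I p 1 ((-3:ℚ)^(3*c) - 1) := by
      have e : (-3:ℚ)^(3*c) - 1 = ((-3:ℚ)^(3*c) - (1 + (p:ℚ) * ww c)) + (p:ℚ)^1 * ww c := by ring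
      rw [e]
      exact (hU.mono (by norm_num)).add ((I.p_pow 1).mul_mem mw)
    have := unit h1
    exact ⟨this.2.1, this.1⟩
  have mU : (-3:ℚ)^(3*c) ∈ Zp p := by
    apply (Zp p).pow_mem
    exact (Zp p).neg_mem m3
  generalize ((3*c).choose (2*c) : ℚ) = b at *
  generalize hs (3*c) - hs (2*c) = Q at *
  generalize hs (3*c) - hs c = P at *
  generalize ww c = w at *
  generalize (TT (3*c) : ℚ) = T at *
  generalize (AA (3*c) : ℚ) = A at *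
  have hs2 : (s1 p : ℚ)^2 = (-(s1 p : ℚ))^2 := by ring
  rw [hs2]
  generalize -(s1 p : ℚ) = t at *
  generalize (-3:ℚ)^(3*c) = U at *
  obtain ⟨R, hR⟩ : ∃ R, R = b⁻¹ + (c:ℚ) * b * P + 2 * (c:ℚ) * b * Q := ⟨_, rfl⟩
  rw [← hR] at ht
  have mR : R ∈ Zp p := by
    rw [hR]
    exact (Zp p).add_mem ((Zp p).add_mem mbi ((Zp p).mul_mem ((Zp p).mul_mem mc mb) mP))
      ((Zp p).mul_mem ((Zp p).mul_mem ((Zp p).mul_mem m2 mc) mb) mQ)
  have mB1 : b * (1 - (p:ℚ) * (1/3) * Q) ∈ Zp p :=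
    (Zp p).mul_mem mb ((Zp p).sub_mem m1 ((Zp p).mul_mem ((Zp p).mul_mem mp' m3i) mQ))
  have mB2 : b + (p:ℚ) * R ∈ Zp p := (Zp p).add_mem mb ((Zp p).mul_mem mp' mR)
  have mU1 : 1 + (p:ℚ) * w ∈ Zp p := (Zp p).add_mem m1 ((Zp p).mul_mem mp' mw)
  have g1 : I p 2 (T^2 - (b * (1 - (p:ℚ) * (1/3) * Q))^2) := by
    have e : T^2 - (b * (1 - (p:ℚ) * (1/3) * Q))^2 = (T - b * (1 - (p:ℚ) * (1/3) * Q)) * (T + b * (1 - (p:ℚ) * (1/3) * Q)) := by ring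
    rw [e]; exact hT.mul_mem ((Zp p).add_mem mT mB1)
  have g2 : I p 2 (t^2 - (b + (p:ℚ) * R)^2) := by
    have e : t^2 - (b + (p:ℚ) * R)^2 = (t - (b + (p:ℚ) * R)) * (t + (b + (p:ℚ) * R)) := by ring
    rw [e]; exact ht.mul_mem ((Zp p).add_mem mt mB2)
  have g3 : I p 2 ((b * (1 - (p:ℚ) * (1/3) * Q))^2 - (1 + (p:ℚ) * w) * ((b + (p:ℚ) * R)^2 - 2*p)) := by
    have hbR : b * R = 1 + (c:ℚ) * b^2 * P + 2 * (c:ℚ) * b^2 * Q := by
      rw [hR]; field_simp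
    have e : (b * (1 - (p:ℚ) * (1/3) * Q))^2 - (1 + (p:ℚ) * w) * ((b + (p:ℚ) * R)^2 - 2*p) =
        -((p:ℚ)^1 * (3 * w - P)) * (b^2 * (1/3)) +
        (p:ℚ)^2 * (-(b^2 * (2 * (1/3) * Q + P * (1/3))) + ((1/3)*(1/3)*Q^2*b^2 - R^2 - w * (2*(b*R) + p*R^2 - 2))) := by
      have e1 : (b * (1 - (p:ℚ) * (1/3) * Q))^2 - (1 + (p:ℚ) * w) * ((b + (p:ℚ) * R)^2 - 2*p) =
          b^2 * (1 - (p:ℚ) * (1/3) * Q)^2 - (1 + (p:ℚ) * w) * (b^2 + 2*(p:ℚ)*(b*R) + p^2*R^2 - 2*p) := by ring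
      rw [e1, hbR]
      have hc' : (c:ℚ) = ((p:ℚ) - 1)/6 := by rw [hpc]; ring
      rw [hc']
      ring
    rw [e]
    apply I.add
    · have h2 : I p 2 ((p:ℚ)^1 * (3 * w - P)) := (I.p_pow 1).mul hw
      exact h2.neg.mul_mem ((Zp p).mul_mem ((Zp p).pow_mem mb 2) m3i)
    · apply (I.p_pow 2).mul_mem
      apply (Zp p).add_mem
      · apply (Zp p).neg_mem
        exact (Zp p).mul_mem ((Zp p).pow_mem mb 2) ((Zp p).add_mem ((Zp p).mul_mem ((Zp p).mul_mem m2 m3i) mQ) ((Zp p).mul_mem mP m3i))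
      · apply (Zp p).sub_mem
        · apply (Zp p).sub_mem
          · exact (Zp p).mul_mem ((Zp p).mul_mem ((Zp p).mul_mem m3i m3i) ((Zp p).pow_mem mQ 2)) ((Zp p).pow_mem mb 2)
          · exact (Zp p).pow_mem mR 2
        · apply (Zp p).mul_mem mw
          apply (Zp p).sub_mem
          · exact (Zp p).add_mem ((Zp p).mul_mem m2 ((Zp p).mul_mem mb mR)) ((Zp p).mul_mem mp' ((Zp p).pow_mem mR 2))
          · exact m2
  have key : I p 2 (U * (A - (t^2 - 2*p))) := by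
    have e : U * (A - (t^2 - 2*p)) = (T^2 - (b * (1 - (p:ℚ) * (1/3) * Q))^2) - (t^2 - (b + (p:ℚ) * R)^2) * U -
        (U - (1 + (p:ℚ) * w)) * ((b + (p:ℚ) * R)^2 - 2*p) +
        ((b * (1 - (p:ℚ) * (1/3) * Q))^2 - (1 + (p:ℚ) * w) * ((b + (p:ℚ) * R)^2 - 2*p)) := by
      rw [hTU']; ring
    rw [e]
    exact ((g1.sub (g2.mul_mem mU)).sub (hU.mul_mem ((Zp p).sub_mem ((Zp p).pow_mem mB2 2) ((Zp p).mul_mem m2 mp')))).add g3
  have := I.mem_mul hUu.1 key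
  rwa [← mul_assoc, inv_mul_cancel₀ hUu.2, one_mul] at this

theorem S0_trace : I p 2 (∑ k ∈ range p, t k - ((s1 p : ℚ)^2 - 2*p)) := by
  have h1 := S0_I (p := p) (m := 3*c) (by omega) (by omega)
  have h2 := A_exp hc hc1
  have e : ∑ k ∈ range p, t k - ((s1 p : ℚ)^2 - 2*p) = (∑ k ∈ range p, t k - (AA (3*c) : ℚ)) +
    ((AA (3*c) : ℚ) - ((s1 p : ℚ)^2 - 2*p)) := by ring
  rw [e]
  exact h1.add h2

end

end Pool.Agent.R856.CM
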