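import Pool.Agent.R856.CM6

set_option autoImplicit false

/-!
The square of the character sum `∑ χ(x^3+1)` and the quadratic form `x^2+3y^2`.
-/

namespace Pool.Agent.R856.CM

open Finset

section

variable {p : ℕ} [hp : Fact p.Prime]

/-- the character sums of the sextic twists -/
noncomputable def sa (a : ZMod p) : ℤ := ∑ x : ZMod p, quadraticChar (ZMod p) (x^3+a)

lemma s1_eq : s1 p = sa (p := p) 1 := rfl

lemma char_sq (a : ZMod p) : quadraticChar (ZMod p) a * quadraticChar (ZMod p) a = if a = 0 then 0 else 1 := by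
  split_ifs with h
  · rw [h, MulChar.map_zero]; simp
  · rw [← sq]; exact quadraticChar_sq_one h

lemma count_ne : ∑ x : ZMod p, (if x = 0 then (0:ℤ) else 1) = (p:ℤ) - 1 := by
  have : ∑ x : ZMod p, (if x = 0 then (0:ℤ) else 1) = ∑ x : ZMod p, ((1:ℤ) - (if x = 0 then 1 else 0)) := by
    apply sum_congr rfl; intro x _; split_ifs <;> simp
  rw [this, sum_sub_distrib]
  simp

lemma J_sum (hp2 : p ≠ 2) (δ : ZMod p) : ∑ a : ZMod p, quadraticChar (ZMod p) a * quadraticChar (ZMod p) (a + δ) =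
    (if δ = 0 then (p:ℤ) else 0) - 1 := by
  have hF : ringChar (ZMod p) ≠ 2 := by rw [ZMod.ringChar_zmod_n]; exact hp2
  split_ifs with h
  · rw [h]
    simp only [add_zero, char_sq]
    exact count_ne
  · have hc : -δ ≠ 0 := neg_ne_zero.mpr h
    have h3 : ∑ y : ZMod p, quadraticChar (ZMod p) y * quadraticChar (ZMod p) (y - -δ) = -1 := by
      rw [← Equiv.sum_comp (Equiv.mulLeft₀ (-δ) hc)]
      have hneg : quadraticChar (ZMod p) (-1) * quadraticChar (ZMod p) (-1) = 1 := by
        rw [← map_mul]; simp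
      have h4 : ∀ z : ZMod p, quadraticChar (ZMod p) (Equiv.mulLeft₀ (-δ) hc z) * quadraticChar (ZMod p) (Equiv.mulLeft₀ (-δ) hc z - -δ)
          = quadraticChar (ZMod p) (-1) * (quadraticChar (ZMod p) z * quadraticChar (ZMod p) (1 - z)) := by
        intro z
        simp only [Equiv.mulLeft₀_apply]
        have h5 : quadraticChar (ZMod p) (-δ) * quadraticChar (ZMod p) (-δ) = 1 := by
          rw [← sq]; exact quadraticChar_sq_one hc
        have h6 : -δ * z - -δ = -δ * (-1 * (1 - z)) := by ring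
        rw [h6, map_mul, map_mul, map_mul]
        linear_combination (quadraticChar (ZMod p) z * quadraticChar (ZMod p) (-1) * quadraticChar (ZMod p) (1 - z)) * h5
      simp only [h4]
      rw [← Finset.mul_sum]
      have h7 := jacobiSum_nontrivial_inv (quadraticChar_ne_one hF)
      rw [(quadraticChar_isQuadratic (ZMod p)).inv] at h7
      unfold jacobiSum at h7
      rw [h7]
      linear_combination (-1) * hneg
    simp only [sub_neg_eq_add] at h3
    rw [h3]; norm_num

lemma sa_twist (a u : ZMod p) (hu : u ≠ 0) : sa (a * u^3) = quadraticChar (ZMod p) u * sa a := by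
  unfold sa
  rw [← Equiv.sum_comp (Equiv.mulLeft₀ u hu), mul_sum]
  apply sum_congr rfl
  intro x _
  simp only [Equiv.mulLeft₀_apply]
  have e : (u*x)^3 + a*u^3 = (u*u)*(u*(x^3+a)) := by ring
  rw [e, map_mul, map_mul, map_mul, char_sq, if_neg hu, one_mul]

lemma sa_zero (hp2 : p ≠ 2) : sa (p := p) 0 = 0 := by
  have hF : ringChar (ZMod p) ≠ 2 := by rw [ZMod.ringChar_zmod_n]; exact hp2
  unfold sa
  rw [← quadraticChar_sum_zero hF]
  apply sum_congr rfl
  intro x _
  rw [add_zero, pow_succ, map_mul, pow_two, map_mul, char_sq]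
  split_ifs with h
  · rw [h, MulChar.map_zero]; simp
  · rw [one_mul]

lemma sum_first (hp2 : p ≠ 2) : ∑ a : ZMod p, quadraticChar (ZMod p) a * sa a = 0 := by
  unfold sa
  have : ∀ a : ZMod p, quadraticChar (ZMod p) a * ∑ x : ZMod p, quadraticChar (ZMod p) (x^3+a) =
      ∑ x : ZMod p, quadraticChar (ZMod p) a * quadraticChar (ZMod p) (a + x^3) := by
    intro a; rw [mul_sum]; apply sum_congr rfl; intro x _; rw [add_comm a]
  rw [sum_congr rfl (fun a _ => this a), sum_comm]
  simp only [J_sum hp2]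
  rw [sum_sub_distrib]
  have h2 : ∀ x : ZMod p, (x^3 = 0) ↔ (x = 0) := fun x => pow_eq_zero_iff (by norm_num)
  simp only [h2]
  simp

end

section

variable {p : ℕ} [hp : Fact p.Prime] {c : ℕ} (hc : 6*c+1 = p) (hc1 : 1 ≤ c)

omit hp in
lemma period_sum (h : ℕ → ℤ) (hh : ∀ i, h (i+3) = h i) (n : ℕ) :
    ∑ i ∈ range (3*n), h i = n * (h 0 + h 1 + h 2) := by
  have hk : ∀ k i, h (3*k+i) = h i := by
    intro k
    induction k with
    | zero => intro i; simp
    | succ k ih => intro i; rw [show 3*(k+1)+i = (3*k+i)+3 by ring, hh, ih]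
  induction n with
  | zero => simp
  | succ n ih =>
    rw [show 3*(n+1) = 3*n+1+1+1 by ring, sum_range_succ, sum_range_succ, sum_range_succ, ih]
    have h0 := hk n 0
    have h1 := hk n 1
    have h2 := hk n 2
    rw [add_zero] at h0
    rw [show 3*n+1+1 = 3*n+2 by ring, h0, h1, h2]
    push_cast; ring

lemma sum_gen (g : (ZMod p)ˣ) (hg : ∀ x, x ∈ Subgroup.zpowers g) (ψ : (ZMod p)ˣ → ℤ) :
    ∑ u : (ZMod p)ˣ, ψ u = ∑ i ∈ range (p-1), ψ (g^i) := by
  have hcard : Nat.card (ZMod p)ˣ = p - 1 := by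
    rw [Nat.card_eq_fintype_card, ZMod.card_units_eq_totient, Nat.totient_prime hp.out]
  have h1 := IsCyclic.image_range_card hg
  rw [hcard] at h1
  have hinj : Set.InjOn (fun i => g^i) (range (p-1) : Finset ℕ) := by
    apply Finset.card_image_iff.mp
    rw [h1, card_univ, card_range, ← hcard, Nat.card_eq_fintype_card]
  rw [← h1, sum_image hinj]

lemma sum_units (f : ZMod p → ℤ) (hf : f 0 = 0) : ∑ x : ZMod p, f x = ∑ u : (ZMod p)ˣ, f u := by
  classical
  let φ : (ZMod p)ˣ ↪ ZMod p := ⟨fun x ↦ x, Units.val_injective⟩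
  have hu : univ.map φ = univ \ {0} := by
    ext x
    simpa only [mem_map, mem_univ, Function.Embedding.coeFn_mk, true_and, mem_sdiff,
      mem_singleton, φ] using! isUnit_iff_ne_zero
  calc
    ∑ x : ZMod p, f x = ∑ x ∈ univ \ {(0 : ZMod p)}, f x := by
      rw [← sum_sdiff ({0} : Finset (ZMod p)).subset_univ, sum_singleton, hf, add_zero]
    _ = ∑ x : (ZMod p)ˣ, f x := by simp [φ, ← hu, univ.sum_map φ]

include hc hc1

lemma exists_gen : ∃ g : (ZMod p)ˣ, (∀ x, x ∈ Subgroup.zpowers g) ∧ ∃ w : ZMod p, w^2 + w + 1 = 0 := by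
  obtain ⟨g, hg⟩ := IsCyclic.exists_generator (α := (ZMod p)ˣ)
  refine ⟨g, hg, ((g^(2*c) : (ZMod p)ˣ) : ZMod p), ?_⟩
  have h3 : ((g^(2*c) : (ZMod p)ˣ) : ZMod p)^3 = 1 := by
    rw [← Units.val_pow_eq_pow_val, ← pow_mul, show 2*c*3 = p-1 by omega, ZMod.units_pow_card_sub_one_eq_one]
    simp
  have hne : ((g^(2*c) : (ZMod p)ˣ) : ZMod p) ≠ 1 := by
    intro h1
    have h2 : g^(2*c) = 1 := Units.val_injective (by simpa using h1)
    have hcard : Nat.card (ZMod p)ˣ = p - 1 := by
      rw [Nat.card_eq_fintype_card, ZMod.card_units_eq_totient, Nat.totient_prime hp.out]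
    have h4 : orderOf g = p - 1 := by rw [orderOf_eq_card_of_forall_mem_zpowers hg, hcard]
    have h5 := orderOf_dvd_of_pow_eq_one h2
    rw [h4] at h5
    exact absurd (Nat.le_of_dvd (by omega) h5) (by omega)
  generalize ((g^(2*c) : (ZMod p)ˣ) : ZMod p) = w at *
  have : (w - 1) * (w^2 + w + 1) = 0 := by linear_combination h3
  exact (mul_eq_zero.mp this).resolve_left (sub_ne_zero.mpr hne)

lemma cube_card (y : ZMod p) (hy : y ≠ 0) : (univ.filter (fun x : ZMod p => x^3 = y^3)).card = 3 := by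
  obtain ⟨g, hg, w, hw⟩ := exists_gen hc hc1
  have h3 : (3 : ZMod p) ≠ 0 := by
    have : ((3:ℕ) : ZMod p) ≠ 0 := by
      rw [Ne, ZMod.natCast_eq_zero_iff]
      intro hd
      exact absurd (Nat.le_of_dvd (by norm_num) hd) (by omega)
    exact_mod_cast this
  have w1 : w ≠ 1 := by
    rintro rfl; apply h3; linear_combination hw
  have w0 : w ≠ 0 := by
    rintro rfl; simp at hw
  have ww : w^2 ≠ w := by
    intro h
    apply w1
    have : w * (w - 1) = 0 := by linear_combination h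
    exact sub_eq_zero.mp ((mul_eq_zero.mp this).resolve_left w0)
  have w21 : w^2 ≠ 1 := by
    intro h
    apply w1
    have h4 : w = -2 := by linear_combination hw - h
    rw [h4] at hw
    exfalso; apply h3; linear_combination hw
  have e : univ.filter (fun x : ZMod p => x^3 = y^3) = {y, w*y, w^2*y} := by
    ext x
    simp only [mem_filter, mem_univ, true_and, mem_insert, mem_singleton]
    constructor
    · intro h
      have : (x - y) * ((x - w*y) * (x - w^2*y)) = 0 := by
        linear_combination h + (x*y^2*w - x^2*y - y^3*(w-1)) * hw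
      rcases mul_eq_zero.mp this with h1 | h1
      · left; exact sub_eq_zero.mp h1
      · rcases mul_eq_zero.mp h1 with h2 | h2
        · right; left; exact sub_eq_zero.mp h2
        · right; right; exact sub_eq_zero.mp h2
    · rintro (h | h | h)
      · rw [h]
      · rw [h]; linear_combination (y^3*(w-1)) * hw
      · rw [h]; linear_combination (y^3*(w-1)*(w^3+1)) * hw
  rw [e]
  have n1 : y ≠ w*y := by
    intro h; apply w1
    have : (w - 1) * y = 0 := by linear_combination -h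
    exact sub_eq_zero.mp ((mul_eq_zero.mp this).resolve_right hy)
  have n2 : y ≠ w^2*y := by
    intro h; apply w21
    have : (w^2 - 1) * y = 0 := by linear_combination -h
    exact sub_eq_zero.mp ((mul_eq_zero.mp this).resolve_right hy)
  have n3 : w*y ≠ w^2*y := by
    intro h; apply ww
    have : (w^2 - w) * y = 0 := by linear_combination -h
    exact sub_eq_zero.mp ((mul_eq_zero.mp this).resolve_right hy)
  rw [card_insert_of_notMem, card_insert_of_notMem, card_singleton]
  · simpa using n3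
  · simp only [mem_insert, mem_singleton, not_or]; exact ⟨n1, n2⟩

lemma sum_second : ∑ a : ZMod p, sa a ^ 2 = 2 * (p:ℤ) * ((p:ℤ) - 1) := by
  have hp2 : p ≠ 2 := by omega
  have h1 : ∀ a : ZMod p, sa a ^ 2 = ∑ x : ZMod p, ∑ y : ZMod p, quadraticChar (ZMod p) (x^3+a) * quadraticChar (ZMod p) (y^3+a) := by
    intro a
    unfold sa
    rw [pow_two, sum_mul_sum]
  rw [sum_congr rfl (fun a _ => h1 a), sum_comm]
  have h2 : ∀ x : ZMod p, ∑ a : ZMod p, ∑ y : ZMod p, quadraticChar (ZMod p) (x^3+a) * quadraticChar (ZMod p) (y^3+a) =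
      ∑ y : ZMod p, ((if y^3 - x^3 = 0 then (p:ℤ) else 0) - 1) := by
    intro x
    rw [sum_comm]
    apply sum_congr rfl
    intro y _
    rw [← J_sum hp2 (y^3-x^3)]
    have hsh := Equiv.sum_comp (Equiv.addLeft (x^3)) (fun a => quadraticChar (ZMod p) a * quadraticChar (ZMod p) (a + (y^3-x^3)))
    rw [← hsh]
    apply sum_congr rfl
    intro a _
    simp only [Equiv.coe_addLeft]
    rw [show x^3 + a + (y^3 - x^3) = y^3 + a by ring]
  rw [sum_congr rfl (fun x _ => h2 x)]
  have h3 : ∀ x : ZMod p, ∑ y : ZMod p, ((if y^3 - x^3 = 0 then (p:ℤ) else 0) - 1) =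
      (p:ℤ) * (if x = 0 then 1 else 3) - p := by
    intro x
    rw [sum_sub_distrib]
    simp only [sum_const, card_univ, ZMod.card, nsmul_eq_mul, mul_one]
    congr 1
    rw [← sum_filter, sum_const, nsmul_eq_mul, mul_comm]
    congr 1
    split_ifs with hx
    · rw [hx]
      have : univ.filter (fun y : ZMod p => y^3 - 0^3 = 0) = {0} := by
        ext y
        simp
      rw [this]; simp
    · have : univ.filter (fun y : ZMod p => y^3 - x^3 = 0) = univ.filter (fun y : ZMod p => y^3 = x^3) := by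
        ext y; simp only [mem_filter, mem_univ, true_and]; exact sub_eq_zero
      rw [this, cube_card hc hc1 x hx]; norm_num
  rw [sum_congr rfl (fun x _ => h3 x), sum_sub_distrib, ← mul_sum]
  have h4 : ∑ x : ZMod p, (if x = 0 then (1:ℤ) else 3) = 3 * (p:ℤ) - 2 := by
    have : ∑ x : ZMod p, (if x = 0 then (1:ℤ) else 3) = ∑ x : ZMod p, ((3:ℤ) - (if x = 0 then 2 else 0)) := by
      apply sum_congr rfl; intro x _; split_ifs <;> norm_num
    rw [this, sum_sub_distrib]
    simp
    ring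
  rw [h4]
  simp only [sum_const, card_univ, ZMod.card, nsmul_eq_mul]
  ring

/-- parity of the character sum -/
lemma s1_even : Even (s1 p) := by
  have h1 : ∀ z : ZMod p, Even (quadraticChar (ZMod p) z - (if z = 0 then 0 else 1)) := by
    intro z
    split_ifs with h
    · rw [h, MulChar.map_zero]; simp
    · rcases quadraticChar_dichotomy h with h' | h' <;> rw [h'] <;> decide
  have h2 : Even (s1 p - ∑ x : ZMod p, (if x^3+1 = 0 then (0:ℤ) else 1)) := by
    unfold s1
    rw [← sum_sub_distrib]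
    exact Finset.even_sum _ (fun x _ => h1 (x^3+1))
  have h3 : ∑ x : ZMod p, (if x^3+1 = 0 then (0:ℤ) else 1) = (p:ℤ) - 3 := by
    have e : ∑ x : ZMod p, (if x^3+1 = 0 then (0:ℤ) else 1) = ∑ x : ZMod p, ((1:ℤ) - (if x^3 = (-1)^3 then 1 else 0)) := by
      apply sum_congr rfl; intro x _
      have : (x^3+1 = 0) ↔ (x^3 = (-1)^3) := by
        constructor
        · intro h; linear_combination h
        · intro h; linear_combination h
      simp only [this]
      split_ifs <;> norm_num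
    rw [e, sum_sub_distrib, ← sum_filter, sum_const, sum_const, cube_card hc hc1 (-1) (by simp)]
    simp
  rw [h3] at h2
  have h4 : Even ((p:ℤ) - 3) := by
    rw [← hc]; push_cast; exact ⟨3*c-1, by ring⟩
  have := h2.add h4
  simpa using this

/-- the relation with the quadratic form -/
theorem s1_form : ∃ u v : ℤ, s1 p = 2*u ∧ (p:ℤ) = u^2 + 3*v^2 := by
  have hp2 : p ≠ 2 := by omega
  obtain ⟨g, hg, -⟩ := exists_gen hc hc1
  set χ := quadraticChar (ZMod p) with hχ
  -- first relation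
  have f1 := sum_first (p := p) hp2
  rw [sum_units _ (by rw [MulChar.map_zero]; simp), sum_gen g hg] at f1
  have f2 := sum_second hc hc1
  rw [sum_units _ (by rw [sa_zero hp2]; simp), sum_gen g hg] at f2
  have hper1 : ∀ i, χ ((g^(i+3) : (ZMod p)ˣ) : ZMod p) * sa ((g^(i+3) : (ZMod p)ˣ) : ZMod p) =
      χ ((g^i : (ZMod p)ˣ) : ZMod p) * sa ((g^i : (ZMod p)ˣ) : ZMod p) := by
    intro i
    have e : ((g^(i+3) : (ZMod p)ˣ) : ZMod p) = ((g^i : (ZMod p)ˣ) : ZMod p) * (g : ZMod p)^3 := by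
      rw [pow_add]; push_cast; rfl
    rw [e, sa_twist _ _ g.ne_zero]
    have e2 : χ (((g^i : (ZMod p)ˣ) : ZMod p) * (g : ZMod p)^3) = χ ((g^i : (ZMod p)ˣ) : ZMod p) * χ (g : ZMod p) := by
      rw [map_mul]
      congr 1
      have := char_sq (g : ZMod p)
      rw [if_neg g.ne_zero] at this
      rw [pow_succ, pow_two, map_mul, map_mul, this, one_mul]
    rw [e2]
    have := char_sq (g : ZMod p)
    rw [if_neg g.ne_zero] at this
    rw [← hχ] at this ⊢
    linear_combination (χ ((g^i : (ZMod p)ˣ) : ZMod p) * sa ((g^i : (ZMod p)ˣ) : ZMod p)) * this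
  have hper2 : ∀ i, sa ((g^(i+3) : (ZMod p)ˣ) : ZMod p) ^ 2 = sa ((g^i : (ZMod p)ˣ) : ZMod p) ^ 2 := by
    intro i
    have e : ((g^(i+3) : (ZMod p)ˣ) : ZMod p) = ((g^i : (ZMod p)ˣ) : ZMod p) * (g : ZMod p)^3 := by
      rw [pow_add]; push_cast; rfl
    rw [e, sa_twist _ _ g.ne_zero]
    have := char_sq (g : ZMod p)
    rw [if_neg g.ne_zero] at this
    linear_combination (sa ((g^i : (ZMod p)ˣ) : ZMod p))^2 * this
  rw [show p - 1 = 3*(2*c) by omega] at f1 f2
  rw [period_sum _ hper1] at f1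
  rw [period_sum _ hper2] at f2
  simp only [pow_zero, Units.val_one, pow_one] at f1 f2
  have hχ1 : χ (1 : ZMod p) = 1 := map_one _
  rw [hχ1, one_mul] at f1
  have hcz : ((2*c:ℕ):ℤ) ≠ 0 := by
    have : 2*c ≠ 0 := by omega
    exact_mod_cast this
  have g1 := (mul_eq_zero.mp f1).resolve_left hcz
  have hb2 : (χ (g : ZMod p) * sa (g : ZMod p))^2 = sa (g : ZMod p)^2 := by
    have := char_sq (g : ZMod p)
    rw [if_neg g.ne_zero] at this
    linear_combination (sa (g : ZMod p))^2 * this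
  have hc2 : (χ ((g^2 : (ZMod p)ˣ) : ZMod p) * sa ((g^2 : (ZMod p)ˣ) : ZMod p))^2 = sa ((g^2 : (ZMod p)ˣ) : ZMod p)^2 := by
    have := char_sq ((g^2 : (ZMod p)ˣ) : ZMod p)
    rw [if_neg (g^2).ne_zero] at this
    linear_combination (sa ((g^2 : (ZMod p)ˣ) : ZMod p))^2 * this
  rw [← hb2, ← hc2] at f2
  have g2 : sa (p := p) 1 ^ 2 + (χ (g : ZMod p) * sa (g : ZMod p))^2 +
      (χ ((g^2 : (ZMod p)ˣ) : ZMod p) * sa ((g^2 : (ZMod p)ˣ) : ZMod p))^2 = 6 * p := by
    apply mul_left_cancel₀ hcz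
    rw [f2]
    have : (p:ℤ) - 1 = 3 * ((2*c:ℕ):ℤ) := by rw [← hc]; push_cast; ring
    rw [this]; ring
  rw [← s1_eq] at g1 g2
  obtain ⟨u, hu⟩ := s1_even hc hc1
  set B := χ (g : ZMod p) * sa (g : ZMod p)
  set C := χ ((g^2 : (ZMod p)ˣ) : ZMod p) * sa ((g^2 : (ZMod p)ˣ) : ZMod p)
  have hC : C = -(u+u) - B := by rw [hu] at g1; linarith
  rw [hu, hC] at g2
  have g3 : (B+u)^2 + 3*u^2 = 3*p := by linarith [g2, sq_nonneg B]
  have h3 : (3:ℤ) ∣ (B+u)^2 := ⟨p - u^2, by linarith⟩
  obtain ⟨v, hv⟩ := Int.Prime.dvd_pow' (p := 3) (by norm_num) (by exact_mod_cast h3)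
  refine ⟨u, v, by rw [hu]; ring, ?_⟩
  have hv' : B + u = 3 * v := by exact_mod_cast hv
  rw [hv'] at g3
  linarith

/-- uniqueness of the representation -/
theorem s1_sq (x y : ℤ) (hxy : (p:ℤ) = x^2 + 3*y^2) : (s1 p)^2 = 4*x^2 := by
  obtain ⟨u, v, hu, huv⟩ := s1_form hc hc1
  have hpz : Prime (p:ℤ) := Nat.prime_iff_prime_int.mp hp.out
  have hp0 : (0:ℤ) < p := by exact_mod_cast hp.out.pos
  have key : x^2 * v^2 = u^2 * y^2 := by
    have h1 : (p:ℤ) ∣ (x*v - u*y) * (x*v + u*y) := by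
      refine ⟨v^2 - y^2, ?_⟩
      have : (x*v - u*y) * (x*v + u*y) = (x^2 + 3*y^2) * v^2 - (u^2 + 3*v^2) * y^2 := by ring
      rw [this, ← hxy, ← huv]; ring
    rcases hpz.dvd_or_dvd h1 with h2 | h2
    · obtain ⟨k, hk⟩ := h2
      have h3 : (p:ℤ)^2 = (x*u + 3*y*v)^2 + 3*(x*v-u*y)^2 := by
        have : (p:ℤ)^2 = (x^2 + 3*y^2) * (u^2 + 3*v^2) := by rw [← hxy, ← huv]; ring
        rw [this]; ring
      rw [hk] at h3
      have hk0 : k = 0 := by
        by_contra hne
        have : 1 ≤ k^2 := by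
          have := sq_nonneg k
          have h5 : k^2 ≠ 0 := pow_ne_zero 2 hne
          omega
        nlinarith [sq_nonneg (x*u + 3*y*v), mul_pos hp0 hp0]
      rw [hk0, mul_zero] at hk
      have : x*v = u*y := by linarith
      calc x^2*v^2 = (x*v)^2 := by ring
        _ = u^2*y^2 := by rw [this]; ring
    · obtain ⟨k, hk⟩ := h2
      have h3 : (p:ℤ)^2 = (x*u - 3*y*v)^2 + 3*(x*v+u*y)^2 := by
        have : (p:ℤ)^2 = (x^2 + 3*y^2) * (u^2 + 3*v^2) := by rw [← hxy, ← huv]; ring
        rw [this]; ring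
      rw [hk] at h3
      have hk0 : k = 0 := by
        by_contra hne
        have : 1 ≤ k^2 := by
          have := sq_nonneg k
          have h5 : k^2 ≠ 0 := pow_ne_zero 2 hne
          omega
        nlinarith [sq_nonneg (x*u - 3*y*v), mul_pos hp0 hp0]
      rw [hk0, mul_zero] at hk
      have : x*v = -(u*y) := by linarith
      calc x^2*v^2 = (x*v)^2 := by ring
        _ = u^2*y^2 := by rw [this]; ring
  have h5 : (p:ℤ) * x^2 = p * u^2 := by
    have e1 : (p:ℤ) * x^2 = (u^2 + 3*v^2) * x^2 := by rw [← huv]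
    have e2 : (p:ℤ) * u^2 = (x^2 + 3*y^2) * u^2 := by rw [← hxy]
    rw [e1, e2]; linarith
  have h6 : x^2 = u^2 := mul_left_cancel₀ hp0.ne' h5
  rw [hu, h6]; ring

end

end Pool.Agent.R856.CM
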