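import Pool.Agent.R856.CM7
import Pool.Agent.R856.CM8

set_option autoImplicit false

/-!
Sums weighted by the cubic Legendre symbol: exact identities.
-/

namespace Pool.Agent.R856.CM

open Finset Polynomial

/-- the Legendre symbol modulo 3 -/
def chi3 (k : ℕ) : ℤ := if k % 3 = 1 then 1 else if k % 3 = 2 then -1 else 0

section generic

variable {K : Type*} [CommRing K]

/-- value of the Legendre-type polynomial -/
def fv (n : ℕ) (w : K) : K := ∑ k ∈ range (n+1), ((n.choose k : K) * ((n+k).choose k : K)) * w^k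

lemma gway1 (n : ℕ) (s w : K) : ((((X + C (s*w)) * (X + C (s*w) + C s))^n : K[X])).coeff n =
    s^n * fv n w := by
  unfold fv
  rw [mul_pow, add_pow (X + C (s*w)) (C s) n, mul_sum, finsetSum_coeff, mul_sum]
  apply sum_congr rfl
  intro k hk
  rw [mem_range] at hk
  have e : (X + C (s*w) : K[X])^n * ((X + C (s*w))^k * (C s)^(n-k) * (n.choose k : K[X])) =
      C (s^(n-k) * (n.choose k : K)) * (X + C (s*w))^(n+k) := by
    have e0 : (C (s^(n-k) * (n.choose k : K)) : K[X]) = (C s)^(n-k) * (n.choose k : K[X]) := by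
      rw [C_mul, C_pow, C_eq_natCast]
    rw [e0, pow_add]; ring
  rw [e, coeff_C_mul, coeff_X_add_C_pow, show n + k - n = k by omega, Nat.choose_symm_add]
  rw [mul_pow]
  have : s^n = s^(n-k) * s^k := by rw [← pow_add]; congr 1; omega
  rw [this]; ring

lemma gway2 (n : ℕ) : ((((X + C (-1))^3 + 1)^n : K[X])).coeff (2*n) = (TT n : K) := by
  rw [add_pow, finsetSum_coeff]
  unfold TT
  push_cast
  apply sum_congr rfl
  intro i _
  have e : (((X + C (-1) : K[X])^3)^i * 1^(n-i) * (n.choose i : K[X])) = C (n.choose i : K) * (X + C (-1))^(3*i) := by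
    rw [← pow_mul, one_pow, mul_one, C_eq_natCast, mul_comm]
  rw [e, coeff_C_mul, coeff_X_add_C_pow]
  rcases Nat.lt_or_ge (3*i) (2*n) with h | h
  · rw [Nat.choose_eq_zero_of_lt h]; simp
  · obtain ⟨j, hj⟩ : ∃ j, 3*i = 2*n + j := ⟨3*i-2*n, by omega⟩
    have h3 : (-1:K)^(3*i) = (-1)^i := by rw [pow_mul]; norm_num
    have h2 : (-1:K)^(2*n) = 1 := by rw [pow_mul]; norm_num
    have : (-1:K)^(3*i-2*n) = (-1)^i := by
      rw [← h3, show 3*i - 2*n = j by omega, hj, pow_add, h2, one_mul]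
    rw [this]; ring

theorem T_fv (n : ℕ) (w : K) (hw : w^2 + w + 1 = 0) : (TT n : K) = (2*w+1)^n * fv n w := by
  obtain ⟨s, hs⟩ : ∃ s : K, s = 2*w+1 := ⟨_, rfl⟩
  have hs2 : s^2 = -3 := by rw [hs]; linear_combination 4 * hw
  rw [← hs, ← gway1 n s w, ← gway2 n]
  have e : ((X + C (-1))^3 + 1 : K[X]) = X * ((X + C (s*w)) * (X + C (s*w) + C s)) := by
    have e1 : (C (-1) : K[X]) = -1 := by rw [C_neg, C_1]
    have e2 : (X + C (s*w)) * (X + C (s*w) + C s) = X^2 + C (s + 2*(s*w)) * X + C (s*w*(s*w) + s*w*s) := by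
      simp only [C_add, C_mul, map_ofNat]
      ring
    have e3 : s + 2*(s*w) = -3 := by
      linear_combination hs2 - s * hs
    have e4 : s*w*(s*w) + s*w*s = 3 := by
      have : s*w*(s*w) + s*w*s = s^2 * (w + w^2) := by ring
      rw [this, hs2]; linear_combination -3 * hw
    rw [e2, e3, e4, e1, C_neg]
    have e5 : (C 3 : K[X]) = 3 := map_ofNat (C : K →+* K[X]) 3
    rw [e5]; ring
  rw [e, mul_pow, show 2*n = n + n by ring, coeff_X_pow_mul]

lemma w3 {w : K} (hw : w^2 + w + 1 = 0) : w^3 = 1 := by linear_combination (w-1) * hw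

lemma w_sq {w : K} (hw : w^2 + w + 1 = 0) : (w^2)^2 + w^2 + 1 = 0 := by
  linear_combination (w^2 - w + 1) * hw

lemma chi_w {w : K} (hw : w^2 + w + 1 = 0) (k : ℕ) : w^k - (w^2)^k = (2*w+1) * (chi3 k : K) := by
  have h3 := w3 hw
  have hk : k = 3*(k/3) + k%3 := by omega
  have e1 : w^k = w^(k%3) := by
    conv_lhs => rw [hk]
    rw [pow_add, pow_mul, h3, one_pow, one_mul]
  have e2 : (w^2)^k = (w^2)^(k%3) := by
    conv_lhs => rw [hk]
    rw [pow_add, pow_mul, show (w^2)^3 = (w^3)^2 by ring, h3, one_pow, one_pow, one_mul]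
  rw [e1, e2]
  unfold chi3
  have h : k % 3 = 0 ∨ k % 3 = 1 ∨ k % 3 = 2 := by omega
  rcases h with h | h | h <;> rw [h]
  · simp
  · simp
    linear_combination -hw
  · simp
    linear_combination (1 - w + w - w^2 + w) * hw - 0 * h3

/-- weighted difference of values -/
lemma fv_diff (n : ℕ) {w : K} (hw : w^2 + w + 1 = 0) :
    fv n w - fv n (w^2) = (2*w+1) * ∑ k ∈ range (n+1), (chi3 k : K) * ((n.choose k : K) * ((n+k).choose k : K)) := by
  unfold fv
  rw [← sum_sub_distrib, mul_sum]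
  apply sum_congr rfl
  intro k _
  have := chi_w hw k
  linear_combination ((n.choose k : K) * ((n+k).choose k : K)) * this

lemma T_fv2 (n : ℕ) {w : K} (hw : w^2 + w + 1 = 0) : (TT n : K) = (-(2*w+1))^n * fv n (w^2) := by
  rw [T_fv n (w^2) (w_sq hw)]
  congr 2
  linear_combination 2 * hw

end generic

end Pool.Agent.R856.CM
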