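import Mathlib

set_option autoImplicit false

/-!
A differential of the quartic `Y^4 = X^4 + X` in characteristic `p = 4j+1`, pulled back from a
lemniscatic curve, and the resulting relation between two binomial coefficients.
-/

namespace Pool.Agent.R856.DC

open Finset Polynomial

noncomputable section

variable {F : Type*} [Field F]

def uu (F : Type*) [Field F] : F[X] := 1 + X^12
def LL (r : F) : F[X] := 1 + C (1+r) * X^4
def QQ (r : F) : F[X] := 1 - C (4+2*r) * X^4 - C (2+2*r) * X^8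
def vv (r : F) (j : ℕ) : F[X] := (uu F)^(3*j+1) * (LL r)^(4*j)
def zz (r : F) (j : ℕ) : F[X] := X * vv r j
def kap (r : F) : F := -4 * (3 + 2*r)

lemma Cr {r : F} (hr : r^2 = 3) : (C r : F[X])^2 = 3 := by
  rw [← C_pow, hr]; exact map_ofNat C 3

lemma quad {r : F} (hr : r^2 = 3) : (LL r)^4 + C (kap r) * X^4 * uu F = (QQ r)^2 := by
  unfold LL QQ uu kap
  have h := Cr hr
  simp only [map_add, map_mul, map_neg, map_one, map_ofNat]
  generalize (C r : F[X]) = s at *
  linear_combination (12 * X^4 * 0 + 6*X^8 + 12*X^12 + 4*s*X^12 + 6*X^16 + 4*s*X^16 + s^2*X^16 + 3*X^16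
    - 4*X^8 - 8*X^12 - 4*X^16) * h

variable {p : ℕ} [hp : Fact p.Prime] [CharP F p] {j : ℕ}

omit hp in
lemma four_j (hj : 4*j+1 = p) : (4:F) * (j:F) = -1 := by
  have : ((4*j+1 : ℕ) : F) = 0 := by rw [hj]; exact CharP.cast_eq_zero F p
  push_cast at this
  linear_combination this

omit hp in
lemma zz_der (hj : 4*j+1 = p) (hj1 : 1 ≤ j) {r : F} (hr : r^2 = 3) :
    derivative (zz r j) = (uu F)^(3*j) * (LL r)^(4*j-1) * (QQ r * (1 + C (1-r) * X^4)) := by
  obtain ⟨i, rfl⟩ : ∃ i, j = i + 1 := ⟨j-1, by omega⟩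
  have h4 := four_j (F := F) hj
  have hC4 : (4 : F[X]) * C ((i+1:ℕ):F) = -1 := by
    have : (4 : F[X]) = C 4 := (map_ofNat C 4).symm
    rw [this, ← C_mul, h4]; simp
  unfold zz vv
  rw [show 4*(i+1)-1 = 4*i+3 by omega]
  rw [derivative_mul, derivative_mul, derivative_pow, derivative_pow, derivative_X]
  have e1 : derivative (uu F) = 12 * X^11 := by
    unfold uu
    simp only [derivative_add, derivative_one, derivative_X_pow, zero_add]
    have : (C ((12:ℕ):F) : F[X]) = 12 := by rw [Nat.cast_ofNat]; exact map_ofNat C 12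
    rw [this]
  have e2 : derivative (LL r) = 4 * (C (1+r) * X^3) := by
    unfold LL
    simp only [derivative_add, derivative_one, derivative_C_mul, derivative_X_pow, zero_add]
    have : (C ((4:ℕ):F) : F[X]) = 4 := by rw [Nat.cast_ofNat]; exact map_ofNat C 4
    rw [this]
    ring
  have c1 : (C ((3*(i+1)+1 : ℕ):F) : F[X]) * 12 = 3 := by
    have : (C ((3*(i+1)+1 : ℕ):F) : F[X]) = 3 * C ((i+1:ℕ):F) + 1 := by
      have h3 : (C (3:F) : F[X]) = 3 := map_ofNat C 3
      push_cast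
      rw [C_add, C_mul, h3, C_1]
    rw [this]; linear_combination 9 * hC4
  have c2 : (C ((4*(i+1) : ℕ):F) : F[X]) = -1 := by
    have : (C ((4*(i+1) : ℕ):F) : F[X]) = 4 * C ((i+1:ℕ):F) := by
      have h3 : (C (4:F) : F[X]) = 4 := map_ofNat C 4
      push_cast
      rw [C_mul, h3]
    rw [this]; exact hC4
  rw [e1, e2, c2, show 3*(i+1)+1-1 = 3*(i+1) by omega, show 4*(i+1)-1 = 4*i+3 by omega,
    show 3*(i+1)+1 = 3*(i+1) + 1 from rfl, pow_succ (uu F) (3*(i+1)), show 4*(i+1) = (4*i+3)+1 by ring, pow_succ (LL r) (4*i+3)]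
  generalize (C ((3*(i+1)+1 : ℕ):F) : F[X]) = c at *
  generalize (uu F)^(3*(i+1)) = a at *
  generalize (LL r)^(4*i+3) = b at *
  have key : uu F * LL r + 3 * X^12 * LL r - X * (uu F * (4 * (C (1+r) * X^3))) = QQ r * (1 + C (1-r) * X^4) := by
    unfold LL QQ uu
    have h := Cr hr
    simp only [map_add, map_mul, map_sub, map_one, map_ofNat]
    generalize (C r : F[X]) = s at *
    linear_combination (-2 * X^8 - 2 * X^12) * h
  linear_combination (X^12 * a * b * LL r) * c1 + a * b * key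

lemma pow_p_one (g : F[X]) : (X:F[X])^p ∣ (1 + X * g)^p - 1 := by
  rw [add_pow_char, one_pow, add_sub_cancel_left, mul_pow]
  exact Dvd.intro _ rfl

omit hp in
lemma abs_step {S : Type*} [CommRing S] {p j : ℕ} (hj : 4*j+1 = p) {l q E : S} (h : l^4 * E = q^2) (hl : l^p = 1) (hq : q^p = 1) :
    q * E^(2*j) = l^2 := by
  subst hj
  calc q * E^(2*j) = (l^(4*j+1))^2 * (q * E^(2*j)) := by rw [hl]; ring
    _ = l^2 * q * (l^4 * E)^(2*j) := by rw [mul_pow]; ring
    _ = l^2 * q^(4*j+1) := by rw [h]; ring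
    _ = l^2 := by rw [hq, mul_one]

lemma red (hj : 4*j+1 = p) (hj1 : 1 ≤ j) {r : F} (hr : r^2 = 3) :
    (X:F[X])^p ∣ (1 + C (kap r) * (zz r j)^4)^(2*j) * derivative (zz r j) -
      (uu F)^(3*j) * (1 + C (1-r) * X^4) := by
  have key : ∀ f g : F[X], Ideal.Quotient.mk (Ideal.span {(X:F[X])^p}) f = Ideal.Quotient.mk (Ideal.span {(X:F[X])^p}) g ↔
      (X:F[X])^p ∣ f - g := by
    intro f g; rw [Ideal.Quotient.eq, Ideal.mem_span_singleton]
  generalize Ideal.Quotient.mk (Ideal.span {(X:F[X])^p}) = π at key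
  rw [← key, zz_der hj hj1 hr]
  have hone : ∀ f g : F[X], f = 1 + X * g → (π f)^p = 1 := by
    intro f g h
    rw [h, ← map_pow, ← map_one π, key]
    exact pow_p_one g
  have hu : (π (uu F))^p = 1 := hone _ (X^11) (by unfold uu; ring)
  have hL : (π (LL r))^p = 1 := hone _ (C (1+r) * X^3) (by unfold LL; ring)
  have hQ : (π (QQ r))^p = 1 := hone _ (-(C (4+2*r) * X^3) - C (2+2*r) * X^7) (by unfold QQ; ring)
  have h1 : (π (LL r))^4 * π (1 + C (kap r) * (zz r j)^4) = (π (QQ r))^2 := by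
    have e : (LL r)^4 * (1 + C (kap r) * (zz r j)^4) =
        (LL r)^4 + C (kap r) * X^4 * uu F * (((uu F)^p)^3 * ((LL r)^p)^4) := by
      unfold zz vv
      rw [← hj]; ring
    rw [← map_pow, ← map_mul, e, map_add, map_mul, map_mul (f := π) (x := ((uu F)^p)^3)]
    simp only [map_pow π]
    rw [hu, hL, one_pow, one_pow, mul_one, mul_one, ← map_pow, ← map_add, quad hr, map_pow]
  have h2 := abs_step hj h1 hL hQ
  simp only [map_mul π, map_pow π]
  calc (π (1 + C (kap r) * (zz r j)^4))^(2*j) * ((π (uu F))^(3*j) * (π (LL r))^(4*j-1) * (π (QQ r) * π (1 + C (1-r) * X^4)))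
      = (π (uu F))^(3*j) * (π (LL r))^(4*j-1) * (π (QQ r) * (π (1 + C (kap r) * (zz r j)^4))^(2*j)) * π (1 + C (1-r) * X^4) := by ring
    _ = (π (uu F))^(3*j) * ((π (LL r))^(4*j-1) * (π (LL r))^2) * π (1 + C (1-r) * X^4) := by rw [h2]; ring
    _ = _ := by
      rw [← pow_add, show 4*j-1+2 = p by omega, hL, mul_one]

lemma coeff_der (f : F[X]) : (derivative f).coeff (p-1) = 0 := by
  have h1 := hp.out.one_lt
  rw [coeff_derivative]
  have : (((p-1:ℕ):F) + 1) = ((p:ℕ):F) := by
    rw [← Nat.cast_succ]; congr 1; omega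
  rw [this, CharP.cast_eq_zero, mul_zero]

lemma coeff_main (hj : 4*j+1 = p) (hj1 : 1 ≤ j) (r κ : F) :
    ((1 + C κ * (zz r j)^4)^(2*j) * derivative (zz r j)).coeff (p-1) = ((2*j).choose j : F) * κ^j := by
  rw [add_comm (1:F[X]), add_pow, sum_mul, finsetSum_coeff]
  have hterm : ∀ k, ((C κ * (zz r j)^4)^k * 1^(2*j-k) * (((2*j).choose k : ℕ) : F[X]) * derivative (zz r j)).coeff (p-1) =
      (((2*j).choose k : F) * κ^k) * ((zz r j)^(4*k) * derivative (zz r j)).coeff (p-1) := by
    intro k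
    rw [← coeff_C_mul]
    congr 1
    rw [C_mul, C_pow, one_pow, mul_one, mul_pow, ← pow_mul, ← C_eq_natCast]
    ring
  rw [sum_congr rfl (fun k _ => hterm k), sum_eq_single j]
  · have e : (zz r j)^(4*j) * derivative (zz r j) = X^(4*j) * ((vv r j)^(4*j) * (vv r j + X * derivative (vv r j))) := by
      unfold zz
      rw [derivative_mul, derivative_X, mul_pow]; ring
    have h0 : (vv r j).coeff 0 = 1 := by
      rw [coeff_zero_eq_eval_zero]
      unfold vv uu LL
      simp
    have e2 : ((zz r j)^(4*j) * derivative (zz r j)).coeff (p-1) = 1 := by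
      rw [e, show p - 1 = 0 + 4*j by omega, coeff_X_pow_mul, mul_coeff_zero, coeff_add, mul_coeff_zero, coeff_X_zero,
        coeff_zero_eq_eval_zero ((vv r j)^(4*j)), eval_pow, ← coeff_zero_eq_eval_zero, h0]
      ring
    rw [e2, mul_one]
  · intro k hk hkj
    rw [mem_range] at hk
    have hne : ((4*k+1 : ℕ) : F) ≠ 0 := by
      intro h
      rw [CharP.cast_eq_zero_iff F p] at h
      obtain ⟨c, hc⟩ := h
      have hc1 : c < 2 := by
        by_contra hlt
        have : p * 2 ≤ p * c := Nat.mul_le_mul_left _ (by omega)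
        omega
      interval_cases c
      · omega
      · omega
    have hd := coeff_der (p := p) ((zz r j)^(4*k+1))
    rw [derivative_pow, Nat.add_sub_cancel, mul_assoc, coeff_C_mul] at hd
    rcases mul_eq_zero.mp hd with h | h
    · exact absurd h hne
    · rw [h, mul_zero]
  · intro h
    exact absurd (mem_range.mpr (by omega)) h

lemma uu_coeff (n m : ℕ) : ((uu F)^n).coeff m = if 12 ∣ m then ((n.choose (m/12) : ℕ) : F) else 0 := by
  have e : (uu F)^n = expand F 12 ((1+X)^n) := by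
    unfold uu
    rw [map_pow, map_add, map_one, expand_X]
  rw [e, coeff_expand (by norm_num)]
  split_ifs with h
  · rw [coeff_one_add_X_pow]
  · rfl

lemma coeff_right (n m : ℕ) (r : F) (hm : 4 ≤ m) : ((uu F)^n * (1 + C (1-r) * X^4)).coeff m =
    (if 12 ∣ m then ((n.choose (m/12) : ℕ) : F) else 0) + (1-r) * (if 12 ∣ (m-4) then ((n.choose ((m-4)/12) : ℕ) : F) else 0) := by
  rw [mul_add, mul_one, coeff_add, uu_coeff, ← uu_coeff n (m-4)]
  congr 1
  rw [show (uu F)^n * (C (1-r) * X^4) = C (1-r) * ((uu F)^n * X^4) by ring, coeff_C_mul]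
  congr 1
  rw [show m = (m-4) + 4 by omega, coeff_mul_X_pow, Nat.add_sub_cancel]

lemma coeff_eq (hj : 4*j+1 = p) (hj1 : 1 ≤ j) {r : F} (hr : r^2 = 3) :
    ((uu F)^(3*j) * (1 + C (1-r) * X^4)).coeff (4*j) = ((2*j).choose j : F) * (kap r)^j := by
  have h1 := red hj hj1 hr
  have h2 := coeff_main hj hj1 r (kap r)
  rw [X_pow_dvd_iff] at h1
  have h3 := h1 (p-1) (by have := hp.out.pos; omega)
  rw [coeff_sub, h2, sub_eq_zero] at h3
  rw [show 4*j = p - 1 by omega]
  exact h3.symm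

theorem case1 {k : ℕ} (hk : 12*k+1 = p) (hk1 : 1 ≤ k) {r : F} (hr : r^2 = 3) :
    ((9*k).choose k : F) = ((6*k).choose (3*k) : F) * (kap r)^(3*k) := by
  have h := coeff_eq (j := 3*k) (by omega) (by omega) hr
  rw [coeff_right _ _ _ (by omega), if_pos (by omega), if_neg (by omega), mul_zero, add_zero,
    show 4*(3*k)/12 = k by omega, show 3*(3*k) = 9*k by ring, show 2*(3*k) = 6*k by ring] at h
  exact h

theorem case5 {k : ℕ} (hk : 12*k+5 = p) {r : F} (hr : r^2 = 3) :
    (1-r) * ((9*k+3).choose k : F) = ((6*k+2).choose (3*k+1) : F) * (kap r)^(3*k+1) := by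
  have h := coeff_eq (j := 3*k+1) (by omega) (by omega) hr
  rw [coeff_right _ _ _ (by omega), if_neg (by omega), if_pos (by omega), zero_add,
    show (4*(3*k+1)-4)/12 = k by omega, show 3*(3*k+1) = 9*k+3 by ring, show 2*(3*k+1) = 6*k+2 by ring] at h
  exact h

/-- `C(3j,k) = (-1)^k C(j+k,k)` in characteristic `4j+1` -/
theorem flip (hj : 4*j+1 = p) {k : ℕ} (hk : k ≤ 3*j) : ((3*j).choose k : F) = (-1)^k * ((j+k).choose k : F) := by
  have h1 := Nat.ascFactorial_eq_factorial_mul_choose j k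
  have h2 := Nat.descFactorial_eq_factorial_mul_choose (3*j) k
  have hf : ((k.factorial : ℕ) : F) ≠ 0 := by
    rw [Ne, CharP.cast_eq_zero_iff F p, hp.out.dvd_factorial]
    omega
  have h4 := four_j (F := F) hj
  have e : ∀ n ≤ 3*j, ((Nat.descFactorial (3*j) n : ℕ) : F) = (-1)^n * ((Nat.ascFactorial (j+1) n : ℕ) : F) := by
    intro n
    induction n with
    | zero => intro _; simp
    | succ n ih =>
      intro hn
      rw [Nat.descFactorial_succ, Nat.ascFactorial_succ]
      rw [Nat.cast_mul, Nat.cast_mul, Nat.cast_sub (show n ≤ 3*j by omega), ih (by omega)]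
      push_cast
      linear_combination ((-1)^n * ((Nat.ascFactorial (j+1) n : ℕ) : F)) * h4
  have e2 := e k hk
  rw [h1, h2] at e2
  apply mul_left_cancel₀ hf
  push_cast at e2 ⊢
  linear_combination e2

end

end Pool.Agent.R856.DC
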