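import Pool.Agent.R856.DC1

set_option autoImplicit false

/-!
Gauss's congruence for `C(2j,j)` modulo `p = 4j+1 = a^2+b^2`, by Jacobi sums.
-/

namespace Pool.Agent.R856.DC

open Finset MulChar

noncomputable section

variable {p : ℕ} [hp : Fact p.Prime] {j : ℕ}

lemma sum_pow_zmod (n : ℕ) (hn : 0 < n) : ∑ x : ZMod p, x^n = if (p - 1) ∣ n then -1 else 0 := by
  have h := FiniteField.sum_pow_units (ZMod p) n
  rw [ZMod.card] at h
  rw [← h]
  classical
  let φ : (ZMod p)ˣ ↪ ZMod p := ⟨fun x ↦ x, Units.val_injective⟩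
  have hu : univ.map φ = univ \ {0} := by
    ext x
    simpa only [mem_map, mem_univ, Function.Embedding.coeFn_mk, true_and, mem_sdiff,
      mem_singleton, φ] using! isUnit_iff_ne_zero
  calc
    ∑ x : ZMod p, x ^ n = ∑ x ∈ univ \ {(0 : ZMod p)}, x ^ n := by
      rw [← sum_sdiff ({0} : Finset (ZMod p)).subset_univ, sum_singleton, zero_pow hn.ne', add_zero]
    _ = ∑ x : (ZMod p)ˣ, (x ^ n : ZMod p) := by simp [φ, ← hu, univ.sum_map φ]

def gi : GaussianInt := ⟨0, 1⟩

lemma gi_sq : gi^2 = -1 := by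
  rw [pow_two]; rfl

lemma gi_prim : IsPrimitiveRoot gi 4 := by
  apply IsPrimitiveRoot.mk_of_lt _ (by norm_num)
  · rw [show 4 = 2*2 by norm_num, pow_mul, gi_sq]; norm_num
  · intro l h0 h1
    interval_cases l
    · rw [pow_one]; decide
    · rw [gi_sq]; decide
    · rw [show 3 = 2 + 1 by norm_num, pow_succ, gi_sq]; decide

/-- an order four character with prescribed reduction -/
lemma exists_char (hj : 4*j+1 = p) (hj1 : 1 ≤ j) (φ : GaussianInt →+* ZMod p) :
    ∃ ψ : MulChar (ZMod p) GaussianInt, ψ^4 = 1 ∧ ψ^2 ≠ 1 ∧ ∀ x : ZMod p, x ≠ 0 → φ (ψ x) = x^(3*j) := by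
  obtain ⟨ψ, hψ⟩ := MulChar.exists_mulChar_orderOf (ZMod p) (n := 4) (by rw [ZMod.card]; exact ⟨j, by omega⟩) gi_prim
  have h4 : ψ^4 = 1 := by rw [← hψ]; exact pow_orderOf_eq_one ψ
  have h2 : ψ^2 ≠ 1 := by
    intro h
    have := orderOf_dvd_of_pow_eq_one h
    rw [hψ] at this; omega
  obtain ⟨g, hg⟩ := IsCyclic.exists_generator (α := (ZMod p)ˣ)
  have hord : orderOf g = p - 1 := by
    rw [orderOf_eq_card_of_forall_mem_zpowers hg, Nat.card_eq_fintype_card, ZMod.card_units_eq_totient,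
      Nat.totient_prime hp.out]
  have hgen : ∀ x : ZMod p, x ≠ 0 → ∃ n : ℕ, x = (g : ZMod p)^n := by
    intro x hx
    obtain ⟨n, hn⟩ := (mem_powers_iff_mem_zpowers (x := g)).mpr (hg (Units.mk0 x hx))
    refine ⟨n, ?_⟩
    have := congrArg (fun u : (ZMod p)ˣ => (u : ZMod p)) hn
    simpa using this.symm
  have hv4 : (ψ (g : ZMod p))^4 = 1 := by
    have := congrArg (fun χ : MulChar (ZMod p) GaussianInt => χ (g : ZMod p)) h4
    simpa [MulChar.pow_apply_coe] using this
  have hv2 : (ψ (g : ZMod p))^2 ≠ 1 := by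
    intro h
    apply h2
    apply MulChar.ext
    intro u
    obtain ⟨n, hn⟩ := hgen (u : ZMod p) u.ne_zero
    rw [MulChar.pow_apply_coe, MulChar.one_apply_coe, hn, map_pow, ← pow_mul, mul_comm, pow_mul, h, one_pow]
  have hvm : (ψ (g : ZMod p))^2 = -1 := by
    have : ((ψ (g : ZMod p))^2 - 1) * ((ψ (g : ZMod p))^2 + 1) = 0 := by linear_combination hv4
    rcases mul_eq_zero.mp this with h | h
    · exact absurd (sub_eq_zero.mp h) hv2
    · linear_combination h
  have hgm : ((g : ZMod p)^j)^2 = -1 := by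
    have h1 : (((g : ZMod p)^j)^2)^2 = 1 := by
      rw [← pow_mul, ← pow_mul]
      have : (g : ZMod p)^(p-1) = 1 := ZMod.pow_card_sub_one_eq_one g.ne_zero
      rw [show j*(2*2) = p-1 by omega]; exact this
    have h2 : ((g : ZMod p)^j)^2 ≠ 1 := by
      intro h
      rw [← pow_mul] at h
      have : g^(j*2) = 1 := by
        apply Units.ext; simpa using h
      have := orderOf_dvd_of_pow_eq_one this
      rw [hord] at this
      have := Nat.le_of_dvd (by omega) this
      omega
    have : (((g : ZMod p)^j)^2 - 1) * (((g : ZMod p)^j)^2 + 1) = 0 := by linear_combination h1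
    rcases mul_eq_zero.mp this with h | h
    · exact absurd (sub_eq_zero.mp h) h2
    · linear_combination h
  have hφ : (φ (ψ (g : ZMod p)))^2 = -1 := by rw [← map_pow, hvm]; simp
  have hcase : φ (ψ (g : ZMod p)) = (g : ZMod p)^j ∨ φ (ψ (g : ZMod p)) = (g : ZMod p)^(3*j) := by
    have : (φ (ψ (g : ZMod p)) - (g : ZMod p)^j) * (φ (ψ (g : ZMod p)) + (g : ZMod p)^j) = 0 := by
      linear_combination hφ - hgm
    rcases mul_eq_zero.mp this with h | h
    · left; exact sub_eq_zero.mp h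
    · right
      rw [show 3*j = j*2 + j by ring, pow_add, pow_mul, hgm]
      linear_combination h
  rcases hcase with h | h
  · refine ⟨ψ^3, ?_, ?_, ?_⟩
    · rw [← pow_mul, show 3*4 = 4*3 by norm_num, pow_mul, h4, one_pow]
    · intro hh
      apply h2
      calc ψ^2 = ψ^2 * ψ^4 := by rw [h4, mul_one]
        _ = (ψ^3)^2 := by rw [← pow_mul, ← pow_add]
        _ = 1 := hh
    · intro x hx
      obtain ⟨n, hn⟩ := hgen x hx
      have hxu : x = ((Units.mk0 x hx : (ZMod p)ˣ) : ZMod p) := rfl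
      rw [hxu, MulChar.pow_apply_coe, ← hxu, hn, map_pow, map_pow, map_pow, h]
      ring
  · refine ⟨ψ, h4, h2, ?_⟩
    intro x hx
    obtain ⟨n, hn⟩ := hgen x hx
    rw [hn, map_pow, map_pow, h]
    ring

lemma poly_sum (hj : 4*j+1 = p) (hj1 : 1 ≤ j) (n : ℕ) (hn : 1 ≤ n) (hn2 : n < 4*j) (hn3 : 2*n < 8*j) :
    ∑ x : ZMod p, x^n * (1-x)^n = if 4*j ≤ 2*n then -((n.choose (4*j-n) : ZMod p) * (-1)^(4*j-n)) else 0 := by
  have e : ∀ x : ZMod p, x^n * (1-x)^n = ∑ i ∈ range (n+1), ((n.choose i : ZMod p) * (-1)^i) * x^(n+i) := by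
    intro x
    rw [sub_eq_add_neg, add_comm, add_pow, mul_sum]
    apply sum_congr rfl
    intro i _
    rw [one_pow, neg_pow, pow_add]
    ring
  rw [sum_congr rfl (fun x _ => e x), sum_comm]
  have e2 : ∀ i ∈ range (n+1), ∑ x : ZMod p, ((n.choose i : ZMod p) * (-1)^i) * x^(n+i) =
      if i = 4*j-n then -((n.choose i : ZMod p) * (-1)^i) else 0 := by
    intro i hi
    rw [mem_range] at hi
    rw [← mul_sum, sum_pow_zmod _ (by omega), show p - 1 = 4*j by omega]
    by_cases h : i = 4*j - n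
    · rw [if_pos h, if_pos ⟨1, by omega⟩]; ring
    · rw [if_neg h, if_neg, mul_zero]
      rintro ⟨c, hc⟩
      have hc2 : c < 2 := by
        by_contra hlt
        have : 4*j*2 ≤ 4*j*c := Nat.mul_le_mul_left _ (by omega)
        omega
      interval_cases c <;> omega
  rw [sum_congr rfl e2, sum_ite_eq']
  by_cases h : 4*j ≤ 2*n
  · rw [if_pos h, if_pos (mem_range.mpr (by omega))]
  · rw [if_neg h, if_neg]
    rw [mem_range]; omega

theorem gauss (hj : 4*j+1 = p) (hj1 : 1 ≤ j) :
    ∃ a b : ℤ, (p:ℤ) = a^2 + b^2 ∧ (((2*j).choose j : ℕ) : ZMod p) = 2 * (a : ZMod p) := by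
  have hsq : IsSquare (-1 : ZMod p) := by
    rw [ZMod.exists_sq_eq_neg_one_iff]; omega
  obtain ⟨t, ht⟩ := hsq
  set φ : GaussianInt →+* ZMod p := Zsqrtd.lift ⟨t, by rw [← ht]; simp⟩ with hφ
  obtain ⟨ψ, h4, h2, hval⟩ := exists_char hj hj1 φ
  have hψ1 : ψ ≠ 1 := by intro h; apply h2; rw [h, one_pow]
  have hψψ : ψ * ψ ≠ 1 := by rw [← pow_two]; exact h2
  -- the product of conjugate Jacobi sums
  have hprod : jacobiSum ψ ψ * jacobiSum ψ⁻¹ ψ⁻¹ = (p : GaussianInt) := by
    have hinj : Function.Injective GaussianInt.toComplex := by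
      intro x y hxy
      exact GaussianInt.toComplex_inj.mp hxy
    apply hinj
    rw [map_mul, ← jacobiSum_ringHomComp, ← jacobiSum_ringHomComp, ← ringHomComp_inv]
    rw [jacobiSum_mul_jacobiSum_inv]
    · rw [ZMod.card]; simp
    · rw [ringChar.eq_zero, ZMod.ringChar_zmod_n]; exact hp.out.ne_zero.symm
    · exact (MulChar.ringHomComp_ne_one_iff hinj).mpr hψ1
    · exact (MulChar.ringHomComp_ne_one_iff hinj).mpr hψ1
    · rw [← ringHomComp_mul]; exact (MulChar.ringHomComp_ne_one_iff hinj).mpr hψψ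
  have hinvval : ∀ x : ZMod p, ψ⁻¹ x = star (ψ x) := by
    intro x
    by_cases hx : x = 0
    · rw [hx, MulChar.map_zero, MulChar.map_zero, star_zero]
    · have e1 : ψ x * ψ⁻¹ x = 1 := by
        rw [← MulChar.mul_apply, mul_inv_cancel, MulChar.one_apply (isUnit_iff_ne_zero.mpr hx)]
      have e2 : (ψ x)^4 = 1 := by
        have := congrArg (fun χ : MulChar (ZMod p) GaussianInt => χ x) h4
        rw [MulChar.one_apply (isUnit_iff_ne_zero.mpr hx)] at this
        have hxu : x = ((Units.mk0 x hx : (ZMod p)ˣ) : ZMod p) := rfl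
        rw [hxu, MulChar.pow_apply_coe, ← hxu] at this
        exact this
      have e3 : (ψ x) * star (ψ x) = 1 := by
        have hn : (ψ x).norm = 1 := by
          have h1 : (ψ x).norm^4 = 1 := by
            have := congrArg Zsqrtd.norm e2
            rw [Zsqrtd.norm_one] at this
            have h5 : ∀ z : GaussianInt, (z^4).norm = z.norm^4 := by
              intro z
              rw [show z^4 = (z*z)*(z*z) by ring, Zsqrtd.norm_mul, Zsqrtd.norm_mul]; ring
            rw [← h5]; exact this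
          have h0 : 0 ≤ (ψ x).norm := GaussianInt.norm_nonneg _
          nlinarith [sq_nonneg ((ψ x).norm^2 - 1), sq_nonneg ((ψ x).norm - 1), sq_nonneg ((ψ x).norm + 1)]
        have := Zsqrtd.norm_eq_mul_conj (ψ x)
        rw [hn] at this
        rw [← this]; simp
      have hne : ψ x ≠ 0 := by
        intro h; rw [h, zero_mul] at e1; exact zero_ne_one e1
      exact mul_left_cancel₀ hne (e1.trans e3.symm)
  have hstar : jacobiSum ψ⁻¹ ψ⁻¹ = star (jacobiSum ψ ψ) := by
    unfold jacobiSum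
    rw [star_sum]
    apply sum_congr rfl
    intro x _
    rw [hinvval, hinvval, star_mul']
  have hJ1 : φ (jacobiSum ψ ψ) = -(((2*j).choose j : ℕ) : ZMod p) := by
    have e : φ (jacobiSum ψ ψ) = ∑ x : ZMod p, x^(3*j) * (1-x)^(3*j) := by
      unfold jacobiSum
      rw [map_sum]
      apply sum_congr rfl
      intro x _
      rw [map_mul]
      by_cases hx : x = 0
      · rw [hx, MulChar.map_zero, map_zero, zero_mul, zero_pow (by omega), zero_mul]
      · by_cases hx1 : 1 - x = 0
        · rw [hx1, MulChar.map_zero, map_zero, mul_zero, zero_pow (by omega), mul_zero]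
        · rw [hval x hx, hval _ hx1]
    rw [e, poly_sum hj hj1 (3*j) (by omega) (by omega) (by omega), if_pos (by omega),
      show 4*j - 3*j = j by omega, flip (F := ZMod p) hj (by omega), show j + j = 2*j by ring]
    have h1 : ((-1 : ZMod p)^j) * (-1)^j = 1 := by rw [← mul_pow]; simp
    linear_combination (-(((2*j).choose j : ℕ) : ZMod p)) * h1
  have hJ2 : φ (jacobiSum ψ⁻¹ ψ⁻¹) = 0 := by
    have hv : ∀ x : ZMod p, x ≠ 0 → φ (ψ⁻¹ x) = x^j := by
      intro x hx
      have e1 : φ (ψ x) * φ (ψ⁻¹ x) = 1 := by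
        rw [← map_mul, ← MulChar.mul_apply, mul_inv_cancel, MulChar.one_apply (isUnit_iff_ne_zero.mpr hx), map_one]
      rw [hval x hx] at e1
      have e2 : x^(3*j) * x^j = 1 := by
        rw [← pow_add, show 3*j+j = p-1 by omega]
        exact ZMod.pow_card_sub_one_eq_one hx
      exact mul_left_cancel₀ (pow_ne_zero _ hx) (e1.trans e2.symm)
    have e : φ (jacobiSum ψ⁻¹ ψ⁻¹) = ∑ x : ZMod p, x^j * (1-x)^j := by
      unfold jacobiSum
      rw [map_sum]
      apply sum_congr rfl
      intro x _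
      rw [map_mul]
      by_cases hx : x = 0
      · rw [hx, MulChar.map_zero, map_zero, zero_mul, zero_pow (by omega), zero_mul]
      · by_cases hx1 : 1 - x = 0
        · rw [hx1, MulChar.map_zero, map_zero, mul_zero, zero_pow (by omega), mul_zero]
        · rw [hv x hx, hv _ hx1]
    rw [e, poly_sum hj hj1 j (by omega) (by omega) (by omega), if_neg (by omega)]
  refine ⟨-(jacobiSum ψ ψ).re, (jacobiSum ψ ψ).im, ?_, ?_⟩
  · rw [hstar, ← Zsqrtd.norm_eq_mul_conj] at hprod
    have : ((jacobiSum ψ ψ).norm : ℤ) = (p:ℤ) := by exact_mod_cast hprod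
    rw [← this, Zsqrtd.norm_def]; ring
  · have h : φ (jacobiSum ψ ψ) + φ (jacobiSum ψ⁻¹ ψ⁻¹) = 2 * (((jacobiSum ψ ψ).re : ℤ) : ZMod p) := by
      rw [hstar, ← map_add]
      have : jacobiSum ψ ψ + star (jacobiSum ψ ψ) = ((2 * (jacobiSum ψ ψ).re : ℤ) : GaussianInt) := by
        apply Zsqrtd.ext
        · simp; ring
        · simp
      rw [this, map_intCast]; push_cast; ring
    rw [hJ1, hJ2] at h
    push_cast
    linear_combination (-1) * h

end

end Pool.Agent.R856.DC
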