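import Mathlib

set_option autoImplicit false

/-!
Arithmetic of the forms `x^2+y^2` and `x^2+9y^2`.
-/

namespace Pool.Agent.R856.DC

variable {p : ℕ}

lemma two_sq_aux (hp0 : (0:ℤ) < p) {a b c d : ℤ} (h1 : (p:ℤ) = a^2 + b^2) (h2 : (p:ℤ) = c^2 + d^2)
    (h : (p:ℤ) ∣ a*c + b*d) : a^2 = c^2 ∨ a^2 + c^2 = p := by
  obtain ⟨k, hk⟩ := h
  have e : (p:ℤ)^2 * (1 - k^2) = (a*d - b*c)^2 := by
    have : (a*c+b*d)^2 + (a*d-b*c)^2 = (p:ℤ)^2 := by
      calc (a*c+b*d)^2 + (a*d-b*c)^2 = (a^2+b^2)*(c^2+d^2) := by ring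
        _ = (p:ℤ)^2 := by rw [← h1, ← h2]; ring
    rw [hk] at this
    linear_combination (-1) * this
  have hk1 : k^2 ≤ 1 := by
    by_contra hlt
    push Not at hlt
    have h3 : (p:ℤ)^2 * (1 - k^2) < 0 := by
      apply mul_neg_of_pos_of_neg (by positivity) (by linarith)
    have h4 : 0 ≤ (a*d - b*c)^2 := sq_nonneg _
    linarith
  have hk2 : k = 0 ∨ k^2 = 1 := by
    have hlow : -1 ≤ k := by nlinarith
    have hup : k ≤ 1 := by nlinarith
    have : k = -1 ∨ k = 0 ∨ k = 1 := by omega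
    rcases this with h | h | h
    · right; rw [h]; norm_num
    · left; exact h
    · right; rw [h]; norm_num
  rcases hk2 with h | h
  · right
    rw [h, mul_zero] at hk
    have e2 : (p:ℤ) * ((p:ℤ) - (a^2 + c^2)) = 0 := by
      have e3 : a^2 * c^2 = b^2 * d^2 := by linear_combination (a*c - b*d) * hk
      have e4 : b^2 = p - a^2 := by linarith
      have e5 : d^2 = p - c^2 := by linarith
      rw [e4, e5] at e3
      linear_combination (-1) * e3
    rcases mul_eq_zero.mp e2 with h3 | h3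
    · exact absurd h3 hp0.ne'
    · linarith
  · left
    rw [h, sub_self, mul_zero] at e
    have e1 : a*d - b*c = 0 := by
      exact pow_eq_zero_iff (two_ne_zero) |>.mp e.symm
    have e2 : (p:ℤ) * (a^2 - c^2) = 0 := by
      have e3 : a^2 * d^2 = b^2 * c^2 := by linear_combination (a*d + b*c) * e1
      have e4 : b^2 = p - a^2 := by linarith
      have e5 : d^2 = p - c^2 := by linarith
      rw [e4, e5] at e3
      linear_combination e3
    rcases mul_eq_zero.mp e2 with h3 | h3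
    · exact absurd h3 hp0.ne'
    · linarith

lemma two_sq_unique (hp : p.Prime) {a b c d : ℤ} (h1 : (p:ℤ) = a^2 + b^2) (h2 : (p:ℤ) = c^2 + d^2) :
    a^2 = c^2 ∨ a^2 + c^2 = p := by
  have hp0 : (0:ℤ) < p := by exact_mod_cast hp.pos
  have hpp : Prime (p:ℤ) := Nat.prime_iff_prime_int.mp hp
  have hd : (p:ℤ) ∣ (a*c + b*d) * (a*c - b*d) := by
    have e4 : b^2 = p - a^2 := by linarith
    have e5 : d^2 = p - c^2 := by linarith
    refine ⟨a^2 + c^2 - p, ?_⟩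
    have : (a*c + b*d) * (a*c - b*d) = a^2*c^2 - b^2*d^2 := by ring
    rw [this, e4, e5]; ring
  rcases hpp.dvd_or_dvd hd with h | h
  · exact two_sq_aux hp0 h1 h2 h
  · exact two_sq_aux hp0 h1 (d := -d) (by rw [neg_sq]; exact h2) (by
      have : a*c + b*(-d) = a*c - b*d := by ring
      rw [this]; exact h)

lemma fourth (hp : p.Prime) {a b c d : ℤ} (h1 : (p:ℤ) = a^2 + b^2) (h2 : (p:ℤ) = c^2 + d^2) :
    (p:ℤ) ∣ a^4 - c^4 := by
  rcases two_sq_unique hp h1 h2 with h | h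
  · refine ⟨0, ?_⟩
    have : a^4 - c^4 = (a^2 - c^2)*(a^2+c^2) := by ring
    rw [this, h]; ring
  · refine ⟨a^2 - c^2, ?_⟩
    rw [← h]; ring

lemma zero_of_dvd {D P : ℤ} (h : P ∣ D) (h1 : -P < D) (h2 : D < P) : D = 0 := by
  obtain ⟨k, hk⟩ := h
  have hP : 0 < P := by linarith
  have k1 : k < 1 := by
    by_contra hlt
    push Not at hlt
    nlinarith
  have k2 : -1 < k := by
    by_contra hlt
    push Not at hlt
    nlinarith
  have : k = 0 := by omega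
  rw [hk, this, mul_zero]

theorem arith1 (hp : p.Prime) (hp5 : 5 ≤ p) {a b x y t : ℤ} (h1 : (p:ℤ) = a^2 + b^2) (h2 : (p:ℤ) = x^2 + 9*y^2)
    (hx : x % 3 = 1) (ht : t % 3 = 2) (hte : t % 2 = 0) (hb1 : -(p:ℤ) ≤ t) (hb2 : t ≤ p)
    (hd : (p:ℤ) ∣ t^4 - 16*a^4) : t = 2*x := by
  have hpp : Prime (p:ℤ) := Nat.prime_iff_prime_int.mp hp
  have hp5' : (5:ℤ) ≤ p := by exact_mod_cast hp5
  have hodd : (p:ℤ) % 2 = 1 := by
    have := hp.eq_two_or_odd; omega
  have h3 := fourth hp h1 (show (p:ℤ) = x^2 + (3*y)^2 by rw [h2]; ring)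
  have h4 : (p:ℤ) ∣ (t^2 - 4*x^2) * (t^2 + 4*x^2) := by
    have : (t^2 - 4*x^2) * (t^2 + 4*x^2) = (t^4 - 16*a^4) + 16*(a^4 - x^4) := by ring
    rw [this]; exact dvd_add hd (h3.mul_left 16)
  have bx : -(p:ℤ) < 2*x ∧ 2*x < p := abs_lt.mp (abs_lt_of_sq_lt_sq (by nlinarith [sq_nonneg y]) (by linarith))
  have by' : -(p:ℤ) < 6*y ∧ 6*y < p := abs_lt.mp (abs_lt_of_sq_lt_sq (by nlinarith [sq_nonneg x]) (by linarith))
  have key : ∀ D : ℤ, (p:ℤ) ∣ D → D % 2 = 0 → -(2*(p:ℤ)) < D → D < 2*p → D = 0 := by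
    intro D hD hD2 hl hu
    obtain ⟨k, hk⟩ := hD
    have hk2 : k % 2 = 0 := by
      rw [hk, Int.mul_emod, hodd, one_mul, Int.emod_emod_of_dvd _ dvd_rfl] at hD2
      exact hD2
    obtain ⟨m, hm⟩ : ∃ m, k = 2*m := ⟨k/2, by omega⟩
    exact zero_of_dvd (P := 2*(p:ℤ)) ⟨m, by rw [hk, hm]; ring⟩ hl hu
  rcases hpp.dvd_or_dvd h4 with h | h
  · have : t^2 - 4*x^2 = (t - 2*x) * (t + 2*x) := by ring
    rw [this] at h
    rcases hpp.dvd_or_dvd h with h | h
    · have := key _ h (by omega) (by linarith) (by linarith)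
      linarith
    · have := key _ h (by omega) (by linarith) (by linarith)
      omega
  · have h' : (p:ℤ) ∣ (t - 6*y) * (t + 6*y) := by
      have : (t - 6*y) * (t + 6*y) = (t^2 + 4*x^2) - p * 4 := by rw [h2]; ring
      rw [this]; exact dvd_sub h (Dvd.intro _ rfl)
    rcases hpp.dvd_or_dvd h' with h | h
    · have := key _ h (by omega) (by linarith) (by linarith)
      omega
    · have := key _ h (by omega) (by linarith) (by linarith)
      omega

theorem arith5 (hp : p.Prime) (hp11 : 11 ≤ p) {a b x y t : ℤ} (h1 : (p:ℤ) = a^2 + b^2) (h2 : 2*(p:ℤ) = x^2 + 9*y^2)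
    (hx : x % 3 = 1) (ht : t % 3 = 1) (hb1 : -((p:ℤ)+1) ≤ 2*t) (hb2 : 2*t ≤ p+1)
    (hd : (p:ℤ) ∣ t^4 + 4*a^4) : t = x := by
  have hpp : Prime (p:ℤ) := Nat.prime_iff_prime_int.mp hp
  have hp11' : (11:ℤ) ≤ p := by exact_mod_cast hp11
  have hodd : (p:ℤ) % 2 = 1 := by
    have := hp.eq_two_or_odd; omega
  have hpar : (x + 3*y) % 2 = 0 := by
    have hx2 : x % 2 = 0 ∨ x % 2 = 1 := by omega
    have hy2 : y % 2 = 0 ∨ y % 2 = 1 := by omega
    have h3 : (x^2 + 9*y^2) % 2 = 0 := by rw [← h2]; omega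
    rcases hx2 with h | h <;> rcases hy2 with h' | h' <;> simp [pow_two, Int.add_emod, Int.mul_emod, h, h'] at h3 ⊢
  obtain ⟨u, hu⟩ : ∃ u, x + 3*y = 2*u := ⟨(x+3*y)/2, by omega⟩
  obtain ⟨v, hv⟩ : ∃ v, x - 3*y = 2*v := ⟨(x-3*y)/2, by omega⟩
  have hx' : x = u + v := by linarith
  have huv : (p:ℤ) = u^2 + v^2 := by
    have : 4 * (u^2 + v^2) = 4 * (p:ℤ) := by
      calc 4*(u^2+v^2) = (2*u)^2 + (2*v)^2 := by ring
        _ = (x+3*y)^2 + (x-3*y)^2 := by rw [hu, hv]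
        _ = 2 * (x^2 + 9*y^2) := by ring
        _ = 4 * (p:ℤ) := by rw [← h2]; ring
    linarith
  have h3 := fourth hp h1 huv
  have hx4 : (p:ℤ) ∣ x^4 + 4*u^4 := by
    refine ⟨(u^2+v^2) + 4*u*v + 4*u^2, ?_⟩
    rw [hx', huv]; ring
  have h4 : (p:ℤ) ∣ (t^2 - x^2) * (t^2 + x^2) := by
    have : (t^2 - x^2) * (t^2 + x^2) = (t^4 + 4*a^4) - (x^4 + 4*u^4) - 4*(a^4 - u^4) := by ring
    rw [this]; exact dvd_sub (dvd_sub hd hx4) (h3.mul_left 4)
  have bx : -((p:ℤ) - 1) < 2*x ∧ 2*x < (p:ℤ) - 1 :=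
    abs_lt.mp (abs_lt_of_sq_lt_sq (by nlinarith [sq_nonneg y]) (by linarith))
  have by' : -((p:ℤ) - 1) < 6*y ∧ 6*y < (p:ℤ) - 1 :=
    abs_lt.mp (abs_lt_of_sq_lt_sq (by nlinarith [sq_nonneg x]) (by linarith))
  rcases hpp.dvd_or_dvd h4 with h | h
  · have : t^2 - x^2 = (t - x) * (t + x) := by ring
    rw [this] at h
    rcases hpp.dvd_or_dvd h with h | h
    · have := zero_of_dvd h (by linarith) (by linarith)
      linarith
    · have := zero_of_dvd h (by linarith) (by linarith)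
      omega
  · have h' : (p:ℤ) ∣ (t - 3*y) * (t + 3*y) := by
      have : (t - 3*y) * (t + 3*y) = (t^2 + x^2) - p * 2 := by linear_combination h2
      rw [this]; exact dvd_sub h (Dvd.intro _ rfl)
    rcases hpp.dvd_or_dvd h' with h | h
    · have := zero_of_dvd h (by linarith) (by linarith)
      omega
    · have := zero_of_dvd h (by linarith) (by linarith)
      omega

end Pool.Agent.R856.DC
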