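import Pool.Agent.R856.DC2

set_option autoImplicit false

/-!
The roots of `w^{p+2}+w^2-2` in characteristic `p`: power sums and a count.
-/

namespace Pool.Agent.R856.DC

open Finset Polynomial

noncomputable section

variable (K : Type*) [Field K] [IsAlgClosed K] [DecidableEq K] (p : ℕ) [hp : Fact p.Prime] [CharP K p]

def WW : K[X] := X^(p+2) + X^2 - C 2

def SS : Finset K := (WW K p).roots.toFinset

variable {K p}

omit [IsAlgClosed K] [DecidableEq K] [CharP K p] hp in
lemma WW_form : WW K p = X^(p+2) + (X^2 - C 2) := by unfold WW; ring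

omit [IsAlgClosed K] [DecidableEq K] [CharP K p] in
lemma low_deg : (X^2 - C 2 : K[X]).degree < ((p+2 : ℕ) : WithBot ℕ) := by
  have h := hp.out.pos
  have h1 : (X^2 - C 2 : K[X]).natDegree ≤ 2 := by compute_degree
  exact lt_of_le_of_lt (degree_le_of_natDegree_le h1) (by exact_mod_cast (by omega : 2 < p + 2))

omit [IsAlgClosed K] [DecidableEq K] [CharP K p] in
lemma WW_monic : (WW K p).Monic := by
  rw [WW_form]
  exact monic_X_pow_add low_deg

omit [IsAlgClosed K] [DecidableEq K] [CharP K p] in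
lemma WW_deg : (WW K p).natDegree = p + 2 := by
  rw [WW_form]
  exact natDegree_eq_of_degree_eq_some (by
    rw [degree_add_eq_left_of_degree_lt (by rw [degree_X_pow]; exact low_deg), degree_X_pow])

omit [IsAlgClosed K] [DecidableEq K] hp in
lemma WW_der : derivative (WW K p) = C 2 * X^(p+1) + C 2 * X := by
  unfold WW
  rw [derivative_sub, derivative_add, derivative_X_pow, derivative_X_pow, derivative_C, sub_zero]
  have h1 : ((p+2 : ℕ) : K) = 2 := by push_cast; rw [CharP.cast_eq_zero]; ring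
  rw [h1, show p + 2 - 1 = p + 1 by omega]
  simp

omit [IsAlgClosed K] [DecidableEq K] hp in
lemma WW_sep (h2 : (2:K) ≠ 0) : (WW K p).Separable := by
  refine ⟨C (-1/2), C (1/4) * X, ?_⟩
  rw [WW_der]
  unfold WW
  have e1 : (C (-1/2) : K[X]) * C 2 = -1 := by
    rw [← C_mul, show (-1/2 : K) * 2 = -1 by field_simp]; simp
  have e2 : (C (1/4) : K[X]) * C 2 = C (1/2) := by
    rw [← C_mul]; congr 1
    have h4 : (4:K) = 2*2 := by norm_num
    rw [h4]; field_simp
  have e3 : (C (-1/2) : K[X]) = - C (1/2) := by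
    rw [← C_neg]; congr 1; ring
  have e4 : (C (1/2) : K[X]) * C 2 = 1 := by
    rw [← C_mul, show (1/2 : K) * 2 = 1 by field_simp]; simp
  rw [e3]
  linear_combination (X^2 + X^(p+2)) * e2 + e4

omit [IsAlgClosed K] [CharP K p] in
lemma mem_SS {w : K} : w ∈ SS K p ↔ w^(p+2) = 2 - w^2 := by
  unfold SS
  rw [Multiset.mem_toFinset, mem_roots WW_monic.ne_zero]
  unfold WW IsRoot
  simp only [eval_sub, eval_add, eval_pow, eval_X, eval_C]
  constructor
  · intro h; linear_combination h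
  · intro h; linear_combination h

lemma SS_card (h2 : (2:K) ≠ 0) : (SS K p).card = p + 2 := by
  unfold SS
  rw [Multiset.toFinset_card_of_nodup (nodup_roots (WW_sep h2)), ← (IsAlgClosed.splits (WW K p)).natDegree_eq_card_roots, WW_deg]

lemma WW_prod (h2 : (2:K) ≠ 0) : WW K p = ∏ w ∈ SS K p, (X - C w) := by
  unfold SS
  rw [Finset.prod, Multiset.toFinset_val, Multiset.dedup_eq_self.mpr (nodup_roots (WW_sep h2))]
  exact (IsAlgClosed.splits (WW K p)).eq_prod_roots_of_monic WW_monic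

/-- the cofactor of a root -/
def qw (p : ℕ) (w : K) : K[X] := X^2 * (∑ i ∈ range p, X^i * (C w)^(p-1-i)) + C (1 + w^p) * (X + C w)

omit [IsAlgClosed K] [CharP K p] in
lemma qw_mul {w : K} (hw : w ∈ SS K p) : qw p w * (X - C w) = WW K p := by
  rw [mem_SS] at hw
  have hg := (Commute.all (X : K[X]) (C w)).geom_sum₂_mul p
  have hw' : (C w : K[X])^(p+2) = C 2 - (C w)^2 := by rw [← C_pow, hw, C_sub, C_pow]
  unfold qw WW
  rw [C_add, C_1, C_pow]
  linear_combination X^2 * hg - hw'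

lemma cofactor (h2 : (2:K) ≠ 0) {w : K} (hw : w ∈ SS K p) : ∏ v ∈ (SS K p).erase w, (X - C v) = qw p w := by
  have h1 := qw_mul hw
  rw [WW_prod h2, ← prod_erase_mul _ _ hw] at h1
  exact (mul_right_cancel₀ (X_sub_C_ne_zero w) h1).symm

lemma der_sum (h2 : (2:K) ≠ 0) : ∑ w ∈ SS K p, qw p w = C 2 * X^(p+1) + C 2 * X := by
  rw [← WW_der, WW_prod h2, derivative_prod_finset]
  apply sum_congr rfl
  intro w hw
  rw [derivative_X_sub_C, mul_one, cofactor h2 hw]

def PP (K : Type*) [Field K] [DecidableEq K] (p k : ℕ) : K := ∑ w ∈ SS K p, w^k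

lemma PP_zero (h2 : (2:K) ≠ 0) : PP K p 0 = 2 := by
  unfold PP
  simp only [pow_zero, sum_const, nsmul_eq_mul, mul_one]
  rw [SS_card h2]; push_cast; rw [CharP.cast_eq_zero]; ring

lemma qw_coeff_high (w : K) {m : ℕ} (hm : 2 ≤ m) (hm2 : m ≤ p+1) : (qw p w).coeff m = w^(p+1-m) := by
  unfold qw
  obtain ⟨i, rfl⟩ : ∃ i, m = i + 2 := ⟨m-2, by omega⟩
  rw [coeff_add, coeff_X_pow_mul, finsetSum_coeff, coeff_C_mul]
  have h1 : (X + C w : K[X]).coeff (i+2) = 0 := by
    rw [coeff_add, coeff_C, if_neg (by omega), coeff_X, if_neg (by omega), add_zero]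
  have h3 : ∀ k ∈ range p, ((X:K[X])^k * (C w)^(p-1-k)).coeff i = if k = i then w^(p-1-k) else 0 := by
    intro k _
    rw [← C_pow, mul_comm, coeff_C_mul, coeff_X_pow]
    by_cases h : i = k
    · rw [if_pos h, if_pos h.symm, mul_one]
    · rw [if_neg h, if_neg (fun h' => h h'.symm), mul_zero]
  rw [h1, mul_zero, add_zero, sum_congr rfl h3, sum_ite_eq', if_pos (mem_range.mpr (by omega))]
  congr 1
  omega

lemma PP_low (h2 : (2:K) ≠ 0) {k : ℕ} (h0 : 1 ≤ k) (h1 : k ≤ p-1) : PP K p k = 0 := by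
  have h := congrArg (fun f : K[X] => f.coeff (p+1-k)) (der_sum (K := K) (p := p) h2)
  simp only [finsetSum_coeff, coeff_add, coeff_C_mul, coeff_X_pow, coeff_X] at h
  rw [if_neg (by omega), if_neg (by omega), mul_zero, add_zero] at h
  have e : ∑ w ∈ SS K p, (qw p w).coeff (p+1-k) = PP K p k := by
    unfold PP
    apply sum_congr rfl
    intro w _
    rw [qw_coeff_high w (by omega) (by omega)]
    congr 1; omega
  rw [← e]; exact h

lemma PP_p (h2 : (2:K) ≠ 0) : PP K p p = 0 := by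
  have h := congrArg (fun f : K[X] => f.coeff 1) (der_sum (K := K) (p := p) h2)
  have hp1 := hp.out.one_lt
  simp only [finsetSum_coeff, coeff_add, coeff_C_mul, coeff_X_pow, coeff_X] at h
  rw [if_neg (by omega), if_true, mul_zero, zero_add, mul_one] at h
  have e : ∀ w : K, (qw p w).coeff 1 = 1 + w^p := by
    intro w
    unfold qw
    rw [coeff_add, coeff_C_mul, coeff_add, coeff_X_one, coeff_C, if_neg (by norm_num), coeff_X_pow_mul', if_neg (by norm_num)]
    ring
  rw [sum_congr rfl (fun w _ => e w), sum_add_distrib] at h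
  have h0 := PP_zero (K := K) (p := p) h2
  unfold PP at h0 ⊢
  simp only [pow_zero] at h0
  rw [h0] at h
  linear_combination h

lemma PP_p1 (h2 : (2:K) ≠ 0) : PP K p (p+1) = 0 := by
  have h := congrArg (fun f : K[X] => f.coeff 0) (der_sum (K := K) (p := p) h2)
  have hp1 := hp.out.one_lt
  simp only [finsetSum_coeff, coeff_add, coeff_C_mul, coeff_X_pow, coeff_X] at h
  rw [if_neg (by omega), if_neg (by omega), mul_zero, zero_add] at h
  have e : ∀ w : K, (qw p w).coeff 0 = w + w^(p+1) := by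
    intro w
    unfold qw
    rw [coeff_add, coeff_C_mul, coeff_add, coeff_X_zero, coeff_C, if_pos rfl, coeff_X_pow_mul', if_neg (by norm_num)]
    ring
  rw [sum_congr rfl (fun w _ => e w), sum_add_distrib] at h
  have h0 := PP_low (K := K) (p := p) h2 (k := 1) le_rfl (by omega)
  unfold PP at h0 ⊢
  simp only [pow_one] at h0
  rw [h0] at h
  linear_combination h

omit [IsAlgClosed K] [CharP K p] in
lemma PP_rec (k : ℕ) : PP K p (k+p+2) = 2 * PP K p k - PP K p (k+2) := by
  unfold PP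
  rw [mul_sum, ← sum_sub_distrib]
  apply sum_congr rfl
  intro w hw
  rw [mem_SS] at hw
  rw [show k + p + 2 = k + (p+2) by ring, pow_add, hw, pow_add]; ring

lemma PP_all (h2 : (2:K) ≠ 0) (hp3 : 3 ≤ p) {k : ℕ} (h0 : 1 ≤ k) (h1 : k ≤ 2*p) : PP K p k = if k = p+2 then 4 else 0 := by
  have small : ∀ m, 1 ≤ m → m ≤ p+1 → PP K p m = 0 := by
    intro m hm hm2
    rcases Nat.lt_or_ge m p with h | h
    · exact PP_low h2 hm (by omega)
    · have : m = p ∨ m = p+1 := by omega
      rcases this with h | h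
      · rw [h]; exact PP_p h2
      · rw [h]; exact PP_p1 h2
  rcases Nat.lt_or_ge k (p+2) with h | h
  · rw [small k h0 (by omega), if_neg (by omega)]
  · obtain ⟨m, rfl⟩ : ∃ m, k = m + p + 2 := ⟨k-p-2, by omega⟩
    rw [PP_rec, small (m+2) (by omega) (by omega)]
    by_cases hm : m = 0
    · rw [hm, PP_zero h2, if_pos (by omega)]; norm_num
    · rw [small m (by omega) (by omega), if_neg (by omega)]; ring

/-- sums over the roots -/
lemma powsum (n l : ℕ) : ∑ w ∈ SS K p, (w^2-1)^n * w^l =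
    ∑ i ∈ range (n+1), ((n.choose i : K) * (-1)^(n-i)) * PP K p (2*i+l) := by
  unfold PP
  have e : ∀ w ∈ SS K p, (w^2-1)^n * w^l = ∑ i ∈ range (n+1), ((n.choose i : K) * (-1)^(n-i)) * w^(2*i+l) := by
    intro w _
    rw [sub_eq_add_neg, add_pow, sum_mul]
    apply sum_congr rfl
    intro i _
    rw [← pow_mul, pow_add]; ring
  rw [sum_congr rfl e, sum_comm]
  apply sum_congr rfl
  intro i _
  rw [mul_sum]

variable {j : ℕ}

def uw (A t : K) (j : ℕ) (w : K) : K := ((w^2-1)/A)^j * w / (1+t)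

lemma uw_sum (A t : K) (l : ℕ) : ∑ w ∈ SS K p, (uw A t j w)^l =
    (A⁻¹)^(j*l) * ((1+t)⁻¹)^l * ∑ w ∈ SS K p, (w^2-1)^(j*l) * w^l := by
  rw [mul_sum]
  apply sum_congr rfl
  intro w _
  unfold uw
  rw [div_eq_mul_inv, div_eq_mul_inv, mul_pow, mul_pow, ← pow_mul, mul_pow]
  ring

lemma four_ne (h2 : (2:K) ≠ 0) : (4:K) ≠ 0 := by
  have : (4:K) = 2*2 := by norm_num
  rw [this]; exact mul_ne_zero h2 h2

omit [IsAlgClosed K] [DecidableEq K] in
lemma t4 {t : K} (ht : t^2 = -1) : (1+t)^4 = -4 := by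
  linear_combination (t^2 + 4*t + 5) * ht

omit [IsAlgClosed K] [DecidableEq K] in
lemma one_t_ne {t : K} (h2 : (2:K) ≠ 0) (ht : t^2 = -1) : 1 + t ≠ 0 := by
  intro h
  have := t4 ht
  rw [h] at this
  have h4 : (4:K) = 2*2 := by norm_num
  rw [h4] at this
  have h5 : (2:K)*2 = 0 := by linear_combination this
  rcases mul_eq_zero.mp h5 with h | h <;> exact h2 h

lemma uw4 (h2 : (2:K) ≠ 0) (hj : 4*j+1 = p) {A t : K} (hA : A ≠ 0) (hAp : A^p = A) (ht : t^2 = -1) {w : K}
    (hw : w ∈ SS K p) (hw1 : w ≠ 1) : (uw A t j w)^4 = 1 := by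
  rw [mem_SS] at hw
  have hw2 : w^2 - 1 ≠ 0 := by
    intro h
    have : (w-1)*(w+1) = 0 := by linear_combination h
    rcases mul_eq_zero.mp this with h' | h'
    · exact hw1 (sub_eq_zero.mp h')
    · have hm : w = -1 := by linear_combination h'
      rw [hm] at hw
      have ho : (-1:K)^(p+2) = -1 := Odd.neg_one_pow ⟨2*j+1, by omega⟩
      rw [ho] at hw
      apply h2; linear_combination (-1) * hw
  have e1 : (w^2-1)^p * w^4 = -4 * (w^2-1) := by
    rw [sub_pow_char, one_pow]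
    have : (w^2)^p * w^4 = (w^(p+2))^2 := by rw [← pow_mul, ← pow_add, ← pow_mul]; congr 1; ring
    rw [sub_mul, this, hw]; ring
  have e2 : ((w^2-1)/A)^(4*j) * w^4 = -4 := by
    have e3 : ((w^2-1)/A)^(4*j) * ((w^2-1)/A) = (w^2-1)^p / A := by
      rw [← pow_succ, hj, div_pow, hAp]
    have e4 : ((w^2-1)/A)^(4*j) * (w^2-1) = (w^2-1)^p := by
      field_simp at e3
      rw [mul_comm]; exact e3
    apply mul_right_cancel₀ hw2
    linear_combination w^4 * e4 + e1
  unfold uw
  rw [div_pow, mul_pow, ← pow_mul, mul_comm j 4, e2, t4 ht, div_self (neg_ne_zero.mpr (four_ne h2))]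

omit [IsAlgClosed K] in
lemma sel1 (h2 : (2:K) ≠ 0) {u : K} (hu : u^4 = 1) : 1 + u + u^2 + u^3 = if u = 1 then 4 else 0 := by
  split_ifs with h
  · rw [h]; norm_num
  · have : (u-1)*(1+u+u^2+u^3) = 0 := by linear_combination hu
    rcases mul_eq_zero.mp this with h' | h'
    · exact absurd (sub_eq_zero.mp h') h
    · exact h'

omit [IsAlgClosed K] in
lemma sel2 {u : K} (hu : u^4 = 1) : 1 - u + u^2 - u^3 = if u = -1 then 4 else 0 := by
  split_ifs with h
  · rw [h]; norm_num
  · have : (u+1)*(1-u+u^2-u^3) = 0 := by linear_combination (-1) * hu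
    rcases mul_eq_zero.mp this with h' | h'
    · exact absurd (by linear_combination h') h
    · exact h'

def N0 (p : ℕ) [Fact p.Prime] (A t : K) (j : ℕ) : ℕ := (((SS K p).erase 1).filter (fun w => uw A t j w = 1)).card
def N2 (p : ℕ) [Fact p.Prime] (A t : K) (j : ℕ) : ℕ := (((SS K p).erase 1).filter (fun w => uw A t j w = -1)).card

lemma one_mem : (1:K) ∈ SS K p := by
  rw [mem_SS]; norm_num

lemma uw_one (A t : K) (hj1 : 1 ≤ j) : uw A t j 1 = 0 := by
  unfold uw
  rw [one_pow, sub_self, zero_div, zero_pow (by omega), zero_mul, zero_div]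

lemma erase_sum (A t : K) (hj1 : 1 ≤ j) {l : ℕ} (hl : 1 ≤ l) :
    ∑ w ∈ (SS K p).erase 1, (uw A t j w)^l = ∑ w ∈ SS K p, (uw A t j w)^l := by
  rw [← sum_erase_add _ _ (one_mem (K := K) (p := p)), uw_one A t hj1, zero_pow (by omega), add_zero]

lemma sum1 (h2 : (2:K) ≠ 0) (hj : 4*j+1 = p) (A t : K) (hj1 : 1 ≤ j) : ∑ w ∈ (SS K p).erase 1, uw A t j w = 0 := by
  have h := erase_sum (p := p) A t hj1 (l := 1) le_rfl
  simp only [pow_one] at h
  rw [h]
  have h3 := uw_sum (p := p) (j := j) A t 1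
  simp only [pow_one] at h3
  rw [h3]
  have h4 := powsum (K := K) (p := p) (j*1) 1
  simp only [pow_one] at h4
  rw [h4, sum_eq_zero, mul_zero]
  intro i hi
  rw [mem_range] at hi
  rw [PP_all h2 (by omega) (by omega) (by omega), if_neg (by omega), mul_zero]

lemma sum2 (h2 : (2:K) ≠ 0) (hj : 4*j+1 = p) (A t : K) (hj1 : 1 ≤ j) : ∑ w ∈ (SS K p).erase 1, (uw A t j w)^2 = 0 := by
  rw [erase_sum A t hj1 (by norm_num), uw_sum, powsum, sum_eq_zero, mul_zero]
  intro i hi
  rw [mem_range] at hi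
  rw [PP_all h2 (by omega) (by omega) (by omega), if_neg (by omega), mul_zero]

lemma sum3 (h2 : (2:K) ≠ 0) (hj : 4*j+1 = p) {A t : K} (hA : A ≠ 0) (hAp : A^p = A) (ht : t^2 = -1) (hj1 : 1 ≤ j) :
    ∑ w ∈ (SS K p).erase 1, (uw A t j w)^3 = -((1+t) * A^j * ((2*j).choose j : K)) := by
  rw [erase_sum A t hj1 (by norm_num), uw_sum, powsum, sum_eq_single (2*j)]
  · rw [PP_all h2 (by omega) (by omega) (by omega), if_pos (by omega), show j*3 - 2*j = j by omega]
    have hc : ((j*3).choose (2*j)) = (3*j).choose j := by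
      rw [mul_comm j 3]; exact Nat.choose_symm_of_eq_add (by ring)
    rw [hc, flip (F := K) hj (by omega), show j + j = 2*j by ring]
    have hs : ((-1 : K)^j) * (-1)^j = 1 := by rw [← mul_pow]; simp
    have hA4 : A^(4*j) = 1 := by
      apply mul_right_cancel₀ hA
      rw [← pow_succ, hj, hAp, one_mul]
    have hAi : (A⁻¹)^(j*3) = A^j := by
      rw [inv_pow]
      apply inv_eq_of_mul_eq_one_right
      rw [← pow_add, show j*3 + j = 4*j by ring, hA4]
    have h1t := one_t_ne h2 ht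
    have ht3 : ((1+t)⁻¹)^3 * 4 = -(1+t) := by
      have := t4 ht
      rw [inv_pow]
      have h3 : (1+t)^3 ≠ 0 := pow_ne_zero 3 h1t
      field_simp
      linear_combination this
    rw [hAi]
    linear_combination (A^j * (((2*j).choose j : ℕ) : K) * (-1)^j * (-1)^j) * ht3 - ((1+t) * A^j * ((2*j).choose j : K)) * hs
  · intro i hi hne
    rw [mem_range] at hi
    rw [PP_all h2 (by omega) (by omega) (by omega), if_neg (by omega), mul_zero]
  · intro h
    exact absurd (mem_range.mpr (by omega)) h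

lemma card_erase (h2 : (2:K) ≠ 0) : ((SS K p).erase 1).card = p + 1 := by
  rw [card_erase_of_mem one_mem, SS_card h2]; omega

lemma N0_val (h2 : (2:K) ≠ 0) (hj : 4*j+1 = p) {A t : K} (hA : A ≠ 0) (hAp : A^p = A) (ht : t^2 = -1) (hj1 : 1 ≤ j) :
    (4:K) * (N0 p A t j : K) = 1 - (1+t) * A^j * ((2*j).choose j : K) := by
  have e : ∑ w ∈ (SS K p).erase 1, (1 + uw A t j w + (uw A t j w)^2 + (uw A t j w)^3) = (4:K) * (N0 p A t j : K) := by
    have : ∀ w ∈ (SS K p).erase 1, 1 + uw A t j w + (uw A t j w)^2 + (uw A t j w)^3 = if uw A t j w = 1 then 4 else 0 := by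
      intro w hw
      rw [mem_erase] at hw
      exact sel1 h2 (uw4 h2 hj hA hAp ht hw.2 hw.1)
    rw [sum_congr rfl this, ← sum_filter, sum_const, nsmul_eq_mul, mul_comm]
    rfl
  rw [← e, sum_add_distrib, sum_add_distrib, sum_add_distrib, sum1 h2 hj A t hj1, sum2 h2 hj A t hj1,
    sum3 h2 hj hA hAp ht hj1, sum_const, card_erase h2, nsmul_eq_mul]
  push_cast
  rw [CharP.cast_eq_zero]; ring

lemma N2_val (h2 : (2:K) ≠ 0) (hj : 4*j+1 = p) {A t : K} (hA : A ≠ 0) (hAp : A^p = A) (ht : t^2 = -1) (hj1 : 1 ≤ j) :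
    (4:K) * (N2 p A t j : K) = 1 + (1+t) * A^j * ((2*j).choose j : K) := by
  have e : ∑ w ∈ (SS K p).erase 1, (1 - uw A t j w + (uw A t j w)^2 - (uw A t j w)^3) = (4:K) * (N2 p A t j : K) := by
    have : ∀ w ∈ (SS K p).erase 1, 1 - uw A t j w + (uw A t j w)^2 - (uw A t j w)^3 = if uw A t j w = -1 then 4 else 0 := by
      intro w hw
      rw [mem_erase] at hw
      exact sel2 (uw4 h2 hj hA hAp ht hw.2 hw.1)
    rw [sum_congr rfl this, ← sum_filter, sum_const, nsmul_eq_mul, mul_comm]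
    rfl
  rw [← e, sum_sub_distrib, sum_add_distrib, sum_sub_distrib, sum1 h2 hj A t hj1, sum2 h2 hj A t hj1,
    sum3 h2 hj hA hAp ht hj1, sum_const, card_erase h2, nsmul_eq_mul]
  push_cast
  rw [CharP.cast_eq_zero]; ring

theorem N0_bound (h2 : (2:K) ≠ 0) (hj : 4*j+1 = p) {A t : K} (hA : A ≠ 0) (hAp : A^p = A) (ht : t^2 = -1) (hj1 : 1 ≤ j) :
    N0 p A t j ≤ 2*j+1 := by
  have h0 := N0_val h2 hj hA hAp ht hj1
  have h2' := N2_val h2 hj hA hAp ht hj1
  set M := N0 p A t j + N2 p A t j with hM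
  have hle : M ≤ p + 1 := by
    rw [hM, ← card_erase (K := K) (p := p) h2]
    unfold N0 N2
    rw [← card_union_of_disjoint]
    · apply card_le_card
      intro w hw
      rw [mem_union, mem_filter, mem_filter] at hw
      rcases hw with h | h <;> exact h.1
    · rw [disjoint_left]
      intro w hw hw'
      rw [mem_filter] at hw hw'
      have : (1:K) = -1 := hw.2.symm.trans hw'.2
      apply h2; linear_combination this
  have hK : (((2*M : ℕ)) : K) = ((1:ℕ) : K) := by
    rw [hM]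
    push_cast
    have h5 : (2:K) * (2 * ((N0 p A t j : K) + N2 p A t j) - 1) = 0 := by linear_combination h0 + h2'
    rcases mul_eq_zero.mp h5 with h | h
    · exact absurd h h2
    · linear_combination h
  have hM1 : 1 ≤ M := by
    by_contra hlt
    have : M = 0 := by omega
    rw [this] at hK
    simp at hK
  have hd : p ∣ 2*M - 1 := by
    rw [← CharP.cast_eq_zero_iff K p, Nat.cast_sub (by omega), hK, sub_self]
  obtain ⟨c, hc⟩ := hd
  have hc2 : c ≤ 2 := by
    by_contra hlt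
    have : p * 3 ≤ p * c := Nat.mul_le_mul_left _ (by omega)
    omega
  have hp1 := hp.out.one_lt
  interval_cases c
  · omega
  · omega
  · omega

end

end Pool.Agent.R856.DC
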