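import Mathlib

set_option autoImplicit false

/-!
The curves `y^2 = x^3 + a x`: the automorphism of order four, the Frobenius map, and explicit
points of order three.
-/

namespace Pool.Agent.R856.DC

open WeierstrassCurve WeierstrassCurve.Affine

noncomputable section

variable {K : Type*} [Field K] [DecidableEq K]

/-- the curve `y^2 = x^3 + a x` -/
def Ea (a : K) : WeierstrassCurve.Affine K := { a₁ := 0, a₂ := 0, a₃ := 0, a₄ := a, a₆ := 0 }

omit [DecidableEq K] in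
lemma ns_iff (a x y : K) : (Ea a).Nonsingular x y ↔ y^2 = x^3 + a*x ∧ (3*x^2 + a ≠ 0 ∨ 2*y ≠ 0) := by
  rw [nonsingular_iff', equation_iff]
  simp only [Ea, zero_mul, mul_zero, add_zero, zero_sub, neg_ne_zero]

omit [DecidableEq K] in
lemma negY_eq (a x y : K) : (Ea a).negY x y = -y := by
  simp [negY, Ea]

lemma slope_ne (a : K) {x₁ x₂ y₁ y₂ : K} (h : x₁ ≠ x₂) : (Ea a).slope x₁ x₂ y₁ y₂ = (y₁ - y₂)/(x₁ - x₂) :=
  slope_of_X_ne h

lemma slope_eq (a : K) {x₁ x₂ y₁ y₂ : K} (h : x₁ = x₂) (hy : y₁ ≠ -y₂) : (Ea a).slope x₁ x₂ y₁ y₂ = (3*x₁^2 + a)/(2*y₁) := by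
  rw [slope_of_Y_ne h (by rw [negY_eq]; exact hy), negY_eq]
  simp only [Ea, zero_mul, mul_zero, add_zero, sub_zero]
  congr 1; ring

lemma add_pt (a : K) {x₁ y₁ x₂ y₂ x₃ y₃ l : K} {h₁ : (Ea a).Nonsingular x₁ y₁} {h₂ : (Ea a).Nonsingular x₂ y₂}
    (hxy : ¬(x₁ = x₂ ∧ y₁ = -y₂)) (hl : (Ea a).slope x₁ x₂ y₁ y₂ = l) (hx : x₃ = l^2 - x₁ - x₂)
    (hy : y₃ = -(l*(x₃ - x₁) + y₁)) (h₃ : (Ea a).Nonsingular x₃ y₃) :
    Point.some x₁ y₁ h₁ + Point.some x₂ y₂ h₂ = Point.some x₃ y₃ h₃ := by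
  rw [Point.add_some (by rw [negY_eq]; exact hxy)]
  have e1 : (Ea a).addX x₁ x₂ ((Ea a).slope x₁ x₂ y₁ y₂) = x₃ := by
    rw [hl, hx]; simp [addX, Ea]
  have e2 : (Ea a).addY x₁ x₂ y₁ ((Ea a).slope x₁ x₂ y₁ y₂) = y₃ := by
    rw [addY, negY_eq, negAddY, e1, hl, hy]
  simp only [Point.some.injEq]
  exact ⟨e1, e2⟩

lemma add_inv (a : K) {x₁ y₁ x₂ y₂ : K} {h₁ : (Ea a).Nonsingular x₁ y₁} {h₂ : (Ea a).Nonsingular x₂ y₂}
    (hx : x₁ = x₂) (hy : y₁ = -y₂) : Point.some x₁ y₁ h₁ + Point.some x₂ y₂ h₂ = 0 :=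
  Point.add_of_Y_eq hx (by rw [negY_eq]; exact hy)

/-- the coordinates of a sum -/
lemma add_form (a : K) {x₁ y₁ x₂ y₂ : K} (h₁ : (Ea a).Nonsingular x₁ y₁) (h₂ : (Ea a).Nonsingular x₂ y₂)
    (hxy : ¬(x₁ = x₂ ∧ y₁ = -y₂)) : ∃ (l x₃ y₃ : K) (h₃ : (Ea a).Nonsingular x₃ y₃),
      l = (Ea a).slope x₁ x₂ y₁ y₂ ∧ x₃ = l^2 - x₁ - x₂ ∧ y₃ = -(l*(x₃ - x₁) + y₁) ∧
      Point.some x₁ y₁ h₁ + Point.some x₂ y₂ h₂ = Point.some x₃ y₃ h₃ := by
  have hns := nonsingular_add h₁ h₂ (by rw [negY_eq]; exact hxy)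
  refine ⟨_, _, _, hns, rfl, ?_, ?_, Point.add_some (by rw [negY_eq]; exact hxy)⟩
  · simp [addX, Ea]
  · rw [addY, negY_eq, negAddY]

/-! ### the automorphism -/

lemma ns_im {a t : K} (ht : t^2 = -1) {x y : K} (h : (Ea a).Nonsingular x y) : (Ea a).Nonsingular (-x) (t*y) := by
  rw [ns_iff] at h ⊢
  obtain ⟨h1, h2⟩ := h
  refine ⟨by linear_combination y^2 * ht - h1, ?_⟩
  rcases h2 with h | h
  · left; rw [neg_sq]; exact h
  · right
    have ht0 : t ≠ 0 := by intro h0; rw [h0] at ht; norm_num at ht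
    intro hh
    apply h
    have : t * (2*y) = 0 := by linear_combination hh
    rcases mul_eq_zero.mp this with h' | h'
    · exact absurd h' ht0
    · exact h'

def im {a t : K} (ht : t^2 = -1) : (Ea a).Point → (Ea a).Point
  | .zero => .zero
  | .some x y h => .some (-x) (t*y) (ns_im ht h)

lemma im_zero {a t : K} (ht : t^2 = -1) : im ht (0 : (Ea a).Point) = 0 := rfl

lemma im_some {a t : K} (ht : t^2 = -1) {x y : K} (h : (Ea a).Nonsingular x y) :
    im ht (Point.some x y h) = Point.some (-x) (t*y) (ns_im ht h) := rfl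

lemma im_add {a t : K} (ht : t^2 = -1) (P Q : (Ea a).Point) : im ht (P + Q) = im ht P + im ht Q := by
  have ht0 : t ≠ 0 := by intro h0; rw [h0] at ht; norm_num at ht
  rcases P with _ | ⟨x₁, y₁, h₁⟩
  · change im ht (0 + Q) = im ht 0 + im ht Q
    rw [zero_add, im_zero, zero_add]
  rcases Q with _ | ⟨x₂, y₂, h₂⟩
  · change im ht (Point.some x₁ y₁ h₁ + 0) = im ht (Point.some x₁ y₁ h₁) + im ht 0
    rw [add_zero, im_zero, add_zero]
  by_cases hxy : x₁ = x₂ ∧ y₁ = -y₂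
  · rw [add_inv a hxy.1 hxy.2, im_zero, im_some, im_some, add_inv a (by rw [hxy.1]) (by rw [hxy.2]; ring)]
  · obtain ⟨l, x₃, y₃, h₃, hl, hx, hy, e⟩ := add_form a h₁ h₂ hxy
    rw [e, im_some, im_some, im_some]
    symm
    apply add_pt a (l := -(t*l))
    · rintro ⟨h, h'⟩
      apply hxy
      refine ⟨neg_injective h, ?_⟩
      apply mul_left_cancel₀ ht0
      rw [h']; ring
    · rw [hl]
      by_cases hx12 : x₁ = x₂
      · have hy12 : y₁ ≠ -y₂ := fun h => hxy ⟨hx12, h⟩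
        rw [slope_eq a hx12 hy12, slope_eq a (by rw [hx12]) (by
          intro h; apply hy12; apply mul_left_cancel₀ ht0; rw [h]; ring)]
        rw [neg_sq]
        by_cases hy0 : 2*y₁ = 0
        · rw [hy0, show 2*(t*y₁) = t*(2*y₁) by ring, hy0]; simp
        · have e2 : 2*(t*y₁) ≠ 0 := by
            rw [show 2*(t*y₁) = t*(2*y₁) by ring]; exact mul_ne_zero ht0 hy0
          rw [eq_comm, neg_eq_iff_eq_neg, ← neg_div, mul_div_assoc', div_eq_div_iff hy0 e2]
          linear_combination (2 * y₁ * (3*x₁^2+a)) * ht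
      · rw [slope_ne a hx12, slope_ne a (fun h => hx12 (neg_injective h))]
        have e1 : x₁ - x₂ ≠ 0 := sub_ne_zero.mpr hx12
        have e2 : -x₁ - -x₂ ≠ 0 := by
          intro h; apply e1; linear_combination -h
        rw [eq_comm, neg_eq_iff_eq_neg, ← neg_div, mul_div_assoc', div_eq_div_iff e1 e2]
        ring
    · rw [hx]; linear_combination (-l^2) * ht
    · rw [hy]; ring

/-! ### Frobenius -/

variable {p : ℕ} [hp : Fact p.Prime] [CharP K p]

lemma frob_inj {x y : K} (h : x^p = y^p) : x = y := frobenius_inj K p h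

lemma nat_frob (n : ℕ) : ((n:ℕ):K)^p = ((n:ℕ):K) := map_natCast (frobenius K p) n

lemma two_frob : (2:K)^p = 2 := by exact_mod_cast nat_frob (K := K) (p := p) 2

lemma three_frob : (3:K)^p = 3 := by exact_mod_cast nat_frob (K := K) (p := p) 3

lemma ns_fr {a : K} (ha : a^p = a) {x y : K} (h : (Ea a).Nonsingular x y) : (Ea a).Nonsingular (x^p) (y^p) := by
  rw [ns_iff] at h ⊢
  obtain ⟨h1, h2⟩ := h
  have e1 : (x^p)^3 + a * x^p = (x^3 + a*x)^p := by
    rw [add_pow_char, mul_pow, ha, ← pow_mul, ← pow_mul, mul_comm p 3]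
  refine ⟨by rw [e1, ← h1, ← pow_mul, ← pow_mul, mul_comm p 2], ?_⟩
  rcases h2 with h | h
  · left
    have : 3*(x^p)^2 + a = (3*x^2 + a)^p := by
      rw [add_pow_char, mul_pow, ha, three_frob, ← pow_mul, ← pow_mul, mul_comm p 2]
    rw [this]; exact pow_ne_zero p h
  · right
    have : 2*y^p = (2*y)^p := by rw [mul_pow, two_frob]
    rw [this]; exact pow_ne_zero p h

def fr {a : K} (ha : a^p = a) : (Ea a).Point → (Ea a).Point
  | .zero => .zero
  | .some x y h => .some (x^p) (y^p) (ns_fr ha h)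

lemma fr_zero {a : K} (ha : a^p = a) : fr ha (0 : (Ea a).Point) = 0 := rfl

lemma fr_some {a : K} (ha : a^p = a) {x y : K} (h : (Ea a).Nonsingular x y) :
    fr ha (Point.some x y h) = Point.some (x^p) (y^p) (ns_fr ha h) := rfl

lemma fr_add {a : K} (ha : a^p = a) (hodd : Odd p) (P Q : (Ea a).Point) : fr ha (P + Q) = fr ha P + fr ha Q := by
  have hneg : ∀ z : K, (-z)^p = -z^p := fun z => hodd.neg_pow z
  rcases P with _ | ⟨x₁, y₁, h₁⟩
  · change fr ha (0 + Q) = fr ha 0 + fr ha Q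
    rw [zero_add, fr_zero, zero_add]
  rcases Q with _ | ⟨x₂, y₂, h₂⟩
  · change fr ha (Point.some x₁ y₁ h₁ + 0) = fr ha (Point.some x₁ y₁ h₁) + fr ha 0
    rw [add_zero, fr_zero, add_zero]
  by_cases hxy : x₁ = x₂ ∧ y₁ = -y₂
  · rw [add_inv a hxy.1 hxy.2, fr_zero, fr_some, fr_some, add_inv a (by rw [hxy.1]) (by rw [hxy.2, hneg])]
  · obtain ⟨l, x₃, y₃, h₃, hl, hx, hy, e⟩ := add_form a h₁ h₂ hxy
    rw [e, fr_some, fr_some, fr_some]
    symm
    apply add_pt a (l := l^p)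
    · rintro ⟨h, h'⟩
      apply hxy
      refine ⟨frob_inj h, ?_⟩
      rw [← hneg] at h'
      exact frob_inj h'
    · rw [hl]
      by_cases hx12 : x₁ = x₂
      · have hy12 : y₁ ≠ -y₂ := fun h => hxy ⟨hx12, h⟩
        rw [slope_eq a hx12 hy12, slope_eq a (by rw [hx12]) (by
          rw [← hneg]; intro h; exact hy12 (frob_inj h))]
        rw [div_pow, add_pow_char, mul_pow, mul_pow, ha, three_frob, two_frob, ← pow_mul, ← pow_mul, mul_comm p 2]
      · rw [slope_ne a hx12, slope_ne a (fun h => hx12 (frob_inj h)), div_pow, sub_pow_char, sub_pow_char]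
    · rw [hx, sub_pow_char, sub_pow_char, ← pow_mul, ← pow_mul, mul_comm p 2]
    · rw [hy, hneg, add_pow_char, mul_pow, sub_pow_char]

/-- the endomorphism `Frobenius - 1 - i` -/
def theta {a t : K} (ha : a^p = a) (hodd : Odd p) (ht : t^2 = -1) : (Ea a).Point →+ (Ea a).Point :=
  AddMonoidHom.mk' (fr ha) (fr_add ha hodd) - (AddMonoidHom.id _ + AddMonoidHom.mk' (im ht) (im_add ht))

lemma mem_ker {a t : K} (ha : a^p = a) (hodd : Odd p) (ht : t^2 = -1) (P : (Ea a).Point) :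
    P ∈ (theta ha hodd ht).ker ↔ fr ha P = P + im ht P := by
  rw [AddMonoidHom.mem_ker]
  unfold theta
  rw [AddMonoidHom.sub_apply, AddMonoidHom.add_apply, sub_eq_zero]
  rfl

omit [CharP K p] hp in
/-- the coordinates of `P + iP` -/
lemma one_im {a t : K} (h2 : (2:K) ≠ 0) (ht : t^2 = -1) {x y : K} (h : (Ea a).Nonsingular x y) (hx : x ≠ 0) :
    ∃ h₃ : (Ea a).Nonsingular (((1-t)*y/(2*x))^2) (-(((1-t)*y/(2*x))*(((1-t)*y/(2*x))^2 - x) + y)),
      Point.some x y h + im ht (Point.some x y h) = Point.some _ _ h₃ := by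
  have hne : x ≠ -x := by
    intro hh
    have : 2*x = 0 := by linear_combination hh
    rcases mul_eq_zero.mp this with h' | h'
    · exact h2 h'
    · exact hx h'
  rw [im_some]
  obtain ⟨l, x₃, y₃, h₃, hl, hx3, hy3, e⟩ := add_form a h (ns_im ht h) (fun hh => hne hh.1)
  rw [slope_ne a hne] at hl
  have hl' : l = (1-t)*y/(2*x) := by
    rw [hl, show y - t*y = (1-t)*y by ring, show x - -x = 2*x by ring]
  rw [← hl']
  have e1 : x₃ = l^2 := by rw [hx3]; ring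
  subst e1
  subst hy3
  exact ⟨h₃, e⟩

omit [CharP K p] hp in
/-- order three -/
lemma triple_zero {a x y : K} (h : (Ea a).Nonsingular x y) (hy : 2*y ≠ 0) (hl : (3*x^2+a)^2 = 12*x*y^2) :
    (3:ℕ) • Point.some x y h = 0 := by
  have hyy : y ≠ -y := by
    intro hh; apply hy; linear_combination hh
  have e : Point.some x y h + Point.some x y h = -Point.some x y h := by
    rw [Point.neg_some]
    obtain ⟨l, x₃, y₃, h₃, hl', hx3, hy3, e⟩ := add_form a h h (fun hh => hyy hh.2)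
    rw [e]
    rw [slope_eq a rfl hyy] at hl'
    have e1 : l^2 = 3*x := by
      rw [hl', div_pow, hl, div_eq_iff (pow_ne_zero 2 hy)]; ring
    have e2 : x₃ = x := by rw [hx3, e1]; ring
    simp only [Point.some.injEq]
    refine ⟨e2, ?_⟩
    rw [negY_eq, hy3, e2]; ring
  rw [show (3:ℕ) = 2 + 1 by norm_num, add_nsmul, two_nsmul, one_nsmul, e, neg_add_cancel]

end

end Pool.Agent.R856.DC
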