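import Pool.Agent.R856.DC4
import Pool.Agent.R856.DC5

set_option autoImplicit false

/-!
The kernel of `Frobenius - 1 - i` on `y^2 = x^3 - 4 A x`.
-/

namespace Pool.Agent.R856.DC

open Finset WeierstrassCurve WeierstrassCurve.Affine

noncomputable section

variable {K : Type*} [Field K] [DecidableEq K] [IsAlgClosed K] {p : ℕ} [hp : Fact p.Prime] [CharP K p] {j : ℕ}

omit [IsAlgClosed K] in
lemma four_frob : (4:K)^p = 4 := by exact_mod_cast nat_frob (K := K) (p := p) 4

omit [IsAlgClosed K] in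
lemma a_frob {A : K} (hodd : Odd p) (hAp : A^p = A) : (-4*A)^p = -4*A := by
  rw [mul_pow, hAp, hodd.neg_pow, four_frob]

omit [IsAlgClosed K] [CharP K p] in
lemma w_facts (h2 : (2:K) ≠ 0) (hodd : Odd p) {w : K} (hw : w ∈ SS K p) (hw1 : w ≠ 1) :
    w ≠ 0 ∧ w + 1 ≠ 0 ∧ w^2 - 1 ≠ 0 := by
  rw [mem_SS] at hw
  have h0 : w ≠ 0 := by
    intro h
    rw [h, zero_pow (by omega)] at hw
    apply h2; linear_combination (-1) * hw
  have h1 : w + 1 ≠ 0 := by
    intro h
    have hm : w = -1 := by linear_combination h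
    rw [hm] at hw
    have ho : (-1:K)^(p+2) = -1 := by
      obtain ⟨m, hm⟩ := hodd
      exact Odd.neg_one_pow ⟨m+1, by omega⟩
    rw [ho] at hw
    apply h2; linear_combination (-1) * hw
  refine ⟨h0, h1, ?_⟩
  intro h
  have : (w-1)*(w+1) = 0 := by linear_combination h
  rcases mul_eq_zero.mp this with h' | h'
  · exact hw1 (sub_eq_zero.mp h')
  · exact h1 h'

/-- from `(w,z)` to a point of the kernel -/
lemma fwd (h2 : (2:K) ≠ 0) (hj : 4*j+1 = p) (hodd : Odd p) {A t : K} (hA : A ≠ 0) (hAp : A^p = A) (ht : t^2 = -1)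
    {w z : K} (hw : w ∈ SS K p) (hw1 : w ≠ 1) (hu : uw A t j w = 1) (hz : z^4 = (w^2-1)/A) :
    ∃ h : (Ea (-4*A)).Nonsingular (2*(w+1)/z^2) (4*(w+1)/z^3),
      Point.some _ _ h ∈ (theta (a_frob hodd hAp) hodd ht).ker := by
  obtain ⟨w0, w1, w2⟩ := w_facts h2 hodd hw hw1
  rw [mem_SS] at hw
  have z0 : z ≠ 0 := by
    intro h
    rw [h, zero_pow (by norm_num)] at hz
    have := hz.symm
    rw [div_eq_zero_iff] at this
    rcases this with h | h
    · exact w2 h
    · exact hA h
  have hAz : A * z^4 = w^2 - 1 := by rw [hz]; field_simp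
  have t1 := one_t_ne h2 ht
  have h4 := four_ne h2
  have hZ : z^p = (1+t)*z/w := by
    unfold uw at hu
    rw [← hz, ← pow_mul, div_eq_one_iff_eq t1] at hu
    rw [eq_div_iff w0, ← hj, pow_succ]
    linear_combination z * hu
  have hP : w^p = (2-w^2)/w^2 := by
    rw [eq_div_iff (pow_ne_zero 2 w0), ← pow_add, hw]
  have hns : (Ea (-4*A)).Nonsingular (2*(w+1)/z^2) (4*(w+1)/z^3) := by
    rw [ns_iff]
    constructor
    · field_simp
      linear_combination 8 * hAz
    · right
      have : 2*(4*(w+1)/z^3) = 2*4*(w+1)/z^3 := by ring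
      rw [this]
      exact div_ne_zero (mul_ne_zero (mul_ne_zero h2 h4) w1) (pow_ne_zero 3 z0)
  refine ⟨hns, ?_⟩
  rw [mem_ker]
  have hx0 : 2*(w+1)/z^2 ≠ 0 := div_ne_zero (mul_ne_zero h2 w1) (pow_ne_zero 2 z0)
  obtain ⟨h₃, e⟩ := one_im h2 ht hns hx0
  rw [e, fr_some]
  have hl : (1-t)*(4*(w+1)/z^3)/(2*(2*(w+1)/z^2)) = (1-t)/z := by
    field_simp
    ring
  have t3 : (1+t)^3 = -2*(1-t) := by linear_combination (t+3) * ht
  have t1' : 1 - t ≠ 0 := by
    intro h
    have : (1-t)*(1+t) = 2 := by linear_combination (-1) * ht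
    rw [h, zero_mul] at this
    exact h2 this.symm
  simp only [Point.some.injEq]
  rw [hl]
  constructor
  · rw [div_pow, mul_pow, add_pow_char, one_pow, two_frob, hP, ← pow_mul, mul_comm 2 p, pow_mul, hZ]
    field_simp
    linear_combination (3 - t^2) * ht
  · rw [div_pow, mul_pow, add_pow_char, one_pow, four_frob, hP, ← pow_mul, mul_comm 3 p, pow_mul, hZ]
    have key : 8*w = -(1+t)^3 * ((1-t)^3 + 2*(1+t)*(w+1)) := by
      linear_combination (-((1-t^2)^2 + 2*(1-t^2) + 4) + 2*(w+1)*(t^2+4*t+5)) * ht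
    have L : 4*((2-w^2)/w^2+1)/((1+t)*z/w)^3 = 8*w/((1+t)^3*z^3) := by field_simp; ring
    have R : -((1-t)/z*(((1-t)/z)^2 - 2*(w+1)/z^2) + 4*(w+1)/z^3) = -((1-t)^3 + 2*(1+t)*(w+1))/z^3 := by
      field_simp; ring
    rw [L, R, div_eq_div_iff (mul_ne_zero (pow_ne_zero 3 t1) (pow_ne_zero 3 z0)) (pow_ne_zero 3 z0)]
    linear_combination z^3 * key

omit [IsAlgClosed K] in
/-- from a point of the kernel to `(w,z)` -/
lemma bwd (h2 : (2:K) ≠ 0) (hj : 4*j+1 = p) (hodd : Odd p) {A t : K} (hA : A ≠ 0) (hAp : A^p = A) (ht : t^2 = -1)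
    {x y : K} (h : (Ea (-4*A)).Nonsingular x y) (hmem : Point.some x y h ∈ (theta (a_frob hodd hAp) hodd ht).ker) :
    ∃ w z : K, w ∈ SS K p ∧ w ≠ 1 ∧ uw A t j w = 1 ∧ z^4 = (w^2-1)/A ∧ x = 2*(w+1)/z^2 ∧ y = 4*(w+1)/z^3 := by
  rw [mem_ker] at hmem
  have h' := (ns_iff _ _ _).mp h
  obtain ⟨heq, hnd⟩ := h'
  have hp0 : p ≠ 0 := hp.out.ne_zero
  have t1 := one_t_ne h2 ht
  have t1' : 1 - t ≠ 0 := by
    intro h
    have : (1-t)*(1+t) = 2 := by linear_combination (-1) * ht
    rw [h, zero_mul] at this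
    exact h2 this.symm
  have ht0 : t ≠ 0 := by intro h0; rw [h0] at ht; norm_num at ht
  have hx0 : x ≠ 0 := by
    intro hx
    subst hx
    have hy0 : y = 0 := by
      have : y^2 = 0 := by rw [heq]; ring
      exact pow_eq_zero_iff (two_ne_zero) |>.mp this
    subst hy0
    have e1 : Point.some 0 0 h + im ht (Point.some 0 0 h) = 0 := by
      rw [im_some]
      exact add_inv _ (by ring) (by ring)
    rw [e1, fr_some] at hmem
    exact Point.some_ne_zero _ hmem
  obtain ⟨h₃, e⟩ := one_im h2 ht h hx0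
  rw [e, fr_some] at hmem
  simp only [Point.some.injEq] at hmem
  obtain ⟨m1, m2⟩ := hmem
  have hy0 : y ≠ 0 := by
    intro hy
    rw [hy, mul_zero, zero_div, zero_pow (by norm_num)] at m1
    exact hx0 (pow_eq_zero_iff hp0 |>.mp m1)
  have hl : (1-t)*y/(2*x) = (1-t)/(2*x/y) := by field_simp
  rw [hl] at m1 m2
  -- the new coordinates
  obtain ⟨z, hz⟩ : ∃ z, z = 2*x/y := ⟨_, rfl⟩
  obtain ⟨w, hw⟩ : ∃ w, w = 2*x^3/y^2 - 1 := ⟨_, rfl⟩
  have z0 : z ≠ 0 := by rw [hz]; exact div_ne_zero (mul_ne_zero h2 hx0) hy0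
  have hx : x = 2*(w+1)/z^2 := by rw [hw, hz]; field_simp; ring
  have hy : y = 4*(w+1)/z^3 := by rw [hw, hz]; field_simp; ring
  have hwp : w + 1 ≠ 0 := by
    intro h0; rw [h0] at hx; apply hx0; rw [hx]; ring
  have hAz : A * z^4 = w^2 - 1 := by
    rw [hz, hw]
    field_simp
    linear_combination (4*x^3) * heq
  have hz4 : z^4 = (w^2-1)/A := by rw [← hAz]; field_simp
  have hw1 : w ≠ 1 := by
    intro h1
    rw [h1, one_pow, sub_self] at hAz
    exact mul_ne_zero hA (pow_ne_zero 4 z0) hAz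
  rw [← hz] at m1 m2
  have m1' : x^p = -2*t/z^2 := by
    rw [m1, div_pow]
    congr 1
    linear_combination ht
  have m2' : y^p = -(2*(1+t)*w)/z^3 := by
    have e1 : -((1-t)/z*(((1-t)/z)^2 - x) + y) = -(2*(1+t)*w)/z^3 := by
      rw [hx, hy]
      field_simp
      linear_combination (t - 3) * ht
    rw [m2, e1]
  have w0 : w ≠ 0 := by
    intro h0
    rw [h0, mul_zero, neg_zero, zero_div] at m2'
    exact hy0 (pow_eq_zero_iff hp0 |>.mp m2')
  have hzp : z^p = (1+t)*z/w := by
    rw [hz, div_pow, mul_pow, two_frob, m1', m2', ← hz]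
    field_simp
    linear_combination (-1) * ht
  have hz4j : z^(4*j) = (1+t)/w := by
    apply mul_right_cancel₀ z0
    rw [← pow_succ, hj, hzp]; field_simp
  have hu : uw A t j w = 1 := by
    unfold uw
    rw [← hz4, ← pow_mul, hz4j]
    field_simp
  have hwpp : w^p = 2/w^2 - 1 := by
    have e1 : (w+1)^p = 2/w^2 := by
      have e2 : w + 1 = x*z^2/2 := by rw [hx]; field_simp
      rw [e2, div_pow, mul_pow, two_frob, ← pow_mul, mul_comm 2 p, pow_mul, m1', hzp]
      field_simp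
      linear_combination (-(t+2)) * ht
    rw [add_pow_char, one_pow] at e1
    linear_combination e1
  have hwS : w ∈ SS K p := by
    rw [mem_SS, pow_add, hwpp]
    field_simp
  exact ⟨w, z, hwS, hw1, hu, hz4, hx, hy⟩

/-- a fourth root -/
def rt (c : K) : K := (IsAlgClosed.exists_pow_nat_eq c (n := 4) (by norm_num)).choose

omit [DecidableEq K] in
lemma rt_pow (c : K) : (rt c)^4 = c := (IsAlgClosed.exists_pow_nat_eq c (n := 4) (by norm_num)).choose_spec

omit [IsAlgClosed K] [DecidableEq K] in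
lemma t_pow_inj (h2 : (2:K) ≠ 0) {t : K} (ht : t^2 = -1) {a b : Fin 4} (h : t^(a:ℕ) = t^(b:ℕ)) : a = b := by
  have t0 : t ≠ 0 := by intro h0; rw [h0] at ht; norm_num at ht
  have n1 : (1:K) ≠ -1 := by intro h; apply h2; linear_combination h
  have n2 : t ≠ 1 := by
    intro h; rw [h] at ht; exact n1 (by rw [← ht]; ring)
  have n3 : t ≠ -1 := by
    intro h; rw [h] at ht; exact n1 (by rw [← ht]; ring)
  have n4 : t ≠ -t := by
    intro h
    have : 2*t = 0 := by linear_combination h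
    rcases mul_eq_zero.mp this with h | h
    · exact h2 h
    · exact t0 h
  have e3 : t^3 = -t := by linear_combination t * ht
  have n5 : (1:K) ≠ -t := by intro h; apply n3; linear_combination h
  have n6 : (-1:K) ≠ -t := by intro h; apply n2; linear_combination h
  have n7 : (-1:K) ≠ t := fun h => n3 h.symm
  have n8 : (1:K) ≠ t := fun h => n2 h.symm
  have p0 : t^0 = 1 := pow_zero t
  have p1 : t^1 = t := pow_one t
  obtain ⟨a, ha⟩ := a
  obtain ⟨b, hb⟩ := b
  simp only at h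
  rw [Fin.mk.injEq]
  interval_cases a <;> interval_cases b <;> simp only [p0, p1, ht, e3] at h
  · rfl
  · exact absurd h n8
  · exact absurd h n1
  · exact absurd h n5
  · exact absurd h n2
  · rfl
  · exact absurd h n3
  · exact absurd h n4
  · exact absurd h.symm n1
  · exact absurd h n7
  · rfl
  · exact absurd h n6
  · exact absurd h.symm n5
  · exact absurd h.symm n4
  · exact absurd h.symm n6
  · rfl

omit [IsAlgClosed K] [DecidableEq K] in
lemma tk4 {t : K} (ht : t^2 = -1) (k : ℕ) : (t^k)^4 = 1 := by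
  have ht4 : t^4 = 1 := by linear_combination (t^2-1)*ht
  rw [← pow_mul, mul_comm, pow_mul, ht4, one_pow]

omit [IsAlgClosed K] [DecidableEq K] in
lemma t_pow_surj {t : K} (ht : t^2 = -1) {u : K} (hu : u^4 = 1) : ∃ a : Fin 4, u = t^(a:ℕ) := by
  have e3 : t^3 = -t := by linear_combination t * ht
  have : (u-1)*(u+1)*((u-t)*(u+t)) = 0 := by
    have e : (u-t)*(u+t) = u^2 + 1 := by linear_combination (-1) * ht
    rw [e]; linear_combination hu
  rcases mul_eq_zero.mp this with h | h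
  · rcases mul_eq_zero.mp h with h | h
    · exact ⟨0, by simp; linear_combination h⟩
    · exact ⟨2, by
        change u = t^2
        rw [ht]; linear_combination h⟩
  · rcases mul_eq_zero.mp h with h | h
    · exact ⟨1, by
        change u = t^1
        rw [pow_one]; linear_combination h⟩
    · exact ⟨3, by
        change u = t^3
        rw [e3]; linear_combination h⟩

def UU (p : ℕ) [Fact p.Prime] (A t : K) (j : ℕ) : Finset K := ((SS K p).erase 1).filter (fun w => uw A t j w = 1)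

theorem card_ker (h2 : (2:K) ≠ 0) (hj : 4*j+1 = p) (hodd : Odd p) {A t : K} (hA : A ≠ 0) (hAp : A^p = A) (ht : t^2 = -1) :
    Nat.card (theta (a_frob hodd hAp) hodd ht).ker = 1 + 4 * N0 p A t j := by
  set H := (theta (a_frob hodd hAp) hodd ht).ker with hH
  let e1 := nonsingularPointEquivSubtype (W' := Ea (-4*A)) (p := fun P => P ∈ H) H.zero_mem
  have ht0 : t ≠ 0 := by intro h0; rw [h0] at ht; norm_num at ht
  let F : (UU p A t j) × Fin 4 → {xy : K × K // ∃ h : (Ea (-4*A)).Nonsingular xy.1 xy.2, Point.some _ _ h ∈ H} :=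
    fun q => ⟨(2*((q.1:K)+1)/(rt (((q.1:K)^2-1)/A) * t^(q.2:ℕ))^2, 4*((q.1:K)+1)/(rt (((q.1:K)^2-1)/A) * t^(q.2:ℕ))^3), by
      have hq := q.1.2
      unfold UU at hq
      rw [mem_filter, mem_erase] at hq
      apply fwd h2 hj hodd hA hAp ht hq.1.2 hq.1.1 hq.2
      rw [mul_pow, rt_pow, tk4 ht, mul_one]⟩
  have hbij : Function.Bijective F := by
    constructor
    · rintro ⟨⟨w, hw⟩, k⟩ ⟨⟨w', hw'⟩, k'⟩ hF
      simp only [F, Subtype.mk.injEq, Prod.mk.injEq] at hF
      obtain ⟨hx, hy⟩ := hF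
      unfold UU at hw hw'
      rw [mem_filter, mem_erase] at hw hw'
      obtain ⟨w0, w1, w2⟩ := w_facts h2 hodd hw.1.2 hw.1.1
      obtain ⟨w0', w1', w2'⟩ := w_facts h2 hodd hw'.1.2 hw'.1.1
      have zz0 : ∀ v : K, v^2 - 1 ≠ 0 → ∀ k : Fin 4, rt ((v^2-1)/A) * t^(k:ℕ) ≠ 0 := by
        intro v hv k
        apply mul_ne_zero _ (pow_ne_zero _ ht0)
        intro h0
        have := rt_pow ((v^2-1)/A)
        rw [h0, zero_pow (by norm_num)] at this
        have h3 := this.symm
        rw [div_eq_zero_iff] at h3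
        rcases h3 with h | h
        · exact hv h
        · exact hA h
      have z4 : ∀ v : K, ∀ k : Fin 4, (rt ((v^2-1)/A) * t^(k:ℕ))^4 = (v^2-1)/A := by
        intro v k
        rw [mul_pow, rt_pow, tk4 ht, mul_one]
      have g0 := zz0 w w2 k
      have g0' := zz0 w' w2' k'
      have g4 := z4 w k
      have g4' := z4 w' k'
      generalize hz : rt ((w^2-1)/A) * t^(k:ℕ) = z at *
      generalize hz' : rt ((w'^2-1)/A) * t^(k':ℕ) = z' at *
      have hzz : z = z' := by
        have h4 := four_ne h2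
        have a1 : z = 2*(2*(w+1)/z^2)/(4*(w+1)/z^3) := by
          rw [eq_div_iff (div_ne_zero (mul_ne_zero h4 w1) (pow_ne_zero 3 g0))]
          field_simp; ring
        have a2 : z' = 2*(2*(w'+1)/z'^2)/(4*(w'+1)/z'^3) := by
          rw [eq_div_iff (div_ne_zero (mul_ne_zero h4 w1') (pow_ne_zero 3 g0'))]
          field_simp; ring
        rw [a1, a2, hx, hy]
      subst hzz
      have hww : w = w' := by
        have z2 : z^2 ≠ 0 := pow_ne_zero 2 g0
        rw [div_left_inj' z2] at hx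
        have := mul_left_cancel₀ h2 hx
        linear_combination this
      subst hww
      have hk : t^(k:ℕ) = t^(k':ℕ) := by
        have : rt ((w^2-1)/A) ≠ 0 := by
          intro h; rw [h, zero_mul] at hz; exact g0 hz.symm
        exact mul_left_cancel₀ this (hz.trans hz'.symm)
      have := t_pow_inj h2 ht hk
      subst this
      rfl
    · rintro ⟨⟨x, y⟩, h, hmem⟩
      obtain ⟨w, z, hw, hw1, hu, hz, hx, hy⟩ := bwd h2 hj hodd hA hAp ht h hmem
      have hwU : w ∈ UU p A t j := by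
        unfold UU; rw [mem_filter, mem_erase]; exact ⟨⟨hw1, hw⟩, hu⟩
      obtain ⟨w0, w1, w2⟩ := w_facts h2 hodd hw hw1
      have r0 : rt ((w^2-1)/A) ≠ 0 := by
        intro h0
        have := rt_pow ((w^2-1)/A)
        rw [h0, zero_pow (by norm_num)] at this
        have h3 := this.symm
        rw [div_eq_zero_iff] at h3
        rcases h3 with h | h
        · exact w2 h
        · exact hA h
      have hq : (z / rt ((w^2-1)/A))^4 = 1 := by
        rw [div_pow, rt_pow, hz, div_self (div_ne_zero w2 hA)]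
      obtain ⟨k, hk⟩ := t_pow_surj ht hq
      refine ⟨(⟨w, hwU⟩, k), ?_⟩
      have hzk : rt ((w^2-1)/A) * t^(k:ℕ) = z := by
        rw [← hk]; field_simp
      simp only [F, Subtype.mk.injEq, Prod.mk.injEq]
      rw [hzk]
      exact ⟨hx.symm, hy.symm⟩
  have hcardF : Nat.card {xy : K × K // ∃ h : (Ea (-4*A)).Nonsingular xy.1 xy.2, Point.some _ _ h ∈ H} = 4 * N0 p A t j := by
    rw [← Nat.card_congr (Equiv.ofBijective F hbij), Nat.card_prod, Nat.card_eq_fintype_card, Nat.card_eq_fintype_card,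
      Fintype.card_coe, Fintype.card_fin, mul_comm]
    rfl
  have hfin : Finite {xy : K × K // ∃ h : (Ea (-4*A)).Nonsingular xy.1 xy.2, Point.some _ _ h ∈ H} :=
    Finite.of_equiv _ (Equiv.ofBijective F hbij)
  have hc : Nat.card H = Nat.card (Option {xy : K × K // ∃ h : (Ea (-4*A)).Nonsingular xy.1 xy.2, Point.some _ _ h ∈ H}) :=
    Nat.card_congr e1
  rw [hc, Finite.card_option, hcardF]; ring

end

end Pool.Agent.R856.DC
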