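import Pool.Agent.R856.DC3
import Pool.Agent.R856.DC6

set_option autoImplicit false

/-!
The case `p = 12k+5`.
-/

namespace Pool.Agent.R856.DC

open Finset WeierstrassCurve WeierstrassCurve.Affine

noncomputable section

lemma z3a : ¬ IsSquare ((2:ℕ) : ZMod 3) := by decide

/-- three is not a square -/
lemma three_nonsq {p : ℕ} [hp : Fact p.Prime] {k : ℕ} (hk : 12*k+5 = p) : ¬ IsSquare (3 : ZMod p) := by
  have h := @ZMod.exists_sq_eq_prime_iff_of_mod_four_eq_one p 3 _ ⟨Nat.prime_three⟩ (by omega) (by norm_num)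
  have h3 : ((3:ℕ) : ZMod p) = 3 := by norm_cast
  rw [h3] at h
  rw [h]
  have e : ((p:ℕ) : ZMod 3) = ((2:ℕ) : ZMod 3) := by
    rw [ZMod.natCast_eq_natCast_iff]
    unfold Nat.ModEq
    omega
  rw [e]
  exact z3a

lemma r_frob {K : Type*} [Field K] {p : ℕ} [hp : Fact p.Prime] [CharP K p] {k : ℕ} (hk : 12*k+5 = p)
    {r : K} (hr : r^2 = 3) : r^p = -r := by
  have h1 : (3 : ZMod p)^(p/2) = -1 := by
    have h3 : (3 : ZMod p) ≠ 0 := by
      intro h
      apply three_nonsq hk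
      rw [h]; exact ⟨0, by simp⟩
    have := ZMod.euler_criterion p h3
    rcases ZMod.pow_div_two_eq_neg_one_or_one p h3 with h | h
    · exact absurd (this.mpr h) (three_nonsq hk)
    · exact h
  have h2 : (3 : K)^(p/2) = -1 := by
    have := congrArg (ZMod.castHom (dvd_refl p) K) h1
    rw [map_pow, map_neg, map_one, map_ofNat] at this
    exact this
  have e : r^p = r * (r^2)^(p/2) := by
    rw [← pow_mul, ← pow_succ']; congr 1; omega
  rw [e, hr, h2]; ring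

lemma i_frob {K : Type*} [Field K] {p j : ℕ} (hj : 4*j+1 = p) {t : K} (ht : t^2 = -1) : t^p = t := by
  have e : t^p = t * ((t^2)^2)^j := by
    rw [← pow_mul, ← pow_mul, ← pow_succ']; congr 1; omega
  rw [e, ht]; simp

lemma unit_r {K : Type*} [Field K] {r : K} (hr : r^2 = 3) : (2+r)*(2-r) = 1 := by linear_combination (-1)*hr

lemma five_aux (K : Type*) [Field K] [DecidableEq K] [IsAlgClosed K] {p : ℕ} [hp : Fact p.Prime] [CharP K p]
    {k : ℕ} (hk : 12*k+5 = p) :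
    ∃ X a b : ℤ, (p:ℤ) = a^2 + b^2 ∧ X % 3 = 1 ∧ -((p:ℤ)+1) ≤ 2*X ∧ 2*X ≤ p+1 ∧ (p:ℤ) ∣ X^4 + 4*a^4 ∧
      ((X:ℤ) : ZMod p) = (-1)^k * (((4*k+1).choose k : ℕ) : ZMod p) := by
  obtain ⟨j, hjk⟩ : ∃ j, j = 3*k+1 := ⟨_, rfl⟩
  have hj : 4*j+1 = p := by omega
  have hodd : Odd p := ⟨2*j, by omega⟩
  have hj1 : 1 ≤ j := by omega
  obtain ⟨a, b, hab, hC⟩ := gauss hj hj1
  have cast_ne : ∀ n : ℕ, 0 < n → n < p → ((n:ℕ):K) ≠ 0 := by
    intro n h1 h2 h
    rw [CharP.cast_eq_zero_iff K p] at h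
    have := Nat.le_of_dvd h1 h
    omega
  have h2 : (2:K) ≠ 0 := by exact_mod_cast cast_ne 2 (by norm_num) (by omega)
  have h3 : (3:K) ≠ 0 := by exact_mod_cast cast_ne 3 (by norm_num) (by omega)
  have h4 := four_ne h2
  obtain ⟨r, hr⟩ := IsAlgClosed.exists_pow_nat_eq (3:K) (n := 2) (by norm_num)
  obtain ⟨t, ht⟩ := IsAlgClosed.exists_pow_nat_eq (-1:K) (n := 2) (by norm_num)
  have hrp := r_frob hk hr
  have htp := i_frob hj ht
  have t1 := one_t_ne h2 ht
  have t0 : t ≠ 0 := by intro h0; rw [h0] at ht; norm_num at ht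
  have hr0 : r ≠ 0 := by intro h; rw [h] at hr; apply h3; rw [← hr]; ring
  have r1 : 1 + r ≠ 0 := by
    intro h
    have : (1+r)*(1-r) = -2 := by linear_combination (-1)*hr
    rw [h, zero_mul] at this
    apply h2; linear_combination this
  have ru := unit_r hr
  have r2 : 2 + r ≠ 0 := left_ne_zero_of_mul_eq_one ru
  have r3 : 3 + 2*r ≠ 0 := by
    intro h
    have : (3+2*r)*(3-2*r) = -3 := by linear_combination (-4)*hr
    rw [h, zero_mul] at this
    apply h3; linear_combination this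
  obtain ⟨ζ, hζ⟩ := IsAlgClosed.exists_pow_nat_eq ((1+r)/(1+t)) (n := 4*j) (by omega)
  have hζ0 : ζ ≠ 0 := by
    intro h
    rw [h, zero_pow (by omega)] at hζ
    have := hζ.symm
    rw [div_eq_zero_iff] at this
    rcases this with h | h
    · exact r1 h
    · exact t1 h
  have hζp : ζ^p = (1+r)/(1+t)*ζ := by
    have : ζ^p = ζ^(4*j+1) := by rw [hj]
    rw [this, pow_succ, hζ]
  obtain ⟨A, hAdef⟩ : ∃ A, A = kap r * ζ^4 := ⟨_, rfl⟩
  have hkap : kap r = -4*(3+2*r) := rfl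
  have hA : A ≠ 0 := by
    rw [hAdef, hkap]
    exact mul_ne_zero (mul_ne_zero (neg_ne_zero.mpr h4) r3) (pow_ne_zero 4 hζ0)
  have h4t := t4 ht
  have hAp : A^p = A := by
    rw [hAdef, mul_pow, ← pow_mul, mul_comm 4 p, pow_mul, hζp, hkap, mul_pow, hodd.neg_pow, four_frob, add_pow_char, three_frob,
      mul_pow, two_frob, hrp, mul_pow, div_pow, h4t]
    have key : (3-2*r)*(1+r)^4 = -4*(3+2*r) := by linear_combination (-2*r^3-5*r^2-6*r-5)*hr
    have e : (-4:K)*(3-2*r)*((1+r)^4/(-4)*ζ^4) = (3-2*r)*(1+r)^4*ζ^4 := by field_simp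
    linear_combination e + ζ^4*key
  have hns : (-4:K) ≠ 0 := neg_ne_zero.mpr h4
  have hw : (1+r) ∈ SS K p := by
    rw [mem_SS, pow_add, add_pow_char, one_pow, hrp]
    linear_combination (-r) * hr
  have hw1 : 1 + r ≠ 1 := by
    intro h; apply hr0; linear_combination h
  have hq : ((1+r)^2-1)/A = 1/(-4*ζ^4) := by
    rw [hAdef, hkap, div_eq_div_iff (mul_ne_zero (mul_ne_zero hns r3) (pow_ne_zero 4 hζ0)) (mul_ne_zero hns (pow_ne_zero 4 hζ0))]
    linear_combination (-4*ζ^4) * hr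
  have h4j : (-4:K)^j = 1 := by
    rw [← h4t, ← pow_mul]
    apply mul_right_cancel₀ t1
    rw [← pow_succ, hj, add_pow_char, one_pow, htp, one_mul]
  have hu : uw A t j (1+r) = 1 := by
    unfold uw
    rw [hq, div_pow, one_pow, mul_pow, h4j, one_mul, ← pow_mul, hζ]
    field_simp
  have hz : (1/((1+t)*ζ))^4 = ((1+r)^2-1)/A := by
    rw [hq, div_pow, one_pow, mul_pow, h4t]
  obtain ⟨hP, hmem⟩ := fwd h2 hj hodd hA hAp ht hw hw1 hu hz
  have z0 : 1/((1+t)*ζ) ≠ 0 := one_div_ne_zero (mul_ne_zero t1 hζ0)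
  have ex : 2*((1+r)+1)/(1/((1+t)*ζ))^2 = 4*t*(2+r)*ζ^2 := by
    field_simp
    linear_combination (4+2*r) * ht
  have ey : 4*((1+r)+1)/(1/((1+t)*ζ))^3 = 8*t*(1+t)*(2+r)*ζ^3 := by
    field_simp
    linear_combination (8+4*r) * ht
  have h3P := triple_zero hP (by
      rw [ey]
      have h8 : (8:K) ≠ 0 := by
        have : (8:K) = 2*4 := by norm_num
        rw [this]; exact mul_ne_zero h2 h4
      exact mul_ne_zero h2 (mul_ne_zero (mul_ne_zero (mul_ne_zero (mul_ne_zero h8 t0) t1) r2) (pow_ne_zero 3 hζ0)))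
    (by
      have s1 : 3*(4*t*(2+r)*ζ^2)^2 + -4*A = -32*(9+5*r)*ζ^4 := by
        rw [hAdef, hkap]
        linear_combination (48*(2+r)^2*ζ^4)*ht - 48*ζ^4*hr
      have s2 : (8*t*(1+t)*(2+r)*ζ^3)^2 = -128*t*(7+4*r)*ζ^6 := by
        linear_combination 64*ζ^6*(t^2+2*t)*(2+r)^2*ht - 128*ζ^6*t*hr
      rw [ex, ey, s1, s2]
      linear_combination 1024*ζ^8*(6*(14+15*r+4*r^2)*ht + hr))
  have h3card : 3 ∣ 1 + 4 * N0 p A t j := by
    rw [← card_ker h2 hj hodd hA hAp ht]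
    set P : (theta (a_frob hodd hAp) hodd ht).ker := ⟨_, hmem⟩ with hPdef
    have hP3 : (3:ℕ) • P = 0 := by
      apply Subtype.ext
      exact h3P
    have hP0 : P ≠ 0 := by
      intro h
      exact Point.some_ne_zero _ (congrArg Subtype.val h)
    have : Fact (Nat.Prime 3) := ⟨Nat.prime_three⟩
    have ho := addOrderOf_eq_prime hP3 hP0
    have hd := addOrderOf_dvd_natCard P
    rw [ho] at hd
    exact hd
  have hval := N0_val h2 hj hA hAp ht hj1
  have hbd := N0_bound h2 hj hA hAp ht hj1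
  have hAj : A^j = (kap r)^j * ((1+r)/(1+t)) := by
    rw [hAdef, mul_pow, ← pow_mul, hζ]
  have hA4 : A^(4*j) = 1 := by
    apply mul_right_cancel₀ hA
    rw [← pow_succ, hj, hAp, one_mul]
  have hCK : (((2*j).choose j : ℕ) : K) = 2 * ((a:ℤ):K) := by
    have := congrArg (ZMod.castHom (dvd_refl p) K) hC
    rw [map_natCast, map_mul, map_ofNat, map_intCast] at this
    exact this
  have hc5 := case5 (F := K) hk hr
  have hfl := flip (F := K) hj (k := k) (by omega)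
  rw [show 6*k+2 = 2*j by omega, show 3*k+1 = j by omega, show 9*k+3 = 3*j by omega, hfl, show j + k = 4*k+1 by omega] at hc5
  -- `4 N0 = 1 + 2 B`
  have hB : (4:K) * (N0 p A t j : K) = 1 + 2 * ((-1)^k * (((4*k+1).choose k : ℕ) : K)) := by
    rw [hval, hAj]
    have e1 : (1+t) * ((kap r)^j * ((1+r)/(1+t))) = (kap r)^j * (1+r) := by field_simp
    rw [e1]
    linear_combination (1+r) * hc5 + ((-1)^k * (((4*k+1).choose k : ℕ) : K)) * hr
  obtain ⟨N, hN⟩ : ∃ N, N = N0 p A t j := ⟨_, rfl⟩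
  rw [← hN] at hval hbd h3card hB
  have inj : ∀ u : ℤ, ((u:ℤ):K) = 0 → (p:ℤ) ∣ u := fun u hu => (CharP.intCast_eq_zero_iff K p u).mp hu
  have hpK : (p:K) = 0 := CharP.cast_eq_zero K p
  have hjK : (4:K) * (j:K) + 1 = 0 := by
    rw [← hpK, ← hj]; push_cast; ring
  obtain ⟨X, hX⟩ : ∃ X : ℤ, X = 2*(N:ℤ) - (2*j+1) := ⟨_, rfl⟩
  have hXK : ((X:ℤ):K) = (-1)^k * (((4*k+1).choose k : ℕ) : K) := by
    apply mul_left_cancel₀ h2
    rw [hX]; push_cast
    push_cast at hB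
    linear_combination hB - hjK
  have hX4 : ((X:ℤ):K)^4 = -4 * ((a:ℤ):K)^4 := by
    have e : ((X:ℤ):K) = -((1+t) * A^j * ((a:ℤ):K)) := by
      apply mul_left_cancel₀ h2
      rw [hX]; push_cast
      rw [hCK] at hval
      linear_combination hval - hjK
    rw [e]
    have : (-((1+t) * A^j * ((a:ℤ):K)))^4 = (1+t)^4 * A^(4*j) * ((a:ℤ):K)^4 := by ring
    rw [this, h4t, hA4]; ring
  refine ⟨X, a, b, hab, ?_, ?_, ?_, ?_, ?_⟩
  · omega
  · omega
  · omega
  · apply inj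
    push_cast
    linear_combination hX4
  · rw [← sub_eq_zero]
    have h5 : ((X - (-1)^k * (((4*k+1).choose k : ℕ) : ℤ) : ℤ) : K) = 0 := by
      push_cast
      linear_combination hXK
    have h6 := inj _ h5
    rw [← ZMod.intCast_zmod_eq_zero_iff_dvd] at h6
    push_cast at h6
    exact h6

theorem five {p : ℕ} [hp : Fact p.Prime] {k : ℕ} (hk : 12*k+5 = p) :
    ∃ X a b : ℤ, (p:ℤ) = a^2 + b^2 ∧ X % 3 = 1 ∧ -((p:ℤ)+1) ≤ 2*X ∧ 2*X ≤ p+1 ∧ (p:ℤ) ∣ X^4 + 4*a^4 ∧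
      ((X:ℤ) : ZMod p) = (-1)^k * (((4*k+1).choose k : ℕ) : ZMod p) := by
  classical
  have : CharP (AlgebraicClosure (ZMod p)) p :=
    charP_of_injective_algebraMap (algebraMap (ZMod p) (AlgebraicClosure (ZMod p))).injective p
  exact five_aux (AlgebraicClosure (ZMod p)) hk

end

end Pool.Agent.R856.DC
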