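import Pool.Agent.R856.DC7

set_option autoImplicit false

/-!
The case `p = 12k+1`.
-/

namespace Pool.Agent.R856.DC

open Finset WeierstrassCurve WeierstrassCurve.Affine

noncomputable section

variable {p : ℕ} [hp : Fact p.Prime]

lemma z3b : IsSquare ((1:ℕ) : ZMod 3) := by decide

/-- three is a square -/
lemma three_sq {k : ℕ} (hk : 12*k+1 = p) : IsSquare (3 : ZMod p) := by
  have hp1 := hp.out.one_lt
  have hp3 : p ≠ 3 := by omega
  have h := @ZMod.exists_sq_eq_prime_iff_of_mod_four_eq_one p 3 _ ⟨Nat.prime_three⟩ (by omega) (by norm_num)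
  have h3 : ((3:ℕ) : ZMod p) = 3 := by norm_cast
  rw [h3] at h
  rw [h]
  have e : ((p:ℕ) : ZMod 3) = ((1:ℕ) : ZMod 3) := by
    rw [ZMod.natCast_eq_natCast_iff]
    unfold Nat.ModEq
    omega
  rw [e]
  exact z3b

def TT (p : ℕ) [Fact p.Prime] (a : ZMod p) : ℤ := - ∑ x : ZMod p, quadraticChar (ZMod p) (x^3 + a*x)

lemma cnt (hp2 : p ≠ 2) (a : ZMod p) :
    ((univ.filter (fun q : ZMod p × ZMod p => q.2^2 = q.1^3 + a*q.1)).card : ℤ) = p - TT p a := by
  have hF : ringChar (ZMod p) ≠ 2 := by rw [ZMod.ringChar_zmod_n]; exact hp2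
  have e : ∀ c : ZMod p, (∑ y : ZMod p, if y^2 = c then (1:ℤ) else 0) = quadraticChar (ZMod p) c + 1 := by
    intro c
    rw [← quadraticChar_card_sqrts hF c, ← sum_filter, sum_const, nsmul_eq_mul, mul_one]
    congr 2
    ext y
    simp
  rw [card_filter]
  push_cast
  rw [Fintype.sum_prod_type]
  simp only
  rw [sum_congr rfl (fun x _ => e (x^3+a*x)), sum_add_distrib, sum_const, card_univ, ZMod.card]
  unfold TT
  simp; ring

lemma disc {a x y : ZMod p} (hp2 : (2:ZMod p) ≠ 0) (ha : a ≠ 0) :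
    (Ea a).Nonsingular x y ↔ y^2 = x^3 + a*x := by
  rw [ns_iff]
  constructor
  · exact fun h => h.1
  · intro h
    refine ⟨h, ?_⟩
    by_contra hcon
    push Not at hcon
    obtain ⟨h1, h2⟩ := hcon
    have hy : y = 0 := by
      rcases mul_eq_zero.mp h2 with h' | h'
      · exact absurd h' hp2
      · exact h'
    rw [hy] at h
    -- x^3 + a x = 0, 3x^2 + a = 0
    have h3 : 2 * x^3 = 0 := by linear_combination x * h1 + h
    have hx : x = 0 := by
      rcases mul_eq_zero.mp h3 with h' | h'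
      · exact absurd h' hp2
      · exact pow_eq_zero_iff (by norm_num) |>.mp h'
    rw [hx] at h1
    apply ha; linear_combination h1

lemma card_E (hp2 : p ≠ 2) (h2 : (2:ZMod p) ≠ 0) {a : ZMod p} (ha : a ≠ 0) :
    (Nat.card (Ea a).Point : ℤ) = p + 1 - TT p a := by
  let e1 := nonsingularPointEquiv (W' := Ea a)
  have hc : Nat.card (Ea a).Point = Nat.card (Option {q : ZMod p × ZMod p // (Ea a).Nonsingular q.1 q.2}) :=
    Nat.card_congr e1
  have h3 : Nat.card {q : ZMod p × ZMod p // (Ea a).Nonsingular q.1 q.2} =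
      (univ.filter (fun q : ZMod p × ZMod p => q.2^2 = q.1^3 + a*q.1)).card := by
    rw [Nat.card_congr (Equiv.subtypeEquivRight (fun q : ZMod p × ZMod p => disc (x := q.1) (y := q.2) h2 ha)),
      Nat.card_eq_fintype_card, Fintype.card_subtype]
  rw [hc, Finite.card_option, h3]
  push_cast
  rw [cnt hp2 a]; ring

lemma TT_bound (a : ZMod p) : -(p:ℤ) ≤ TT p a ∧ TT p a ≤ p := by
  have hb : ∀ x : ZMod p, -1 ≤ quadraticChar (ZMod p) (x^3+a*x) ∧ quadraticChar (ZMod p) (x^3+a*x) ≤ 1 := by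
    intro x
    by_cases h : x^3 + a*x = 0
    · rw [h]; simp
    · rcases quadraticChar_dichotomy h with h' | h' <;> rw [h'] <;> norm_num
  have h1 : ∑ x : ZMod p, quadraticChar (ZMod p) (x^3+a*x) ≤ ∑ x : ZMod p, (1:ℤ) := sum_le_sum (fun x _ => (hb x).2)
  have h2 : ∑ x : ZMod p, (-1:ℤ) ≤ ∑ x : ZMod p, quadraticChar (ZMod p) (x^3+a*x) := sum_le_sum (fun x _ => (hb x).1)
  rw [sum_const, card_univ, ZMod.card, nsmul_eq_mul] at h1 h2
  unfold TT
  constructor <;> linarith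

variable {j : ℕ}

lemma TT_mod (hj : 4*j+1 = p) (hj1 : 1 ≤ j) (hp2 : p ≠ 2) (a : ZMod p) :
    ((TT p a : ℤ) : ZMod p) = (((2*j).choose j : ℕ) : ZMod p) * a^j := by
  have hF : ringChar (ZMod p) ≠ 2 := by rw [ZMod.ringChar_zmod_n]; exact hp2
  unfold TT
  push_cast
  have e : ∀ x : ZMod p, ((quadraticChar (ZMod p) (x^3+a*x) : ℤ) : ZMod p) =
      ∑ i ∈ range (2*j+1), (((2*j).choose i : ℕ) : ZMod p) * a^(2*j-i) * x^(2*i+2*j) := by
    intro x
    rw [quadraticChar_eq_pow_of_char_ne_two' hF, ZMod.card, show p/2 = 2*j by omega, add_pow]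
    apply sum_congr rfl
    intro i hi
    rw [mem_range] at hi
    rw [mul_pow, ← pow_mul, show 2*i+2*j = 3*i + (2*j-i) by omega, pow_add]; ring
  rw [sum_congr rfl (fun x _ => e x), sum_comm]
  have e2 : ∀ i ∈ range (2*j+1), ∑ x : ZMod p, (((2*j).choose i : ℕ) : ZMod p) * a^(2*j-i) * x^(2*i+2*j) =
      if i = j then -((((2*j).choose j : ℕ) : ZMod p) * a^j) else 0 := by
    intro i hi
    rw [mem_range] at hi
    rw [← mul_sum, sum_pow_zmod _ (by omega)]
    by_cases h : i = j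
    · rw [if_pos h, if_pos, h, show 2*j-j = j by omega]
      · ring
      · rw [h]; exact ⟨1, by omega⟩
    · rw [if_neg h, if_neg, mul_zero]
      rintro ⟨c, hc⟩
      have hp1 : p - 1 = 4*j := by omega
      rw [hp1] at hc
      have c1 : c < 2 := by
        by_contra hlt
        have : 4*j*2 ≤ 4*j*c := Nat.mul_le_mul_left _ (by omega)
        omega
      interval_cases c <;> omega
  rw [sum_congr rfl e2, sum_ite_eq', if_pos (mem_range.mpr (by omega)), neg_neg]

theorem one {k : ℕ} (hk : 12*k+1 = p) :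
    ∃ X a b : ℤ, (p:ℤ) = a^2 + b^2 ∧ X % 3 = 2 ∧ X % 2 = 0 ∧ -(p:ℤ) ≤ X ∧ X ≤ p ∧ (p:ℤ) ∣ X^4 - 16*a^4 ∧
      ((X:ℤ) : ZMod p) = (-1)^k * (((4*k).choose k : ℕ) : ZMod p) := by
  have hp1 := hp.out.one_lt
  obtain ⟨j, hjk⟩ : ∃ j, j = 3*k := ⟨_, rfl⟩
  have hj : 4*j+1 = p := by omega
  have hj1 : 1 ≤ j := by omega
  have hp2 : p ≠ 2 := by omega
  obtain ⟨a, b, hab, hC⟩ := gauss hj hj1
  have cast_ne : ∀ n : ℕ, 0 < n → n < p → ((n:ℕ):ZMod p) ≠ 0 := by
    intro n h1 h2 h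
    rw [CharP.cast_eq_zero_iff (ZMod p) p] at h
    have := Nat.le_of_dvd h1 h
    omega
  have h2 : (2:ZMod p) ≠ 0 := by exact_mod_cast cast_ne 2 (by norm_num) (by omega)
  have h3 : (3:ZMod p) ≠ 0 := by exact_mod_cast cast_ne 3 (by norm_num) (by omega)
  have h4 : (4:ZMod p) ≠ 0 := by exact_mod_cast cast_ne 4 (by norm_num) (by omega)
  have h8 : (8:ZMod p) ≠ 0 := by exact_mod_cast cast_ne 8 (by norm_num) (by omega)
  obtain ⟨r, hr⟩ := three_sq hk
  have hr : r^2 = 3 := by rw [hr]; ring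
  have hsq : IsSquare (-1 : ZMod p) := by
    rw [ZMod.exists_sq_eq_neg_one_iff]; omega
  obtain ⟨t, ht⟩ := hsq
  have ht : t^2 = -1 := by rw [ht]; ring
  have t1 : 1 + t ≠ 0 := by
    intro h
    have : (1+t)*(1-t) = 2 := by linear_combination (-1) * ht
    rw [h, zero_mul] at this
    exact h2 this.symm
  have t0 : t ≠ 0 := by intro h0; rw [h0] at ht; norm_num at ht
  have ru := unit_r hr
  have r2 : 2 + r ≠ 0 := left_ne_zero_of_mul_eq_one ru
  have r3 : 3 + 2*r ≠ 0 := by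
    intro h
    have : (3+2*r)*(3-2*r) = -3 := by linear_combination (-4)*hr
    rw [h, zero_mul] at this
    apply h3; linear_combination this
  have hkap : kap r = -4*(3+2*r) := rfl
  have hk0 : kap r ≠ 0 := by rw [hkap]; exact mul_ne_zero (neg_ne_zero.mpr h4) r3
  have ha : -4 * kap r ≠ 0 := mul_ne_zero (neg_ne_zero.mpr h4) hk0
  have h4t : (1+t)^4 = -4 := by linear_combination (t^2 + 4*t + 5) * ht
  have h4j : (-4:ZMod p)^j = 1 := by
    rw [← h4t, ← pow_mul, show 4*j = p - 1 by omega]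
    exact ZMod.pow_card_sub_one_eq_one t1
  -- the point of order three
  have s2 : (8*t*(1+t)*(2+r))^2 = -128*t*(7+4*r) := by
    linear_combination 64*(t^2+2*t)*(2+r)^2*ht - 128*t*hr
  have hP : (Ea (-4*kap r)).Nonsingular (4*t*(2+r)) (8*t*(1+t)*(2+r)) := by
    rw [disc h2 ha, s2, hkap]
    linear_combination (-64*t*(2+r)^3)*ht + (64*t*(r+4))*hr
  have h3P := triple_zero hP (mul_ne_zero h2 (mul_ne_zero (mul_ne_zero (mul_ne_zero h8 t0) t1) r2))
    (by
      have s1 : 3*(4*t*(2+r))^2 + -4*kap r = -32*(9+5*r) := by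
        rw [hkap]
        linear_combination (48*(2+r)^2)*ht - 48*hr
      rw [s1, s2]
      linear_combination 1024*(6*(14+15*r+4*r^2)*ht + hr))
  have hd3 : 3 ∣ Nat.card (Ea (-4*kap r)).Point := by
    have : Fact (Nat.Prime 3) := ⟨Nat.prime_three⟩
    have ho := addOrderOf_eq_prime h3P (Point.some_ne_zero _)
    have hd := addOrderOf_dvd_natCard (Point.some _ _ hP)
    rw [ho] at hd
    exact hd
  have hQ : (Ea (-4*kap r)).Nonsingular 0 0 := by
    rw [disc h2 ha]; ring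
  have hd2 : 2 ∣ Nat.card (Ea (-4*kap r)).Point := by
    have : Fact (Nat.Prime 2) := ⟨Nat.prime_two⟩
    have h2Q : (2:ℕ) • Point.some _ _ hQ = 0 := by
      rw [two_nsmul]
      exact add_inv _ rfl (by simp)
    have ho := addOrderOf_eq_prime h2Q (Point.some_ne_zero _)
    have hd := addOrderOf_dvd_natCard (Point.some _ _ hQ)
    rw [ho] at hd
    exact hd
  have hE := card_E hp2 h2 ha
  have hb := TT_bound (p := p) (-4*kap r)
  have hm := TT_mod hj hj1 hp2 (-4*kap r)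
  rw [mul_pow, h4j, one_mul] at hm
  have hc1 := case1 (F := ZMod p) hk (by omega) hr
  have hfl := flip (F := ZMod p) hj (k := k) (by omega)
  rw [show 6*k = 2*j by omega, show 3*k = j by omega, show 9*k = 3*j by omega, hfl, show j + k = 4*k by omega] at hc1
  obtain ⟨X, hX⟩ : ∃ X, X = TT p (-4*kap r) := ⟨_, rfl⟩
  rw [← hX] at hE hb hm
  obtain ⟨n, hn⟩ : ∃ n, n = Nat.card (Ea (-4*kap r)).Point := ⟨_, rfl⟩
  rw [← hn] at hE hd2 hd3
  refine ⟨X, a, b, hab, by omega, by omega, hb.1, hb.2, ?_, ?_⟩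
  · rw [← ZMod.intCast_zmod_eq_zero_iff_dvd]
    push_cast
    rw [hm, hC, mul_pow, ← pow_mul, mul_comm j 4, show 4*j = p-1 by omega, ZMod.pow_card_sub_one_eq_one hk0]
    ring
  · rw [hm, hc1]

end

end Pool.Agent.R856.DC
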