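import Mathlib

set_option autoImplicit false

/-!
Two evaluations of terminating Gauss series at `9`.
-/

namespace Pool.Agent.R856.EJ

open Finset

/-- terms of the Gauss series at `9` -/
def hy (a b c : ℚ) (k : ℕ) : ℚ := ∏ i ∈ range k, (9*(a+i)*(b+i)/((c+i)*(1+i)))

lemma hy_zero (a b c : ℚ) : hy a b c 0 = 1 := by unfold hy; simp

lemma hy_succ (a b c : ℚ) (k : ℕ) : hy a b c (k+1) = hy a b c k * (9*(a+k)*(b+k)/((c+k)*(1+k))) := by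
  unfold hy; rw [prod_range_succ]

lemma hy_top (m : ℕ) (b c : ℚ) (k : ℕ) (hk : m < k) : hy (-(m:ℚ)) b c k = 0 := by
  unfold hy
  apply prod_eq_zero (mem_range.mpr hk)
  rw [neg_add_cancel]; simp

lemma hy_up (a b c : ℚ) (k : ℕ) : hy (a+1) b c k * a = hy a b c k * (a+k) := by
  induction k with
  | zero => simp [hy_zero]
  | succ k ih =>
    rw [hy_succ, hy_succ]
    push_cast
    linear_combination (9*(a+1+k)*(b+k)/((c+k)*(1+k))) * ih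

lemma hy_shift (a b c : ℚ) (k : ℕ) (hc : ∀ i : ℕ, i < k + 3 → c - 3 + i ≠ 0) :
    hy (a-1) (b-1) (c-3) (k+1) = hy a b c k * (9*(a-1)*(b-1)*(c+k-2)*(c+k-1)/((k+1)*(c-1)*(c-2)*(c-3))) := by
  have h0 := hc 0 (by omega)
  have h1 := hc 1 (by omega)
  have h2 := hc 2 (by omega)
  push_cast at h0 h1 h2
  have c3 : c - 3 ≠ 0 := by intro h; apply h0; linear_combination h
  have c2 : c - 2 ≠ 0 := by intro h; apply h1; linear_combination h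
  have c1 : c - 1 ≠ 0 := by intro h; apply h2; linear_combination h
  induction k with
  | zero =>
    rw [hy_succ, hy_zero, hy_zero]
    push_cast
    have c3' : c - 3 + 0 ≠ 0 := by rw [add_zero]; exact c3
    have c2' : c + 0 - 2 ≠ 0 := by intro h; apply c2; linear_combination h
    have c1' : c + 0 - 1 ≠ 0 := by intro h; apply c1; linear_combination h
    field_simp
    ring
  | succ k ih =>
    have ih' := ih (fun i hi => hc i (by omega))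
    rw [hy_succ (a-1), ih', hy_succ a]
    have g1 := hc (k+1) (by omega)
    have g3 := hc (k+3) (by omega)
    push_cast at g1 g3 ⊢
    have d1 : c - 3 + ((k:ℚ)+1) ≠ 0 := g1
    have d3 : c + (k:ℚ) ≠ 0 := by intro h; apply g3; linear_combination h
    have k1 : (k:ℚ) + 1 ≠ 0 := by positivity
    have k2 : (k:ℚ) + 1 + 1 ≠ 0 := by positivity
    have k1' : 1 + (k:ℚ) ≠ 0 := by positivity
    have k2' : 1 + ((k:ℚ) + 1) ≠ 0 := by positivity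
    field_simp
    ring

lemma alg1 (c N X m : ℚ) (h0 : c+N≠0) (h1: c-1≠0) (h2: c-2≠0) (h3: c-3≠0) (hN : N+1≠0) (hm : m = (1/2-c)/3) :
    -((28*m+10)*(N+1) - (60*m^2+76*m+19))/(2*m+1) * X + ((6*m+1)*(X*(9*(-(2*m)-2)*(1/6-m-1)*(c+N-2)*(c+N-1)/
      ((N+1)*(c-1)*(c-2)*(c-3)))) + 8*(3*m+1)*(X*(9*(-(2*m)-1+N)*(1/6-m+N)/((c+N)*(1+N))) * ((2*m+1-(N+1))/(2*m+1)))) =
    -((28*m+10)*(N+1+1) - (60*m^2+76*m+19))/(2*m+1) * (X*(9*(-(2*m)-1+N)*(1/6-m+N)/((c+N)*(1+N)))) := by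
  have e1 : 2*m+1 = (c-2)*(-2/3) := by rw [hm]; ring
  rw [e1, add_comm 1 N]
  subst hm
  field_simp
  ring

lemma alg2 (n N X : ℚ) (c0 : N - 3*n ≠ 0) (c1 : 3*n+1 ≠ 0) (c2 : 3*n+2 ≠ 0) (c3 : n+1 ≠ 0) (d0 : 6*n+4-3*N ≠ 0) (d1 : 6*n+1-3*N ≠ 0) (hN : N+1 ≠ 0) :
   -((42*n+22)*(N+1) - (90*n^2+144*n+50))/(6*n+4-3*N) * X + ((3*n+1)*(X*(9*(-n-1)*(-(2*n)-1/3-1)*(-(2*n)-1/3-2)*(-(3*n)+N-2)*(-(3*n)+N-1)/
      ((-(2*n)-1/3-1+N)*(N+1)*(-(3*n)-1)*(-(3*n)-2)*(-(3*n)-3)))) + 6*(2*n+1)*(X*(9*(-n+N)*(-(2*n)-1/3+N)/((-(3*n)+N)*(1+N))))) = 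
     -((42*n+22)*(N+1+1) - (90*n^2+144*n+50))/(6*n+4-3*(N+1)) * (X*(9*(-n+N)*(-(2*n)-1/3+N)/((-(3*n)+N)*(1+N)))) := by
  have e1 : (-(2*n)-1/3-1+N)*(N+1)*(-(3*n)-1)*(-(3*n)-2)*(-(3*n)-3) = (6*n+4-3*N)*(N+1)*(3*n+1)*(3*n+2)*(n+1) := by ring
  have e2 : (-(3*n)+N)*(1+N) = (N-3*n)*(N+1) := by ring
  have e3 : 6*n+4-3*(N+1) = 6*n+1-3*N := by ring
  have e4 : -(2*n)-1/3+N = -(6*n+1-3*N)/3 := by ring
  rw [e1, e2, e3, e4]
  have f1 : (3*n+1)*(X*(9*(-n-1)*(-(2*n)-1/3-1)*(-(2*n)-1/3-2)*(-(3*n)+N-2)*(-(3*n)+N-1)/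
      ((6*n+4-3*N)*(N+1)*(3*n+1)*(3*n+2)*(n+1)))) = -(2*X*(6*n+7)*(-(3*n)+N-2)*(-(3*n)+N-1))/((6*n+4-3*N)*(N+1)) := by
    field_simp
    ring
  have f2 : 6*(2*n+1)*(X*(9*(-n+N)*(-(6*n+1-3*N)/3)/((N-3*n)*(N+1)))) = -(18*(2*n+1)*X*(N-n)*(6*n+1-3*N))/((N-3*n)*(N+1)) := by
    field_simp
    ring
  have f3 : -((42*n+22)*(N+1+1) - (90*n^2+144*n+50))/(6*n+1-3*N) * (X*(9*(-n+N)*(-(6*n+1-3*N)/3)/((N-3*n)*(N+1)))) = 
     3*((42*n+22)*(N+1+1) - (90*n^2+144*n+50))*X*(N-n)/((N-3*n)*(N+1)) := by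
    have g : ∀ P D Q : ℚ, D ≠ 0 → Q ≠ 0 → -P/D*(X*(9*(-n+N)*(-D/3)/Q)) = 3*P*X*(N-n)/Q := by
      intro P D Q hD hQ
      field_simp
      ring
    exact g _ _ _ d1 (mul_ne_zero c0 hN)
  rw [f1, f2, f3]
  have f4 : -((42*n+22)*(N+1) - (90*n^2+144*n+50))/(6*n+4-3*N) * X = -((42*n+22)*(N+1) - (90*n^2+144*n+50))*X*(N+1)/((6*n+4-3*N)*(N+1)) := by
    rw [mul_div_mul_right _ _ hN, div_mul_eq_mul_div]
  rw [f4, ← add_assoc, ← add_div, div_add_div _ _ (mul_ne_zero d0 hN) (mul_ne_zero c0 hN), div_eq_div_iff (mul_ne_zero (mul_ne_zero d0 hN) (mul_ne_zero c0 hN)) (mul_ne_zero c0 hN)]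
  ring

/-! ### first family -/

def T1 (m k : ℕ) : ℚ := hy (-(2*m:ℚ)) (1/6-m) (1/2-3*m) k

def U1 (m k : ℕ) : ℚ := hy (-(2*m:ℚ)-1) (1/6-m) (1/2-3*m) k

lemma c_ne (m : ℕ) (i : ℤ) : (1/2 - 3*(m:ℚ)) + i ≠ 0 := by
  intro h
  have h2 : ((1 - 6*(m:ℤ) + 2*i : ℤ) : ℚ) = 0 := by push_cast; linear_combination 2*h
  have h3 : (1 - 6*(m:ℤ) + 2*i : ℤ) = 0 := by exact_mod_cast h2
  omega

lemma T1_U (m k : ℕ) : T1 m k = U1 m k * ((2*m+1-k)/(2*m+1)) := by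
  have h := hy_up (-(2*m:ℚ)-1) (1/6-m) (1/2-3*m) k
  rw [sub_add_cancel] at h
  unfold T1 U1
  have h1 : (2*(m:ℚ)+1) ≠ 0 := by positivity
  rw [mul_div_assoc', eq_div_iff h1]
  linear_combination (-1) * h

lemma T1_next (m k : ℕ) : T1 (m+1) (k+1) = U1 m k *
    (9*(-(2*m:ℚ)-2)*(1/6-m-1)*((1/2-3*m)+k-2)*((1/2-3*m)+k-1)/((k+1)*((1/2-3*m)-1)*((1/2-3*m)-2)*((1/2-3*m)-3))) := by
  have h := hy_shift (-(2*m:ℚ)-1) (1/6-m) (1/2-3*m) k (by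
    intro i _
    have := c_ne m ((i:ℤ) - 3)
    push_cast at this
    intro h; apply this; linear_combination h)
  unfold T1 U1
  push_cast
  rw [show -(2*((m:ℚ)+1)) = -(2*m:ℚ)-1-1 by ring, show (1:ℚ)/6 - ((m:ℚ)+1) = 1/6 - m - 1 by ring,
    show (1:ℚ)/2 - 3*((m:ℚ)+1) = 1/2-3*m-3 by ring, h]
  congr 2
  ring

lemma U1_succ (m k : ℕ) : U1 m (k+1) = U1 m k * (9*(-(2*m:ℚ)-1+k)*(1/6-m+k)/((1/2-3*m+k)*(1+k))) := hy_succ _ _ _ _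

lemma sum1 (m N : ℕ) : ∑ k ∈ range (N+1), ((6*(m:ℚ)+1) * T1 (m+1) k + 8*(3*m+1) * T1 m k) =
    -((28*m+10)*(N+1) - (60*m^2+76*m+19))/(2*m+1) * U1 m N := by
  have h1 : (2*(m:ℚ)+1) ≠ 0 := by positivity
  induction N with
  | zero =>
    rw [sum_range_one]
    unfold T1 U1
    rw [hy_zero, hy_zero, hy_zero]
    push_cast
    field_simp
    ring
  | succ N ih =>
    rw [sum_range_succ, ih, T1_next, T1_U m (N+1), U1_succ]
    have c0 := c_ne m N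
    have c1 := c_ne m (-1)
    have c2 := c_ne m (-2)
    have c3 := c_ne m (-3)
    push_cast at c0 c1 c2 c3 ⊢
    exact alg1 (1/2-3*m) N (U1 m N) m c0 (by intro h; apply c1; linear_combination h)
      (by intro h; apply c2; linear_combination h) (by intro h; apply c3; linear_combination h) (by positivity) (by ring)

def V1 (m : ℕ) : ℚ := ∑ k ∈ range (2*m+1), T1 m k

lemma T1_top (m k : ℕ) (hk : 2*m < k) : T1 m k = 0 := by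
  have := hy_top (2*m) (1/6-m) (1/2-3*m) k hk
  push_cast at this
  exact this

lemma V1_ext (m N : ℕ) (hN : 2*m+1 ≤ N) : ∑ k ∈ range N, T1 m k = V1 m := by
  unfold V1
  symm
  apply sum_subset
  · intro x hx
    rw [mem_range] at hx ⊢; omega
  · intro x _ hx
    rw [mem_range, not_lt] at hx
    exact T1_top m x (by omega)

lemma V1_rec (m : ℕ) : (6*(m:ℚ)+1) * V1 (m+1) = -8*(3*m+1) * V1 m := by
  have h := sum1 m (2*m+2)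
  have h0 : U1 m (2*m+2) = 0 := by
    have := hy_top (2*m+1) (1/6-m) (1/2-3*m) (2*m+2) (by omega)
    unfold U1
    push_cast at this
    rw [← this]; congr 1; ring
  rw [h0, mul_zero, sum_add_distrib, ← mul_sum, ← mul_sum, V1_ext (m+1) _ (by omega), V1_ext m _ (by omega)] at h
  linear_combination h

theorem V1_eq (m : ℕ) : V1 m = ∏ i ∈ range m, (-8*(3*(i:ℚ)+1)/(6*i+1)) := by
  induction m with
  | zero => unfold V1 T1; simp [hy_zero]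
  | succ m ih =>
    rw [prod_range_succ, ← ih]
    have h := V1_rec m
    have h1 : (6*(m:ℚ)+1) ≠ 0 := by positivity
    field_simp
    linear_combination h

/-! ### second family -/

def T2 (n k : ℕ) : ℚ := hy (-(n:ℚ)) (-(2*n:ℚ)-1/3) (-(3*n:ℚ)) k

lemma b_shift (a b c : ℚ) (k : ℕ) : hy a (b+1) c k * b = hy a b c k * (b+k) := by
  induction k with
  | zero => simp [hy_zero]
  | succ k ih =>
    rw [hy_succ, hy_succ]
    push_cast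
    linear_combination (9*(a+k)*(b+1+k)/((c+k)*(1+k))) * ih

lemma b_ne (n : ℕ) (i : ℤ) : (-(2*n:ℚ)-1/3) + i ≠ 0 := by
  intro h
  have h2 : ((-(6*(n:ℤ)) - 1 + 3*i : ℤ) : ℚ) = 0 := by push_cast; linear_combination 3*h
  have h3 : (-(6*(n:ℤ)) - 1 + 3*i : ℤ) = 0 := by exact_mod_cast h2
  omega

lemma T2_next (n k : ℕ) (hk : k ≤ n) : T2 (n+1) (k+1) = T2 n k *
    (9*(-(n:ℚ)-1)*(-(2*n:ℚ)-1/3-1)*(-(2*n:ℚ)-1/3-2)*(-(3*n:ℚ)+k-2)*(-(3*n:ℚ)+k-1)/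
      ((-(2*n:ℚ)-1/3-1+k)*(k+1)*(-(3*n:ℚ)-1)*(-(3*n:ℚ)-2)*(-(3*n:ℚ)-3))) := by
  have h := hy_shift (-(n:ℚ)) (-(2*n:ℚ)-1/3) (-(3*n:ℚ)) k (by
    intro i hi
    have h2 : (-(3*(n:ℤ)) - 3 + i : ℤ) ≠ 0 := by omega
    have h3 : ((-(3*(n:ℤ)) - 3 + i : ℤ) : ℚ) ≠ 0 := by exact_mod_cast h2
    push_cast at h3; exact h3)
  have h2 := b_shift (-(n:ℚ)-1) (-(2*n:ℚ)-1/3-2) (-(3*n:ℚ)-3) (k+1)
  rw [show -(2*n:ℚ)-1/3-2+1 = -(2*n:ℚ)-1/3-1 by ring, h] at h2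
  have hb := b_ne n (-1 + k)
  push_cast at hb
  have hb' : -(2*n:ℚ)-1/3-1+k ≠ 0 := by intro h; apply hb; linear_combination h
  unfold T2
  push_cast at h2 ⊢
  rw [show -((n:ℚ)+1) = -(n:ℚ)-1 by ring, show -(2*((n:ℚ)+1))-1/3 = -(2*n:ℚ)-1/3-2 by ring,
    show -(3*((n:ℚ)+1)) = -(3*n:ℚ)-3 by ring]
  have hb2 : -(2*n:ℚ)-1/3-2+((k:ℚ)+1) ≠ 0 := by intro h; apply hb'; linear_combination h
  apply mul_right_cancel₀ hb2
  rw [← h2]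
  have hb3 : -(2*n:ℚ)-1/3-2+((k:ℚ)+1) = -(2*n:ℚ)-1/3-1+k := by ring
  rw [hb3]
  generalize -(2*n:ℚ)-1/3-1+k = B at *
  have e : ∀ h A C D : ℚ, h * (9*A*C/D) * B⁻¹ * B = h * (9*A*C/D) := by
    intro h A C D
    rw [mul_assoc, inv_mul_cancel₀ hb', mul_one]
  rw [mul_div_assoc', mul_div_assoc', div_mul_eq_mul_div, div_mul_eq_mul_div]
  rw [show B * (k + 1) * (-(3*n:ℚ) - 1) * (-(3*n:ℚ) - 2) * (-(3*n:ℚ) - 3) = B * ((k + 1) * (-(3*n:ℚ) - 1) * (-(3*n:ℚ) - 2) * (-(3*n:ℚ) - 3)) by ring]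
  rw [mul_comm (hy (-(n:ℚ)) _ _ k * _) B, mul_div_mul_left _ _ hb']
  ring

lemma sum2 (n : ℕ) (hn : 1 ≤ n) (N : ℕ) (hN : N ≤ n + 1) :
    ∑ k ∈ range (N+1), ((3*(n:ℚ)+1) * T2 (n+1) k + 6*(2*n+1) * T2 n k) =
    -((42*n+22)*(N+1) - (90*n^2+144*n+50))/(6*n+4-3*N) * T2 n N := by
  induction N with
  | zero =>
    rw [sum_range_one]
    unfold T2
    rw [hy_zero, hy_zero]
    have h1 : (6*(n:ℚ)+4) ≠ 0 := by positivity
    push_cast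
    have e : -((42*(n:ℚ)+22)*((0:ℚ)+1) - (90*n^2+144*n+50))/(6*n+4-3*0) * 1 = 15*n+7 := by
      rw [mul_zero, sub_zero, mul_one, div_eq_iff h1]; ring
    rw [e]; ring
  | succ N ih =>
    have ih' := ih (by omega)
    have hs : T2 n (N+1) = T2 n N * (9*(-(n:ℚ)+N)*(-(2*n:ℚ)-1/3+N)/((-(3*n:ℚ)+N)*(1+N))) := hy_succ _ _ _ _
    rw [sum_range_succ, ih', T2_next n N (by omega), hs]
    have c0 : ((N:ℚ) - 3*(n:ℚ)) ≠ 0 := by
      have h2 : ((N:ℤ) - 3*(n:ℤ) : ℤ) ≠ 0 := by omega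
      exact_mod_cast h2
    have d0 : (6*(n:ℚ)+4-3*N) ≠ 0 := by
      have h2 : (6*(n:ℤ)+4-3*N : ℤ) ≠ 0 := by omega
      exact_mod_cast h2
    have d1 : (6*(n:ℚ)+1-3*N) ≠ 0 := by
      have h2 : (6*(n:ℤ)+1-3*N : ℤ) ≠ 0 := by omega
      exact_mod_cast h2
    push_cast
    exact alg2 n N (T2 n N) c0 (by positivity) (by positivity) (by positivity) d0 d1 (by positivity)

def V2 (n : ℕ) : ℚ := ∑ k ∈ range (n+1), T2 n k

lemma T2_top (n k : ℕ) (hk : n < k) : T2 n k = 0 := hy_top n _ _ k hk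

lemma V2_rec (n : ℕ) (hn : 1 ≤ n) : (3*(n:ℚ)+1) * V2 (n+1) = -6*(2*n+1) * V2 n := by
  have h := sum2 n hn (n+1) le_rfl
  rw [T2_top n (n+1) (by omega), mul_zero, sum_add_distrib, ← mul_sum, ← mul_sum] at h
  have h2 : ∑ k ∈ range (n+1+1), T2 n k = V2 n := by
    rw [sum_range_succ, T2_top n (n+1) (by omega), add_zero]; rfl
  rw [h2] at h
  unfold V2 at h ⊢
  linear_combination h

theorem V2_eq (n : ℕ) : V2 n = ∏ i ∈ range n, (-6*(2*(i:ℚ)+1)/(3*i+1)) := by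
  induction n with
  | zero => unfold V2 T2; simp [hy_zero]
  | succ n ih =>
    rcases Nat.eq_zero_or_pos n with h0 | h0
    · subst h0
      unfold V2 T2
      rw [sum_range_succ, sum_range_one, prod_range_one, hy_succ, hy_zero]
      norm_num
    · rw [prod_range_succ, ← ih]
      have h := V2_rec n h0
      have h1 : (3*(n:ℚ)+1) ≠ 0 := by positivity
      field_simp
      linear_combination h

end Pool.Agent.R856.EJ
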