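import Pool.Agent.R856.EJ1
import Pool.Agent.Helper857.Pad

set_option autoImplicit false

/-!
The truncated series at `9` modulo `p^2`.
-/

namespace Pool.Agent.R856.EJ

open Finset Pool.Agent.Helper857.Pad

section

variable {p : ℕ} [hp : Fact p.Prime]

lemma mul_lin {X Y x y : ℚ} (hX : I p 2 (X - (1 - p*x))) (hx : x ∈ Zp p) (hY : I p 2 (Y - (1 - p*y))) (hy : y ∈ Zp p) :
    I p 2 (X*Y - (1 - p*(x+y))) := by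
  have mY : Y ∈ Zp p := by
    have : Y = (Y - (1 - p*y)) + (1 - p*y) := by ring
    rw [this]
    exact (Zp p).add_mem hY.mem ((Zp p).sub_mem (Zp p).one_mem ((Zp p).mul_mem (nat_mem p) hy))
  have m1 : 1 - (p:ℚ)*x ∈ Zp p := (Zp p).sub_mem (Zp p).one_mem ((Zp p).mul_mem (nat_mem p) hx)
  have e : X*Y - (1 - p*(x+y)) = (X - (1 - p*x))*Y + (Y - (1 - p*y))*(1 - p*x) + (p:ℚ)^2*(x*y) := by ring
  rw [e]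
  exact ((hX.mul_mem mY).add (hY.mul_mem m1)).add ((I.p_pow 2).mul_mem ((Zp p).mul_mem hx hy))

/-- first order expansion of a product -/
lemma prod_lin (z : ℕ → ℚ) (R : ℕ) (hz : ∀ i < R, z i ∈ Zp p) :
    I p 2 (∏ i ∈ range R, (1 - (p:ℚ) * z i) - (1 - p * ∑ i ∈ range R, z i)) := by
  have h := prod_one_sub (p := p) (m := 1) (fun i => (p:ℚ) * z i) R (by
    intro i hi
    have e : (p:ℚ) * z i = (p:ℚ)^1 * z i := by ring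
    rw [e]; exact (I.p_pow 1).mul_mem (hz i hi))
  rw [← mul_sum] at h
  exact h

end

section

variable {p : ℕ} [hp : Fact p.Prime] {m : ℕ} (hm : 6*m+1 = p) (hm1 : 1 ≤ m)
include hm hm1

lemma inv_s {k : ℕ} (h0 : 0 < k) (h1 : k < p) : ((k:ℚ))⁻¹ ∈ Zp p :=
  inv_nat_mem (fun hd => absurd (Nat.le_of_dvd h0 hd) (by omega))

lemma half_mem : (2:ℚ)⁻¹ ∈ Zp p := by
  have := inv_s (p := p) hm hm1 (k := 2) (by norm_num) (by omega)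
  push_cast at this; exact this

lemma third_mem : (3:ℚ)⁻¹ ∈ Zp p := by
  have := inv_s (p := p) hm hm1 (k := 3) (by norm_num) (by omega)
  push_cast at this; exact this

lemma pq : (p:ℚ) = 6*m+1 := by rw [← hm]; push_cast; ring

lemma inv_ys {i : ℕ} (hi : i < 2*m) :
    (1+(i:ℚ))⁻¹ ∈ Zp p ∧ (1+(i:ℚ)-p/2)⁻¹ ∈ Zp p ∧ (1+(i:ℚ)-p)⁻¹ ∈ Zp p ∧ (1+(i:ℚ)) ≠ 0 ∧ (1+(i:ℚ)-p/2) ≠ 0 ∧ (1+(i:ℚ)-p) ≠ 0 := by
  have hpz : Prime (p:ℤ) := Nat.prime_iff_prime_int.mp hp.out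
  have y0 : (1+(i:ℚ)) ≠ 0 := by positivity
  have n1 : ¬ (p:ℤ) ∣ ((2*(1+i) : ℕ) : ℤ) - p := by
    intro h
    have h2 : (p:ℤ) ∣ ((2*(1+i) : ℕ) : ℤ) := (dvd_sub_self_right).mp h
    have h3 : p ∣ 2*(1+i) := by exact_mod_cast h2
    rcases (Nat.Prime.dvd_mul hp.out).mp h3 with h | h
    · have := Nat.le_of_dvd (by norm_num) h; omega
    · have := Nat.le_of_dvd (by omega) h; omega
  have n2 : ¬ (p:ℤ) ∣ ((1+i : ℕ) : ℤ) - p := by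
    intro h
    have h2 : (p:ℤ) ∣ ((1+i : ℕ) : ℤ) := (dvd_sub_self_right).mp h
    have h3 : p ∣ (1+i) := by exact_mod_cast h2
    have := Nat.le_of_dvd (by omega) h3; omega
  have i1 := inv_int_mem n1
  have i2 := inv_int_mem n2
  push_cast at i1 i2
  refine ⟨?_, ?_, i2, y0, ?_, ?_⟩
  · have := inv_s (p := p) hm hm1 (k := 1+i) (by omega) (by omega)
    push_cast at this; exact this
  · have e : (1+(i:ℚ)-p/2)⁻¹ = 2 * (2*(1+(i:ℚ)) - p)⁻¹ := by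
      have e1 : (1+(i:ℚ)-p/2) = (2*(1+(i:ℚ)) - p) / 2 := by ring
      rw [e1, inv_div, div_eq_mul_inv]
    rw [e]
    exact (Zp p).mul_mem (nat_mem 2) i1
  · intro h
    apply n1
    have : ((((2*(1+i) : ℕ) : ℤ) - p : ℤ) : ℚ) = 0 := by push_cast; linear_combination 2*h
    have : (((2*(1+i) : ℕ) : ℤ) - p : ℤ) = 0 := by exact_mod_cast this
    rw [this]; exact dvd_zero _
  · intro h
    apply n2
    have : ((((1+i : ℕ) : ℤ) - p : ℤ) : ℚ) = 0 := by push_cast; linear_combination h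
    have : (((1+i : ℕ) : ℤ) - p : ℤ) = 0 := by exact_mod_cast this
    rw [this]; exact dvd_zero _

/-- the three factors -/
lemma factors {i : ℕ} (hi : i < 2*m) :
    (9*((1:ℚ)/3+i)*(1/3+i)/((1+i)*(1+i))) ∈ Zp p ∧
    I p 1 (9*(-(2*m:ℚ)+i)*(1/6-m+i)/((1/2-3*m+i)*(1+i)) - 9*((1:ℚ)/3+i)*(1/3+i)/((1+i)*(1+i))) ∧
    I p 1 (9*(-(2*m:ℚ)+i)*(-(2*(2*m):ℚ)-1/3+i)/((-(3*(2*m):ℚ)+i)*(1+i)) - 9*((1:ℚ)/3+i)*(1/3+i)/((1+i)*(1+i))) ∧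
    I p 2 (2*(9*(-(2*m:ℚ)+i)*(1/6-m+i)/((1/2-3*m+i)*(1+i))) - 9*(-(2*m:ℚ)+i)*(-(2*(2*m):ℚ)-1/3+i)/((-(3*(2*m):ℚ)+i)*(1+i)) -
      9*((1:ℚ)/3+i)*(1/3+i)/((1+i)*(1+i))) := by
  obtain ⟨m0, m1, m2, z0, z1, z2⟩ := inv_ys hm hm1 hi
  have hpq := pq hm hm1
  have t3 := third_mem hm hm1
  have t2 := half_mem hm hm1
  have hx : ((1:ℚ)/3 + i) ∈ Zp p := by
    rw [one_div]; exact (Zp p).add_mem t3 (nat_mem i)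
  have hy : (1 + (i:ℚ)) ∈ Zp p := (Zp p).add_mem (Zp p).one_mem (nat_mem i)
  have a1 : -(2*m:ℚ)+i = (1/3+i) - p/3 := by rw [hpq]; ring
  have a2 : (1:ℚ)/6-m+i = (1/3+i) - p/6 := by rw [hpq]; ring
  have a3 : (1:ℚ)/2-3*m+i = (1+i) - p/2 := by rw [hpq]; ring
  have a4 : -(2*(2*m):ℚ)-1/3+i = (1/3+i) - 2*p/3 := by rw [hpq]; ring
  have a5 : -(3*(2*m):ℚ)+i = (1+i) - p := by rw [hpq]; ring
  rw [a1, a2, a3, a4, a5]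
  have h0 : (1+(i:ℚ)) * (1+(i:ℚ))⁻¹ = 1 := mul_inv_cancel₀ z0
  have h1 : (1+(i:ℚ)-p/2) * (1+(i:ℚ)-p/2)⁻¹ = 1 := mul_inv_cancel₀ z1
  have h2 : (1+(i:ℚ)-p) * (1+(i:ℚ)-p)⁻¹ = 1 := mul_inv_cancel₀ z2
  simp only [div_eq_mul_inv, mul_inv] at m1 h1 z1 ⊢
  simp only [div_eq_mul_inv] at hx
  generalize hY0 : (1+(i:ℚ))⁻¹ = Y0 at *
  generalize hY1 : (1+(i:ℚ)-p*2⁻¹)⁻¹ = Y1 at *
  generalize hY2 : (1+(i:ℚ)-p)⁻¹ = Y2 at *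
  generalize hxx : (1*(3:ℚ)⁻¹ + i) = x at *
  generalize hyy : (1+(i:ℚ)) = y at *
  have c9 : (9:ℚ) ∈ Zp p := nat_mem 9
  have cp : (p:ℚ) ∈ Zp p := nat_mem p
  have c18 : (18:ℚ)⁻¹ ∈ Zp p := by
    have : (18:ℚ)⁻¹ = 2⁻¹ * 3⁻¹ * 3⁻¹ := by norm_num
    rw [this]; exact (Zp p).mul_mem ((Zp p).mul_mem t2 t3) t3
  have c2 : (2:ℚ) ∈ Zp p := nat_mem 2
  refine ⟨?_, ?_, ?_, ?_⟩
  · exact (Zp p).mul_mem ((Zp p).mul_mem ((Zp p).mul_mem c9 hx) hx) ((Zp p).mul_mem m0 m0)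
  · have e : 9 * (x - p*3⁻¹) * (x - p*6⁻¹) * (Y1 * Y0) - 9 * x * x * (Y0 * Y0) =
        (p:ℚ)^1 * (9 * Y0 * Y0 * Y1 * (-(x*y)*2⁻¹ + p*18⁻¹*y + x*x*2⁻¹)) := by
      linear_combination (-9*(x-p*3⁻¹)*(x-p*6⁻¹)*Y1*Y0)*h0 + (9*x^2*Y0^2)*h1
    rw [e]
    refine (I.p_pow 1).mul_mem ((Zp p).mul_mem ((Zp p).mul_mem ((Zp p).mul_mem ((Zp p).mul_mem c9 m0) m0) m1) ?_)
    exact (Zp p).add_mem ((Zp p).add_mem ((Zp p).mul_mem ((Zp p).neg_mem ((Zp p).mul_mem hx hy)) t2)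
      ((Zp p).mul_mem ((Zp p).mul_mem cp c18) hy)) ((Zp p).mul_mem ((Zp p).mul_mem hx hx) t2)
  · have e : 9 * (x - p*3⁻¹) * (x - 2*p*3⁻¹) * (Y2 * Y0) - 9 * x * x * (Y0 * Y0) =
        (p:ℚ)^1 * (9 * Y0 * Y0 * Y2 * (-(x*y) + p*(2*(3⁻¹*3⁻¹))*y + x*x)) := by
      linear_combination (-9*(x-p*3⁻¹)*(x-2*p*3⁻¹)*Y2*Y0)*h0 + (9*x^2*Y0^2)*h2
    rw [e]
    refine (I.p_pow 1).mul_mem ((Zp p).mul_mem ((Zp p).mul_mem ((Zp p).mul_mem ((Zp p).mul_mem c9 m0) m0) m2) ?_)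
    exact (Zp p).add_mem ((Zp p).add_mem ((Zp p).neg_mem ((Zp p).mul_mem hx hy))
      ((Zp p).mul_mem ((Zp p).mul_mem cp ((Zp p).mul_mem c2 ((Zp p).mul_mem t3 t3))) hy)) ((Zp p).mul_mem hx hx)
  · have e : 2 * (9 * (x - p*3⁻¹) * (x - p*6⁻¹) * (Y1 * Y0)) - 9 * (x - p*3⁻¹) * (x - 2*p*3⁻¹) * (Y2 * Y0) - 9 * x * x * (Y0 * Y0) =
        (p:ℚ)^2 * (9 * Y0 * Y0 * Y1 * Y2 * (x*y*2⁻¹ - y*y*(3⁻¹*3⁻¹) - x*x*2⁻¹)) := by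
      linear_combination (-18*(x-p*3⁻¹)*(x-p*6⁻¹)*Y1*Y0 + 9*(x-p*3⁻¹)*(x-2*p*3⁻¹)*Y2*Y0)*h0 +
        (9*x^2*Y0^2*((y-p)*Y2) + 9*(x-p*3⁻¹)*(x-2*p*3⁻¹)*Y2*Y0^2*y)*h1 +
        (9*x^2*Y0^2 - 18*(x-p*3⁻¹)*(x-p*6⁻¹)*Y1*Y0^2*y)*h2
    rw [e]
    refine (I.p_pow 2).mul_mem ((Zp p).mul_mem ((Zp p).mul_mem ((Zp p).mul_mem ((Zp p).mul_mem ((Zp p).mul_mem c9 m0) m0) m1) m2) ?_)
    exact (Zp p).sub_mem ((Zp p).sub_mem ((Zp p).mul_mem ((Zp p).mul_mem hx hy) t2)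
      ((Zp p).mul_mem ((Zp p).mul_mem hy hy) ((Zp p).mul_mem t3 t3))) ((Zp p).mul_mem ((Zp p).mul_mem hx hx) t2)

end

end Pool.Agent.R856.EJ
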