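import Pool.Agent.R856.EJ2

set_option autoImplicit false

/-!
The truncated series at `9` equals a central binomial coefficient modulo `p^2`.
-/

namespace Pool.Agent.R856.EJ

open Finset Pool.Agent.Helper857.Pad

/-- the terms of the sum -/
def T0 (k : ℕ) : ℚ := hy (1/3) (1/3) 1 k

/-! ### products -/

def od (n : ℕ) : ℚ := ∏ i ∈ range n, (2*(i:ℚ)+1)

lemma od_ne (n : ℕ) : od n ≠ 0 := prod_ne_zero_iff.mpr (fun i _ => by positivity)

lemma cb_eq (n : ℕ) : ((2*n).choose n : ℚ) = ∏ i ∈ range n, (2*(2*(i:ℚ)+1)/(i+1)) := by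
  induction n with
  | zero => simp
  | succ n ih =>
    rw [prod_range_succ, ← ih]
    have h := Nat.succ_mul_centralBinom_succ n
    unfold Nat.centralBinom at h
    have h' : ((n:ℚ)+1) * ((2*(n+1)).choose (n+1) : ℚ) = 2*(2*n+1) * ((2*n).choose n : ℚ) := by exact_mod_cast h
    have h1 : (n:ℚ)+1 ≠ 0 := by positivity
    field_simp
    linear_combination h'

lemma cb_od (n : ℕ) : ((2*n).choose n : ℚ) * (∏ i ∈ range n, ((i:ℚ)+1)) = 2^n * od n := by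
  rw [cb_eq, ← prod_mul_distrib]
  unfold od
  have e2 : (2:ℚ)^n = ∏ _i ∈ range n, (2:ℚ) := by rw [prod_const, card_range]
  rw [e2, ← prod_mul_distrib]
  apply prod_congr rfl
  intro i _
  have : (i:ℚ)+1 ≠ 0 := by positivity
  field_simp

lemma fact2 (m : ℕ) : ∏ i ∈ range (2*m), ((i:ℚ)+1) = 2^m * (∏ i ∈ range m, ((i:ℚ)+1)) * od m := by
  induction m with
  | zero => simp [od]
  | succ m ih =>
    rw [show 2*(m+1) = 2*m+1+1 by ring, prod_range_succ, prod_range_succ, ih, prod_range_succ]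
    unfold od
    rw [prod_range_succ]
    push_cast
    ring

lemma od2 (m : ℕ) : od (2*m) = od m * ∏ j ∈ range m, (2*((m:ℚ)+j)+1) := by
  unfold od
  rw [two_mul, prod_range_add]
  push_cast
  rfl

lemma cb4 (m : ℕ) : ((4*m).choose (2*m) : ℚ) = ∏ j ∈ range m, (2*(2*((m:ℚ)+j)+1)/(j+1)) := by
  have h := cb_od (2*m)
  rw [fact2, od2, show 2*(2*m) = 4*m by ring] at h
  rw [prod_div_distrib]
  have hn : ∏ i ∈ range m, ((i:ℚ)+1) ≠ 0 := prod_ne_zero_iff.mpr (fun i _ => by positivity)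
  rw [eq_div_iff hn, prod_mul_distrib, prod_const, card_range]
  apply mul_right_cancel₀ (mul_ne_zero (pow_ne_zero m (two_ne_zero (α := ℚ))) (od_ne m))
  have e : (2:ℚ)^(2*m) = 2^m * 2^m := by rw [two_mul, pow_add]
  rw [e] at h
  linear_combination h

/-- common factor -/
def Qm (m : ℕ) : ℚ := ∏ j ∈ range m, (-4*((m:ℚ)+j+1)/(j+1))

lemma C_Q (m : ℕ) : ((4*m).choose (2*m) : ℚ) = Qm m * ∏ j ∈ range m, (1 - (6*(m:ℚ)+1) * (1/(2*((m:ℚ)+j+1)))) := by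
  rw [cb4, prod_div_distrib, ← prod_range_reflect (fun j => 2*(2*((m:ℚ)+j)+1))]
  unfold Qm
  rw [← prod_mul_distrib, ← prod_div_distrib]
  apply prod_congr rfl
  intro j hj
  rw [mem_range] at hj
  have e : ((m - 1 - j : ℕ) : ℚ) = (m:ℚ) - 1 - j := by
    rw [Nat.sub_sub, Nat.cast_sub (by omega)]; push_cast; ring
  rw [e]
  have h1 : (j:ℚ)+1 ≠ 0 := by positivity
  have h2 : (m:ℚ)+j+1 ≠ 0 := by positivity
  field_simp
  ring

lemma V1_Q (m : ℕ) : V1 m * ∏ j ∈ range m, (1 - (6*(m:ℚ)+1) * (1/(6*((j:ℚ)+1)))) =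
    Qm m * (∏ j ∈ range m, (1 - (6*(m:ℚ)+1) * (1/(6*((m:ℚ)+j+1))))) *
      ∏ j ∈ range m, (1 - (6*(m:ℚ)+1) * (1/(6*(j:ℚ)+5))) := by
  rw [V1_eq, ← prod_range_reflect (fun i => -8*(3*(i:ℚ)+1)/(6*i+1))]
  unfold Qm
  rw [← prod_mul_distrib, ← prod_mul_distrib, ← prod_mul_distrib]
  apply prod_congr rfl
  intro j hj
  rw [mem_range] at hj
  have e : ((m - 1 - j : ℕ) : ℚ) = (m:ℚ) - 1 - j := by
    rw [Nat.sub_sub, Nat.cast_sub (by omega)]; push_cast; ring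
  rw [e]
  have h1 : (j:ℚ)+1 ≠ 0 := by positivity
  have h2 : (m:ℚ)+j+1 ≠ 0 := by positivity
  have h3 : 6*(j:ℚ)+5 ≠ 0 := by positivity
  have h4 : 6*((m:ℚ) - 1 - j)+1 ≠ 0 := by
    have : (6*((m:ℤ) - 1 - j)+1 : ℤ) ≠ 0 := by omega
    exact_mod_cast this
  have e1 : -8*(3*((m:ℚ)-1-j)+1)/(6*((m:ℚ)-1-j)+1) * (1 - (6*(m:ℚ)+1) * (1/(6*((j:ℚ)+1)))) = 8*(3*((m:ℚ)-1-j)+1)/(6*(j+1)) := by
    have g : 1 - (6*(m:ℚ)+1) * (1/(6*((j:ℚ)+1))) = -(6*((m:ℚ)-1-j)+1)/(6*(j+1)) := by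
      field_simp; ring
    rw [g]
    generalize 6*((m:ℚ)-1-j)+1 = D at *
    field_simp
  rw [e1]
  field_simp
  ring

lemma V2_C (m : ℕ) : V2 (2*m) * ∏ j ∈ range (2*m), (1 - (6*(m:ℚ)+1) * (1/(3*((j:ℚ)+1)))) = ((4*m).choose (2*m) : ℚ) := by
  have h3 := cb_eq (2*m)
  rw [show 2*(2*m) = 4*m by ring] at h3
  rw [h3, V2_eq]
  have e0 : ∏ i ∈ range (2*m), (-6*(2*(i:ℚ)+1)/(3*i+1)) = (∏ i ∈ range (2*m), (-6*(2*(i:ℚ)+1))) / ∏ i ∈ range (2*m), (3*(i:ℚ)+1) := prod_div_distrib ..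
  rw [e0, ← prod_range_reflect (fun i => (3*(i:ℚ)+1)), ← prod_div_distrib, ← prod_mul_distrib]
  apply prod_congr rfl
  intro j hj
  rw [mem_range] at hj
  have e : ((2*m - 1 - j : ℕ) : ℚ) = 2*(m:ℚ) - 1 - j := by
    rw [Nat.sub_sub, Nat.cast_sub (by omega)]; push_cast; ring
  rw [e]
  have h1 : (j:ℚ)+1 ≠ 0 := by positivity
  have h4 : 3*(2*(m:ℚ) - 1 - j)+1 ≠ 0 := by
    have : (3*(2*(m:ℤ) - 1 - j)+1 : ℤ) ≠ 0 := by omega
    exact_mod_cast this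
  have g : 1 - (6*(m:ℚ)+1) * (1/(3*((j:ℚ)+1))) = -(3*(2*(m:ℚ)-1-j)+1)/(3*(j+1)) := by
    field_simp; ring
  rw [g]
  generalize 3*(2*(m:ℚ) - 1 - j)+1 = D at *
  field_simp
  ring

section

variable {p : ℕ} [hp : Fact p.Prime] {m : ℕ} (hm : 6*m+1 = p) (hm1 : 1 ≤ m)
include hm hm1

lemma inv_m {k : ℕ} (h0 : 0 < k) (h1 : k < p) : (1/(k:ℚ)) ∈ Zp p := by
  rw [one_div]; exact inv_s hm hm1 h0 h1

lemma sixth_mem : (1/6:ℚ) ∈ Zp p := by
  have := inv_m (p := p) hm hm1 (k := 6) (by norm_num) (by omega)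
  push_cast at this; exact this

/-- the combination of the two closed forms -/
theorem comb : I p 2 (2 * V1 m - V2 (2*m) - ((4*m).choose (2*m) : ℚ)) := by
  have hpq := pq hm hm1
  have s6 := sixth_mem (p := p) hm hm1
  have mj : ∀ j < m, 1/((m:ℚ)+j+1) ∈ Zp p := by
    intro j hj
    have := inv_m (p := p) hm hm1 (k := m+j+1) (by omega) (by omega)
    push_cast at this; exact this
  have m1 : ∀ j < 2*m, 1/((j:ℚ)+1) ∈ Zp p := by
    intro j hj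
    have := inv_m (p := p) hm hm1 (k := j+1) (by omega) (by omega)
    push_cast at this; exact this
  have m5 : ∀ j < m, 1/(6*(j:ℚ)+5) ∈ Zp p := by
    intro j hj
    have := inv_m (p := p) hm hm1 (k := 6*j+5) (by omega) (by omega)
    push_cast at this; exact this
  have c2 : (2:ℚ) ∈ Zp p := nat_mem 2
  have c3 : (3:ℚ) ∈ Zp p := nat_mem 3
  set A : ℚ := ∑ j ∈ range m, 1/((m:ℚ)+j+1) with hA
  set B : ℚ := ∑ j ∈ range m, 1/((j:ℚ)+1) with hB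
  have mA : A ∈ Zp p := (Zp p).sum_mem (fun j hj => mj j (mem_range.mp hj))
  have mB : B ∈ Zp p := (Zp p).sum_mem (fun j hj => m1 j (by have := mem_range.mp hj; omega))
  -- the five products
  have P1 := prod_lin (p := p) (fun j => 1/(2*((m:ℚ)+j+1))) m (by
    intro j hj
    have e : 1/(2*((m:ℚ)+j+1)) = 3 * (1/6) * (1/((m:ℚ)+j+1)) := by
      have : (m:ℚ)+j+1 ≠ 0 := by positivity
      field_simp; norm_num
    rw [e]; exact (Zp p).mul_mem ((Zp p).mul_mem c3 s6) (mj j hj))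
  have P2 := prod_lin (p := p) (fun j => 1/(6*((m:ℚ)+j+1))) m (by
    intro j hj
    have e : 1/(6*((m:ℚ)+j+1)) = (1/6) * (1/((m:ℚ)+j+1)) := by
      have : (m:ℚ)+j+1 ≠ 0 := by positivity
      field_simp
    rw [e]; exact (Zp p).mul_mem s6 (mj j hj))
  have P3 := prod_lin (p := p) (fun j => 1/(6*(j:ℚ)+5)) m m5
  have P4 := prod_lin (p := p) (fun j => 1/(6*((j:ℚ)+1))) m (by
    intro j hj
    have e : 1/(6*((j:ℚ)+1)) = (1/6) * (1/((j:ℚ)+1)) := by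
      have : (j:ℚ)+1 ≠ 0 := by positivity
      field_simp
    rw [e]; exact (Zp p).mul_mem s6 (m1 j (by omega)))
  have P5 := prod_lin (p := p) (fun j => 1/(3*((j:ℚ)+1))) (2*m) (by
    intro j hj
    have e : 1/(3*((j:ℚ)+1)) = 2 * (1/6) * (1/((j:ℚ)+1)) := by
      have : (j:ℚ)+1 ≠ 0 := by positivity
      field_simp; norm_num
    rw [e]; exact (Zp p).mul_mem ((Zp p).mul_mem c2 s6) (m1 j hj))
  -- the sums
  have S1 : ∑ j ∈ range m, 1/(2*((m:ℚ)+j+1)) = 3*(1/6)*A := by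
    rw [hA, mul_sum]; apply sum_congr rfl; intro j _
    have : (m:ℚ)+j+1 ≠ 0 := by positivity
    field_simp; norm_num
  have S2 : ∑ j ∈ range m, 1/(6*((m:ℚ)+j+1)) = (1/6)*A := by
    rw [hA, mul_sum]; apply sum_congr rfl; intro j _
    have : (m:ℚ)+j+1 ≠ 0 := by positivity
    field_simp
  have S4 : ∑ j ∈ range m, 1/(6*((j:ℚ)+1)) = (1/6)*B := by
    rw [hB, mul_sum]; apply sum_congr rfl; intro j _
    have : (j:ℚ)+1 ≠ 0 := by positivity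
    field_simp
  have S5 : ∑ j ∈ range (2*m), 1/(3*((j:ℚ)+1)) = 2*(1/6)*(A+B) := by
    rw [two_mul m, sum_range_add, hA, hB, add_comm, mul_add, mul_sum, mul_sum]
    congr 1
    · apply sum_congr rfl; intro j _
      have : (m:ℚ)+j+1 ≠ 0 := by positivity
      push_cast
      field_simp; norm_num
    · apply sum_congr rfl; intro j _
      have : (j:ℚ)+1 ≠ 0 := by positivity
      field_simp; norm_num
  set s3 : ℚ := ∑ j ∈ range m, 1/(6*(j:ℚ)+5) with hs3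
  have ms3 : s3 ∈ Zp p := (Zp p).sum_mem (fun j hj => m5 j (mem_range.mp hj))
  have h3A : I p 1 (s3 - (1/6)*A) := by
    rw [hs3, ← S2, ← sum_sub_distrib]
    apply I.sum
    intro j hj
    have hj' := mem_range.mp hj
    have e : 1/(6*(j:ℚ)+5) - 1/(6*((m:ℚ)+j+1)) = (p:ℚ)^1 * ((1/6) * (1/(6*(j:ℚ)+5)) * (1/((m:ℚ)+j+1))) := by
      have : (m:ℚ)+j+1 ≠ 0 := by positivity
      have : 6*(j:ℚ)+5 ≠ 0 := by positivity
      rw [hpq]; field_simp; ring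
    rw [e]
    exact (I.p_pow 1).mul_mem ((Zp p).mul_mem ((Zp p).mul_mem s6 (m5 j hj')) (mj j hj'))
  rw [S1] at P1
  rw [S2] at P2
  rw [S4] at P4
  rw [S5] at P5
  have hC := C_Q m
  have hV1 := V1_Q m
  have hV2 := V2_C m
  rw [← hpq] at hC hV1 hV2
  generalize (∏ j ∈ range m, (1 - (p:ℚ) * (1/(2*((m:ℚ)+j+1))))) = E1 at *
  generalize (∏ j ∈ range m, (1 - (p:ℚ) * (1/(6*((m:ℚ)+j+1))))) = E2 at *
  generalize (∏ j ∈ range m, (1 - (p:ℚ) * (1/(6*(j:ℚ)+5)))) = E3 at *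
  generalize (∏ j ∈ range m, (1 - (p:ℚ) * (1/(6*((j:ℚ)+1))))) = E4 at *
  generalize (∏ j ∈ range (2*m), (1 - (p:ℚ) * (1/(3*((j:ℚ)+1))))) = E5 at *
  have mQ : Qm m ∈ Zp p := by
    unfold Qm
    apply (Zp p).prod_mem
    intro j hj
    have hj' := mem_range.mp hj
    have e : -4*((m:ℚ)+j+1)/(j+1) = (-4*((m:ℚ)+j+1)) * (1/((j:ℚ)+1)) := by ring
    rw [e]
    refine (Zp p).mul_mem ?_ (m1 j (by omega))
    have : (-4*((m:ℚ)+j+1)) = ((-4*((m:ℤ)+j+1) : ℤ) : ℚ) := by push_cast; ring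
    rw [this]; exact int_mem _
  have sA : 3*(1/6)*A ∈ Zp p := (Zp p).mul_mem ((Zp p).mul_mem c3 s6) mA
  have sA6 : (1/6)*A ∈ Zp p := (Zp p).mul_mem s6 mA
  have sB6 : (1/6)*B ∈ Zp p := (Zp p).mul_mem s6 mB
  have sAB : 2*(1/6)*(A+B) ∈ Zp p := (Zp p).mul_mem ((Zp p).mul_mem c2 s6) ((Zp p).add_mem mA mB)
  have Q1 := mul_lin (mul_lin P2 sA6 P3 ms3) ((Zp p).add_mem sA6 ms3) P5 sAB
  have Q2 := mul_lin P1 sA P4 sB6
  have Q3 := mul_lin Q2 ((Zp p).add_mem sA sB6) P5 sAB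
  have unitE : ∀ (E s : ℚ), s ∈ Zp p → I p 2 (E - (1 - p*s)) → E ≠ 0 ∧ E⁻¹ ∈ Zp p := by
    intro E s hs h
    have h1 : I p 1 (E - 1) := by
      have e : E - 1 = (E - (1 - p*s)) + (p:ℚ)^1 * (-s) := by ring
      rw [e]
      exact (h.mono (by norm_num)).add ((I.p_pow 1).mul_mem ((Zp p).neg_mem hs))
    have := unit h1
    exact ⟨this.1, this.2.1⟩
  obtain ⟨n4, i4⟩ := unitE E4 _ sB6 P4
  obtain ⟨n5, i5⟩ := unitE E5 _ sAB P5
  have key : I p 2 (2*(E2*E3*E5) - E1*E4 - E1*E4*E5) := by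
    have e : 2*(E2*E3*E5) - E1*E4 - E1*E4*E5 = 2 * (E2*E3*E5 - (1 - p*((1/6)*A + s3 + 2*(1/6)*(A+B)))) -
        (E1*E4 - (1 - p*(3*(1/6)*A + (1/6)*B))) - (E1*E4*E5 - (1 - p*(3*(1/6)*A + (1/6)*B + 2*(1/6)*(A+B)))) -
        2 * ((p:ℚ)^1 * (s3 - (1/6)*A)) := by ring
    rw [e]
    have h2 : I p 2 ((p:ℚ)^1 * (s3 - (1/6)*A)) := by
      have := (I.p_pow (p := p) 1).mul h3A
      exact this
    exact (((I.mem_mul c2 Q1).sub Q2).sub Q3).sub (I.mem_mul c2 h2)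
  have e : 2 * V1 m - V2 (2*m) - ((4*m).choose (2*m) : ℚ) = Qm m * (2*(E2*E3*E5) - E1*E4 - E1*E4*E5) * (E4⁻¹ * E5⁻¹) := by
    have v1 : V1 m = Qm m * E2 * E3 * E4⁻¹ := by rw [← hV1]; field_simp
    have v2 : V2 (2*m) = Qm m * E1 * E5⁻¹ := by rw [← hC, ← hV2]; field_simp
    rw [v1, v2, hC]; field_simp
  rw [e]
  exact (I.mem_mul mQ key).mul_mem ((Zp p).mul_mem i4 i5)

/-- comparison of the terms -/
lemma terms (k : ℕ) (hk : k ≤ 2*m) : T0 k ∈ Zp p ∧ I p 1 (T1 m k - T0 k) ∧ I p 1 (T2 (2*m) k - T0 k) ∧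
    I p 2 (2 * T1 m k - T2 (2*m) k - T0 k) := by
  induction k with
  | zero =>
    unfold T0 T1 T2
    rw [hy_zero, hy_zero, hy_zero, sub_self, show (2:ℚ)*1 - 1 - 1 = 0 by norm_num]
    exact ⟨(Zp p).one_mem, I.zero 1, I.zero 1, I.zero 2⟩
  | succ k ih =>
    obtain ⟨a0, a1, a2, a3⟩ := ih (by omega)
    obtain ⟨f0, f1, f2, f3⟩ := factors hm hm1 (i := k) (by omega)
    have e0 : T0 (k+1) = T0 k * (9*((1:ℚ)/3+k)*(1/3+k)/((1+k)*(1+k))) := hy_succ _ _ _ _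
    have e1 : T1 m (k+1) = T1 m k * (9*(-(2*m:ℚ)+k)*(1/6-m+k)/((1/2-3*m+k)*(1+k))) := hy_succ _ _ _ _
    have e2 : T2 (2*m) (k+1) = T2 (2*m) k * (9*(-(2*m:ℚ)+k)*(-(2*(2*m):ℚ)-1/3+k)/((-(3*(2*m):ℚ)+k)*(1+k))) := by
      have := hy_succ (-((2*m:ℕ):ℚ)) (-(2*((2*m:ℕ):ℚ))-1/3) (-(3*((2*m:ℕ):ℚ))) k
      push_cast at this
      unfold T2
      push_cast
      exact this
    rw [e0, e1, e2]
    generalize (9*((1:ℚ)/3+k)*(1/3+k)/((1+k)*(1+k))) = g0 at *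
    generalize (9*(-(2*m:ℚ)+k)*(1/6-m+k)/((1/2-3*m+k)*(1+k))) = g1 at *
    generalize (9*(-(2*m:ℚ)+k)*(-(2*(2*m):ℚ)-1/3+k)/((-(3*(2*m):ℚ)+k)*(1+k))) = g2 at *
    generalize T0 k = u0 at *
    generalize T1 m k = u1 at *
    generalize T2 (2*m) k = u2 at *
    have c2 : (2:ℚ) ∈ Zp p := nat_mem 2
    have m1 : u1 ∈ Zp p := by
      have : u1 = (u1 - u0) + u0 := by ring
      rw [this]; exact (Zp p).add_mem a1.mem a0
    have m2 : u2 ∈ Zp p := by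
      have : u2 = (u2 - u0) + u0 := by ring
      rw [this]; exact (Zp p).add_mem a2.mem a0
    refine ⟨(Zp p).mul_mem a0 f0, ?_, ?_, ?_⟩
    · have e : u1*g1 - u0*g0 = (u1 - u0)*g0 + (g1 - g0)*u1 := by ring
      rw [e]; exact (a1.mul_mem f0).add (f1.mul_mem m1)
    · have e : u2*g2 - u0*g0 = (u2 - u0)*g0 + (g2 - g0)*u2 := by ring
      rw [e]; exact (a2.mul_mem f0).add (f2.mul_mem m2)
    · have e : 2*(u1*g1) - u2*g2 - u0*g0 = (2*u1 - u2 - u0)*g0 + (2*g1 - g2 - g0)*u1 + ((u1 - u0) - (u2 - u0))*(g2 - g0) := by ring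
      rw [e]
      exact ((a3.mul_mem f0).add (f3.mul_mem m1)).add ((a1.sub a2).mul f2)

lemma tail (k : ℕ) (hk : 2*m < k) (hk2 : k < p) : I p 2 (T0 k) := by
  induction k with
  | zero => omega
  | succ k ih =>
    have e0 : T0 (k+1) = T0 k * (9*((1:ℚ)/3+k)*(1/3+k)/((1+k)*(1+k))) := hy_succ _ _ _ _
    have i1 : (1/(1+(k:ℚ))) ∈ Zp p := by
      have := inv_m (p := p) hm hm1 (k := 1+k) (by omega) (by omega)
      push_cast at this; exact this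
    have hpos : (1+(k:ℚ)) ≠ 0 := by positivity
    rcases Nat.lt_or_ge (2*m) k with h | h
    · have ih' := ih h (by omega)
      rw [e0]
      have e : (9*((1:ℚ)/3+k)*(1/3+k)/((1+k)*(1+k))) = ((((3*k+1)^2 : ℕ)) : ℚ) * ((1/(1+(k:ℚ))) * (1/(1+(k:ℚ)))) := by
        push_cast; field_simp; ring
      rw [e]
      exact ih'.mul_mem ((Zp p).mul_mem (nat_mem _) ((Zp p).mul_mem i1 i1))
    · have hkm : k = 2*m := by omega
      have t := (terms hm hm1 k (by omega)).1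
      rw [e0]
      have e : (9*((1:ℚ)/3+k)*(1/3+k)/((1+k)*(1+k))) = (p:ℚ)^2 * ((1/(1+(k:ℚ))) * (1/(1+(k:ℚ)))) := by
        rw [pq hm hm1, hkm]
        have hpos2 : (1+((2*m:ℕ):ℚ)) ≠ 0 := by positivity
        push_cast
        push_cast at hpos2
        field_simp; ring
      rw [e]
      exact I.mem_mul t ((I.p_pow 2).mul_mem ((Zp p).mul_mem i1 i1))

/-- the sum modulo `p^2` -/
theorem sum_choose : I p 2 (∑ k ∈ range p, T0 k - ((4*m).choose (2*m) : ℚ)) := by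
  have hsplit : ∑ k ∈ range p, T0 k = ∑ k ∈ range (2*m+1), T0 k + ∑ k ∈ range (4*m), T0 (2*m+1+k) := by
    rw [← sum_range_add, show 2*m+1+4*m = p by omega]
  have h1 : I p 2 (∑ k ∈ range (4*m), T0 (2*m+1+k)) := by
    apply I.sum
    intro k hk
    have := mem_range.mp hk
    exact tail hm hm1 _ (by omega) (by omega)
  have h2 : I p 2 (∑ k ∈ range (2*m+1), (2 * T1 m k - T2 (2*m) k - T0 k)) := by
    apply I.sum
    intro k hk
    have := mem_range.mp hk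
    exact (terms hm hm1 k (by omega)).2.2.2
  rw [sum_sub_distrib, sum_sub_distrib, ← mul_sum] at h2
  have h3 := comb hm hm1
  unfold V1 V2 at h3
  have e : ∑ k ∈ range p, T0 k - ((4*m).choose (2*m) : ℚ) = ∑ k ∈ range (4*m), T0 (2*m+1+k) -
      (2 * ∑ k ∈ range (2*m+1), T1 m k - ∑ k ∈ range (2*m+1), T2 (2*m) k - ∑ k ∈ range (2*m+1), T0 k) +
      (2 * ∑ k ∈ range (2*m+1), T1 m k - ∑ k ∈ range (2*m+1), T2 (2*m) k - ((4*m).choose (2*m) : ℚ)) := by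
    rw [hsplit]; ring
  rw [e]
  exact (h1.sub h2).add h3

end

end Pool.Agent.R856.EJ
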