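import Pool.Agent.R856.CM6

set_option autoImplicit false

/-!
Cubic Jacobi sums in `Z[ω]` and their reduction modulo `p^2`.
-/

namespace Pool.Agent.R856.EJ

open Finset QuadraticAlgebra

noncomputable section

/-- the ring `Z[ω]` -/
abbrev E := QuadraticAlgebra ℤ (-1) (-1)

def om : E := ⟨0, 1⟩

lemma om_sq : om * om = -1 - om := by
  ext <;> simp [om]

lemma om3 : om^3 = 1 := by
  have h := om_sq
  linear_combination (om - 1) * h

lemma norm_form (z : E) : norm z = z.re^2 - z.re * z.im + z.im^2 := by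
  rw [norm_def]; ring

lemma norm_zero' {z : E} (h : norm z = 0) : z = 0 := by
  rw [norm_form] at h
  have h1 : (2*z.re - z.im)^2 + 3*z.im^2 = 0 := by linear_combination 4*h
  have h2 : z.im^2 = 0 := by nlinarith [sq_nonneg (2*z.re - z.im), sq_nonneg z.im]
  have h3 : z.im = 0 := pow_eq_zero_iff (two_ne_zero) |>.mp h2
  have h4 : z.re = 0 := by
    rw [h3] at h1
    have : z.re^2 = 0 := by linarith
    exact pow_eq_zero_iff (two_ne_zero) |>.mp this
  ext
  · exact h4
  · exact h3

/-- a complex cube root of unity -/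
lemma exists_wc : ∃ w : ℂ, w * w = (-1:ℤ) • (1:ℂ) + (-1:ℤ) • w := by
  have h := Complex.isPrimitiveRoot_exp 3 (by norm_num)
  refine ⟨Complex.exp (2 * Real.pi * Complex.I / (3:ℕ)), ?_⟩
  set w := Complex.exp (2 * Real.pi * Complex.I / (3:ℕ)) with hw
  have h1 : w^3 = 1 := h.pow_eq_one
  have h2 : w ≠ 1 := by
    intro h0
    have := h.pow_ne_one_of_pos_of_lt (l := 1) (by norm_num) (by norm_num)
    rw [pow_one] at this
    exact this h0
  have h3 : (w - 1) * (w^2 + w + 1) = 0 := by linear_combination h1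
  rcases mul_eq_zero.mp h3 with h4 | h4
  · exact absurd (sub_eq_zero.mp h4) h2
  · simp only [neg_smul, one_smul]
    linear_combination h4

def toC : E →+* ℂ := (lift ⟨exists_wc.choose, exists_wc.choose_spec⟩ : E →ₐ[ℤ] ℂ).toRingHom

lemma toC_inj : Function.Injective toC := by
  rw [injective_iff_map_eq_zero]
  intro z hz
  apply norm_zero'
  have h := algebraMap_norm_eq_mul_star z
  have h2 := congrArg toC h
  rw [map_mul, hz, zero_mul] at h2
  have h3 : toC (algebraMap ℤ E (norm z)) = ((norm z : ℤ) : ℂ) := by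
    rw [eq_intCast (algebraMap ℤ E), map_intCast]
  rw [h3] at h2
  exact_mod_cast h2

instance : IsDomain E := toC_inj.isDomain toC

lemma om_prim : IsPrimitiveRoot om 3 := by
  apply IsPrimitiveRoot.mk_of_lt _ (by norm_num) om3
  intro l h0 h1
  interval_cases l
  · rw [pow_one]
    intro h
    have := congrArg QuadraticAlgebra.im h
    simp [om] at this
  · rw [pow_two, om_sq]
    intro h
    have := congrArg QuadraticAlgebra.im h
    simp [om] at this

def omU : Eˣ := ⟨om, om^2, by rw [← pow_succ']; exact om3, by rw [← pow_succ]; exact om3⟩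

variable {p : ℕ} [hp : Fact p.Prime] {n : ℕ}

lemma omU_mem (hn : 3*n+1 = p) : omU ∈ rootsOfUnity (Fintype.card (ZMod p)ˣ) E := by
  rw [mem_rootsOfUnity]
  rw [ZMod.card_units_eq_totient, Nat.totient_prime hp.out, show p - 1 = 3*n by omega, pow_mul]
  have : omU^3 = 1 := by
    apply Units.ext
    push_cast
    exact om3
  rw [this, one_pow]

/-- the data of the Jacobi sum -/
theorem exists_jacobi (hn : 3*n+1 = p) (hn1 : 1 ≤ n) : ∃ (φ : E →+* ZMod (p^2)) (χ : MulChar (ZMod p) E),
    (∀ x : ZMod p, x ≠ 0 → φ (χ x) = ((((x.val : ℕ) : ℤ)^(p*(2*n)) : ℤ) : ZMod (p^2))) ∧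
    norm (jacobiSum χ χ) = p ∧ (3:ℤ) ∣ (jacobiSum χ χ).im ∧ (3:ℤ) ∣ (jacobiSum χ χ).re + 1 := by
  obtain ⟨g, hg⟩ := IsCyclic.exists_generator (α := (ZMod p)ˣ)
  have hord : orderOf g = p - 1 := by
    rw [orderOf_eq_card_of_forall_mem_zpowers hg, Nat.card_eq_fintype_card, ZMod.card_units_eq_totient,
      Nat.totient_prime hp.out]
  have hgen : ∀ x : ZMod p, x ≠ 0 → ∃ k : ℕ, x = (g : ZMod p)^k := by
    intro x hx
    obtain ⟨k, hk⟩ := (mem_powers_iff_mem_zpowers (x := g)).mpr (hg (Units.mk0 x hx))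
    refine ⟨k, ?_⟩
    have := congrArg (fun u : (ZMod p)ˣ => (u : ZMod p)) hk
    simpa using this.symm
  obtain ⟨v, hv⟩ : ∃ v : ℤ, v = (((g : ZMod p).val : ℕ) : ℤ) := ⟨_, rfl⟩
  have hvc : (v : ZMod p) = g := by rw [hv]; simp
  obtain ⟨W, hW⟩ : ∃ W : ℤ, W = v^(p*(2*n)) := ⟨_, rfl⟩
  have hW3 : (p:ℤ)^2 ∣ W^3 - 1 := by
    have e : W^3 - 1 = (v^(6*n))^p - 1^p := by rw [hW, one_pow, ← pow_mul, ← pow_mul]; congr 2; ring
    rw [e]
    apply CM.pow_p_congr
    apply CM.dvd_of_zmod
    push_cast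
    rw [hvc, show 6*n = (p-1)*2 by omega, pow_mul, ZMod.pow_card_sub_one_eq_one g.ne_zero]
    ring
  have hW1 : ¬ (p:ℤ) ∣ W - 1 := by
    intro h
    have h1 := CM.zmod_of_dvd h
    push_cast at h1
    rw [hW] at h1
    push_cast at h1
    rw [hvc, pow_mul, ZMod.pow_card] at h1
    have h2 : g^(2*n) = 1 := by
      apply Units.ext
      push_cast
      exact sub_eq_zero.mp h1
    have := orderOf_dvd_of_pow_eq_one h2
    rw [hord] at this
    have := Nat.le_of_dvd (by omega) this
    omega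
  have hWW : (p:ℤ)^2 ∣ W^2 + W + 1 := by
    have h2 : IsCoprime ((p:ℤ)^2) (W - 1) := by
      apply IsCoprime.pow_left
      rw [Int.isCoprime_iff_gcd_eq_one]
      exact (Nat.Prime.coprime_iff_not_dvd hp.out (n := (W-1).natAbs)).mpr
        (fun hd => hW1 (Int.natCast_dvd.mpr hd))
    apply h2.dvd_of_dvd_mul_left
    have : (W-1)*(W^2+W+1) = W^3 - 1 := by ring
    rw [this]; exact hW3
  have hw : (W : ZMod (p^2)) * (W : ZMod (p^2)) = (-1:ℤ) • (1:ZMod (p^2)) + (-1:ℤ) • (W : ZMod (p^2)) := by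
    have h := (ZMod.intCast_zmod_eq_zero_iff_dvd (W^2+W+1) (p^2)).mpr (by push_cast; exact hWW)
    push_cast at h
    simp only [neg_smul, one_smul]
    linear_combination h
  set φ : E →+* ZMod (p^2) := (lift ⟨(W : ZMod (p^2)), hw⟩ : E →ₐ[ℤ] ZMod (p^2)).toRingHom with hφ
  have hφom : φ om = (W : ZMod (p^2)) := by
    rw [hφ]
    change (lift ⟨(W : ZMod (p^2)), hw⟩ : E →ₐ[ℤ] ZMod (p^2)) om = _
    rw [lift_apply_apply]
    simp [om]
  set χ : MulChar (ZMod p) E := MulChar.ofRootOfUnity (omU_mem hn) hg with hχ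
  have hχg : χ (g : ZMod p) = om := MulChar.ofRootOfUnity_spec (omU_mem hn) hg
  refine ⟨φ, χ, ?_, ?_, ?_⟩
  · intro x hx
    obtain ⟨k, hk⟩ := hgen x hx
    have e1 : χ x = om^k := by rw [hk, map_pow, hχg]
    rw [e1, map_pow, hφom]
    have h1 : (p:ℤ)^2 ∣ ((v^k)^(2*n))^p - ((((x.val:ℕ):ℤ))^(2*n))^p := by
      apply CM.pow_p_congr
      apply CM.dvd_of_zmod
      push_cast
      rw [hvc, ZMod.natCast_zmod_val, ← hk]; ring
    have h2 := (ZMod.intCast_zmod_eq_zero_iff_dvd _ (p^2)).mpr (show ((p^2:ℕ):ℤ) ∣ _ by push_cast; exact h1)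
    rw [Int.cast_sub, sub_eq_zero] at h2
    have e2 : ((v^k)^(2*n))^p = W^k := by
      rw [hW, ← pow_mul, ← pow_mul, ← pow_mul]; congr 1; ring
    have e3 : ((((x.val:ℕ):ℤ))^(2*n))^p = ((x.val:ℕ):ℤ)^(p*(2*n)) := by
      rw [← pow_mul]; congr 1; ring
    rw [e2, e3] at h2
    rw [← h2]; push_cast; rfl
  · -- the norm
    have hχ1 : χ ≠ 1 := by
      intro h
      have : χ (g : ZMod p) = 1 := by rw [h]; exact MulChar.one_apply_coe g
      rw [hχg] at this
      exact om_prim.ne_one (by norm_num) this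
    have hχχ : χ * χ ≠ 1 := by
      intro h
      have : (χ * χ) (g : ZMod p) = 1 := by rw [h]; exact MulChar.one_apply_coe g
      rw [MulChar.mul_apply, hχg, ← pow_two] at this
      exact om_prim.pow_ne_one_of_pos_of_lt (by norm_num) (by norm_num) this
    have hprod : jacobiSum χ χ * jacobiSum χ⁻¹ χ⁻¹ = (p : E) := by
      apply toC_inj
      rw [map_mul, ← jacobiSum_ringHomComp, ← jacobiSum_ringHomComp, ← MulChar.ringHomComp_inv]
      rw [jacobiSum_mul_jacobiSum_inv]
      · rw [ZMod.card]; simp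
      · rw [ringChar.eq_zero, ZMod.ringChar_zmod_n]; exact hp.out.ne_zero.symm
      · exact (MulChar.ringHomComp_ne_one_iff toC_inj).mpr hχ1
      · exact (MulChar.ringHomComp_ne_one_iff toC_inj).mpr hχ1
      · rw [← MulChar.ringHomComp_mul]; exact (MulChar.ringHomComp_ne_one_iff toC_inj).mpr hχχ
    have homs : om * star om = 1 := by
      have h := algebraMap_norm_eq_mul_star om
      rw [← h, norm_form]; simp [om]
    have hinvval : ∀ x : ZMod p, χ⁻¹ x = star (χ x) := by
      intro x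
      by_cases hx : x = 0
      · rw [hx, MulChar.map_zero, MulChar.map_zero, star_zero]
      · have e1 : χ x * χ⁻¹ x = 1 := by
          rw [← MulChar.mul_apply, mul_inv_cancel, MulChar.one_apply (isUnit_iff_ne_zero.mpr hx)]
        obtain ⟨k, hk⟩ := hgen x hx
        have e2 : χ x * star (χ x) = 1 := by
          rw [hk, map_pow, hχg, star_pow, ← mul_pow, homs, one_pow]
        have hne : χ x ≠ 0 := by
          intro h; rw [h, zero_mul] at e1; exact zero_ne_one e1
        exact mul_left_cancel₀ hne (e1.trans e2.symm)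
    have hstar : jacobiSum χ⁻¹ χ⁻¹ = star (jacobiSum χ χ) := by
      unfold jacobiSum
      rw [star_sum]
      apply sum_congr rfl
      intro x _
      rw [hinvval, hinvval, star_mul']
    rw [hstar, ← algebraMap_norm_eq_mul_star, eq_intCast (algebraMap ℤ E)] at hprod
    exact_mod_cast hprod
  · have hχ3 : χ^3 = 1 := by
      rw [MulChar.eq_iff hg, MulChar.pow_apply_coe, hχg, om3, MulChar.one_apply_coe]
    obtain ⟨z, -, hz⟩ := exists_jacobiSum_eq_neg_one_add (n := 3) (by norm_num) hχ3 hχ3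
      (by rw [ZMod.card]; exact ⟨n, by omega⟩) om_prim
    have e : (om - 1)^2 = -3 * om := by
      have := om_sq
      linear_combination this
    rw [e] at hz
    rw [hz]
    constructor
    · refine ⟨-(z*om).im, ?_⟩
      have : (-1 + z * (-3*om) : E) = -1 + (((-3:ℤ)) : E) * (z*om) := by push_cast; ring
      rw [this]
      simp
      ring
    · refine ⟨-(z*om).re, ?_⟩
      have : (-1 + z * (-3*om) : E) = -1 + (((-3:ℤ)) : E) * (z*om) := by push_cast; ring
      rw [this]
      simp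
      ring

end

end Pool.Agent.R856.EJ
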