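import Pool.Agent.R856.EJ4

set_option autoImplicit false

/-!
The cubic Jacobi sum modulo `p^2`.
-/

namespace Pool.Agent.R856.EJ

open Finset

section

variable {p : ℕ} [hp : Fact p.Prime]

/-- harmonic numbers modulo `p` -/
def hh (p k : ℕ) : ZMod p := ∑ i ∈ range k, (((i+1 : ℕ) : ZMod p))⁻¹

lemma hh_succ (k : ℕ) : hh p (k+1) = hh p k + (((k+1 : ℕ) : ZMod p))⁻¹ := by unfold hh; rw [sum_range_succ]

lemma cast_ne {k : ℕ} (h0 : 0 < k) (h1 : k < p) : ((k:ℕ) : ZMod p) ≠ 0 := by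
  intro h
  rw [CharP.cast_eq_zero_iff (ZMod p) p] at h
  have := Nat.le_of_dvd h0 h
  omega

def aS (p N n : ℕ) : ZMod p := ∑ i ∈ range n, (((N+i).choose i : ℕ) : ZMod p) * (((n-i : ℕ) : ZMod p))⁻¹

lemma aS_rec (N n : ℕ) : aS p (N+1) (n+1) = aS p N (n+1) + aS p (N+1) n := by
  unfold aS
  rw [sum_range_succ' (fun i => (((N+1+i).choose i : ℕ) : ZMod p) * (((n+1-i : ℕ) : ZMod p))⁻¹),
    sum_range_succ' (fun i => (((N+i).choose i : ℕ) : ZMod p) * (((n+1-i : ℕ) : ZMod p))⁻¹)]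
  have e : ∀ i ∈ range n, (((N+1+(i+1)).choose (i+1) : ℕ) : ZMod p) * (((n+1-(i+1) : ℕ) : ZMod p))⁻¹ =
      (((N+(i+1)).choose (i+1) : ℕ) : ZMod p) * (((n+1-(i+1) : ℕ) : ZMod p))⁻¹ +
      (((N+1+i).choose i : ℕ) : ZMod p) * (((n-i : ℕ) : ZMod p))⁻¹ := by
    intro i _
    rw [show N+1+(i+1) = (N+1+i)+1 by ring, Nat.choose_succ_succ, show N+(i+1) = N+1+i by ring,
      show n+1-(i+1) = n-i by omega]
    push_cast; ring
  rw [sum_congr rfl e, sum_add_distrib]
  simp only [Nat.choose_zero_right]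
  ring

lemma aS_eq (N : ℕ) : ∀ n : ℕ, N + n < p → aS p N n = (((N+n).choose n : ℕ) : ZMod p) * (hh p (N+n) - hh p N) := by
  induction N with
  | zero =>
    intro n _
    unfold aS
    rw [zero_add, Nat.choose_self]
    have e : hh p 0 = 0 := by unfold hh; simp
    rw [e, Nat.cast_one, one_mul, sub_zero]
    unfold hh
    rw [← sum_range_reflect]
    apply sum_congr rfl
    intro i hi
    rw [mem_range] at hi
    rw [zero_add, Nat.choose_self, Nat.cast_one, one_mul]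
    congr 2
    omega
  | succ N ih =>
    intro n
    induction n with
    | zero => intro _; unfold aS; simp
    | succ n ih2 =>
      intro hlt
      rw [aS_rec, ih (n+1) (by omega), ih2 (by omega)]
      have c1 := cast_ne (p := p) (k := N+1) (by omega) (by omega)
      have c2 := cast_ne (p := p) (k := N+n+2) (by omega) (by omega)
      have h1 := Nat.choose_mul_succ_eq (N+n+1) (n+1)
      rw [show N+n+1+1-(n+1) = N+1 by omega, show N+n+1+1 = N+n+2 by ring] at h1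
      have h1' : (((N+n+1).choose (n+1) : ℕ) : ZMod p) * ((N+n+2:ℕ) : ZMod p) =
          (((N+n+2).choose (n+1) : ℕ) : ZMod p) * ((N+1:ℕ) : ZMod p) := by
        rw [← Nat.cast_mul, ← Nat.cast_mul, h1]
      have h2 : (((N+n+2).choose (n+1) : ℕ) : ZMod p) = (((N+n+1).choose n : ℕ) : ZMod p) + (((N+n+1).choose (n+1) : ℕ) : ZMod p) := by
        rw [show N+n+2 = (N+n+1)+1 by ring, Nat.choose_succ_succ]; push_cast; ring
      rw [show N + (n+1) = N+n+1 by ring, show N+1+n = N+n+1 by ring, show N+1+(n+1) = N+n+2 by ring]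
      have h3 : hh p (N+n+2) = hh p (N+n+1) + (((N+n+2 : ℕ) : ZMod p))⁻¹ := hh_succ (N+n+1)
      have h4 : hh p (N+1) = hh p N + (((N+1 : ℕ) : ZMod p))⁻¹ := hh_succ N
      rw [h3, h4]
      have h5 : (((N+n+1).choose (n+1) : ℕ) : ZMod p) * (((N+1 : ℕ) : ZMod p))⁻¹ =
          (((N+n+2).choose (n+1) : ℕ) : ZMod p) * (((N+n+2 : ℕ) : ZMod p))⁻¹ := by
        rw [← div_eq_mul_inv, ← div_eq_mul_inv, div_eq_div_iff c1 c2]; exact h1'
      linear_combination h5 + (hh p (N + n + 1) - hh p N - (((N+1 : ℕ) : ZMod p))⁻¹) * (-1) * h2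

end

section

variable {p : ℕ} [hp : Fact p.Prime] {n : ℕ} (hn : 3*n+1 = p) (hn1 : 1 ≤ n)
include hn hn1

lemma flip3 {k : ℕ} (hk : k ≤ 2*n) : (((2*n).choose k : ℕ) : ZMod p) = (-1)^k * (((n+k).choose k : ℕ) : ZMod p) := by
  have h1 := Nat.ascFactorial_eq_factorial_mul_choose n k
  have h2 := Nat.descFactorial_eq_factorial_mul_choose (2*n) k
  have hf : ((k.factorial : ℕ) : ZMod p) ≠ 0 := by
    rw [Ne, CharP.cast_eq_zero_iff (ZMod p) p, hp.out.dvd_factorial]
    omega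
  have h4 : (3:ZMod p) * (n:ZMod p) = -1 := by
    have : ((3*n+1 : ℕ) : ZMod p) = 0 := by rw [hn]; exact CharP.cast_eq_zero _ p
    push_cast at this
    linear_combination this
  have e : ∀ i ≤ 2*n, ((Nat.descFactorial (2*n) i : ℕ) : ZMod p) = (-1)^i * ((Nat.ascFactorial (n+1) i : ℕ) : ZMod p) := by
    intro i
    induction i with
    | zero => intro _; simp
    | succ i ih =>
      intro hi
      rw [Nat.descFactorial_succ, Nat.ascFactorial_succ]
      rw [Nat.cast_mul, Nat.cast_mul, Nat.cast_sub (show i ≤ 2*n by omega), ih (by omega)]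
      push_cast
      linear_combination ((-1)^i * ((Nat.ascFactorial (n+1) i : ℕ) : ZMod p)) * h4
  have e2 := e k hk
  rw [h1, h2] at e2
  apply mul_left_cancel₀ hf
  push_cast at e2 ⊢
  linear_combination e2

lemma hh_sym : hh p (2*n) = hh p n := by
  have hsplit : hh p (2*n) = hh p n + ∑ i ∈ range n, (((n+i+1 : ℕ) : ZMod p))⁻¹ := by
    unfold hh; rw [two_mul, sum_range_add]
  have hr : ∑ i ∈ range n, (((n+i+1 : ℕ) : ZMod p))⁻¹ = -∑ i ∈ range n, (((n+i+1 : ℕ) : ZMod p))⁻¹ := by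
    conv_lhs => rw [← sum_range_reflect]
    rw [← sum_neg_distrib]
    apply sum_congr rfl
    intro i hi
    rw [mem_range] at hi
    rw [← inv_neg]
    congr 1
    have : ((n + (n-1-i) + 1 : ℕ) : ZMod p) + ((n+i+1 : ℕ) : ZMod p) = ((p : ℕ) : ZMod p) := by
      rw [← Nat.cast_add]; congr 1; omega
    rw [CharP.cast_eq_zero (ZMod p) p] at this
    linear_combination this
  have h2 : (2:ZMod p) ≠ 0 := by
    have := cast_ne (p := p) (k := 2) (by norm_num) (by omega)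
    exact_mod_cast this
  have h0 : ∑ i ∈ range n, (((n+i+1 : ℕ) : ZMod p))⁻¹ = 0 := by
    have : 2 * ∑ i ∈ range n, (((n+i+1 : ℕ) : ZMod p))⁻¹ = 0 := by linear_combination hr
    rcases mul_eq_zero.mp this with h | h
    · exact absurd h h2
    · exact h
  rw [hsplit, h0, add_zero]

lemma zero_sum : ∑ i ∈ range n, (-1)^i * (((2*n).choose i : ℕ) : ZMod p) * (((n-i : ℕ) : ZMod p))⁻¹ = 0 := by
  have h := aS_eq (p := p) n n (by omega)
  rw [show n + n = 2*n by ring, hh_sym hn hn1, sub_self, mul_zero] at h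
  rw [← h]
  unfold aS
  apply sum_congr rfl
  intro i hi
  rw [mem_range] at hi
  rw [flip3 hn hn1 (by omega)]
  have h1 : ((-1 : ZMod p)^i) * (-1)^i = 1 := by rw [← mul_pow]; simp
  linear_combination ((((n+i).choose i : ℕ) : ZMod p) * (((n-i : ℕ) : ZMod p))⁻¹) * h1

lemma half_alt (hev : n % 2 = 0) : 2 * ∑ i ∈ range n, (-1)^i * (((2*n).choose i : ℕ) : ZMod p) = -(((2*n).choose n : ℕ) : ZMod p) := by
  have h := Int.alternating_sum_range_choose (n := 2*n)
  rw [if_neg (by omega)] at h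
  have h1 : ∑ i ∈ range (2*n+1), ((-1:ℤ))^i * ((2*n).choose i : ℤ) =
      ∑ i ∈ range n, ((-1:ℤ))^i * ((2*n).choose i : ℤ) + ((-1)^n * ((2*n).choose n : ℤ) +
        ∑ i ∈ range n, ((-1:ℤ))^(n+1+i) * ((2*n).choose (n+1+i) : ℤ)) := by
    rw [show 2*n+1 = n + (1 + n) by ring, sum_range_add, sum_range_add, sum_range_one]
    congr 2
    apply sum_congr rfl
    intro i _
    rw [show n + (1 + i) = n+1+i by ring]
  have h2 : ∑ i ∈ range n, ((-1:ℤ))^(n+1+i) * ((2*n).choose (n+1+i) : ℤ) = ∑ i ∈ range n, ((-1:ℤ))^i * ((2*n).choose i : ℤ) := by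
    rw [← sum_range_reflect]
    apply sum_congr rfl
    intro i hi
    rw [mem_range] at hi
    have e1 : n+1+(n-1-i) = 2*n - i := by omega
    rw [e1, Nat.choose_symm (by omega)]
    congr 1
    have e2 : ((-1:ℤ))^(2*n-i) * (-1)^i = 1 := by
      rw [← pow_add, show 2*n-i+i = 2*n by omega, pow_mul]; simp
    have e3 : ((-1:ℤ))^i * (-1)^i = 1 := by rw [← mul_pow]; simp
    calc ((-1:ℤ))^(2*n-i) = (-1)^(2*n-i) * ((-1)^i * (-1)^i) := by rw [e3, mul_one]
      _ = ((-1)^(2*n-i) * (-1)^i) * (-1)^i := by ring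
      _ = (-1)^i := by rw [e2, one_mul]
  have hsgn : ((-1:ℤ))^n = 1 := by
    rw [show n = 2*(n/2) by omega, pow_mul]; simp
  rw [h1, h2, hsgn] at h
  have h3 : 2 * ∑ i ∈ range n, ((-1:ℤ))^i * ((2*n).choose i : ℤ) = -((2*n).choose n : ℤ) := by linarith
  have h4 := congrArg (fun z : ℤ => (z : ZMod p)) h3
  push_cast at h4 ⊢
  exact h4

/-- the key first order sum -/
lemma key_sum (hev : n % 2 = 0) : (4:ZMod p) * n * ∑ i ∈ range n, (-1)^i * (((2*n-1).choose i : ℕ) : ZMod p) * (((n-i : ℕ) : ZMod p))⁻¹ =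
    -(((2*n).choose n : ℕ) : ZMod p) := by
  have e : ∀ i ∈ range n, (4:ZMod p) * n * ((-1)^i * (((2*n-1).choose i : ℕ) : ZMod p) * (((n-i : ℕ) : ZMod p))⁻¹) =
      2 * ((-1)^i * (((2*n).choose i : ℕ) : ZMod p)) + (2*n) * ((-1)^i * (((2*n).choose i : ℕ) : ZMod p) * (((n-i : ℕ) : ZMod p))⁻¹) := by
    intro i hi
    rw [mem_range] at hi
    have c := cast_ne (p := p) (k := n-i) (by omega) (by omega)
    have h1 := Nat.choose_mul_succ_eq (2*n-1) i
    rw [show 2*n-1+1 = 2*n by omega] at h1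
    have h1' : (((2*n-1).choose i : ℕ) : ZMod p) * (2*n) = (((2*n).choose i : ℕ) : ZMod p) * ((n:ZMod p) + ((n-i : ℕ) : ZMod p)) := by
      have : (2*n-1).choose i * (2*n) = (2*n).choose i * (n + (n-i)) := by rw [h1]; congr 1; omega
      exact_mod_cast congrArg (fun z : ℕ => (z : ZMod p)) this
    have h2 : ((n-i : ℕ) : ZMod p) * (((n-i : ℕ) : ZMod p))⁻¹ = 1 := mul_inv_cancel₀ c
    linear_combination (2 * (-1)^i * (((n-i : ℕ) : ZMod p))⁻¹) * h1' + (2 * (-1)^i * (((2*n).choose i : ℕ) : ZMod p)) * h2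
  rw [mul_sum, sum_congr rfl e, sum_add_distrib, ← mul_sum, ← mul_sum, zero_sum hn hn1, mul_zero, add_zero]
  exact half_alt hn hn1 hev

end

end Pool.Agent.R856.EJ
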