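import Pool.Agent.R856.EJ5

set_option autoImplicit false

/-!
The reduction of the cubic Jacobi sum is minus a central binomial coefficient modulo `p^2`.
-/

namespace Pool.Agent.R856.EJ

open Finset

variable {p : ℕ} [hp : Fact p.Prime]

lemma ee_z (r : ℕ) (h1 : r + 1 < p) : ((CM.ee p (r+1) : ℕ) : ZMod p) * (-1)^(r+1) = -(((r+1 : ℕ) : ZMod p))⁻¹ := by
  have h2 := CM.ee_mul (p := p) (r+1) (by omega) h1
  have h3 : p * (p-1).choose r = p.choose (r+1) * (r+1) := by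
    have := Nat.add_one_mul_choose_eq (p-1) r
    rw [show p - 1 + 1 = p by omega] at this
    exact this
  have h4 : (CM.ee p (r+1)) * (r+1) = (p-1).choose r := by
    apply Nat.eq_of_mul_eq_mul_left hp.out.pos
    rw [h3, ← h2]; ring
  have h5 := CM.zmod_of_dvd (CM.choose_pred (p := p) r (by omega))
  push_cast at h5
  have h4' : ((CM.ee p (r+1) : ℕ) : ZMod p) * ((r+1 : ℕ) : ZMod p) = (((p-1).choose r : ℕ) : ZMod p) := by
    rw [← Nat.cast_mul, h4]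
  have c := cast_ne (p := p) (k := r+1) (by omega) h1
  have h6 : ((-1 : ZMod p))^r * (-1)^r = 1 := by rw [← mul_pow]; simp
  apply mul_right_cancel₀ c
  rw [neg_mul, inv_mul_cancel₀ c, pow_succ]
  linear_combination (-1) * (-1)^r * h4' - (-1)^r * h5 - h6

variable {n : ℕ} (hn : 3*n+1 = p) (hn1 : 1 ≤ n)
include hn hn1

/-- the first order part -/
def EE (p : ℕ) (X : ℤ) : ℤ := ∑ r ∈ range p, (CM.ee p r : ℤ) * (-X)^r

omit hn1 in
lemma EE_cast (x : ZMod p) (X : ℤ) (hX : (X : ZMod p) = x) : ((EE p X : ℤ) : ZMod p) =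
    -∑ r ∈ range (3*n), (((r+1 : ℕ) : ZMod p))⁻¹ * x^(r+1) := by
  unfold EE
  have hr : range p = range (3*n+1) := by rw [hn]
  rw [hr, sum_range_succ', CM.ee_zero]
  push_cast
  rw [zero_mul, add_zero, ← sum_neg_distrib]
  apply sum_congr rfl
  intro r hr
  rw [mem_range] at hr
  have h := ee_z (p := p) r (by omega)
  rw [hX, neg_pow]
  push_cast at h
  linear_combination x^(r+1) * h

lemma term (x : ZMod p) : (p:ℤ)^2 ∣ (((x.val:ℕ):ℤ))^(p*(2*n)) * (1 - ((x.val:ℕ):ℤ))^(p*(2*n)) -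
    ((((x.val:ℕ):ℤ))^(p*(2*n)) * (1 - (((x.val:ℕ):ℤ))^p)^(2*n) +
      p * ((((x.val:ℕ):ℤ))^(p*(2*n)) * ((2*n:ℕ):ℤ) * EE p ((x.val:ℕ):ℤ) * (1 - (((x.val:ℕ):ℤ))^p)^(2*n-1))) := by
  have hp2 : p ≠ 2 := by omega
  have hodd : Odd p := hp.out.odd_of_ne_two hp2
  set X : ℤ := ((x.val:ℕ):ℤ)
  have h1 := CM.binom_p (p := p) (-X)
  rw [hodd.neg_pow] at h1
  have h2 : (1 - X)^p = (1 - X^p) + p * EE p X := by
    unfold EE
    rw [show 1 - X = -X + 1 by ring, h1]; ring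
  obtain ⟨k, hk⟩ := CM.pow_expand (1 - X^p) (EE p X) (2*n) (p:ℤ)
  refine ⟨X^(p*(2*n)) * k, ?_⟩
  have h3 : (1 - X)^(p*(2*n)) = (1 - X^p)^(2*n) + ((2*n:ℕ):ℤ) * p * EE p X * (1 - X^p)^(2*n-1) + (p:ℤ)^2 * k := by
    rw [pow_mul, h2]; linarith
  rw [h3]; ring

lemma mainM : (p:ℤ)^2 ∣ ∑ x : ZMod p, (((x.val:ℕ):ℤ))^(p*(2*n)) * (1 - (((x.val:ℕ):ℤ))^p)^(2*n) -
    ((2*n).choose n : ℤ) * (-1)^n * ((p:ℤ) - 1) := by
  have e : ∀ x : ZMod p, (((x.val:ℕ):ℤ))^(p*(2*n)) * (1 - (((x.val:ℕ):ℤ))^p)^(2*n) =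
      ∑ i ∈ range (2*n+1), (((2*n).choose i : ℤ) * (-1)^i) * (((x.val:ℕ):ℤ))^(p*(2*n+i)) := by
    intro x
    rw [sub_eq_add_neg, add_comm, add_pow, mul_sum]
    apply sum_congr rfl
    intro i _
    rw [one_pow, neg_pow, ← pow_mul, mul_add p, pow_add]
    ring
  rw [sum_congr rfl (fun x _ => e x), sum_comm]
  have e2 : ∀ i ∈ range (2*n+1), ∑ x : ZMod p, (((2*n).choose i : ℤ) * (-1)^i) * (((x.val:ℕ):ℤ))^(p*(2*n+i)) =
      (((2*n).choose i : ℤ) * (-1)^i) * CM.Wp p (2*n+i) := by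
    intro i _
    rw [← mul_sum]; rfl
  rw [sum_congr rfl e2]
  have e3 : ((2*n).choose n : ℤ) * (-1)^n * ((p:ℤ) - 1) = ∑ i ∈ range (2*n+1), if i = n then ((2*n).choose i : ℤ) * (-1)^i * ((p:ℤ) - 1) else 0 := by
    rw [sum_ite_eq', if_pos (mem_range.mpr (by omega))]
  rw [e3, ← sum_sub_distrib]
  apply dvd_sum
  intro i hi
  rw [mem_range] at hi
  by_cases h : i = n
  · rw [if_pos h, ← mul_sub]
    apply Dvd.dvd.mul_left
    exact CM.Wp_mul _ (by omega) ⟨1, by omega⟩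
  · rw [if_neg h, sub_zero]
    apply Dvd.dvd.mul_left
    apply CM.Wp_not
    rintro ⟨c, hc⟩
    have hp1 : p - 1 = 3*n := by omega
    rw [hp1] at hc
    have c1 : c < 2 := by
      by_contra hlt
      have : 3*n*2 ≤ 3*n*c := Nat.mul_le_mul_left _ (by omega)
      omega
    interval_cases c <;> omega

lemma inner1 (i : ℕ) (hi : i < n) : ∑ r ∈ range (3*n), (((r+1 : ℕ) : ZMod p))⁻¹ * (if (p-1) ∣ (2*n+(r+1)+i) then (1:ZMod p) else 0) =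
    (((n-i : ℕ) : ZMod p))⁻¹ := by
  rw [sum_eq_single (n-i-1)]
  · rw [if_pos ⟨1, by omega⟩, mul_one]
    congr 2
    omega
  · intro r hr hne
    rw [mem_range] at hr
    rw [if_neg, mul_zero]
    rintro ⟨c, hc⟩
    have hp1 : p - 1 = 3*n := by omega
    rw [hp1] at hc
    have c1 : c < 3 := by
      by_contra hlt
      have : 3*n*3 ≤ 3*n*c := Nat.mul_le_mul_left _ (by omega)
      omega
    interval_cases c <;> omega
  · intro h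
    exact absurd (mem_range.mpr (by omega)) h

lemma inner2 (i : ℕ) (hi : i < n) : ∑ r ∈ range (3*n), (((r+1 : ℕ) : ZMod p))⁻¹ * (if (p-1) ∣ (2*n+(r+1)+(n+i)) then (1:ZMod p) else 0) =
    (((3*n-i : ℕ) : ZMod p))⁻¹ := by
  rw [sum_eq_single (3*n-i-1)]
  · rw [if_pos ⟨2, by omega⟩, mul_one]
    congr 2
    omega
  · intro r hr hne
    rw [mem_range] at hr
    rw [if_neg, mul_zero]
    rintro ⟨c, hc⟩
    have hp1 : p - 1 = 3*n := by omega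
    rw [hp1] at hc
    have c1 : c < 3 := by
      by_contra hlt
      have : 3*n*3 ≤ 3*n*c := Nat.mul_le_mul_left _ (by omega)
      omega
    interval_cases c <;> omega
  · intro h
    exact absurd (mem_range.mpr (by omega)) h

lemma second (hev : n % 2 = 0) :
    ((∑ x : ZMod p, (((x.val:ℕ):ℤ))^(p*(2*n)) * ((2*n:ℕ):ℤ) * EE p ((x.val:ℕ):ℤ) * (1 - (((x.val:ℕ):ℤ))^p)^(2*n-1) : ℤ) : ZMod p) =
      -(((2*n).choose n : ℕ) : ZMod p) := by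
  rw [Int.cast_sum]
  have e : ∀ x : ZMod p, (((((x.val:ℕ):ℤ))^(p*(2*n)) * ((2*n:ℕ):ℤ) * EE p ((x.val:ℕ):ℤ) * (1 - (((x.val:ℕ):ℤ))^p)^(2*n-1) : ℤ) : ZMod p) =
      ∑ i ∈ range (2*n), ∑ r ∈ range (3*n), (-(2*n) * ((((2*n-1).choose i : ℕ) : ZMod p) * (-1)^i) * (((r+1 : ℕ) : ZMod p))⁻¹) * x^(2*n+(r+1)+i) := by
    intro x
    have hE := EE_cast hn x ((x.val:ℕ):ℤ) (by simp)
    push_cast at hE ⊢
    rw [hE, ZMod.natCast_zmod_val, pow_mul, ZMod.pow_card, sub_eq_add_neg 1 x, add_comm 1 (-x), add_pow,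
      show 2*n-1+1 = 2*n by omega]
    rw [mul_neg, neg_mul, mul_assoc, mul_sum, mul_sum, ← sum_neg_distrib]
    apply sum_congr rfl
    intro i _
    have h9 : ∀ S c : ZMod p, -(x^(2*n) * (2*n * (S * c))) = S * (-(x^(2*n) * (2*n) * c)) := by intro S c; ring
    rw [one_pow, mul_one, neg_pow, mul_assoc, h9, sum_mul]
    apply sum_congr rfl
    intro r _
    rw [pow_add x (2*n+(r+1)) i, pow_add x (2*n) (r+1)]
    ring
  rw [sum_congr rfl (fun x _ => e x), sum_comm]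
  have e2 : ∀ i ∈ range (2*n), ∑ x : ZMod p, ∑ r ∈ range (3*n), (-(2*n) * ((((2*n-1).choose i : ℕ) : ZMod p) * (-1)^i) * (((r+1 : ℕ) : ZMod p))⁻¹) * x^(2*n+(r+1)+i) =
      2*n * ((((2*n-1).choose i : ℕ) : ZMod p) * (-1)^i) * ∑ r ∈ range (3*n), (((r+1 : ℕ) : ZMod p))⁻¹ * (if (p-1) ∣ (2*n+(r+1)+i) then (1:ZMod p) else 0) := by
    intro i _
    rw [sum_comm, mul_sum]
    apply sum_congr rfl
    intro r _
    rw [← mul_sum, CM.sum_pow_zmod _ (by omega)]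
    split_ifs <;> ring
  rw [sum_congr rfl e2, show range (2*n) = range (n+n) by rw [two_mul], sum_range_add]
  have hkey := key_sum hn hn1 hev
  have p1 : ∑ i ∈ range n, 2*(n:ZMod p) * ((((2*n-1).choose i : ℕ) : ZMod p) * (-1)^i) * ∑ r ∈ range (3*n), (((r+1 : ℕ) : ZMod p))⁻¹ * (if (p-1) ∣ (2*n+(r+1)+i) then (1:ZMod p) else 0) =
      2*n * ∑ i ∈ range n, (-1)^i * (((2*n-1).choose i : ℕ) : ZMod p) * (((n-i : ℕ) : ZMod p))⁻¹ := by
    rw [mul_sum]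
    apply sum_congr rfl
    intro i hi
    rw [inner1 hn hn1 i (mem_range.mp hi)]; ring
  have p2 : ∑ i ∈ range n, 2*(n:ZMod p) * ((((2*n-1).choose (n+i) : ℕ) : ZMod p) * (-1)^(n+i)) * ∑ r ∈ range (3*n), (((r+1 : ℕ) : ZMod p))⁻¹ * (if (p-1) ∣ (2*n+(r+1)+(n+i)) then (1:ZMod p) else 0) =
      2*n * ∑ i ∈ range n, (-1)^i * (((2*n-1).choose i : ℕ) : ZMod p) * (((n-i : ℕ) : ZMod p))⁻¹ := by
    rw [mul_sum, ← sum_range_reflect]
    apply sum_congr rfl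
    intro i hi
    rw [mem_range] at hi
    rw [inner2 hn hn1 (n-1-i) (by omega)]
    have c1 : (2*n-1).choose (n + (n-1-i)) = (2*n-1).choose i := by
      rw [show n + (n-1-i) = 2*n-1-i by omega, Nat.choose_symm (by omega)]
    have c2 : ((-1 : ZMod p))^(n + (n-1-i)) = -(-1)^i := by
      have e2 : ((-1 : ZMod p))^(n + (n-1-i)) * (-1)^i = -1 := by
        rw [← pow_add, show n + (n-1-i) + i = 2*(n-1)+1 by omega, pow_succ, pow_mul]; simp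
      have e3 : ((-1 : ZMod p))^i * (-1)^i = 1 := by rw [← mul_pow]; simp
      calc ((-1 : ZMod p))^(n + (n-1-i)) = (-1)^(n + (n-1-i)) * ((-1)^i * (-1)^i) := by rw [e3, mul_one]
        _ = ((-1)^(n + (n-1-i)) * (-1)^i) * (-1)^i := by ring
        _ = -(-1)^i := by rw [e2]; ring
    have c3 : (((3*n-(n-1-i) : ℕ) : ZMod p))⁻¹ = -(((n-i : ℕ) : ZMod p))⁻¹ := by
      rw [← inv_neg]; congr 1
      have : ((3*n-(n-1-i) : ℕ) : ZMod p) + ((n-i : ℕ) : ZMod p) = ((p : ℕ) : ZMod p) := by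
        rw [← Nat.cast_add]; congr 1; omega
      rw [CharP.cast_eq_zero (ZMod p) p] at this
      linear_combination this
    rw [c1, c2, c3]; ring
  rw [p1, p2]
  linear_combination hkey

/-- the integer sum modulo `p^2` -/
theorem G_eq (hev : n % 2 = 0) : (p:ℤ)^2 ∣ ∑ x : ZMod p, (((x.val:ℕ):ℤ))^(p*(2*n)) * (1 - ((x.val:ℕ):ℤ))^(p*(2*n)) +
    ((2*n).choose n : ℤ) := by
  have h1 : (p:ℤ)^2 ∣ ∑ x : ZMod p, ((((x.val:ℕ):ℤ))^(p*(2*n)) * (1 - ((x.val:ℕ):ℤ))^(p*(2*n)) -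
    ((((x.val:ℕ):ℤ))^(p*(2*n)) * (1 - (((x.val:ℕ):ℤ))^p)^(2*n) +
      p * ((((x.val:ℕ):ℤ))^(p*(2*n)) * ((2*n:ℕ):ℤ) * EE p ((x.val:ℕ):ℤ) * (1 - (((x.val:ℕ):ℤ))^p)^(2*n-1)))) :=
    dvd_sum (fun x _ => term hn hn1 x)
  rw [sum_sub_distrib, sum_add_distrib, ← mul_sum] at h1
  have h2 := mainM hn hn1
  have h3 := second hn hn1 hev
  set S := ∑ x : ZMod p, (((x.val:ℕ):ℤ))^(p*(2*n)) * ((2*n:ℕ):ℤ) * EE p ((x.val:ℕ):ℤ) * (1 - (((x.val:ℕ):ℤ))^p)^(2*n-1)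
  have h4 : (p:ℤ) ∣ S + ((2*n).choose n : ℤ) := by
    apply CM.dvd_of_zmod
    push_cast at h3 ⊢
    rw [h3]; ring
  obtain ⟨z, hz⟩ := h4
  have hsgn : ((-1:ℤ))^n = 1 := by
    rw [show n = 2*(n/2) by omega, pow_mul]; simp
  rw [hsgn] at h2
  have h5 := dvd_add h1 h2
  have e : ∑ x : ZMod p, (((x.val:ℕ):ℤ))^(p*(2*n)) * (1 - ((x.val:ℕ):ℤ))^(p*(2*n)) + ((2*n).choose n : ℤ) =
      (∑ x : ZMod p, (((x.val:ℕ):ℤ))^(p*(2*n)) * (1 - ((x.val:ℕ):ℤ))^(p*(2*n)) -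
      (∑ x : ZMod p, (((x.val:ℕ):ℤ))^(p*(2*n)) * (1 - (((x.val:ℕ):ℤ))^p)^(2*n) + p * S) +
      (∑ x : ZMod p, (((x.val:ℕ):ℤ))^(p*(2*n)) * (1 - (((x.val:ℕ):ℤ))^p)^(2*n) - ((2*n).choose n : ℤ) * 1 * ((p:ℤ) - 1))) +
      (p:ℤ)^2 * z := by
    linear_combination (p:ℤ) * hz
  rw [e]
  exact dvd_add h5 (Dvd.intro _ rfl)

end Pool.Agent.R856.EJ
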