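import Pool.Agent.R856.TKD

set_option autoImplicit false

/-!
Translation of membership in `p^k Z_(p)` into divisibility of numerators.
-/

namespace Pool.Agent.R856.TK

open Finset Pool.Agent.Helper857 Pool.Agent.Helper857.Pad

theorem num_of_I {p : ℕ} [hp : Fact p.Prime] {k : ℕ} {x : ℚ} (h : I p k x) : (p:ℤ)^k ∣ x.num := by
  obtain ⟨y, hy, e⟩ := h
  rw [mem_Zp] at hy
  have h1 : (x.num : ℚ) * (y.den : ℚ) = (p:ℚ)^k * (y.num : ℚ) * (x.den : ℚ) := by
    have hx : (x.num : ℚ) = x * x.den := (Rat.mul_den_eq_num x).symm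
    have hyy : (y.num : ℚ) = y * y.den := (Rat.mul_den_eq_num y).symm
    rw [hx, hyy, e]; ring
  have h2 : x.num * (y.den : ℤ) = (p:ℤ)^k * y.num * (x.den : ℤ) := by exact_mod_cast h1
  have h3 : (p:ℤ)^k ∣ x.num * (y.den : ℤ) := by
    rw [h2, mul_assoc]; exact dvd_mul_right _ _
  have hc : IsCoprime ((p:ℤ)^k) (y.den : ℤ) := by
    apply IsCoprime.pow_left
    rw [Int.isCoprime_iff_gcd_eq_one]
    exact (Nat.Prime.coprime_iff_not_dvd hp.out).mpr hy
  exact hc.dvd_of_dvd_mul_right h3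

end Pool.Agent.R856.TK
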