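import Pool.Agent.R856.EJ6
import Pool.Agent.R856.EJ3
import Pool.Agent.R856.TKE

set_option autoImplicit false

/-!
The form `4p = L^2+27M^2` and the final congruence.
-/

namespace Pool.Agent.R856.EJ

open Finset QuadraticAlgebra Pool.Agent.Helper857.Pad

lemma zero_of_dvd {D P : ℤ} (h : P ∣ D) (h1 : -P < D) (h2 : D < P) : D = 0 := by
  obtain ⟨k, hk⟩ := h
  have hP : 0 < P := by linarith
  have k1 : k < 1 := by
    by_contra hlt
    push Not at hlt
    nlinarith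
  have k2 : -1 < k := by
    by_contra hlt
    push Not at hlt
    nlinarith
  have : k = 0 := by omega
  rw [hk, this, mul_zero]

lemma uniq_aux {P a b c d : ℤ} (hP : 0 < P) (h1 : 4*P = a^2 + 27*b^2) (h2 : 4*P = c^2 + 27*d^2)
    (hd : P ∣ a*d - b*c) : a^2 = c^2 := by
  have e : (a*c + 27*(b*d))^2 + 27*(a*d - b*c)^2 = 16*P^2 := by
    calc (a*c + 27*(b*d))^2 + 27*(a*d - b*c)^2 = (a^2+27*b^2)*(c^2+27*d^2) := by ring
      _ = 16*P^2 := by rw [← h1, ← h2]; ring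
  have b1 : (a*d - b*c)^2 < P^2 := by nlinarith [sq_nonneg (a*c + 27*(b*d))]
  have b2 := abs_lt.mp (abs_lt_of_sq_lt_sq b1 hP.le)
  have h0 := zero_of_dvd hd b2.1 b2.2
  have h3 : a*d = b*c := by linarith
  have h4 : 4*P*(b^2 - d^2) = 0 := by
    have : 4*P*b^2 - 4*P*d^2 = (b*c)^2 - (a*d)^2 := by
      calc 4*P*b^2 - 4*P*d^2 = (c^2+27*d^2)*b^2 - (a^2+27*b^2)*d^2 := by rw [← h1, ← h2]
        _ = (b*c)^2 - (a*d)^2 := by ring
    rw [h3] at this
    linarith
  have h5 : b^2 = d^2 := by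
    rcases mul_eq_zero.mp h4 with h | h
    · linarith
    · linarith
  linarith

lemma uniq {p : ℕ} (hp : p.Prime) {a b c d : ℤ} (h1 : 4*(p:ℤ) = a^2 + 27*b^2) (h2 : 4*(p:ℤ) = c^2 + 27*d^2) : a^2 = c^2 := by
  have hpp : Prime (p:ℤ) := Nat.prime_iff_prime_int.mp hp
  have hp0 : (0:ℤ) < p := by exact_mod_cast hp.pos
  have hd : (p:ℤ) ∣ (a*d - b*c) * (a*d + b*c) := by
    refine ⟨4*(d^2 - b^2), ?_⟩
    have e1 : a^2 = 4*p - 27*b^2 := by linarith
    have e2 : c^2 = 4*p - 27*d^2 := by linarith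
    have : (a*d - b*c) * (a*d + b*c) = a^2*d^2 - b^2*c^2 := by ring
    rw [this, e1, e2]; ring
  rcases hpp.dvd_or_dvd hd with h | h
  · exact uniq_aux hp0 h1 h2 h
  · exact uniq_aux hp0 h1 (d := -d) (by rw [neg_sq]; exact h2) (by
      have : a*(-d) - b*c = -(a*d + b*c) := by ring
      rw [this]; exact (dvd_neg).mpr h)

section

variable {p : ℕ} [hp : Fact p.Prime] {n : ℕ} (hn : 3*n+1 = p) (hn1 : 1 ≤ n)
include hn hn1

theorem quad (hev : n % 2 = 0) : ∃ L M : ℤ, 4*(p:ℤ) = L^2 + 27*M^2 ∧ L % 3 = 1 ∧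
    (p:ℤ)^2 ∣ ((2*n).choose n : ℤ)^2 + L * ((2*n).choose n : ℤ) + p := by
  obtain ⟨φ, χ, hval, hnorm, him, hre⟩ := exists_jacobi hn hn1
  set J := jacobiSum χ χ with hJ
  -- the value of `φ J`
  have hval' : ∀ x : ZMod p, φ (χ x) = ((((x.val : ℕ) : ℤ)^(p*(2*n)) : ℤ) : ZMod (p^2)) := by
    intro x
    by_cases hx : x = 0
    · rw [hx, MulChar.map_zero, map_zero, ZMod.val_zero, Nat.cast_zero, zero_pow, Int.cast_zero]
      have := hp.out.pos
      positivity
    · exact hval x hx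
  have hφJ : φ J = -((((2*n).choose n : ℤ)) : ZMod (p^2)) := by
    have e : φ J = ((∑ x : ZMod p, (((x.val:ℕ):ℤ))^(p*(2*n)) * (1 - ((x.val:ℕ):ℤ))^(p*(2*n)) : ℤ) : ZMod (p^2)) := by
      rw [hJ]
      unfold jacobiSum
      rw [map_sum, Int.cast_sum]
      apply sum_congr rfl
      intro x _
      rw [map_mul, hval', hval', Int.cast_mul]
      congr 1
      have h1 : (p:ℤ)^2 ∣ (((((1 - x).val : ℕ) : ℤ))^(2*n))^p - ((1 - ((x.val:ℕ):ℤ))^(2*n))^p := by
        apply CM.pow_p_congr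
        apply CM.dvd_of_zmod
        push_cast
        rw [ZMod.natCast_zmod_val, ZMod.natCast_zmod_val]; ring
      have h2 := (ZMod.intCast_zmod_eq_zero_iff_dvd _ (p^2)).mpr (show ((p^2:ℕ):ℤ) ∣ _ by push_cast; exact h1)
      rw [Int.cast_sub, sub_eq_zero] at h2
      rw [mul_comm p (2*n), pow_mul ((((1-x).val:ℕ):ℤ)) (2*n) p, pow_mul (1 - ((x.val:ℕ):ℤ)) (2*n) p]
      exact h2
    rw [e]
    have h3 := (ZMod.intCast_zmod_eq_zero_iff_dvd _ (p^2)).mpr (show ((p^2:ℕ):ℤ) ∣ _ by push_cast; exact G_eq hn hn1 hev)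
    rw [Int.cast_add] at h3
    linear_combination h3
  refine ⟨2*J.re - J.im, J.im/3, ?_, ?_, ?_⟩
  · rw [norm_form] at hnorm
    have e : J.im = 3 * (J.im/3) := by omega
    have : 4*(p:ℤ) = (2*J.re - J.im)^2 + 3*J.im^2 := by rw [← hnorm]; ring
    rw [this]
    have e2 : J.im^2 = 9*(J.im/3)^2 := by
      calc J.im^2 = (3*(J.im/3))^2 := by rw [← e]
        _ = 9*(J.im/3)^2 := by ring
    linarith
  · omega
  · have h := sq_sub_trace_smul_add_norm_eq_zero (z := J)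
    have h2 := congrArg φ h
    have ht : trace J = 2*J.re - J.im := by rw [trace_def]; ring
    rw [map_add, map_sub, map_pow, zsmul_eq_mul, map_mul, map_intCast, hφJ, eq_intCast (algebraMap ℤ E), map_intCast, hnorm, ht, map_zero] at h2
    have h3 : ((((2*n).choose n : ℤ)^2 + (2*J.re - J.im) * ((2*n).choose n : ℤ) + p : ℤ) : ZMod (p^2)) = 0 := by
      push_cast at h2 ⊢
      linear_combination h2
    have h4 := (ZMod.intCast_zmod_eq_zero_iff_dvd _ (p^2)).mp h3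
    push_cast at h4
    exact h4

end

/-- the generalized binomial coefficient -/
def bc (a : ℚ) (k : ℕ) : ℚ := (∏ i ∈ range k, (a - i)) / (k.factorial : ℚ)

lemma bc_T0 (k : ℕ) : (bc (-1/3) k)^2 * 9^k = T0 k := by
  induction k with
  | zero => unfold bc T0; simp [hy_zero]
  | succ k ih =>
    have e0 : T0 (k+1) = T0 k * (9*((1:ℚ)/3+k)*(1/3+k)/((1+k)*(1+k))) := hy_succ _ _ _ _
    have e1 : bc (-1/3) (k+1) = bc (-1/3) k * ((-1/3 - k)/(k+1)) := by
      unfold bc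
      rw [prod_range_succ, Nat.factorial_succ]
      push_cast
      have h1 : (k:ℚ)+1 ≠ 0 := by positivity
      have h2 : ((k.factorial : ℕ) : ℚ) ≠ 0 := by exact_mod_cast k.factorial_ne_zero
      field_simp
    rw [e0, e1, ← ih]
    have h1 : (k:ℚ)+1 ≠ 0 := by positivity
    have h1' : 1+(k:ℚ) ≠ 0 := by positivity
    rw [pow_succ]
    field_simp
    ring

theorem final {p : ℕ} [hp : Fact p.Prime] (h3 : p % 3 = 1) (L M : ℤ) (hLM : 4*(p:ℤ) = L^2 + 27*M^2) (hL : L % 3 = 2) :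
    I p 2 (∑ k ∈ range p, (bc (-1/3) k)^2 * 9^k - ((L:ℚ) - p/L)) := by
  have hp1 := hp.out.one_lt
  have hp2 := hp.out.eq_two_or_odd
  obtain ⟨m, hm⟩ : ∃ m, 6*m+1 = p := ⟨p/6, by omega⟩
  have hm1 : 1 ≤ m := by omega
  have hpp : Prime (p:ℤ) := Nat.prime_iff_prime_int.mp hp.out
  obtain ⟨L', M', h1, h2, hq⟩ := quad (p := p) (n := 2*m) (by omega) (by omega) (by omega)
  have hu := uniq hp.out hLM h1
  have hLL : L' = -L := by
    rcases sq_eq_sq_iff_eq_or_eq_neg.mp hu with h | h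
    · omega
    · omega
  rw [hLL, show 2*(2*m) = 4*m by ring] at hq
  have hs := sum_choose hm hm1
  rw [sum_congr rfl (fun k _ => bc_T0 k)]
  -- units
  have hCu : ¬ p ∣ (4*m).choose (2*m) := by
    intro h
    have := hp.out.dvd_choose_self (k := 2*m) (by omega) (by omega)
    have h4 : (4*m).choose (2*m) ∣ (4*m).factorial := by
      rw [← Nat.choose_mul_factorial_mul_factorial (show 2*m ≤ 4*m by omega)]
      exact Dvd.intro _ (mul_assoc _ _ _).symm
    have h5 := (hp.out.dvd_factorial).mp (h.trans h4)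
    omega
  set C : ℤ := ((4*m).choose (2*m) : ℤ) with hC
  have hCu' : ¬ (p:ℤ) ∣ C := by
    intro h; apply hCu; rw [hC] at h; exact_mod_cast h
  have hCL : (p:ℤ) ∣ C - L := by
    have h5 : (p:ℤ) ∣ C * (C - L) := by
      have h6 : (p:ℤ) ∣ C^2 + -L * C + p := (Dvd.intro_left _ (pow_two (p:ℤ)).symm).trans hq
      have h7 : C * (C - L) = (C^2 + -L*C + p) - p := by ring
      rw [h7]; exact dvd_sub h6 dvd_rfl
    rcases hpp.dvd_or_dvd h5 with h | h
    · exact absurd h hCu'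
    · exact h
  have hLu : ¬ (p:ℤ) ∣ L := by
    intro h
    apply hCu'
    have : C = (C - L) + L := by ring
    rw [this]; exact dvd_add hCL h
  have hL0 : (L:ℚ) ≠ 0 := by
    intro h
    apply hLu
    have : L = 0 := by exact_mod_cast h
    rw [this]; exact dvd_zero _
  have hC0 : (C:ℚ) ≠ 0 := by
    intro h
    apply hCu'
    have : C = 0 := by exact_mod_cast h
    rw [this]; exact dvd_zero _
  have iL := inv_int_mem hLu
  have iC := inv_int_mem hCu'
  obtain ⟨z, hz⟩ := hq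
  obtain ⟨y, hy⟩ := hCL
  have hzq : (C:ℚ)^2 - L*C + p = (p:ℚ)^2 * z := by
    have : (((C^2 + -L * C + p : ℤ)) : ℚ) = (((p:ℤ)^2 * z : ℤ) : ℚ) := by rw [hz]
    push_cast at this; linarith
  have hyq : (C:ℚ) - L = (p:ℚ) * y := by
    have : ((C - L : ℤ) : ℚ) = ((p * y : ℤ) : ℚ) := by rw [hy]
    push_cast at this; linarith
  have key : I p 2 ((C:ℚ) - (L - p/L)) := by
    have e : (C:ℚ) - (L - p/L) = (p:ℚ)^2 * ((L * z + y) * ((L:ℚ)⁻¹ * (C:ℚ)⁻¹)) := by
      have e2 : ((C:ℚ) - (L - p/L)) * (L * C) = (p:ℚ)^2 * (L*z + y) := by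
        have e3 : ((C:ℚ) - (L - p/L)) * (L * C) = L * (C^2 - L*C + p) + p * (C - L) := by
          field_simp; ring
        rw [e3, hzq, hyq]; ring
      field_simp
      field_simp at e2
      linear_combination e2
    rw [e]
    exact (I.p_pow 2).mul_mem ((Zp p).mul_mem ((Zp p).add_mem ((Zp p).mul_mem (int_mem L) (int_mem z)) (int_mem y))
      ((Zp p).mul_mem iL iC))
  have hCq : ((4*m).choose (2*m) : ℚ) = (C:ℚ) := by rw [hC]; push_cast; rfl
  rw [hCq] at hs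
  have e : ∑ k ∈ range p, T0 k - ((L:ℚ) - p/L) = (∑ k ∈ range p, T0 k - (C:ℚ)) + ((C:ℚ) - (L - p/L)) := by ring
  rw [e]
  exact hs.add key

end Pool.Agent.R856.EJ
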