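import Mathlib

set_option autoImplicit false

/-!
Euler numbers modulo primes, and two finite identities with reciprocals of binomial coefficients.
-/

namespace Pool.Agent.R856

open Finset

/-- The Euler numbers: `E 0 = 1` and `∑_{0 ≤ k ≤ n, k even} C(n,k) E (n-k) = 0` for `n ≥ 1`. -/
def eulerE : ℕ → ℤ
  | 0 => 1
  | n + 1 => - ∑ k : Fin (n + 1), if (n + 1 - k.val) % 2 = 0 then
      ((n + 1).choose (n + 1 - k.val) : ℤ) * eulerE k.val else 0

theorem eulerE_zero : eulerE 0 = 1 := by rw [eulerE]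

theorem eulerE_rec (n : ℕ) (hn : 1 ≤ n) :
    ∑ k ∈ (range (n + 1)).filter (fun k => k % 2 = 0), (n.choose k : ℤ) * eulerE (n - k) = 0 := by
  obtain ⟨m, rfl⟩ : ∃ m, n = m + 1 := ⟨n - 1, by omega⟩
  rw [sum_filter, ← sum_range_reflect, sum_range_succ]
  have e1 : (if (m + 1 + 1 - 1 - (m + 1)) % 2 = 0 then
      ((m + 1).choose (m + 1 + 1 - 1 - (m + 1)) : ℤ) * eulerE (m + 1 - (m + 1 + 1 - 1 - (m + 1))) else 0) =
      eulerE (m + 1) := by
    simp
  rw [e1, eulerE, Fin.sum_univ_eq_sum_range (fun k => if (m + 1 - k) % 2 = 0 then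
      ((m + 1).choose (m + 1 - k) : ℤ) * eulerE k else 0) (m + 1)]
  rw [add_neg_eq_zero]
  apply sum_congr rfl
  intro k hk
  rw [mem_range] at hk
  rw [show m + 1 + 1 - 1 - k = m + 1 - k by omega, show m + 1 - (m + 1 - k) = k by omega]

/-- even part of the binomial theorem -/
theorem even_binom {R : Type*} [CommRing R] (x : R) (n : ℕ) :
    2 * ∑ k ∈ (range (n + 1)).filter (fun k => k % 2 = 0), (n.choose k : R) * x ^ (n - k) =
      (x + 1) ^ n + (x - 1) ^ n := by
  rw [sub_eq_add_neg, add_comm x 1, add_comm x (-1), add_pow, add_pow, ← sum_add_distrib, sum_filter, mul_sum]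
  apply sum_congr rfl
  intro k _
  rcases Nat.even_or_odd k with h | h
  · rw [if_pos (Nat.even_iff.mp h), h.neg_pow]
    ring
  · rw [if_neg (by rw [Nat.odd_iff.mp h]; norm_num), h.neg_pow]
    ring

/-- Euler numbers modulo an odd prime as alternating power sums. -/
theorem eulerE_zmod (p : ℕ) [hp : Fact p.Prime] (hp2 : p ≠ 2) (n : ℕ) :
    (eulerE n : ZMod p) = ∑ i ∈ range p, (-1) ^ i * (2 * (i : ZMod p) + 1) ^ n := by
  have hodd : Odd p := hp.out.odd_of_ne_two hp2
  have h2 : (2 : ZMod p) ≠ 0 := by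
    intro h
    have h1 : ((2 : ℕ) : ZMod p) = 0 := by exact_mod_cast h
    rw [ZMod.natCast_eq_zero_iff] at h1
    exact hp2 ((Nat.prime_dvd_prime_iff_eq hp.out Nat.prime_two).mp h1)
  have h00 : ∑ i ∈ range p, (-1 : ZMod p) ^ i = 1 := by
    obtain ⟨m, hm⟩ := hodd
    have : ∀ m : ℕ, ∑ i ∈ range (2 * m + 1), (-1 : ZMod p) ^ i = 1 := by
      intro m
      induction m with
      | zero => simp
      | succ m ih =>
        rw [show 2 * (m + 1) + 1 = 2 * m + 1 + 1 + 1 by ring, sum_range_succ, sum_range_succ, ih,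
          show 2 * m + 1 + 1 = 2 * (m + 1) by ring, pow_mul, pow_succ, pow_mul]
        norm_num
    have e := this m
    rwa [← hm] at e
  -- the recurrence for the power sums
  have hrec : ∀ n : ℕ, 1 ≤ n → ∑ k ∈ (range (n + 1)).filter (fun k => k % 2 = 0),
      (n.choose k : ZMod p) * (∑ i ∈ range p, (-1) ^ i * (2 * (i : ZMod p) + 1) ^ (n - k)) = 0 := by
    intro n hn
    apply mul_left_cancel₀ h2
    have e1 : 2 * ∑ k ∈ (range (n + 1)).filter (fun k => k % 2 = 0),
        (n.choose k : ZMod p) * (∑ i ∈ range p, (-1) ^ i * (2 * (i : ZMod p) + 1) ^ (n - k)) =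
        ∑ i ∈ range p, (-1) ^ i * (2 * ∑ k ∈ (range (n + 1)).filter (fun k => k % 2 = 0),
          (n.choose k : ZMod p) * (2 * (i : ZMod p) + 1) ^ (n - k)) := by
      rw [mul_sum]
      simp_rw [mul_sum]
      rw [sum_comm]
      apply sum_congr rfl; intro i _
      apply sum_congr rfl; intro k _
      ring
    rw [e1]
    simp_rw [even_binom]
    have e2 : ∑ i ∈ range p, (-1 : ZMod p) ^ i * ((2 * (i : ZMod p) + 1 + 1) ^ n + (2 * (i : ZMod p) + 1 - 1) ^ n) =
        ∑ i ∈ range p, ((-1 : ZMod p) ^ i * (2 * (i : ZMod p)) ^ n -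
          (-1 : ZMod p) ^ (i + 1) * (2 * ((i + 1 : ℕ) : ZMod p)) ^ n) := by
      apply sum_congr rfl; intro i _
      push_cast
      ring
    rw [e2, sum_range_sub']
    have hn0 : n ≠ 0 := by omega
    simp [hn0]
  induction n using Nat.strong_induction_on with
  | _ n ih =>
    rcases Nat.eq_zero_or_pos n with h0 | hpos
    · subst h0
      rw [eulerE_zero]
      simp [h00]
    · have r1 := congrArg (Int.cast (R := ZMod p)) (eulerE_rec n hpos)
      have r2 := hrec n hpos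
      push_cast at r1
      have hmem : 0 ∈ (range (n + 1)).filter (fun k => k % 2 = 0) := by simp
      rw [← add_sum_erase _ _ hmem] at r1 r2
      have e3 : ∑ k ∈ ((range (n + 1)).filter (fun k => k % 2 = 0)).erase 0,
          (n.choose k : ZMod p) * (eulerE (n - k) : ZMod p) =
          ∑ k ∈ ((range (n + 1)).filter (fun k => k % 2 = 0)).erase 0,
          (n.choose k : ZMod p) * (∑ i ∈ range p, (-1) ^ i * (2 * (i : ZMod p) + 1) ^ (n - k)) := by
        apply sum_congr rfl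
        intro k hk
        rw [mem_erase, mem_filter, mem_range] at hk
        rw [ih (n - k) (by omega)]
      rw [e3] at r1
      simp only [Nat.choose_zero_right, Nat.cast_one, one_mul, Nat.sub_zero] at r1 r2
      linear_combination r1 - r2

/-- For even `n > 0` the Euler number modulo `p = 2m+1` is an alternating half-range power sum. -/
theorem eulerE_half (p : ℕ) [hp : Fact p.Prime] (hp2 : p ≠ 2) (m : ℕ) (hm : p = 2 * m + 1)
    (n : ℕ) (hn : 0 < n) (hev : Even n) :
    (eulerE n : ZMod p) = 2 ^ (n + 1) * (-1) ^ m *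
      ∑ k ∈ range m, (-1) ^ (k + 1) * ((k : ZMod p) + 1) ^ n := by
  rw [eulerE_zmod p hp2]
  have hsplit : ∀ g : ℕ → ZMod p, ∑ i ∈ range (2 * m + 1), g i =
      g m + ∑ r ∈ range m, (g (m - 1 - r) + g (m + 1 + r)) := by
    intro g
    rw [show 2 * m + 1 = m + 1 + m by ring, sum_range_add, sum_range_succ, sum_add_distrib,
      sum_range_reflect]
    ring
  have hr : ∑ i ∈ range p, (-1 : ZMod p) ^ i * (2 * (i : ZMod p) + 1) ^ n =
      ∑ i ∈ range (2 * m + 1), (-1 : ZMod p) ^ i * (2 * (i : ZMod p) + 1) ^ n := by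
    rw [← hm]
  rw [hr, hsplit]
  have hp0 : 2 * (m : ZMod p) + 1 = 0 := by
    have h1 : 2 * (m : ZMod p) + 1 = ((2 * m + 1 : ℕ) : ZMod p) := by push_cast; ring
    rw [h1, ← hm]; simp
  rw [hp0, zero_pow (by omega), mul_zero, zero_add, mul_sum]
  apply sum_congr rfl
  intro r hrr
  rw [mem_range] at hrr
  have e1 : ((m - 1 - r : ℕ) : ZMod p) = (m : ZMod p) - 1 - r := by
    rw [Nat.cast_sub (by omega), Nat.cast_sub (by omega)]; push_cast; ring
  have e2 : 2 * ((m - 1 - r : ℕ) : ZMod p) + 1 = -(2 * ((r : ZMod p) + 1)) := by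
    rw [e1]; linear_combination hp0
  have e3 : 2 * ((m + 1 + r : ℕ) : ZMod p) + 1 = 2 * ((r : ZMod p) + 1) := by
    push_cast; linear_combination hp0
  have s1 : (-1 : ZMod p) ^ (m - 1 - r) = (-1) ^ m * (-1) ^ (r + 1) := by
    have h2 : (-1 : ZMod p) ^ m = (-1) ^ (m - 1 - r) * (-1) ^ (r + 1) := by
      rw [← pow_add]; congr 1; omega
    rw [h2, mul_assoc, ← pow_add, ← two_mul, pow_mul]
    norm_num
  have s2 : (-1 : ZMod p) ^ (m + 1 + r) = (-1) ^ m * (-1) ^ (r + 1) := by
    rw [← pow_add]; congr 1; ring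
  rw [e2, e3, s1, s2, hev.neg_pow, mul_pow, pow_succ 2 n]
  ring

/-- `∑_{l ≤ n} (-1)^l / C(n,l)` -/
theorem recip_sum (n : ℕ) : ∑ l ∈ range (n + 1), (-1 : ℚ) ^ l / (n.choose l : ℚ) =
    (1 + (-1) ^ n) * (n + 1) / (n + 2) := by
  have h : ∀ l ∈ range (n + 1), (-1 : ℚ) ^ l / (n.choose l : ℚ) =
      ((n : ℚ) + 1) / (n + 2) * ((-1 : ℚ) ^ l / ((n + 1).choose l : ℚ) -
        (-1 : ℚ) ^ (l + 1) / ((n + 1).choose (l + 1) : ℚ)) := by
    intro l hl
    rw [mem_range] at hl
    have c1 : ((n + 1).choose (l + 1) : ℚ) * ((l : ℚ) + 1) = (n + 1) * (n.choose l : ℚ) := by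
      have := Nat.add_one_mul_choose_eq n l
      have h2 : ((n + 1 : ℕ) : ℚ) * (n.choose l : ℚ) = ((n + 1).choose (l + 1) : ℚ) * ((l + 1 : ℕ) : ℚ) := by
        exact_mod_cast this
      push_cast at h2
      linarith
    have c2 : ((n + 1).choose l : ℚ) * ((n : ℚ) + 1 - l) = (n + 1) * (n.choose l : ℚ) := by
      have := Nat.choose_mul_succ_eq n l
      have h2 : (n.choose l : ℚ) * ((n + 1 : ℕ) : ℚ) = ((n + 1).choose l : ℚ) * ((n + 1 - l : ℕ) : ℚ) := by
        exact_mod_cast this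
      rw [Nat.cast_sub (by omega)] at h2
      push_cast at h2
      linarith
    have p0 : (n.choose l : ℚ) ≠ 0 := by
      have := Nat.choose_pos (show l ≤ n by omega); exact_mod_cast this.ne'
    have p1 : ((n + 1).choose (l + 1) : ℚ) ≠ 0 := by
      have := Nat.choose_pos (show l + 1 ≤ n + 1 by omega); exact_mod_cast this.ne'
    have p2 : ((n + 1).choose l : ℚ) ≠ 0 := by
      have := Nat.choose_pos (show l ≤ n + 1 by omega); exact_mod_cast this.ne'
    have q1 : (n : ℚ) + 1 ≠ 0 := by positivity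
    have q2 : (n : ℚ) + 2 ≠ 0 := by positivity
    have r1 : 1 / ((n + 1).choose (l + 1) : ℚ) = ((l : ℚ) + 1) / ((n + 1) * (n.choose l : ℚ)) := by
      rw [← c1]; field_simp
    have hnl : ((n : ℚ) + 1 - l) ≠ 0 := by
      have : (l : ℚ) < n + 1 := by exact_mod_cast hl
      intro h0; linarith
    have r2 : 1 / ((n + 1).choose l : ℚ) = ((n : ℚ) + 1 - l) / ((n + 1) * (n.choose l : ℚ)) := by
      rw [← c2]; field_simp
    rw [div_eq_mul_one_div ((-1 : ℚ) ^ l) ((n + 1).choose l : ℚ),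
      div_eq_mul_one_div ((-1 : ℚ) ^ (l + 1)) ((n + 1).choose (l + 1) : ℚ), r1, r2, pow_succ]
    field_simp
    ring
  rw [sum_congr rfl h, ← mul_sum, sum_range_sub']
  simp only [pow_zero, Nat.choose_zero_right, Nat.cast_one, div_one, Nat.choose_self]
  rw [pow_succ]
  field_simp
  ring

/-- `∑_{l=1}^n (-1)^l/(l^2 C(n,l)) = ∑_{k=1}^n (1 + 2 (-1)^k)/k^2`. -/
theorem recip_sq_sum (n : ℕ) : ∑ l ∈ range n, (-1 : ℚ) ^ (l + 1) / (((l : ℚ) + 1) ^ 2 * (n.choose (l + 1) : ℚ)) =
    ∑ k ∈ range n, (1 + 2 * (-1) ^ (k + 1)) / ((k : ℚ) + 1) ^ 2 := by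
  induction n with
  | zero => simp
  | succ n ih =>
    rw [sum_range_succ, sum_range_succ _ n, ← ih]
    have h1 : ∀ l ∈ range n, (-1 : ℚ) ^ (l + 1) / (((l : ℚ) + 1) ^ 2 * ((n + 1).choose (l + 1) : ℚ)) =
        (-1 : ℚ) ^ (l + 1) / (((l : ℚ) + 1) ^ 2 * (n.choose (l + 1) : ℚ)) +
        (1 / ((n : ℚ) * (n + 1))) * ((-1 : ℚ) ^ l / ((n - 1).choose l : ℚ)) := by
      intro l hl
      rw [mem_range] at hl
      obtain ⟨q, rfl⟩ : ∃ q, n = q + 1 := ⟨n - 1, by omega⟩
      have c1 : ((q + 1).choose (l + 1) : ℚ) * ((l : ℚ) + 1) = (q + 1) * (q.choose l : ℚ) := by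
        have := Nat.add_one_mul_choose_eq q l
        have h2 : ((q + 1 : ℕ) : ℚ) * (q.choose l : ℚ) = ((q + 1).choose (l + 1) : ℚ) * ((l + 1 : ℕ) : ℚ) := by
          exact_mod_cast this
        push_cast at h2
        linarith
      have c2 : ((q + 1 + 1).choose (l + 1) : ℚ) * ((q : ℚ) + 1 - l) = (q + 1 + 1) * ((q + 1).choose (l + 1) : ℚ) := by
        have := Nat.choose_mul_succ_eq (q + 1) (l + 1)
        have h2 : ((q + 1).choose (l + 1) : ℚ) * ((q + 1 + 1 : ℕ) : ℚ) =
            ((q + 1 + 1).choose (l + 1) : ℚ) * ((q + 1 + 1 - (l + 1) : ℕ) : ℚ) := by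
          exact_mod_cast this
        rw [Nat.cast_sub (by omega)] at h2
        push_cast at h2
        linarith
      have p0 : (q.choose l : ℚ) ≠ 0 := by
        have := Nat.choose_pos (show l ≤ q by omega); exact_mod_cast this.ne'
      have p1 : ((q + 1).choose (l + 1) : ℚ) ≠ 0 := by
        have := Nat.choose_pos (show l + 1 ≤ q + 1 by omega); exact_mod_cast this.ne'
      have p2 : ((q + 1 + 1).choose (l + 1) : ℚ) ≠ 0 := by
        have := Nat.choose_pos (show l + 1 ≤ q + 1 + 1 by omega); exact_mod_cast this.ne'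
      have q1 : (q : ℚ) + 1 ≠ 0 := by positivity
      have q2 : (q : ℚ) + 1 + 1 ≠ 0 := by positivity
      have q3 : (l : ℚ) + 1 ≠ 0 := by positivity
      have hnl : ((q : ℚ) + 1 - l) ≠ 0 := by
        have : (l : ℚ) < q + 1 := by exact_mod_cast hl
        intro h0; linarith
      have s1 : ((q + 1).choose (l + 1) : ℚ) = (q + 1) * (q.choose l : ℚ) / ((l : ℚ) + 1) := by
        rw [← c1]; field_simp
      have s2 : ((q + 1 + 1).choose (l + 1) : ℚ) = (q + 1 + 1) * ((q + 1).choose (l + 1) : ℚ) / ((q : ℚ) + 1 - l) := by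
        rw [← c2]; field_simp
      rw [s2, s1, show q + 1 - 1 = q by omega, pow_succ]
      push_cast
      field_simp
      ring
    rw [sum_congr rfl h1, sum_add_distrib, ← mul_sum]
    rcases Nat.eq_zero_or_pos n with h0 | hpos
    · subst h0; norm_num
    · have hr := recip_sum (n - 1)
      rw [show n - 1 + 1 = n by omega] at hr
      rw [hr]
      have hc : ((n - 1 : ℕ) : ℚ) = n - 1 := by
        rw [Nat.cast_sub hpos]; simp
      have hs : (-1 : ℚ) ^ (n - 1) = -(-1) ^ n := by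
        have : (-1 : ℚ) ^ n = (-1) ^ (n - 1) * (-1) := by
          rw [← pow_succ]; congr 1; omega
        rw [this]; ring
      rw [hc, hs, Nat.choose_self]
      have hn0 : (n : ℚ) ≠ 0 := by positivity
      have hn1 : (n : ℚ) + 1 ≠ 0 := by positivity
      rw [show (n : ℚ) - 1 + 1 = n by ring, show (n : ℚ) - 1 + 2 = n + 1 by ring, pow_succ]
      push_cast
      field_simp
      ring

end Pool.Agent.R856
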