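import Pool.Agent.R856.TKD

set_option autoImplicit false

/-!
WZ evaluation of the truncated sums of `C(4k,2k+1) C(2k,k) / 48^k`.
-/

namespace Pool.Agent.R856.FE

open Finset Pool.Agent.Helper857.Pad

noncomputable def t (k : ℕ) : ℚ := ((4*k).choose (2*k+1) : ℚ) * ((2*k).choose k : ℚ) / 48^k

lemma choose4 (k : ℕ) : (2*(k:ℚ)+1) * ((4*k).choose (2*k+1) : ℚ) = 2*(k:ℚ) * ((4*k).choose (2*k) : ℚ) := by
  have h := Nat.choose_succ_right_eq (4*k) (2*k)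
  have h2 : ((4*k).choose (2*k+1) : ℚ) * ((2*k+1:ℕ):ℚ) = ((4*k).choose (2*k) : ℚ) * ((4*k-2*k:ℕ):ℚ) := by exact_mod_cast h
  rw [show 4*k-2*k = 2*k by omega] at h2
  push_cast at h2
  linear_combination h2

lemma choose4_succ (k : ℕ) : ((k:ℚ)+1) * (2*(k:ℚ)+1) * ((4*(k+1)).choose (2*(k+1)) : ℚ) =
    2 * (4*(k:ℚ)+1) * (4*(k:ℚ)+3) * ((4*k).choose (2*k) : ℚ) := by
  have h0 := Nat.succ_mul_centralBinom_succ (2*k)
  have h1 := Nat.succ_mul_centralBinom_succ (2*k+1)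
  rw [Nat.centralBinom_eq_two_mul_choose, Nat.centralBinom_eq_two_mul_choose] at h0 h1
  rw [show 2*(2*k+1+1) = 4*(k+1) by ring, show 2*k+1+1 = 2*(k+1) by ring] at h1
  rw [show 2*(2*k) = 4*k by ring] at h0
  have e0 : (2*(k:ℚ)+1) * ((2*(2*k+1)).choose (2*k+1) : ℚ) = 2*(4*(k:ℚ)+1) * ((4*k).choose (2*k) : ℚ) := by
    exact_mod_cast h0
  have e1 : (2*((k:ℚ)+1)) * ((4*(k+1)).choose (2*(k+1)) : ℚ) = 2*(2*(2*(k:ℚ)+1)+1) * ((2*(2*k+1)).choose (2*k+1) : ℚ) := by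
    exact_mod_cast h1
  linear_combination (2*(k:ℚ)+1)/2 * e1 + (4*(k:ℚ)+3) * e0

lemma t_succ (k : ℕ) : 12 * (k:ℚ) * ((k:ℚ)+1) * (2*(k:ℚ)+3) * t (k+1) = (4*(k:ℚ)+1) * (4*(k:ℚ)+3) * (2*(k:ℚ)+1) * t k := by
  unfold t
  have c0 := choose4 k
  have c1 := choose4 (k+1)
  have c2 := choose4_succ k
  have h0 := Nat.succ_mul_centralBinom_succ k
  rw [Nat.centralBinom_eq_two_mul_choose, Nat.centralBinom_eq_two_mul_choose] at h0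
  have h2 : ((k:ℚ)+1) * ((2*(k+1)).choose (k+1) : ℚ) = 2 * (2*(k:ℚ)+1) * ((2*k).choose k : ℚ) := by
    exact_mod_cast h0
  push_cast at c1
  have k1 : (k:ℚ)+1 ≠ 0 := by positivity
  have k2 : 2*(k:ℚ)+1 ≠ 0 := by positivity
  have k3 : 2*(k:ℚ)+3 ≠ 0 := by positivity
  generalize ((4*k).choose (2*k+1) : ℚ) = a0 at *
  generalize ((4*(k+1)).choose (2*(k+1)+1) : ℚ) = a1 at *
  generalize ((4*k).choose (2*k) : ℚ) = b0 at *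
  generalize ((4*(k+1)).choose (2*(k+1)) : ℚ) = b1 at *
  generalize ((2*k).choose k : ℚ) = d0 at *
  generalize ((2*(k+1)).choose (k+1) : ℚ) = d1 at *
  have e0 : a0 = 2*(k:ℚ) * b0 / (2*k+1) := by rw [eq_div_iff k2]; linear_combination c0
  have e1 : a1 = 2*((k:ℚ)+1) * b1 / (2*k+3) := by rw [eq_div_iff k3]; linear_combination c1
  have e2 : b1 = 2 * (4*(k:ℚ)+1) * (4*(k:ℚ)+3) * b0 / ((k+1)*(2*k+1)) := by
    rw [eq_div_iff (mul_ne_zero k1 k2)]; linear_combination c2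
  have e3 : d1 = 2 * (2*(k:ℚ)+1) * d0 / (k+1) := by rw [eq_div_iff k1]; linear_combination h2
  rw [e1, e0, e2, e3, pow_succ]
  have h48 : (48:ℚ)^k ≠ 0 := by positivity
  field_simp
  ring

noncomputable def rho (k s : ℕ) : ℚ :=
  -(4 * (2*(k:ℚ)+2*s+1) * ((k:ℚ)-1-2*s) * ((k:ℚ)-2-2*s)) / (3 * (2*(s:ℚ)+1) * (4*(k:ℚ)-1-2*s) * (2*(k:ℚ)+2*s+3))

noncomputable def F (k s : ℕ) : ℚ := t k * ∏ i ∈ range s, rho k i

noncomputable def G (k s : ℕ) : ℚ := -(4 * (k:ℚ) * ((k:ℚ)-1-2*s)) / ((2*(s:ℚ)+1) * (4*(k:ℚ)-1-2*s)) * F k s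

lemma F_succ (k s : ℕ) : F k (s+1) = F k s * rho k s := by
  unfold F; rw [prod_range_succ]; ring

lemma odd_ne (k s : ℕ) : 4*(k:ℚ)-1-2*s ≠ 0 := by
  intro hh
  have : (4*(k:ℤ)-1-2*s) = 0 := by exact_mod_cast hh
  omega

lemma odd_ne3 (k s : ℕ) : 4*(k:ℚ)+3-2*s ≠ 0 := by
  intro hh
  have : (4*(k:ℤ)+3-2*s) = 0 := by exact_mod_cast hh
  omega

lemma odd_ne1 (k s : ℕ) : 4*(k:ℚ)+1-2*s ≠ 0 := by
  intro hh
  have : (4*(k:ℤ)+1-2*s) = 0 := by exact_mod_cast hh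
  omega

lemma kappa (k s : ℕ) : ((k:ℚ)-2*s) * F (k+1) s =
    (4*(k:ℚ)+3-2*s) * (4*(k:ℚ)+1-2*s) * (2*(k:ℚ)+1+2*s) / (12 * ((k:ℚ)+1) * (2*(k:ℚ)+3+2*s)) * F k s := by
  induction s with
  | zero =>
    simp only [F, prod_range_zero, mul_one, Nat.cast_zero, mul_zero, sub_zero, add_zero]
    have h := t_succ k
    have k1 : (k:ℚ)+1 ≠ 0 := by positivity
    have k3 : 2*(k:ℚ)+3 ≠ 0 := by positivity
    rw [div_mul_eq_mul_div, eq_div_iff (by positivity)]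
    linear_combination h
  | succ s ih =>
    rw [F_succ, F_succ]
    have h1 := odd_ne k s
    have h2 := odd_ne3 k s
    have h3 := odd_ne1 k s
    have k1 : (k:ℚ)+1 ≠ 0 := by positivity
    have k3 : 2*(k:ℚ)+3+2*s ≠ 0 := by positivity
    have k5 : 2*(k:ℚ)+5+2*s ≠ 0 := by positivity
    have s1 : 2*(s:ℚ)+1 ≠ 0 := by positivity
    have e1 : ((k:ℚ)-2*((s+1:ℕ):ℚ)) * (F (k+1) s * rho (k+1) s) =
        (((k:ℚ)-2*s) * F (k+1) s) * (-(4 * (2*(k:ℚ)+2*s+3) * ((k:ℚ)-1-2*s) * ((k:ℚ)-2-2*s)) /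
          (3 * (2*(s:ℚ)+1) * (4*(k:ℚ)+3-2*s) * (2*(k:ℚ)+5+2*s))) := by
      unfold rho
      push_cast
      rw [show 4*((k:ℚ)+1)-1-2*s = 4*(k:ℚ)+3-2*s by ring, show 2*((k:ℚ)+1)+2*s+3 = 2*(k:ℚ)+5+2*s by ring]
      generalize (4*(k:ℚ)+3-2*s) = d at *
      field_simp
      ring
    rw [e1, ih]
    unfold rho
    push_cast
    rw [show 4*(k:ℚ)+3-2*((s:ℚ)+1) = 4*(k:ℚ)+1-2*s by ring, show 4*(k:ℚ)+1-2*((s:ℚ)+1) = 4*(k:ℚ)-1-2*s by ring,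
      show 2*(k:ℚ)+1+2*((s:ℚ)+1) = 2*(k:ℚ)+3+2*s by ring, show 2*(k:ℚ)+3+2*((s:ℚ)+1) = 2*(k:ℚ)+5+2*s by ring,
      show 2*(k:ℚ)+2*s+3 = 2*(k:ℚ)+3+2*s by ring, show 2*(k:ℚ)+2*s+1 = 2*(k:ℚ)+1+2*s by ring]
    generalize hd : 4*(k:ℚ)+3-2*s = d at *
    generalize he : 4*(k:ℚ)+1-2*s = e at *
    generalize hf : 4*(k:ℚ)-1-2*s = f at *
    field_simp

lemma wz (k s : ℕ) : F k (s+1) - F k s = G (k+1) s - G k s := by
  have e1 : G (k+1) s = -((4*(k:ℚ)+1-2*s) * (2*(k:ℚ)+1+2*s)) / (3 * (2*(s:ℚ)+1) * (2*(k:ℚ)+3+2*s)) * F k s := by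
    unfold G
    have h2 := odd_ne3 k s
    have k1 : (k:ℚ)+1 ≠ 0 := by positivity
    have k3 : 2*(k:ℚ)+3+2*s ≠ 0 := by positivity
    have s1 : 2*(s:ℚ)+1 ≠ 0 := by positivity
    have kp := kappa k s
    push_cast
    rw [show 4*((k:ℚ)+1)-1-2*s = 4*(k:ℚ)+3-2*s by ring]
    have e : -(4 * ((k:ℚ)+1) * ((k:ℚ)+1-1-2*s)) / ((2*(s:ℚ)+1) * (4*(k:ℚ)+3-2*s)) * F (k+1) s =
        -(4 * ((k:ℚ)+1)) / ((2*(s:ℚ)+1) * (4*(k:ℚ)+3-2*s)) * (((k:ℚ)-2*s) * F (k+1) s) := by ring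
    rw [e, kp]
    generalize hd : 4*(k:ℚ)+3-2*s = d at *
    field_simp
    ring
  rw [e1, F_succ]
  unfold G rho
  have h1 := odd_ne k s
  have k3 : 2*(k:ℚ)+3+2*s ≠ 0 := by positivity
  have s1 : 2*(s:ℚ)+1 ≠ 0 := by positivity
  rw [show 2*(k:ℚ)+2*s+3 = 2*(k:ℚ)+3+2*s by ring]
  generalize hf : 4*(k:ℚ)-1-2*s = f at *
  field_simp
  subst hf
  ring

lemma t_zero : t 0 = 0 := by unfold t; simp

lemma F_zero {k s : ℕ} (h : k ≤ 2*s) : F k s = 0 := by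
  unfold F
  rcases Nat.eq_zero_or_pos k with h0 | h0
  · rw [h0, t_zero, zero_mul]
  · have : ∏ i ∈ range s, rho k i = 0 := by
      apply Finset.prod_eq_zero (i := (k-1)/2) (by rw [mem_range]; omega)
      unfold rho
      have : ((k:ℚ)-1-2*(((k-1)/2:ℕ):ℚ)) * ((k:ℚ)-2-2*(((k-1)/2:ℕ):ℚ)) = 0 := by
        rcases Nat.even_or_odd' k with ⟨m, hm | hm⟩
        · obtain ⟨r, rfl⟩ : ∃ r, m = r + 1 := ⟨m-1, by omega⟩
          have : (k-1)/2 = r := by omega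
          rw [this, hm]; push_cast; ring
        · have : (k-1)/2 = m := by omega
          rw [this, hm]; push_cast; ring
      rw [mul_assoc (4 * (2*(k:ℚ)+2*(((k-1)/2:ℕ):ℚ)+1)), this]; simp
    rw [this, mul_zero]

lemma sum_G (J N : ℕ) (hN : N ≤ 2*J+1) : ∑ k ∈ range N, t k = ∑ s ∈ range J, -G N s := by
  have e0 : ∀ k ∈ range N, t k = ∑ s ∈ range J, (F k s - F k (s+1)) := by
    intro k hk
    rw [mem_range] at hk
    rw [Finset.sum_range_sub']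
    have h1 : F k 0 = t k := by unfold F; simp
    have h2 : F k J = 0 := F_zero (by omega)
    rw [h1, h2, sub_zero]
  rw [sum_congr rfl e0, sum_comm]
  apply sum_congr rfl
  intro s _
  have : ∑ k ∈ range N, (F k s - F k (s+1)) = -∑ k ∈ range N, (G (k+1) s - G k s) := by
    rw [← sum_neg_distrib]
    apply sum_congr rfl; intro k _
    rw [← wz]; ring
  rw [this, Finset.sum_range_sub (fun k => G k s)]
  have : G 0 s = 0 := by unfold G; simp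
  rw [this, sub_zero]

section

variable {p : ℕ} [hp : Fact p.Prime] {m : ℕ} (hm : 2*m+1 = p) (hm2 : 2 ≤ m)
include hm hm2

lemma inv_far {k a : ℕ} (h0 : a*p < k) (h1 : k < (a+1)*p) : ((k:ℚ))⁻¹ ∈ Zp p := by
  apply inv_nat_mem
  rintro ⟨b, hb⟩
  rw [hb] at h0 h1
  have h2 : a < b := by
    by_contra hcon
    have := Nat.mul_le_mul_right p (show b ≤ a by omega)
    rw [mul_comm p b] at h0; omega
  have h3 : b < a + 1 := by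
    by_contra hcon
    have := Nat.mul_le_mul_right p (show a + 1 ≤ b by omega)
    rw [mul_comm p b] at h1; omega
  omega

lemma inv3 : (3:ℚ)⁻¹ ∈ Zp p := by
  have := TK.inv_small hm hm2 (k := 3) (by omega) (by omega)
  exact_mod_cast this

lemma t_p : I p 1 (t p) := by
  have h48 : ((48:ℚ)^p)⁻¹ ∈ Zp p := by
    have h2 := TK.half' hm hm2
    have h3 := inv3 hm hm2
    have e : ((48:ℚ)^p)⁻¹ = (((2:ℚ)⁻¹)^4 * (3:ℚ)⁻¹)^p := by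
      rw [← inv_pow]; congr 1; norm_num
    rw [e]
    exact (Zp p).pow_mem ((Zp p).mul_mem ((Zp p).pow_mem h2 4) h3) p
  have h1 : ((2*p+1:ℕ):ℚ)⁻¹ ∈ Zp p := inv_far hm hm2 (a := 2) (by omega) (by omega)
  have c0 := choose4 p
  have n1 : 2*(p:ℚ)+1 ≠ 0 := by positivity
  have e : t p = (p:ℚ)^1 * (2 * ((4*p).choose (2*p) : ℚ) * ((2*p+1:ℕ):ℚ)⁻¹ * ((2*p).choose p : ℚ) * ((48:ℚ)^p)⁻¹) := by
    unfold t
    have : ((4*p).choose (2*p+1) : ℚ) = 2*(p:ℚ) * ((4*p).choose (2*p) : ℚ) / (2*(p:ℚ)+1) := by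
      rw [eq_div_iff n1]; linear_combination c0
    rw [this]
    push_cast
    field_simp
  rw [e]
  exact (I.p_pow 1).mul_mem ((Zp p).mul_mem ((Zp p).mul_mem ((Zp p).mul_mem ((Zp p).mul_mem TK.m2 (nat_mem _)) h1)
    (nat_mem _)) h48)

lemma rho_mem (i : ℕ) (hi : i + 1 < m) : rho p i ∈ Zp p := by
  have h3 := inv3 hm hm2
  have h1 : ((2*i+1:ℕ):ℚ)⁻¹ ∈ Zp p := TK.inv_small hm hm2 (by omega) (by omega)
  have h2 : ((4*p-1-2*i:ℕ):ℚ)⁻¹ ∈ Zp p := inv_far hm hm2 (a := 3) (by omega) (by omega)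
  have h4 : ((2*p+2*i+3:ℕ):ℚ)⁻¹ ∈ Zp p := inv_far hm hm2 (a := 2) (by omega) (by omega)
  rw [Nat.cast_sub (by omega), Nat.cast_sub (by omega)] at h2
  push_cast at h1 h2 h4
  have mp : (p:ℚ) ∈ Zp p := nat_mem _
  have mi : (i:ℚ) ∈ Zp p := nat_mem _
  have m1 : (1:ℚ) ∈ Zp p := (Zp p).one_mem
  have m4 : (4:ℚ) ∈ Zp p := by exact_mod_cast nat_mem (p := p) 4
  have e : rho p i = -(4 * (2*(p:ℚ)+2*i+1) * ((p:ℚ)-1-2*i) * ((p:ℚ)-2-2*i)) *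
      ((3:ℚ)⁻¹ * (2*(i:ℚ)+1)⁻¹ * (4*(p:ℚ)-1-2*i)⁻¹ * (2*(p:ℚ)+2*i+3)⁻¹) := by
    unfold rho
    rw [div_eq_mul_inv, mul_inv, mul_inv, mul_inv]
  rw [e]
  have a1 : 2*(p:ℚ)+2*i+1 ∈ Zp p := (Zp p).add_mem ((Zp p).add_mem ((Zp p).mul_mem TK.m2 mp) ((Zp p).mul_mem TK.m2 mi)) m1
  have a2 : (p:ℚ)-1-2*i ∈ Zp p := (Zp p).sub_mem ((Zp p).sub_mem mp m1) ((Zp p).mul_mem TK.m2 mi)
  have a3 : (p:ℚ)-2-2*i ∈ Zp p := (Zp p).sub_mem ((Zp p).sub_mem mp TK.m2) ((Zp p).mul_mem TK.m2 mi)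
  exact (Zp p).mul_mem ((Zp p).neg_mem ((Zp p).mul_mem ((Zp p).mul_mem ((Zp p).mul_mem m4 a1) a2) a3))
    ((Zp p).mul_mem ((Zp p).mul_mem ((Zp p).mul_mem h3 h1) h2) h4)

theorem main : I p 2 (∑ k ∈ range p, t k) := by
  rw [sum_G m p (by omega)]
  apply I.sum
  intro s hs
  rw [mem_range] at hs
  have h1 : ((2*s+1:ℕ):ℚ)⁻¹ ∈ Zp p := TK.inv_small hm hm2 (by omega) (by omega)
  have h2 : ((4*p-1-2*s:ℕ):ℚ)⁻¹ ∈ Zp p := inv_far hm hm2 (a := 3) (by omega) (by omega)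
  rw [Nat.cast_sub (by omega), Nat.cast_sub (by omega)] at h2
  push_cast at h1 h2
  have mp : (p:ℚ) ∈ Zp p := nat_mem _
  have ms : (s:ℚ) ∈ Zp p := nat_mem _
  have m1 : (1:ℚ) ∈ Zp p := (Zp p).one_mem
  have m4 : (4:ℚ) ∈ Zp p := by exact_mod_cast nat_mem (p := p) 4
  have hprod : ∏ i ∈ range s, rho p i ∈ Zp p := by
    apply (Zp p).prod_mem
    intro i hi
    rw [mem_range] at hi
    exact rho_mem hm hm2 i (by omega)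
  have hF : I p 1 (F p s) := by
    unfold F; exact (t_p hm hm2).mul_mem hprod
  have a2 : (p:ℚ)-1-2*s ∈ Zp p := (Zp p).sub_mem ((Zp p).sub_mem mp m1) ((Zp p).mul_mem TK.m2 ms)
  have e : -G p s = ((p:ℚ)^1 * F p s) * (4 * ((p:ℚ)-1-2*s) * ((2*(s:ℚ)+1)⁻¹ * (4*(p:ℚ)-1-2*s)⁻¹)) := by
    unfold G
    rw [div_eq_mul_inv, mul_inv]; ring
  rw [e]
  exact ((I.p_pow 1).mul hF).mul_mem ((Zp p).mul_mem ((Zp p).mul_mem m4 a2) ((Zp p).mul_mem h1 h2))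

end

end Pool.Agent.R856.FE
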