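import Mathlib

set_option autoImplicit false

/-!
A family of Gauss series at `8/9` and its two closed forms.
-/

namespace Pool.Agent.R856.FK

open Finset

/-- terms of the Gauss series with parameters `(-v, 1/2-v; -4v)` at `8/9` -/
def tt (v : ℚ) (k : ℕ) : ℚ := ∏ i ∈ range k, (8*(-v+i)*(1/2-v+i)/(9*(-4*v+i)*(1+i)))

lemma tt_zero (v : ℚ) : tt v 0 = 1 := by unfold tt; simp

lemma tt_succ (v : ℚ) (k : ℕ) : tt v (k+1) = tt v k * (8*(-v+k)*(1/2-v+k)/(9*(-4*v+k)*(1+k))) := by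
  unfold tt; rw [prod_range_succ]

lemma tt_shift (v : ℚ) (k : ℕ) (hc : ∀ i : ℕ, i < k + 4 → -4*v - 4 + i ≠ 0) :
    18*(4*v+1)*(4*v+3)*(k+1)*tt (v+1) (k+1) = -(4*v+3-k)*(4*v+2-k)*(4*v+1-k)*tt v k := by
  have h0 := hc 0 (by omega)
  have v1 : v + 1 ≠ 0 := by
    intro h; apply h0; push_cast; linear_combination (-4)*h
  induction k with
  | zero =>
    rw [tt_succ, tt_zero, tt_zero]
    push_cast
    have e : -4*(v+1)+0 = -4*(v+1) := by ring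
    rw [e]
    field_simp
    ring
  | succ k ih =>
    have ih' := ih (fun i hi => hc i (by omega))
    have g1 := hc (k+1) (by omega)
    have g4 := hc (k+4) (by omega)
    push_cast at g1 g4
    have d1 : (k:ℚ) - 3 - 4*v ≠ 0 := by intro h; apply g1; linear_combination h
    have d4 : (k:ℚ) - 4*v ≠ 0 := by intro h; apply g4; linear_combination h
    have k1 : (k:ℚ) + 1 ≠ 0 := by positivity
    have k2 : (k:ℚ) + 2 ≠ 0 := by positivity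
    rw [tt_succ (v+1) (k+1), tt_succ v k]
    push_cast
    have e1 : -4*(v+1) + ((k:ℚ)+1) = (k:ℚ) - 3 - 4*v := by ring
    have e2 : -4*v + (k:ℚ) = (k:ℚ) - 4*v := by ring
    have e3 : 1 + ((k:ℚ)+1) = (k:ℚ) + 2 := by ring
    have e4 : 1 + (k:ℚ) = (k:ℚ) + 1 := by ring
    rw [e1, e2, e3, e4]
    generalize hX : tt (v+1) (k+1) = X at *
    generalize hY : tt v k = Y at *
    have hYX : Y * ((4*v+3-k)*(4*v+2-k)*(4*v+1-k)) = -(18*(4*v+1)*(4*v+3)*(k+1)*X) := by linear_combination ih'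
    have L : 18*(4*v+1)*(4*v+3)*((k:ℚ)+1+1)*(X*(8*(-(v+1)+((k:ℚ)+1))*(1/2-(v+1)+((k:ℚ)+1))/(9*((k:ℚ)-3-4*v)*((k:ℚ)+2)))) =
        (18*(4*v+1)*(4*v+3)*(k+1)*X) * (8*((k:ℚ)-v)*(k+1/2-v)) / (9*((k:ℚ)-3-4*v)*((k:ℚ)+1)) := by
      rw [mul_div_assoc', mul_div_assoc', div_eq_div_iff (mul_ne_zero (mul_ne_zero (by norm_num) d1) k2) (mul_ne_zero (mul_ne_zero (by norm_num) d1) k1)]
      ring
    rw [L]
    have hX2 : 18*(4*v+1)*(4*v+3)*(k+1)*X = -(Y * ((4*v+3-k)*(4*v+2-k)*(4*v+1-k))) := by rw [hYX]; ring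
    rw [hX2, mul_div_assoc', mul_div_assoc', div_eq_div_iff (mul_ne_zero (mul_ne_zero (by norm_num) d1) k1) (mul_ne_zero (mul_ne_zero (by norm_num) d4) k1)]
    ring

def ZV (v k : ℚ) : ℚ := 27/8*k^2 + (81/8+27*v/2)*k - (63/4+81*v/2+27*v^2)
def ZU (v k : ℚ) : ℚ := -(27/8)*k^3 + (27/4+81*v/4)*k^2 + (1503/8+1485*v/4+162*v^2)*k - (873/4+1449*v/2+783*v^2+270*v^3)

lemma algV (v K X : ℚ) (h0 : K - 4*v ≠ 0) (h1 : K + 1 ≠ 0) :
    -(4/9)*ZV v (K+1)*X + (-(4*v+3-K)*(4*v+2-K)*(4*v+1-K)/(6*(K+1))*X - 4*(3*v+1)*(3*v+2)*(X*(8*(-v+K)*(1/2-v+K)/(9*(-4*v+K)*(1+K))))) =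
      -(4/9)*ZV v (K+2)*(X*(8*(-v+K)*(1/2-v+K)/(9*(-4*v+K)*(1+K)))) := by
  obtain ⟨Y, hY⟩ : ∃ Y, X = 9*(K-4*v)*(K+1)*Y := ⟨X/(9*(K-4*v)*(K+1)), by field_simp⟩
  have e1 : X*(8*(-v+K)*(1/2-v+K)/(9*(-4*v+K)*(1+K))) = 8*(K-v)*(K+1/2-v)*Y := by
    have e2 : 9*(-4*v+K)*(1+K) = 9*(K-4*v)*(K+1) := by ring
    rw [e2, hY]
    have : 9*(K-4*v)*(K+1) ≠ 0 := mul_ne_zero (mul_ne_zero (by norm_num) h0) h1
    rw [mul_div_assoc', div_eq_iff this]; ring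
  have e3 : -(4*v+3-K)*(4*v+2-K)*(4*v+1-K)/(6*(K+1))*X = -(3/2)*(4*v+3-K)*(4*v+2-K)*(4*v+1-K)*(K-4*v)*Y := by
    rw [hY, div_mul_eq_mul_div, div_eq_iff (mul_ne_zero (by norm_num) h1)]; ring
  rw [e1, e3, hY]
  unfold ZV
  ring

lemma algU (v K X : ℚ) (h0 : K - 4*v ≠ 0) (h1 : K + 1 ≠ 0) :
    -(4/9)*ZU v (K+1)*X + (-(4*v+3-K)*(4*v+2-K)*(4*v+1-K)/(6*(K+1))*X*(10*v+13-(K+1)) -
      (6*v+5)*(6*v+7)*((10*v+3-(K+1))*(X*(8*(-v+K)*(1/2-v+K)/(9*(-4*v+K)*(1+K)))))) =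
      -(4/9)*ZU v (K+2)*(X*(8*(-v+K)*(1/2-v+K)/(9*(-4*v+K)*(1+K)))) := by
  obtain ⟨Y, hY⟩ : ∃ Y, X = 9*(K-4*v)*(K+1)*Y := ⟨X/(9*(K-4*v)*(K+1)), by field_simp⟩
  have e1 : X*(8*(-v+K)*(1/2-v+K)/(9*(-4*v+K)*(1+K))) = 8*(K-v)*(K+1/2-v)*Y := by
    have e2 : 9*(-4*v+K)*(1+K) = 9*(K-4*v)*(K+1) := by ring
    rw [e2, hY]
    have : 9*(K-4*v)*(K+1) ≠ 0 := mul_ne_zero (mul_ne_zero (by norm_num) h0) h1
    rw [mul_div_assoc', div_eq_iff this]; ring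
  have e3 : -(4*v+3-K)*(4*v+2-K)*(4*v+1-K)/(6*(K+1))*X = -(3/2)*(4*v+3-K)*(4*v+2-K)*(4*v+1-K)*(K-4*v)*Y := by
    rw [hY, div_mul_eq_mul_div, div_eq_iff (mul_ne_zero (by norm_num) h1)]; ring
  rw [e1, e3, hY]
  unfold ZU
  ring

/-- the two telescoped sums -/
lemma sums (v : ℚ) (N : ℕ) (hc : ∀ i : ℕ, i < N + 4 → -4*v - 4 + i ≠ 0) :
    (∑ k ∈ range (N+1), (3*(4*v+1)*(4*v+3) * tt (v+1) k - 4*(3*v+1)*(3*v+2) * tt v k) = -(4/9)*ZV v (N+1) * tt v N) ∧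
    (∑ k ∈ range (N+1), (3*(4*v+1)*(4*v+3) * ((10*v+13-k) * tt (v+1) k) - (6*v+5)*(6*v+7) * ((10*v+3-k) * tt v k)) =
      -(4/9)*ZU v (N+1) * tt v N) := by
  induction N with
  | zero =>
    rw [sum_range_one, sum_range_one, tt_zero, tt_zero]
    unfold ZV ZU
    push_cast
    constructor <;> ring
  | succ N ih =>
    obtain ⟨i1, i2⟩ := ih (fun i hi => hc i (by omega))
    have hs := tt_shift v N (fun i hi => hc i (by omega))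
    have g4 := hc (N+4) (by omega)
    push_cast at g4
    have d4 : (N:ℚ) - 4*v ≠ 0 := by intro h; apply g4; linear_combination h
    have k1 : (N:ℚ) + 1 ≠ 0 := by positivity
    have hs' : 3*(4*v+1)*(4*v+3)*tt (v+1) (N+1) = -(4*v+3-N)*(4*v+2-N)*(4*v+1-N)/(6*(N+1))*tt v N := by
      rw [div_mul_eq_mul_div, eq_div_iff (mul_ne_zero (by norm_num) k1)]
      linear_combination hs
    have a1 := algV v N (tt v N) d4 k1
    have a2 := algU v N (tt v N) d4 k1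
    rw [← tt_succ, ← hs'] at a1 a2
    rw [sum_range_succ, i1, sum_range_succ, i2]
    push_cast
    have e : (N:ℚ) + 1 + 1 = N + 2 := by ring
    rw [e]
    constructor
    · linear_combination a1
    · linear_combination a2

/-- full sums -/
def SV (v : ℚ) (N : ℕ) : ℚ := ∑ k ∈ range N, tt v k
def SU (v : ℚ) (N : ℕ) : ℚ := ∑ k ∈ range N, (10*v+3-k) * tt v k

lemma recs (v : ℚ) (N : ℕ) (hc : ∀ i : ℕ, i < N + 4 → -4*v - 4 + i ≠ 0) (h0 : tt v N = 0) :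
    3*(4*v+1)*(4*v+3) * SV (v+1) (N+1) = 4*(3*v+1)*(3*v+2) * SV v N ∧
    3*(4*v+1)*(4*v+3) * SU (v+1) (N+1) = (6*v+5)*(6*v+7) * SU v N := by
  obtain ⟨h1, h2⟩ := sums v N hc
  rw [h0, mul_zero, sum_sub_distrib, ← mul_sum, ← mul_sum, sum_range_succ (fun k => tt v k), h0, add_zero] at h1
  rw [h0, mul_zero, sum_sub_distrib, ← mul_sum, ← mul_sum, sum_range_succ (fun k => (10*v+3-(k:ℚ)) * tt v k), h0, mul_zero, add_zero] at h2
  unfold SV SU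
  constructor
  · linear_combination h1
  · have e : ∑ k ∈ range (N+1), (10*(v+1)+3-(k:ℚ)) * tt (v+1) k = ∑ k ∈ range (N+1), (10*v+13-(k:ℚ)) * tt (v+1) k := by
      apply sum_congr rfl; intro k _; ring
    rw [e]
    linear_combination h2


lemma tt_top (v : ℚ) (M : ℕ) (h : (-v+(M:ℚ)) * (1/2-v+M) = 0) (k : ℕ) (hk : M < k) : tt v k = 0 := by
  unfold tt
  apply prod_eq_zero (mem_range.mpr hk)
  have e : 8*(-v+(M:ℚ))*(1/2-v+M) = 8*((-v+(M:ℚ)) * (1/2-v+M)) := by ring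
  rw [e, h]; simp

lemma SV_ext (v : ℚ) (M : ℕ) (h : (-v+(M:ℚ)) * (1/2-v+M) = 0) (N : ℕ) (hN : M < N) : SV v N = SV v (M+1) := by
  unfold SV
  symm
  apply sum_subset
  · intro x hx; rw [mem_range] at hx ⊢; omega
  · intro x _ hx
    rw [mem_range, not_lt] at hx
    exact tt_top v M h x (by omega)

lemma SU_ext (v : ℚ) (M : ℕ) (h : (-v+(M:ℚ)) * (1/2-v+M) = 0) (N : ℕ) (hN : M < N) : SU v N = SU v (M+1) := by
  unfold SU
  symm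
  apply sum_subset
  · intro x hx; rw [mem_range] at hx ⊢; omega
  · intro x _ hx
    rw [mem_range, not_lt] at hx
    rw [tt_top v M h x (by omega), mul_zero]

lemma int_rec (n : ℕ) :
    3*(4*(n:ℚ)+1)*(4*n+3) * SV ((n+1 : ℕ):ℚ) (n+2) = 4*(3*n+1)*(3*n+2) * SV n (n+1) ∧
    3*(4*(n:ℚ)+1)*(4*n+3) * SU ((n+1 : ℕ):ℚ) (n+2) = (6*n+5)*(6*n+7) * SU n (n+1) := by
  rcases Nat.eq_zero_or_pos n with h0 | h0
  · subst h0
    unfold SV SU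
    rw [sum_range_succ, sum_range_one, sum_range_one, sum_range_succ, sum_range_one, sum_range_one, tt_succ, tt_zero, tt_zero]
    norm_num
  · have hz : tt (n:ℚ) (n+1) = 0 := tt_top n n (by ring) (n+1) (by omega)
    have h := recs (n:ℚ) (n+1) (by
      intro i hi
      have h2 : (-(4*(n:ℤ)) - 4 + i : ℤ) ≠ 0 := by omega
      have h3 : ((-(4*(n:ℤ)) - 4 + i : ℤ) : ℚ) ≠ 0 := by exact_mod_cast h2
      push_cast at h3
      intro h4; apply h3; linear_combination h4) hz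
    push_cast
    exact h

lemma half_rec (N : ℕ) :
    3*(4*(N:ℚ)+3)*(4*N+5) * SV (((N+1 : ℕ):ℚ)+1/2) (N+2) = (6*N+5)*(6*N+7) * SV ((N:ℚ)+1/2) (N+1) ∧
    3*(4*(N:ℚ)+3)*(4*N+5) * SU (((N+1 : ℕ):ℚ)+1/2) (N+2) = 4*(3*N+4)*(3*N+5) * SU ((N:ℚ)+1/2) (N+1) := by
  have hz : tt ((N:ℚ)+1/2) (N+1) = 0 := tt_top _ N (by ring) (N+1) (by omega)
  have h := recs ((N:ℚ)+1/2) (N+1) (by
    intro i hi
    have h2 : (-(4*(N:ℤ)) - 6 + i : ℤ) ≠ 0 := by omega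
    have h3 : ((-(4*(N:ℤ)) - 6 + i : ℤ) : ℚ) ≠ 0 := by exact_mod_cast h2
    push_cast at h3
    intro h4; apply h3; linear_combination h4) hz
  have e : (((N+1 : ℕ):ℚ)+1/2) = (N:ℚ)+1/2+1 := by push_cast; ring
  rw [e]
  obtain ⟨h1, h2⟩ := h
  constructor
  · linear_combination h1
  · linear_combination h2

lemma fact_lift (a b : ℕ) (h : b = a + 1) : ((b.factorial : ℕ) : ℚ) = (b:ℚ) * (a.factorial : ℚ) := by
  subst h; rw [Nat.factorial_succ]; push_cast; ring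

theorem intV (n : ℕ) : SV (n:ℚ) (n+1) * (9^n * (n.factorial:ℚ) * ((4*n).factorial:ℚ)) =
    16^n * ((3*n).factorial:ℚ) * ((2*n).factorial:ℚ) := by
  induction n with
  | zero => unfold SV; simp [tt_zero]
  | succ n ih =>
    have h := (int_rec n).1
    rw [fact_lift (4*n+3) (4*(n+1)) (by ring), fact_lift (4*n+2) (4*n+3) rfl, fact_lift (4*n+1) (4*n+2) rfl, fact_lift (4*n) (4*n+1) rfl,
      fact_lift (3*n+2) (3*(n+1)) (by ring), fact_lift (3*n+1) (3*n+2) rfl, fact_lift (3*n) (3*n+1) rfl,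
      fact_lift (2*n+1) (2*(n+1)) (by ring), fact_lift (2*n) (2*n+1) rfl, fact_lift n (n+1) rfl, pow_succ, pow_succ]
    push_cast at h ⊢
    linear_combination (3*9^n*(n+1)*(n.factorial:ℚ)*(4*n+4)*(4*n+2)*((4*n).factorial:ℚ)) * h + (12*(3*n+1)*(3*n+2)*(n+1)*(4*n+4)*(4*n+2)) * ih

theorem intU (n : ℕ) : SU (n:ℚ) (n+1) * (9^n * ((3*n).factorial:ℚ) * ((4*n).factorial:ℚ)) =
    3 * ((6*n+1).factorial:ℚ) * (n.factorial:ℚ) := by
  induction n with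
  | zero => unfold SU; simp [tt_zero]
  | succ n ih =>
    have h := (int_rec n).2
    rw [fact_lift (4*n+3) (4*(n+1)) (by ring), fact_lift (4*n+2) (4*n+3) rfl, fact_lift (4*n+1) (4*n+2) rfl, fact_lift (4*n) (4*n+1) rfl,
      fact_lift (3*n+2) (3*(n+1)) (by ring), fact_lift (3*n+1) (3*n+2) rfl, fact_lift (3*n) (3*n+1) rfl,
      fact_lift (6*n+6) (6*(n+1)+1) (by ring), fact_lift (6*n+5) (6*n+6) rfl, fact_lift (6*n+4) (6*n+5) rfl,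
      fact_lift (6*n+3) (6*n+4) rfl, fact_lift (6*n+2) (6*n+3) rfl, fact_lift (6*n+1) (6*n+2) rfl, fact_lift n (n+1) rfl, pow_succ]
    push_cast at h ⊢
    linear_combination (3*9^n*(3*n+3)*(3*n+2)*(3*n+1)*((3*n).factorial:ℚ)*(4*n+4)*(4*n+2)*((4*n).factorial:ℚ)) * h +
      (3*(6*n+5)*(6*n+7)*(3*n+3)*(3*n+2)*(3*n+1)*(4*n+4)*(4*n+2)) * ih

theorem halfV (N : ℕ) : SV ((N:ℚ)+1/2) (N+1) * (9^N * ((3*N).factorial:ℚ) * ((4*N+1).factorial:ℚ)) =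
    ((6*N+1).factorial:ℚ) * (N.factorial:ℚ) := by
  induction N with
  | zero => unfold SV; simp [tt_zero]
  | succ n ih =>
    have h := (half_rec n).1
    rw [fact_lift (4*n+4) (4*(n+1)+1) (by ring), fact_lift (4*n+3) (4*n+4) rfl, fact_lift (4*n+2) (4*n+3) rfl, fact_lift (4*n+1) (4*n+2) rfl,
      fact_lift (3*n+2) (3*(n+1)) (by ring), fact_lift (3*n+1) (3*n+2) rfl, fact_lift (3*n) (3*n+1) rfl,
      fact_lift (6*n+6) (6*(n+1)+1) (by ring), fact_lift (6*n+5) (6*n+6) rfl, fact_lift (6*n+4) (6*n+5) rfl,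
      fact_lift (6*n+3) (6*n+4) rfl, fact_lift (6*n+2) (6*n+3) rfl, fact_lift (6*n+1) (6*n+2) rfl, fact_lift n (n+1) rfl, pow_succ]
    push_cast at h ⊢
    linear_combination (3*9^n*(3*n+3)*(3*n+2)*(3*n+1)*((3*n).factorial:ℚ)*(4*n+4)*(4*n+2)*((4*n+1).factorial:ℚ)) * h +
      (3*(6*n+5)*(6*n+7)*(3*n+3)*(3*n+2)*(3*n+1)*(4*n+4)*(4*n+2)) * ih

theorem halfU (N : ℕ) : SU ((N:ℚ)+1/2) (N+1) * (9^N * (N.factorial:ℚ) * ((4*N+1).factorial:ℚ)) =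
    4 * 16^N * ((3*N+2).factorial:ℚ) * ((2*N).factorial:ℚ) := by
  induction N with
  | zero => unfold SU; simp [tt_zero]; norm_num
  | succ n ih =>
    have h := (half_rec n).2
    rw [fact_lift (4*n+4) (4*(n+1)+1) (by ring), fact_lift (4*n+3) (4*n+4) rfl, fact_lift (4*n+2) (4*n+3) rfl, fact_lift (4*n+1) (4*n+2) rfl,
      fact_lift (3*n+4) (3*(n+1)+2) (by ring), fact_lift (3*n+3) (3*n+4) rfl, fact_lift (3*n+2) (3*n+3) rfl,
      fact_lift (2*n+1) (2*(n+1)) (by ring), fact_lift (2*n) (2*n+1) rfl, fact_lift n (n+1) rfl, pow_succ, pow_succ]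
    push_cast at h ⊢
    linear_combination (3*9^n*(n+1)*(n.factorial:ℚ)*(4*n+4)*(4*n+2)*((4*n+1).factorial:ℚ)) * h + (12*(3*n+4)*(3*n+5)*(n+1)*(4*n+4)*(4*n+2)) * ih

end Pool.Agent.R856.FK
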