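import Pool.Agent.R856.FK1
import Pool.Agent.Helper857.Pad

set_option autoImplicit false

/-!
First order interpolation modulo `p^2` in the parameter of the family.
-/

namespace Pool.Agent.R856.FK

open Finset Pool.Agent.Helper857.Pad

section

variable {p : ℕ} [hp : Fact p.Prime]

/-- values at parameter `0`, `p`, `3p` of a function which is affine modulo `p^2` -/
def Lin (p : ℕ) [Fact p.Prime] (X0 X1 X3 : ℚ) : Prop :=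
  X0 ∈ Zp p ∧ I p 1 (X1 - X0) ∧ I p 1 (X3 - X0) ∧ I p 2 (3*X1 - X3 - 2*X0)

lemma Lin.mul {X0 X1 X3 Y0 Y1 Y3 : ℚ} (hX : Lin p X0 X1 X3) (hY : Lin p Y0 Y1 Y3) : Lin p (X0*Y0) (X1*Y1) (X3*Y3) := by
  obtain ⟨a0, a1, a3, a⟩ := hX
  obtain ⟨b0, b1, b3, b⟩ := hY
  refine ⟨(Zp p).mul_mem a0 b0, ?_, ?_, ?_⟩
  · have e : X1*Y1 - X0*Y0 = (X1-X0)*(Y1-Y0) + (X1-X0)*Y0 + X0*(Y1-Y0) := by ring
    rw [e]
    exact ((a1.mul_mem b1.mem).add (a1.mul_mem b0)).add (b1.mem_mul a0)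
  · have e : X3*Y3 - X0*Y0 = (X3-X0)*(Y3-Y0) + (X3-X0)*Y0 + X0*(Y3-Y0) := by ring
    rw [e]
    exact ((a3.mul_mem b3.mem).add (a3.mul_mem b0)).add (b3.mem_mul a0)
  · have e : 3*(X1*Y1) - X3*Y3 - 2*(X0*Y0) = (3*((X1-X0)*(Y1-Y0)) - (X3-X0)*(Y3-Y0)) + (3*X1-X3-2*X0)*Y0 + X0*(3*Y1-Y3-2*Y0) := by ring
    rw [e]
    have m1 : I p 2 ((X1-X0)*(Y1-Y0)) := a1.mul b1
    have m3 : I p 2 ((X3-X0)*(Y3-Y0)) := a3.mul b3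
    have c3 : (3:ℚ) ∈ Zp p := nat_mem 3
    exact (((m1.mem_mul c3).sub m3).add (a.mul_mem b0)).add (b.mem_mul a0)

lemma Lin.inv {X0 X1 X3 : ℚ} (hX : Lin p X0 X1 X3) (h0 : X0 ≠ 0) (h1 : X1 ≠ 0) (h3 : X3 ≠ 0)
    (i0 : X0⁻¹ ∈ Zp p) (i1 : X1⁻¹ ∈ Zp p) (i3 : X3⁻¹ ∈ Zp p) : Lin p X0⁻¹ X1⁻¹ X3⁻¹ := by
  obtain ⟨a0, a1, a3, a⟩ := hX
  have e1 : X1⁻¹ - X0⁻¹ = (X1-X0)*(-(X0⁻¹*X1⁻¹)) := by field_simp; ring
  have e3 : X3⁻¹ - X0⁻¹ = (X3-X0)*(-(X0⁻¹*X3⁻¹)) := by field_simp; ring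
  refine ⟨i0, ?_, ?_, ?_⟩
  · rw [e1]; exact a1.mul_mem ((Zp p).neg_mem ((Zp p).mul_mem i0 i1))
  · rw [e3]; exact a3.mul_mem ((Zp p).neg_mem ((Zp p).mul_mem i0 i3))
  · have e : 3*X1⁻¹ - X3⁻¹ - 2*X0⁻¹ = (3*X1-X3-2*X0)*(-(X0⁻¹*X0⁻¹)) + (3*((X1-X0)*(X1-X0)*(X0⁻¹*X0⁻¹*X1⁻¹)) - (X3-X0)*(X3-X0)*(X0⁻¹*X0⁻¹*X3⁻¹)) := by
      field_simp; ring
    rw [e]
    have m1 : I p 2 ((X1-X0)*(X1-X0)) := a1.mul a1
    have m3 : I p 2 ((X3-X0)*(X3-X0)) := a3.mul a3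
    have c3 : (3:ℚ) ∈ Zp p := nat_mem 3
    exact (a.mul_mem ((Zp p).neg_mem ((Zp p).mul_mem i0 i0))).add
      (((m1.mul_mem ((Zp p).mul_mem ((Zp p).mul_mem i0 i0) i1)).mem_mul c3).sub (m3.mul_mem ((Zp p).mul_mem ((Zp p).mul_mem i0 i0) i3)))

lemma Lin.affine {a b : ℚ} (ha : a ∈ Zp p) (hb : b ∈ Zp p) : Lin p a (a + b*p) (a + 3*b*p) := by
  refine ⟨ha, ?_, ?_, ?_⟩
  · have e : a + b*p - a = (p:ℚ)^1 * b := by ring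
    rw [e]; exact (I.p_pow 1).mul_mem hb
  · have e : a + 3*b*p - a = (p:ℚ)^1 * (3*b) := by ring
    rw [e]; exact (I.p_pow 1).mul_mem ((Zp p).mul_mem (nat_mem 3) hb)
  · have e : 3*(a + b*p) - (a + 3*b*p) - 2*a = 0 := by ring
    rw [e]; exact I.zero 2

lemma Lin.const {a : ℚ} (ha : a ∈ Zp p) : Lin p a a a := by
  have := Lin.affine (p := p) ha (Zp p).zero_mem
  simpa using this

lemma Lin.sum (N : ℕ) (f g h : ℕ → ℚ) (hf : ∀ i < N, Lin p (f i) (g i) (h i)) :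
    Lin p (∑ i ∈ range N, f i) (∑ i ∈ range N, g i) (∑ i ∈ range N, h i) := by
  refine ⟨(Zp p).sum_mem (fun i hi => (hf i (mem_range.mp hi)).1), ?_, ?_, ?_⟩
  · rw [← sum_sub_distrib]; exact I.sum _ _ (fun i hi => (hf i (mem_range.mp hi)).2.1)
  · rw [← sum_sub_distrib]; exact I.sum _ _ (fun i hi => (hf i (mem_range.mp hi)).2.2.1)
  · rw [mul_sum, mul_sum, ← sum_sub_distrib, ← sum_sub_distrib]; exact I.sum _ _ (fun i hi => (hf i (mem_range.mp hi)).2.2.2)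

end

section

variable {p : ℕ} [hp : Fact p.Prime] (h3 : 3 < p)
include h3

lemma not_dvd_small {k : ℕ} (h0 : 0 < k) (h1 : k < p) : ¬ p ∣ k := fun h => absurd (Nat.le_of_dvd h0 h) (by omega)

lemma inv2 : (2:ℚ)⁻¹ ∈ Zp p := by
  have := inv_nat_mem (p := p) (n := 2) (not_dvd_small h3 (by norm_num) (by omega)); exact_mod_cast this

lemma inv3 : (3:ℚ)⁻¹ ∈ Zp p := by
  have := inv_nat_mem (p := p) (n := 3) (not_dvd_small h3 (by norm_num) (by omega)); exact_mod_cast this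

lemma inv4 : (4:ℚ)⁻¹ ∈ Zp p := by
  have e : (4:ℚ)⁻¹ = 2⁻¹ * 2⁻¹ := by norm_num
  rw [e]; exact (Zp p).mul_mem (inv2 h3) (inv2 h3)

lemma inv9 : (9:ℚ)⁻¹ ∈ Zp p := by
  have e : (9:ℚ)⁻¹ = 3⁻¹ * 3⁻¹ := by norm_num
  rw [e]; exact (Zp p).mul_mem (inv3 h3) (inv3 h3)

lemma unit_c {i k : ℕ} (hi : i + 1 < p) : ((1+(i:ℚ)) - k*p) ≠ 0 ∧ ((1+(i:ℚ)) - k*p)⁻¹ ∈ Zp p := by
  have n2 : ¬ (p:ℤ) ∣ ((1+i : ℕ) : ℤ) - k*p := by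
    intro h
    have h2 : (p:ℤ) ∣ ((1+i : ℕ) : ℤ) := (Int.dvd_iff_dvd_of_dvd_sub (by
      have : (k:ℤ)*p = ((1+i:ℕ):ℤ) - (((1+i : ℕ) : ℤ) - k*p) := by ring
      rw [← this]; exact dvd_mul_left _ _)).mpr h
    have h3 : p ∣ (1+i) := by exact_mod_cast h2
    have := Nat.le_of_dvd (by omega) h3; omega
  have i2 := inv_int_mem n2
  push_cast at i2
  refine ⟨?_, i2⟩
  intro h
  apply n2
  have : ((((1+i : ℕ) : ℤ) - k*p : ℤ) : ℚ) = 0 := by push_cast; linear_combination h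
  have : (((1+i : ℕ) : ℤ) - k*p : ℤ) = 0 := by exact_mod_cast this
  rw [this]; exact dvd_zero _

lemma factor {i : ℕ} (hi : i + 1 < p) :
    Lin p (8*(-(-1/4:ℚ)+i)*(1/2-(-1/4:ℚ)+i)/(9*(-4*(-1/4:ℚ)+i)*(1+i)))
      (8*(-(((p:ℚ)-1)/4)+i)*(1/2-(((p:ℚ)-1)/4)+i)/(9*(-4*(((p:ℚ)-1)/4)+i)*(1+i)))
      (8*(-((3*(p:ℚ)-1)/4)+i)*(1/2-((3*(p:ℚ)-1)/4)+i)/(9*(-4*((3*(p:ℚ)-1)/4)+i)*(1+i))) := by
  have q4 : (1/4:ℚ) ∈ Zp p := by rw [one_div]; exact inv4 h3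
  have q34 : (3/4:ℚ) ∈ Zp p := by rw [div_eq_mul_inv]; exact (Zp p).mul_mem (nat_mem 3) (inv4 h3)
  have l1 := Lin.affine (p := p) (a := (1/4:ℚ)+i) (b := -(1/4)) ((Zp p).add_mem q4 (nat_mem i)) ((Zp p).neg_mem q4)
  have l2 := Lin.affine (p := p) (a := (3/4:ℚ)+i) (b := -(1/4)) ((Zp p).add_mem q34 (nat_mem i)) ((Zp p).neg_mem q4)
  have l3 := Lin.affine (p := p) (a := 1+(i:ℚ)) (b := -1) ((Zp p).add_mem (Zp p).one_mem (nat_mem i)) ((Zp p).neg_mem (Zp p).one_mem)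
  have u0 := unit_c (p := p) h3 (k := 0) hi
  have u1 := unit_c (p := p) h3 (k := 1) hi
  have u3 := unit_c (p := p) h3 (k := 3) hi
  have e0 : (1+(i:ℚ)) - (0:ℕ)*p = 1+(i:ℚ) := by push_cast; ring
  have e1 : (1+(i:ℚ)) - (1:ℕ)*p = 1+(i:ℚ) + -1*p := by push_cast; ring
  have e3 : (1+(i:ℚ)) - (3:ℕ)*p = 1+(i:ℚ) + 3*-1*p := by push_cast; ring
  rw [e0] at u0
  rw [e1] at u1
  rw [e3] at u3
  have l4 := l3.inv u0.1 u1.1 u3.1 u0.2 u1.2 u3.2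
  have l5 := Lin.const (p := p) (a := 8*9⁻¹*(1+(i:ℚ))⁻¹) ((Zp p).mul_mem ((Zp p).mul_mem (nat_mem 8) (inv9 h3)) u0.2)
  have l := (l5.mul (l1.mul l2)).mul l4
  convert l using 1
  · rw [show -(-1/4:ℚ)+i = 1/4+i by ring, show 1/2-(-1/4:ℚ)+i = 3/4+i by ring, show -4*(-1/4:ℚ)+i = 1+i by ring,
      div_eq_mul_inv, mul_inv, mul_inv]
    ring
  · rw [show -(((p:ℚ)-1)/4)+i = 1/4+i + -(1/4)*p by ring, show 1/2-(((p:ℚ)-1)/4)+i = 3/4+i + -(1/4)*p by ring,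
      show -4*(((p:ℚ)-1)/4)+i = 1+(i:ℚ) + -1*p by ring, div_eq_mul_inv, mul_inv, mul_inv]
    ring
  · rw [show -((3*(p:ℚ)-1)/4)+i = 1/4+i + 3*-(1/4)*p by ring, show 1/2-((3*(p:ℚ)-1)/4)+i = 3/4+i + 3*-(1/4)*p by ring,
      show -4*((3*(p:ℚ)-1)/4)+i = 1+(i:ℚ) + 3*-1*p by ring, div_eq_mul_inv, mul_inv, mul_inv]
    ring

lemma terms {k : ℕ} (hk : k < p) : Lin p (tt (-1/4) k) (tt (((p:ℚ)-1)/4) k) (tt ((3*(p:ℚ)-1)/4) k) := by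
  induction k with
  | zero => rw [tt_zero, tt_zero, tt_zero]; exact Lin.const (Zp p).one_mem
  | succ k ih =>
    rw [tt_succ, tt_succ, tt_succ]
    exact (ih (by omega)).mul (factor h3 hk)

theorem interp : Lin p (SV (-1/4) p) (SV (((p:ℚ)-1)/4) p) (SV ((3*(p:ℚ)-1)/4) p) := by
  unfold SV
  exact Lin.sum p _ _ _ (fun i hi => terms h3 hi)

theorem interpU : Lin p (SU (-1/4) p) (SU (((p:ℚ)-1)/4) p) (SU ((3*(p:ℚ)-1)/4) p) := by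
  unfold SU
  apply Lin.sum p _ _ _
  intro i hi
  have q2 : (1/2:ℚ) ∈ Zp p := by rw [one_div]; exact inv2 h3
  have q52 : (5/2:ℚ) ∈ Zp p := by rw [div_eq_mul_inv]; exact (Zp p).mul_mem (nat_mem 5) (inv2 h3)
  have l := (Lin.affine (p := p) (a := (1/2:ℚ)-i) (b := 5/2) ((Zp p).sub_mem q2 (nat_mem i)) q52).mul (terms h3 hi)
  convert l using 1 <;> ring

end

end Pool.Agent.R856.FK
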