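import Pool.Agent.R856.FK2

set_option autoImplicit false

/-!
Reduction of `p`-integral rationals and first order expansions.
-/

namespace Pool.Agent.R856.FK

open Finset Pool.Agent.Helper857.Pad

section

variable {p : ℕ} [hp : Fact p.Prime]

/-- `x` is `p`-integral and reduces to `z` -/
def Red (p : ℕ) [Fact p.Prime] (x : ℚ) (z : ZMod p) : Prop := x ∈ Zp p ∧ ((x : ℚ) : ZMod p) = z

lemma den_ne {x : ℚ} (hx : x ∈ Zp p) : ((x.den : ℕ) : ZMod p) ≠ 0 := by
  rw [Ne, CharP.cast_eq_zero_iff (ZMod p) p]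
  exact hx

lemma Red.add {x y : ℚ} {z w : ZMod p} (hx : Red p x z) (hy : Red p y w) : Red p (x+y) (z+w) := by
  refine ⟨(Zp p).add_mem hx.1 hy.1, ?_⟩
  rw [Rat.cast_add_of_ne_zero (den_ne hx.1) (den_ne hy.1), hx.2, hy.2]

lemma Red.mul {x y : ℚ} {z w : ZMod p} (hx : Red p x z) (hy : Red p y w) : Red p (x*y) (z*w) := by
  refine ⟨(Zp p).mul_mem hx.1 hy.1, ?_⟩
  rw [Rat.cast_mul_of_ne_zero (den_ne hx.1) (den_ne hy.1), hx.2, hy.2]

lemma Red.neg {x : ℚ} {z : ZMod p} (hx : Red p x z) : Red p (-x) (-z) := by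
  refine ⟨(Zp p).neg_mem hx.1, ?_⟩
  rw [Rat.cast_neg, hx.2]

lemma Red.sub {x y : ℚ} {z w : ZMod p} (hx : Red p x z) (hy : Red p y w) : Red p (x-y) (z-w) := by
  rw [sub_eq_add_neg, sub_eq_add_neg]; exact hx.add hy.neg

lemma Red.nat (n : ℕ) : Red p (n:ℚ) (n : ZMod p) := ⟨nat_mem n, Rat.cast_natCast n⟩

lemma Red.int (n : ℤ) : Red p (n:ℚ) (n : ZMod p) := ⟨int_mem n, Rat.cast_intCast n⟩

lemma Red.zero : Red p 0 0 := by simpa using Red.nat (p := p) 0

lemma Red.one : Red p 1 1 := by simpa using Red.nat (p := p) 1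

lemma Red.pow {x : ℚ} {z : ZMod p} (hx : Red p x z) (n : ℕ) : Red p (x^n) (z^n) := by
  induction n with
  | zero => simpa using Red.one
  | succ n ih => rw [pow_succ, pow_succ]; exact ih.mul hx

lemma Red.of_I {x : ℚ} (hx : I p 1 x) : Red p x 0 := by
  obtain ⟨y, hy, rfl⟩ := hx
  have h := (Red.nat (p := p) p).mul (⟨hy, rfl⟩ : Red p y _)
  rw [CharP.cast_eq_zero (ZMod p) p, zero_mul] at h
  rw [pow_one]; exact h

lemma Red.congr {x y : ℚ} {z : ZMod p} (hx : Red p x z) (h : I p 1 (y - x)) : Red p y z := by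
  have := hx.add (Red.of_I h)
  rw [add_zero] at this
  convert this using 1; ring

lemma Red.to_I {x : ℚ} (hx : Red p x 0) : I p 1 x := by
  obtain ⟨h1, h2⟩ := hx
  have h3 : (x.num : ZMod p) = 0 := by
    rw [Rat.cast_def] at h2
    rcases div_eq_zero_iff.mp h2 with h | h
    · exact h
    · exact absurd h (den_ne h1)
  rw [ZMod.intCast_zmod_eq_zero_iff_dvd] at h3
  obtain ⟨k, hk⟩ := h3
  have h4 : ((x.den:ℚ))⁻¹ ∈ Zp p := inv_nat_mem h1
  refine ⟨k * ((x.den:ℚ))⁻¹, (Zp p).mul_mem (int_mem k) h4, ?_⟩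
  have h5 : x = (x.num:ℚ) * ((x.den:ℚ))⁻¹ := by rw [← div_eq_mul_inv, Rat.num_div_den]
  calc x = (x.num:ℚ) * ((x.den:ℚ))⁻¹ := h5
    _ = (p:ℚ)^1 * (k * ((x.den:ℚ))⁻¹) := by rw [hk]; push_cast; ring

lemma Red.eq {x y : ℚ} {z : ZMod p} (hx : Red p x z) (hy : Red p y z) : I p 1 (x - y) := by
  apply Red.to_I
  have := hx.sub hy
  rwa [sub_self] at this

lemma Red.ne {x : ℚ} {z : ZMod p} (hx : Red p x z) (hz : z ≠ 0) : x ≠ 0 := by
  intro h
  rw [h] at hx
  apply hz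
  rw [← hx.2, Rat.cast_zero]

lemma Red.inv {x : ℚ} {z : ZMod p} (hx : Red p x z) (hz : z ≠ 0) : Red p x⁻¹ z⁻¹ := by
  have h0 := hx.ne hz
  obtain ⟨h1, h2⟩ := hx
  have h3 : ¬ (p:ℤ) ∣ x.num := by
    intro h
    apply hz
    rw [← h2, Rat.cast_def, (ZMod.intCast_zmod_eq_zero_iff_dvd _ _).mpr h, zero_div]
  have h5 : x⁻¹ = (x.den:ℚ) * ((x.num:ℚ))⁻¹ := by
    conv_lhs => rw [← Rat.num_div_den x]
    rw [inv_div, div_eq_mul_inv]
  have h4 : x⁻¹ ∈ Zp p := by
    rw [h5]; exact (Zp p).mul_mem (nat_mem _) (inv_int_mem h3)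
  refine ⟨h4, ?_⟩
  have h6 : ((x : ℚ) : ZMod p) * ((x⁻¹ : ℚ) : ZMod p) = 1 := by
    rw [← Rat.cast_mul_of_ne_zero (den_ne h1) (den_ne h4), mul_inv_cancel₀ h0, Rat.cast_one]
  rw [h2] at h6
  exact eq_inv_of_mul_eq_one_right h6

lemma Red.uniq {x : ℚ} {z w : ZMod p} (hx : Red p x z) (hy : Red p x w) : z = w := by
  rw [← hx.2, ← hy.2]

lemma Red.sum {ι : Type*} (s : Finset ι) (f : ι → ℚ) (g : ι → ZMod p) (h : ∀ i ∈ s, Red p (f i) (g i)) :
    Red p (∑ i ∈ s, f i) (∑ i ∈ s, g i) := by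
  classical
  induction s using Finset.induction_on with
  | empty => simpa using Red.zero
  | insert a s ha ih =>
    rw [sum_insert ha, sum_insert ha]
    exact (h a (mem_insert_self _ _)).add (ih (fun i hi => h i (mem_insert_of_mem hi)))

/-- first order expansion -/
def EX (p : ℕ) [Fact p.Prime] (X x : ℚ) : Prop := x ∈ Zp p ∧ I p 2 (X - (1 + p*x))

lemma EX.red {X x : ℚ} (h : EX p X x) : Red p X 1 := by
  have h1 : Red p (1 + p*x) (1 + 0 * ((x:ℚ) : ZMod p)) := by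
    have := (Red.one (p := p)).add ((Red.nat (p := p) p).mul (⟨h.1, rfl⟩ : Red p x _))
    rwa [CharP.cast_eq_zero (ZMod p) p] at this
  rw [zero_mul, add_zero] at h1
  exact h1.congr (h.2.mono (by norm_num))

lemma EX.mem {X x : ℚ} (h : EX p X x) : X ∈ Zp p := h.red.1

lemma EX.ne {X x : ℚ} (h : EX p X x) : X ≠ 0 := h.red.ne one_ne_zero

lemma EX.inv_mem {X x : ℚ} (h : EX p X x) : X⁻¹ ∈ Zp p := (h.red.inv one_ne_zero).1

lemma EX.mul {X Y x y : ℚ} (hX : EX p X x) (hY : EX p Y y) : EX p (X*Y) (x+y) := by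
  refine ⟨(Zp p).add_mem hX.1 hY.1, ?_⟩
  have m1 : 1 + (p:ℚ)*x ∈ Zp p := (Zp p).add_mem (Zp p).one_mem ((Zp p).mul_mem (nat_mem p) hX.1)
  have e : X*Y - (1 + p*(x+y)) = (X - (1 + p*x))*Y + (Y - (1 + p*y))*(1 + p*x) + (p:ℚ)^2*(x*y) := by ring
  rw [e]
  exact ((hX.2.mul_mem hY.mem).add (hY.2.mul_mem m1)).add ((I.p_pow 2).mul_mem ((Zp p).mul_mem hX.1 hY.1))

lemma EX.inv {X x : ℚ} (hX : EX p X x) : EX p X⁻¹ (-x) := by
  refine ⟨(Zp p).neg_mem hX.1, ?_⟩
  have h0 := hX.ne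
  have e : X⁻¹ - (1 + p*(-x)) = (X - (1 + p*x)) * (-(X⁻¹ * (1 - p*x))) + (p:ℚ)^2 * (x*x*X⁻¹) := by
    field_simp; ring
  rw [e]
  exact (hX.2.mul_mem ((Zp p).neg_mem ((Zp p).mul_mem hX.inv_mem ((Zp p).sub_mem (Zp p).one_mem ((Zp p).mul_mem (nat_mem p) hX.1))))).add
    ((I.p_pow 2).mul_mem ((Zp p).mul_mem ((Zp p).mul_mem hX.1 hX.1) hX.inv_mem))

lemma EX.of {x : ℚ} (hx : x ∈ Zp p) : EX p (1 + p*x) x := by
  refine ⟨hx, ?_⟩
  rw [sub_self]; exact I.zero 2

lemma EX.one : EX p 1 0 := by simpa using EX.of (p := p) (Zp p).zero_mem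

lemma EX.congr {X x y : ℚ} (hX : EX p X x) (h : I p 1 (y - x)) : EX p X y := by
  refine ⟨?_, ?_⟩
  · have : y = (y - x) + x := by ring
    rw [this]; exact (Zp p).add_mem h.mem hX.1
  · have e : X - (1 + p*y) = (X - (1 + p*x)) - (p:ℚ)^1 * (y - x) := by ring
    rw [e]
    have : I p 2 ((p:ℚ)^1 * (y - x)) := (I.p_pow 1).mul h
    exact hX.2.sub this

/-- harmonic numbers -/
def H (r : ℕ) : ℚ := ∑ i ∈ range r, ((i:ℚ)+1)⁻¹

lemma H_succ (r : ℕ) : H (r+1) = H r + ((r:ℚ)+1)⁻¹ := by unfold H; rw [sum_range_succ]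

lemma inv_lt {k : ℕ} (h0 : 0 < k) (h1 : k < p) : ((k:ℚ))⁻¹ ∈ Zp p :=
  inv_nat_mem (fun hd => absurd (Nat.le_of_dvd h0 hd) (by omega))

lemma H_mem {r : ℕ} (hr : r < p) : H r ∈ Zp p := by
  unfold H
  apply (Zp p).sum_mem
  intro i hi
  rw [mem_range] at hi
  have := inv_lt (p := p) (k := i+1) (by omega) (by omega)
  push_cast at this; exact this

lemma H_top (h3 : 3 < p) : I p 1 (H (p-1)) := by
  have e : (2:ℚ) * H (p-1) = ∑ i ∈ range (p-1), (p:ℚ)^1 * (((i:ℚ)+1)⁻¹ * (((p-1-i : ℕ) : ℚ))⁻¹) := by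
    have h1 : H (p-1) = ∑ i ∈ range (p-1), (((p-1-i : ℕ) : ℚ))⁻¹ := by
      unfold H
      rw [← sum_range_reflect]
      apply sum_congr rfl
      intro i hi
      rw [mem_range] at hi
      congr 1
      have : p - 1 - 1 - i + 1 = p - 1 - i := by omega
      exact_mod_cast this
    rw [two_mul]
    nth_rewrite 2 [h1]
    unfold H
    rw [← sum_add_distrib]
    apply sum_congr rfl
    intro i hi
    rw [mem_range] at hi
    have c1 : (i:ℚ)+1 ≠ 0 := by positivity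
    have c2 : (((p-1-i : ℕ) : ℚ)) ≠ 0 := by
      have : p - 1 - i ≠ 0 := by omega
      exact_mod_cast this
    have c3 : (p:ℚ) = ((i:ℚ)+1) + ((p-1-i : ℕ) : ℚ) := by
      have : p = (i+1) + (p-1-i) := by omega
      exact_mod_cast this
    field_simp
    rw [c3]; ring
  apply I.cancel (n := 2) (not_dvd_small h3 (by norm_num) (by omega))
  push_cast
  rw [e]
  apply I.sum
  intro i hi
  rw [mem_range] at hi
  apply (I.p_pow 1).mul_mem
  apply (Zp p).mul_mem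
  · have := inv_lt (p := p) (k := i+1) (by omega) (by omega)
    push_cast at this; exact this
  · exact inv_lt (by omega) (by omega)

/-- first order expansion of factorials -/
theorem fexp (h3 : 3 < p) (k : ℕ) : ∀ r : ℕ, r < p → ∃ E : ℚ, EX p E (k * H r) ∧
    ((k*p+r).factorial : ℚ) = (k.factorial : ℚ) * (p:ℚ)^k * ((p-1).factorial : ℚ)^k * (r.factorial : ℚ) * E := by
  have inner : ∀ k : ℕ, (∃ E : ℚ, EX p E 0 ∧ ((k*p).factorial : ℚ) = (k.factorial : ℚ) * (p:ℚ)^k * ((p-1).factorial : ℚ)^k * E) →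
      ∀ r : ℕ, r < p → ∃ E : ℚ, EX p E (k * H r) ∧
      ((k*p+r).factorial : ℚ) = (k.factorial : ℚ) * (p:ℚ)^k * ((p-1).factorial : ℚ)^k * (r.factorial : ℚ) * E := by
    intro k hk r
    induction r with
    | zero =>
      intro _
      obtain ⟨E, h1, h2⟩ := hk
      refine ⟨E, ?_, ?_⟩
      · have e : H 0 = 0 := by unfold H; simp
        rw [e, mul_zero]; exact h1
      · rw [add_zero, h2]; simp
    | succ r ih =>
      intro hr
      obtain ⟨E, h1, h2⟩ := ih (by omega)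
      have ir := inv_lt (p := p) (k := r+1) (by omega) (by omega)
      push_cast at ir
      refine ⟨E * (1 + p * (k * ((r:ℚ)+1)⁻¹)), ?_, ?_⟩
      · have := h1.mul (EX.of (p := p) ((Zp p).mul_mem (nat_mem k) ir))
        rw [H_succ, show (k:ℚ) * (H r + ((r:ℚ)+1)⁻¹) = k * H r + k * ((r:ℚ)+1)⁻¹ by ring]; exact this
      · rw [fact_lift (k*p+r) (k*p+(r+1)) (by ring), h2, fact_lift r (r+1) rfl]
        have c : (r:ℚ)+1 ≠ 0 := by positivity
        push_cast
        field_simp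
        ring
  apply inner k
  induction k with
  | zero => exact ⟨1, EX.one, by simp⟩
  | succ k ih =>
    obtain ⟨E, h1, h2⟩ := inner k ih (p-1) (by have := hp.out.pos; omega)
    refine ⟨E, ?_, ?_⟩
    · apply h1.congr
      rw [zero_sub]
      exact ((H_top h3).mem_mul (nat_mem k)).neg
    · have hp0 := hp.out.pos
      rw [fact_lift (k*p+(p-1)) ((k+1)*p) (by
        have : (k+1)*p = k*p + p := by ring
        rw [this]; omega), h2, fact_lift k (k+1) rfl]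
      push_cast
      ring

/-- binomial coefficients `C(p-1,r)` -/
theorem cexp (r : ℕ) (hr : r < p) : EX p ((-1)^r * ((p-1).choose r : ℚ)) (-H r) := by
  induction r with
  | zero =>
    have e : H 0 = 0 := by unfold H; simp
    rw [e, neg_zero]
    simpa using EX.one (p := p)
  | succ r ih =>
    have h := ih (by omega)
    have ir := inv_lt (p := p) (k := r+1) (by omega) (by omega)
    push_cast at ir
    have h2 := h.mul (EX.of (p := p) ((Zp p).neg_mem ir))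
    have c : (r:ℚ)+1 ≠ 0 := by positivity
    have h3 := Nat.choose_succ_right_eq (p-1) r
    have h4 : ((p-1).choose (r+1) : ℚ) * ((r:ℚ)+1) = ((p-1).choose r : ℚ) * ((p:ℚ) - 1 - r) := by
      have e1 : ((p-1-r : ℕ) : ℚ) = (p:ℚ) - 1 - r := by
        rw [Nat.cast_sub (by omega), Nat.cast_sub (by omega)]; push_cast; ring
      rw [← e1]
      exact_mod_cast h3
    have e : (-1:ℚ)^(r+1) * ((p-1).choose (r+1) : ℚ) = (-1)^r * ((p-1).choose r : ℚ) * (1 + p * -((r:ℚ)+1)⁻¹) := by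
      field_simp
      rw [pow_succ]
      linear_combination (-(-1:ℚ)^r) * h4
    rw [e, H_succ, neg_add]
    exact h2

/-- complementary factorials -/
theorem flem (r : ℕ) (hr : r < p) : Red p ((r.factorial : ℚ) * ((p-1-r).factorial : ℚ) * (-1)^r) (-1) := by
  have h1 := (cexp (p := p) r hr).red
  have h2 := Nat.choose_mul_factorial_mul_factorial (show r ≤ p - 1 by omega)
  have h3 : Red p (((p-1).factorial : ℕ) : ℚ) (-1) := by
    have := Red.nat (p := p) ((p-1).factorial)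
    rwa [ZMod.wilsons_lemma] at this
  have h4 := (h1.inv one_ne_zero).mul h3
  rw [inv_one, one_mul] at h4
  convert h4 using 1
  have h5 : ((p-1).choose r : ℚ) ≠ 0 := by
    have := (Nat.choose_pos (show r ≤ p - 1 by omega)).ne'
    exact_mod_cast this
  have h6 : ((p-1).choose r : ℚ) * (r.factorial : ℚ) * ((p-1-r).factorial : ℚ) = ((p-1).factorial : ℚ) := by exact_mod_cast h2
  rw [← h6]
  have h7 : ((-1:ℚ)^r)⁻¹ = (-1)^r := by
    rw [← inv_pow]; norm_num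
  rw [mul_inv, h7]
  field_simp

end

end Pool.Agent.R856.FK
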