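import Pool.Agent.R856.FK3
import Pool.Agent.R856.EJ3

set_option autoImplicit false

/-!
The truncated sums modulo `p^2` for `p = 4n+1`.
-/

namespace Pool.Agent.R856.FK

open Finset Pool.Agent.Helper857.Pad

section

variable {p : ℕ} [hp : Fact p.Prime]

lemma EX.prod (z : ℕ → ℚ) (R : ℕ) (hz : ∀ i < R, z i ∈ Zp p) : EX p (∏ i ∈ range R, (1 + (p:ℚ) * z i)) (∑ i ∈ range R, z i) := by
  induction R with
  | zero => simpa using EX.one (p := p)
  | succ R ih =>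
    rw [prod_range_succ, sum_range_succ]
    exact (ih (fun i hi => hz i (by omega))).mul (EX.of (hz R (by omega)))

lemma cb_flip (N : ℕ) : ((2*N).choose N : ℚ) = 4^N * (-1)^N * ∏ i ∈ range N, (1 + (2*(N:ℚ)+1) * (-(2:ℚ)⁻¹ * ((i:ℚ)+1)⁻¹)) := by
  have h := EJ.cb_eq N
  have h1 : ∏ i ∈ range N, (2*(2*(i:ℚ)+1)/(i+1)) = 4^N * ((∏ i ∈ range N, (2*(i:ℚ)+1)) / ∏ i ∈ range N, (2*((i:ℚ)+1))) := by
    rw [← prod_div_distrib, ← card_range N, ← prod_const, card_range, ← prod_mul_distrib]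
    apply prod_congr rfl
    intro i _
    have c : (i:ℚ)+1 ≠ 0 := by positivity
    field_simp
    ring
  have h2 : ∏ i ∈ range N, (2*(i:ℚ)+1) = ∏ i ∈ range N, ((2*(N:ℚ)+1) - 2*((i:ℚ)+1)) := by
    rw [← prod_range_reflect]
    apply prod_congr rfl
    intro i hi
    rw [mem_range] at hi
    have : ((N - 1 - i : ℕ) : ℚ) = (N:ℚ) - 1 - i := by
      rw [Nat.cast_sub (by omega), Nat.cast_sub (by omega)]; push_cast; ring
    rw [this]; ring
  have h3 : (-1:ℚ)^N = ∏ i ∈ range N, (-1:ℚ) := by rw [prod_const, card_range]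
  rw [h, h1, h2, ← prod_div_distrib, mul_assoc, h3, ← prod_mul_distrib]
  congr 1
  apply prod_congr rfl
  intro i _
  have c : (i:ℚ)+1 ≠ 0 := by positivity
  field_simp
  ring

lemma H_double (n : ℕ) : H (2*n) = H n / 2 + ∑ j ∈ range n, ((2*(j:ℚ)+1))⁻¹ := by
  induction n with
  | zero => unfold H; simp
  | succ n ih =>
    rw [show 2*(n+1) = 2*n+1+1 by ring, H_succ, H_succ, ih, H_succ, sum_range_succ]
    have c1 : (2*(n:ℚ)+1) ≠ 0 := by positivity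
    have c2 : (n:ℚ)+1 ≠ 0 := by positivity
    have c3 : (2*(n:ℚ)+1+1) ≠ 0 := by positivity
    push_cast
    have e : (2*(n:ℚ)+1+1)⁻¹ = ((n:ℚ)+1)⁻¹/2 := by
      have : (2*(n:ℚ)+1+1) = 2*((n:ℚ)+1) := by ring
      rw [this, mul_inv]; ring
    rw [e]; ring

lemma H_upper (n : ℕ) : H (2*n) - H n = ∑ j ∈ range n, ((2*(n:ℚ)-j))⁻¹ := by
  have h : H (2*n) = H n + ∑ j ∈ range n, ((n:ℚ)+j+1)⁻¹ := by
    unfold H
    rw [two_mul, sum_range_add]
    push_cast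
    rfl
  rw [h, add_sub_cancel_left, ← sum_range_reflect]
  apply sum_congr rfl
  intro j hj
  rw [mem_range] at hj
  have : ((n - 1 - j : ℕ) : ℚ) = (n:ℚ) - 1 - j := by
    rw [Nat.cast_sub (by omega), Nat.cast_sub (by omega)]; push_cast; ring
  rw [this]
  congr 1
  ring

variable {n : ℕ} (hn : 4*n+1 = p) (hn1 : 1 ≤ n)
include hn hn1

lemma h3' : 3 < p := by omega

lemma hrel : I p 1 (2*H n - 3*H (2*n)) := by
  have e : 2*H n - 3*H (2*n) = ∑ j ∈ range n, (p:ℚ)^1 * (-2 * ((2*(j:ℚ)+1))⁻¹ * ((((4*n-2*j : ℕ)) : ℚ))⁻¹) := by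
    have h1 := H_double n
    have h2 := H_upper n
    have h4 : ∑ j ∈ range n, (p:ℚ)^1 * (-2 * ((2*(j:ℚ)+1))⁻¹ * ((((4*n-2*j : ℕ)) : ℚ))⁻¹) =
        -2 * ∑ j ∈ range n, ((2*(j:ℚ)+1))⁻¹ - ∑ j ∈ range n, ((2*(n:ℚ)-j))⁻¹ := by
      rw [mul_sum, ← sum_sub_distrib]
      apply sum_congr rfl
      intro j hj
      rw [mem_range] at hj
      have c1 : (2*(j:ℚ)+1) ≠ 0 := by positivity
      have e2 : ((4*n-2*j : ℕ) : ℚ) = 4*n - 2*j := by
        rw [Nat.cast_sub (by omega)]; push_cast; ring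
      have c2 : (2*(n:ℚ)-j) ≠ 0 := by
        have : ((2*n - j : ℕ) : ℚ) ≠ 0 := by
          have : 2*n - j ≠ 0 := by omega
          exact_mod_cast this
        rw [Nat.cast_sub (by omega)] at this; push_cast at this; exact this
      have e3 : (p:ℚ) = (2*(j:ℚ)+1) + 2*(2*(n:ℚ)-j) := by rw [← hn]; push_cast; ring
      have e4 : (4*(n:ℚ)-2*j) = 2*(2*(n:ℚ)-j) := by ring
      rw [e2, e3, e4]
      generalize (2*(j:ℚ)+1) = x at *
      generalize (2*(n:ℚ)-j) = y at *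
      field_simp
      ring
    rw [h4, ← h2]
    linear_combination (-2) * h1
  rw [e]
  apply I.sum
  intro j hj
  rw [mem_range] at hj
  apply (I.p_pow 1).mul_mem
  apply (Zp p).mul_mem
  · apply (Zp p).mul_mem
    · exact (Zp p).neg_mem (nat_mem 2)
    · have := inv_lt (p := p) (k := 2*j+1) (by omega) (by omega)
      push_cast at this; exact this
  · exact inv_lt (by omega) (by omega)

lemma pow16 : EX p ((16:ℚ)^n) (-(H (2*n) * 2⁻¹)) := by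
  have h3 := h3' hn hn1
  have h1 := cb_flip (2*n)
  have i2 := inv2 h3
  have hE := EX.prod (p := p) (fun i => -(2:ℚ)⁻¹ * ((i:ℚ)+1)⁻¹) (2*n) (by
    intro i hi
    have := inv_lt (p := p) (k := i+1) (by omega) (by omega)
    push_cast at this
    exact (Zp p).mul_mem ((Zp p).neg_mem i2) this)
  rw [← mul_sum] at hE
  have hc := cexp (p := p) (2*n) (by omega)
  have e1 : (-1:ℚ)^(2*n) = 1 := by rw [pow_mul]; simp
  have e2 : 2*((2*n : ℕ):ℚ)+1 = p := by rw [← hn]; push_cast; ring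
  have e3 : (4:ℚ)^(2*n) = 16^n := by rw [pow_mul]; norm_num
  rw [e1, e2, e3, mul_one] at h1
  rw [e1, one_mul, show p - 1 = 2*(2*n) by omega, h1] at hc
  have h5 := hc.mul hE.inv
  have h6 := hE.ne
  rw [mul_assoc, mul_inv_cancel₀ h6, mul_one] at h5
  have e4 : -H (2*n) + -(-(2:ℚ)⁻¹ * ∑ i ∈ range (2*n), ((i:ℚ)+1)⁻¹) = -(H (2*n) * 2⁻¹) := by
    unfold H; ring
  rw [e4] at h5
  exact h5

lemma choose_facts : ((2*n).choose n : ℚ) * (n.factorial:ℚ) * (n.factorial:ℚ) = ((2*n).factorial:ℚ) ∧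
    ((p-1).choose n : ℚ) * (n.factorial:ℚ) * ((3*n).factorial:ℚ) = ((4*n).factorial:ℚ) ∧ ((p-1).choose n : ℚ) ≠ 0 ∧
    ((p-1).factorial : ℚ) = ((4*n).factorial:ℚ) := by
  have h1 := Nat.choose_mul_factorial_mul_factorial (show n ≤ 2*n by omega)
  have h2 := Nat.choose_mul_factorial_mul_factorial (show n ≤ 4*n by omega)
  rw [show 2*n - n = n by omega] at h1
  rw [show 4*n - n = 3*n by omega] at h2
  have hp1 : p - 1 = 4*n := by omega
  rw [hp1]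
  refine ⟨by exact_mod_cast h1, by exact_mod_cast h2, ?_, rfl⟩
  have := (Nat.choose_pos (show n ≤ 4*n by omega)).ne'
  exact_mod_cast this

lemma V_eval : SV (n:ℚ) (n+1) * 9^n * ((p-1).choose n : ℚ) = 16^n * ((2*n).choose n : ℚ) := by
  obtain ⟨c1, c2, c3, c4⟩ := choose_facts hn hn1
  have h := intV n
  have f1 : (n.factorial:ℚ) ≠ 0 := by exact_mod_cast n.factorial_ne_zero
  have f3 : ((3*n).factorial:ℚ) ≠ 0 := by exact_mod_cast (3*n).factorial_ne_zero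
  rw [← c1, ← c2] at h
  apply mul_right_cancel₀ (mul_ne_zero (mul_ne_zero f1 f1) f3)
  linear_combination h

lemma W_eval : ∃ E : ℚ, EX p E (4*H (2*n) - 2*H n) ∧
    SV (((3*n : ℕ):ℚ)+1/2) (3*n+1) * (9^n)^3 * ((p-1).choose n : ℚ) = ((2*n).choose n : ℚ) * E := by
  have h3 := h3' hn hn1
  obtain ⟨c1, c2, c3, c4⟩ := choose_facts hn hn1
  obtain ⟨E1, x1, y1⟩ := fexp (p := p) h3 4 (2*n) (by omega)
  obtain ⟨E2, x2, y2⟩ := fexp (p := p) h3 2 n (by omega)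
  obtain ⟨E3, x3, y3⟩ := fexp (p := p) h3 2 (p-1) (by omega)
  have h := halfV (3*n)
  rw [show 4*p+2*n = 18*n+4 by omega] at y1
  rw [show 2*p+n = 9*n+2 by omega] at y2
  rw [show 2*p+(p-1) = 12*n+2 by omega] at y3
  rw [show 3*(3*n) = 9*n by ring, show 4*(3*n)+1 = 12*n+1 by ring, show 6*(3*n)+1 = 18*n+1 by ring] at h
  rw [fact_lift (18*n+3) (18*n+4) rfl, fact_lift (18*n+2) (18*n+3) rfl, fact_lift (18*n+1) (18*n+2) rfl] at y1
  rw [fact_lift (9*n+1) (9*n+2) rfl, fact_lift (9*n) (9*n+1) rfl] at y2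
  rw [fact_lift (12*n+1) (12*n+2) rfl] at y3
  rw [c4] at y1 y2 y3
  have f1 : (n.factorial:ℚ) ≠ 0 := by exact_mod_cast n.factorial_ne_zero
  have f3 : ((3*n).factorial:ℚ) ≠ 0 := by exact_mod_cast (3*n).factorial_ne_zero
  have f4 : ((4*n).factorial:ℚ) ≠ 0 := by exact_mod_cast (4*n).factorial_ne_zero
  have p0 : (p:ℚ) ≠ 0 := by exact_mod_cast hp.out.ne_zero
  have n2 := x2.ne
  have n3 := x3.ne
  refine ⟨E1 * (E2⁻¹ * E3⁻¹), ?_, ?_⟩
  · have hx := x1.mul (x2.inv.mul x3.inv)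
    apply hx.congr
    have e : 4*H (2*n) - 2*H n - (((4:ℕ):ℚ)*H (2*n) + (-(((2:ℕ):ℚ)*H n) + -(((2:ℕ):ℚ)*H (p-1)))) = 2*H (p-1) := by push_cast; ring
    rw [e]
    exact (H_top h3).mem_mul (nat_mem 2)
  · have k4 : (Nat.factorial 4 : ℚ) = 24 := by norm_num [Nat.factorial]
    have k2 : (Nat.factorial 2 : ℚ) = 2 := by norm_num [Nat.factorial]
    rw [k4] at y1
    rw [k2] at y2 y3
    push_cast at y1 y2 y3 h ⊢
    generalize hS : SV (3*(n:ℚ)+1/2) (3*n+1) = S at *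
    have hpow : (9:ℚ)^(3*n) = (9^n)^3 := by rw [← pow_mul]; congr 1; ring
    rw [hpow] at h
    -- main identity
    have key : S * (9^n)^3 * (n.factorial:ℚ) * ((4*n).factorial:ℚ) * E2 * E3 = ((2*n).factorial:ℚ) * ((3*n).factorial:ℚ) * E1 := by
      have q1 : (9*(n:ℚ)+2) ≠ 0 := by positivity
      have q2 : (9*(n:ℚ)+1) ≠ 0 := by positivity
      have q3 : (12*(n:ℚ)+2) ≠ 0 := by positivity
      have big : (24 * (p:ℚ)^4 * ((4*n).factorial:ℚ)^4) ≠ 0 := mul_ne_zero (mul_ne_zero (by norm_num) (pow_ne_zero _ p0)) (pow_ne_zero _ f4)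
      apply mul_left_cancel₀ big
      calc 24 * (p:ℚ)^4 * ((4*n).factorial:ℚ)^4 * (S * (9^n)^3 * (n.factorial:ℚ) * ((4*n).factorial:ℚ) * E2 * E3)
          = 6 * S * (9^n)^3 * (2 * (p:ℚ)^2 * ((4*n).factorial:ℚ)^2 * (n.factorial:ℚ) * E2) * (2 * (p:ℚ)^2 * ((4*n).factorial:ℚ)^2 * ((4*n).factorial:ℚ) * E3) := by ring
        _ = 6 * S * (9^n)^3 * ((9*n+2) * ((9*n+1) * ((9*n).factorial:ℚ))) * ((12*n+2) * ((12*n+1).factorial:ℚ)) := by rw [← y2, ← y3]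
        _ = 6 * ((9*n+2) * (9*n+1) * (12*n+2)) * (S * ((9^n)^3 * ((9*n).factorial:ℚ) * ((12*n+1).factorial:ℚ))) := by ring
        _ = 6 * ((9*n+2) * (9*n+1) * (12*n+2)) * (((18*n+1).factorial:ℚ) * ((3*n).factorial:ℚ)) := by rw [h]
        _ = ((18*n+4) * ((18*n+3) * ((18*n+2) * ((18*n+1).factorial:ℚ)))) * ((3*n).factorial:ℚ) := by ring
        _ = 24 * (p:ℚ)^4 * ((4*n).factorial:ℚ)^4 * (((2*n).factorial:ℚ) * ((3*n).factorial:ℚ) * E1) := by rw [y1]; ring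
    rw [← c1, ← c2] at key
    have key2 : S * (9^n)^3 * ((p-1).choose n : ℚ) * E2 * E3 = ((2*n).choose n : ℚ) * E1 := by
      apply mul_right_cancel₀ (mul_ne_zero (mul_ne_zero f1 f1) f3)
      linear_combination key
    field_simp
    linear_combination key2

lemma U_eval : ∃ E : ℚ, Red p E 1 ∧ SU (n:ℚ) (n+1) * (9^n * ((3*n).factorial:ℚ)) = 3 * p * ((n.factorial:ℚ) * ((2*n).factorial:ℚ)) * E := by
  have h3 := h3' hn hn1
  obtain ⟨c1, c2, c3, c4⟩ := choose_facts hn hn1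
  obtain ⟨E1, x1, y1⟩ := fexp (p := p) h3 1 (2*n) (by omega)
  have h := intU n
  rw [show 1*p+2*n = 6*n+1 by omega] at y1
  have f4 : ((4*n).factorial:ℚ) ≠ 0 := by exact_mod_cast (4*n).factorial_ne_zero
  have k1 : (Nat.factorial 1 : ℚ) = 1 := by norm_num [Nat.factorial]
  rw [c4, k1] at y1
  refine ⟨E1, x1.red, ?_⟩
  rw [y1] at h
  apply mul_right_cancel₀ f4
  linear_combination h

lemma UW_eval : ∃ E : ℚ, Red p E 1 ∧ SU (((3*n : ℕ):ℚ)+1/2) (3*n+1) * ((9^n)^3 * ((3*n).factorial:ℚ)) =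
    8 * p * (16^n)^3 * ((n.factorial:ℚ) * ((2*n).factorial:ℚ)) * E := by
  have h3 := h3' hn hn1
  obtain ⟨c1, c2, c3, c4⟩ := choose_facts hn hn1
  obtain ⟨E1, x1, y1⟩ := fexp (p := p) h3 1 (2*n) (by omega)
  obtain ⟨E2, x2, y2⟩ := fexp (p := p) h3 2 n (by omega)
  obtain ⟨E3, x3, y3⟩ := fexp (p := p) h3 2 (p-1) (by omega)
  have h := halfU (3*n)
  rw [show 1*p+2*n = 6*n+1 by omega] at y1
  rw [show 2*p+n = 9*n+2 by omega] at y2
  rw [show 2*p+(p-1) = 12*n+2 by omega] at y3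
  rw [show 3*(3*n)+2 = 9*n+2 by ring, show 4*(3*n)+1 = 12*n+1 by ring, show 2*(3*n) = 6*n by ring] at h
  rw [fact_lift (6*n) (6*n+1) rfl] at y1
  rw [fact_lift (12*n+1) (12*n+2) rfl] at y3
  rw [c4] at y1 y2 y3
  have f4 : ((4*n).factorial:ℚ) ≠ 0 := by exact_mod_cast (4*n).factorial_ne_zero
  have p0 : (p:ℚ) ≠ 0 := by exact_mod_cast hp.out.ne_zero
  have n3 := x3.ne
  have k1 : (Nat.factorial 1 : ℚ) = 1 := by norm_num [Nat.factorial]
  have k2 : (Nat.factorial 2 : ℚ) = 2 := by norm_num [Nat.factorial]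
  rw [k1] at y1
  rw [k2] at y2 y3
  refine ⟨E1 * E2 * E3⁻¹, ?_, ?_⟩
  · have := (x1.red.mul x2.red).mul (x3.red.inv one_ne_zero)
    simpa using this
  · push_cast at y1 y2 y3 h ⊢
    generalize hS : SU (3*(n:ℚ)+1/2) (3*n+1) = S at *
    have hpow : (9:ℚ)^(3*n) = (9^n)^3 := by rw [← pow_mul]; congr 1; ring
    have hpow2 : (16:ℚ)^(3*n) = (16^n)^3 := by rw [← pow_mul]; congr 1; ring
    rw [hpow, hpow2] at h
    have key : S * ((9^n)^3 * ((3*n).factorial:ℚ)) * E3 = 8 * p * (16^n)^3 * ((n.factorial:ℚ) * ((2*n).factorial:ℚ)) * (E1 * E2) := by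
      have q1 : (6*(n:ℚ)+1) ≠ 0 := by positivity
      have big : (2 * (p:ℚ)^2 * ((4*n).factorial:ℚ)^3) ≠ 0 := mul_ne_zero (mul_ne_zero (by norm_num) (pow_ne_zero _ p0)) (pow_ne_zero _ f4)
      apply mul_left_cancel₀ big
      calc 2 * (p:ℚ)^2 * ((4*n).factorial:ℚ)^3 * (S * ((9^n)^3 * ((3*n).factorial:ℚ)) * E3)
          = S * ((9^n)^3 * ((3*n).factorial:ℚ)) * (2 * (p:ℚ)^2 * ((4*n).factorial:ℚ)^2 * ((4*n).factorial:ℚ) * E3) := by ring
        _ = S * ((9^n)^3 * ((3*n).factorial:ℚ)) * ((12*n+2) * ((12*n+1).factorial:ℚ)) := by rw [← y3]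
        _ = (12*n+2) * (S * ((9^n)^3 * ((3*n).factorial:ℚ) * ((12*n+1).factorial:ℚ))) := by ring
        _ = (12*n+2) * (4 * (16^n)^3 * ((9*n+2).factorial:ℚ) * ((6*n).factorial:ℚ)) := by rw [h]
        _ = 8 * (16^n)^3 * ((9*n+2).factorial:ℚ) * ((6*n+1) * ((6*n).factorial:ℚ)) := by ring
        _ = 8 * (16^n)^3 * (2 * (p:ℚ)^2 * ((4*n).factorial:ℚ)^2 * (n.factorial:ℚ) * E2) * (1 * (p:ℚ)^1 * ((4*n).factorial:ℚ)^1 * ((2*n).factorial:ℚ) * E1) := by rw [y1, y2]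
        _ = 2 * (p:ℚ)^2 * ((4*n).factorial:ℚ)^3 * (8 * p * (16^n)^3 * ((n.factorial:ℚ) * ((2*n).factorial:ℚ)) * (E1 * E2)) := by ring
    field_simp
    linear_combination key

end

end Pool.Agent.R856.FK
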