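import Pool.Agent.R856.FK4

set_option autoImplicit false

/-!
The truncated sums modulo `p^2` for `p = 4n+1`: conclusion.
-/

namespace Pool.Agent.R856.FK

open Finset Pool.Agent.Helper857.Pad

section

variable {p : ℕ} [hp : Fact p.Prime] {n : ℕ} (hn : 4*n+1 = p) (hn1 : 1 ≤ n)
include hn hn1

lemma u_red (e : ℤ) (he : e*e = 1) (hr : (9:ZMod p)^n = (e:ZMod p)) : Red p ((e:ℚ) * ((9:ℚ)^n)⁻¹) 1 := by
  have h1 : Red p ((9:ℚ)^n) (e:ZMod p) := by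
    have := (Red.nat (p := p) 9).pow n
    push_cast at this
    rwa [hr] at this
  have h2 : (e:ZMod p) * (e:ZMod p) = 1 := by exact_mod_cast congrArg (fun z : ℤ => (z : ZMod p)) he
  have h3 : (e:ZMod p) ≠ 0 := by
    intro h; rw [h, zero_mul] at h2; exact zero_ne_one h2
  have h4 := (Red.int (p := p) e).mul (h1.inv h3)
  rwa [mul_inv_cancel₀ h3] at h4

theorem main1 (e : ℤ) (he : e*e = 1) (hr : (9:ZMod p)^n = (e:ZMod p)) :
    I p 2 (((-1:ℚ)^n * e) * SV (-1/4) p - ((2*n).choose n : ℚ) * (1 + p * (H (2*n) * 4⁻¹))) := by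
  have h3 := h3' hn hn1
  have hV := V_eval hn hn1
  obtain ⟨E, xE, hW⟩ := W_eval hn hn1
  have hint := (interp (p := p) h3).2.2.2
  have v1 : ((p:ℚ)-1)/4 = n := by rw [← hn]; push_cast; ring
  have v2 : (3*(p:ℚ)-1)/4 = ((3*n : ℕ):ℚ)+1/2 := by rw [← hn]; push_cast; ring
  rw [v1, v2, SV_ext (n:ℚ) n (by ring) p (by omega), SV_ext (((3*n : ℕ):ℚ)+1/2) (3*n) (by ring) p (by omega)] at hint
  generalize hSA : SV (-1/4) p = A at *
  generalize hSV : SV (n:ℚ) (n+1) = V at *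
  generalize hSW : SV (((3*n : ℕ):ℚ)+1/2) (3*n+1) = W at *
  have hcx := cexp (p := p) n (by omega)
  have h16 := pow16 hn hn1
  have hu := u_red hn hn1 e he hr
  obtain ⟨w, hw, hwe⟩ := hu.eq Red.one
  have heu : (e:ℚ) * ((9:ℚ)^n)⁻¹ = 1 + p*w := by rw [pow_one] at hwe; linear_combination hwe
  have xw := EX.of (p := p) hw
  have c0 : ((p-1).choose n : ℚ) ≠ 0 := (choose_facts hn hn1).2.2.1
  have c9 : ((9:ℚ)^n) ≠ 0 := by positivity
  set ch := ((p-1).choose n : ℚ) with hch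
  set C := ((2*n).choose n : ℚ) with hC
  set s := (-1:ℚ)^n with hs
  have ss : s * s = 1 := by rw [hs, ← mul_pow]; norm_num
  have s0 : s ≠ 0 := by intro h; rw [h, zero_mul] at ss; exact zero_ne_one ss
  have sinv : (s * ch)⁻¹ = s * ch⁻¹ := by
    rw [mul_inv]; congr 1
    exact inv_eq_of_mul_eq_one_left ss
  have ee : (e:ℚ) * e = 1 := by exact_mod_cast he
  have x1 := (hcx.inv.mul h16).mul xw
  have x2 := (hcx.inv.mul ((xw.mul xw).mul xw)).mul xE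
  rw [sinv] at x1 x2
  -- the two evaluations
  have hV' : (s * e) * V = C * ((s * ch⁻¹) * 16^n * (1 + p*w)) := by
    rw [← heu]
    have : V = 16^n * C * (9^n)⁻¹ * ch⁻¹ := by
      field_simp; linear_combination hV
    rw [this]; ring
  have hW' : (s * e) * W = C * ((s * ch⁻¹) * ((1 + p*w) * (1 + p*w) * (1 + p*w)) * E) := by
    rw [← heu]
    have : W = C * E * ((9^n)⁻¹ * (9^n)⁻¹ * (9^n)⁻¹) * ch⁻¹ := by
      field_simp; linear_combination hW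
    rw [this]
    linear_combination (-(s * e * C * E * ((9^n)⁻¹ * (9^n)⁻¹ * (9^n)⁻¹) * ch⁻¹)) * ee
  generalize hT1 : (s * ch⁻¹) * 16^n * (1 + p*w) = T1 at *
  generalize hT2 : (s * ch⁻¹) * ((1 + p*w) * (1 + p*w) * (1 + p*w)) * E = T2 at *
  have hCm : C ∈ Zp p := nat_mem _
  have hsem : s * e ∈ Zp p := by
    apply (Zp p).mul_mem _ (int_mem e)
    rw [hs]; exact (Zp p).pow_mem ((Zp p).neg_mem (Zp p).one_mem) n
  have hr2 := hrel hn hn1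
  apply I.cancel (n := 2) (not_dvd_small h3 (by norm_num) (by omega))
  have i2 := inv2 h3
  have key : ((2:ℕ):ℚ) * ((s * e) * A - C * (1 + p * (H (2*n) * 4⁻¹))) =
      -(s*e) * (3*V - W - 2*A) + C * (3 * (T1 - (1 + p*(-(-H n) + -(H (2*n)*2⁻¹) + w))) - (T2 - (1 + p*(-(-H n) + (w+w+w) + (4*H (2*n) - 2*H n))))) +
        (p:ℚ)^1 * (C * 2 * (2*H n - 3*H (2*n))) := by
    linear_combination 3*hV' - hW'
  rw [key]
  have a1 : I p 2 (-(s*e) * (3*V - W - 2*A)) := hint.mem_mul ((Zp p).neg_mem hsem)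
  have a2 : I p 2 (C * (3 * (T1 - (1 + p*(-(-H n) + -(H (2*n)*2⁻¹) + w))) - (T2 - (1 + p*(-(-H n) + (w+w+w) + (4*H (2*n) - 2*H n)))))) := by
    apply I.mem_mul hCm
    exact (x1.2.mem_mul (nat_mem 3)).sub x2.2
  have a3 : I p 2 ((p:ℚ)^1 * (C * 2 * (2*H n - 3*H (2*n)))) :=
    (I.p_pow 1).mul (hr2.mem_mul ((Zp p).mul_mem hCm (nat_mem 2)))
  exact (a1.add a2).add a3

theorem main1U (e : ℤ) (he : e*e = 1) (hr : (9:ZMod p)^n = (e:ZMod p)) :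
    ∃ R : ℚ, R ∈ Zp p ∧ I p 2 (2 * SU (-1/4) p - p * R) ∧ Red p (((-1:ℚ)^n * e) * ((2*n).choose n : ℚ) * R) 1 := by
  have h3 := h3' hn hn1
  obtain ⟨E1, xE1, hV⟩ := U_eval hn hn1
  obtain ⟨E4, xE4, hW⟩ := UW_eval hn hn1
  have hint := (interpU (p := p) h3).2.2.2
  have v1 : ((p:ℚ)-1)/4 = n := by rw [← hn]; push_cast; ring
  have v2 : (3*(p:ℚ)-1)/4 = ((3*n : ℕ):ℚ)+1/2 := by rw [← hn]; push_cast; ring
  rw [v1, v2, SU_ext (n:ℚ) n (by ring) p (by omega), SU_ext (((3*n : ℕ):ℚ)+1/2) (3*n) (by ring) p (by omega)] at hint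
  generalize hSA : SU (-1/4) p = A at *
  generalize hSV : SU (n:ℚ) (n+1) = V at *
  generalize hSW : SU (((3*n : ℕ):ℚ)+1/2) (3*n+1) = W at *
  obtain ⟨c1, c2, c3, c4⟩ := choose_facts hn hn1
  have f1 : (n.factorial:ℚ) ≠ 0 := by exact_mod_cast n.factorial_ne_zero
  have f2 : ((2*n).factorial:ℚ) ≠ 0 := by exact_mod_cast (2*n).factorial_ne_zero
  have f3 : ((3*n).factorial:ℚ) ≠ 0 := by exact_mod_cast (3*n).factorial_ne_zero
  have c9 : ((9:ℚ)^n) ≠ 0 := by positivity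
  have hu := u_red hn hn1 e he hr
  have h16 := (pow16 hn hn1).red
  have i3n : (((3*n).factorial:ℚ))⁻¹ ∈ Zp p := by
    apply inv_nat_mem
    rw [hp.out.dvd_factorial]; omega
  have i9 : (((9:ℚ)^n))⁻¹ ∈ Zp p := by
    rw [← inv_pow]; exact (Zp p).pow_mem (inv9 h3) n
  have hRm : (n.factorial:ℚ) * ((2*n).factorial:ℚ) * (((9:ℚ)^n))⁻¹ * (((3*n).factorial:ℚ))⁻¹ ∈ Zp p :=
    (Zp p).mul_mem ((Zp p).mul_mem ((Zp p).mul_mem (nat_mem _) (nat_mem _)) i9) i3n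
  refine ⟨_, hRm, ?_, ?_⟩
  · set R := (n.factorial:ℚ) * ((2*n).factorial:ℚ) * (((9:ℚ)^n))⁻¹ * (((3*n).factorial:ℚ))⁻¹ with hR
    have hV' : V = 3 * p * R * E1 := by
      rw [hR]; field_simp; linear_combination hV
    have hW' : W = 8 * p * R * ((16^n)^3 * ((9^n)⁻¹ * (9^n)⁻¹) * E4) := by
      rw [hR]; field_simp; linear_combination hW
    have ee : (e:ℚ) * e = 1 := by exact_mod_cast he
    have hq : Red p ((16^n)^3 * ((9^n)⁻¹ * (9^n)⁻¹) * E4) 1 := by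
      have h5 := ((h16.pow 3).mul (hu.mul hu)).mul xE4
      have e2 : ((16:ℚ)^n)^3 * ((e * (9^n)⁻¹) * (e * (9^n)⁻¹)) * E4 = (16^n)^3 * ((9^n)⁻¹ * (9^n)⁻¹) * E4 := by
        linear_combination (((16:ℚ)^n)^3 * ((9^n)⁻¹ * (9^n)⁻¹) * E4) * ee
      rw [e2] at h5
      simpa using h5
    have e1 : 2 * A - p * R = -(3*V - W - 2*A) + (p:ℚ)^1 * (R * (9 * (E1 - 1) - 8 * ((16^n)^3 * ((9^n)⁻¹ * (9^n)⁻¹) * E4 - 1))) := by
      rw [hV', hW']; ring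
    rw [e1]
    have b1 : I p 1 (E1 - 1) := xE1.eq Red.one
    have b2 : I p 1 ((16^n)^3 * ((9^n)⁻¹ * (9^n)⁻¹) * E4 - 1) := hq.eq Red.one
    have b3 : I p 2 ((p:ℚ)^1 * (R * (9 * (E1 - 1) - 8 * ((16^n)^3 * ((9^n)⁻¹ * (9^n)⁻¹) * E4 - 1)))) :=
      (I.p_pow 1).mul (((b1.mem_mul (nat_mem 9)).sub (b2.mem_mul (nat_mem 8))).mem_mul hRm)
    exact hint.neg.add b3
  · have l1 := flem (p := p) n (by omega)
    have l2 := flem (p := p) (2*n) (by omega)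
    rw [show p - 1 - n = 3*n by omega] at l1
    rw [show p - 1 - 2*n = 2*n by omega] at l2
    have h5 := (l2.mul (l1.inv (neg_ne_zero.mpr one_ne_zero))).mul hu
    have e1 : (-1:ZMod p) * (-1)⁻¹ * 1 = 1 := by
      rw [mul_inv_cancel₀ (neg_ne_zero.mpr one_ne_zero), mul_one]
    rw [e1] at h5
    convert h5 using 1
    have e2 : (-1:ℚ)^(2*n) = 1 := by rw [pow_mul]; simp
    have s0 : (-1:ℚ)^n ≠ 0 := pow_ne_zero _ (by norm_num)
    have ss : (-1:ℚ)^n * (-1:ℚ)^n = 1 := by rw [← mul_pow]; norm_num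
    have sinv : ((-1:ℚ)^n)⁻¹ = (-1)^n := inv_eq_of_mul_eq_one_left ss
    rw [e2, mul_inv, sinv, ← c1]
    field_simp

end

end Pool.Agent.R856.FK
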