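import Pool.Agent.R856.FK3

set_option autoImplicit false

/-!
The truncated sum modulo `p^2` for `p = 4M+3`.
-/

namespace Pool.Agent.R856.FK

open Finset Pool.Agent.Helper857.Pad

section

variable {p : ℕ} [hp : Fact p.Prime] {M : ℕ} (hM : 4*M+3 = p) (h3 : 3 < p)
include hM h3

lemma W2_eval : ∃ E : ℚ, Red p E 1 ∧ SV ((M:ℚ)+1/2) (M+1) * (9^M * ((3*M+2).factorial:ℚ) * (6*(M+1)*(6*M+5))) =
    p * (((M+1).factorial:ℚ) * ((2*M+2).factorial:ℚ)) * E := by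
  obtain ⟨E1, x1, y1⟩ := fexp (p := p) h3 1 (2*M+2) (by omega)
  have h := halfV M
  rw [show 1*p+(2*M+2) = 6*M+5 by omega, fact_lift (6*M+4) (6*M+5) rfl, fact_lift (6*M+3) (6*M+4) rfl,
    fact_lift (6*M+2) (6*M+3) rfl, fact_lift (6*M+1) (6*M+2) rfl] at y1
  rw [show p - 1 = 4*M+2 by omega] at y1
  have k1 : (Nat.factorial 1 : ℚ) = 1 := by norm_num [Nat.factorial]
  rw [k1, fact_lift (4*M+1) (4*M+2) rfl] at y1
  refine ⟨E1, x1.red, ?_⟩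
  rw [fact_lift (3*M+1) (3*M+2) rfl, fact_lift (3*M) (3*M+1) rfl, fact_lift M (M+1) rfl]
  have f0 : ((4*M+1).factorial:ℚ) ≠ 0 := by exact_mod_cast (4*M+1).factorial_ne_zero
  have q1 : (4*(M:ℚ)+2) ≠ 0 := by positivity
  push_cast at y1 h ⊢
  apply mul_right_cancel₀ (mul_ne_zero q1 f0)
  linear_combination (6*(3*(M:ℚ)+2)*(3*M+1)*(M+1)*(6*M+5)*(4*M+2)) * h + ((M+1)*(M.factorial:ℚ)) * y1

lemma V2_eval : ∃ E : ℚ, Red p E 1 ∧ SV (((3*M+2 : ℕ) : ℚ)) (3*M+2+1) * (9^(3*M+2) * ((3*M+2).factorial:ℚ) * ((9*M+7)*(6*M+5))) =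
    16^(3*M+2) * p * (((M+1).factorial:ℚ) * ((2*M+2).factorial:ℚ)) * E := by
  obtain ⟨E1, x1, y1⟩ := fexp (p := p) h3 1 (2*M+2) (by omega)
  obtain ⟨E2, x2, y2⟩ := fexp (p := p) h3 2 (M+1) (by omega)
  obtain ⟨E3, x3, y3⟩ := fexp (p := p) h3 2 (p-1) (by omega)
  have h := intV (3*M+2)
  rw [show 1*p+(2*M+2) = 6*M+5 by omega, fact_lift (6*M+4) (6*M+5) rfl] at y1
  rw [show 2*p+(M+1) = 9*M+7 by omega, fact_lift (9*M+6) (9*M+7) rfl] at y2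
  rw [show 2*p+(p-1) = 12*M+8 by omega] at y3
  rw [show 4*(3*M+2) = 12*M+8 by ring, show 3*(3*M+2) = 9*M+6 by ring, show 2*(3*M+2) = 6*M+4 by ring] at h
  have k1 : (Nat.factorial 1 : ℚ) = 1 := by norm_num [Nat.factorial]
  have k2 : (Nat.factorial 2 : ℚ) = 2 := by norm_num [Nat.factorial]
  rw [k1] at y1
  rw [k2] at y2 y3
  have f0 : ((p-1).factorial:ℚ) ≠ 0 := by exact_mod_cast (p-1).factorial_ne_zero
  have p0 : (p:ℚ) ≠ 0 := by exact_mod_cast hp.out.ne_zero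
  have n3 := x3.ne
  refine ⟨E1 * E2 * E3⁻¹, ?_, ?_⟩
  · have := (x1.red.mul x2.red).mul (x3.red.inv one_ne_zero)
    simpa using this
  · push_cast at y1 y2 y3
    generalize hS : SV (((3*M+2 : ℕ) : ℚ)) (3*M+2+1) = S at *
    generalize hF : ((p-1).factorial:ℚ) = F at *
    have key : S * (9^(3*M+2) * ((3*M+2).factorial:ℚ) * ((9*M+7)*(6*M+5))) * E3 =
        16^(3*M+2) * p * (((M+1).factorial:ℚ) * ((2*M+2).factorial:ℚ)) * (E1 * E2) := by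
      have big : (2 * (p:ℚ)^2 * F^3) ≠ 0 := mul_ne_zero (mul_ne_zero (by norm_num) (pow_ne_zero _ p0)) (pow_ne_zero _ f0)
      apply mul_left_cancel₀ big
      calc 2 * (p:ℚ)^2 * F^3 * (S * (9^(3*M+2) * ((3*M+2).factorial:ℚ) * ((9*M+7)*(6*M+5))) * E3)
          = S * (9^(3*M+2) * ((3*M+2).factorial:ℚ) * ((9*M+7)*(6*M+5))) * (2 * (p:ℚ)^2 * F^2 * F * E3) := by ring
        _ = S * (9^(3*M+2) * ((3*M+2).factorial:ℚ) * ((9*M+7)*(6*M+5))) * ((12*M+8).factorial:ℚ) := by rw [← y3]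
        _ = ((9*M+7)*(6*M+5)) * (S * (9^(3*M+2) * ((3*M+2).factorial:ℚ) * ((12*M+8).factorial:ℚ))) := by ring
        _ = ((9*M+7)*(6*M+5)) * (16^(3*M+2) * ((9*M+6).factorial:ℚ) * ((6*M+4).factorial:ℚ)) := by rw [h]
        _ = 16^(3*M+2) * ((9*M+7) * ((9*M+6).factorial:ℚ)) * ((6*M+5) * ((6*M+4).factorial:ℚ)) := by ring
        _ = 16^(3*M+2) * (2 * (p:ℚ)^2 * F^2 * ((M+1).factorial:ℚ) * E2) * (1 * (p:ℚ)^1 * F^1 * ((2*M+2).factorial:ℚ) * E1) := by rw [y1, y2]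
        _ = 2 * (p:ℚ)^2 * F^3 * (16^(3*M+2) * p * (((M+1).factorial:ℚ) * ((2*M+2).factorial:ℚ)) * (E1 * E2)) := by ring
    have e : 16^(3*M+2) * (p:ℚ) * (((M+1).factorial:ℚ) * ((2*M+2).factorial:ℚ)) * (E1 * E2 * E3⁻¹) =
        (16^(3*M+2) * (p:ℚ) * (((M+1).factorial:ℚ) * ((2*M+2).factorial:ℚ)) * (E1 * E2)) * E3⁻¹ := by ring
    rw [e, ← key, mul_assoc _ E3, mul_inv_cancel₀ n3, mul_one]

lemma Mz : (4:ZMod p) * (M:ZMod p) + 3 = 0 := by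
  have : ((4*M+3 : ℕ) : ZMod p) = 0 := by rw [hM]; exact CharP.cast_eq_zero _ p
  push_cast at this; exact this

omit hM in
lemma two_ne' : (2:ZMod p) ≠ 0 := by
  have : ((2:ℕ):ZMod p) ≠ 0 := by
    rw [Ne, CharP.cast_eq_zero_iff (ZMod p) p]
    exact not_dvd_small h3 (by norm_num) (by omega)
  exact_mod_cast this

omit hM in
lemma three_ne' : (3:ZMod p) ≠ 0 := by
  have : ((3:ℕ):ZMod p) ≠ 0 := by
    rw [Ne, CharP.cast_eq_zero_iff (ZMod p) p]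
    exact not_dvd_small h3 (by norm_num) (by omega)
  exact_mod_cast this

theorem main2 (e : ℤ) (he : e*e = 1) (hr : (3:ZMod p)^(2*M+1) = (e:ZMod p)) :
    I p 2 (SV (-1/4) p - ((-1:ℚ)^(M+1) * e) * (2*p/(3*((2*M+2).choose (M+1) : ℚ)))) := by
  obtain ⟨E1, x1, hW⟩ := W2_eval hM h3
  obtain ⟨E2, x2, hV⟩ := V2_eval hM h3
  have hint := (interp (p := p) h3).2.2.2
  have v1 : ((p:ℚ)-1)/4 = (M:ℚ)+1/2 := by rw [← hM]; push_cast; ring
  have v2 : (3*(p:ℚ)-1)/4 = ((3*M+2 : ℕ):ℚ) := by rw [← hM]; push_cast; ring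
  rw [v1, v2, SV_ext ((M:ℚ)+1/2) M (by ring) p (by omega), SV_ext (((3*M+2 : ℕ):ℚ)) (3*M+2) (by ring) p (by omega)] at hint
  generalize hSA : SV (-1/4) p = A at *
  generalize hSV : SV (((3*M+2 : ℕ) : ℚ)) (3*M+2+1) = V at *
  generalize hSW : SV ((M:ℚ)+1/2) (M+1) = W at *
  have hz := Mz hM h3
  have t2 := two_ne' h3
  have t3 := three_ne' h3
  have f1 : ((M+1).factorial:ℚ) ≠ 0 := by exact_mod_cast (M+1).factorial_ne_zero
  have f2 : ((2*M+2).factorial:ℚ) ≠ 0 := by exact_mod_cast (2*M+2).factorial_ne_zero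
  have f3 : ((3*M+2).factorial:ℚ) ≠ 0 := by exact_mod_cast (3*M+2).factorial_ne_zero
  have c9 : ((9:ℚ)^(M+1)) ≠ 0 := by positivity
  have i3 : (((3*M+2).factorial:ℚ))⁻¹ ∈ Zp p := by
    apply inv_nat_mem
    rw [hp.out.dvd_factorial]; omega
  have i9 : (((9:ℚ)^(M+1)))⁻¹ ∈ Zp p := by
    rw [← inv_pow]; exact (Zp p).pow_mem (inv9 h3) _
  have hKm : ((M+1).factorial:ℚ) * ((2*M+2).factorial:ℚ) * (((9:ℚ)^(M+1)))⁻¹ * (((3*M+2).factorial:ℚ))⁻¹ ∈ Zp p :=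
    (Zp p).mul_mem ((Zp p).mul_mem ((Zp p).mul_mem (nat_mem _) (nat_mem _)) i9) i3
  obtain ⟨K, hK⟩ : ∃ K, K = ((M+1).factorial:ℚ) * ((2*M+2).factorial:ℚ) * (((9:ℚ)^(M+1)))⁻¹ * (((3*M+2).factorial:ℚ))⁻¹ := ⟨_, rfl⟩
  rw [← hK] at hKm
  -- first value
  have r1 : Red p (6*((M:ℚ)+1)*(6*M+5)) (6*((M:ZMod p)+1)*(6*M+5)) := by
    have := Red.nat (p := p) (6*(M+1)*(6*M+5))
    push_cast at this; exact this
  have r1v : 12 * (6*((M:ZMod p)+1)*(6*M+5)) = 9 := by linear_combination (108*(M:ZMod p)+117)*hz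
  have nine : (9:ZMod p) ≠ 0 := by
    have : (9:ZMod p) = 3*3 := by norm_num
    rw [this]; exact mul_ne_zero t3 t3
  have r1n : (6*((M:ZMod p)+1)*(6*M+5)) ≠ 0 := by
    intro h; rw [h, mul_zero] at r1v; exact nine r1v.symm
  have rho1 : Red p (9 * E1 * (6*((M:ℚ)+1)*(6*M+5))⁻¹) 12 := by
    have := ((Red.nat (p := p) 9).mul x1).mul (r1.inv r1n)
    push_cast at this
    convert this using 1
    rw [mul_one, ← div_eq_mul_inv, eq_div_iff r1n]; exact r1v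
  have q1 : (6*((M:ℚ)+1)*(6*M+5)) ≠ 0 := by positivity
  have hW' : W = p * K * (9 * E1 * (6*((M:ℚ)+1)*(6*M+5))⁻¹) := by
    rw [hK, pow_succ]
    field_simp
    linear_combination hW
  -- second value
  have s16 : (16:ZMod p)^(3*M+2) = 4 := by
    have e1 : (16:ZMod p)^(M+1) = 4 := by
      have : (16:ZMod p)^(M+1) = 2^(p-1) * 4 := by
        have e0 : (16:ZMod p) = 2^4 := by norm_num
        rw [e0, ← pow_mul, show 4*(M+1) = (p-1)+2 by omega, pow_add]; norm_num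
      rw [this, ZMod.pow_card_sub_one_eq_one t2, one_mul]
    have e2 : (16:ZMod p)^(3*M+2) * 16 = 4 * 16 := by
      rw [← pow_succ, show 3*M+2+1 = (M+1)*3 by ring, pow_mul, e1]; norm_num
    have e3 : (16:ZMod p) ≠ 0 := by
      have : (16:ZMod p) = 2*2*2*2 := by norm_num
      rw [this]; exact mul_ne_zero (mul_ne_zero (mul_ne_zero t2 t2) t2) t2
    exact mul_right_cancel₀ e3 e2
  have s9 : (9:ZMod p)^(2*M+1) = 1 := by
    have e0 : (9:ZMod p) = 3^2 := by norm_num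
    rw [e0, ← pow_mul, show 2*(2*M+1) = p-1 by omega, ZMod.pow_card_sub_one_eq_one t3]
  have r3 : Red p ((9:ℚ)^(2*M+1) * ((9*(M:ℚ)+7)*(6*M+5))) ((9*(M:ZMod p)+7)*(6*M+5)) := by
    have := Red.nat (p := p) (9^(2*M+1)*((9*M+7)*(6*M+5)))
    push_cast at this
    rwa [s9, one_mul] at this
  have r3v : 32 * ((9*(M:ZMod p)+7)*(6*M+5)) = 4 := by linear_combination (432*(M:ZMod p)+372)*hz
  have four : (4:ZMod p) ≠ 0 := by
    have : (4:ZMod p) = 2*2 := by norm_num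
    rw [this]; exact mul_ne_zero t2 t2
  have r3n : ((9*(M:ZMod p)+7)*(6*M+5)) ≠ 0 := by
    intro h; rw [h, mul_zero] at r3v; exact four r3v.symm
  have rho3 : Red p ((16:ℚ)^(3*M+2) * E2 * ((9:ℚ)^(2*M+1) * ((9*(M:ℚ)+7)*(6*M+5)))⁻¹) 32 := by
    have h16 : Red p ((16:ℚ)^(3*M+2)) 4 := by
      have := (Red.nat (p := p) 16).pow (3*M+2)
      push_cast at this
      rwa [s16] at this
    have := (h16.mul x2).mul (r3.inv r3n)
    convert this using 1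
    rw [mul_one, ← div_eq_mul_inv, eq_div_iff r3n]; exact r3v
  have hV' : V = p * K * ((16:ℚ)^(3*M+2) * E2 * ((9:ℚ)^(2*M+1) * ((9*(M:ℚ)+7)*(6*M+5)))⁻¹) := by
    have e9 : (9:ℚ)^(3*M+2) = 9^(2*M+1) * 9^(M+1) := by rw [← pow_add]; congr 1; ring
    rw [e9] at hV
    have c92 : ((9:ℚ)^(2*M+1)) ≠ 0 := by positivity
    rw [hK]
    generalize (9:ℚ)^(2*M+1) = X at *
    generalize (9:ℚ)^(M+1) = Y at *
    have q2 : ((9*(M:ℚ)+7)*(6*M+5)) ≠ 0 := by positivity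
    field_simp
    linear_combination hV
  generalize hR1 : (9 * E1 * (6*((M:ℚ)+1)*(6*M+5))⁻¹) = R1 at *
  generalize hR3 : ((16:ℚ)^(3*M+2) * E2 * ((9:ℚ)^(2*M+1) * ((9*(M:ℚ)+7)*(6*M+5)))⁻¹) = R3 at *
  -- the value of `K`
  have hA : I p 2 (A - 2*p*K) := by
    apply I.cancel (n := 2) (not_dvd_small h3 (by norm_num) (by omega))
    have e1 : ((2:ℕ):ℚ) * (A - 2*p*K) = -(3*W - V - 2*A) + (p:ℚ)^1 * (K * ((3 * R1 - R3) - 4)) := by
      rw [hW', hV']; push_cast; ring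
    rw [e1]
    have b1 : Red p (3 * R1 - R3) 4 := by
      have := ((Red.nat (p := p) 3).mul rho1).sub rho3
      push_cast at this
      convert this using 1
      norm_num
    have b2 : Red p (4:ℚ) 4 := by
      have := Red.nat (p := p) 4
      push_cast at this; exact this
    have b3 : I p 2 ((p:ℚ)^1 * (K * ((3 * R1 - R3) - 4))) := (I.p_pow 1).mul ((b1.eq b2).mem_mul hKm)
    exact hint.neg.add b3
  have hC := Nat.choose_mul_factorial_mul_factorial (show M+1 ≤ 2*M+2 by omega)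
  rw [show 2*M+2-(M+1) = M+1 by omega] at hC
  have hCq : ((2*M+2).choose (M+1) : ℚ) * ((M+1).factorial:ℚ) * ((M+1).factorial:ℚ) = ((2*M+2).factorial:ℚ) := by exact_mod_cast hC
  obtain ⟨C, hCC⟩ : ∃ C, C = ((2*M+2).choose (M+1) : ℚ) := ⟨_, rfl⟩
  rw [← hCC] at hCq ⊢
  have hCu : ¬ p ∣ (2*M+2).choose (M+1) := by
    intro h
    have h4 : (2*M+2).choose (M+1) ∣ (2*M+2).factorial := by
      rw [← hC]; exact Dvd.intro _ (mul_assoc _ _ _).symm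
    have h5 := (hp.out.dvd_factorial).mp (h.trans h4)
    omega
  have iC : (C)⁻¹ ∈ Zp p := by rw [hCC]; exact inv_nat_mem hCu
  have C0 : C ≠ 0 := by
    rw [hCC]
    have := (Nat.choose_pos (show M+1 ≤ 2*M+2 by omega)).ne'
    exact_mod_cast this
  have l1 := flem (p := p) (M+1) (by omega)
  have l2 := flem (p := p) (2*M+1) (by omega)
  rw [show p - 1 - (M+1) = 3*M+1 by omega] at l1
  rw [show p - 1 - (2*M+1) = 2*M+1 by omega] at l2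
  have hs9 : Red p ((9:ℚ)^(M+1)) (3 * (e:ZMod p)) := by
    have := (Red.nat (p := p) 9).pow (M+1)
    push_cast at this
    have e2 : (9:ZMod p)^(M+1) = 3 * (e:ZMod p) := by
      rw [← hr]
      have e0 : (9:ZMod p) = 3^2 := by norm_num
      rw [e0, ← pow_mul, ← pow_succ']; congr 1
    rwa [e2] at this
  have h2e : (e:ZMod p) * (e:ZMod p) = 1 := by exact_mod_cast congrArg (fun z : ℤ => (z : ZMod p)) he
  have e0 : (e:ZMod p) ≠ 0 := by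
    intro h; rw [h, zero_mul] at h2e; exact zero_ne_one h2e
  have r5 : Red p (3*(M:ℚ)+2) (3*(M:ZMod p)+2) := by
    have := Red.nat (p := p) (3*M+2)
    push_cast at this; exact this
  have r6 : Red p (2*(M:ℚ)+2) (2*(M:ZMod p)+2) := by
    have := Red.nat (p := p) (2*M+2)
    push_cast at this; exact this
  have r5v : 4 * (3*(M:ZMod p)+2) = -1 := by linear_combination 3*hz
  have r5n : (3*(M:ZMod p)+2) ≠ 0 := by
    intro h; rw [h, mul_zero] at r5v; exact (neg_ne_zero.mpr one_ne_zero) r5v.symm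
  have r6v : 2 * (2*(M:ZMod p)+2) = 1 := by linear_combination hz
  have hrr := ((Red.nat (p := p) 3).mul (r6.mul r6)).mul (l2.mul ((hs9.mul (r5.mul l1)).inv
    (mul_ne_zero (mul_ne_zero t3 e0) (mul_ne_zero r5n (neg_ne_zero.mpr one_ne_zero)))))
  have hvv : ((3:ℕ):ZMod p) * ((2*(M:ZMod p)+2) * (2*(M:ZMod p)+2)) * (-1 * ((3 * (e:ZMod p)) * ((3*(M:ZMod p)+2) * -1))⁻¹) = -(e:ZMod p) := by
    push_cast
    have e1 : (3 * (e:ZMod p)) * ((3*(M:ZMod p)+2) * -1) ≠ 0 :=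
      mul_ne_zero (mul_ne_zero t3 e0) (mul_ne_zero r5n (neg_ne_zero.mpr one_ne_zero))
    rw [← mul_assoc, ← div_eq_mul_inv, div_eq_iff e1]
    apply mul_left_cancel₀ four
    have e3 : 4 * (3 * ((2*(M:ZMod p)+2) * (2*(M:ZMod p)+2)) * -1) = -3 := by
      linear_combination (-3 * (2 * (2*(M:ZMod p)+2)) - 3) * r6v
    have e4 : 4 * (-(e:ZMod p) * (3 * e * ((3*(M:ZMod p)+2) * -1))) = -3 := by
      linear_combination (3*e*e)*r5v - 3*h2e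
    rw [e3, e4]
  rw [hvv] at hrr
  have hs1 : (-1:ℚ)^(2*M+1) = -1 := by rw [pow_succ, pow_mul]; simp
  have ss : (-1:ℚ)^(M+1) * (-1:ℚ)^(M+1) = 1 := by rw [← mul_pow]; norm_num
  have sinv : ((-1:ℚ)^(M+1))⁻¹ = (-1)^(M+1) := inv_eq_of_mul_eq_one_left ss
  have hf2 : ((2*M+2).factorial:ℚ) = (2*M+2) * ((2*M+1).factorial:ℚ) := by
    rw [fact_lift (2*M+1) (2*M+2) rfl]; push_cast; ring
  have hf3 : ((3*M+2).factorial:ℚ) = (3*M+2) * ((3*M+1).factorial:ℚ) := by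
    rw [fact_lift (3*M+1) (3*M+2) rfl]; push_cast; ring
  have hKC : Red p (3*K*C) (((-1:ℤ)^(M+1) * e : ℤ) : ZMod p) := by
    have h7 := hrr.mul (Red.int (p := p) (-(-1)^(M+1)))
    have e8 : -(e:ZMod p) * ((-(-1)^(M+1) : ℤ) : ZMod p) = (((-1:ℤ)^(M+1) * e : ℤ) : ZMod p) := by push_cast; ring
    rw [e8] at h7
    convert h7 using 1
    have f31 : ((3*M+1).factorial:ℚ) ≠ 0 := by exact_mod_cast (3*M+1).factorial_ne_zero
    have q5 : (3*(M:ℚ)+2) ≠ 0 := by positivity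
    have hC2 : C = ((2*M+2).factorial:ℚ) * (((M+1).factorial:ℚ))⁻¹ * (((M+1).factorial:ℚ))⁻¹ := by
      rw [← hCq]; field_simp
    rw [hK, hC2, hf2, hf3, hs1]
    push_cast
    rw [mul_inv (9^(M+1) : ℚ), mul_inv (3*(M:ℚ)+2) (_ * _), mul_inv _ ((-1:ℚ)^(M+1)), sinv, mul_inv ((M+1).factorial:ℚ), mul_inv (3*(M:ℚ)+2)]
    field_simp
    linear_combination (-1) * ss
  have hsm : ((-1:ℚ)^(M+1) * e) ∈ Zp p := (Zp p).mul_mem ((Zp p).pow_mem ((Zp p).neg_mem (Zp p).one_mem) _) (int_mem e)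
  have hd : I p 1 (3*K*C - (-1:ℚ)^(M+1) * e) := by
    have h8 := Red.int (p := p) ((-1:ℤ)^(M+1) * e)
    have h9 := hKC.eq h8
    push_cast at h9; exact h9
  have fin : A - ((-1:ℚ)^(M+1) * e) * (2*p/(3*C)) = (A - 2*p*K) + (p:ℚ)^1 * ((3*K*C - (-1:ℚ)^(M+1) * e) * (2 * (3:ℚ)⁻¹ * C⁻¹)) := by
    field_simp
    ring
  rw [fin]
  have b5 : I p 2 ((p:ℚ)^1 * ((3*K*C - (-1:ℚ)^(M+1) * e) * (2 * (3:ℚ)⁻¹ * C⁻¹))) :=
    (I.p_pow 1).mul (hd.mul_mem ((Zp p).mul_mem ((Zp p).mul_mem (nat_mem 2) (inv3 h3)) iC))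
  exact hA.add b5

end

end Pool.Agent.R856.FK
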