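import Pool.Agent.R856.CM6

set_option autoImplicit false

/-!
Quartic Jacobi sums in `Z[i]` and their reduction modulo `p^2`.
-/

namespace Pool.Agent.R856.FK

open Finset QuadraticAlgebra

noncomputable section

/-- the ring `Z[i]` -/
abbrev G := QuadraticAlgebra ℤ (-1) 0

def ii : G := ⟨0, 1⟩

lemma ii_sq : ii * ii = -1 := by
  ext <;> simp [ii]

lemma ii4 : ii^4 = 1 := by
  have h := ii_sq
  linear_combination (ii*ii - 1) * h

lemma norm_form (z : G) : norm z = z.re^2 + z.im^2 := by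
  rw [norm_def]; ring

lemma norm_zero' {z : G} (h : norm z = 0) : z = 0 := by
  rw [norm_form] at h
  have h2 : z.im^2 = 0 := by nlinarith [sq_nonneg z.re, sq_nonneg z.im]
  have h3 : z.im = 0 := pow_eq_zero_iff (two_ne_zero) |>.mp h2
  have h4 : z.re = 0 := by
    rw [h3] at h
    have : z.re^2 = 0 := by linarith
    exact pow_eq_zero_iff (two_ne_zero) |>.mp this
  ext
  · exact h4
  · exact h3

lemma exists_wc : ∃ w : ℂ, w * w = (-1:ℤ) • (1:ℂ) + (0:ℤ) • w := by
  refine ⟨Complex.I, ?_⟩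
  simp

def toC : G →+* ℂ := (lift ⟨exists_wc.choose, exists_wc.choose_spec⟩ : G →ₐ[ℤ] ℂ).toRingHom

lemma toC_inj : Function.Injective toC := by
  rw [injective_iff_map_eq_zero]
  intro z hz
  apply norm_zero'
  have h := algebraMap_norm_eq_mul_star z
  have h2 := congrArg toC h
  rw [map_mul, hz, zero_mul] at h2
  have h3 : toC (algebraMap ℤ G (norm z)) = ((norm z : ℤ) : ℂ) := by
    rw [eq_intCast (algebraMap ℤ G), map_intCast]
  rw [h3] at h2
  exact_mod_cast h2

instance : IsDomain G := toC_inj.isDomain toC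

lemma ii_prim : IsPrimitiveRoot ii 4 := by
  apply IsPrimitiveRoot.mk_of_lt _ (by norm_num) ii4
  intro l h0 h1
  interval_cases l
  · rw [pow_one]
    intro h
    have := congrArg QuadraticAlgebra.im h
    simp [ii] at this
  · rw [pow_two, ii_sq]
    intro h
    have := congrArg QuadraticAlgebra.re h
    simp at this
  · rw [show 3 = 1+1+1 by norm_num, pow_succ, pow_succ, pow_one, ii_sq]
    intro h
    have := congrArg QuadraticAlgebra.im h
    simp [ii] at this

def iiU : Gˣ := ⟨ii, ii^3, by rw [← pow_succ']; exact ii4, by rw [← pow_succ]; exact ii4⟩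

variable {p : ℕ} [hp : Fact p.Prime] {n : ℕ}

lemma iiU_mem (hn : 4*n+1 = p) : iiU ∈ rootsOfUnity (Fintype.card (ZMod p)ˣ) G := by
  rw [mem_rootsOfUnity]
  rw [ZMod.card_units_eq_totient, Nat.totient_prime hp.out, show p - 1 = 4*n by omega, pow_mul]
  have : iiU^4 = 1 := by
    apply Units.ext
    push_cast
    exact ii4
  rw [this, one_pow]

lemma ii_cases (k : ℕ) : ii^k = 1 ∨ ii^k = ii ∨ ii^k = -1 ∨ ii^k = -ii := by
  induction k with
  | zero => left; rw [pow_zero]
  | succ k ih =>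
    have h2 := ii_sq
    rcases ih with h | h | h | h
    · right; left; rw [pow_succ, h, one_mul]
    · right; right; left; rw [pow_succ, h, h2]
    · right; right; right; rw [pow_succ, h]; ring
    · left; rw [pow_succ, h]; linear_combination (-1)*h2

/-- the sign normalization -/
def Good (z : G) : Prop := (2:ℤ) ∣ z.re ∧ (2:ℤ) ∣ z.im ∧ (4:ℤ) ∣ z.re + z.im

lemma Good.add {z w : G} (hz : Good z) (hw : Good w) : Good (z + w) := by
  obtain ⟨a, b, c⟩ := hz
  obtain ⟨d, e, f⟩ := hw
  refine ⟨?_, ?_, ?_⟩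
  · rw [re_add]; exact dvd_add a d
  · rw [im_add]; exact dvd_add b e
  · rw [re_add, im_add]
    have : z.re + w.re + (z.im + w.im) = (z.re + z.im) + (w.re + w.im) := by ring
    rw [this]; exact dvd_add c f

lemma Good.zero : Good 0 := by
  refine ⟨?_, ?_, ?_⟩ <;> simp

lemma Good.sum {ι : Type*} (s : Finset ι) (f : ι → G) (hf : ∀ i ∈ s, Good (f i)) : Good (∑ i ∈ s, f i) := by
  classical
  induction s using Finset.induction_on with
  | empty => rw [sum_empty]; exact Good.zero
  | insert a s ha ih =>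
    rw [sum_insert ha]
    exact (hf a (mem_insert_self _ _)).add (ih (fun i hi => hf i (mem_insert_of_mem hi)))

lemma good_term (z w : G) (hz : z = 1 ∨ z = ii ∨ z = -1 ∨ z = -ii) (hw : w = 1 ∨ w = ii ∨ w = -1 ∨ w = -ii) :
    Good ((1 - z) * (1 - w^2)) := by
  have h2 := ii_sq
  have hw2 : w^2 = 1 ∨ w^2 = -1 := by
    rcases hw with h | h | h | h
    · left; rw [h]; ring
    · right; rw [h]; linear_combination h2
    · left; rw [h]; ring
    · right; rw [h]; linear_combination h2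
  rcases hw2 with h | h
  · rw [h, sub_self, mul_zero]; exact Good.zero
  · rw [h]
    rcases hz with h | h | h | h
    · rw [h, sub_self, zero_mul]; exact Good.zero
    · rw [h]
      have e : (1 - ii) * (1 - (-1 : G)) = ⟨2, -2⟩ := by ext <;> simp [ii]
      rw [e]; exact ⟨by norm_num, by norm_num, by norm_num⟩
    · rw [h]
      have e : (1 - (-1 : G)) * (1 - (-1 : G)) = ⟨4, 0⟩ := by ext <;> simp
      rw [e]; exact ⟨by norm_num, by norm_num, by norm_num⟩
    · rw [h]
      have e : (1 - (-ii)) * (1 - (-1 : G)) = ⟨2, 2⟩ := by ext <;> simp [ii]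
      rw [e]; exact ⟨by norm_num, by norm_num, by norm_num⟩

/-- the data of the Jacobi sum -/
theorem exists_jacobi (hn : 4*n+1 = p) (hn1 : 1 ≤ n) : ∃ (φ : G →+* ZMod (p^2)) (χ : MulChar (ZMod p) G),
    (∀ x : ZMod p, x ≠ 0 → φ (χ x) = ((((x.val : ℕ) : ℤ)^(p*(3*n)) : ℤ) : ZMod (p^2))) ∧
    norm (jacobiSum χ (χ*χ)) = p ∧ Good ((p:G) + jacobiSum χ (χ*χ)) := by
  obtain ⟨g, hg⟩ := IsCyclic.exists_generator (α := (ZMod p)ˣ)
  have hord : orderOf g = p - 1 := by
    rw [orderOf_eq_card_of_forall_mem_zpowers hg, Nat.card_eq_fintype_card, ZMod.card_units_eq_totient,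
      Nat.totient_prime hp.out]
  have hgen : ∀ x : ZMod p, x ≠ 0 → ∃ k : ℕ, x = (g : ZMod p)^k := by
    intro x hx
    obtain ⟨k, hk⟩ := (mem_powers_iff_mem_zpowers (x := g)).mpr (hg (Units.mk0 x hx))
    refine ⟨k, ?_⟩
    have := congrArg (fun u : (ZMod p)ˣ => (u : ZMod p)) hk
    simpa using this.symm
  obtain ⟨v, hv⟩ : ∃ v : ℤ, v = (((g : ZMod p).val : ℕ) : ℤ) := ⟨_, rfl⟩
  have hvc : (v : ZMod p) = g := by rw [hv]; simp
  obtain ⟨W, hW⟩ : ∃ W : ℤ, W = v^(p*(3*n)) := ⟨_, rfl⟩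
  have hW4 : (p:ℤ)^2 ∣ W^4 - 1 := by
    have e : W^4 - 1 = (v^(12*n))^p - 1^p := by rw [hW, one_pow, ← pow_mul, ← pow_mul]; congr 2; ring
    rw [e]
    apply CM.pow_p_congr
    apply CM.dvd_of_zmod
    push_cast
    rw [hvc, show 12*n = (p-1)*3 by omega, pow_mul, ZMod.pow_card_sub_one_eq_one g.ne_zero]
    ring
  have hW1 : ¬ (p:ℤ) ∣ W^2 - 1 := by
    intro h
    have h1 := CM.zmod_of_dvd h
    push_cast at h1
    rw [hW] at h1
    push_cast at h1
    rw [hvc, pow_mul (g : ZMod p) p, ZMod.pow_card, ← pow_mul] at h1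
    have h2 : g^(3*n*2) = 1 := by
      apply Units.ext
      push_cast
      exact sub_eq_zero.mp h1
    have := orderOf_dvd_of_pow_eq_one h2
    rw [hord, show p - 1 = 4*n by omega] at this
    obtain ⟨c, hc⟩ := this
    have c1 : c < 2 := by
      by_contra hlt
      have : 4*n*2 ≤ 4*n*c := Nat.mul_le_mul_left _ (by omega)
      omega
    interval_cases c <;> omega
  have hWW : (p:ℤ)^2 ∣ W^2 + 1 := by
    have h2 : IsCoprime ((p:ℤ)^2) (W^2 - 1) := by
      apply IsCoprime.pow_left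
      rw [Int.isCoprime_iff_gcd_eq_one]
      exact (Nat.Prime.coprime_iff_not_dvd hp.out (n := (W^2-1).natAbs)).mpr
        (fun hd => hW1 (Int.natCast_dvd.mpr hd))
    apply h2.dvd_of_dvd_mul_left
    have : (W^2-1)*(W^2+1) = W^4 - 1 := by ring
    rw [this]; exact hW4
  have hw : (W : ZMod (p^2)) * (W : ZMod (p^2)) = (-1:ℤ) • (1:ZMod (p^2)) + (0:ℤ) • (W : ZMod (p^2)) := by
    have h := (ZMod.intCast_zmod_eq_zero_iff_dvd (W^2+1) (p^2)).mpr (by push_cast; exact hWW)
    push_cast at h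
    simp only [neg_smul, one_smul, zero_smul]
    linear_combination h
  set φ : G →+* ZMod (p^2) := (lift ⟨(W : ZMod (p^2)), hw⟩ : G →ₐ[ℤ] ZMod (p^2)).toRingHom with hφ
  have hφom : φ ii = (W : ZMod (p^2)) := by
    rw [hφ]
    change (lift ⟨(W : ZMod (p^2)), hw⟩ : G →ₐ[ℤ] ZMod (p^2)) ii = _
    rw [lift_apply_apply]
    simp [ii]
  set χ : MulChar (ZMod p) G := MulChar.ofRootOfUnity (iiU_mem hn) hg with hχ
  have hχg : χ (g : ZMod p) = ii := MulChar.ofRootOfUnity_spec (iiU_mem hn) hg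
  refine ⟨φ, χ, ?_, ?_, ?_⟩
  · intro x hx
    obtain ⟨k, hk⟩ := hgen x hx
    have e1 : χ x = ii^k := by rw [hk, map_pow, hχg]
    rw [e1, map_pow, hφom]
    have h1 : (p:ℤ)^2 ∣ ((v^k)^(3*n))^p - ((((x.val:ℕ):ℤ))^(3*n))^p := by
      apply CM.pow_p_congr
      apply CM.dvd_of_zmod
      push_cast
      rw [hvc, ZMod.natCast_zmod_val, ← hk]; ring
    have h2 := (ZMod.intCast_zmod_eq_zero_iff_dvd _ (p^2)).mpr (show ((p^2:ℕ):ℤ) ∣ _ by push_cast; exact h1)
    rw [Int.cast_sub, sub_eq_zero] at h2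
    have e2 : ((v^k)^(3*n))^p = W^k := by
      rw [hW, ← pow_mul, ← pow_mul, ← pow_mul]; congr 1; ring
    have e3 : ((((x.val:ℕ):ℤ))^(3*n))^p = ((x.val:ℕ):ℤ)^(p*(3*n)) := by
      rw [← pow_mul]; congr 1; ring
    rw [e2, e3] at h2
    rw [← h2]; push_cast; rfl
  · -- the norm
    have hχ1 : χ ≠ 1 := by
      intro h
      have : χ (g : ZMod p) = 1 := by rw [h]; exact MulChar.one_apply_coe g
      rw [hχg] at this
      exact ii_prim.ne_one (by norm_num) this
    have hχχ : χ * χ ≠ 1 := by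
      intro h
      have : (χ * χ) (g : ZMod p) = 1 := by rw [h]; exact MulChar.one_apply_coe g
      rw [MulChar.mul_apply, hχg, ← pow_two] at this
      exact ii_prim.pow_ne_one_of_pos_of_lt (by norm_num) (by norm_num) this
    have hχχχ : χ * (χ * χ) ≠ 1 := by
      intro h
      have : (χ * (χ * χ)) (g : ZMod p) = 1 := by rw [h]; exact MulChar.one_apply_coe g
      rw [MulChar.mul_apply, MulChar.mul_apply, hχg, ← pow_two, ← pow_succ'] at this
      exact ii_prim.pow_ne_one_of_pos_of_lt (by norm_num) (by norm_num) this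
    have hprod : jacobiSum χ (χ*χ) * jacobiSum χ⁻¹ (χ*χ)⁻¹ = (p : G) := by
      apply toC_inj
      rw [map_mul, ← jacobiSum_ringHomComp, ← jacobiSum_ringHomComp, ← MulChar.ringHomComp_inv, ← MulChar.ringHomComp_inv]
      rw [jacobiSum_mul_jacobiSum_inv]
      · rw [ZMod.card]; simp
      · rw [ringChar.eq_zero, ZMod.ringChar_zmod_n]; exact hp.out.ne_zero.symm
      · exact (MulChar.ringHomComp_ne_one_iff toC_inj).mpr hχ1
      · exact (MulChar.ringHomComp_ne_one_iff toC_inj).mpr hχχ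
      · rw [← MulChar.ringHomComp_mul]; exact (MulChar.ringHomComp_ne_one_iff toC_inj).mpr hχχχ
    have homs : ii * star ii = 1 := by
      have h := algebraMap_norm_eq_mul_star ii
      rw [← h, norm_form]; simp [ii]
    have hinvval : ∀ x : ZMod p, χ⁻¹ x = star (χ x) := by
      intro x
      by_cases hx : x = 0
      · rw [hx, MulChar.map_zero, MulChar.map_zero, star_zero]
      · have e1 : χ x * χ⁻¹ x = 1 := by
          rw [← MulChar.mul_apply, mul_inv_cancel, MulChar.one_apply (isUnit_iff_ne_zero.mpr hx)]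
        obtain ⟨k, hk⟩ := hgen x hx
        have e2 : χ x * star (χ x) = 1 := by
          rw [hk, map_pow, hχg, star_pow, ← mul_pow, homs, one_pow]
        have hne : χ x ≠ 0 := by
          intro h; rw [h, zero_mul] at e1; exact zero_ne_one e1
        exact mul_left_cancel₀ hne (e1.trans e2.symm)
    have hstar : jacobiSum χ⁻¹ (χ*χ)⁻¹ = star (jacobiSum χ (χ*χ)) := by
      unfold jacobiSum
      rw [star_sum]
      apply sum_congr rfl
      intro x _
      rw [mul_inv, MulChar.mul_apply, hinvval, hinvval, MulChar.mul_apply, star_mul', star_mul']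
    rw [hstar, ← algebraMap_norm_eq_mul_star, eq_intCast (algebraMap ℤ G)] at hprod
    exact_mod_cast hprod
  · -- the sign
    have hχ1 : χ ≠ 1 := by
      intro h
      have : χ (g : ZMod p) = 1 := by rw [h]; exact MulChar.one_apply_coe g
      rw [hχg] at this
      exact ii_prim.ne_one (by norm_num) this
    have hχχ : χ * χ ≠ 1 := by
      intro h
      have : (χ * χ) (g : ZMod p) = 1 := by rw [h]; exact MulChar.one_apply_coe g
      rw [MulChar.mul_apply, hχg, ← pow_two] at this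
      exact ii_prim.pow_ne_one_of_pos_of_lt (by norm_num) (by norm_num) this
    have s1 : ∑ x : ZMod p, χ x = 0 := MulChar.sum_eq_zero_of_ne_one hχ1
    have s2 : ∑ x : ZMod p, (χ*χ) (1 - x) = 0 := by
      rw [← MulChar.sum_eq_zero_of_ne_one hχχ]
      exact Equiv.sum_comp (Equiv.subLeft (1 : ZMod p)) (fun y => (χ*χ) y)
    have e : (p:G) + jacobiSum χ (χ*χ) = ∑ x : ZMod p, (1 - χ x) * (1 - (χ*χ) (1-x)) := by
      have : ∀ x : ZMod p, (1 - χ x) * (1 - (χ*χ) (1-x)) = 1 - χ x - (χ*χ) (1-x) + χ x * (χ*χ) (1-x) := by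
        intro x; ring
      rw [sum_congr rfl (fun x _ => this x), sum_add_distrib, sum_sub_distrib, sum_sub_distrib, s1, s2]
      unfold jacobiSum
      simp [ZMod.card]
    rw [e]
    apply Good.sum
    intro x _
    have hc : ∀ y : ZMod p, y ≠ 0 → (χ y = 1 ∨ χ y = ii ∨ χ y = -1 ∨ χ y = -ii) := by
      intro y hy
      obtain ⟨k, hk⟩ := hgen y hy
      rw [hk, map_pow, hχg]
      exact ii_cases k
    rw [MulChar.mul_apply, ← pow_two]
    by_cases h0 : x = 0
    · rw [h0, sub_zero, map_one, one_pow, sub_self, mul_zero]; exact Good.zero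
    · by_cases h1 : x = 1
      · rw [h1, map_one, sub_self, zero_mul]; exact Good.zero
      · exact good_term _ _ (hc x h0) (hc (1-x) (sub_ne_zero.mpr (Ne.symm h1)))

end

end Pool.Agent.R856.FK
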