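import Pool.Agent.R856.EJ6
import Pool.Agent.R856.FK7
import Pool.Agent.R856.FK4

set_option autoImplicit false

/-!
The reduction of the quartic Jacobi sum modulo `p^2`.
-/

namespace Pool.Agent.R856.FK

open Finset Pool.Agent.Helper857.Pad

open EJ (hh hh_succ cast_ne aS aS_eq ee_z EE)

section

variable {p : ℕ} [hp : Fact p.Prime] {n : ℕ} (hn : 4*n+1 = p) (hn1 : 1 ≤ n)
include hn hn1

lemma flip4 {k : ℕ} (hk : k ≤ 2*n) : (((2*n).choose k : ℕ) : ZMod p) = (-1)^k * (((2*n+k).choose k : ℕ) : ZMod p) := by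
  have h1 := Nat.ascFactorial_eq_factorial_mul_choose (2*n) k
  have h2 := Nat.descFactorial_eq_factorial_mul_choose (2*n) k
  have hf : ((k.factorial : ℕ) : ZMod p) ≠ 0 := by
    rw [Ne, CharP.cast_eq_zero_iff (ZMod p) p, hp.out.dvd_factorial]
    omega
  have h4 : (4:ZMod p) * (n:ZMod p) = -1 := by
    have : ((4*n+1 : ℕ) : ZMod p) = 0 := by rw [hn]; exact CharP.cast_eq_zero _ p
    push_cast at this
    linear_combination this
  have e : ∀ i ≤ 2*n, ((Nat.descFactorial (2*n) i : ℕ) : ZMod p) = (-1)^i * ((Nat.ascFactorial (2*n+1) i : ℕ) : ZMod p) := by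
    intro i
    induction i with
    | zero => intro _; simp
    | succ i ih =>
      intro hi
      rw [Nat.descFactorial_succ, Nat.ascFactorial_succ]
      rw [Nat.cast_mul, Nat.cast_mul, Nat.cast_sub (show i ≤ 2*n by omega), ih (by omega)]
      push_cast
      linear_combination ((-1)^i * ((Nat.ascFactorial (2*n+1) i : ℕ) : ZMod p)) * h4
  have e2 := e k hk
  rw [h1, h2] at e2
  apply mul_left_cancel₀ hf
  push_cast at e2 ⊢
  linear_combination e2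

lemma hh_sym : hh p (3*n) = hh p n := by
  have hsplit : hh p (3*n) = hh p n + ∑ i ∈ range (2*n), (((n+i+1 : ℕ) : ZMod p))⁻¹ := by
    unfold hh; rw [show 3*n = n + 2*n by ring, sum_range_add]
  have hr : ∑ i ∈ range (2*n), (((n+i+1 : ℕ) : ZMod p))⁻¹ = -∑ i ∈ range (2*n), (((n+i+1 : ℕ) : ZMod p))⁻¹ := by
    conv_lhs => rw [← sum_range_reflect]
    rw [← sum_neg_distrib]
    apply sum_congr rfl
    intro i hi
    rw [mem_range] at hi
    rw [← inv_neg]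
    congr 1
    have : ((n + (2*n-1-i) + 1 : ℕ) : ZMod p) + ((n+i+1 : ℕ) : ZMod p) = ((p : ℕ) : ZMod p) := by
      rw [← Nat.cast_add]; congr 1; omega
    rw [CharP.cast_eq_zero (ZMod p) p] at this
    linear_combination this
  have h2 : (2:ZMod p) ≠ 0 := by
    have := cast_ne (p := p) (k := 2) (by norm_num) (by omega)
    exact_mod_cast this
  have h0 : ∑ i ∈ range (2*n), (((n+i+1 : ℕ) : ZMod p))⁻¹ = 0 := by
    have : 2 * ∑ i ∈ range (2*n), (((n+i+1 : ℕ) : ZMod p))⁻¹ = 0 := by linear_combination hr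
    rcases mul_eq_zero.mp this with h | h
    · exact absurd h h2
    · exact h
  rw [hsplit, h0, add_zero]

lemma har_sum : ∑ i ∈ range n, (-1)^i * (((2*n).choose i : ℕ) : ZMod p) * (((n-i : ℕ) : ZMod p))⁻¹ =
    (-1)^n * (((2*n).choose n : ℕ) : ZMod p) * (hh p n - hh p (2*n)) := by
  have h := aS_eq (p := p) (2*n) n (by omega)
  rw [show 2*n + n = 3*n by ring, hh_sym hn hn1] at h
  have h5 := flip4 hn hn1 (show n ≤ 2*n by omega)
  rw [show 2*n+n = 3*n by ring] at h5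
  have h6 : ((-1 : ZMod p)^n) * (-1)^n = 1 := by rw [← mul_pow]; simp
  have h7 : (((3*n).choose n : ℕ) : ZMod p) = (-1)^n * (((2*n).choose n : ℕ) : ZMod p) := by
    rw [h5, ← mul_assoc, h6, one_mul]
  rw [← h7, ← h]
  unfold aS
  apply sum_congr rfl
  intro i hi
  rw [mem_range] at hi
  rw [flip4 hn hn1 (by omega)]
  have h1 : ((-1 : ZMod p)^i) * (-1)^i = 1 := by rw [← mul_pow]; simp
  linear_combination ((((2*n+i).choose i : ℕ) : ZMod p) * (((n-i : ℕ) : ZMod p))⁻¹) * h1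

lemma half_alt : 2 * ∑ i ∈ range n, (-1)^i * (((2*n).choose i : ℕ) : ZMod p) = -((-1)^n * (((2*n).choose n : ℕ) : ZMod p)) := by
  have h := Int.alternating_sum_range_choose (n := 2*n)
  rw [if_neg (by omega)] at h
  have h1 : ∑ i ∈ range (2*n+1), ((-1:ℤ))^i * ((2*n).choose i : ℤ) =
      ∑ i ∈ range n, ((-1:ℤ))^i * ((2*n).choose i : ℤ) + ((-1)^n * ((2*n).choose n : ℤ) +
        ∑ i ∈ range n, ((-1:ℤ))^(n+1+i) * ((2*n).choose (n+1+i) : ℤ)) := by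
    rw [show 2*n+1 = n + (1 + n) by ring, sum_range_add, sum_range_add, sum_range_one]
    congr 2
    apply sum_congr rfl
    intro i _
    rw [show n + (1 + i) = n+1+i by ring]
  have h2 : ∑ i ∈ range n, ((-1:ℤ))^(n+1+i) * ((2*n).choose (n+1+i) : ℤ) = ∑ i ∈ range n, ((-1:ℤ))^i * ((2*n).choose i : ℤ) := by
    rw [← sum_range_reflect]
    apply sum_congr rfl
    intro i hi
    rw [mem_range] at hi
    have e1 : n+1+(n-1-i) = 2*n - i := by omega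
    rw [e1, Nat.choose_symm (by omega)]
    congr 1
    have e2 : ((-1:ℤ))^(2*n-i) * (-1)^i = 1 := by
      rw [← pow_add, show 2*n-i+i = 2*n by omega, pow_mul]; simp
    have e3 : ((-1:ℤ))^i * (-1)^i = 1 := by rw [← mul_pow]; simp
    calc ((-1:ℤ))^(2*n-i) = (-1)^(2*n-i) * ((-1)^i * (-1)^i) := by rw [e3, mul_one]
      _ = ((-1)^(2*n-i) * (-1)^i) * (-1)^i := by ring
      _ = (-1)^i := by rw [e2, one_mul]
  rw [h1, h2] at h
  have h3 : 2 * ∑ i ∈ range n, ((-1:ℤ))^i * ((2*n).choose i : ℤ) = -((-1)^n * ((2*n).choose n : ℤ)) := by linarith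
  have h4 := congrArg (fun z : ℤ => (z : ZMod p)) h3
  push_cast at h4 ⊢
  exact h4

/-- the key first order sum -/
lemma key_sum : (4:ZMod p) * n * ∑ i ∈ range n, (-1)^i * (((2*n-1).choose i : ℕ) : ZMod p) * (((n-i : ℕ) : ZMod p))⁻¹ =
    -((-1)^n * (((2*n).choose n : ℕ) : ZMod p)) + 2*n*((-1)^n * (((2*n).choose n : ℕ) : ZMod p) * (hh p n - hh p (2*n))) := by
  have e : ∀ i ∈ range n, (4:ZMod p) * n * ((-1)^i * (((2*n-1).choose i : ℕ) : ZMod p) * (((n-i : ℕ) : ZMod p))⁻¹) =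
      2 * ((-1)^i * (((2*n).choose i : ℕ) : ZMod p)) + (2*n) * ((-1)^i * (((2*n).choose i : ℕ) : ZMod p) * (((n-i : ℕ) : ZMod p))⁻¹) := by
    intro i hi
    rw [mem_range] at hi
    have c := cast_ne (p := p) (k := n-i) (by omega) (by omega)
    have h1 := Nat.choose_mul_succ_eq (2*n-1) i
    rw [show 2*n-1+1 = 2*n by omega] at h1
    have h1' : (((2*n-1).choose i : ℕ) : ZMod p) * (2*n) = (((2*n).choose i : ℕ) : ZMod p) * ((n:ZMod p) + ((n-i : ℕ) : ZMod p)) := by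
      have : (2*n-1).choose i * (2*n) = (2*n).choose i * (n + (n-i)) := by rw [h1]; congr 1; omega
      exact_mod_cast congrArg (fun z : ℕ => (z : ZMod p)) this
    have h2 : ((n-i : ℕ) : ZMod p) * (((n-i : ℕ) : ZMod p))⁻¹ = 1 := mul_inv_cancel₀ c
    linear_combination (2 * (-1)^i * (((n-i : ℕ) : ZMod p))⁻¹) * h1' + (2 * (-1)^i * (((2*n).choose i : ℕ) : ZMod p)) * h2
  rw [mul_sum, sum_congr rfl e, sum_add_distrib, ← mul_sum, ← mul_sum, har_sum hn hn1, half_alt hn hn1]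

omit hn1 in
lemma EE_cast (x : ZMod p) (X : ℤ) (hX : (X : ZMod p) = x) : ((EE p X : ℤ) : ZMod p) =
    -∑ r ∈ range (4*n), (((r+1 : ℕ) : ZMod p))⁻¹ * x^(r+1) := by
  unfold EE
  have hr : range p = range (4*n+1) := by rw [hn]
  rw [hr, sum_range_succ', CM.ee_zero]
  push_cast
  rw [zero_mul, add_zero, ← sum_neg_distrib]
  apply sum_congr rfl
  intro r hr
  rw [mem_range] at hr
  have h := ee_z (p := p) r (by omega)
  rw [hX, neg_pow]
  push_cast at h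
  linear_combination x^(r+1) * h

lemma term (x : ZMod p) : (p:ℤ)^2 ∣ (((x.val:ℕ):ℤ))^(p*(3*n)) * (1 - ((x.val:ℕ):ℤ))^(p*(2*n)) -
    ((((x.val:ℕ):ℤ))^(p*(3*n)) * (1 - (((x.val:ℕ):ℤ))^p)^(2*n) +
      p * ((((x.val:ℕ):ℤ))^(p*(3*n)) * ((2*n:ℕ):ℤ) * EE p ((x.val:ℕ):ℤ) * (1 - (((x.val:ℕ):ℤ))^p)^(2*n-1))) := by
  have hp2 : p ≠ 2 := by omega
  have hodd : Odd p := hp.out.odd_of_ne_two hp2
  set X : ℤ := ((x.val:ℕ):ℤ)
  have h1 := CM.binom_p (p := p) (-X)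
  rw [hodd.neg_pow] at h1
  have h2 : (1 - X)^p = (1 - X^p) + p * EE p X := by
    unfold EE
    rw [show 1 - X = -X + 1 by ring, h1]; ring
  obtain ⟨k, hk⟩ := CM.pow_expand (1 - X^p) (EE p X) (2*n) (p:ℤ)
  refine ⟨X^(p*(3*n)) * k, ?_⟩
  have h3 : (1 - X)^(p*(2*n)) = (1 - X^p)^(2*n) + ((2*n:ℕ):ℤ) * p * EE p X * (1 - X^p)^(2*n-1) + (p:ℤ)^2 * k := by
    rw [pow_mul, h2]; linarith
  rw [h3]; ring

lemma mainM : (p:ℤ)^2 ∣ ∑ x : ZMod p, (((x.val:ℕ):ℤ))^(p*(3*n)) * (1 - (((x.val:ℕ):ℤ))^p)^(2*n) -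
    ((2*n).choose n : ℤ) * (-1)^n * ((p:ℤ) - 1) := by
  have e : ∀ x : ZMod p, (((x.val:ℕ):ℤ))^(p*(3*n)) * (1 - (((x.val:ℕ):ℤ))^p)^(2*n) =
      ∑ i ∈ range (2*n+1), (((2*n).choose i : ℤ) * (-1)^i) * (((x.val:ℕ):ℤ))^(p*(3*n+i)) := by
    intro x
    rw [sub_eq_add_neg, add_comm, add_pow, mul_sum]
    apply sum_congr rfl
    intro i _
    rw [one_pow, neg_pow, ← pow_mul, mul_add p, pow_add]
    ring
  rw [sum_congr rfl (fun x _ => e x), sum_comm]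
  have e2 : ∀ i ∈ range (2*n+1), ∑ x : ZMod p, (((2*n).choose i : ℤ) * (-1)^i) * (((x.val:ℕ):ℤ))^(p*(3*n+i)) =
      (((2*n).choose i : ℤ) * (-1)^i) * CM.Wp p (3*n+i) := by
    intro i _
    rw [← mul_sum]; rfl
  rw [sum_congr rfl e2]
  have e3 : ((2*n).choose n : ℤ) * (-1)^n * ((p:ℤ) - 1) = ∑ i ∈ range (2*n+1), if i = n then ((2*n).choose i : ℤ) * (-1)^i * ((p:ℤ) - 1) else 0 := by
    rw [sum_ite_eq', if_pos (mem_range.mpr (by omega))]
  rw [e3, ← sum_sub_distrib]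
  apply dvd_sum
  intro i hi
  rw [mem_range] at hi
  by_cases h : i = n
  · rw [if_pos h, ← mul_sub]
    apply Dvd.dvd.mul_left
    exact CM.Wp_mul _ (by omega) ⟨1, by omega⟩
  · rw [if_neg h, sub_zero]
    apply Dvd.dvd.mul_left
    apply CM.Wp_not
    rintro ⟨c, hc⟩
    have hp1 : p - 1 = 4*n := by omega
    rw [hp1] at hc
    have c1 : c < 2 := by
      by_contra hlt
      have : 4*n*2 ≤ 4*n*c := Nat.mul_le_mul_left _ (by omega)
      omega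
    interval_cases c <;> omega

lemma inner1 (i : ℕ) (hi : i < n) : ∑ r ∈ range (4*n), (((r+1 : ℕ) : ZMod p))⁻¹ * (if (p-1) ∣ (3*n+(r+1)+i) then (1:ZMod p) else 0) =
    (((n-i : ℕ) : ZMod p))⁻¹ := by
  rw [sum_eq_single (n-i-1)]
  · rw [if_pos ⟨1, by omega⟩, mul_one]
    congr 2
    omega
  · intro r hr hne
    rw [mem_range] at hr
    rw [if_neg, mul_zero]
    rintro ⟨c, hc⟩
    have hp1 : p - 1 = 4*n := by omega
    rw [hp1] at hc
    have c1 : c < 3 := by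
      by_contra hlt
      have : 4*n*3 ≤ 4*n*c := Nat.mul_le_mul_left _ (by omega)
      omega
    interval_cases c <;> omega
  · intro h
    exact absurd (mem_range.mpr (by omega)) h

lemma inner2 (i : ℕ) (hi : i < n) : ∑ r ∈ range (4*n), (((r+1 : ℕ) : ZMod p))⁻¹ * (if (p-1) ∣ (3*n+(r+1)+(n+i)) then (1:ZMod p) else 0) =
    (((4*n-i : ℕ) : ZMod p))⁻¹ := by
  rw [sum_eq_single (4*n-i-1)]
  · rw [if_pos ⟨2, by omega⟩, mul_one]
    congr 2
    omega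
  · intro r hr hne
    rw [mem_range] at hr
    rw [if_neg, mul_zero]
    rintro ⟨c, hc⟩
    have hp1 : p - 1 = 4*n := by omega
    rw [hp1] at hc
    have c1 : c < 3 := by
      by_contra hlt
      have : 4*n*3 ≤ 4*n*c := Nat.mul_le_mul_left _ (by omega)
      omega
    interval_cases c <;> omega
  · intro h
    exact absurd (mem_range.mpr (by omega)) h

lemma second :
    ((∑ x : ZMod p, (((x.val:ℕ):ℤ))^(p*(3*n)) * ((2*n:ℕ):ℤ) * EE p ((x.val:ℕ):ℤ) * (1 - (((x.val:ℕ):ℤ))^p)^(2*n-1) : ℤ) : ZMod p) =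
      -((-1)^n * (((2*n).choose n : ℕ) : ZMod p)) + 2*n*((-1)^n * (((2*n).choose n : ℕ) : ZMod p) * (hh p n - hh p (2*n))) := by
  rw [Int.cast_sum]
  have e : ∀ x : ZMod p, (((((x.val:ℕ):ℤ))^(p*(3*n)) * ((2*n:ℕ):ℤ) * EE p ((x.val:ℕ):ℤ) * (1 - (((x.val:ℕ):ℤ))^p)^(2*n-1) : ℤ) : ZMod p) =
      ∑ i ∈ range (2*n), ∑ r ∈ range (4*n), (-(2*n) * ((((2*n-1).choose i : ℕ) : ZMod p) * (-1)^i) * (((r+1 : ℕ) : ZMod p))⁻¹) * x^(3*n+(r+1)+i) := by
    intro x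
    have hE := EE_cast hn x ((x.val:ℕ):ℤ) (by simp)
    push_cast at hE ⊢
    rw [hE, ZMod.natCast_zmod_val, pow_mul, ZMod.pow_card, sub_eq_add_neg 1 x, add_comm 1 (-x), add_pow,
      show 2*n-1+1 = 2*n by omega]
    rw [mul_neg, neg_mul, mul_assoc, mul_sum, mul_sum, ← sum_neg_distrib]
    apply sum_congr rfl
    intro i _
    have h9 : ∀ S c : ZMod p, -(x^(3*n) * (2*n * (S * c))) = S * (-(x^(3*n) * (2*n) * c)) := by intro S c; ring
    rw [one_pow, mul_one, neg_pow, mul_assoc, h9, sum_mul]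
    apply sum_congr rfl
    intro r _
    rw [pow_add x (3*n+(r+1)) i, pow_add x (3*n) (r+1)]
    ring
  rw [sum_congr rfl (fun x _ => e x), sum_comm]
  have e2 : ∀ i ∈ range (2*n), ∑ x : ZMod p, ∑ r ∈ range (4*n), (-(2*n) * ((((2*n-1).choose i : ℕ) : ZMod p) * (-1)^i) * (((r+1 : ℕ) : ZMod p))⁻¹) * x^(3*n+(r+1)+i) =
      2*n * ((((2*n-1).choose i : ℕ) : ZMod p) * (-1)^i) * ∑ r ∈ range (4*n), (((r+1 : ℕ) : ZMod p))⁻¹ * (if (p-1) ∣ (3*n+(r+1)+i) then (1:ZMod p) else 0) := by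
    intro i _
    rw [sum_comm, mul_sum]
    apply sum_congr rfl
    intro r _
    rw [← mul_sum, CM.sum_pow_zmod _ (by omega)]
    split_ifs <;> ring
  rw [sum_congr rfl e2, show range (2*n) = range (n+n) by rw [two_mul], sum_range_add]
  have hkey := key_sum hn hn1
  have p1 : ∑ i ∈ range n, 2*(n:ZMod p) * ((((2*n-1).choose i : ℕ) : ZMod p) * (-1)^i) * ∑ r ∈ range (4*n), (((r+1 : ℕ) : ZMod p))⁻¹ * (if (p-1) ∣ (3*n+(r+1)+i) then (1:ZMod p) else 0) =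
      2*n * ∑ i ∈ range n, (-1)^i * (((2*n-1).choose i : ℕ) : ZMod p) * (((n-i : ℕ) : ZMod p))⁻¹ := by
    rw [mul_sum]
    apply sum_congr rfl
    intro i hi
    rw [inner1 hn hn1 i (mem_range.mp hi)]; ring
  have p2 : ∑ i ∈ range n, 2*(n:ZMod p) * ((((2*n-1).choose (n+i) : ℕ) : ZMod p) * (-1)^(n+i)) * ∑ r ∈ range (4*n), (((r+1 : ℕ) : ZMod p))⁻¹ * (if (p-1) ∣ (3*n+(r+1)+(n+i)) then (1:ZMod p) else 0) =
      2*n * ∑ i ∈ range n, (-1)^i * (((2*n-1).choose i : ℕ) : ZMod p) * (((n-i : ℕ) : ZMod p))⁻¹ := by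
    rw [mul_sum, ← sum_range_reflect]
    apply sum_congr rfl
    intro i hi
    rw [mem_range] at hi
    rw [inner2 hn hn1 (n-1-i) (by omega)]
    have c1 : (2*n-1).choose (n + (n-1-i)) = (2*n-1).choose i := by
      rw [show n + (n-1-i) = 2*n-1-i by omega, Nat.choose_symm (by omega)]
    have c2 : ((-1 : ZMod p))^(n + (n-1-i)) = -(-1)^i := by
      have e2 : ((-1 : ZMod p))^(n + (n-1-i)) * (-1)^i = -1 := by
        rw [← pow_add, show n + (n-1-i) + i = 2*(n-1)+1 by omega, pow_succ, pow_mul]; simp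
      have e3 : ((-1 : ZMod p))^i * (-1)^i = 1 := by rw [← mul_pow]; simp
      calc ((-1 : ZMod p))^(n + (n-1-i)) = (-1)^(n + (n-1-i)) * ((-1)^i * (-1)^i) := by rw [e3, mul_one]
        _ = ((-1)^(n + (n-1-i)) * (-1)^i) * (-1)^i := by ring
        _ = -(-1)^i := by rw [e2]; ring
    have c3 : (((4*n-(n-1-i) : ℕ) : ZMod p))⁻¹ = -(((n-i : ℕ) : ZMod p))⁻¹ := by
      rw [← inv_neg]; congr 1
      have : ((4*n-(n-1-i) : ℕ) : ZMod p) + ((n-i : ℕ) : ZMod p) = ((p : ℕ) : ZMod p) := by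
        rw [← Nat.cast_add]; congr 1; omega
      rw [CharP.cast_eq_zero (ZMod p) p] at this
      linear_combination this
    rw [c1, c2, c3]; ring
  rw [p1, p2]
  linear_combination hkey

omit hn in
lemma H_red (hlt : n < p) : Red p (H n) (hh p n) := by
  unfold H hh
  apply Red.sum
  intro i hi
  rw [mem_range] at hi
  have h := (Red.nat (p := p) (i+1)).inv (cast_ne (by omega) (by omega))
  push_cast at h ⊢
  exact h

/-- the integer sum modulo `p^2` -/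
theorem G_eq : I p 2 (((∑ x : ZMod p, (((x.val:ℕ):ℤ))^(p*(3*n)) * (1 - ((x.val:ℕ):ℤ))^(p*(2*n)) : ℤ) : ℚ) +
    (-1)^n * ((2*n).choose n : ℚ) * (1 + p * (2⁻¹ * (H n - H (2*n))))) := by
  have h1 : (p:ℤ)^2 ∣ ∑ x : ZMod p, ((((x.val:ℕ):ℤ))^(p*(3*n)) * (1 - ((x.val:ℕ):ℤ))^(p*(2*n)) -
    ((((x.val:ℕ):ℤ))^(p*(3*n)) * (1 - (((x.val:ℕ):ℤ))^p)^(2*n) +
      p * ((((x.val:ℕ):ℤ))^(p*(3*n)) * ((2*n:ℕ):ℤ) * EE p ((x.val:ℕ):ℤ) * (1 - (((x.val:ℕ):ℤ))^p)^(2*n-1)))) :=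
    dvd_sum (fun x _ => term hn hn1 x)
  rw [sum_sub_distrib, sum_add_distrib, ← mul_sum] at h1
  have h2 := mainM hn hn1
  have h3 := second hn hn1
  generalize hS : ∑ x : ZMod p, (((x.val:ℕ):ℤ))^(p*(3*n)) * ((2*n:ℕ):ℤ) * EE p ((x.val:ℕ):ℤ) * (1 - (((x.val:ℕ):ℤ))^p)^(2*n-1) = S at *
  generalize hT : ∑ x : ZMod p, (((x.val:ℕ):ℤ))^(p*(3*n)) * (1 - ((x.val:ℕ):ℤ))^(p*(2*n)) = T at *
  obtain ⟨k, hk⟩ := dvd_add h1 h2
  have hk' : (T:ℚ) = (-1)^n * ((2*n).choose n : ℚ) * ((p:ℚ) - 1) + p * S + (p:ℚ)^2 * k := by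
    have := congrArg (fun z : ℤ => (z : ℚ)) hk
    push_cast at this
    linear_combination this
  have i2 := inv2 (h3' hn hn1)
  have z2 : (2:ZMod p) ≠ 0 := by
    have := cast_ne (p := p) (k := 2) (by norm_num) (by omega)
    exact_mod_cast this
  have hS1 : Red p (S:ℚ) (-((-1)^n * (((2*n).choose n : ℕ) : ZMod p)) + 2*n*((-1)^n * (((2*n).choose n : ℕ) : ZMod p) * (hh p n - hh p (2*n)))) := by
    rw [← h3]; exact Red.int S
  have hm1 : Red p ((-1:ℚ)^n) ((-1)^n) := (Red.one.neg).pow n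
  have hz : (4:ZMod p) * (n:ZMod p) = -1 := by
    have : ((4*n+1 : ℕ) : ZMod p) = 0 := by rw [hn]; exact CharP.cast_eq_zero _ p
    push_cast at this
    linear_combination this
  have r2 : Red p (2⁻¹:ℚ) ((2:ZMod p)⁻¹) := by
    have := (Red.nat (p := p) 2).inv (by exact_mod_cast z2)
    push_cast at this; exact this
  have hn2 : (2:ZMod p)⁻¹ = -(2*n) := by
    apply mul_left_cancel₀ z2
    rw [mul_inv_cancel₀ z2]
    linear_combination hz
  rw [hn2] at r2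
  have hR : Red p (-((-1)^n * ((2*n).choose n : ℚ) * (1 + 2⁻¹ * (H n - H (2*n)))))
      (-((-1)^n * (((2*n).choose n : ℕ) : ZMod p)) + 2*n*((-1)^n * (((2*n).choose n : ℕ) : ZMod p) * (hh p n - hh p (2*n)))) := by
    have h := ((hm1.mul (Red.nat ((2*n).choose n))).mul (Red.one.add (r2.mul ((H_red hn1 (by omega)).sub (H_red (n := 2*n) (by omega) (by omega)))))).neg
    convert h using 1
    ring
  obtain ⟨y, hy, hy2⟩ := hS1.eq hR
  have e : (T:ℚ) + (-1)^n * ((2*n).choose n : ℚ) * (1 + p * (2⁻¹ * (H n - H (2*n)))) = (p:ℚ)^2 * (k + y) := by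
    rw [hk']
    linear_combination (p:ℚ) * hy2
  rw [e]
  exact (I.p_pow 2).mul_mem ((Zp p).add_mem (int_mem k) hy)

/-- the sum in the form used later -/
theorem G_eq' : I p 2 (((-(-1)^n * ∑ x : ZMod p, (((x.val:ℕ):ℤ))^(p*(3*n)) * (1 - ((x.val:ℕ):ℤ))^(p*(2*n)) : ℤ) : ℚ) -
    ((2*n).choose n : ℚ) * (1 + p * (H (2*n) * 4⁻¹))) := by
  have h := G_eq hn hn1
  generalize hT : ∑ x : ZMod p, (((x.val:ℕ):ℤ))^(p*(3*n)) * (1 - ((x.val:ℕ):ℤ))^(p*(2*n)) = T at *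
  have hr := hrel hn hn1
  have ss : (-1:ℚ)^n * (-1:ℚ)^n = 1 := by rw [← mul_pow]; norm_num
  have e : ((-(-1)^n * T : ℤ) : ℚ) - ((2*n).choose n : ℚ) * (1 + p * (H (2*n) * 4⁻¹)) =
      -(-1)^n * ((T:ℚ) + (-1)^n * ((2*n).choose n : ℚ) * (1 + p * (2⁻¹ * (H n - H (2*n))))) +
        (p:ℚ)^1 * ((2*H n - 3*H (2*n)) * (((2*n).choose n : ℚ) * 4⁻¹)) := by
    push_cast
    linear_combination (((2*n).choose n : ℚ) * (1 + p * (2⁻¹ * (H n - H (2*n))))) * ss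
  rw [e]
  have m1 : (-(-1:ℚ)^n) ∈ Zp p := (Zp p).neg_mem ((Zp p).pow_mem ((Zp p).neg_mem (Zp p).one_mem) n)
  have a3 : I p 2 ((p:ℚ)^1 * ((2*H n - 3*H (2*n)) * (((2*n).choose n : ℚ) * 4⁻¹))) :=
    (I.p_pow 1).mul (hr.mul_mem ((Zp p).mul_mem (nat_mem _) (inv4 (h3' hn hn1))))
  exact (h.mem_mul m1).add a3

end

end Pool.Agent.R856.FK
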