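import Pool.Agent.R856.FK5
import Pool.Agent.R856.FK6
import Pool.Agent.R856.FK8
import Pool.Agent.R856.DC3

set_option autoImplicit false

/-!
Assembly: the truncated sums in terms of `p = x^2+y^2`.
-/

namespace Pool.Agent.R856.FK

open Finset QuadraticAlgebra Pool.Agent.Helper857.Pad

section

variable {p : ℕ} [hp : Fact p.Prime] {n : ℕ} (hn : 4*n+1 = p) (hn1 : 1 ≤ n)
include hn hn1

theorem quad : ∃ x y : ℤ, (p:ℤ) = x^2 + y^2 ∧ x % 4 = 1 ∧ y % 2 = 0 ∧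
    (p:ℤ)^2 ∣ (-(-1)^n * ∑ x : ZMod p, (((x.val:ℕ):ℤ))^(p*(3*n)) * (1 - ((x.val:ℕ):ℤ))^(p*(2*n)))^2 -
      2*x*(-(-1)^n * ∑ x : ZMod p, (((x.val:ℕ):ℤ))^(p*(3*n)) * (1 - ((x.val:ℕ):ℤ))^(p*(2*n))) + p := by
  obtain ⟨φ, χ, hval, hnorm, hg1, hg2, hg3⟩ := exists_jacobi hn hn1
  set J := jacobiSum χ (χ*χ) with hJ
  have hp0 := hp.out.pos
  have hval' : ∀ x : ZMod p, φ (χ x) = ((((x.val : ℕ) : ℤ)^(p*(3*n)) : ℤ) : ZMod (p^2)) := by
    intro x
    by_cases hx : x = 0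
    · rw [hx, MulChar.map_zero, map_zero, ZMod.val_zero, Nat.cast_zero, zero_pow, Int.cast_zero]
      positivity
    · exact hval x hx
  have hφJ : φ J = ((∑ x : ZMod p, (((x.val:ℕ):ℤ))^(p*(3*n)) * (1 - ((x.val:ℕ):ℤ))^(p*(2*n)) : ℤ) : ZMod (p^2)) := by
    rw [hJ]
    unfold jacobiSum
    rw [map_sum, Int.cast_sum]
    apply sum_congr rfl
    intro x _
    rw [MulChar.mul_apply, map_mul, map_mul, hval', hval', Int.cast_mul]
    congr 1
    have h1 : (p:ℤ)^2 ∣ (((((1 - x).val : ℕ) : ℤ))^(6*n))^p - ((1 - ((x.val:ℕ):ℤ))^(2*n))^p := by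
      apply CM.pow_p_congr
      apply CM.dvd_of_zmod
      push_cast
      rw [ZMod.natCast_zmod_val, ZMod.natCast_zmod_val]
      by_cases h0 : (1:ZMod p) - x = 0
      · rw [h0, zero_pow (by omega), zero_pow (by omega), sub_zero]
      · rw [show 6*n = (p-1) + 2*n by omega, pow_add, ZMod.pow_card_sub_one_eq_one h0]; ring
    have h2 := (ZMod.intCast_zmod_eq_zero_iff_dvd _ (p^2)).mpr (show ((p^2:ℕ):ℤ) ∣ _ by push_cast; exact h1)
    rw [Int.cast_sub, sub_eq_zero] at h2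
    rw [← Int.cast_mul, ← pow_add, show p*(3*n) + p*(3*n) = (6*n)*p by ring, mul_comm p (2*n),
      pow_mul ((((1-x).val:ℕ):ℤ)) (6*n) p, pow_mul (1 - ((x.val:ℕ):ℤ)) (2*n) p]
    exact h2
  generalize hT : ∑ x : ZMod p, (((x.val:ℕ):ℤ))^(p*(3*n)) * (1 - ((x.val:ℕ):ℤ))^(p*(2*n)) = T at *
  have ss : (-1:ℤ)^n * (-1)^n = 1 := by rw [← mul_pow]; norm_num
  rw [re_add] at hg1 hg3
  rw [im_add] at hg2 hg3
  have r1 : (p:G).re = p := by simp
  have r2 : (p:G).im = 0 := by simp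
  rw [r1] at hg1 hg3
  rw [r2] at hg2 hg3
  rw [norm_form] at hnorm
  have hpn : (p:ℤ) = 4*n+1 := by rw [← hn]; push_cast; ring
  refine ⟨-(-1)^n * J.re, J.im, ?_, ?_, ?_, ?_⟩
  · rw [← hnorm]; linear_combination (-(J.re)^2) * ss
  · -- the sign
    obtain ⟨c, hc⟩ : ∃ c, J.im = 2*c := ⟨J.im/2, by omega⟩
    obtain ⟨d, hd⟩ : ∃ d, J.re = 2*d+1 := ⟨J.re/2, by omega⟩
    have h5 : (2*d+1)^2 + (2*c)^2 = 4*(n:ℤ)+1 := by rw [← hd, ← hc, hnorm, hpn]
    have h6 : c^2 = (n:ℤ) - d*(d+1) := by linarith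
    have h7 : d*(d+1) % 2 = 0 := by
      rcases Int.emod_two_eq_zero_or_one d with h | h
      · rw [Int.mul_emod, h]; simp
      · have : (d+1) % 2 = 0 := by omega
        rw [Int.mul_emod, this]; simp
    have h8 : c % 2 = (n:ℤ) % 2 := by
      have h9 : c^2 % 2 = (n:ℤ) % 2 := by rw [h6]; omega
      have h10 : c^2 % 2 = c % 2 := by
        rcases Int.emod_two_eq_zero_or_one c with h | h
        · rw [pow_two, Int.mul_emod, h]; simp
        · rw [pow_two, Int.mul_emod, h]; simp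
      omega
    rcases Nat.even_or_odd n with he | ho
    · have : (-1:ℤ)^n = 1 := he.neg_one_pow
      rw [this]
      have : n % 2 = 0 := Nat.even_iff.mp he
      omega
    · have : (-1:ℤ)^n = -1 := ho.neg_one_pow
      rw [this]
      have : n % 2 = 1 := Nat.odd_iff.mp ho
      omega
  · omega
  · have h := sq_sub_trace_smul_add_norm_eq_zero (z := J)
    have h2 := congrArg φ h
    have ht : trace J = 2*J.re := by rw [trace_def]; ring
    rw [map_add, map_sub, map_pow, zsmul_eq_mul, map_mul, map_intCast, hφJ, eq_intCast (algebraMap ℤ G), map_intCast, norm_form, hnorm, ht, map_zero] at h2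
    have h3 : ((T^2 - 2*J.re*T + p : ℤ) : ZMod (p^2)) = 0 := by
      push_cast at h2 ⊢
      linear_combination h2
    have h4 := (ZMod.intCast_zmod_eq_zero_iff_dvd _ (p^2)).mp h3
    push_cast at h4
    have e : (-(-1)^n*T)^2 - 2*(-(-1)^n*J.re)*(-(-1)^n*T) + p = T^2 - 2*J.re*T + p := by
      linear_combination (T^2 - 2*J.re*T) * ss
    rw [e]
    exact h4

end

lemma uniq_x {p : ℕ} (hp : p.Prime) {a b c d : ℤ} (h1 : (p:ℤ) = a^2 + b^2) (h2 : (p:ℤ) = c^2 + d^2)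
    (ha : a % 4 = 1) (hc : c % 4 = 1) (hp2 : p % 2 = 1) : a = c := by
  rcases DC.two_sq_unique hp h1 h2 with h | h
  · rcases sq_eq_sq_iff_eq_or_eq_neg.mp h with h | h
    · exact h
    · omega
  · exfalso
    have e1 : a^2 % 2 = 1 := by
      rw [pow_two, Int.mul_emod, show a % 2 = 1 by omega]; simp
    have e2 : c^2 % 2 = 1 := by
      rw [pow_two, Int.mul_emod, show c % 2 = 1 by omega]; simp
    omega

/-- the terms are the central binomial terms -/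
lemma tt_term (k : ℕ) : tt (-1/4) k = ((2*k).choose k : ℚ) * ((4*k).choose (2*k) : ℚ) / 72^k := by
  have h : tt (-1/4) k * (72^k * (k.factorial:ℚ) * (k.factorial:ℚ) * ((2*k).factorial:ℚ)) = ((4*k).factorial:ℚ) := by
    induction k with
    | zero => simp [tt_zero]
    | succ k ih =>
      rw [tt_succ, fact_lift (4*k+3) (4*(k+1)) (by ring), fact_lift (4*k+2) (4*k+3) rfl, fact_lift (4*k+1) (4*k+2) rfl,
        fact_lift (4*k) (4*k+1) rfl, fact_lift (2*k+1) (2*(k+1)) (by ring), fact_lift (2*k) (2*k+1) rfl, fact_lift k (k+1) rfl, pow_succ, ← ih]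
      have c1 : 9*(-4*(-1/4:ℚ)+k)*(1+k) ≠ 0 := by
        have e : 9*(-4*(-1/4:ℚ)+k)*(1+k) = 9*(1+(k:ℚ))*(1+k) := by ring
        rw [e]; positivity
      push_cast
      rw [mul_div_assoc', div_mul_eq_mul_div, div_eq_iff c1]
      ring
  have c1 := Nat.choose_mul_factorial_mul_factorial (show k ≤ 2*k by omega)
  have c2 := Nat.choose_mul_factorial_mul_factorial (show 2*k ≤ 4*k by omega)
  rw [show 2*k-k = k by omega] at c1
  rw [show 4*k-2*k = 2*k by omega] at c2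
  have c1' : ((2*k).choose k : ℚ) * (k.factorial:ℚ) * (k.factorial:ℚ) = ((2*k).factorial:ℚ) := by exact_mod_cast c1
  have c2' : ((4*k).choose (2*k) : ℚ) * ((2*k).factorial:ℚ) * ((2*k).factorial:ℚ) = ((4*k).factorial:ℚ) := by exact_mod_cast c2
  have f1 : (k.factorial:ℚ) ≠ 0 := by exact_mod_cast k.factorial_ne_zero
  have f2 : ((2*k).factorial:ℚ) ≠ 0 := by exact_mod_cast (2*k).factorial_ne_zero
  rw [eq_div_iff (by positivity)]
  apply mul_right_cancel₀ (mul_ne_zero (mul_ne_zero f1 f1) f2)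
  have e1 : tt (-1/4) k * 72^k * ((k.factorial:ℚ) * (k.factorial:ℚ) * ((2*k).factorial:ℚ)) = ((4*k).factorial:ℚ) := by
    rw [← h]; ring
  rw [e1, ← c2']
  nth_rewrite 1 [← c1']
  ring

/-- the first sum -/
def Ap (p : ℕ) : ℚ := ∑ k ∈ range p, ((2*k).choose k : ℚ) * ((4*k).choose (2*k) : ℚ) / 72^k

/-- the second sum -/
def Bp (p : ℕ) : ℚ := ∑ k ∈ range p, (1 - (k:ℚ)) * (((2*k).choose k : ℚ) * ((4*k).choose (2*k) : ℚ) / 72^k)

lemma Ap_eq (p : ℕ) : Ap p = SV (-1/4) p := by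
  unfold Ap SV
  apply sum_congr rfl
  intro k _
  rw [tt_term]

lemma Bp_eq (p : ℕ) : 2 * Bp p = 2 * SU (-1/4) p + SV (-1/4) p := by
  unfold Bp SU SV
  rw [mul_sum, mul_sum, ← sum_add_distrib]
  apply sum_congr rfl
  intro k _
  rw [tt_term]
  ring

section

variable {p : ℕ} [hp : Fact p.Prime] {n : ℕ} (hn : 4*n+1 = p) (hn1 : 1 ≤ n)
include hn hn1

theorem case1 (e : ℤ) (he : e*e = 1) (hr : (9:ZMod p)^n = (e:ZMod p)) : ∃ x y : ℤ, (p:ℤ) = x^2 + y^2 ∧ x % 4 = 1 ∧ y % 2 = 0 ∧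
    I p 2 (Ap p - (((-1)^n * e : ℤ) : ℚ) * (2*x - p/(2*x))) ∧ I p 2 (Bp p - (((-1)^n * e : ℤ) : ℚ) * x) := by
  have h3 := h3' hn hn1
  obtain ⟨x, y, hxy, hx, hy, hq⟩ := quad hn hn1
  have hG := G_eq' hn hn1
  have hA := main1 hn hn1 e he hr
  obtain ⟨R, hRm, hU, hCR⟩ := main1U hn hn1 e he hr
  generalize hz : -(-1)^n * ∑ x : ZMod p, (((x.val:ℕ):ℤ))^(p*(3*n)) * (1 - ((x.val:ℕ):ℤ))^(p*(2*n)) = z at *
  refine ⟨x, y, hxy, hx, hy, ?_⟩
  have hpp : Prime (p:ℤ) := Nat.prime_iff_prime_int.mp hp.out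
  obtain ⟨s, hs⟩ : ∃ s : ℤ, s = (-1)^n * e := ⟨_, rfl⟩
  have hsq : (s:ℚ) = (-1)^n * e := by rw [hs]; push_cast; ring
  have ss : (s:ℚ) * s = 1 := by
    have h1 : (-1:ℚ)^n * (-1:ℚ)^n = 1 := by rw [← mul_pow]; norm_num
    have h2 : (e:ℚ) * e = 1 := by exact_mod_cast he
    rw [hsq]; linear_combination h2 + (e*e:ℚ)*h1
  rw [← hs]
  rw [← hsq] at hA hCR
  -- `s A ≡ z`
  have hAz : I p 2 ((s:ℚ) * SV (-1/4) p - z) := by
    have := hA.sub hG
    convert this using 1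
    ring
  -- units
  have hCu : ¬ p ∣ (2*n).choose n := by
    intro h
    have hC := Nat.choose_mul_factorial_mul_factorial (show n ≤ 2*n by omega)
    have h4 : (2*n).choose n ∣ (2*n).factorial := by
      rw [← hC]; exact Dvd.intro _ (mul_assoc _ _ _).symm
    have h5 := (hp.out.dvd_factorial).mp (h.trans h4)
    omega
  have hzC : Red p (z:ℚ) (((2*n).choose n : ℕ) : ZMod p) := by
    have h1 : Red p (((2*n).choose n : ℚ) * (1 + p * (H (2*n) * 4⁻¹))) (((2*n).choose n : ℕ) : ZMod p) := by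
      have h2 : EX p (1 + p * (H (2*n) * 4⁻¹)) (H (2*n) * 4⁻¹) := EX.of ((Zp p).mul_mem (H_mem (by omega)) (inv4 h3))
      have := (Red.nat (p := p) ((2*n).choose n)).mul h2.red
      rwa [mul_one] at this
    exact h1.congr (hG.mono (by norm_num))
  have hC0 : ((((2*n).choose n : ℕ)) : ZMod p) ≠ 0 := by
    rw [Ne, CharP.cast_eq_zero_iff (ZMod p) p]; exact hCu
  have hzz : ((z:ℤ) : ZMod p) = (((2*n).choose n : ℕ) : ZMod p) := (Red.int z).uniq hzC
  have hzu : ¬ (p:ℤ) ∣ z := by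
    intro h
    apply hC0
    rw [← hzz]; exact (ZMod.intCast_zmod_eq_zero_iff_dvd _ _).mpr h
  have hzx : (p:ℤ) ∣ z - 2*x := by
    have h5 : (p:ℤ) ∣ z * (z - 2*x) := by
      have h6 : (p:ℤ) ∣ z^2 - 2*x*z + p := (Dvd.intro_left _ (pow_two (p:ℤ)).symm).trans hq
      have h7 : z * (z - 2*x) = (z^2 - 2*x*z + p) - p := by ring
      rw [h7]; exact dvd_sub h6 dvd_rfl
    rcases hpp.dvd_or_dvd h5 with h | h
    · exact absurd h hzu
    · exact h
  have hxu : ¬ (p:ℤ) ∣ 2*x := by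
    intro h
    apply hzu
    have : z = (z - 2*x) + 2*x := by ring
    rw [this]; exact dvd_add hzx h
  obtain ⟨L, hL⟩ : ∃ L : ℤ, L = 2*x := ⟨_, rfl⟩
  rw [← hL] at hxu hzx hq
  have hL0 : (L:ℚ) ≠ 0 := by
    intro h
    apply hxu
    have : L = 0 := by exact_mod_cast h
    rw [this]; exact dvd_zero _
  have hz0 : (z:ℚ) ≠ 0 := by
    intro h
    apply hzu
    have : z = 0 := by exact_mod_cast h
    rw [this]; exact dvd_zero _
  have iL := inv_int_mem hxu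
  have iz := inv_int_mem hzu
  have hLq : (L:ℚ) = 2*x := by rw [hL]; push_cast; ring
  obtain ⟨w, hw⟩ := hq
  obtain ⟨v, hv⟩ := hzx
  have hwq : (z:ℚ)^2 - L*z + p = (p:ℚ)^2 * w := by
    have : (((z^2 - L * z + p : ℤ)) : ℚ) = (((p:ℤ)^2 * w : ℤ) : ℚ) := by rw [hw]
    push_cast at this; linarith
  have hvq : (z:ℚ) - L = (p:ℚ) * v := by
    have : ((z - L : ℤ) : ℚ) = ((p * v : ℤ) : ℚ) := by rw [hv]
    push_cast at this; linarith
  have key : I p 2 ((z:ℚ) - (L - p/L)) := by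
    have e : (z:ℚ) - (L - p/L) = (p:ℚ)^2 * ((L * w + v) * ((L:ℚ)⁻¹ * (z:ℚ)⁻¹)) := by
      have e2 : ((z:ℚ) - (L - p/L)) * (L * z) = (p:ℚ)^2 * (L*w + v) := by
        have e3 : ((z:ℚ) - (L - p/L)) * (L * z) = L * (z^2 - L*z + p) + p * (z - L) := by
          field_simp; ring
        rw [e3, hwq, hvq]; ring
      field_simp
      field_simp at e2
      linear_combination e2
    rw [e]
    exact (I.p_pow 2).mul_mem ((Zp p).mul_mem ((Zp p).add_mem ((Zp p).mul_mem (int_mem L) (int_mem w)) (int_mem v))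
      ((Zp p).mul_mem iL iz))
  have hsm : (s:ℚ) ∈ Zp p := int_mem s
  constructor
  · rw [Ap_eq, ← hLq]
    have e1 : SV (-1/4) p - (s:ℚ) * (L - p/L) = s * ((s:ℚ) * SV (-1/4) p - z) + s * ((z:ℚ) - (L - p/L)) := by
      linear_combination (-SV (-1/4) p) * ss
    rw [e1]
    exact (hAz.mem_mul hsm).add (key.mem_mul hsm)
  · -- the second sum
    have hRL : I p 1 ((s:ℚ) * L * R - 1) := by
      have hzL : Red p (z:ℚ) ((L:ℤ) : ZMod p) := by
        apply (Red.int (p := p) L).congr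
        rw [hvq]
        have : (p:ℚ) * v = (p:ℚ)^1 * v := by ring
        rw [this]; exact (I.p_pow 1).mul_mem (int_mem v)
      have hCL : (((2*n).choose n : ℕ) : ZMod p) = ((L:ℤ) : ZMod p) := hzC.uniq hzL
      have h1 : Red p ((s:ℚ) * L * R) (((s:ℤ) : ZMod p) * ((L:ℤ) : ZMod p) * ((R:ℚ) : ZMod p)) :=
        ((Red.int s).mul (Red.int L)).mul ⟨hRm, rfl⟩
      have h2 : Red p ((s:ℚ) * ((2*n).choose n : ℚ) * R) (((s:ℤ) : ZMod p) * (((2*n).choose n : ℕ) : ZMod p) * ((R:ℚ) : ZMod p)) :=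
        ((Red.int s).mul (Red.nat _)).mul ⟨hRm, rfl⟩
      rw [hCL] at h2
      rw [h2.uniq hCR] at h1
      exact h1.eq Red.one
    apply I.cancel (n := 2) (not_dvd_small h3 (by norm_num) (by omega))
    have hB := Bp_eq p
    have e1 : ((2:ℕ):ℚ) * (Bp p - s * x) = (2 * SU (-1/4) p - p * R) + s * ((s:ℚ) * SV (-1/4) p - z) +
        s * ((z:ℚ) - (L - p/L)) + (p:ℚ)^1 * (((s:ℚ) * L * R - 1) * (s * (L:ℚ)⁻¹)) := by
      push_cast
      have h5 : (2:ℚ) * (Bp p - s * x) = 2 * SU (-1/4) p + SV (-1/4) p - s * L := by rw [hLq]; linear_combination hB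
      rw [h5]
      generalize SV (-1/4) p = A0
      generalize SU (-1/4) p = U0
      field_simp
      linear_combination (-(A0 * L) - p * R * L) * ss
    rw [e1]
    have b : I p 2 ((p:ℚ)^1 * (((s:ℚ) * L * R - 1) * (s * (L:ℚ)⁻¹))) :=
      (I.p_pow 1).mul (hRL.mul_mem ((Zp p).mul_mem hsm iL))
    exact ((hU.add (hAz.mem_mul hsm)).add (key.mem_mul hsm)).add b

end

/-- the quadratic characters -/
lemma leg2 {p : ℕ} [hp : Fact p.Prime] (h3 : 3 < p) : legendreSym p 2 = if p % 8 = 1 ∨ p % 8 = 7 then 1 else -1 := by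
  have hp2 := hp.out.eq_two_or_odd
  rw [legendreSym.at_two (by omega), ZMod.χ₈_nat_eq_if_mod_eight, if_neg (by omega)]

lemma leg_sq {p : ℕ} [hp : Fact p.Prime] (h3 : 3 < p) : legendreSym p 3 * legendreSym p 3 = 1 := by
  have h : ((3:ℤ) : ZMod p) ≠ 0 := by
    have := three_ne' h3
    exact_mod_cast this
  have := legendreSym.sq_one p h
  rw [← pow_two]; exact this

theorem full1 {p : ℕ} [hp : Fact p.Prime] (h3 : 3 < p) (h4 : p % 4 = 1) : ∃ x y : ℤ, (p:ℤ) = x^2 + y^2 ∧ x % 4 = 1 ∧ y % 2 = 0 ∧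
    I p 2 (Ap p - ((legendreSym p 6 : ℤ) : ℚ) * (2*x - p/(2*x))) ∧ I p 2 (Bp p - ((legendreSym p 6 : ℤ) : ℚ) * x) := by
  obtain ⟨n, hn⟩ : ∃ n, 4*n+1 = p := ⟨p/4, by omega⟩
  have hn1 : 1 ≤ n := by omega
  have h := case1 hn hn1 (legendreSym p 3) (leg_sq h3) (by
    rw [legendreSym.eq_pow]
    push_cast
    have e0 : (9:ZMod p) = 3^2 := by norm_num
    rw [e0, ← pow_mul]; congr 1; omega)
  have h6 : legendreSym p 6 = (-1)^n * legendreSym p 3 := by
    have : (6:ℤ) = 2*3 := by norm_num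
    rw [this, legendreSym.mul, leg2 h3]
    congr 1
    rcases Nat.even_or_odd n with he | ho
    · have : n % 2 = 0 := Nat.even_iff.mp he
      rw [he.neg_one_pow, if_pos (by omega)]
    · have : n % 2 = 1 := Nat.odd_iff.mp ho
      rw [ho.neg_one_pow, if_neg (by omega)]
  rw [h6]
  exact h

theorem full2 {p : ℕ} [hp : Fact p.Prime] (h3 : 3 < p) (h4 : p % 4 = 3) :
    I p 2 (Ap p - ((legendreSym p 6 : ℤ) : ℚ) * (2*p/(3*(((p+1)/2).choose ((p+1)/4) : ℚ)))) := by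
  obtain ⟨M, hM⟩ : ∃ M, 4*M+3 = p := ⟨p/4, by omega⟩
  have h := main2 hM h3 (legendreSym p 3) (leg_sq h3) (by
    rw [legendreSym.eq_pow]
    push_cast
    congr 1; omega)
  have h6 : legendreSym p 6 = (-1)^(M+1) * legendreSym p 3 := by
    have : (6:ℤ) = 2*3 := by norm_num
    rw [this, legendreSym.mul, leg2 h3]
    congr 1
    rcases Nat.even_or_odd (M+1) with he | ho
    · have : (M+1) % 2 = 0 := Nat.even_iff.mp he
      rw [he.neg_one_pow, if_pos (by omega)]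
    · have : (M+1) % 2 = 1 := Nat.odd_iff.mp ho
      rw [ho.neg_one_pow, if_neg (by omega)]
  rw [h6, Ap_eq, show (p+1)/2 = 2*M+2 by omega, show (p+1)/4 = M+1 by omega]
  push_cast
  exact h

end Pool.Agent.R856.FK
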