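import Mathlib

set_option autoImplicit false

/-!
WZ evaluation of the truncated sums of `(42k+5) C(2k,k)^3 / 4096^k`.
-/

namespace Pool.Agent.R856.FT

open Finset

/-- the summand without its linear factor -/
noncomputable def t (n : ℕ) : ℚ := ((2*n).choose n : ℚ)^3 / 4096^n

noncomputable def rho (n j : ℕ) : ℚ :=
  -(2 * (2*(n:ℚ) + 2*j + 1) * (2*(n:ℚ) + 1 - j)) / (2*(n:ℚ) - 2*j - 1)^2

noncomputable def h (n j : ℕ) : ℚ := t n / (2*(n:ℚ)+1) * ∏ i ∈ range j, rho n i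

noncomputable def G (n j : ℕ) : ℚ :=
  256 * (n:ℚ)^2 * (2*(n:ℚ) + 1 - j) * (2*(n:ℚ) - j) * h n j / (2*(n:ℚ) - 2*j - 1)^2

noncomputable def F (n j : ℕ) : ℚ :=
  (84*(n:ℚ)^2 + 52*n + 5 - 56*n*j - 12*j + 4*(j:ℚ)^2) * h n j

lemma t_succ (n : ℕ) : t (n+1) = t n * (2*(n:ℚ)+1)^3 / (512 * ((n:ℚ)+1)^3) := by
  unfold t
  have h0 := Nat.succ_mul_centralBinom_succ n
  rw [Nat.centralBinom_eq_two_mul_choose, Nat.centralBinom_eq_two_mul_choose] at h0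
  have h1 : ((n:ℚ)+1) * ((2*(n+1)).choose (n+1) : ℚ) = 2 * (2*(n:ℚ)+1) * ((2*n).choose n : ℚ) := by
    exact_mod_cast h0
  have h2 : ((n:ℚ)+1) ≠ 0 := by positivity
  have h3 : ((2*(n+1)).choose (n+1) : ℚ) = 2 * (2*(n:ℚ)+1) * ((2*n).choose n : ℚ) / ((n:ℚ)+1) := by
    rw [← h1]; field_simp
  rw [h3, pow_succ]
  field_simp
  ring

lemma odd_ne (n j : ℕ) : (2*(n:ℚ) - 2*j - 1) ≠ 0 := by
  intro hh
  have : (2*(n:ℤ) - 2*j - 1) = 0 := by exact_mod_cast hh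
  omega

lemma odd_ne' (n j : ℕ) : (2*(n:ℚ) - 2*j + 1) ≠ 0 := by
  intro hh
  have : (2*(n:ℤ) - 2*j + 1) = 0 := by exact_mod_cast hh
  omega

lemma h_succ (n j : ℕ) : h n (j+1) = h n j * rho n j := by
  unfold h; rw [prod_range_succ]; ring

lemma kappa (n j : ℕ) : (2*(n:ℚ) + 3 - j) * (2*(n:ℚ) + 2 - j) * h (n+1) j =
    (2*(n:ℚ)+1) * (2*(n:ℚ) + 2*j + 1) * (2*(n:ℚ) - 2*j + 1)^2 / (256 * ((n:ℚ)+1)^2) * h n j := by
  induction j with
  | zero =>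
    simp only [h, prod_range_zero, mul_one, t_succ]
    have h3 : (n:ℚ) + 1 ≠ 0 := by positivity
    have h4 : 2*(n:ℚ) + 1 ≠ 0 := by positivity
    have h5 : 2*((n:ℚ) + 1) + 1 ≠ 0 := by positivity
    push_cast
    simp only [mul_zero, sub_zero, add_zero]
    field_simp
    ring
  | succ j ih =>
    rw [h_succ, h_succ]
    have e1 : (2*(n:ℚ) + 3 - ((j+1:ℕ):ℚ)) * (2*(n:ℚ) + 2 - ((j+1:ℕ):ℚ)) * (h (n+1) j * rho (n+1) j) =
        ((2*(n:ℚ) + 3 - j) * (2*(n:ℚ) + 2 - j) * h (n+1) j) *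
        (-(2 * (2*(n:ℚ) + 2*j + 3) * (2*(n:ℚ) + 1 - j)) / (2*(n:ℚ) - 2*j + 1)^2) := by
      unfold rho
      have := odd_ne' n j
      push_cast
      rw [show 2 * ((n:ℚ)+1) - 2*j - 1 = 2*(n:ℚ) - 2*j + 1 by ring]
      generalize hd : 2*(n:ℚ) - 2*j + 1 = d at *
      field_simp
      ring
    rw [e1, ih]
    unfold rho
    have h1 := odd_ne' n j
    have h2 := odd_ne n j
    have h3 : (n:ℚ) + 1 ≠ 0 := by positivity
    push_cast
    rw [show (2 * (n:ℚ) - 2 * ((j:ℚ) + 1) + 1) = 2 * (n:ℚ) - 2*j - 1 by ring]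
    generalize hd : 2*(n:ℚ) - 2*j + 1 = d at *
    generalize he : 2*(n:ℚ) - 2*j - 1 = e at *
    field_simp
    ring

lemma G_succ_n (n j : ℕ) : G (n+1) j = (2*(n:ℚ)+1) * (2*(n:ℚ) + 2*j + 1) * h n j := by
  unfold G
  have h1 := odd_ne' n j
  have h3 : (n:ℚ) + 1 ≠ 0 := by positivity
  have k := kappa n j
  have e : 256 * ((n+1:ℕ):ℚ)^2 * (2*((n+1:ℕ):ℚ) + 1 - j) * (2*((n+1:ℕ):ℚ) - j) * h (n+1) j =
      256 * ((n:ℚ)+1)^2 * ((2*(n:ℚ) + 3 - j) * (2*(n:ℚ) + 2 - j) * h (n+1) j) := by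
    push_cast; ring
  rw [e, k]
  push_cast
  rw [show 2 * ((n:ℚ)+1) - 2*j - 1 = 2*(n:ℚ) - 2*j + 1 by ring]
  generalize hd : 2*(n:ℚ) - 2*j + 1 = d at *
  field_simp

lemma wz (n j : ℕ) : G (n+1) j - G n j = F n (j+1) - F n j := by
  rw [G_succ_n]
  unfold F G
  rw [h_succ]
  unfold rho
  have h2 := odd_ne n j
  generalize he : 2*(n:ℚ) - 2*j - 1 = e at *
  push_cast
  field_simp
  subst he
  ring

lemma h_zero {n j : ℕ} (hj : 2*n+1 < j) : h n j = 0 := by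
  unfold h
  have : ∏ i ∈ range j, rho n i = 0 := by
    apply Finset.prod_eq_zero (i := 2*n+1) (by rw [mem_range]; omega)
    unfold rho
    have : (2*(n:ℚ) + 1 - ((2*n+1:ℕ):ℚ)) = 0 := by push_cast; ring
    rw [this]; simp
  rw [this, mul_zero]

lemma sum_G (R : ℕ) :
    ∑ n ∈ range (R+1), (42*(n:ℚ)+5) * t n = -∑ j ∈ range (2*R+1+1), G (R+1) j := by
  have e0 : ∀ n ∈ range (R+1), (42*(n:ℚ)+5) * t n = -∑ j ∈ range (2*R+1+1), (F n (j+1) - F n j) := by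
    intro n hn
    rw [mem_range] at hn
    rw [Finset.sum_range_sub]
    have h1 : F n 0 = (42*(n:ℚ)+5) * t n := by
      unfold F h
      have : 2*(n:ℚ)+1 ≠ 0 := by positivity
      simp only [prod_range_zero, Nat.cast_zero]
      field_simp
      ring
    have h2 : F n (2*R+1+1) = 0 := by unfold F; rw [h_zero (by omega)]; simp
    rw [h1, h2]; ring
  rw [sum_congr rfl e0, sum_neg_distrib, sum_comm]
  congr 1
  apply sum_congr rfl
  intro j _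
  have : ∑ n ∈ range (R+1), (F n (j+1) - F n j) = ∑ n ∈ range (R+1), (G (n+1) j - G n j) :=
    sum_congr rfl (fun n _ => (wz n j).symm)
  rw [this, Finset.sum_range_sub (fun n => G n j)]
  have : G 0 j = 0 := by unfold G; simp
  rw [this, sub_zero]

/-- ratio product -/
noncomputable def u (q : ℚ) (s : ℕ) : ℚ :=
  ∏ i ∈ range s, (-(2 * (q + 2*i + 2) * (q - i)) / (q - 2*i - 2)^2)

lemma G_u (R s : ℕ) : G (R+1) s = ((2*R+1:ℕ):ℚ) * t R * u ((2*R+1:ℕ):ℚ) s := by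
  rw [G_succ_n]
  induction s with
  | zero =>
    unfold h u
    have : 2*(R:ℚ)+1 ≠ 0 := by positivity
    simp only [prod_range_zero, Nat.cast_zero, mul_one]
    push_cast
    field_simp
    ring
  | succ s ih =>
    have e : u ((2*R+1:ℕ):ℚ) (s+1) = u ((2*R+1:ℕ):ℚ) s *
        (-(2 * (((2*R+1:ℕ):ℚ) + 2*s + 2) * (((2*R+1:ℕ):ℚ) - s)) / (((2*R+1:ℕ):ℚ) - 2*s - 2)^2) := by
      unfold u; rw [prod_range_succ]
    rw [e, ← mul_assoc, ← ih, h_succ]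
    unfold rho
    have h2 := odd_ne R s
    push_cast
    rw [show 2*(R:ℚ) + 1 - 2*s - 2 = 2*(R:ℚ) - 2*s - 1 by ring]
    generalize he : 2*(R:ℚ) - 2*s - 1 = e at *
    field_simp
    ring

theorem T_eq (R : ℕ) : ∑ n ∈ range (R+1), (42*(n:ℚ)+5) * t n =
    -(((2*R+1:ℕ):ℚ) * t R * ∑ s ∈ range (2*R+1+1), u ((2*R+1:ℕ):ℚ) s) := by
  rw [sum_G, mul_sum]
  congr 1
  exact sum_congr rfl (fun s _ => G_u R s)

end Pool.Agent.R856.FT
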