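import Pool.Agent.R856.TKA
import Pool.Agent.Helper857.W8

set_option autoImplicit false

/-!
`p`-adic evaluation of the normalised sum of `(3k+1) C(2k,k)^3 / 16^k`.
-/

namespace Pool.Agent.R856.TK

open Finset Pool.Agent.Helper857.Pad Pool.Agent.Helper857.W

/-- the correction factor -/
noncomputable def dd (N : ℚ) (i : ℕ) : ℚ :=
  (1 + g N (i+1) / 2) * (1 - g N (i+1)) * (1 - 2 * g N (2*i+1)) * (1 - 3/2 * g N (i+1))⁻¹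

noncomputable def DD (N : ℚ) (r : ℕ) : ℚ := ∏ i ∈ range r, dd N i

lemma w_closed (R r : ℕ) (hr : r < R) : w ((2*R+1:ℕ):ℚ) (r+1) =
    -(1/2) * g ((2*R+1:ℕ):ℚ) (r+1) ^ 2 * ((1 - 2 * g ((2*R+1:ℕ):ℚ) (2*r+1)) *
      (1 - 3/2 * g ((2*R+1:ℕ):ℚ) (r+1))⁻¹) * DD ((2*R+1:ℕ):ℚ) r := by
  have hn (i : ℕ) (hi : i < R) : 3*((2*R+1:ℕ):ℚ) - 2*i - 2 ≠ 0 := by
    have h1 : ((i:ℚ)+1) ≤ R := by exact_mod_cast hi
    push_cast
    have : (0:ℚ) ≤ R := by positivity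
    intro h0
    linarith
  have hinv (i : ℕ) (hi : i < R) : (1 - 3/2 * g ((2*R+1:ℕ):ℚ) (i+1))⁻¹ =
      -(2*((i:ℚ)+1)) / (3*((2*R+1:ℕ):ℚ) - 2*i - 2) := by
    have h1 := hn i hi
    have h2 : ((i:ℚ)+1) ≠ 0 := by positivity
    have h3 : 1 - 3/2 * g ((2*R+1:ℕ):ℚ) (i+1) = -(3*((2*R+1:ℕ):ℚ) - 2*i - 2)/(2*((i:ℚ)+1)) := by
      unfold g; push_cast; field_simp; ring
    rw [h3, inv_div]
    field_simp
  induction r with
  | zero =>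
    have h1 := hn 0 hr
    rw [hinv 0 hr]
    unfold w DD g
    rw [prod_range_one, prod_range_zero]
    push_cast at h1 ⊢
    field_simp
    ring
  | succ r ih =>
    have ih' := ih (by omega)
    have hw : w ((2*R+1:ℕ):ℚ) (r+1+1) = w ((2*R+1:ℕ):ℚ) (r+1) *
      (-((((2*R+1:ℕ):ℚ) + 2*((r+1:ℕ):ℚ)) * (2*((2*R+1:ℕ):ℚ) - 2*((r+1:ℕ):ℚ)) * (2*((2*R+1:ℕ):ℚ) - 2*((r+1:ℕ):ℚ) - 1)) /
        ((3*((2*R+1:ℕ):ℚ) - 2*((r+1:ℕ):ℚ) - 2) * ((2*((r+1:ℕ):ℚ)+1) * (2*((r+1:ℕ):ℚ)+2)))) := by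
      unfold w; rw [prod_range_succ]
    have hD : DD ((2*R+1:ℕ):ℚ) (r+1) = DD ((2*R+1:ℕ):ℚ) r * dd ((2*R+1:ℕ):ℚ) r := by
      unfold DD; rw [prod_range_succ]
    rw [hw, ih', hD, hinv (r+1) hr]
    unfold dd
    rw [hinv r (by omega)]
    have h1 := hn r (by omega)
    have h2 := hn (r+1) hr
    generalize DD ((2*R+1:ℕ):ℚ) r = D
    have h4 : (0:ℚ) ≤ r := by positivity
    generalize ((2*R+1:ℕ):ℚ) = N at *
    unfold g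
    push_cast at h2 ⊢
    generalize (r:ℚ) = x at *
    have h5 : x + 1 ≠ 0 := by positivity
    have h6 : x + 1 + 1 ≠ 0 := by positivity
    have h7 : 2*x + 1 ≠ 0 := by positivity
    have h8 : 2*(x + 1) + 1 ≠ 0 := by positivity
    field_simp
    ring

section

variable {p : ℕ} [hp : Fact p.Prime]

lemma mm (n : ℕ) : ((n:ℕ):ℚ) ∈ Zp p := nat_mem n

lemma m2 : (2:ℚ) ∈ Zp p := by exact_mod_cast nat_mem (p := p) 2
lemma m3 : (3:ℚ) ∈ Zp p := by exact_mod_cast nat_mem (p := p) 3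

variable {a R : ℕ} (ha : 1 ≤ a) (hN : 2*R+1 = p^a)
include ha hN

lemma u_unit {i : ℕ} (hi : i < R) :
    (1 - 3/2 * g ((2*R+1:ℕ):ℚ) (i+1)) ≠ 0 ∧ (1 - 3/2 * g ((2*R+1:ℕ):ℚ) (i+1))⁻¹ ∈ Zp p := by
  have hx := g_I (p := p) ha hN (m := i+1) (by omega) (by omega)
  have hh := half_mem (p := p) ha hN
  have h32 : (3/2:ℚ) ∈ Zp p := by rw [div_eq_mul_inv]; exact (Zp p).mul_mem m3 hh
  obtain ⟨u1, u2, -⟩ := unit (p := p) (x := 1 - 3/2 * g ((2*R+1:ℕ):ℚ) (i+1)) (by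
    have : 1 - 3/2 * g ((2*R+1:ℕ):ℚ) (i+1) - 1 = -(3/2 * g ((2*R+1:ℕ):ℚ) (i+1)) := by ring
    rw [this]; exact (I.mem_mul h32 hx).neg)
  exact ⟨u1, u2⟩

lemma e_exp {r : ℕ} (hr : r < R) : I p 2 ((1 - 2 * g ((2*R+1:ℕ):ℚ) (2*r+1)) *
      (1 - 3/2 * g ((2*R+1:ℕ):ℚ) (r+1))⁻¹ -
      (1 - 2 * g ((2*R+1:ℕ):ℚ) (2*r+1) + 3/2 * g ((2*R+1:ℕ):ℚ) (r+1))) := by
  have hx := g_I (p := p) ha hN (m := r+1) (by omega) (by omega)
  have hy := g_I (p := p) ha hN (m := 2*r+1) (by omega) (by omega)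
  obtain ⟨u1, u2⟩ := u_unit (p := p) ha hN hr
  have hh := half_mem (p := p) ha hN
  set x := g ((2*R+1:ℕ):ℚ) (r+1)
  set y := g ((2*R+1:ℕ):ℚ) (2*r+1)
  set v := (1 - 3/2 * x)⁻¹
  have hv : (1 - 3/2 * x) * v = 1 := mul_inv_cancel₀ u1
  have e : (1 - 2 * y) * v - (1 - 2 * y + 3/2 * x) = ((x * y) * (-3) + (x * x) * (9 * ((2:ℚ)⁻¹ * (2:ℚ)⁻¹))) * v := by
    linear_combination (1 - 2 * y + 3/2 * x) * hv
  rw [e]
  have m9 : (9:ℚ) ∈ Zp p := by exact_mod_cast nat_mem (p := p) 9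
  exact (((hx.mul hy).mul_mem ((Zp p).neg_mem m3)).add ((hx.mul hx).mul_mem
    ((Zp p).mul_mem m9 ((Zp p).mul_mem hh hh)))).mul_mem u2

lemma d_exp {i : ℕ} (hi : i < R) : I p 2 (dd ((2*R+1:ℕ):ℚ) i -
      (1 + (g ((2*R+1:ℕ):ℚ) (i+1) - 2 * g ((2*R+1:ℕ):ℚ) (2*i+1)))) := by
  unfold dd
  have hx := g_I (p := p) ha hN (m := i+1) (by omega) (by omega)
  have hy := g_I (p := p) ha hN (m := 2*i+1) (by omega) (by omega)
  obtain ⟨u1, u2⟩ := u_unit (p := p) ha hN hi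
  set x := g ((2*R+1:ℕ):ℚ) (i+1)
  set y := g ((2*R+1:ℕ):ℚ) (2*i+1)
  set v := (1 - 3/2 * x)⁻¹
  have hv : (1 - 3/2 * x) * v = 1 := mul_inv_cancel₀ u1
  have e : (1 + x / 2) * (1 - x) * (1 - 2 * y) * v - (1 + (x - 2 * y)) =
      ((x * x) * (1 + y) + (x * y) * (-2)) * v := by
    linear_combination (1 + (x - 2 * y)) * hv
  rw [e]
  exact (((hx.mul hx).mul_mem ((Zp p).add_mem (Zp p).one_mem hy.mem)).add
    ((hx.mul hy).mul_mem ((Zp p).neg_mem m2))).mul_mem u2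

lemma D_exp (r : ℕ) (hr : r ≤ R) : I p 2 (DD ((2*R+1:ℕ):ℚ) r -
      (1 + ∑ i ∈ range r, (g ((2*R+1:ℕ):ℚ) (i+1) - 2 * g ((2*R+1:ℕ):ℚ) (2*i+1)))) := by
  induction r with
  | zero => unfold DD; simpa using I.zero (p := p) 2
  | succ r ih =>
    have ih' := ih (by omega)
    have hd := d_exp (p := p) ha hN (i := r) (by omega)
    unfold DD at ih' ⊢
    rw [prod_range_succ, sum_range_succ]
    have hs : I p 1 (∑ i ∈ range r, (g ((2*R+1:ℕ):ℚ) (i+1) - 2 * g ((2*R+1:ℕ):ℚ) (2*i+1))) := by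
      apply I.sum
      intro i hi
      rw [mem_range] at hi
      exact (g_I (p := p) ha hN (m := i+1) (by omega) (by omega)).sub
        (I.mem_mul m2 (g_I (p := p) ha hN (m := 2*i+1) (by omega) (by omega)))
    have hr1 : I p 1 (g ((2*R+1:ℕ):ℚ) (r+1) - 2 * g ((2*R+1:ℕ):ℚ) (2*r+1)) :=
      (g_I (p := p) ha hN (m := r+1) (by omega) (by omega)).sub
        (I.mem_mul m2 (g_I (p := p) ha hN (m := 2*r+1) (by omega) (by omega)))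
    set P := ∏ i ∈ range r, dd ((2*R+1:ℕ):ℚ) i
    set S := ∑ i ∈ range r, (g ((2*R+1:ℕ):ℚ) (i+1) - 2 * g ((2*R+1:ℕ):ℚ) (2*i+1))
    set y := g ((2*R+1:ℕ):ℚ) (r+1) - 2 * g ((2*R+1:ℕ):ℚ) (2*r+1)
    set d := dd ((2*R+1:ℕ):ℚ) r
    have hdm : d ∈ Zp p := by
      have : d = (d - (1 + y)) + (1 + y) := by ring
      rw [this]
      exact (Zp p).add_mem hd.mem ((Zp p).add_mem (Zp p).one_mem hr1.mem)
    have e : P * d - (1 + (S + y)) = (P - (1 + S)) * d + (d - (1 + y)) * (1 + S) + S * y := by ring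
    rw [e]
    have hsm : (1 + S) ∈ Zp p := (Zp p).add_mem (Zp p).one_mem hs.mem
    exact ((ih'.mul_mem hdm).add (hd.mul_mem hsm)).add (hs.mul hr1)

/-- expansion of one term -/
lemma w_exp {r : ℕ} (hr : r < R) : I p 4 (w ((2*R+1:ℕ):ℚ) (r+1) + (1/2) * g ((2*R+1:ℕ):ℚ) (r+1) ^ 2 *
    (1 - 2 * g ((2*R+1:ℕ):ℚ) (2*r+1) + 3/2 * g ((2*R+1:ℕ):ℚ) (r+1) +
      ∑ i ∈ range r, (g ((2*R+1:ℕ):ℚ) (i+1) - 2 * g ((2*R+1:ℕ):ℚ) (2*i+1)))) := by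
  rw [w_closed R r hr]
  have hx := g_I (p := p) ha hN (m := r+1) (by omega) (by omega)
  have hy := g_I (p := p) ha hN (m := 2*r+1) (by omega) (by omega)
  have h1 := e_exp (p := p) ha hN hr
  have h2 := D_exp (p := p) ha hN r (by omega)
  have hh := half_mem (p := p) ha hN
  have hs : I p 1 (∑ i ∈ range r, (g ((2*R+1:ℕ):ℚ) (i+1) - 2 * g ((2*R+1:ℕ):ℚ) (2*i+1))) := by
    apply I.sum
    intro i hi
    rw [mem_range] at hi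
    exact (g_I (p := p) ha hN (m := i+1) (by omega) (by omega)).sub
      (I.mem_mul m2 (g_I (p := p) ha hN (m := 2*i+1) (by omega) (by omega)))
  set x := g ((2*R+1:ℕ):ℚ) (r+1)
  set y := g ((2*R+1:ℕ):ℚ) (2*r+1)
  set S := ∑ i ∈ range r, (g ((2*R+1:ℕ):ℚ) (i+1) - 2 * g ((2*R+1:ℕ):ℚ) (2*i+1))
  set e := (1 - 2 * y) * (1 - 3/2 * x)⁻¹
  set D := DD ((2*R+1:ℕ):ℚ) r
  have h32 : (3/2:ℚ) ∈ Zp p := by rw [div_eq_mul_inv]; exact (Zp p).mul_mem m3 hh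
  have hz : I p 1 (-(2 * y) + 3/2 * x) := (I.mem_mul m2 hy).neg.add (I.mem_mul h32 hx)
  have hDm : D ∈ Zp p := by
    have : D = (D - (1 + S)) + (1 + S) := by ring
    rw [this]
    exact (Zp p).add_mem h2.mem ((Zp p).add_mem (Zp p).one_mem hs.mem)
  have key : I p 2 (e * D - (1 - 2 * y + 3/2 * x + S)) := by
    have e1 : e * D - (1 - 2 * y + 3/2 * x + S) = (e - (1 - 2 * y + 3/2 * x)) * D +
        (D - (1 + S)) * (1 + (-(2 * y) + 3/2 * x)) + (-(2 * y) + 3/2 * x) * S := by ring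
    rw [e1]
    exact ((h1.mul_mem hDm).add (h2.mul_mem ((Zp p).add_mem (Zp p).one_mem hz.mem))).add (hz.mul hs)
  have e2 : -(1/2) * x ^ 2 * e * D + (1/2) * x ^ 2 * (1 - 2 * y + 3/2 * x + S) =
      ((x * x) * (e * D - (1 - 2 * y + 3/2 * x + S))) * (-(2:ℚ)⁻¹) := by ring
  rw [e2]
  exact ((hx.mul hx).mul key).mul_mem ((Zp p).neg_mem hh)

/-- the sum with odd inner terms -/
noncomputable def ZZ (N : ℚ) (R : ℕ) : ℚ := ∑ r ∈ range R, g N (r+1) ^ 2 * ∑ i ∈ range (r+1), g N (2*i+1)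
noncomputable def X' (N : ℚ) (R : ℕ) : ℚ := ∑ r ∈ range R, g N (r+1) ^ 2 * ∑ i ∈ range r, g N (i+1)

omit ha hN hp in
lemma SSr (N : ℚ) (R : ℕ) : SS N R = ∑ r ∈ range R, g N (r+1) ^ 2 := by unfold SS; rw [sum_shift]
omit ha hN hp in
lemma HHr (N : ℚ) (R : ℕ) : HH N R = ∑ r ∈ range R, g N (r+1) ^ 3 := by unfold HH; rw [sum_shift]

lemma W_exp : I p 4 (∑ r ∈ range (R+1), w ((2*R+1:ℕ):ℚ) r -
    (1 - (1/2) * SS ((2*R+1:ℕ):ℚ) R - (3/4) * HH ((2*R+1:ℕ):ℚ) R + ZZ ((2*R+1:ℕ):ℚ) R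
      - (1/2) * X' ((2*R+1:ℕ):ℚ) R)) := by
  rw [sum_range_succ']
  have w0 : w ((2*R+1:ℕ):ℚ) 0 = 1 := by unfold w; simp
  rw [w0, SSr, HHr]
  unfold ZZ X'
  have e : ∑ k ∈ range R, w ((2*R+1:ℕ):ℚ) (k+1) + 1 - (1 - (1/2) * ∑ r ∈ range R, g ((2*R+1:ℕ):ℚ) (r+1) ^ 2
      - (3/4) * ∑ r ∈ range R, g ((2*R+1:ℕ):ℚ) (r+1) ^ 3
      + ∑ r ∈ range R, g ((2*R+1:ℕ):ℚ) (r+1) ^ 2 * ∑ i ∈ range (r+1), g ((2*R+1:ℕ):ℚ) (2*i+1)
      - (1/2) * ∑ r ∈ range R, g ((2*R+1:ℕ):ℚ) (r+1) ^ 2 * ∑ i ∈ range r, g ((2*R+1:ℕ):ℚ) (i+1)) =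
      ∑ r ∈ range R, (w ((2*R+1:ℕ):ℚ) (r+1) + (1/2) * g ((2*R+1:ℕ):ℚ) (r+1) ^ 2 *
    (1 - 2 * g ((2*R+1:ℕ):ℚ) (2*r+1) + 3/2 * g ((2*R+1:ℕ):ℚ) (r+1) +
      ∑ i ∈ range r, (g ((2*R+1:ℕ):ℚ) (i+1) - 2 * g ((2*R+1:ℕ):ℚ) (2*i+1)))) := by
    have e1 : ∀ r ∈ range R, (w ((2*R+1:ℕ):ℚ) (r+1) + (1/2) * g ((2*R+1:ℕ):ℚ) (r+1) ^ 2 *
      (1 - 2 * g ((2*R+1:ℕ):ℚ) (2*r+1) + 3/2 * g ((2*R+1:ℕ):ℚ) (r+1) +
      ∑ i ∈ range r, (g ((2*R+1:ℕ):ℚ) (i+1) - 2 * g ((2*R+1:ℕ):ℚ) (2*i+1)))) =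
      w ((2*R+1:ℕ):ℚ) (r+1) + (1/2) * g ((2*R+1:ℕ):ℚ) (r+1) ^ 2 + (3/4) * g ((2*R+1:ℕ):ℚ) (r+1) ^ 3
      - g ((2*R+1:ℕ):ℚ) (r+1) ^ 2 * ∑ i ∈ range (r+1), g ((2*R+1:ℕ):ℚ) (2*i+1)
      + (1/2) * (g ((2*R+1:ℕ):ℚ) (r+1) ^ 2 * ∑ i ∈ range r, g ((2*R+1:ℕ):ℚ) (i+1)) := by
      intro r _
      rw [sum_range_succ, sum_sub_distrib, ← mul_sum]
      ring
    rw [sum_congr rfl e1, sum_add_distrib, sum_sub_distrib, sum_add_distrib, sum_add_distrib,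
      ← mul_sum, ← mul_sum, ← mul_sum]
    ring
  rw [e]
  apply I.sum
  intro r hr
  rw [mem_range] at hr
  exact w_exp (p := p) ha hN hr

omit ha hN hp in
lemma X'_eq (N : ℚ) (R : ℕ) : X' N R = XX N R := by
  unfold X' XX
  rw [sum_comm, sum_shift]
  apply sum_congr rfl
  intro s hs
  rw [mem_range] at hs
  rw [← sum_filter, mul_sum]
  apply sum_nbij' (fun i => i + 1) (fun r => r - 1)
  · intro m hm; simp only [mem_filter, mem_Icc, mem_range] at hm ⊢; omega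
  · intro m hm; simp only [mem_filter, mem_Icc, mem_range] at hm ⊢; omega
  · intro m hm; simp only [mem_range] at hm ⊢; omega
  · intro m hm; simp only [mem_filter, mem_Icc] at hm ⊢; omega
  · intro m hm; ring

lemma ZZ_exp : I p 4 (ZZ ((2*R+1:ℕ):ℚ) R + (1/2) * MM ((2*R+1:ℕ):ℚ) R) := by
  have e : MM ((2*R+1:ℕ):ℚ) R = ∑ s ∈ range R, g ((2*R+1:ℕ):ℚ) (s+1) ^ 2 *
      ∑ i ∈ range (s+1), g ((2*R+1:ℕ):ℚ) (R - i) := by
    unfold MM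
    rw [sum_comm, sum_shift]
    apply sum_congr rfl
    intro s hs
    rw [mem_range] at hs
    rw [← sum_filter, mul_sum]
    symm
    apply sum_nbij' (fun i => R - i) (fun r => R - r)
    · intro m hm; simp only [mem_filter, mem_Icc, mem_range] at hm ⊢; omega
    · intro m hm; simp only [mem_filter, mem_Icc, mem_range] at hm ⊢; omega
    · intro m hm; simp only [mem_range] at hm ⊢; omega
    · intro m hm; simp only [mem_filter, mem_Icc] at hm ⊢; omega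
    · intro m hm; ring
  rw [e]
  unfold ZZ
  rw [mul_sum, ← sum_add_distrib]
  apply I.sum
  intro s hs
  rw [mem_range] at hs
  have hx := g_I (p := p) ha hN (m := s+1) (by omega) (by omega)
  have e2 : g ((2*R+1:ℕ):ℚ) (s+1) ^ 2 * ∑ i ∈ range (s+1), g ((2*R+1:ℕ):ℚ) (2*i+1) +
      (1/2) * (g ((2*R+1:ℕ):ℚ) (s+1) ^ 2 * ∑ i ∈ range (s+1), g ((2*R+1:ℕ):ℚ) (R - i)) =
      (g ((2*R+1:ℕ):ℚ) (s+1) * g ((2*R+1:ℕ):ℚ) (s+1)) *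
        ∑ i ∈ range (s+1), (g ((2*R+1:ℕ):ℚ) (2*i+1) + g ((2*R+1:ℕ):ℚ) (R - i) * (2:ℚ)⁻¹) := by
    rw [sum_add_distrib, ← sum_mul]; ring
  rw [e2]
  apply (hx.mul hx).mul (k := 2)
  apply I.sum
  intro i hi
  rw [mem_range] at hi
  have h := (g_refl (p := p) ha hN (m := 2*(R-i)) (by omega) (by omega)).1
  rw [show 2*R+1 - 2*(R-i) = 2*i+1 by omega, g_two] at h
  exact h

lemma QQ_exp : I p 4 (∑ m ∈ Icc 1 (2*R), g ((2*R+1:ℕ):ℚ) m ^ 2 -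
    (2 * SS ((2*R+1:ℕ):ℚ) R + 2 * HH ((2*R+1:ℕ):ℚ) R)) := by
  have h1 := halves R (fun m => g ((2*R+1:ℕ):ℚ) m ^ 2)
  rw [h1]
  unfold SS HH
  rw [mul_sum, mul_sum, ← sum_add_distrib, ← sum_sub_distrib]
  apply I.sum
  intro i hi
  rw [mem_Icc] at hi
  have := (g_refl (p := p) ha hN (m := i) (by omega) (by omega)).2
  have e : g ((2*R+1:ℕ):ℚ) i ^ 2 + g ((2*R+1:ℕ):ℚ) (2*R+1-i) ^ 2 - (2 * g ((2*R+1:ℕ):ℚ) i ^ 2 + 2 * g ((2*R+1:ℕ):ℚ) i ^ 3) =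
    g ((2*R+1:ℕ):ℚ) (2*R+1-i) ^ 2 - g ((2*R+1:ℕ):ℚ) i ^ 2 - 2 * g ((2*R+1:ℕ):ℚ) i ^ 3 := by ring
  rw [e]; exact this

lemma E_exp : I p 4 (E R - (1 - (1/4) * ∑ m ∈ Icc 1 (2*R), g ((2*R+1:ℕ):ℚ) m ^ 2)) := by
  have hh := half_mem (p := p) ha hN
  have h := prod_one_sub (p := p) (m := 2) (fun i => (1/4) * g ((2*R+1:ℕ):ℚ) (i+1) ^ 2) (2*R) (by
    intro i hi
    have hx := g_I (p := p) ha hN (m := i+1) (by omega) (by omega)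
    have e : (1/4) * g ((2*R+1:ℕ):ℚ) (i+1) ^ 2 = (g ((2*R+1:ℕ):ℚ) (i+1) * g ((2*R+1:ℕ):ℚ) (i+1)) * ((2:ℚ)⁻¹ * (2:ℚ)⁻¹) := by ring
    rw [e]
    exact (hx.mul hx).mul_mem ((Zp p).mul_mem hh hh))
  have e1 : E R = ∏ i ∈ range (2*R), (1 - (1/4) * g ((2*R+1:ℕ):ℚ) (i+1) ^ 2) := by
    unfold E g
    apply prod_congr rfl
    intro i _
    have : ((i:ℚ)+1) ≠ 0 := by positivity
    push_cast
    field_simp
  rw [e1, sum_shift, mul_sum]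
  exact h

/-- normalised sum -/
noncomputable def TT (R : ℕ) : ℚ := (∑ n ∈ range (2*R+1), (3*(n:ℚ)+1) * t n) / ((2*R+1:ℕ):ℚ)

lemma fin (h5 : 5 ≤ p) : I p 4 (12 * (TT R - 1) + 7 * HH ((2*R+1:ℕ):ℚ) R) := by
  have n3 : ¬ p ∣ 3 := fun h => absurd (Nat.le_of_dvd (by norm_num) h) (by omega)
  have n2 : ¬ p ∣ 2 := fun h => absurd (Nat.le_of_dvd (by norm_num) h) (by omega)
  have n6 : ¬ p ∣ 6 := by
    intro h
    rw [show 6 = 2*3 by norm_num, hp.out.dvd_mul] at h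
    exact h.elim n2 n3
  have hN0 : ((2*R+1:ℕ):ℚ) ≠ 0 := by positivity
  have hT : TT R = E R * ∑ r ∈ range (R+1), w ((2*R+1:ℕ):ℚ) r := by
    unfold TT
    rw [S_eq, mul_div_cancel_left₀ _ hN0]
  have hW := W_exp (p := p) ha hN
  have hE := E_exp (p := p) ha hN
  have hQ := QQ_exp (p := p) ha hN
  have hZ := ZZ_exp (p := p) ha hN
  have hh := half_mem (p := p) ha hN
  have sh := SH (p := p) ha hN
  have h3 := H3 (p := p) ha hN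
  have l1 := L1 (p := p) ha hN
  have km := KM ((2*R+1:ℕ):ℚ) R
  have xyh := XYH ((2*R+1:ℕ):ℚ) R
  have kid := Kid ((2*R+1:ℕ):ℚ) R
  rw [X'_eq] at hW
  rw [hT]
  have m (n : ℕ) : ((n:ℕ):ℚ) ∈ Zp p := nat_mem n
  set N : ℚ := ((2*R+1:ℕ):ℚ) with hNd
  have s3 : I p 3 (SS N R) := by
    apply I.cancel n6
    have e : ((6:ℕ):ℚ) * SS N R = (6 * SS N R + 7 * HH N R) - 7 * HH N R := by push_cast; ring
    rw [e]
    exact (sh.mono (by norm_num)).sub (I.mem_mul (by exact_mod_cast m 7) h3)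
  have ls : I p 4 (LL N R * SS N R) := l1.mul s3
  set P := LL N R * SS N R with hP
  set K := KK N R
  set M := MM N R
  set X := XX N R
  set Y := YY N R
  set H := HH N R
  set S := SS N R
  set Q := ∑ m ∈ Icc 1 (2*R), g N m ^ 2
  set W := ∑ r ∈ range (R+1), w N r
  set Z := ZZ N R
  set E0 := E R
  have e4 : (1/4:ℚ) = (2:ℚ)⁻¹ * (2:ℚ)⁻¹ := by norm_num
  have mq : (1/4:ℚ) ∈ Zp p := by rw [e4]; exact (Zp p).mul_mem hh hh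
  have mh : (1/2:ℚ) ∈ Zp p := by rw [one_div]; exact hh
  -- E0 = 1 + O(p^3), W = 1 + O(p^3)
  have hE3 : I p 3 (E0 - 1) := by
    have e : E0 - 1 = (E0 - (1 - (1/4) * Q)) - (1/4) * (Q - (2 * S + 2 * H)) - (1/4) * (2 * S + 2 * H) := by ring
    rw [e]
    exact ((hE.mono (by norm_num)).sub (I.mem_mul mq (hQ.mono (by norm_num)))).sub
      (I.mem_mul mq ((I.mem_mul m2 s3).add (I.mem_mul m2 h3)))
  have e1 : E0 - 1 + (1/2) * (S + H) = (E0 - (1 - (1/4) * Q)) - (1/4) * (Q - (2 * S + 2 * H)) := by ring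
  have hE4 : I p 4 (E0 - 1 + (1/2) * (S + H)) := by
    rw [e1]; exact hE.sub (I.mem_mul mq hQ)
  have e2 : W - 1 + (1/2) * S + (5/4) * H = (W - (1 - (1/2) * S - (3/4) * H + Z - (1/2) * X)) +
      (Z + (1/2) * M) - (1/2) * P + (1/2) * P := by
    linear_combination (-1/2) * km + (1/2) * kid + (1/2) * xyh
  have hW4 : I p 4 (W - 1 + (1/2) * S + (5/4) * H) := by
    rw [e2]
    exact ((hW.add hZ).sub (I.mem_mul mh ls)).add (I.mem_mul mh ls)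
  have hWm : I p 0 W := by
    have e : W = (W - 1 + (1/2) * S + (5/4) * H) + 1 - (1/2) * S - (5 * (1/4)) * H := by ring
    rw [e]
    exact ((((hW4.mono (by norm_num)).add (I.of_mem (Zp p).one_mem)).sub
      ((I.mem_mul mh s3).mono (by norm_num))).sub
      ((I.mem_mul ((Zp p).mul_mem (by exact_mod_cast m 5) mq) h3).mono (by norm_num)))
  have hW1 : I p 1 (W - 1) := by
    have e : W - 1 = (W - 1 + (1/2) * S + (5/4) * H) - (1/2) * S - (5 * (1/4)) * H := by ring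
    rw [e]
    exact (((hW4.mono (by norm_num))).sub
      ((I.mem_mul mh s3).mono (by norm_num))).sub
      ((I.mem_mul ((Zp p).mul_mem (by exact_mod_cast m 5) mq) h3).mono (by norm_num))
  have e3 : 12 * (E0 * W - 1) + 7 * H = 12 * ((E0 - 1) * (W - 1)) + 12 * (E0 - 1 + (1/2) * (S + H)) +
      12 * (W - 1 + (1/2) * S + (5/4) * H) - 2 * (6 * S + 7 * H) := by
    ring
  rw [e3]
  exact (((I.mem_mul (by exact_mod_cast m 12) (hE3.mul hW1)).add (I.mem_mul (by exact_mod_cast m 12) hE4)).add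
    (I.mem_mul (by exact_mod_cast m 12) hW4)).sub (I.mem_mul m2 sh)

end

end Pool.Agent.R856.TK
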