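import Pool.Agent.R856.FT1
import Pool.Agent.R856.TKB
import Pool.Agent.Helper857.W8

set_option autoImplicit false

/-!
Expansion modulo `p^4` of the normalised sum of `(42k+5) C(2k,k)^3 / 4096^k`.
-/

namespace Pool.Agent.R856.FT

open Finset Pool.Agent.Helper857.Pad
open Pool.Agent.Helper857.W (g XX YY KK MM LL SS HH Kp halves sum_shift g_I g_refl half_mem SH H3 L1 trip Kp1 Kp2 KM XYH Kid
  refl_prod od od_fact choose_prod od_ne)

noncomputable def ex (x : ℚ) : ℚ := (1 + x/2) / (1 - x/2)^2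

noncomputable def D (N : ℚ) (s : ℕ) : ℚ := ∏ j ∈ range s, ((1 - g N (j+1)) * ex (g N (j+1)))

noncomputable def Mi (N : ℚ) (n : ℕ) : ℚ := ∑ s ∈ range n, g N (s+1) * (ex (g N (s+1)) * D N s)

lemma odd_sub (R s : ℕ) : ((2*R+1:ℕ):ℚ) - 2*s - 2 ≠ 0 := by
  intro hh
  have : ((2*R+1:ℕ):ℤ) - 2*s - 2 = 0 := by exact_mod_cast hh
  omega

lemma ex_g (R s : ℕ) : ex (g ((2*R+1:ℕ):ℚ) (s+1)) =
    2*((s:ℚ)+1)*(((2*R+1:ℕ):ℚ) + 2*s + 2)/(((2*R+1:ℕ):ℚ) - 2*s - 2)^2 := by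
  have h := odd_sub R s
  have hs : (s:ℚ)+1 ≠ 0 := by positivity
  unfold ex g
  generalize ((2*R+1:ℕ):ℚ) = N at *
  push_cast
  have e : 1 - N/((s:ℚ)+1)/2 = -(N - 2*s - 2)/(2*((s:ℚ)+1)) := by field_simp; ring
  rw [e]
  generalize hd : N - 2*(s:ℚ) - 2 = d at *
  field_simp
  ring

lemma u_closed (R s : ℕ) : u ((2*R+1:ℕ):ℚ) (s+1) =
    -(g ((2*R+1:ℕ):ℚ) (s+1) * (ex (g ((2*R+1:ℕ):ℚ) (s+1)) * D ((2*R+1:ℕ):ℚ) s)) := by
  induction s with
  | zero =>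
    rw [ex_g]
    have h := odd_sub R 0
    unfold u D g
    generalize ((2*R+1:ℕ):ℚ) = N at *
    simp only [zero_add, prod_range_one, prod_range_zero, Nat.cast_zero, Nat.cast_one, mul_zero, sub_zero, add_zero] at *
    generalize hd : N - 2 = d at *
    field_simp
  | succ s ih =>
    have e : u ((2*R+1:ℕ):ℚ) (s+1+1) = u ((2*R+1:ℕ):ℚ) (s+1) *
        (-(2 * (((2*R+1:ℕ):ℚ) + 2*((s+1:ℕ):ℚ) + 2) * (((2*R+1:ℕ):ℚ) - ((s+1:ℕ):ℚ))) / (((2*R+1:ℕ):ℚ) - 2*((s+1:ℕ):ℚ) - 2)^2) := by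
      unfold u; rw [prod_range_succ]
    have e2 : D ((2*R+1:ℕ):ℚ) (s+1) = D ((2*R+1:ℕ):ℚ) s * ((1 - g ((2*R+1:ℕ):ℚ) (s+1)) * ex (g ((2*R+1:ℕ):ℚ) (s+1))) := by
      unfold D; rw [prod_range_succ]
    rw [e, e2, ih, ex_g R (s+1)]
    have h := odd_sub R (s+1)
    generalize ex (g ((2*R+1:ℕ):ℚ) (s+1)) = E
    generalize D ((2*R+1:ℕ):ℚ) s = DD
    unfold g
    generalize ((2*R+1:ℕ):ℚ) = N at *
    push_cast at *
    have hs : (s:ℚ)+1 ≠ 0 := by positivity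
    have hs2 : (s:ℚ)+1+1 ≠ 0 := by positivity
    generalize hd : N - 2*((s:ℚ)+1) - 2 = d at *
    field_simp
    ring

/-- normalised sum -/
noncomputable def TT (R : ℕ) : ℚ := (∑ n ∈ range (R+1), (42*(n:ℚ)+5) * t n) / ((2*R+1:ℕ):ℚ)

lemma TT_eq (R : ℕ) : TT R = t R * (6 * D ((2*R+1:ℕ):ℚ) (2*R) + Mi ((2*R+1:ℕ):ℚ) (2*R) - 1) := by
  have hN0 : ((2*R+1:ℕ):ℚ) ≠ 0 := by positivity
  have hs : ∑ s ∈ range (2*R+1+1), u ((2*R+1:ℕ):ℚ) s =
      1 - Mi ((2*R+1:ℕ):ℚ) (2*R) - 6 * D ((2*R+1:ℕ):ℚ) (2*R) := by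
    rw [sum_range_succ', sum_range_succ, u_closed]
    have h0 : u ((2*R+1:ℕ):ℚ) 0 = 1 := by unfold u; simp
    have h1 : g ((2*R+1:ℕ):ℚ) (2*R+1) = 1 := by unfold g; exact div_self hN0
    have h2 : ex 1 = 6 := by unfold ex; norm_num
    rw [h0, h1, h2]
    have h3 : ∑ k ∈ range (2*R), u ((2*R+1:ℕ):ℚ) (k+1) = - Mi ((2*R+1:ℕ):ℚ) (2*R) := by
      unfold Mi
      rw [← sum_neg_distrib]
      exact sum_congr rfl (fun k _ => u_closed R k)
    rw [h3]; ring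
  unfold TT
  rw [T_eq, hs]
  field_simp
  ring

noncomputable def bp (R : ℕ) : ℚ := ∏ j ∈ range R, ((1 - g ((2*R+1:ℕ):ℚ) (j+1) / 2)^2 / (1 - g ((2*R+1:ℕ):ℚ) (j+1)))

lemma choose_od (R : ℕ) : ((2*R).choose R : ℚ) * R.factorial = 2^R * od R := by
  have h := Nat.choose_mul_factorial_mul_factorial (show R ≤ 2*R by omega)
  rw [show 2*R - R = R by omega] at h
  have h' : ((2*R).choose R : ℚ) * R.factorial * R.factorial = ((2*R).factorial : ℚ) := by exact_mod_cast h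
  rw [od_fact] at h'
  have hf : (R.factorial : ℚ) ≠ 0 := by exact_mod_cast R.factorial_ne_zero
  apply mul_right_cancel₀ hf
  rw [h']; ring

lemma prodB (R : ℕ) : ∏ j ∈ range R, (1 - g ((2*R+1:ℕ):ℚ) (j+1)) = (-1)^R * ((2*R).choose R : ℚ) := by
  rw [← choose_prod (2*R) R (by omega)]
  apply prod_congr rfl
  intro i _
  unfold g
  have : (i:ℚ)+1 ≠ 0 := by positivity
  push_cast
  field_simp
  ring

lemma prod_fact (R : ℕ) : ∏ j ∈ range R, ((j:ℚ)+1) = R.factorial := by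
  induction R with
  | zero => simp
  | succ R ih => rw [prod_range_succ, ih, Nat.factorial_succ]; push_cast; ring

lemma prodA (R : ℕ) : ∏ j ∈ range R, (1 - g ((2*R+1:ℕ):ℚ) (j+1) / 2) = (-1)^R * ((2*R).choose R : ℚ) / 4^R := by
  have e1 : ∏ j ∈ range R, (1 - g ((2*R+1:ℕ):ℚ) (j+1) / 2) =
      (∏ j ∈ range R, (2*(j:ℚ) + 1 - 2*R)) / ∏ j ∈ range R, (2*((j:ℚ)+1)) := by
    rw [← prod_div_distrib]
    apply prod_congr rfl
    intro i _
    unfold g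
    have : (i:ℚ)+1 ≠ 0 := by positivity
    push_cast
    field_simp
    ring
  have e2 : ∏ j ∈ range R, (2*(j:ℚ) + 1 - 2*R) = (-1)^R * od R := by
    rw [refl_prod R _ (fun k => (-1) * (2*(k:ℚ)+1))]
    · rw [prod_mul_distrib, prod_const, card_range]; rfl
    · intro i k hik
      have : (R:ℚ) = i + k + 1 := by rw [← hik]; push_cast; ring
      rw [this]; ring
  have e3 : ∏ j ∈ range R, (2*((j:ℚ)+1)) = 2^R * R.factorial := by
    rw [prod_mul_distrib, prod_const, card_range, prod_fact]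
  have hf : (R.factorial : ℚ) ≠ 0 := by exact_mod_cast R.factorial_ne_zero
  have hc := choose_od R
  have h4 : (4:ℚ)^R = 2^R * 2^R := by rw [← mul_pow]; norm_num
  have h2 : (2:ℚ)^R ≠ 0 := by positivity
  rw [e1, e2, e3, h4, div_eq_div_iff (mul_ne_zero h2 hf) (mul_ne_zero h2 h2)]
  linear_combination (-(-1:ℚ)^R * 2^R) * hc

lemma bp_eq (R : ℕ) : bp R = (-1)^R * ((2*R).choose R : ℚ) / 16^R := by
  unfold bp
  rw [prod_div_distrib, prod_pow, prodA, prodB]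
  have hc : ((2*R).choose R : ℚ) ≠ 0 := by
    have := Nat.choose_pos (show R ≤ 2*R by omega)
    positivity
  have h1 : ((-1:ℚ)^R) ≠ 0 := pow_ne_zero R (by norm_num)
  have h16 : (16:ℚ)^R = 4^R * 4^R := by rw [← mul_pow]; norm_num
  rw [h16]
  field_simp

lemma tR_eq (R : ℕ) : t R = (-1)^R * bp R ^ 3 := by
  rw [bp_eq]
  unfold t
  have h1 : ((-1:ℚ)^R) * (-1)^R = 1 := by rw [← mul_pow]; norm_num
  have h16 : (4096:ℚ)^R = (16^R)^3 := by rw [← pow_mul, mul_comm R 3, pow_mul]; norm_num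
  have h0 : (16:ℚ)^R ≠ 0 := by positivity
  rw [h16, div_pow]
  field_simp
  rw [show ((-1:ℚ)^R)^4 = ((-1)^R * (-1)^R) * ((-1)^R * (-1)^R) by ring, h1]
  ring

/-- the product of all `1 - g` is one -/
lemma prod_all (R : ℕ) : ∏ j ∈ range (2*R), (1 - g ((2*R+1:ℕ):ℚ) (j+1)) = 1 := by
  have h := choose_prod (2*R) (2*R) le_rfl
  rw [Nat.choose_self] at h
  have h1 : (-1:ℚ)^(2*R) = 1 := by rw [pow_mul]; norm_num
  rw [h1, Nat.cast_one, mul_one] at h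
  refine Eq.trans (prod_congr rfl ?_) h
  intro i _
  unfold g
  have : (i:ℚ)+1 ≠ 0 := by positivity
  push_cast
  field_simp
  ring

lemma prod_halves (R : ℕ) (f : ℕ → ℚ) :
    ∏ j ∈ range (2*R), f (j+1) = ∏ j ∈ range R, (f (j+1) * f (2*R+1-(j+1))) := by
  rw [two_mul, prod_range_add, prod_mul_distrib]
  congr 1
  apply refl_prod
  intro i k hik
  congr 1
  omega

section sums

variable (x : ℕ → ℚ)

noncomputable def Aa (s : ℕ) : ℚ := ∑ i ∈ range s, x i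
noncomputable def Qa (s : ℕ) : ℚ := ∑ i ∈ range s, x i ^ 2
noncomputable def Ca (s : ℕ) : ℚ := ∑ i ∈ range s, x i ^ 3
noncomputable def Ba (s : ℕ) : ℚ := ∑ i ∈ range s, x i ^ 2 * Aa x i

lemma id1 (n : ℕ) : ∑ s ∈ range n, x s * Aa x s = (Aa x n ^ 2 - Qa x n) / 2 := by
  induction n with
  | zero => simp [Aa, Qa]
  | succ n ih => rw [sum_range_succ, ih]; unfold Aa Qa; rw [sum_range_succ, sum_range_succ]; ring

lemma id2 (n : ℕ) : ∑ s ∈ range n, x s * Qa x s = Aa x n * Qa x n - Ca x n - Ba x n := by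
  induction n with
  | zero => simp [Aa, Qa, Ca, Ba]
  | succ n ih =>
    have e1 : Aa x (n+1) = Aa x n + x n := by unfold Aa; rw [sum_range_succ]
    have e2 : Qa x (n+1) = Qa x n + x n ^ 2 := by unfold Qa; rw [sum_range_succ]
    have e3 : Ca x (n+1) = Ca x n + x n ^ 3 := by unfold Ca; rw [sum_range_succ]
    have e4 : Ba x (n+1) = Ba x n + x n ^ 2 * Aa x n := by unfold Ba; rw [sum_range_succ]
    rw [sum_range_succ, ih, e1, e2, e3, e4]; ring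

lemma id3 (n : ℕ) : ∑ s ∈ range n, x s * Aa x s ^ 2 = (Aa x n ^ 3 - 3 * Ba x n - Ca x n) / 3 := by
  induction n with
  | zero => simp [Aa, Ca, Ba]
  | succ n ih =>
    have e1 : Aa x (n+1) = Aa x n + x n := by unfold Aa; rw [sum_range_succ]
    have e3 : Ca x (n+1) = Ca x n + x n ^ 3 := by unfold Ca; rw [sum_range_succ]
    have e4 : Ba x (n+1) = Ba x n + x n ^ 2 * Aa x n := by unfold Ba; rw [sum_range_succ]
    rw [sum_range_succ, ih, e1, e3, e4]; ring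

lemma id4 (n : ℕ) : ∑ s ∈ range n, x s * (1 + 3/2 * x s + 5/4 * x s ^ 2 + 1/2 * Aa x s + 3/4 * (x s * Aa x s) -
    3/8 * Qa x s + 1/8 * Aa x s ^ 2) =
    Aa x n + 5/4 * Qa x n + Ba x n + (5/4 + 3/8 - 1/24) * Ca x n + 1/4 * Aa x n ^ 2 - 3/8 * (Aa x n * Qa x n) +
      1/24 * Aa x n ^ 3 := by
  have e : ∑ s ∈ range n, x s * (1 + 3/2 * x s + 5/4 * x s ^ 2 + 1/2 * Aa x s + 3/4 * (x s * Aa x s) -
      3/8 * Qa x s + 1/8 * Aa x s ^ 2) =
      ∑ s ∈ range n, x s + 3/2 * ∑ s ∈ range n, x s ^ 2 + 5/4 * ∑ s ∈ range n, x s ^ 3 +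
      1/2 * ∑ s ∈ range n, x s * Aa x s + 3/4 * ∑ s ∈ range n, x s ^ 2 * Aa x s -
      3/8 * ∑ s ∈ range n, x s * Qa x s + 1/8 * ∑ s ∈ range n, x s * Aa x s ^ 2 := by
    simp only [mul_sum, ← sum_add_distrib, ← sum_sub_distrib]
    apply sum_congr rfl
    intro s _
    ring
  rw [e, id1, id2, id3]
  have a1 : ∑ s ∈ range n, x s = Aa x n := rfl
  have a2 : ∑ s ∈ range n, x s ^ 2 = Qa x n := rfl
  have a3 : ∑ s ∈ range n, x s ^ 3 = Ca x n := rfl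
  have a4 : ∑ s ∈ range n, x s ^ 2 * Aa x s = Ba x n := rfl
  rw [a1, a2, a3, a4]; ring

end sums

end Pool.Agent.R856.FT
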