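import Pool.Agent.R856.FT2

set_option autoImplicit false

/-!
Evaluation modulo `p^4` of the normalised sum of `(42k+5) C(2k,k)^3 / 4096^k`.
-/

namespace Pool.Agent.R856.FT

open Finset Pool.Agent.Helper857.Pad
open Pool.Agent.Helper857.W (g XX YY KK MM LL SS HH Kp halves sum_shift g_I g_refl half_mem SH H3 L1 trip Kp1 Kp2 KM XYH Kid
  refl_prod od od_fact choose_prod od_ne classred)

variable {p : ℕ} [hp : Fact p.Prime]

lemma I1_sub {x : ℚ} (hx : I p 1 x) : (1 - x) ≠ 0 ∧ (1 - x)⁻¹ ∈ Zp p := by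
  obtain ⟨n0, m0, _⟩ := unit (p := p) (x := 1 - x) (by
    have : 1 - x - 1 = -x := by ring
    rw [this]; exact hx.neg)
  exact ⟨n0, m0⟩

variable {a R : ℕ} (ha : 1 ≤ a) (hN : 2*R+1 = p^a)

/-- the product and the sum of reflected terms agree -/
lemma pi_eq (R m : ℕ) (hm : 1 ≤ m) (hm' : m ≤ 2*R) :
    g ((2*R+1:ℕ):ℚ) m + g ((2*R+1:ℕ):ℚ) (2*R+1-m) = g ((2*R+1:ℕ):ℚ) m * g ((2*R+1:ℕ):ℚ) (2*R+1-m) := by
  have h1 : ((2*R+1-m:ℕ):ℚ) = ((2*R+1:ℕ):ℚ) - m := by rw [Nat.cast_sub (by omega)]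
  have h2 : ((2*R+1:ℕ):ℚ) - m ≠ 0 := by
    rw [← h1]
    have : 2*R+1-m ≠ 0 := by omega
    exact_mod_cast this
  have hm0 : (m:ℚ) ≠ 0 := by
    have : m ≠ 0 := by omega
    exact_mod_cast this
  unfold g
  rw [h1]
  generalize ((2*R+1:ℕ):ℚ) = N at *
  field_simp
  ring

noncomputable def S1 (R : ℕ) : ℚ := ∑ m ∈ Icc 1 (2*R), g ((2*R+1:ℕ):ℚ) m

include ha hN

lemma pi_exp {m : ℕ} (hm : 1 ≤ m) (hm' : m ≤ 2*R) :
    I p 4 (g ((2*R+1:ℕ):ℚ) m + g ((2*R+1:ℕ):ℚ) (2*R+1-m) + g ((2*R+1:ℕ):ℚ) m ^ 2 + g ((2*R+1:ℕ):ℚ) m ^ 3) := by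
  have hx := g_I (p := p) ha hN hm hm'
  have e0 := pi_eq R m hm hm'
  obtain ⟨n0, m0⟩ := I1_sub hx
  generalize hy : g ((2*R+1:ℕ):ℚ) (2*R+1-m) = y at *
  generalize g ((2*R+1:ℕ):ℚ) m = x at *
  have hinv : (1-x)*(1-x)⁻¹ = 1 := mul_inv_cancel₀ n0
  have e : y = - x * (1-x)⁻¹ := by
    have : (1-x) * y = -x := by linear_combination e0
    calc y = (1-x)*(1-x)⁻¹ * y := by rw [hinv, one_mul]
      _ = ((1-x)*y) * (1-x)⁻¹ := by ring
      _ = _ := by rw [this]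
  have h4 : I p 4 (x^4) := by simpa using hx.pow 4
  have e2 : x + y + x^2 + x^3 = x^4 * (-(1-x)⁻¹) := by
    rw [e]
    generalize (1-x)⁻¹ = v at *
    linear_combination (-(x + x^2 + x^3)) * hinv
  rw [e2]
  exact h4.mul_mem ((Zp p).neg_mem m0)

lemma pi_I2 {m : ℕ} (hm : 1 ≤ m) (hm' : m ≤ 2*R) :
    I p 2 (g ((2*R+1:ℕ):ℚ) m * g ((2*R+1:ℕ):ℚ) (2*R+1-m)) :=
  (g_I (p := p) ha hN hm hm').mul (g_I (p := p) ha hN (m := 2*R+1-m) (by omega) (by omega))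

lemma S1_exp : I p 4 (S1 R + (SS ((2*R+1:ℕ):ℚ) R + HH ((2*R+1:ℕ):ℚ) R)) := by
  unfold S1 SS HH
  rw [halves, ← sum_add_distrib, ← sum_add_distrib]
  apply I.sum
  intro i hi
  rw [mem_Icc] at hi
  have := pi_exp (p := p) ha hN (m := i) (by omega) (by omega)
  rw [← add_assoc]
  exact this

lemma Z3 (h5 : 5 ≤ p) : I p 3 (SS ((2*R+1:ℕ):ℚ) R + HH ((2*R+1:ℕ):ℚ) R) ∧ I p 3 (S1 R) := by
  have n3 : ¬ p ∣ 3 := fun h => absurd (Nat.le_of_dvd (by norm_num) h) (by omega)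
  have n2 : ¬ p ∣ 2 := fun h => absurd (Nat.le_of_dvd (by norm_num) h) (by omega)
  have n6 : ¬ p ∣ 6 := by
    intro h
    rw [show 6 = 2*3 by norm_num, hp.out.dvd_mul] at h
    exact h.elim n2 n3
  have sh := SH (p := p) ha hN
  have h3 := H3 (p := p) ha hN
  have hs := S1_exp (p := p) ha hN
  have h1 : I p 3 (SS ((2*R+1:ℕ):ℚ) R + HH ((2*R+1:ℕ):ℚ) R) := by
    apply I.cancel n6
    have e : ((6:ℕ):ℚ) * (SS ((2*R+1:ℕ):ℚ) R + HH ((2*R+1:ℕ):ℚ) R) =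
      (6 * SS ((2*R+1:ℕ):ℚ) R + 7 * HH ((2*R+1:ℕ):ℚ) R) - HH ((2*R+1:ℕ):ℚ) R := by push_cast; ring
    rw [e]
    exact (sh.mono (by norm_num)).sub h3
  refine ⟨h1, ?_⟩
  have e : S1 R = (S1 R + (SS ((2*R+1:ℕ):ℚ) R + HH ((2*R+1:ℕ):ℚ) R)) - (SS ((2*R+1:ℕ):ℚ) R + HH ((2*R+1:ℕ):ℚ) R) := by ring
  rw [e]
  exact (hs.mono (by norm_num)).sub h1

lemma S3_I : I p 4 (∑ m ∈ Icc 1 (2*R), g ((2*R+1:ℕ):ℚ) m ^ 3) := by
  rw [halves]
  apply I.sum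
  intro i hi
  rw [mem_Icc] at hi
  have h1 := g_I (p := p) ha hN (m := i) (by omega) (by omega)
  have h2 := g_I (p := p) ha hN (m := 2*R+1-i) (by omega) (by omega)
  have h3 := (g_refl (p := p) ha hN (m := i) (by omega) (by omega)).1
  generalize g ((2*R+1:ℕ):ℚ) (2*R+1-i) = y at *
  generalize g ((2*R+1:ℕ):ℚ) i = x at *
  have e : x^3 + y^3 = (y + x) * (x*x - x*y + y*y) := by ring
  rw [e]
  exact h3.mul (((h1.mul h1).sub (h1.mul h2)).add (h2.mul h2))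

/-- value of the full product -/
lemma D_full (h5 : 5 ≤ p) : I p 4 (D ((2*R+1:ℕ):ℚ) (2*R) - (1 + (5/4) * S1 R)) := by
  have hh := half_mem (p := p) ha hN
  have hS := (Z3 (p := p) ha hN h5).2
  set N : ℚ := ((2*R+1:ℕ):ℚ) with hNd
  have hS1 : S1 R = ∑ i ∈ range R, g N (i+1) * g N (2*R+1-(i+1)) := by
    unfold S1
    rw [halves, sum_shift]
    apply sum_congr rfl
    intro i hi
    rw [mem_range] at hi
    exact pi_eq R (i+1) (by omega) (by omega)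
  have e1 : D N (2*R) = (∏ i ∈ range R, (1 - (-(3/4) * (g N (i+1) * g N (2*R+1-(i+1)))))) /
      (∏ i ∈ range R, (1 - ((1/4) * (g N (i+1) * g N (2*R+1-(i+1))))))^2 := by
    unfold D
    rw [prod_mul_distrib, prod_all, one_mul, prod_halves R (fun m => ex (g N m)), ← prod_pow, ← prod_div_distrib]
    apply prod_congr rfl
    intro i hi
    rw [mem_range] at hi
    have e0 := pi_eq R (i+1) (by omega) (by omega)
    have hx := g_I (p := p) ha hN (m := i+1) (by omega) (by omega)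
    have hy := g_I (p := p) ha hN (m := 2*R+1-(i+1)) (by omega) (by omega)
    rw [← hNd] at e0 hx hy
    unfold ex
    generalize g N (2*R+1-(i+1)) = y at *
    generalize g N (i+1) = x at *
    rw [div_mul_div_comm]
    have u1 : (1 + x/2) * (1 + y/2) = 1 - -(3/4) * (x*y) := by linear_combination (1/2) * e0
    have u2 : (1 - x/2)^2 * (1 - y/2)^2 = (1 - 1/4 * (x*y))^2 := by
      have : (1 - x/2) * (1 - y/2) = 1 - 1/4 * (x*y) := by linear_combination (-1/2) * e0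
      rw [← mul_pow, this]
    rw [u1, u2]
  have b (i : ℕ) (hi : i < R) : I p 2 (g N (i+1) * g N (2*R+1-(i+1))) := by
    exact pi_I2 (p := p) ha hN (by omega) (by omega)
  have q4 : (1/4 : ℚ) ∈ Zp p := by
    have : (1/4:ℚ) = (2:ℚ)⁻¹ * (2:ℚ)⁻¹ := by norm_num
    rw [this]; exact (Zp p).mul_mem hh hh
  have q34 : (-(3/4) : ℚ) ∈ Zp p := by
    have : (-(3/4):ℚ) = -((3:ℕ):ℚ) * (1/4) := by norm_num
    rw [this]; exact (Zp p).mul_mem ((Zp p).neg_mem (nat_mem 3)) q4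
  have h1 := prod_one_sub (p := p) (m := 2) (fun i => -(3/4) * (g N (i+1) * g N (2*R+1-(i+1)))) R
    (fun i hi => I.mem_mul q34 (b i hi))
  have h2 := prod_one_sub (p := p) (m := 2) (fun i => (1/4) * (g N (i+1) * g N (2*R+1-(i+1)))) R
    (fun i hi => I.mem_mul q4 (b i hi))
  rw [← mul_sum, ← hS1] at h1 h2
  rw [e1]
  generalize ∏ i ∈ range R, (1 - (-(3/4) * (g N (i+1) * g N (2*R+1-(i+1))))) = P1 at *
  generalize ∏ i ∈ range R, (1 - ((1/4) * (g N (i+1) * g N (2*R+1-(i+1))))) = P2 at *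
  generalize S1 R = s at *
  have hP2 : I p 1 (P2 - 1) := by
    have : P2 - 1 = (P2 - (1 - 1/4 * s)) - (1/4) * s := by ring
    rw [this]
    exact (h2.mono (by norm_num)).sub ((I.mem_mul q4 hS).mono (by norm_num))
  obtain ⟨n0, m0, -⟩ := unit hP2
  have hs6 : I p 4 (s*s) := (hS.mul hS).mono (by norm_num)
  have e : P1 / P2^2 - (1 + 5/4*s) = (P1 - (1 + 5/4*s) * P2^2) * (P2⁻¹ * P2⁻¹) := by
    field_simp
  rw [e]
  apply I.mul_mem _ ((Zp p).mul_mem m0 m0)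
  have mP2 : P2 ∈ Zp p := by
    have : P2 = (P2 - 1) + 1 := by ring
    rw [this]; exact (Zp p).add_mem hP2.mem (Zp p).one_mem
  have e2 : P1 - (1 + 5/4*s) * P2^2 = (P1 - (1 - -(3/4) * s)) -
      (P2 - (1 - 1/4 * s)) * ((1 + 5 * (1/4) * s) * (P2 + (1 - 1/4*s))) -
      (s*s) * (1/4 * (1/4) * (1 + 5 * (1/4) * s) - 10 * (1/4) * (1/4)) := by ring
  rw [e2]
  have ms : s ∈ Zp p := hS.mem
  have m5 : (5:ℚ) ∈ Zp p := by exact_mod_cast nat_mem 5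
  have m10 : (10:ℚ) ∈ Zp p := by exact_mod_cast nat_mem 10
  have mm : (1 + 5 * (1/4) * s) ∈ Zp p := (Zp p).add_mem (Zp p).one_mem ((Zp p).mul_mem ((Zp p).mul_mem m5 q4) ms)
  exact (h1.sub (h2.mul_mem ((Zp p).mul_mem mm ((Zp p).add_mem mP2 ((Zp p).sub_mem (Zp p).one_mem ((Zp p).mul_mem q4 ms)))))).sub
    (hs6.mul_mem ((Zp p).sub_mem ((Zp p).mul_mem ((Zp p).mul_mem q4 q4) mm) ((Zp p).mul_mem ((Zp p).mul_mem m10 q4) q4)))

lemma bp_exp : I p 4 (bp R - (1 + (1/4) * (SS ((2*R+1:ℕ):ℚ) R + HH ((2*R+1:ℕ):ℚ) R))) := by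
  have hh := half_mem (p := p) ha hN
  set N : ℚ := ((2*R+1:ℕ):ℚ) with hNd
  have q4 : (1/4 : ℚ) ∈ Zp p := by
    have : (1/4:ℚ) = (2:ℚ)⁻¹ * (2:ℚ)⁻¹ := by norm_num
    rw [this]; exact (Zp p).mul_mem hh hh
  have hx (i : ℕ) (hi : i < R) := g_I (p := p) ha hN (m := i+1) (by omega) (by omega)
  rw [← hNd] at hx
  have hz (i : ℕ) (hi : i < R) : I p 2 (-(g N (i+1) ^ 2 * (1/4) * (1 - g N (i+1))⁻¹)) := by
    obtain ⟨n0, m0⟩ := I1_sub (hx i hi)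
    have h2 : I p 2 (g N (i+1) ^ 2) := by simpa using (hx i hi).pow 2
    exact ((h2.mul_mem q4).mul_mem m0).neg
  have h := prod_one_sub (p := p) (m := 2) (fun i => -(g N (i+1) ^ 2 * (1/4) * (1 - g N (i+1))⁻¹)) R hz
  have e1 : bp R = ∏ i ∈ range R, (1 - -(g N (i+1) ^ 2 * (1/4) * (1 - g N (i+1))⁻¹)) := by
    unfold bp
    apply prod_congr rfl
    intro i hi
    rw [mem_range] at hi
    obtain ⟨n0, -⟩ := I1_sub (hx i hi)
    rw [← hNd]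
    generalize g N (i+1) = x at *
    field_simp
    ring
  rw [e1]
  have e2 : ∏ i ∈ range R, (1 - -(g N (i+1) ^ 2 * (1/4) * (1 - g N (i+1))⁻¹)) -
      (1 + (1/4) * (SS N R + HH N R)) =
      (∏ i ∈ range R, (1 - -(g N (i+1) ^ 2 * (1/4) * (1 - g N (i+1))⁻¹)) -
      (1 - ∑ i ∈ range R, -(g N (i+1) ^ 2 * (1/4) * (1 - g N (i+1))⁻¹))) +
      ∑ i ∈ range R, (g N (i+1) ^ 2 * (1/4) * (1 - g N (i+1))⁻¹ - (1/4) * (g N (i+1) ^ 2 + g N (i+1) ^ 3)) := by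
    unfold SS HH
    rw [sum_shift, sum_shift, sum_sub_distrib, ← mul_sum, sum_add_distrib, sum_neg_distrib]
    ring
  rw [e2]
  apply h.add
  apply I.sum
  intro i hi
  rw [mem_range] at hi
  obtain ⟨n0, m0⟩ := I1_sub (hx i hi)
  have h4 : I p 4 (g N (i+1) ^ 4) := by simpa using (hx i hi).pow 4
  generalize g N (i+1) = x at *
  have hinv : (1-x)*(1-x)⁻¹ = 1 := mul_inv_cancel₀ n0
  have e : x^2 * (1/4) * (1-x)⁻¹ - 1/4 * (x^2 + x^3) = x^4 * ((1/4) * (1-x)⁻¹) := by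
    generalize (1-x)⁻¹ = v at *
    linear_combination ((1/4) * (x^2 + x^3)) * hinv
  rw [e]
  exact h4.mul_mem ((Zp p).mul_mem q4 m0)

end Pool.Agent.R856.FT
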