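import Pool.Agent.R856.FT3

set_option autoImplicit false

/-!
Evaluation modulo `p^4` of the normalised sum of `(42k+5) C(2k,k)^3 / 4096^k` (last part).
-/

namespace Pool.Agent.R856.FT

open Finset Pool.Agent.Helper857.Pad
open Pool.Agent.Helper857.W (g XX YY KK MM LL SS HH Kp halves sum_shift g_I g_refl half_mem SH H3 L1 trip Kp1 Kp2 KM XYH Kid
  refl_prod od od_fact choose_prod od_ne classred)

variable {p : ℕ} [hp : Fact p.Prime]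

lemma ex_exp (hh : (2:ℚ)⁻¹ ∈ Zp p) {x : ℚ} (hx : I p 1 x) :
    I p 3 (ex x - (1 + 3/2 * x + 5/4 * x^2)) ∧ I p 3 ((1-x) * ex x - (1 + 1/2 * x - 1/4 * x^2)) := by
  have hx2 : I p 1 (x/2) := by rw [div_eq_mul_inv]; exact hx.mul_mem hh
  obtain ⟨n0, m0⟩ := I1_sub hx2
  have h3 : I p 3 (x^3) := by simpa using hx.pow 3
  have m5 : (5:ℚ) ∈ Zp p := by exact_mod_cast nat_mem 5
  have m7 : (7:ℚ) ∈ Zp p := by exact_mod_cast nat_mem 7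
  have mx : x ∈ Zp p := hx.mem
  have e1 : ex x - (1 + 3/2 * x + 5/4 * x^2) =
      x^3 * ((7 * ((2:ℚ)⁻¹ * (2:ℚ)⁻¹ * (2:ℚ)⁻¹) - 5 * ((2:ℚ)⁻¹ * (2:ℚ)⁻¹ * (2:ℚ)⁻¹ * (2:ℚ)⁻¹) * x) *
        ((1-x/2)⁻¹ * (1-x/2)⁻¹)) := by
    unfold ex
    have hv : (1 - x/2) * (1-x/2)⁻¹ = 1 := mul_inv_cancel₀ n0
    rw [div_eq_mul_inv, ← inv_pow]
    generalize (1-x/2)⁻¹ = v at *
    linear_combination (1 + 3/2 * x + 5/4 * x^2) * ((1-x/2)*v + 1) * hv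
  have h1 : I p 3 (ex x - (1 + 3/2 * x + 5/4 * x^2)) := by
    rw [e1]
    exact h3.mul_mem ((Zp p).mul_mem ((Zp p).sub_mem ((Zp p).mul_mem m7 ((Zp p).mul_mem ((Zp p).mul_mem hh hh) hh))
      ((Zp p).mul_mem ((Zp p).mul_mem m5 ((Zp p).mul_mem ((Zp p).mul_mem ((Zp p).mul_mem hh hh) hh) hh)) mx))
      ((Zp p).mul_mem m0 m0))
  refine ⟨h1, ?_⟩
  have e2 : (1-x) * ex x - (1 + 1/2 * x - 1/4 * x^2) =
      (ex x - (1 + 3/2 * x + 5/4 * x^2)) * (1-x) - x^3 * (5 * ((2:ℚ)⁻¹ * (2:ℚ)⁻¹)) := by ring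
  rw [e2]
  exact (h1.mul_mem ((Zp p).sub_mem (Zp p).one_mem mx)).sub (h3.mul_mem ((Zp p).mul_mem m5 ((Zp p).mul_mem hh hh)))

variable {a R : ℕ} (ha : 1 ≤ a) (hN : 2*R+1 = p^a)

/-- shifted terms -/
noncomputable def xs (R : ℕ) : ℕ → ℚ := fun i => g ((2*R+1:ℕ):ℚ) (i+1)

include ha hN

lemma Aa_I (s : ℕ) (hs : s ≤ 2*R) : I p 1 (Aa (xs R) s) ∧ I p 2 (Qa (xs R) s) := by
  constructor
  · apply I.sum
    intro i hi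
    rw [mem_range] at hi
    exact g_I (p := p) ha hN (by omega) (by omega)
  · apply I.sum
    intro i hi
    rw [mem_range] at hi
    exact (g_I (p := p) ha hN (m := i+1) (by omega) (by omega)).pow 2

lemma D_exp (s : ℕ) (hs : s ≤ 2*R) :
    I p 3 (D ((2*R+1:ℕ):ℚ) s - (1 + 1/2 * Aa (xs R) s - 3/8 * Qa (xs R) s + 1/8 * Aa (xs R) s ^ 2)) := by
  have hh := half_mem (p := p) ha hN
  induction s with
  | zero => simpa [D, Aa, Qa] using I.zero 3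
  | succ s ih =>
    have ih' := ih (by omega)
    obtain ⟨hA, hQ⟩ := Aa_I (p := p) ha hN s (by omega)
    have hx := g_I (p := p) ha hN (m := s+1) (by omega) (by omega)
    obtain ⟨-, hE⟩ := ex_exp hh hx
    have e1 : D ((2*R+1:ℕ):ℚ) (s+1) = D ((2*R+1:ℕ):ℚ) s *
        ((1 - g ((2*R+1:ℕ):ℚ) (s+1)) * ex (g ((2*R+1:ℕ):ℚ) (s+1))) := by
      unfold D; rw [prod_range_succ]
    have e2 : Aa (xs R) (s+1) = Aa (xs R) s + g ((2*R+1:ℕ):ℚ) (s+1) := by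
      unfold Aa; rw [sum_range_succ]; rfl
    have e3 : Qa (xs R) (s+1) = Qa (xs R) s + g ((2*R+1:ℕ):ℚ) (s+1) ^ 2 := by
      unfold Qa; rw [sum_range_succ]; rfl
    rw [e1, e2, e3]
    generalize D ((2*R+1:ℕ):ℚ) s = d at *
    generalize Aa (xs R) s = A at *
    generalize Qa (xs R) s = Q at *
    generalize g ((2*R+1:ℕ):ℚ) (s+1) = x at *
    generalize (1-x) * ex x = E at *
    have m3 : (3:ℚ) ∈ Zp p := by exact_mod_cast nat_mem 3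
    have mx := hx.mem
    have mA := hA.mem
    have mQ := hQ.mem
    have h2x : I p 2 (x*x) := hx.mul hx
    have hAx : I p 2 (A*x) := hA.mul hx
    have hAA : I p 2 (A*A) := hA.mul hA
    have e : d * E - (1 + 1/2 * (A + x) - 3/8 * (Q + x^2) + 1/8 * (A+x)^2) =
        (d - (1 + 1/2 * A - 3/8 * Q + 1/8 * A^2)) * E +
        (E - (1 + 1/2 * x - 1/4 * x^2)) * (1 + A * (2:ℚ)⁻¹ - Q * (3 * ((2:ℚ)⁻¹*(2:ℚ)⁻¹*(2:ℚ)⁻¹)) + (A*A) * ((2:ℚ)⁻¹*(2:ℚ)⁻¹*(2:ℚ)⁻¹)) +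
        ((x*x) * A * (-((2:ℚ)⁻¹*(2:ℚ)⁻¹*(2:ℚ)⁻¹)) - (Q * x) * (3 * ((2:ℚ)⁻¹*(2:ℚ)⁻¹*(2:ℚ)⁻¹*(2:ℚ)⁻¹)) +
          (A*A) * x * ((2:ℚ)⁻¹*(2:ℚ)⁻¹*(2:ℚ)⁻¹*(2:ℚ)⁻¹) +
          (x*x) * Q * (3 * ((2:ℚ)⁻¹*(2:ℚ)⁻¹*(2:ℚ)⁻¹*(2:ℚ)⁻¹*(2:ℚ)⁻¹)) - (x*x) * A * (A * ((2:ℚ)⁻¹*(2:ℚ)⁻¹*(2:ℚ)⁻¹*(2:ℚ)⁻¹*(2:ℚ)⁻¹))) := by ring
    have h3' : (2:ℚ)⁻¹*(2:ℚ)⁻¹*(2:ℚ)⁻¹ ∈ Zp p := (Zp p).mul_mem ((Zp p).mul_mem hh hh) hh
    have h4' : (2:ℚ)⁻¹*(2:ℚ)⁻¹*(2:ℚ)⁻¹*(2:ℚ)⁻¹ ∈ Zp p := (Zp p).mul_mem h3' hh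
    have h5' : (2:ℚ)⁻¹*(2:ℚ)⁻¹*(2:ℚ)⁻¹*(2:ℚ)⁻¹*(2:ℚ)⁻¹ ∈ Zp p := (Zp p).mul_mem h4' hh
    have mE : E ∈ Zp p := by
      have : E = (E - (1 + 1/2 * x - 1/4 * x^2)) + (1 + x * (2:ℚ)⁻¹ - x*x * ((2:ℚ)⁻¹*(2:ℚ)⁻¹)) := by ring
      rw [this]
      exact (Zp p).add_mem hE.mem ((Zp p).sub_mem ((Zp p).add_mem (Zp p).one_mem ((Zp p).mul_mem mx hh))
        ((Zp p).mul_mem ((Zp p).mul_mem mx mx) ((Zp p).mul_mem hh hh)))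
    rw [e]
    refine ((ih'.mul_mem mE).add (hE.mul_mem ?_)).add ?_
    · exact (Zp p).add_mem ((Zp p).sub_mem ((Zp p).add_mem (Zp p).one_mem ((Zp p).mul_mem mA hh))
        ((Zp p).mul_mem mQ ((Zp p).mul_mem m3 h3'))) ((Zp p).mul_mem ((Zp p).mul_mem mA mA) h3')
    · have t1 : I p 3 ((x*x) * A) := h2x.mul hA
      have t2 : I p 3 (Q*x) := hQ.mul hx
      have t3 : I p 3 (A*A*x) := hAA.mul hx
      have t4 : I p 3 ((x*x) * Q) := (h2x.mul hQ).mono (by norm_num)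
      exact ((((t1.mul_mem ((Zp p).neg_mem h3')).sub (t2.mul_mem ((Zp p).mul_mem m3 h4'))).add (t3.mul_mem h4')).add
        (t4.mul_mem ((Zp p).mul_mem m3 h5'))).sub (t1.mul_mem ((Zp p).mul_mem mA h5'))

lemma Mi_exp0 : I p 4 (Mi ((2*R+1:ℕ):ℚ) (2*R) -
    (∑ s ∈ range (2*R), xs R s * (1 + 3/2 * xs R s + 5/4 * xs R s ^ 2 + 1/2 * Aa (xs R) s + 3/4 * (xs R s * Aa (xs R) s) -
    3/8 * Qa (xs R) s + 1/8 * Aa (xs R) s ^ 2))) := by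
  have hh := half_mem (p := p) ha hN
  unfold Mi
  rw [← sum_sub_distrib]
  apply I.sum
  intro s hs
  rw [mem_range] at hs
  obtain ⟨hA, hQ⟩ := Aa_I (p := p) ha hN s (by omega)
  have hx := g_I (p := p) ha hN (m := s+1) (by omega) (by omega)
  obtain ⟨hE, -⟩ := ex_exp hh hx
  have hD := D_exp (p := p) ha hN s (by omega)
  have e0 : xs R s = g ((2*R+1:ℕ):ℚ) (s+1) := rfl
  rw [e0]
  generalize D ((2*R+1:ℕ):ℚ) s = d at *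
  generalize Aa (xs R) s = A at *
  generalize Qa (xs R) s = Q at *
  generalize g ((2*R+1:ℕ):ℚ) (s+1) = x at *
  generalize ex x = E at *
  have m3 : (3:ℚ) ∈ Zp p := by exact_mod_cast nat_mem 3
  have m5 : (5:ℚ) ∈ Zp p := by exact_mod_cast nat_mem 5
  have mx := hx.mem
  have mA := hA.mem
  have mQ := hQ.mem
  have h3' : (2:ℚ)⁻¹*(2:ℚ)⁻¹*(2:ℚ)⁻¹ ∈ Zp p := (Zp p).mul_mem ((Zp p).mul_mem hh hh) hh
  have h4' : (2:ℚ)⁻¹*(2:ℚ)⁻¹*(2:ℚ)⁻¹*(2:ℚ)⁻¹ ∈ Zp p := (Zp p).mul_mem h3' hh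
  have h5' : (2:ℚ)⁻¹*(2:ℚ)⁻¹*(2:ℚ)⁻¹*(2:ℚ)⁻¹*(2:ℚ)⁻¹ ∈ Zp p := (Zp p).mul_mem h4' hh
  have mE : E ∈ Zp p := by
    have : E = (E - (1 + 3/2 * x + 5/4 * x^2)) + (1 + x * (3 * (2:ℚ)⁻¹) + x*x * (5 * ((2:ℚ)⁻¹*(2:ℚ)⁻¹))) := by ring
    rw [this]
    exact (Zp p).add_mem hE.mem ((Zp p).add_mem ((Zp p).add_mem (Zp p).one_mem ((Zp p).mul_mem mx ((Zp p).mul_mem m3 hh)))
      ((Zp p).mul_mem ((Zp p).mul_mem mx mx) ((Zp p).mul_mem m5 ((Zp p).mul_mem hh hh))))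
  have e : x * (E * d) - x * (1 + 3/2 * x + 5/4 * x^2 + 1/2 * A + 3/4 * (x * A) - 3/8 * Q + 1/8 * A^2) =
      x * ((d - (1 + 1/2 * A - 3/8 * Q + 1/8 * A^2)) * E +
        (E - (1 + 3/2 * x + 5/4 * x^2)) * (1 + A * (2:ℚ)⁻¹ - Q * (3 * ((2:ℚ)⁻¹*(2:ℚ)⁻¹*(2:ℚ)⁻¹)) + (A*A) * ((2:ℚ)⁻¹*(2:ℚ)⁻¹*(2:ℚ)⁻¹)) +
        ((x*x) * A * (5 * ((2:ℚ)⁻¹*(2:ℚ)⁻¹*(2:ℚ)⁻¹)) - (Q * x) * (3 * 3 * ((2:ℚ)⁻¹*(2:ℚ)⁻¹*(2:ℚ)⁻¹*(2:ℚ)⁻¹)) +
          (A*A) * x * (3 * ((2:ℚ)⁻¹*(2:ℚ)⁻¹*(2:ℚ)⁻¹*(2:ℚ)⁻¹)) -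
          (x*x) * Q * (5 * 3 * ((2:ℚ)⁻¹*(2:ℚ)⁻¹*(2:ℚ)⁻¹*(2:ℚ)⁻¹*(2:ℚ)⁻¹)) +
          (x*x) * A * (5 * (A * ((2:ℚ)⁻¹*(2:ℚ)⁻¹*(2:ℚ)⁻¹*(2:ℚ)⁻¹*(2:ℚ)⁻¹))))) := by ring
  rw [e]
  apply hx.mul (k := 3)
  refine ((hD.mul_mem mE).add (hE.mul_mem ?_)).add ?_
  · exact (Zp p).add_mem ((Zp p).sub_mem ((Zp p).add_mem (Zp p).one_mem ((Zp p).mul_mem mA hh))
      ((Zp p).mul_mem mQ ((Zp p).mul_mem m3 h3'))) ((Zp p).mul_mem ((Zp p).mul_mem mA mA) h3')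
  · have t1 : I p 3 ((x*x) * A) := (hx.mul hx).mul hA
    have t2 : I p 3 (Q*x) := hQ.mul hx
    have t3 : I p 3 (A*A*x) := (hA.mul hA).mul hx
    have t4 : I p 3 ((x*x) * Q) := ((hx.mul hx).mul hQ).mono (by norm_num)
    exact ((((t1.mul_mem ((Zp p).mul_mem m5 h3')).sub (t2.mul_mem ((Zp p).mul_mem ((Zp p).mul_mem m3 m3) h4'))).add
      (t3.mul_mem ((Zp p).mul_mem m3 h4'))).sub
      (t4.mul_mem ((Zp p).mul_mem ((Zp p).mul_mem m5 m3) h5'))).add (t1.mul_mem ((Zp p).mul_mem m5 ((Zp p).mul_mem mA h5')))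

/-- the double sum -/
lemma S12_K : I p 4 (Kp ((2*R+1:ℕ):ℚ) R - Ba (xs R) (2*R)) := by
  have e : Ba (xs R) (2*R) = ∑ r ∈ Icc 1 (2*R), ∑ s ∈ Icc 1 (2*R),
      if r < s then g ((2*R+1:ℕ):ℚ) r * g ((2*R+1:ℕ):ℚ) s ^ 2 else 0 := by
    rw [sum_comm]
    unfold Ba
    rw [sum_shift]
    apply sum_congr rfl
    intro s hs
    rw [mem_range] at hs
    rw [sum_shift, ← sum_filter]
    have : filter (fun r => r + 1 < s + 1) (range (2*R)) = range s := by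
      ext m; simp only [mem_filter, mem_range]; omega
    rw [this]
    unfold Aa xs
    rw [mul_sum]
    apply sum_congr rfl
    intro i _
    ring
  have e2 : Kp ((2*R+1:ℕ):ℚ) R = ∑ r ∈ Icc 1 (2*R), ∑ s ∈ Icc 1 (2*R),
      if r < s then g ((2*R+1:ℕ):ℚ) r * g ((2*R+1:ℕ):ℚ) (2*R+1-s) ^ 2 else 0 := by
    unfold Kp
    apply sum_congr rfl
    intro r hr
    rw [mem_Icc] at hr
    apply sum_nbij' (fun s => 2*R+1-s) (fun s => 2*R+1-s)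
    · intro m hm; simp only [mem_Icc] at hm ⊢; omega
    · intro m hm; simp only [mem_Icc] at hm ⊢; omega
    · intro m hm; simp only [mem_Icc] at hm; omega
    · intro m hm; simp only [mem_Icc] at hm; omega
    · intro m hm
      simp only [mem_Icc] at hm
      rw [show 2*R+1-(2*R+1-m) = m by omega]
      by_cases h : r + m ≤ 2*R
      · rw [if_pos h, if_pos (by omega)]
      · rw [if_neg h, if_neg (by omega)]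
  rw [e, e2, ← sum_sub_distrib]
  apply I.sum
  intro r hr
  rw [← sum_sub_distrib]
  apply I.sum
  intro s hs
  rw [mem_Icc] at hr hs
  by_cases h : r < s
  · rw [if_pos h, if_pos h]
    exact (trip (p := p) ha hN (r := r) (s := s) (by omega) (by omega) (by omega) (by omega)).2.1
  · rw [if_neg h, if_neg h, sub_zero]
    exact I.zero 4

lemma S12_val (h5 : 5 ≤ p) : I p 4 (2 * Ba (xs R) (2*R) + HH ((2*R+1:ℕ):ℚ) R) := by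
  have n3 : ¬ p ∣ 3 := fun h => absurd (Nat.le_of_dvd (by norm_num) h) (by omega)
  have k0 := S12_K (p := p) ha hN
  have k1 := Kp1 (p := p) ha hN
  have k2 := Kp2 (p := p) ha hN
  have km := KM ((2*R+1:ℕ):ℚ) R
  have xyh := XYH ((2*R+1:ℕ):ℚ) R
  have kid := Kid ((2*R+1:ℕ):ℚ) R
  generalize Ba (xs R) (2*R) = B at *
  generalize Kp ((2*R+1:ℕ):ℚ) R = K' at *
  generalize KK ((2*R+1:ℕ):ℚ) R = K at *
  generalize MM ((2*R+1:ℕ):ℚ) R = M at *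
  generalize XX ((2*R+1:ℕ):ℚ) R = X at *
  generalize YY ((2*R+1:ℕ):ℚ) R = Y at *
  generalize LL ((2*R+1:ℕ):ℚ) R * SS ((2*R+1:ℕ):ℚ) R = P at *
  generalize HH ((2*R+1:ℕ):ℚ) R = H at *
  apply I.cancel n3
  have e : ((3:ℕ):ℚ) * (2 * B + H) = 8 * (K' - (1/8) * (K + X - Y - M)) - 2 * (K' - (P + X - Y)) - 6 * (K' - B) := by
    push_cast
    linear_combination (-1) * km + 3 * xyh + 2 * kid
  rw [e]
  have m (n : ℕ) : ((n:ℕ):ℚ) ∈ Zp p := nat_mem n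
  exact ((I.mem_mul (by exact_mod_cast m 8) k2).sub (I.mem_mul (by exact_mod_cast m 2) k1)).sub
    (I.mem_mul (by exact_mod_cast m 6) k0)

lemma main8 (h5 : 5 ≤ p) : I p 4 (8 * ((-1)^R * TT R - 5) + HH ((2*R+1:ℕ):ℚ) R) := by
  have n3 : ¬ p ∣ 3 := fun h => absurd (Nat.le_of_dvd (by norm_num) h) (by omega)
  have n2 : ¬ p ∣ 2 := fun h => absurd (Nat.le_of_dvd (by norm_num) h) (by omega)
  have hh := half_mem (p := p) ha hN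
  have h3i : (3:ℚ)⁻¹ ∈ Zp p := by exact_mod_cast inv_nat_mem n3
  have h3 := H3 (p := p) ha hN
  have sh := SH (p := p) ha hN
  have hZS := Z3 (p := p) ha hN h5
  have hs := S1_exp (p := p) ha hN
  have hD := D_full (p := p) ha hN h5
  have hb := bp_exp (p := p) ha hN
  have hM := Mi_exp0 (p := p) ha hN
  have hQ := Pool.Agent.R856.TK.QQ_exp (p := p) ha hN
  have hC := S3_I (p := p) ha hN
  have hB := S12_val (p := p) ha hN h5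
  rw [id4] at hM
  have a1 : Aa (xs R) (2*R) = S1 R := by unfold Aa S1; rw [sum_shift]; rfl
  have a2 : Qa (xs R) (2*R) = ∑ m ∈ Icc 1 (2*R), g ((2*R+1:ℕ):ℚ) m ^ 2 := by unfold Qa; rw [sum_shift]; rfl
  have a3 : Ca (xs R) (2*R) = ∑ m ∈ Icc 1 (2*R), g ((2*R+1:ℕ):ℚ) m ^ 3 := by unfold Ca; rw [sum_shift]; rfl
  rw [a1, a2, a3] at hM
  have hT : (-1)^R * TT R = bp R ^ 3 * (6 * D ((2*R+1:ℕ):ℚ) (2*R) + Mi ((2*R+1:ℕ):ℚ) (2*R) - 1) := by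
    have h1 : ((-1:ℚ)^R) * (-1)^R = 1 := by rw [← mul_pow]; norm_num
    rw [TT_eq, tR_eq]
    linear_combination (bp R ^ 3 * (6 * D ((2*R+1:ℕ):ℚ) (2*R) + Mi ((2*R+1:ℕ):ℚ) (2*R) - 1)) * h1
  rw [hT]
  obtain ⟨hZ, hS⟩ := hZS
  generalize D ((2*R+1:ℕ):ℚ) (2*R) = d at *
  generalize Mi ((2*R+1:ℕ):ℚ) (2*R) = m at *
  generalize ∑ m ∈ Icc 1 (2*R), g ((2*R+1:ℕ):ℚ) m ^ 2 = Q at *
  generalize ∑ m ∈ Icc 1 (2*R), g ((2*R+1:ℕ):ℚ) m ^ 3 = C at *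
  generalize bp R = b at *
  generalize Ba (xs R) (2*R) = B at *
  generalize S1 R = S at *
  generalize HH ((2*R+1:ℕ):ℚ) R = H at *
  generalize hz : SS ((2*R+1:ℕ):ℚ) R = s2 at *
  have mm (n : ℕ) : ((n:ℕ):ℚ) ∈ Zp p := nat_mem n
  have q4 : (1/4 : ℚ) ∈ Zp p := by
    have : (1/4:ℚ) = (2:ℚ)⁻¹ * (2:ℚ)⁻¹ := by norm_num
    rw [this]; exact (Zp p).mul_mem hh hh
  have q8 : (1/8 : ℚ) ∈ Zp p := by
    have : (1/8:ℚ) = (2:ℚ)⁻¹ * (2:ℚ)⁻¹ * (2:ℚ)⁻¹ := by norm_num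
    rw [this]; exact (Zp p).mul_mem ((Zp p).mul_mem hh hh) hh
  have q24 : (1/24 : ℚ) ∈ Zp p := by
    have : (1/24:ℚ) = (2:ℚ)⁻¹ * (2:ℚ)⁻¹ * (2:ℚ)⁻¹ * (3:ℚ)⁻¹ := by norm_num
    rw [this]; exact (Zp p).mul_mem ((Zp p).mul_mem ((Zp p).mul_mem hh hh) hh) h3i
  -- cube of the central factor
  obtain ⟨e, he⟩ : ∃ e, e = b - 1 := ⟨_, rfl⟩
  have he3 : I p 3 e := by
    have : e = (b - (1 + 1/4 * (s2 + H))) + (1/4) * (s2 + H) := by rw [he]; ring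
    rw [this]
    exact (hb.mono (by norm_num)).add (I.mem_mul q4 hZ)
  have hb3 : I p 4 (b^3 - (1 + (3:ℕ) * (1/4) * (s2 + H))) := by
    have : b^3 - (1 + (3:ℕ) * (1/4) * (s2 + H)) = (3:ℕ) * (b - (1 + 1/4 * (s2 + H))) + (e*e) * ((3:ℕ) + e) := by
      rw [he]; push_cast; ring
    rw [this]
    exact (I.mem_mul (mm 3) hb).add (((he3.mul he3).mul_mem ((Zp p).add_mem (mm 3) he3.mem)).mono (by norm_num))
  -- the correction sum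
  have hQ3 : I p 3 Q := by
    have : Q = (Q - (2 * s2 + 2 * H)) + (2:ℕ) * (s2 + H) := by push_cast; ring
    rw [this]
    exact (hQ.mono (by norm_num)).add (I.mem_mul (mm 2) hZ)
  have hB3 : I p 3 B := by
    apply I.cancel n2
    have : ((2:ℕ):ℚ) * B = (2 * B + H) - H := by push_cast; ring
    rw [this]
    exact (hB.mono (by norm_num)).sub h3
  have hm : I p 4 (m - (S + (5:ℕ) * (1/4) * Q + B)) := by
    have : m - (S + (5:ℕ) * (1/4) * Q + B) =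
        (m - (S + 5/4 * Q + B + (5/4 + 3/8 - 1/24) * C + 1/4 * S^2 - 3/8 * (S * Q) + 1/24 * S^3)) +
        C * ((5:ℕ) * (1/4) + (3:ℕ) * (1/8) - 1/24) + (S*S) * (1/4) - (S*Q) * ((3:ℕ) * (1/8)) + (S*S) * (S * (1/24)) := by
      push_cast; ring
    rw [this]
    have t1 : I p 4 (S*S) := (hS.mul hS).mono (by norm_num)
    have t2 : I p 4 (S*Q) := (hS.mul hQ3).mono (by norm_num)
    exact (((hM.add (hC.mul_mem ((Zp p).sub_mem ((Zp p).add_mem ((Zp p).mul_mem (mm 5) q4) ((Zp p).mul_mem (mm 3) q8)) q24))).add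
      (t1.mul_mem q4)).sub (t2.mul_mem ((Zp p).mul_mem (mm 3) q8))).add (t1.mul_mem ((Zp p).mul_mem hS.mem q24))
  obtain ⟨W, hW⟩ : ∃ W, W = 6 * d + m - 1 := ⟨_, rfl⟩
  rw [← hW]
  have hW4 : I p 4 (W - (5 - (6:ℕ) * (s2 + H) + B)) := by
    have : W - (5 - (6:ℕ) * (s2 + H) + B) = (6:ℕ) * (d - (1 + 5/4 * S)) + (m - (S + (5:ℕ) * (1/4) * Q + B)) +
        (5:ℕ) * (1/4) * (Q - (2 * s2 + 2 * H)) + ((17:ℕ) * (2:ℚ)⁻¹) * (S + (s2 + H)) := by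
      rw [hW]; push_cast; ring
    rw [this]
    exact (((I.mem_mul (mm 6) hD).add hm).add (I.mem_mul ((Zp p).mul_mem (mm 5) q4) hQ)).add
      (I.mem_mul ((Zp p).mul_mem (mm 17) hh) hs)
  have hW3 : I p 3 (W - (5:ℕ)) := by
    have : W - (5:ℕ) = (W - (5 - (6:ℕ) * (s2 + H) + B)) - (6:ℕ) * (s2 + H) + B := by push_cast; ring
    rw [this]
    exact ((hW4.mono (by norm_num)).sub (I.mem_mul (mm 6) hZ)).add hB3
  have hc3 : I p 3 (b^3 - 1) := by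
    have : b^3 - 1 = (b^3 - (1 + (3:ℕ) * (1/4) * (s2 + H))) + (3:ℕ) * (1/4) * (s2 + H) := by ring
    rw [this]
    exact (hb3.mono (by norm_num)).add (I.mem_mul ((Zp p).mul_mem (mm 3) q4) hZ)
  have hfin : I p 4 (b^3 * W - (5 - (9:ℕ) * (1/4) * (s2 + H) + B)) := by
    have : b^3 * W - (5 - (9:ℕ) * (1/4) * (s2 + H) + B) = (b^3 - 1) * (W - (5:ℕ)) +
        (5:ℕ) * (b^3 - (1 + (3:ℕ) * (1/4) * (s2 + H))) + (W - (5 - (6:ℕ) * (s2 + H) + B)) := by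
      push_cast; ring
    rw [this]
    exact (((hc3.mul hW3).mono (by norm_num)).add (I.mem_mul (mm 5) hb3)).add hW4
  have : 8 * (b^3 * W - 5) + H = (8:ℕ) * (b^3 * W - (5 - (9:ℕ) * (1/4) * (s2 + H) + B)) -
      (3:ℕ) * (6 * s2 + 7 * H) + (4:ℕ) * (2 * B + H) := by
    push_cast; ring
  rw [this]
  exact ((I.mem_mul (mm 8) hfin).sub (I.mem_mul (mm 3) sh)).add (I.mem_mul (mm 4) hB)

end Pool.Agent.R856.FT
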