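import Pool.Agent.R856.FT4

set_option autoImplicit false

/-!
Final form of the congruence modulo `p^4`.
-/

namespace Pool.Agent.R856.FT

open Finset Pool.Agent.Helper857.Pad
open Pool.Agent.Helper857.W (g SS HH SH classred)

variable {p : ℕ} [hp : Fact p.Prime]

/-- harmonic number -/
noncomputable def Hn (n : ℕ) : ℚ := ∑ j ∈ Icc 1 n, 1/(j:ℚ)

lemma harm_val {r : ℕ} (hr : 2*r+1 = p) (h5 : 5 ≤ p) :
    I p 4 (6 * ((p:ℚ) * Hn (p-1)) - (p:ℚ)^3 * ∑ j ∈ Icc 1 ((p-1)/2), 1/(j:ℚ)^3) := by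
  have hN : 2*r+1 = p^1 := by rw [pow_one]; exact hr
  have h1 := S1_exp (p := p) le_rfl hN
  have sh := SH (p := p) le_rfl hN
  have cl := classred (p := p) le_rfl hN (by omega)
  have e : S1 r = (p:ℚ) * Hn (p-1) := by
    unfold S1 Hn
    rw [mul_sum, show 2*r = p - 1 by omega]
    apply sum_congr rfl
    intro m _
    unfold g
    rw [show p - 1 + 1 = p by omega]
    ring
  rw [← e]
  have e2 : 6 * S1 r - (p:ℚ)^3 * ∑ j ∈ Icc 1 ((p-1)/2), 1/(j:ℚ)^3 =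
      (6:ℕ) * (S1 r + (SS ((2*r+1:ℕ):ℚ) r + HH ((2*r+1:ℕ):ℚ) r)) - (6 * SS ((2*r+1:ℕ):ℚ) r + 7 * HH ((2*r+1:ℕ):ℚ) r) +
      (HH ((2*r+1:ℕ):ℚ) r - (p:ℚ)^3 * ∑ j ∈ Icc 1 ((p-1)/2), 1/(j:ℚ)^3) := by push_cast; ring
  rw [e2]
  exact ((I.mem_mul (nat_mem 6) h1).sub sh).add cl

lemma final {a R : ℕ} (ha : 1 ≤ a) (hN : 2*R+1 = p^a) (h5 : 5 ≤ p) :
    I p 4 (TT R - (-1)^R * (5 - 3/4 * ((p:ℚ) * Hn (p-1)))) := by
  obtain ⟨r, hr⟩ : ∃ r, p = 2*r+1 := (hp.out.odd_of_ne_two (by omega))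
  have n2 : ¬ p ∣ 2 := fun h => absurd (Nat.le_of_dvd (by norm_num) h) (by omega)
  have n8 : ¬ p ∣ 8 := by
    intro h
    rw [show 8 = 2^3 by norm_num] at h
    exact n2 (hp.out.dvd_of_dvd_pow h)
  have h1 := harm_val (p := p) hr.symm h5
  have h2 := main8 (p := p) ha hN h5
  have h3 := classred (p := p) ha hN (by omega)
  have hs : ((-1:ℚ)^R) * (-1)^R = 1 := by rw [← mul_pow]; norm_num
  apply I.cancel n8
  have e : ((8:ℕ):ℚ) * (TT R - (-1)^R * (5 - 3/4 * ((p:ℚ) * Hn (p-1)))) =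
      ((-1:ℤ)^R : ℤ) * ((8 * ((-1)^R * TT R - 5) + HH ((2*R+1:ℕ):ℚ) R) -
        (HH ((2*R+1:ℕ):ℚ) R - (p:ℚ)^3 * ∑ j ∈ Icc 1 ((p-1)/2), 1/(j:ℚ)^3) +
        (6 * ((p:ℚ) * Hn (p-1)) - (p:ℚ)^3 * ∑ j ∈ Icc 1 ((p-1)/2), 1/(j:ℚ)^3)) := by
    push_cast
    linear_combination (-8 * TT R) * hs
  rw [e]
  exact I.mem_mul (int_mem _) ((h2.sub h3).add h1)

end Pool.Agent.R856.FT
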