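import Pool.Agent.R856.FK5

set_option autoImplicit false

/-!
A family of Gauss series at `1/4` and its closed forms.
-/

namespace Pool.Agent.R856.GM

open Finset

/-- terms of the Gauss series with parameters `(-3v, v+1; 1/2-2v)` at `1/4` -/
def T (v : ℚ) (k : ℕ) : ℚ := ∏ i ∈ range k, ((-3*v+i)*(v+1+i)/(4*(1/2-2*v+i)*(1+i)))

lemma T_zero (v : ℚ) : T v 0 = 1 := by unfold T; simp

lemma T_succ (v : ℚ) (k : ℕ) : T v (k+1) = T v k * ((-3*v+k)*(v+1+k)/(4*(1/2-2*v+k)*(1+k))) := by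
  unfold T; rw [prod_range_succ]

/-- auxiliary sequence -/
def X (v : ℚ) (k : ℕ) : ℚ := (v+1)*(v+2)*(v+3)/(384*(1/2-2*v)*(3/2-2*v)*(5/2-2*v)) *
  ∏ i ∈ range k, ((i-3*v)*(i+v+4)/(4*(i+7/2-2*v)*(i+4)))

lemma X_zero (v : ℚ) : X v 0 = (v+1)*(v+2)*(v+3)/(384*(1/2-2*v)*(3/2-2*v)*(5/2-2*v)) := by unfold X; simp

lemma X_succ (v : ℚ) (k : ℕ) : X v (k+1) = X v k * ((k-3*v)*(k+v+4)/(4*(k+7/2-2*v)*(k+4))) := by
  unfold X; rw [prod_range_succ]; ring

section

variable (v : ℚ) (hc : ∀ i : ℕ, -3/2 - 2*v + i ≠ 0)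
include hc

lemma c0 : 1/2-2*v ≠ 0 := by have := hc 2; push_cast at this; intro h; apply this; linear_combination h
lemma c1 : 3/2-2*v ≠ 0 := by have := hc 3; push_cast at this; intro h; apply this; linear_combination h
lemma c2 : 5/2-2*v ≠ 0 := by have := hc 4; push_cast at this; intro h; apply this; linear_combination h
lemma cm1 : -1/2-2*v ≠ 0 := by have := hc 1; push_cast at this; intro h; apply this; linear_combination h
lemma cm2 : -3/2-2*v ≠ 0 := by have := hc 0; push_cast at this; intro h; apply this; linear_combination h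

lemma T_X (k : ℕ) : T v (k+3) = (k-3*v)*(k-3*v+1)*(k-3*v+2)*X v k := by
  have d0 := c0 v hc
  have d1 := c1 v hc
  have d2 := c2 v hc
  induction k with
  | zero =>
    rw [T_succ, T_succ, T_succ, T_zero, X_zero]
    push_cast
    have e0 : 1/2-2*v+0 = 1/2-2*v := by ring
    have e1 : 1/2-2*v+1 = 3/2-2*v := by ring
    have e2 : 1/2-2*v+2 = 5/2-2*v := by ring
    have e2' : 1/2-2*v+(1+1) = 5/2-2*v := by ring
    try rw [e0]
    try rw [e1]
    try rw [e2]
    try rw [e2']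
    generalize 1/2-2*v = A at *
    generalize 3/2-2*v = B at *
    generalize 5/2-2*v = D at *
    field_simp
    ring
  | succ k ih =>
    have h3 := hc (k+5)
    push_cast at h3
    have d3 : (k:ℚ)+7/2-2*v ≠ 0 := by intro h; apply h3; linear_combination h
    have k4 : (k:ℚ)+4 ≠ 0 := by positivity
    rw [show k+1+3 = (k+3)+1 by ring, T_succ, ih, X_succ]
    push_cast
    have e1 : 1/2-2*v+((k:ℚ)+3) = k+7/2-2*v := by ring
    have e2 : 1+((k:ℚ)+3) = k+4 := by ring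
    rw [e1, e2]
    generalize (k:ℚ)+7/2-2*v = D at *
    generalize X v k = Y at *
    generalize (k:ℚ) = K at *
    field_simp
    ring

lemma T_X' (k : ℕ) : 2*(4*v+1)*(4*v+3)*T (v+1) (k+3) = -24*(3*v+2)*(3*v+1)*(v+4+k)*(k+3/2-2*v)*(k+5/2-2*v)*X v k := by
  have d0 := c0 v hc
  have d1 := c1 v hc
  have d2 := c2 v hc
  have dm1 := cm1 v hc
  have dm2 := cm2 v hc
  induction k with
  | zero =>
    rw [T_succ, T_succ, T_succ, T_zero, X_zero]
    push_cast
    have e0 : 1/2-2*(v+1)+0 = -3/2-2*v := by ring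
    have e1 : 1/2-2*(v+1)+1 = -1/2-2*v := by ring
    have e2 : 1/2-2*(v+1)+2 = 1/2-2*v := by ring
    have e2' : 1/2-2*(v+1)+(1+1) = 1/2-2*v := by ring
    try rw [e0]
    try rw [e1]
    try rw [e2]
    try rw [e2']
    have g1 : 4*v+1 = -2*(-1/2-2*v) := by ring
    have g2 : 4*v+3 = -2*(-3/2-2*v) := by ring
    have g3 : 0+3/2-2*v = 3/2-2*v := by ring
    have g4 : 0+5/2-2*v = 5/2-2*v := by ring
    rw [g1, g2, g3, g4]
    generalize 1/2-2*v = A at *
    generalize 3/2-2*v = B at *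
    generalize 5/2-2*v = D at *
    generalize -1/2-2*v = E at *
    generalize -3/2-2*v = F at *
    field_simp
    ring
  | succ k ih =>
    have h3 := hc (k+5)
    have h4 := hc (k+3)
    push_cast at h3 h4
    have d3 : (k:ℚ)+7/2-2*v ≠ 0 := by intro h; apply h3; linear_combination h
    have d4 : (k:ℚ)+3/2-2*v ≠ 0 := by intro h; apply h4; linear_combination h
    have k4 : (k:ℚ)+4 ≠ 0 := by positivity
    rw [show k+1+3 = (k+3)+1 by ring, T_succ, X_succ, ← mul_assoc, ih]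
    push_cast
    have e1 : 1/2-2*(v+1)+((k:ℚ)+3) = k+3/2-2*v := by ring
    have e2 : 1+((k:ℚ)+3) = k+4 := by ring
    have e3 : (k:ℚ)+1+5/2-2*v = k+7/2-2*v := by ring
    have e4 : (k:ℚ)+1+3/2-2*v = k+5/2-2*v := by ring
    rw [e1, e2, e3, e4]
    generalize (k:ℚ)+7/2-2*v = D at *
    generalize (k:ℚ)+3/2-2*v = D2 at *
    generalize (k:ℚ)+5/2-2*v = D3 at *
    generalize X v k = Y at *
    generalize (k:ℚ) = K at *
    field_simp
    ring

/-- the telescoped sum -/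
lemma tele (N : ℕ) : ∑ k ∈ range (N+3), (2*(4*v+1)*(4*v+3)*T (v+1) k - 3*(6*v+5)*(3*v+1)*T v k) =
    (N+5/2-2*v)*(N+3)*(4*(3*v+1)*(3*(10*v+7)*(N+3)-(66*v^2+101*v+39)))*X v N := by
  have d0 := c0 v hc
  have d1 := c1 v hc
  have d2 := c2 v hc
  have dm1 := cm1 v hc
  have dm2 := cm2 v hc
  induction N with
  | zero =>
    have t1 : ∀ w : ℚ, T w 1 = (-3*w)*(w+1)/(4*(1/2-2*w)) := by
      intro w; rw [show 1 = 0+1 by rfl, T_succ, T_zero]; push_cast; ring_nf
    have t2 : ∀ w : ℚ, T w 2 = (-3*w)*(w+1)/(4*(1/2-2*w)) * ((-3*w+1)*(w+2)/(8*(1/2-2*w+1))) := by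
      intro w; rw [show 2 = 1+1 by rfl, T_succ, t1]; push_cast; ring_nf
    rw [sum_range_succ, sum_range_succ, sum_range_one, t1, t1, t2, t2, T_zero, T_zero, X_zero]
    push_cast
    have e0 : 1/2-2*(v+1)= -3/2-2*v := by ring
    have e1 : -3/2-2*v+1 = -1/2-2*v := by ring
    have e3 : 1/2-2*v+1 = 3/2-2*v := by ring
    rw [e0, e1, e3]
    have g1 : 4*v+1 = -2*(-1/2-2*v) := by ring
    have g2 : 4*v+3 = -2*(-3/2-2*v) := by ring
    have g4 : 0+5/2-2*v = 5/2-2*v := by ring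
    rw [g1, g2, g4]
    obtain ⟨A, hA⟩ : ∃ A, A = 1/2-2*v := ⟨_, rfl⟩
    have f1 : -1/2-2*v = A - 1 := by rw [hA]; ring
    have f2 : -3/2-2*v = A - 2 := by rw [hA]; ring
    have f3 : 3/2-2*v = A + 1 := by rw [hA]; ring
    have f4 : 5/2-2*v = A + 2 := by rw [hA]; ring
    rw [f1] at dm1
    rw [f2] at dm2
    rw [f3] at d1
    rw [f4] at d2
    rw [f1, f2, f3, f4]
    rw [← hA] at d0 ⊢
    have hv : v = 1/4 - A/2 := by rw [hA]; ring
    rw [hv]
    field_simp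
    ring
  | succ N ih =>
    have h3 := hc (N+5)
    push_cast at h3
    have d3 : (N:ℚ)+7/2-2*v ≠ 0 := by intro h; apply h3; linear_combination h
    have k4 : (N:ℚ)+4 ≠ 0 := by positivity
    rw [show N+1+3 = (N+3)+1 by ring, sum_range_succ, ih, T_X' v hc N, T_X v hc N, X_succ]
    push_cast
    have e3 : (N:ℚ)+1+5/2-2*v = N+7/2-2*v := by ring
    rw [e3]
    have e5 : ((N:ℚ)+7/2-2*v)*(N+1+3)*(4*(3*v+1)*(3*(10*v+7)*(N+1+3)-(66*v^2+101*v+39)))*(X v N * ((N-3*v)*(N+v+4)/(4*(N+7/2-2*v)*(N+4)))) =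
      ((3*v+1)*(3*(10*v+7)*(N+4)-(66*v^2+101*v+39)))*(X v N * ((N-3*v)*(N+v+4))) := by
      generalize (N:ℚ)+7/2-2*v = D at *
      generalize X v N = Y at *
      generalize (N:ℚ) = K at *
      field_simp
      ring
    rw [e5]
    ring

end

end Pool.Agent.R856.GM
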