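import Pool.Agent.R856.GM1

set_option autoImplicit false

/-!
Closed forms of two terminating series of the family at `1/4`.
-/

namespace Pool.Agent.R856.GM

open Finset

lemma T_top (v : ℚ) (M : ℕ) (h : (-3*v+(M:ℚ)) * (v+1+M) = 0) (k : ℕ) (hk : M < k) : T v k = 0 := by
  unfold T
  apply prod_eq_zero (mem_range.mpr hk)
  rw [h]; simp

lemma T_ext (v : ℚ) (M : ℕ) (h : (-3*v+(M:ℚ)) * (v+1+M) = 0) (N : ℕ) (hN : M < N) :
    ∑ k ∈ range N, T v k = ∑ k ∈ range (M+1), T v k := by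
  symm
  apply sum_subset
  · intro x hx; rw [mem_range] at hx ⊢; omega
  · intro x _ hx
    rw [mem_range, not_lt] at hx
    exact T_top v M h x (by omega)

def F1 (r : ℕ) : ℚ := ∑ k ∈ range (3*r+2), T ((r:ℚ)+1/3) k
def F2 (M : ℕ) : ℚ := ∑ k ∈ range (M+1), T (-((M:ℚ)+1)) k

lemma hc1 (r : ℕ) (i : ℕ) : -3/2 - 2*((r:ℚ)+1/3) + i ≠ 0 := by
  intro h
  have h2 : ((6*(i:ℤ) - 12*r - 13 : ℤ) : ℚ) = 0 := by push_cast; linear_combination 6*h
  have h3 : (6*(i:ℤ) - 12*r - 13 : ℤ) = 0 := by exact_mod_cast h2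
  omega

lemma hc2 (M : ℕ) (i : ℕ) : -3/2 - 2*(-((M:ℚ)+1)) + i ≠ 0 := by
  have : -3/2 - 2*(-((M:ℚ)+1)) + i = 2*M + 1/2 + i := by ring
  rw [this]; positivity

lemma F1_rec (r : ℕ) : 2*(4*(r:ℚ)+7/3)*(4*r+13/3) * F1 (r+1) = 3*(6*r+7)*(3*r+2) * F1 r := by
  have h := tele ((r:ℚ)+1/3) (hc1 r) (3*r+2)
  have hX : X ((r:ℚ)+1/3) (3*r+2) = 0 := by
    unfold X
    rw [prod_eq_zero (i := 3*r+1) (mem_range.mpr (by omega)) (by push_cast; ring), mul_zero]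
  rw [hX, mul_zero, sum_sub_distrib, ← mul_sum, ← mul_sum, T_ext ((r:ℚ)+1/3) (3*r+1) (by push_cast; ring) _ (by omega), show 3*r+1+1 = 3*r+2 by ring] at h
  have e : ((r:ℚ)+1/3)+1 = ((r+1 : ℕ) : ℚ) + 1/3 := by push_cast; ring
  rw [e] at h
  unfold F1
  have e2 : 3*(r+1)+2 = 3*r+2+3 := by ring
  rw [e2]
  linear_combination h

lemma F2_rec (M : ℕ) : 3*(6*(M:ℚ)+7)*(3*M+5) * F2 (M+1) = 2*(4*M+5)*(4*M+7) * F2 M := by
  have h := tele (-(((M+1 : ℕ):ℚ)+1)) (hc2 (M+1)) (M+1)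
  have hX : X (-(((M+1 : ℕ):ℚ)+1)) (M+1) = 0 := by
    unfold X
    rcases Nat.lt_or_ge M 2 with hM | hM
    · interval_cases M
      · push_cast; norm_num
      · push_cast; norm_num
    · rw [prod_eq_zero (i := M-2) (mem_range.mpr (by omega)) (by
        have : ((M-2 : ℕ) : ℚ) = (M:ℚ) - 2 := by rw [Nat.cast_sub hM]; norm_num
        rw [this]; push_cast; ring), mul_zero]
  have e : -(((M+1 : ℕ):ℚ)+1)+1 = -((M:ℚ)+1) := by push_cast; ring
  rw [hX, mul_zero, sum_sub_distrib, ← mul_sum, ← mul_sum, e, T_ext (-((M:ℚ)+1)) M (by push_cast; ring) _ (by omega),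
    T_ext (-(((M+1 : ℕ):ℚ)+1)) (M+1) (by push_cast; ring) _ (by omega)] at h
  unfold F2
  push_cast at h ⊢
  linear_combination (-1)*h

theorem F1_eq (r : ℕ) : F1 r * (∏ i ∈ range (2*r), ((7:ℚ)/6+i)) * 16^r = 3 * 27^r * ∏ i ∈ range (2*r), ((4:ℚ)/3+i) := by
  induction r with
  | zero =>
    unfold F1
    rw [sum_range_succ, sum_range_one, T_succ, T_zero]
    norm_num
  | succ r ih =>
    have h := F1_rec r
    rw [show 2*(r+1) = 2*r+1+1 by ring, prod_range_succ, prod_range_succ, prod_range_succ, prod_range_succ, pow_succ, pow_succ]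
    generalize hP : ∏ i ∈ range (2*r), ((7:ℚ)/6+i) = P at *
    generalize hQ : ∏ i ∈ range (2*r), ((4:ℚ)/3+i) = Q at *
    push_cast
    have c1 : (4*(r:ℚ)+7/3) ≠ 0 := by positivity
    have c2 : (4*(r:ℚ)+13/3) ≠ 0 := by positivity
    apply mul_left_cancel₀ (mul_ne_zero c1 c2)
    linear_combination (P * (7/6+2*r)*(7/6+(2*r+1)) * 16^r * 8) * h + (24*(6*r+7)*(3*r+2)*(7/6+2*r)*(7/6+(2*r+1))) * ih

theorem F2_eq (M : ℕ) : F2 M * (∏ i ∈ range (2*M), ((7:ℚ)/3+i)) * 27^M = 16^M * ∏ i ∈ range (2*M), ((5:ℚ)/2+i) := by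
  induction M with
  | zero =>
    unfold F2
    rw [sum_range_one, T_zero]
    norm_num
  | succ M ih =>
    have h := F2_rec M
    rw [show 2*(M+1) = 2*M+1+1 by ring, prod_range_succ, prod_range_succ, prod_range_succ, prod_range_succ, pow_succ, pow_succ]
    generalize hP : ∏ i ∈ range (2*M), ((7:ℚ)/3+i) = P at *
    generalize hQ : ∏ i ∈ range (2*M), ((5:ℚ)/2+i) = Q at *
    push_cast
    linear_combination (P * 27^M * 2) * h + (4*(4*M+5)*(4*M+7)) * ih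

end Pool.Agent.R856.GM
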