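import Pool.Agent.R856.CM13

set_option autoImplicit false

/-!
A quadratic transformation for the Legendre polynomials of odd degree.
-/

namespace Pool.Agent.R856.GM

open Finset Polynomial

open CM (DD DD_coeff xder_coeff fv chi3 aa Sg1)

noncomputable section

/-- coefficients of the hypergeometric polynomial with parameters `(-M, M+3/2; 1)` -/
def hc (M : ℕ) (j : ℕ) : ℚ := ∏ i ∈ range j, ((-(M:ℚ)+i)*(M+3/2+i)/(1+i)^2)

lemma hc_zero (M : ℕ) : hc M 0 = 1 := by unfold hc; simp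

lemma hc_succ (M j : ℕ) : hc M (j+1) = hc M j * ((-(M:ℚ)+j)*(M+3/2+j)/(1+j)^2) := by
  unfold hc; rw [prod_range_succ]

lemma hc_top (M j : ℕ) (h : M < j) : hc M j = 0 := by
  unfold hc
  apply prod_eq_zero (mem_range.mpr h)
  simp

lemma mk_coeff (a : ℕ → ℂ) (N : ℕ) (ha : ∀ k, N < k → a k = 0) (k : ℕ) :
    (∑ i ∈ range (N+1), C (a i) * X^i : ℂ[X]).coeff k = a k := by
  rw [finset_sum_coeff]
  simp only [coeff_C_mul, coeff_X_pow, mul_ite, mul_one, mul_zero]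
  rw [sum_ite_eq]
  split_ifs with h
  · rfl
  · rw [mem_range, not_lt] at h
    exact (ha k (by omega)).symm

def hz (M : ℕ) : ℂ[X] := ∑ i ∈ range (M+1), C (((hc M i : ℚ)) : ℂ) * X^i
def fz (n : ℕ) : ℂ[X] := ∑ i ∈ range (n+1), C ((n.choose i : ℂ) * ((n+i).choose i : ℂ)) * X^i

lemma hz_coeff (M k : ℕ) : (hz M).coeff k = ((hc M k : ℚ) : ℂ) := by
  unfold hz
  rw [mk_coeff (fun i => ((hc M i : ℚ) : ℂ))]
  intro k hk
  rw [hc_top M k hk]; simp

lemma fz_coeff (n k : ℕ) : (fz n).coeff k = (n.choose k : ℂ) * ((n+k).choose k : ℂ) := by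
  unfold fz
  rw [mk_coeff (fun i => ((n.choose i : ℂ) * ((n+i).choose i : ℂ)))]
  intro k hk
  rw [Nat.choose_eq_zero_of_lt hk]; simp

lemma fz_ode (n : ℕ) : DD (fz n) = C ((2*(n:ℂ)+1)^2) * fz n := by
  ext k
  rw [DD_coeff, coeff_C_mul, fz_coeff, fz_coeff]
  have h1 := Nat.choose_succ_right_eq n k
  have h2 := Nat.add_one_mul_choose_eq (n+k) k
  have h1' : (n.choose (k+1) : ℂ) * ((k:ℂ)+1) = (n.choose k : ℂ) * ((n:ℂ) - k) := by
    rcases Nat.lt_or_ge n k with h | h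
    · rw [Nat.choose_eq_zero_of_lt h, Nat.choose_eq_zero_of_lt (show n < k+1 by omega)]; simp
    · have e : ((n - k : ℕ) : ℂ) = (n:ℂ) - k := by rw [Nat.cast_sub h]
      rw [← e]
      exact_mod_cast h1
  have h2' : ((n:ℂ)+k+1) * ((n+k).choose k : ℂ) = ((n+(k+1)).choose (k+1) : ℂ) * ((k:ℂ)+1) := by
    rw [show n+(k+1) = n+k+1 by ring]
    exact_mod_cast h2
  linear_combination (4*((k:ℂ)+1)*((n+(k+1)).choose (k+1) : ℂ)) * h1' - (4*((n:ℂ)-k)*(n.choose k : ℂ)) * h2'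

lemma hz_ode (M : ℕ) : 2*X*(1-X)*derivative (derivative (hz M)) + (2-5*X)*derivative (hz M) + (M:ℂ[X])*(2*(M:ℂ[X])+3)*hz M = 0 := by
  have e : 2*X*(1-X)*derivative (derivative (hz M)) + (2-5*X)*derivative (hz M) + (M:ℂ[X])*(2*(M:ℂ[X])+3)*hz M =
      C 2 * derivative (X * derivative (hz M)) - C 2 * (X * derivative (X * derivative (hz M))) - C 3 * (X * derivative (hz M)) +
        C ((M:ℂ)*(2*M+3)) * hz M := by
    have c2 : (C 2 : ℂ[X]) = 2 := map_ofNat (C : ℂ →+* ℂ[X]) 2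
    have c3 : (C 3 : ℂ[X]) = 3 := map_ofNat (C : ℂ →+* ℂ[X]) 3
    have cM : (C (M:ℂ) : ℂ[X]) = M := map_natCast (C : ℂ →+* ℂ[X]) M
    rw [C_mul, C_add, C_mul, c2, c3, cM, derivative_mul, derivative_X]
    ring
  rw [e]
  ext k
  rw [coeff_add, coeff_sub, coeff_sub, coeff_C_mul, coeff_C_mul, coeff_C_mul, coeff_C_mul, coeff_derivative, xder_coeff, xder_coeff,
    xder_coeff, hz_coeff, hz_coeff, coeff_zero, hc_succ]
  have hk : (1:ℂ)+k ≠ 0 := by
    have : ((1+k : ℕ) : ℂ) ≠ 0 := by exact_mod_cast (by omega : 1+k ≠ 0)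
    push_cast at this; exact this
  push_cast
  field_simp
  ring

def gz (M : ℕ) : ℂ[X] := (1+2*X) * (hz M).comp (-4*X*(1+X))

lemma gz_ode (M : ℕ) : DD (gz M) = C ((2*((2*M+1 : ℕ):ℂ)+1)^2) * gz M := by
  have ho := congrArg (fun u : ℂ[X] => u.comp (-4*X*(1+X))) (hz_ode M)
  have c2 : (2 : ℂ[X]) = C 2 := (map_ofNat (C : ℂ →+* ℂ[X]) 2).symm
  have c3 : (3 : ℂ[X]) = C 3 := (map_ofNat (C : ℂ →+* ℂ[X]) 3).symm
  have c4 : (4 : ℂ[X]) = C 4 := (map_ofNat (C : ℂ →+* ℂ[X]) 4).symm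
  have c5 : (5 : ℂ[X]) = C 5 := (map_ofNat (C : ℂ →+* ℂ[X]) 5).symm
  have dq : derivative (-4*X*(1+X) : ℂ[X]) = -4*(1+2*X) := by
    rw [c4, c2]
    simp only [derivative_mul, derivative_neg, derivative_C, derivative_add, derivative_X, derivative_one]
    rw [← c4, ← c2]
    ring
  have cm : ∀ m : ℕ, ((m:ℂ[X])).comp (-4*X*(1+X)) = m := fun m => natCast_comp
  have k2 : (2:ℂ[X]).comp (-4*X*(1+X)) = 2 := by rw [c2, C_comp]
  have k3 : (3:ℂ[X]).comp (-4*X*(1+X)) = 3 := by rw [c3, C_comp]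
  have k5 : (5:ℂ[X]).comp (-4*X*(1+X)) = 5 := by rw [c5, C_comp]
  have k1 : (1:ℂ[X]).comp (-4*X*(1+X)) = 1 := one_comp
  simp only [add_comp, mul_comp, sub_comp, X_comp, zero_comp, cm, k2, k3, k5, k1] at ho
  unfold gz DD
  have d12 : derivative (1+2*X : ℂ[X]) = 2 := by
    rw [c2]; simp
  have dx : derivative (X : ℂ[X]) = 1 := derivative_X
  have d1x : derivative (1+X : ℂ[X]) = 1 := by simp
  have dm : derivative (-4*(1+2*X) : ℂ[X]) = -8 := by
    rw [derivative_mul, d12]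
    have : derivative (-4 : ℂ[X]) = 0 := by rw [c4]; simp
    rw [this]; ring
  have e1 : derivative ((1+2*X) * (hz M).comp (-4*X*(1+X))) = 2*(hz M).comp (-4*X*(1+X)) +
      (1+2*X)*(-4*(1+2*X))*(derivative (hz M)).comp (-4*X*(1+X)) := by
    rw [derivative_mul, d12, derivative_comp, dq]; ring
  have d2 : derivative (2 : ℂ[X]) = 0 := by rw [c2]; simp
  have e2 : derivative (2*(hz M).comp (-4*X*(1+X)) + (1+2*X)*(-4*(1+2*X))*(derivative (hz M)).comp (-4*X*(1+X))) =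
      2*(-4*(1+2*X))*(derivative (hz M)).comp (-4*X*(1+X)) + (-16*(1+2*X))*(derivative (hz M)).comp (-4*X*(1+X)) +
      (1+2*X)*(-4*(1+2*X))*(-4*(1+2*X))*(derivative (derivative (hz M))).comp (-4*X*(1+X)) := by
    rw [derivative_add, derivative_mul, derivative_mul, derivative_mul, d2, derivative_comp, derivative_comp, dq, d12, dm]; ring
  rw [e1]
  have e3 : derivative (X * ((1+X) * (2*(hz M).comp (-4*X*(1+X)) + (1+2*X)*(-4*(1+2*X))*(derivative (hz M)).comp (-4*X*(1+X))))) =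
      (1+2*X) * (2*(hz M).comp (-4*X*(1+X)) + (1+2*X)*(-4*(1+2*X))*(derivative (hz M)).comp (-4*X*(1+X))) +
      X*(1+X)*(2*(-4*(1+2*X))*(derivative (hz M)).comp (-4*X*(1+X)) + (-16*(1+2*X))*(derivative (hz M)).comp (-4*X*(1+X)) +
      (1+2*X)*(-4*(1+2*X))*(-4*(1+2*X))*(derivative (derivative (hz M))).comp (-4*X*(1+X))) := by
    rw [derivative_mul, derivative_mul, e2, dx, d1x]; ring
  rw [e3]
  have cM : (C ((2*((2*M+1 : ℕ):ℂ)+1)^2) : ℂ[X]) = (4*(M:ℂ[X])+3)^2 := by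
    have cM0 : (C (M:ℂ) : ℂ[X]) = M := map_natCast (C : ℂ →+* ℂ[X]) M
    push_cast
    have : (2*(2*(M:ℂ)+1)+1)^2 = (4*M+3)^2 := by ring
    rw [this, C_pow, C_add, C_mul, cM0, ← c3, ← c4]
  rw [cM]
  generalize (hz M).comp (-4*X*(1+X)) = A at *
  generalize (derivative (hz M)).comp (-4*X*(1+X)) = B at *
  generalize (derivative (derivative (hz M))).comp (-4*X*(1+X)) = D at *
  linear_combination (-8*(1+2*X)) * ho

lemma ode_uniq (lam : ℂ) (u v : ℂ[X]) (hu : DD u = C lam * u) (hv : DD v = C lam * v) (h0 : u.coeff 0 = v.coeff 0) : u = v := by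
  ext k
  induction k with
  | zero => exact h0
  | succ k ih =>
    have h1 := congrArg (fun w : ℂ[X] => w.coeff k) hu
    have h2 := congrArg (fun w : ℂ[X] => w.coeff k) hv
    simp only [DD_coeff, coeff_C_mul] at h1 h2
    rw [ih] at h1
    have hk : 4*((k:ℂ)+1)^2 ≠ 0 := by
      have : ((k+1 : ℕ) : ℂ) ≠ 0 := by exact_mod_cast (by omega : k+1 ≠ 0)
      push_cast at this
      exact mul_ne_zero (by norm_num) (pow_ne_zero 2 this)
    apply mul_left_cancel₀ hk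
    linear_combination h1 - h2

theorem fz_gz (M : ℕ) : fz (2*M+1) = gz M := by
  apply ode_uniq ((2*((2*M+1 : ℕ):ℂ)+1)^2) _ _ (fz_ode (2*M+1)) (gz_ode M)
  rw [fz_coeff]
  unfold gz
  rw [coeff_zero_eq_eval_zero, eval_mul, eval_comp]
  have : eval 0 (-4*X*(1+X) : ℂ[X]) = 0 := by simp
  have e0 : eval 0 (hz M) = ((hc M 0:ℚ):ℂ) := by rw [← coeff_zero_eq_eval_zero, hz_coeff]
  rw [this, e0, hc_zero]
  simp

def hval (M : ℕ) (y : ℚ) : ℚ := ∑ j ∈ range (M+1), hc M j * y^j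

lemma hz_eval (M : ℕ) (y : ℚ) : (hz M).eval (y:ℂ) = ((hval M y : ℚ) : ℂ) := by
  unfold hz hval
  rw [eval_finset_sum]
  push_cast
  apply sum_congr rfl
  intro j _
  rw [eval_mul, eval_C, eval_pow, eval_X]

theorem fv_eq (M : ℕ) (w : ℂ) (y : ℚ) (hy : -4*w*(1+w) = (y:ℂ)) :
    ∑ k ∈ range (2*M+1+1), (((2*M+1).choose k : ℂ) * ((2*M+1+k).choose k : ℂ)) * w^k = (1+2*w) * ((hval M y : ℚ) : ℂ) := by
  have h : (fz (2*M+1)).eval w = (gz M).eval w := by rw [fz_gz M]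
  have e1 : (fz (2*M+1)).eval w = ∑ k ∈ range (2*M+1+1), (((2*M+1).choose k : ℂ) * ((2*M+1+k).choose k : ℂ)) * w^k := by
    unfold fz
    rw [eval_finset_sum]
    apply sum_congr rfl
    intro k _
    rw [eval_mul, eval_C, eval_pow, eval_X]
  have e2 : (gz M).eval w = (1+2*w) * ((hval M y : ℚ) : ℂ) := by
    unfold gz
    rw [eval_mul, eval_comp, ← hz_eval, ← hy]
    simp
  rw [← e1, h, e2]

end

end Pool.Agent.R856.GM
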