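import Pool.Agent.R856.GM2
import Pool.Agent.R856.GM3

set_option autoImplicit false

/-!
Interpolation modulo `p^2` and reversal.
-/

namespace Pool.Agent.R856.GM

open Finset Pool.Agent.Helper857.Pad

open FK (unit_c not_dvd_small inv2 inv3 inv4 EX EX.of EX.mul EX.prod H H_mem)

section

variable {p : ℕ} [hp : Fact p.Prime]

def JJ (p : ℕ) [Fact p.Prime] (s X0 D Xs : ℚ) : Prop := X0 ∈ Zp p ∧ D ∈ Zp p ∧ I p 2 (Xs - (X0 + s*p*D))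

lemma JJ.mem {s X0 D Xs : ℚ} (hs : s ∈ Zp p) (h : JJ p s X0 D Xs) : Xs ∈ Zp p := by
  have e : Xs = (Xs - (X0 + s*p*D)) + (X0 + s*p*D) := by ring
  rw [e]
  exact (Zp p).add_mem h.2.2.mem ((Zp p).add_mem h.1 ((Zp p).mul_mem ((Zp p).mul_mem hs (nat_mem p)) h.2.1))

lemma JJ.mul {s X0 D Xs Y0 E Ys : ℚ} (hs : s ∈ Zp p) (h : JJ p s X0 D Xs) (k : JJ p s Y0 E Ys) :
    JJ p s (X0*Y0) (X0*E + Y0*D) (Xs*Ys) := by
  have hY := k.mem hs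
  obtain ⟨a, b, c⟩ := h
  obtain ⟨d, e, f⟩ := k
  refine ⟨(Zp p).mul_mem a d, (Zp p).add_mem ((Zp p).mul_mem a e) ((Zp p).mul_mem d b), ?_⟩
  have e1 : Xs*Ys - (X0*Y0 + s*p*(X0*E + Y0*D)) = (Xs - (X0 + s*p*D))*Ys + (X0 + s*p*D)*(Ys - (Y0 + s*p*E)) + (p:ℚ)^2*(s*s*D*E) := by ring
  rw [e1]
  exact ((c.mul_mem hY).add (f.mem_mul ((Zp p).add_mem a ((Zp p).mul_mem ((Zp p).mul_mem hs (nat_mem p)) b)))).add
    ((I.p_pow 2).mul_mem ((Zp p).mul_mem ((Zp p).mul_mem ((Zp p).mul_mem hs hs) b) e))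

lemma JJ.add {s X0 D Xs Y0 E Ys : ℚ} (h : JJ p s X0 D Xs) (k : JJ p s Y0 E Ys) :
    JJ p s (X0+Y0) (D+E) (Xs+Ys) := by
  obtain ⟨a, b, c⟩ := h
  obtain ⟨d, e, f⟩ := k
  refine ⟨(Zp p).add_mem a d, (Zp p).add_mem b e, ?_⟩
  have e1 : Xs+Ys - (X0+Y0 + s*p*(D+E)) = (Xs - (X0 + s*p*D)) + (Ys - (Y0 + s*p*E)) := by ring
  rw [e1]; exact c.add f

lemma JJ.fac {s x c a : ℚ} (hs : s ∈ Zp p) (ha : a ∈ Zp p) (hx : x ∈ Zp p) (hc : c ∈ Zp p) (c0 : c ≠ 0) (c1 : c + s*p ≠ 0)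
    (i0 : c⁻¹ ∈ Zp p) (i1 : (c + s*p)⁻¹ ∈ Zp p) :
    JJ p s (a*(x*c⁻¹)) (a*((c-x)*(c⁻¹*c⁻¹))) (a*((x+s*p)*(c+s*p)⁻¹)) := by
  refine ⟨(Zp p).mul_mem ha ((Zp p).mul_mem hx i0), (Zp p).mul_mem ha ((Zp p).mul_mem ((Zp p).sub_mem hc hx) ((Zp p).mul_mem i0 i0)), ?_⟩
  have e : a*((x+s*p)*(c+s*p)⁻¹) - (a*(x*c⁻¹) + s*p*(a*((c-x)*(c⁻¹*c⁻¹)))) = (p:ℚ)^2 * (-(a*(s*s*(c-x)*(c⁻¹*c⁻¹*(c+s*p)⁻¹)))) := by
    generalize hU : c + s*p = U at *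
    have hU' : s*p = U - c := by rw [← hU]; ring
    have e2 : s*s*(p:ℚ)^2 = (U-c)^2 := by rw [← hU']; ring
    have e3 : (p:ℚ)^2 * (-(a*(s*s*(c-x)*(c⁻¹*c⁻¹*U⁻¹)))) = -(a*((U-c)^2*(c-x)*(c⁻¹*c⁻¹*U⁻¹))) := by rw [← e2]; ring
    rw [e3, hU']
    field_simp
    ring
  rw [e]
  exact (I.p_pow 2).mul_mem ((Zp p).neg_mem ((Zp p).mul_mem ha ((Zp p).mul_mem ((Zp p).mul_mem ((Zp p).mul_mem hs hs) ((Zp p).sub_mem hc hx))
    ((Zp p).mul_mem ((Zp p).mul_mem i0 i0) i1))))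

end

/-- reversed terms -/
def Rr (M : ℕ) (k : ℕ) : ℚ := ∏ i ∈ range k, (((i:ℚ)-M)^2/(4*(1+i)*(i-2*M-1/2)))

lemma Rr_succ (M k : ℕ) : Rr M (k+1) = Rr M k * (((k:ℚ)-M)^2/(4*(1+k)*(k-2*M-1/2))) := by
  unfold Rr; rw [prod_range_succ]

lemma rev_term (M : ℕ) (j : ℕ) (hj : j ≤ M) : hc M (M-j) * 4^(M-j) = 4^M * hc M M * Rr M j := by
  induction j with
  | zero => unfold Rr; simp; ring
  | succ j ih =>
    have ih' := ih (by omega)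
    obtain ⟨t, ht⟩ : ∃ t, M = t + j + 1 := ⟨M-j-1, by omega⟩
    have e1 : M - j = t + 1 := by omega
    have e2 : M - (j+1) = t := by omega
    rw [e1, hc_succ, pow_succ] at ih'
    rw [e2, Rr_succ, ← mul_assoc, ← ih']
    have hM : (M:ℚ) = t + j + 1 := by rw [ht]; push_cast; ring
    rw [hM]
    have c1 : (1+(t:ℚ)) ≠ 0 := by positivity
    have c2 : (1+(j:ℚ)) ≠ 0 := by positivity
    have c3 : ((j:ℚ) - 2*(t+j+1) - 1/2) ≠ 0 := by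
      have : ((j:ℚ) - 2*(t+j+1) - 1/2) = -(2*t + j + 5/2) := by ring
      rw [this]; exact neg_ne_zero.mpr (by positivity)
    have g1 : (-((t:ℚ)+j+1)+t) = -(1+j) := by ring
    have g2 : ((t:ℚ)+j+1+3/2+t) = -((j:ℚ) - 2*(t+j+1) - 1/2) := by ring
    have g3 : ((j:ℚ) - (t+j+1)) = -(1+t) := by ring
    rw [g1, g2, g3]
    generalize (1+(t:ℚ)) = A at *
    generalize (1+(j:ℚ)) = B at *
    generalize ((j:ℚ) - 2*(t+j+1) - 1/2) = D at *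
    field_simp
    ring

lemma hval_four (M : ℕ) : hval M 4 = 4^M * hc M M * ∑ j ∈ range (M+1), Rr M j := by
  unfold hval
  rw [mul_sum, ← sum_range_reflect]
  apply sum_congr rfl
  intro j hj
  rw [mem_range] at hj
  rw [show M+1-1-j = M-j by omega]
  exact rev_term M j (by omega)

section

variable {p : ℕ} [hp : Fact p.Prime] {M : ℕ} (hM : 4*M+3 = p) (h3 : 3 < p)
include hM h3

lemma unit_s {i : ℕ} (hi : i < M) (a b : ℤ) (hb : ¬ (p:ℤ) ∣ b) (hb0 : (b:ℚ) ≠ 0) : (1+(i:ℚ)) + (a/b)*p ≠ 0 ∧ ((1+(i:ℚ)) + (a/b)*p)⁻¹ ∈ Zp p := by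
  have hpz : Prime (p:ℤ) := Nat.prime_iff_prime_int.mp hp.out
  have n1 : ¬ (p:ℤ) ∣ b*((1+i : ℕ) : ℤ) + a*p := by
    intro h
    have h2 : (p:ℤ) ∣ b*((1+i : ℕ) : ℤ) := by
      have : b*((1+i : ℕ) : ℤ) = (b*((1+i : ℕ) : ℤ) + a*p) - a*p := by ring
      rw [this]; exact dvd_sub h (dvd_mul_left _ _)
    rcases hpz.dvd_or_dvd h2 with h | h
    · exact hb h
    · have h4 : p ∣ (1+i) := by exact_mod_cast h
      have := Nat.le_of_dvd (by omega) h4; omega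
  have i1 := inv_int_mem n1
  push_cast at i1
  have e : (1+(i:ℚ)) + (a/b)*p = (b*(1+i) + a*p) * (b:ℚ)⁻¹ := by field_simp
  have n0 : ((b:ℚ)*(1+i) + a*p) ≠ 0 := by
    intro h
    apply n1
    have : ((b*((1+i : ℕ) : ℤ) + a*p : ℤ) : ℚ) = 0 := by push_cast; exact h
    have : (b*((1+i : ℕ) : ℤ) + a*p : ℤ) = 0 := by exact_mod_cast this
    rw [this]; exact dvd_zero _
  rw [e]
  refine ⟨mul_ne_zero n0 (inv_ne_zero hb0), ?_⟩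
  rw [mul_inv, inv_inv]
  exact (Zp p).mul_mem i1 (int_mem b)

lemma pM : (p:ℚ) = 4*M+3 := by rw [← hM]; push_cast; ring

lemma not_dvd_int {k : ℕ} (h0 : 0 < k) (h1 : ¬ p ∣ k) : ¬ (p:ℤ) ∣ (k:ℤ) := by
  intro h; apply h1; exact_mod_cast h

lemma six_nd : ¬ p ∣ 6 := by
  intro h
  have h2 : p ∣ 2*3 := h
  rcases (Nat.Prime.dvd_mul hp.out).mp h2 with h | h
  · exact not_dvd_small h3 (by norm_num) (by omega) h
  · exact not_dvd_small h3 (by norm_num) (by omega) h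

lemma steps {k : ℕ} (hk : k ≤ M) : ∃ D : ℚ,
    JJ p (-1/6) (hc M k * (1/4)^k) D (T ((M:ℚ)/3) k) ∧
    JJ p (1/2) (hc M k * (1/4)^k) D (T (-((M:ℚ)+1)) k) ∧
    JJ p (-1/2) (hc M k * (1/4)^k) D (Rr M k) := by
  have hpM := pM hM h3
  have i2 := inv2 h3
  have i3 := inv3 h3
  have s1 : (-1/6:ℚ) ∈ Zp p := by
    have : (-1/6:ℚ) = -(2⁻¹*3⁻¹) := by norm_num
    rw [this]; exact (Zp p).neg_mem ((Zp p).mul_mem i2 i3)
  have s2 : (1/2:ℚ) ∈ Zp p := by rw [one_div]; exact i2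
  have s3 : (-1/2:ℚ) ∈ Zp p := by
    have : (-1/2:ℚ) = -(2⁻¹) := by norm_num
    rw [this]; exact (Zp p).neg_mem i2
  induction k with
  | zero =>
    refine ⟨0, ?_, ?_, ?_⟩
    · rw [T_zero, hc_zero]; refine ⟨by simpa using (Zp p).one_mem, (Zp p).zero_mem, ?_⟩
      simpa using I.zero 2
    · rw [T_zero, hc_zero]; refine ⟨by simpa using (Zp p).one_mem, (Zp p).zero_mem, ?_⟩
      simpa using I.zero 2
    · unfold Rr; rw [hc_zero]; refine ⟨by simpa using (Zp p).one_mem, (Zp p).zero_mem, ?_⟩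
      simpa using I.zero 2
  | succ k ih =>
    obtain ⟨D, h1, h2, h4⟩ := ih (by omega)
    have u0 := unit_s hM h3 (i := k) (by omega) 0 1 (not_dvd_int hM h3 (k := 1) (by norm_num) (not_dvd_small h3 (by norm_num) (by omega))) (by norm_num)
    have u1 := unit_s hM h3 (i := k) (by omega) (-1) 6 (not_dvd_int hM h3 (k := 6) (by norm_num) (six_nd hM h3)) (by norm_num)
    have u2 := unit_s hM h3 (i := k) (by omega) 1 2 (not_dvd_int hM h3 (k := 2) (by norm_num) (not_dvd_small h3 (by norm_num) (by omega))) (by norm_num)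
    have u3 := unit_s hM h3 (i := k) (by omega) (-1) 2 (not_dvd_int hM h3 (k := 2) (by norm_num) (not_dvd_small h3 (by norm_num) (by omega))) (by norm_num)
    push_cast at u0 u1 u2 u3
    have e0 : (1+(k:ℚ)) + 0/1*p = 1+k := by ring
    rw [e0] at u0
    have hc' : (1+(k:ℚ)) ∈ Zp p := (Zp p).add_mem (Zp p).one_mem (nat_mem k)
    have hx' : ((M:ℚ)+3/2+k) ∈ Zp p := by
      have : (3/2:ℚ) = 3*2⁻¹ := by norm_num
      rw [this]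
      exact (Zp p).add_mem ((Zp p).add_mem (nat_mem M) ((Zp p).mul_mem (nat_mem 3) i2)) (nat_mem k)
    have ha' : (((k:ℚ)-M)*(4⁻¹*(1+(k:ℚ))⁻¹)) ∈ Zp p := (Zp p).mul_mem ((Zp p).sub_mem (nat_mem k) (nat_mem M)) ((Zp p).mul_mem (inv4 h3) u0.2)
    have f1 := JJ.fac (p := p) s1 ha' hx' hc' u0.1 u1.1 u0.2 u1.2
    have f2 := JJ.fac (p := p) s2 ha' hx' hc' u0.1 u2.1 u0.2 u2.2
    have f3 := JJ.fac (p := p) s3 ha' hx' hc' u0.1 u3.1 u0.2 u3.2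
    have eQ : hc M (k+1) * (1/4)^(k+1) = (hc M k * (1/4)^k) * ((((k:ℚ)-M)*(4⁻¹*(1+(k:ℚ))⁻¹)) * (((M:ℚ)+3/2+k) * (1+(k:ℚ))⁻¹)) := by
      rw [hc_succ, pow_succ (1/4:ℚ) k]
      have hne := u0.1
      generalize (1+(k:ℚ)) = V at *
      field_simp
      ring
    have e1 : T ((M:ℚ)/3) (k+1) = T ((M:ℚ)/3) k * ((((k:ℚ)-M)*(4⁻¹*(1+(k:ℚ))⁻¹)) * (((M:ℚ)+3/2+k + -1/6*p) * (1+(k:ℚ) + -1/6*p)⁻¹)) := by
      rw [T_succ, hpM]
      have g1 : (M:ℚ)+3/2+k + -1/6*(4*M+3) = M/3+1+k := by ring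
      have g2 : 1+(k:ℚ) + -1/6*(4*M+3) = 1/2-2*(M/3)+k := by ring
      have g3 : -3*((M:ℚ)/3)+k = k - M := by ring
      rw [g1, g2, g3]
      generalize 1/2-2*((M:ℚ)/3)+k = U
      generalize 1+(k:ℚ) = V
      ring
    have e2 : T (-((M:ℚ)+1)) (k+1) = T (-((M:ℚ)+1)) k * ((((k:ℚ)-M)*(4⁻¹*(1+(k:ℚ))⁻¹)) * (((M:ℚ)+3/2+k + 1/2*p) * (1+(k:ℚ) + 1/2*p)⁻¹)) := by
      rw [T_succ, hpM]
      have g1 : (M:ℚ)+3/2+k + 1/2*(4*M+3) = -3*(-((M:ℚ)+1))+k := by ring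
      have g2 : 1+(k:ℚ) + 1/2*(4*M+3) = 1/2-2*(-((M:ℚ)+1))+k := by ring
      have g3 : -((M:ℚ)+1)+1+k = k - M := by ring
      rw [g1, g2, g3]
      generalize 1/2-2*(-((M:ℚ)+1))+k = U
      generalize 1+(k:ℚ) = V
      ring
    have e3 : Rr M (k+1) = Rr M k * ((((k:ℚ)-M)*(4⁻¹*(1+(k:ℚ))⁻¹)) * (((M:ℚ)+3/2+k + -1/2*p) * (1+(k:ℚ) + -1/2*p)⁻¹)) := by
      rw [Rr_succ, hpM]
      have g1 : (M:ℚ)+3/2+k + -1/2*(4*M+3) = k - M := by ring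
      have g2 : 1+(k:ℚ) + -1/2*(4*M+3) = k-2*M-1/2 := by ring
      rw [g1, g2]
      generalize (k:ℚ)-2*M-1/2 = U
      generalize 1+(k:ℚ) = V
      ring
    have k1 := h1.mul s1 f1
    have k2 := h2.mul s2 f2
    have k3 := h4.mul s3 f3
    rw [← eQ, ← e1] at k1
    rw [← eQ, ← e2] at k2
    rw [← eQ, ← e3] at k3
    exact ⟨_, k1, k2, k3⟩

lemma sums4 (N : ℕ) (hN : N ≤ M+1) : ∃ D : ℚ,
    JJ p (-1/6) (∑ k ∈ range N, hc M k * (1/4)^k) D (∑ k ∈ range N, T ((M:ℚ)/3) k) ∧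
    JJ p (1/2) (∑ k ∈ range N, hc M k * (1/4)^k) D (∑ k ∈ range N, T (-((M:ℚ)+1)) k) ∧
    JJ p (-1/2) (∑ k ∈ range N, hc M k * (1/4)^k) D (∑ k ∈ range N, Rr M k) := by
  induction N with
  | zero =>
    refine ⟨0, ?_, ?_, ?_⟩ <;>
    · simp only [sum_range_zero]
      exact ⟨(Zp p).zero_mem, (Zp p).zero_mem, by simpa using I.zero 2⟩
  | succ N ih =>
    obtain ⟨D, h1, h2, h4⟩ := ih (by omega)
    obtain ⟨E, k1, k2, k4⟩ := steps hM h3 (k := N) (by omega)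
    refine ⟨D + E, ?_, ?_, ?_⟩
    · rw [sum_range_succ, sum_range_succ]; exact h1.add k1
    · rw [sum_range_succ, sum_range_succ]; exact h2.add k2
    · rw [sum_range_succ, sum_range_succ]; exact h4.add k4

theorem interp4 : I p 2 (4 * hval M (1/4) - 3 * (∑ k ∈ range (M+1), T ((M:ℚ)/3) k) - F2 M) ∧
    I p 2 (2 * (∑ k ∈ range (M+1), Rr M k) - 3 * (∑ k ∈ range (M+1), T ((M:ℚ)/3) k) + F2 M) ∧ F2 M ∈ Zp p := by
  obtain ⟨D, h1, h2, h4⟩ := sums4 hM h3 (M+1) le_rfl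
  unfold hval F2
  have s2 : (1/2:ℚ) ∈ Zp p := by rw [one_div]; exact inv2 h3
  refine ⟨?_, ?_, h2.mem s2⟩
  · have e : ∀ Q A B : ℚ, 4*Q - 3*A - B = -(3*(A - (Q + -1/6*p*D))) - (B - (Q + 1/2*p*D)) := by intro Q A B; ring
    rw [e]
    exact (h1.2.2.mem_mul (nat_mem 3)).neg.sub h2.2.2
  · have e : ∀ Q A B R : ℚ, 2*R - 3*A + B = 2*(R - (Q + -1/2*p*D)) - 3*(A - (Q + -1/6*p*D)) + (B - (Q + 1/2*p*D)) := by intro Q A B R; ring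
    rw [e (∑ k ∈ range (M+1), hc M k * (1/4)^k)]
    exact ((h4.2.2.mem_mul (nat_mem 2)).sub (h1.2.2.mem_mul (nat_mem 3))).add h2.2.2

lemma hcM_eq : hc M M = ∏ i ∈ range M, (1 + (p:ℚ) * (-(2:ℚ)⁻¹ * ((i:ℚ)+1)⁻¹)) := by
  have hpM := pM hM h3
  unfold hc
  rw [prod_div_distrib, prod_mul_distrib, ← prod_range_reflect (fun i : ℕ => -(M:ℚ)+(i:ℚ)), ← prod_range_reflect (fun i : ℕ => (M:ℚ)+3/2+(i:ℚ)),
    ← prod_mul_distrib, ← prod_div_distrib]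
  apply prod_congr rfl
  intro i hi
  rw [mem_range] at hi
  have : ((M - 1 - i : ℕ) : ℚ) = (M:ℚ) - 1 - i := by
    rw [Nat.cast_sub (by omega), Nat.cast_sub (by omega)]; push_cast; ring
  rw [this, hpM]
  have c : (i:ℚ)+1 ≠ 0 := by positivity
  have c' : 1+(i:ℚ) ≠ 0 := by positivity
  field_simp
  ring

lemma hcM_EX : EX p (hc M M) (-(2:ℚ)⁻¹ * H M) := by
  rw [hcM_eq hM h3]
  have i2 := inv2 h3
  have h := EX.prod (p := p) (fun i => -(2:ℚ)⁻¹ * ((i:ℚ)+1)⁻¹) M (by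
    intro i hi
    have := FK.inv_lt (p := p) (k := i+1) (by omega) (by omega)
    push_cast at this
    exact (Zp p).mul_mem ((Zp p).neg_mem i2) this)
  rw [← mul_sum] at h
  exact h

end

end Pool.Agent.R856.GM
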