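import Pool.Agent.R856.FK8

set_option autoImplicit false

/-!
Harmonic numbers and first order expansions for `p = 12r+7`.
-/

namespace Pool.Agent.R856.GM

open Finset Pool.Agent.Helper857.Pad

open FK (Red EX H H_succ H_double H_top H_red H_mem inv_lt not_dvd_small inv2 inv3 inv4 fact_lift cexp cb_flip)

open EJ (hh hh_succ cast_ne)

section

variable {p : ℕ} [hp : Fact p.Prime]

lemma hh_block (a b : ℕ) : ∑ j ∈ range b, (((a+b-j : ℕ) : ZMod p))⁻¹ = hh p (a+b) - hh p a := by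
  have h : hh p (a+b) = hh p a + ∑ j ∈ range b, (((a+j+1 : ℕ) : ZMod p))⁻¹ := by
    unfold hh; rw [sum_range_add]
  rw [h, add_sub_cancel_left, ← sum_range_reflect]
  apply sum_congr rfl
  intro j hj
  rw [mem_range] at hj
  congr 2
  omega

lemma odd_sum (h3 : 3 < p) {L m : ℕ} (hL : 2*L+1 = p) (hm : m ≤ L) :
    Red p (∑ j ∈ range m, ((2*(j:ℚ)+1))⁻¹) (-((2:ZMod p)⁻¹ * (hh p L - hh p (L-m)))) := by
  have h := hh_block (p := p) (L-m) m
  rw [show L-m+m = L by omega] at h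
  rw [← h, mul_sum, ← sum_neg_distrib]
  apply Red.sum
  intro j hj
  rw [mem_range] at hj
  have h1 := (Red.nat (p := p) (2*j+1)).inv (cast_ne (by omega) (by omega))
  have e : ((2*j+1 : ℕ) : ZMod p) = -(2 * ((L-j : ℕ) : ZMod p)) := by
    have : ((2*j+1 : ℕ) : ZMod p) + ((2*(L-j) : ℕ) : ZMod p) = ((p : ℕ) : ZMod p) := by
      rw [← Nat.cast_add]; congr 1; omega
    rw [CharP.cast_eq_zero (ZMod p) p] at this
    push_cast at this ⊢
    linear_combination this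
  rw [e, inv_neg, mul_inv] at h1
  push_cast at h1
  exact h1

lemma two_ne (h3 : 3 < p) : (2:ZMod p) ≠ 0 := by
  have := cast_ne (p := p) (k := 2) (by norm_num) (by omega)
  exact_mod_cast this

lemma h6_rel (h3 : 3 < p) {r : ℕ} (hr : 12*r+7 = p) : I p 1 (H (2*r+1) - H (6*r+3) - H (4*r+2)) := by
  have t2 := two_ne h3
  have h1 := H_double (2*r+1)
  have ho := odd_sum h3 (L := 6*r+3) (m := 2*r+1) (by omega) (by omega)
  rw [show 6*r+3-(2*r+1) = 4*r+2 by omega] at ho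
  have r6 := H_red (p := p) (n := 2*r+1) (by omega) (by omega)
  have r3 := H_red (p := p) (n := 4*r+2) (by omega) (by omega)
  have r2 := H_red (p := p) (n := 6*r+3) (by omega) (by omega)
  have i2 : Red p (2⁻¹:ℚ) ((2:ZMod p)⁻¹) := by
    have := (Red.nat (p := p) 2).inv (by exact_mod_cast t2)
    push_cast at this; exact this
  have hs := (r6.mul i2).add ho
  have e : H (2*r+1) * 2⁻¹ + ∑ j ∈ range (2*r+1), ((2*(j:ℚ)+1))⁻¹ = H (4*r+2) := by
    rw [show 4*r+2 = 2*(2*r+1) by ring, h1]; ring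
  rw [e] at hs
  have hu := hs.uniq r3
  apply Red.to_I
  have hR := (r6.sub r2).sub r3
  have hz : hh p (2*r+1) - hh p (6*r+3) - hh p (4*r+2) = 0 := by
    have h5 : 2 * (hh p (2*r+1) * 2⁻¹ + -(2⁻¹ * (hh p (6*r+3) - hh p (4*r+2)))) = 2 * hh p (4*r+2) := by rw [hu]
    have h6 : (2:ZMod p) * 2⁻¹ = 1 := mul_inv_cancel₀ t2
    linear_combination h5 - (hh p (2*r+1) - (hh p (6*r+3) - hh p (4*r+2))) * h6
  rw [hz] at hR
  exact hR

lemma hM_rel (h3 : 3 < p) {M : ℕ} (hM : 4*M+3 = p) : I p 1 (2*H M - 3*H (2*M+1)) := by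
  have t2 := two_ne h3
  have h1 := H_double (M+1)
  have ho := odd_sum h3 (L := 2*M+1) (m := M+1) (by omega) (by omega)
  rw [show 2*M+1-(M+1) = M by omega] at ho
  have rM := H_red (p := p) (n := M) (by omega) (by omega)
  have rL := H_red (p := p) (n := 2*M+1) (by omega) (by omega)
  have i2 : Red p (2⁻¹:ℚ) ((2:ZMod p)⁻¹) := by
    have := (Red.nat (p := p) 2).inv (by exact_mod_cast t2)
    push_cast at this; exact this
  have hs := (rM.mul i2).add ho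
  have e : H M * 2⁻¹ + ∑ j ∈ range (M+1), ((2*(j:ℚ)+1))⁻¹ = H (2*M+1) := by
    rw [show 2*(M+1) = 2*M+1+1 by ring, H_succ (2*M+1), H_succ M] at h1
    push_cast at h1
    have c : (M:ℚ)+1 ≠ 0 := by positivity
    have e2 : (2*(M:ℚ)+1+1)⁻¹ = ((M:ℚ)+1)⁻¹/2 := by
      have : (2*(M:ℚ)+1+1) = 2*((M:ℚ)+1) := by ring
      rw [this, mul_inv]; ring
    rw [e2] at h1
    linear_combination (-1) * h1
  rw [e] at hs
  have hu := hs.uniq rL
  apply Red.to_I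
  have hR := ((Red.nat (p := p) 2).mul rM).sub ((Red.nat (p := p) 3).mul rL)
  push_cast at hR
  have hz : 2 * hh p M - 3 * hh p (2*M+1) = 0 := by
    have h5 : 2 * (hh p M * 2⁻¹ + -(2⁻¹ * (hh p (2*M+1) - hh p M))) = 2 * hh p (2*M+1) := by rw [hu]
    have h6 : (2:ZMod p) * 2⁻¹ = 1 := mul_inv_cancel₀ t2
    linear_combination h5 - (2*hh p M - hh p (2*M+1)) * h6
  rw [hz] at hR
  exact hR

/-- powers of four -/
lemma pow4 (h3 : 3 < p) {L : ℕ} (hL : 2*L+1 = p) : EX p ((4:ℚ)^L) (-(H L * 2⁻¹)) := by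
  have h1 := cb_flip L
  have i2 := inv2 h3
  have hE := EX.prod (p := p) (fun i => -(2:ℚ)⁻¹ * ((i:ℚ)+1)⁻¹) L (by
    intro i hi
    have := inv_lt (p := p) (k := i+1) (by omega) (by omega)
    push_cast at this
    exact (Zp p).mul_mem ((Zp p).neg_mem i2) this)
  rw [← mul_sum] at hE
  have hc := cexp (p := p) L (by omega)
  have e2 : 2*(L:ℚ)+1 = p := by rw [← hL]; push_cast; ring
  rw [e2] at h1
  rw [show p - 1 = 2*L by omega, h1] at hc
  have h5 := hc.mul hE.inv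
  have h6 := hE.ne
  have ss : (-1:ℚ)^L * (-1:ℚ)^L = 1 := by rw [← mul_pow]; norm_num
  have e5 : (-1:ℚ)^L * (4^L * (-1)^L * ∏ i ∈ range L, (1 + (p:ℚ) * (-(2:ℚ)⁻¹ * ((i:ℚ)+1)⁻¹))) * (∏ i ∈ range L, (1 + (p:ℚ) * (-(2:ℚ)⁻¹ * ((i:ℚ)+1)⁻¹)))⁻¹ = 4^L := by
    generalize ∏ i ∈ range L, (1 + (p:ℚ) * (-(2:ℚ)⁻¹ * ((i:ℚ)+1)⁻¹)) = Q at *
    field_simp
    linear_combination ss
  rw [e5] at h5
  have e4 : -H L + -(-(2:ℚ)⁻¹ * ∑ i ∈ range L, ((i:ℚ)+1)⁻¹) = -(H L * 2⁻¹) := by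
    unfold H; ring
  rw [e4] at h5
  exact h5

/-- square roots of expansions -/
lemma EX.sqrt (h3 : 3 < p) {Y y : ℚ} (h1 : Red p Y 1) (h2 : EX p (Y*Y) y) : EX p Y (y * 2⁻¹) := by
  obtain ⟨w, hw, e⟩ := h1.eq Red.one
  have hY : Y = 1 + p*w := by rw [pow_one] at e; linear_combination e
  have hx : EX p Y w := by rw [hY]; exact EX.of hw
  apply hx.congr
  obtain ⟨hy, t, ht, e2⟩ := h2
  refine ⟨2⁻¹*(w*w - t), (Zp p).mul_mem (inv2 h3) ((Zp p).sub_mem ((Zp p).mul_mem hw hw) ht), ?_⟩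
  have p0 : (p:ℚ) ≠ 0 := by exact_mod_cast hp.out.ne_zero
  rw [hY] at e2
  apply mul_left_cancel₀ p0
  linear_combination (-2⁻¹) * e2

/-- powers of `27` -/
lemma fact3 (N : ℕ) : ((3*N).factorial : ℚ) = (∏ i ∈ range N, (3*(i:ℚ)+1)) * (∏ i ∈ range N, (3*(i:ℚ)+2)) * ∏ i ∈ range N, (3*((i:ℚ)+1)) := by
  induction N with
  | zero => simp
  | succ N ih =>
    rw [fact_lift (3*N+2) (3*(N+1)) (by ring), fact_lift (3*N+1) (3*N+2) rfl, fact_lift (3*N) (3*N+1) rfl, ih,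
      prod_range_succ, prod_range_succ, prod_range_succ]
    push_cast
    ring

lemma fact3' (N : ℕ) : ((3*N).factorial : ℚ) = (∏ i ∈ range N, ((i:ℚ)+1)) * (∏ i ∈ range N, ((N:ℚ)+i+1)) * ∏ i ∈ range N, (2*(N:ℚ)+i+1) := by
  rw [← prod_range_add_one_eq_factorial, show 3*N = N + N + N by ring, prod_range_add, prod_range_add]
  push_cast
  congr 1
  apply prod_congr rfl
  intro i _
  ring

lemma pow27 (h3 : 3 < p) {N : ℕ} (hN : 3*N+1 = p) : EX p ((27:ℚ)^N) (-(2*3⁻¹ * H N)) := by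
  have hpN : (p:ℚ) = 3*N+1 := by rw [← hN]; push_cast; ring
  have e : (27:ℚ)^N = (∏ i ∈ range N, (1 + (p:ℚ) * (3*(i:ℚ)+2)⁻¹)) * ∏ i ∈ range N, (1 + (p:ℚ) * (2*(3*(i:ℚ)+1)⁻¹)) := by
    have h1 := fact3 N
    have h2 := fact3' N
    have n1 : (∏ i ∈ range N, (3*(i:ℚ)+1)) ≠ 0 := prod_ne_zero_iff.mpr (fun i _ => by positivity)
    have n2 : (∏ i ∈ range N, (3*(i:ℚ)+2)) ≠ 0 := prod_ne_zero_iff.mpr (fun i _ => by positivity)
    have n3 : (∏ i ∈ range N, (3*((i:ℚ)+1))) ≠ 0 := prod_ne_zero_iff.mpr (fun i _ => by positivity)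
    apply mul_right_cancel₀ (mul_ne_zero (mul_ne_zero n1 n2) n3)
    have h12 := h1.symm.trans h2
    have g27 : (27:ℚ)^N = 3^N * 3^N * 3^N := by rw [← mul_pow, ← mul_pow]; norm_num
    have g3 : ∀ f : ℕ → ℚ, (3:ℚ)^N * ∏ i ∈ range N, f i = ∏ i ∈ range N, (3 * f i) := by
      intro f
      rw [prod_mul_distrib, prod_const, card_range]
    have f1 : (∏ i ∈ range N, (1 + (p:ℚ) * (3*(i:ℚ)+2)⁻¹)) * (∏ i ∈ range N, (3*(i:ℚ)+2)) = ∏ i ∈ range N, (3*((N:ℚ)+i+1)) := by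
      rw [← prod_mul_distrib]
      apply prod_congr rfl
      intro i _
      have c : 3*(i:ℚ)+2 ≠ 0 := by positivity
      rw [hpN]; field_simp; ring
    have f2 : (∏ i ∈ range N, (1 + (p:ℚ) * (2*(3*(i:ℚ)+1)⁻¹))) * (∏ i ∈ range N, (3*(i:ℚ)+1)) = ∏ i ∈ range N, (3*(2*(N:ℚ)+i+1)) := by
      rw [← prod_mul_distrib]
      apply prod_congr rfl
      intro i _
      have c : 3*(i:ℚ)+1 ≠ 0 := by positivity
      rw [hpN]; field_simp; ring
    have f3 := g3 (fun i => (i:ℚ)+1)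
    have f4 := g3 (fun i => (N:ℚ)+i+1)
    have f5 := g3 (fun i => 2*(N:ℚ)+i+1)
    calc (27:ℚ)^N * ((∏ i ∈ range N, (3*(i:ℚ)+1)) * (∏ i ∈ range N, (3*(i:ℚ)+2)) * ∏ i ∈ range N, (3*((i:ℚ)+1)))
        = (27:ℚ)^N * ((∏ i ∈ range N, ((i:ℚ)+1)) * (∏ i ∈ range N, ((N:ℚ)+i+1)) * ∏ i ∈ range N, (2*(N:ℚ)+i+1)) := by rw [h12]
      _ = (3^N * ∏ i ∈ range N, ((i:ℚ)+1)) * (3^N * ∏ i ∈ range N, ((N:ℚ)+i+1)) * (3^N * ∏ i ∈ range N, (2*(N:ℚ)+i+1)) := by rw [g27]; ring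
      _ = (∏ i ∈ range N, (3*((i:ℚ)+1))) * (∏ i ∈ range N, (3*((N:ℚ)+i+1))) * (∏ i ∈ range N, (3*(2*(N:ℚ)+i+1))) := by rw [f3, f4, f5]
      _ = _ := by rw [← f1, ← f2]; ring
  have m1 : ∀ i < N, (3*(i:ℚ)+2)⁻¹ ∈ Zp p := by
    intro i hi
    have := inv_lt (p := p) (k := 3*i+2) (by omega) (by omega)
    push_cast at this; exact this
  have m2 : ∀ i < N, 2*(3*(i:ℚ)+1)⁻¹ ∈ Zp p := by
    intro i hi
    have := inv_lt (p := p) (k := 3*i+1) (by omega) (by omega)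
    push_cast at this; exact (Zp p).mul_mem (nat_mem 2) this
  have hE := (EX.prod (p := p) (fun i : ℕ => (3*(i:ℚ)+2)⁻¹) N m1).mul (EX.prod (p := p) (fun i : ℕ => 2*(3*(i:ℚ)+1)⁻¹) N m2)
  rw [← e] at hE
  apply hE.congr
  -- the sums modulo `p`
  have z3 : (3:ZMod p) ≠ 0 := by
    have := cast_ne (p := p) (k := 3) (by norm_num) (by omega)
    exact_mod_cast this
  have i3 : Red p (3⁻¹:ℚ) ((3:ZMod p)⁻¹) := by
    have := (Red.nat (p := p) 3).inv (by exact_mod_cast z3)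
    push_cast at this; exact this
  have b1 : Red p (∑ i ∈ range N, (3*(i:ℚ)+2)⁻¹) (3⁻¹ * (hh p (2*N) - hh p N)) := by
    have h := hh_block (p := p) N N
    rw [show N+N = 2*N by ring] at h
    rw [← h, ← sum_range_reflect (fun j => (((2*N-j : ℕ) : ZMod p))⁻¹), mul_sum]
    apply Red.sum
    intro i hi
    rw [mem_range] at hi
    have h1 := (Red.nat (p := p) (3*i+2)).inv (cast_ne (by omega) (by omega))
    have e : ((3*i+2 : ℕ) : ZMod p) = 3 * ((2*N-(N-1-i) : ℕ) : ZMod p) := by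
      have : ((3*i+2 : ℕ) : ZMod p) + ((p : ℕ) : ZMod p) = ((3*(2*N-(N-1-i)) : ℕ) : ZMod p) := by
        rw [← Nat.cast_add]; congr 1; omega
      rw [CharP.cast_eq_zero (ZMod p) p, add_zero] at this
      rw [this]; push_cast; rfl
    rw [e, mul_inv] at h1
    push_cast at h1
    exact h1
  have b2 : Red p (∑ i ∈ range N, 2*(3*(i:ℚ)+1)⁻¹) (2*(3⁻¹ * (hh p (3*N) - hh p (2*N)))) := by
    have h := hh_block (p := p) (2*N) N
    rw [show 2*N+N = 3*N by ring] at h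
    rw [← h, ← sum_range_reflect (fun j => (((3*N-j : ℕ) : ZMod p))⁻¹), mul_sum, mul_sum]
    apply Red.sum
    intro i hi
    rw [mem_range] at hi
    have h1 := (Red.nat (p := p) 2).mul ((Red.nat (p := p) (3*i+1)).inv (cast_ne (by omega) (by omega)))
    have e : ((3*i+1 : ℕ) : ZMod p) = 3 * ((3*N-(N-1-i) : ℕ) : ZMod p) := by
      have : ((3*i+1 : ℕ) : ZMod p) + 2 * ((p : ℕ) : ZMod p) = ((3*(3*N-(N-1-i)) : ℕ) : ZMod p) := by
        have e9 : 3*(3*N-(N-1-i)) = 3*i+1 + 2*p := by omega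
        rw [e9]; push_cast; ring
      rw [CharP.cast_eq_zero (ZMod p) p, mul_zero, add_zero] at this
      rw [this]; push_cast; rfl
    rw [e, mul_inv] at h1
    push_cast at h1
    exact h1
  have hsym := EJ.hh_sym (p := p) (n := N) hN (by omega)
  have htop : hh p (3*N) = 0 := by
    have h1 := Red.of_I (H_top (p := p) h3)
    rw [show p - 1 = 3*N by omega] at h1
    exact (H_red (p := p) (n := 3*N) (by omega) (by omega)).uniq h1
  rw [hsym, sub_self, mul_zero] at b1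
  rw [htop, hsym] at b2
  have b3 := ((((Red.nat (p := p) 2).mul i3).mul (H_red (p := p) (n := N) (by omega) (by omega))).neg)
  push_cast at b3
  have b4 := b3.sub (b1.add b2)
  have e7 : -(2 * 3⁻¹ * hh p N) - (0 + 2 * (3⁻¹ * (0 - hh p N))) = 0 := by ring
  rw [e7] at b4
  exact Red.to_I b4

end

end Pool.Agent.R856.GM
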