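import Pool.Agent.R856.GM4
import Pool.Agent.R856.GM5

set_option autoImplicit false

/-!
The ratio of the two closed forms modulo `p^2`, for `p = 12r+7`.
-/

namespace Pool.Agent.R856.GM

open Finset Pool.Agent.Helper857.Pad

open FK (Red EX H H_succ H_double H_top H_red H_mem inv_lt not_dvd_small inv2 inv3 inv4 fact_lift cexp)

lemma refl_prod (f : ℕ → ℚ) (n : ℕ) : ∏ i ∈ range n, f i = ∏ i ∈ range n, f (n-1-i) := (prod_range_reflect f n).symm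

lemma H_diff (a b : ℕ) : H (a+b) - H a = ∑ i ∈ range b, ((a:ℚ)+i+1)⁻¹ := by
  unfold H
  rw [sum_range_add, add_sub_cancel_left]
  apply sum_congr rfl
  intro i _
  push_cast
  rfl

lemma sub_cast (n i : ℕ) (hi : i < n) : ((n - 1 - i : ℕ) : ℚ) = (n:ℚ) - 1 - i := by
  rw [Nat.cast_sub (by omega), Nat.cast_sub (by omega)]; push_cast; ring

section

variable {p r : ℕ} (hr : 12*r+7 = p)
include hr

lemma pr : (p:ℚ) = 12*r+7 := by rw [← hr]; push_cast; ring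

lemma Q76_eq : ∏ i ∈ range (2*r), ((7:ℚ)/6+i) = ((2*r).factorial : ℚ) * ∏ i ∈ range (2*r), (1 + (p:ℚ) * (-(6:ℚ)⁻¹ * ((i:ℚ)+1)⁻¹)) := by
  have hp := pr hr
  have s : ((-1:ℚ))^(2*r) = 1 := by rw [pow_mul]; simp
  rw [refl_prod, ← prod_range_add_one_eq_factorial]
  push_cast
  have h : ∏ i ∈ range (2*r), ((-1:ℚ)) = 1 := by rw [prod_const, card_range, s]
  rw [show (∏ i ∈ range (2*r), ((7:ℚ)/6 + ((2*r-1-i : ℕ) : ℚ))) = (∏ i ∈ range (2*r), ((7:ℚ)/6 + ((2*r-1-i : ℕ) : ℚ))) * ∏ i ∈ range (2*r), ((-1:ℚ)) by rw [h, mul_one], ← prod_mul_distrib, ← prod_mul_distrib]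
  apply prod_congr rfl
  intro i hi
  rw [mem_range] at hi
  rw [sub_cast (2*r) i hi, hp]
  have c : (i:ℚ)+1 ≠ 0 := by positivity
  push_cast
  field_simp
  ring

lemma P43_eq : (∏ i ∈ range (2*r), ((4:ℚ)/3+i)) * ((2*r+1).factorial : ℚ) = ((4*r+1).factorial : ℚ) *
    ∏ i ∈ range (2*r), (1 + (p:ℚ) * (-(3:ℚ)⁻¹ * (2*(r:ℚ)+2+i)⁻¹)) := by
  have hp := pr hr
  have s : ((-1:ℚ))^(2*r) = 1 := by rw [pow_mul]; simp
  have h : ∏ i ∈ range (2*r), ((-1:ℚ)) = 1 := by rw [prod_const, card_range, s]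
  have hf : ((4*r+1).factorial : ℚ) = ((2*r+1).factorial : ℚ) * ∏ i ∈ range (2*r), (2*(r:ℚ)+2+i) := by
    rw [← prod_range_add_one_eq_factorial, ← prod_range_add_one_eq_factorial, show 4*r+1 = (2*r+1)+2*r by ring, prod_range_add]
    push_cast
    congr 1
    apply prod_congr rfl
    intro i _
    ring
  rw [hf, refl_prod]
  have e : ∏ i ∈ range (2*r), ((4:ℚ)/3 + ((2*r-1-i : ℕ) : ℚ)) = (∏ i ∈ range (2*r), (2*(r:ℚ)+2+i)) *
      ∏ i ∈ range (2*r), (1 + (p:ℚ) * (-(3:ℚ)⁻¹ * (2*(r:ℚ)+2+i)⁻¹)) := by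
    rw [show (∏ i ∈ range (2*r), ((4:ℚ)/3 + ((2*r-1-i : ℕ) : ℚ))) = (∏ i ∈ range (2*r), ((4:ℚ)/3 + ((2*r-1-i : ℕ) : ℚ))) * ∏ i ∈ range (2*r), ((-1:ℚ)) by rw [h, mul_one], ← prod_mul_distrib, ← prod_mul_distrib]
    apply prod_congr rfl
    intro i hi
    rw [mem_range] at hi
    rw [sub_cast (2*r) i hi, hp]
    have c : 2*(r:ℚ)+2+i ≠ 0 := by positivity
    push_cast
    field_simp
    ring
  rw [e]
  ring

omit hr in
lemma P52_eq (M : ℕ) : 16^M * (∏ i ∈ range (2*M), ((5:ℚ)/2+i)) * 6 * ((2*M+1).factorial : ℚ) = ((4*M+3).factorial : ℚ) := by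
  induction M with
  | zero => norm_num [Nat.factorial]
  | succ M ih =>
    rw [show 2*(M+1) = 2*M+1+1 by ring, prod_range_succ, prod_range_succ, fact_lift (2*M+2) (2*M+1+1+1) rfl, fact_lift (2*M+1) (2*M+2) rfl,
      fact_lift (4*M+6) (4*(M+1)+3) (by ring), fact_lift (4*M+5) (4*M+6) rfl, fact_lift (4*M+4) (4*M+5) rfl, fact_lift (4*M+3) (4*M+4) rfl, ← ih, pow_succ]
    push_cast
    ring

lemma P73_eq : ∏ i ∈ range (2*(3*r+1)), ((7:ℚ)/3+i) = ((p:ℚ)/3) * (((4*r).factorial : ℚ) * ∏ i ∈ range (4*r), (1 + (p:ℚ) * (-(3:ℚ)⁻¹ * ((i:ℚ)+1)⁻¹))) *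
    (((2*r+1).factorial : ℚ) * ∏ i ∈ range (2*r+1), (1 + (p:ℚ) * ((3:ℚ)⁻¹ * ((i:ℚ)+1)⁻¹))) := by
  have hp := pr hr
  have s : ((-1:ℚ))^(4*r) = 1 := by rw [show 4*r = 2*(2*r) by ring, pow_mul]; simp
  have h : ∏ i ∈ range (4*r), ((-1:ℚ)) = 1 := by rw [prod_const, card_range, s]
  rw [show 2*(3*r+1) = 4*r + (1 + (2*r+1)) by ring, prod_range_add, prod_range_add, prod_range_one]
  have e1 : ∏ i ∈ range (4*r), ((7:ℚ)/3+i) = ((4*r).factorial : ℚ) * ∏ i ∈ range (4*r), (1 + (p:ℚ) * (-(3:ℚ)⁻¹ * ((i:ℚ)+1)⁻¹)) := by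
    rw [refl_prod, ← prod_range_add_one_eq_factorial]
    push_cast
    rw [show (∏ i ∈ range (4*r), ((7:ℚ)/3 + ((4*r-1-i : ℕ) : ℚ))) = (∏ i ∈ range (4*r), ((7:ℚ)/3 + ((4*r-1-i : ℕ) : ℚ))) * ∏ i ∈ range (4*r), ((-1:ℚ)) by rw [h, mul_one], ← prod_mul_distrib, ← prod_mul_distrib]
    apply prod_congr rfl
    intro i hi
    rw [mem_range] at hi
    rw [sub_cast (4*r) i hi, hp]
    have c : (i:ℚ)+1 ≠ 0 := by positivity
    push_cast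
    field_simp
    ring
  have e2 : ∏ i ∈ range (2*r+1), ((7:ℚ)/3+((4*r+(1+i) : ℕ) : ℚ)) = ((2*r+1).factorial : ℚ) * ∏ i ∈ range (2*r+1), (1 + (p:ℚ) * ((3:ℚ)⁻¹ * ((i:ℚ)+1)⁻¹)) := by
    rw [← prod_range_add_one_eq_factorial]
    push_cast
    rw [← prod_mul_distrib]
    apply prod_congr rfl
    intro i _
    have c : (i:ℚ)+1 ≠ 0 := by positivity
    rw [hp]
    field_simp
    ring
  rw [e1, e2, hp]
  push_cast
  ring

lemma ff_eq : ((4*r+2).factorial : ℚ) * ((4*r+2).factorial : ℚ) = -(4*16^r) * ((2*r+1).factorial : ℚ) * ((6*r+3).factorial : ℚ) *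
    ∏ i ∈ range (2*r+1), (1 + (p:ℚ) * (-(2:ℚ)⁻¹ * (4*(r:ℚ)+3+i)⁻¹)) := by
  have hp := pr hr
  have hf2 := EJ.fact2 (2*r+1)
  have hf : ((6*r+3).factorial : ℚ) = ((4*r+2).factorial : ℚ) * ∏ i ∈ range (2*r+1), (4*(r:ℚ)+3+i) := by
    rw [← prod_range_add_one_eq_factorial, ← prod_range_add_one_eq_factorial, show 6*r+3 = (4*r+2)+(2*r+1) by ring, prod_range_add]
    push_cast
    congr 1
    apply prod_congr rfl
    intro i _
    ring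
  have ho : EJ.od (2*r+1) = (-2)^(2*r+1) * ((∏ i ∈ range (2*r+1), (4*(r:ℚ)+3+i)) * ∏ i ∈ range (2*r+1), (1 + (p:ℚ) * (-(2:ℚ)⁻¹ * (4*(r:ℚ)+3+i)⁻¹))) := by
    unfold EJ.od
    have h : ∏ i ∈ range (2*r+1), ((-2:ℚ)) = (-2)^(2*r+1) := by rw [prod_const, card_range]
    rw [refl_prod, ← h, ← prod_mul_distrib, ← prod_mul_distrib]
    apply prod_congr rfl
    intro i hi
    rw [mem_range] at hi
    rw [sub_cast (2*r+1) i hi, hp]
    have c : 4*(r:ℚ)+3+i ≠ 0 := by positivity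
    push_cast
    field_simp
    ring
  have g1 : ((4*r+2).factorial : ℚ) = 2^(2*r+1) * ((2*r+1).factorial : ℚ) * EJ.od (2*r+1) := by
    rw [← prod_range_add_one_eq_factorial (4*r+2), ← prod_range_add_one_eq_factorial (2*r+1), show 4*r+2 = 2*(2*r+1) by ring]
    push_cast
    exact hf2
  have g2 : ((4*r+2).factorial : ℚ) * ((4*r+2).factorial : ℚ) = ((4*r+2).factorial : ℚ) * (2^(2*r+1) * ((2*r+1).factorial : ℚ) * EJ.od (2*r+1)) := by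
    rw [← g1]
  have e4 : (2:ℚ)^(2*r+1) * (-2)^(2*r+1) = -(4*16^r) := by
    rw [← mul_pow, pow_succ, pow_mul]; norm_num; ring
  rw [g2, ho, hf, ← e4]
  ring

end

section

variable {p : ℕ} [hp : Fact p.Prime] {r : ℕ} (hr : 12*r+7 = p)
include hr

/-- the ratio of the two closed forms -/
theorem ratio : ∃ ρ : ℚ, EX p ρ (4 * 3⁻¹ * H (6*r+3)) ∧ F1 r = F2 (3*r+1) * ρ := by
  have h3 : 3 < p := by omega
  have hpq := pr hr
  have i2 := inv2 h3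
  have i3 := inv3 h3
  have i4 := inv4 h3
  have i6 : (6:ℚ)⁻¹ ∈ Zp p := by
    have : (6:ℚ)⁻¹ = 2⁻¹ * 3⁻¹ := by norm_num
    rw [this]; exact (Zp p).mul_mem i2 i3
  have mI : ∀ i, i + 1 < p → ((i:ℚ)+1)⁻¹ ∈ Zp p := by
    intro i hi
    have := inv_lt (p := p) (k := i+1) (by omega) (by omega)
    push_cast at this; exact this
  -- the expansions
  have xD := EX.prod (p := p) (fun i => -(6:ℚ)⁻¹ * ((i:ℚ)+1)⁻¹) (2*r) (fun i hi => (Zp p).mul_mem ((Zp p).neg_mem i6) (mI i (by omega)))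
  have xC := EX.prod (p := p) (fun i => -(3:ℚ)⁻¹ * (2*(r:ℚ)+2+i)⁻¹) (2*r) (by
    intro i hi
    have := inv_lt (p := p) (k := 2*r+2+i) (by omega) (by omega)
    push_cast at this; exact (Zp p).mul_mem ((Zp p).neg_mem i3) this)
  have xA := EX.prod (p := p) (fun i => -(3:ℚ)⁻¹ * ((i:ℚ)+1)⁻¹) (4*r) (fun i hi => (Zp p).mul_mem ((Zp p).neg_mem i3) (mI i (by omega)))
  have xB := EX.prod (p := p) (fun i => (3:ℚ)⁻¹ * ((i:ℚ)+1)⁻¹) (2*r+1) (fun i hi => (Zp p).mul_mem i3 (mI i (by omega)))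
  have xP := EX.prod (p := p) (fun i => -(2:ℚ)⁻¹ * (4*(r:ℚ)+3+i)⁻¹) (2*r+1) (by
    intro i hi
    have := inv_lt (p := p) (k := 4*r+3+i) (by omega) (by omega)
    push_cast at this; exact (Zp p).mul_mem ((Zp p).neg_mem i2) this)
  have x27 := pow27 h3 (N := 4*r+2) (by omega)
  have xc := cexp (p := p) (6*r+3) (by omega)
  have xm1 := EX.of (p := p) (x := -1) ((Zp p).neg_mem (Zp p).one_mem)
  have xm4 := EX.of (p := p) (x := -(4:ℚ)⁻¹) ((Zp p).neg_mem i4)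
  have sgn : (-1:ℚ)^(6*r+3) = -1 := by rw [show 6*r+3 = 2*(3*r+1)+1 by ring, pow_succ, pow_mul]; simp
  rw [sgn] at xc
  -- the exact relations
  have a1 := F1_eq r
  have a2 := F2_eq (3*r+1)
  rw [Q76_eq hr] at a1
  rw [P73_eq hr] at a2
  have p43 := P43_eq hr
  have p52 := P52_eq (3*r+1)
  have ff := ff_eq hr
  have hch := Nat.choose_mul_factorial_mul_factorial (show 6*r+3 ≤ p - 1 by omega)
  rw [show p - 1 - (6*r+3) = 6*r+3 by omega] at hch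
  have hch' : ((p-1).choose (6*r+3) : ℚ) * ((6*r+3).factorial:ℚ) * ((6*r+3).factorial:ℚ) = ((p-1).factorial:ℚ) := by exact_mod_cast hch
  have hpf : ((4*(3*r+1)+3).factorial : ℚ) = p * ((p-1).factorial:ℚ) := by
    rw [show 4*(3*r+1)+3 = p by omega]
    exact fact_lift (p-1) p (by omega)
  rw [show 2*(3*r+1)+1 = 6*r+3 by ring, hpf, ← hch'] at p52
  have g1 : ((4*r+2).factorial : ℚ) = (4*r+2) * ((4*r+1) * ((4*r).factorial : ℚ)) := by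
    rw [fact_lift (4*r+1) (4*r+2) rfl, fact_lift (4*r) (4*r+1) rfl]; push_cast; ring
  have g2 : ((4*r+1).factorial : ℚ) = (4*r+1) * ((4*r).factorial : ℚ) := by
    rw [fact_lift (4*r) (4*r+1) rfl]; push_cast; ring
  have g3 : ((2*r+1).factorial : ℚ) = (2*r+1) * ((2*r).factorial : ℚ) := by
    rw [fact_lift (2*r) (2*r+1) rfl]; push_cast; ring
  have n1 : ((2*r).factorial : ℚ) ≠ 0 := by exact_mod_cast (2*r).factorial_ne_zero
  have n2 : ((6*r+3).factorial : ℚ) ≠ 0 := by exact_mod_cast (6*r+3).factorial_ne_zero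
  have n4 : ((4*r).factorial : ℚ) ≠ 0 := by exact_mod_cast (4*r).factorial_ne_zero
  have p0 : (p:ℚ) ≠ 0 := by exact_mod_cast hp.out.ne_zero
  have nD := xD.ne
  have nc := xc.ne
  have nm1 := xm1.ne
  have nm4 := xm4.ne
  rw [g2, g3] at p43
  rw [g3] at a2
  rw [g1, g3] at ff
  generalize hf1 : F1 r = f1 at *
  generalize hf2 : F2 (3*r+1) = f2 at *
  generalize hDD : ∏ i ∈ range (2*r), (1 + (p:ℚ) * (-(6:ℚ)⁻¹ * ((i:ℚ)+1)⁻¹)) = D' at *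
  generalize hCC : ∏ i ∈ range (2*r), (1 + (p:ℚ) * (-(3:ℚ)⁻¹ * (2*(r:ℚ)+2+i)⁻¹)) = C' at *
  generalize hAA : ∏ i ∈ range (4*r), (1 + (p:ℚ) * (-(3:ℚ)⁻¹ * ((i:ℚ)+1)⁻¹)) = A' at *
  generalize hBB : ∏ i ∈ range (2*r+1), (1 + (p:ℚ) * ((3:ℚ)⁻¹ * ((i:ℚ)+1)⁻¹)) = B' at *
  generalize hPP : ∏ i ∈ range (2*r+1), (1 + (p:ℚ) * (-(2:ℚ)⁻¹ * (4*(r:ℚ)+3+i)⁻¹)) = P' at *
  generalize hc2 : ((p-1).choose (6*r+3) : ℚ) = ch at *
  generalize h43 : ∏ i ∈ range (2*r), ((4:ℚ)/3+i) = P43 at *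
  generalize h52 : ∏ i ∈ range (2*(3*r+1)), ((5:ℚ)/2+i) = P52 at *
  generalize hq1 : ((2*r).factorial : ℚ) = w2 at *
  generalize hq2 : ((6*r+3).factorial : ℚ) = w6 at *
  generalize hq4 : ((4*r).factorial : ℚ) = w4 at *
  have c16 : (16:ℚ)^r ≠ 0 := by positivity
  have c27 : (27:ℚ)^r ≠ 0 := by positivity
  have cr : (2*(r:ℚ)+1) ≠ 0 := by positivity
  -- (a'): f1 D' 16^r w2^2 (2r+1) = 3 27^r (4r+1) w4 C'
  have a' : f1 * D' * 16^r * (w2*w2) * (2*r+1) = 3 * 27^r * ((4*r+1) * w4) * C' := by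
    linear_combination (w2*(2*r+1)) * a1 + (3*27^r) * p43
  -- (b'): f2 2 w4 A (2r+1) w2 B 27^(3r+1) = ch w6
  have e27 : (27:ℚ)^(3*r+1) = 27*(27^r)^3 := by rw [pow_succ, pow_mul']; ring
  have b' : f2 * 2 * w4 * A' * ((2*r+1)*w2) * B' * (27*(27^r)^3) = ch * w6 := by
    rw [e27] at a2
    apply mul_left_cancel₀ (mul_ne_zero p0 n2)
    linear_combination (6*w6) * a2 + p52
  -- (c')
  have c' : (4*(r:ℚ)+2)^2*(4*r+1)^2*(w4*w4) = -(4*16^r)*((2*r+1)*w2)*w6*P' := by linear_combination ff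
  have main : f1 * (D' * (-ch) * ((4*r+2)*(4*r+1))) = f2 * (12 * (27*(27^r)^4) * P' * C' * A' * B') := by
    have big : (16^r * (w2*w2) * (2*(r:ℚ)+1)^2 * w6) ≠ 0 :=
      mul_ne_zero (mul_ne_zero (mul_ne_zero c16 (mul_ne_zero n1 n1)) (pow_ne_zero 2 cr)) n2
    apply mul_left_cancel₀ big
    linear_combination (-(ch * ((4*r+2)*(4*r+1)) * (2*r+1) * w6)) * a' +
      (3*27^r*((4*r+1)*w4)*C'*((4*r+2)*(4*r+1))*(2*r+1)) * b' -
      (3*27^r*C'*(27*(27^r)^3)*f2*A'*B'*w2*(2*r+1)) * c'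
  refine ⟨(27:ℚ)^(4*r+2) * (P' * (C' * (A' * (B' * ((1 + (p:ℚ) * -1)⁻¹ * ((1 + (p:ℚ) * -(4:ℚ)⁻¹)⁻¹ * ((-1 * ch)⁻¹ * D'⁻¹))))))), ?_, ?_⟩
  · have hE := x27.mul (xP.mul (xC.mul (xA.mul (xB.mul (xm1.inv.mul (xm4.inv.mul (xc.inv.mul xD.inv)))))))
    apply hE.congr
    rw [← mul_sum, ← mul_sum, ← mul_sum, ← mul_sum, ← mul_sum]
    have s1 : ∑ i ∈ range (2*r+1), (4*(r:ℚ)+3+i)⁻¹ = H (6*r+3) - H (4*r+2) := by
      rw [show 6*r+3 = (4*r+2)+(2*r+1) by ring, H_diff]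
      apply sum_congr rfl
      intro i _
      push_cast; congr 1; ring
    have s2 : ∑ i ∈ range (2*r), (2*(r:ℚ)+2+i)⁻¹ = H (4*r+1) - H (2*r+1) := by
      rw [show 4*r+1 = (2*r+1)+(2*r) by ring, H_diff]
      apply sum_congr rfl
      intro i _
      push_cast; congr 1; ring
    have s3 : ∑ i ∈ range (4*r), ((i:ℚ)+1)⁻¹ = H (4*r) := rfl
    have s4 : ∑ i ∈ range (2*r+1), ((i:ℚ)+1)⁻¹ = H (2*r+1) := rfl
    have s5 : ∑ i ∈ range (2*r), ((i:ℚ)+1)⁻¹ = H (2*r) := rfl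
    rw [s1, s2, s3, s4, s5]
    have t1 : H (4*r+2) = H (4*r) + (4*(r:ℚ)+1)⁻¹ + (4*(r:ℚ)+2)⁻¹ := by
      rw [show 4*r+2 = 4*r+1+1 by ring, H_succ, H_succ]; push_cast
      have : (4*(r:ℚ)+1+1) = 4*r+2 := by ring
      rw [this]
    have t2 : H (4*r+1) = H (4*r) + (4*(r:ℚ)+1)⁻¹ := by
      rw [H_succ]; push_cast; rfl
    have t3 : H (2*r+1) = H (2*r) + (2*(r:ℚ)+1)⁻¹ := by
      rw [H_succ]; push_cast; rfl
    have h6 := h6_rel h3 hr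
    have d1 : I p 1 ((4*(r:ℚ)+2)⁻¹ + 3) := by
      have e : (4*(r:ℚ)+2)⁻¹ + 3 = (p:ℚ)^1 * (4*(r:ℚ)+2)⁻¹ := by
        have c : 4*(r:ℚ)+2 ≠ 0 := by positivity
        rw [hpq]; field_simp; ring
      rw [e]
      have := inv_lt (p := p) (k := 4*r+2) (by omega) (by omega)
      push_cast at this
      exact (I.p_pow 1).mul_mem this
    have d2 : I p 1 ((4*(r:ℚ)+1)⁻¹ + 3*4⁻¹) := by
      have e : (4*(r:ℚ)+1)⁻¹ + 3*4⁻¹ = (p:ℚ)^1 * (4⁻¹ * (4*(r:ℚ)+1)⁻¹) := by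
        have c : 4*(r:ℚ)+1 ≠ 0 := by positivity
        rw [hpq]; field_simp; ring
      rw [e]
      have := inv_lt (p := p) (k := 4*r+1) (by omega) (by omega)
      push_cast at this
      exact (I.p_pow 1).mul_mem ((Zp p).mul_mem i4 this)
    have d3 : I p 1 ((2*(r:ℚ)+1)⁻¹ + 6) := by
      have e : (2*(r:ℚ)+1)⁻¹ + 6 = (p:ℚ)^1 * (2*(r:ℚ)+1)⁻¹ := by
        have c : 2*(r:ℚ)+1 ≠ 0 := by positivity
        rw [hpq]; field_simp; ring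
      rw [e]
      have := inv_lt (p := p) (k := 2*r+1) (by omega) (by omega)
      push_cast at this
      exact (I.p_pow 1).mul_mem this
    have m56 : (-(5*6⁻¹):ℚ) ∈ Zp p := (Zp p).neg_mem ((Zp p).mul_mem (nat_mem 5) i6)
    have m23 : (-(2*3⁻¹):ℚ) ∈ Zp p := (Zp p).neg_mem ((Zp p).mul_mem (nat_mem 2) i3)
    have m13 : (-(3⁻¹):ℚ) ∈ Zp p := (Zp p).neg_mem i3
    have m16 : (6⁻¹:ℚ) ∈ Zp p := i6
    have tot := (((h6.mem_mul m56).add (d1.mem_mul m23)).add (d2.mem_mul m13)).add (d3.mem_mul m16)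
    convert tot using 1
    rw [t1, t2, t3]
    ring
  · have hq : 9*((4*(r:ℚ)+2)*(4*r+1)) = 4*((1 + (p:ℚ) * -1) * (1 + (p:ℚ) * -(4:ℚ)⁻¹)) := by rw [hpq]; ring
    have e27' : (27:ℚ)^(4*r+2) = 27*27*(27^r)^4 := by rw [pow_add, pow_mul']; ring
    rw [e27']
    generalize (1 + (p:ℚ) * -1) = u1 at *
    generalize (1 + (p:ℚ) * -(4:ℚ)⁻¹) = u4 at *
    have nch : ch ≠ 0 := by intro h; apply nc; rw [h]; ring
    have key : f1 * (u1 * u4 * (-ch) * D') = f2 * (27*27*(27^r)^4 * P' * C' * A' * B') := by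
      linear_combination (9/4) * main - (f1*D'*(-ch)/4) * hq
    field_simp
    linear_combination (-1) * key

end

end Pool.Agent.R856.GM
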