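import Pool.Agent.R856.GM6
import Pool.Agent.R856.CM14
import Pool.Agent.R856.FK9

set_option autoImplicit false

/-!
Assembly of the Lucas-weighted sum modulo `p^2`, for `p = 12r+7`.
-/

namespace Pool.Agent.R856.GM

open Finset Pool.Agent.Helper857.Pad

open FK (Red EX H H_succ H_double H_top H_red H_mem inv_lt not_dvd_small inv2 inv3 inv4 fact_lift cexp)

section

variable {p : ℕ} [hp : Fact p.Prime]

lemma two_pow_red (h3 : 3 < p) {M : ℕ} (hM : 4*M+3 = p) : Red p ((-1)^(M+1) * 2^(2*M+1)) 1 := by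
  have h := legendreSym.eq_pow p 2
  rw [FK.leg2 h3, show p/2 = 2*M+1 by omega] at h
  have h2 : (2:ZMod p)^(2*M+1) = (-1)^(M+1) := by
    push_cast at h
    rw [← h]
    rcases Nat.even_or_odd (M+1) with he | ho
    · have : (M+1) % 2 = 0 := Nat.even_iff.mp he
      rw [he.neg_one_pow, if_pos (by omega)]
    · have : (M+1) % 2 = 1 := Nat.odd_iff.mp ho
      rw [ho.neg_one_pow, if_neg (by omega)]
  have hr : Red p ((-1)^(M+1) * ((2:ℕ):ℚ)^(2*M+1)) ((-1)^(M+1) * ((2:ℕ):ZMod p)^(2*M+1)) :=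
    ((Red.one.neg).pow (M+1)).mul ((Red.nat 2).pow (2*M+1))
  push_cast at hr
  rw [h2, ← mul_pow] at hr
  simpa using hr

lemma Y_EX (h3 : 3 < p) {M : ℕ} (hM : 4*M+3 = p) : EX p ((-1)^(M+1) * 2^(2*M+1)) (-(H (2*M+1) * 2⁻¹) * 2⁻¹) := by
  apply EX.sqrt h3 (two_pow_red h3 hM)
  have h := pow4 h3 (L := 2*M+1) (by omega)
  have e : ((-1:ℚ)^(M+1) * 2^(2*M+1)) * ((-1)^(M+1) * 2^(2*M+1)) = 4^(2*M+1) := by
    have : ((-1:ℚ)^(M+1) * 2^(2*M+1)) * ((-1)^(M+1) * 2^(2*M+1)) = ((-1)*(-1))^(M+1) * (2*2)^(2*M+1) := by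
      rw [mul_pow, mul_pow]; ring
    rw [this]; norm_num
  rw [e]; exact h

lemma key_E {ρ Z a b : ℚ} (hρ : EX p ρ a) (hZ : EX p Z b) (hab : I p 1 (3*a+4*b)) : I p 2 (3*ρ+1-2*Z*(3*ρ-1)) := by
  have e : 3*ρ+1-2*Z*(3*ρ-1) = (ρ - (1+p*a)) * (3 - 6*(1+p*b)) - (Z - (1+p*b)) * (2*(3*ρ-1)) - (p:ℚ)^1 * (3*a+4*b) - (p:ℚ)^2 * (6*a*b) := by ring
  rw [e]
  have mρ := hρ.mem
  have ma := hρ.1
  have mb := hZ.1
  have mp : (p:ℚ) ∈ Zp p := nat_mem p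
  have m2 : (2:ℚ) ∈ Zp p := nat_mem 2
  have m3 : (3:ℚ) ∈ Zp p := nat_mem 3
  have m6 : (6:ℚ) ∈ Zp p := nat_mem 6
  have m1 := (Zp p).one_mem
  refine (((hρ.2.mul_mem ((Zp p).sub_mem m3 ((Zp p).mul_mem m6 ((Zp p).add_mem m1 ((Zp p).mul_mem mp mb))))).sub
    (hZ.2.mul_mem ((Zp p).mul_mem m2 ((Zp p).sub_mem ((Zp p).mul_mem m3 mρ) m1)))).sub ?_).sub ?_
  · exact (I.p_pow 1).mul hab
  · exact (I.p_pow 2).mul_mem ((Zp p).mul_mem ((Zp p).mul_mem m6 ma) mb)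

theorem hval_rel {r : ℕ} (hr : 12*r+7 = p) : I p 2 (hval (3*r+1) (1/4) + 2*(-1)^(3*r+1) * hval (3*r+1) 4) := by
  have h3 : 3 < p := by omega
  have hM : 4*(3*r+1)+3 = p := by omega
  obtain ⟨A1, A2, A3⟩ := interp4 hM h3
  obtain ⟨ρ, hρ, hF⟩ := ratio hr
  have hT : ∑ k ∈ range (3*r+1+1), T (((3*r+1:ℕ):ℚ)/3) k = F2 (3*r+1) * ρ := by
    rw [← hF]
    unfold F1
    rw [show 3*r+1+1 = 3*r+2 by ring]
    have : (((3*r+1:ℕ):ℚ)/3) = (r:ℚ)+1/3 := by push_cast; ring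
    rw [this]
  rw [hT] at A1 A2
  have hY := (Y_EX h3 hM).mul (hcM_EX hM h3)
  have hrel := hM_rel h3 hM
  rw [show 2*(3*r+1)+1 = 6*r+3 by ring] at hY hrel
  have hab : I p 1 (3*(4 * 3⁻¹ * H (6*r+3)) + 4*(-(H (6*r+3) * 2⁻¹) * 2⁻¹ + -(2:ℚ)⁻¹ * H (3*r+1))) := by
    have e : 3*(4 * 3⁻¹ * H (6*r+3)) + 4*(-(H (6*r+3) * 2⁻¹) * 2⁻¹ + -(2:ℚ)⁻¹ * H (3*r+1)) = -(2*H (3*r+1) - 3*H (6*r+3)) := by ring
    rw [e]; exact hrel.neg
  have hE := key_E hρ hY hab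
  have hZ := hY.mem
  have m2 : (2:ℚ) ∈ Zp p := nat_mem 2
  apply I.cancel (n := 4) (by intro hd; exact absurd (Nat.le_of_dvd (by norm_num) hd) (by omega))
  have e4 : (4:ℚ)^(3*r+1) * (-1)^(3*r+1) * 2 = -((-1)^(3*r+1+1) * 2^(6*r+3)) := by
    rw [show 6*r+3 = 2*(3*r+1)+1 by ring, pow_succ (2:ℚ), pow_mul, pow_succ (-1:ℚ) (3*r+1)]
    norm_num
    ring
  have e : ((4:ℕ):ℚ) * (hval (3*r+1) (1/4) + 2*(-1)^(3*r+1) * hval (3*r+1) 4) =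
      (4 * hval (3*r+1) (1/4) - 3 * (F2 (3*r+1) * ρ) - F2 (3*r+1)) +
      F2 (3*r+1) * (3*ρ+1-2*((-1)^(3*r+1+1) * 2^(6*r+3) * hc (3*r+1) (3*r+1))*(3*ρ-1)) -
      (2*((-1)^(3*r+1+1) * 2^(6*r+3) * hc (3*r+1) (3*r+1))) * (2 * (∑ k ∈ range (3*r+1+1), Rr (3*r+1) k) - 3 * (F2 (3*r+1) * ρ) + F2 (3*r+1)) := by
    rw [hval_four (3*r+1)]
    push_cast
    linear_combination (4 * hc (3*r+1) (3*r+1) * (∑ k ∈ range (3*r+1+1), Rr (3*r+1) k)) * e4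
  rw [e]
  exact (A1.add (hE.mem_mul A3)).sub (A2.mem_mul ((Zp p).mul_mem m2 hZ))

end

lemma Sg1_eq (M : ℕ) : CM.Sg1 (2*M+1) = 2 * hval M 4 := by
  obtain ⟨w, hw⟩ : ∃ w : ℂ, w^2 + w + 1 = 0 := by
    refine ⟨(-1 + ((Real.sqrt 3 : ℝ) : ℂ) * Complex.I)/2, ?_⟩
    have h3 : ((Real.sqrt 3 : ℝ) : ℂ)^2 = 3 := by
      rw [← Complex.ofReal_pow, Real.sq_sqrt (by norm_num)]; norm_num
    have hI := Complex.I_sq
    linear_combination (1/4 * Complex.I^2) * h3 + (3/4) * hI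
  have h1 := fv_eq M w 4 (by push_cast; linear_combination (-4) * hw)
  have h2 := fv_eq M (w^2) 4 (by push_cast; linear_combination (-4)*(w^2-w+1) * hw)
  have h3 := CM.fv_diff (2*M+1) hw
  unfold CM.fv at h3
  push_cast at h1 h2 h3
  rw [h1, h2] at h3
  have hw0 : 2*w+1 ≠ 0 := by
    intro h
    have : (3:ℂ) = 0 := by linear_combination 4 * hw - (2*w+1) * h
    norm_num at this
  have h5 : (((CM.Sg1 (2*M+1) : ℚ)) : ℂ) = ((2 * hval M 4 : ℚ) : ℂ) := by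
    apply mul_left_cancel₀ hw0
    have e : (((CM.Sg1 (2*M+1) : ℚ)) : ℂ) = ∑ k ∈ range (2*M+1+1), (CM.chi3 k : ℂ) * (((2*M+1).choose k : ℂ) * ((2*M+1+k).choose k : ℂ)) := by
      unfold CM.Sg1 CM.aa
      push_cast
      rfl
    rw [e, ← h3]
    push_cast
    linear_combination (-2 * ((hval M 4 : ℚ) : ℂ)) * hw
  exact_mod_cast h5

/-- the Lucas sequence with parameters `(4,1)` -/
def lu : ℕ → ℤ
  | 0 => 0
  | 1 => 1
  | (k+2) => 4 * lu (k+1) - lu k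

lemma lu_C {s : ℂ} (hs : s^2 = 3) (k : ℕ) : 2*s*((lu k : ℤ) : ℂ) = (2+s)^k - (2-s)^k ∧
    2*s*((lu (k+1) : ℤ) : ℂ) = (2+s)^(k+1) - (2-s)^(k+1) := by
  induction k with
  | zero => simp [lu]; ring
  | succ k ih =>
    refine ⟨ih.2, ?_⟩
    rw [show lu (k+1+1) = 4 * lu (k+1) - lu k from rfl]
    push_cast
    have e1 := ih.1
    have e2 := ih.2
    rw [pow_succ, pow_succ] at e2
    rw [pow_succ, pow_succ, pow_succ, pow_succ]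
    linear_combination 4 * e2 - e1 - ((2+s)^k - (2-s)^k) * hs

lemma D_eq (M : ℕ) : ∑ k ∈ range (2*M+1+1), (((lu k : ℤ) : ℚ) * (-(1/4))^k) * CM.aa (2*M+1) k = -(hval M (1/4))/2 := by
  obtain ⟨s, hs⟩ : ∃ s : ℂ, s^2 = 3 := by
    refine ⟨((Real.sqrt 3 : ℝ) : ℂ), ?_⟩
    rw [← Complex.ofReal_pow, Real.sq_sqrt (by norm_num)]; norm_num
  have s0 : s ≠ 0 := by
    intro h; rw [h] at hs; norm_num at hs
  have h1 := fv_eq M (-(1/4)*(2+s)) (1/4) (by push_cast; linear_combination (-1/4) * hs)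
  have h2 := fv_eq M (-(1/4)*(2-s)) (1/4) (by push_cast; linear_combination (-1/4) * hs)
  have h5 : ((∑ k ∈ range (2*M+1+1), (((lu k : ℤ) : ℚ) * (-(1/4))^k) * CM.aa (2*M+1) k : ℚ) : ℂ) = ((-(hval M (1/4))/2 : ℚ) : ℂ) := by
    apply mul_left_cancel₀ (mul_ne_zero two_ne_zero s0)
    have e : 2*s*((∑ k ∈ range (2*M+1+1), (((lu k : ℤ) : ℚ) * (-(1/4))^k) * CM.aa (2*M+1) k : ℚ) : ℂ) =
        ∑ k ∈ range (2*M+1+1), (((2*M+1).choose k : ℂ) * ((2*M+1+k).choose k : ℂ)) * (-(1/4)*(2+s))^k -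
        ∑ k ∈ range (2*M+1+1), (((2*M+1).choose k : ℂ) * ((2*M+1+k).choose k : ℂ)) * (-(1/4)*(2-s))^k := by
      rw [← sum_sub_distrib]
      push_cast
      rw [mul_sum]
      apply sum_congr rfl
      intro k _
      unfold CM.aa
      push_cast
      rw [mul_pow, mul_pow]
      linear_combination ((-(1/4))^k * (((2*M+1).choose k : ℂ) * ((2*M+1+k).choose k : ℂ))) * (lu_C hs k).1
    rw [e, h1, h2]
    push_cast
    ring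
  exact_mod_cast h5

/-- the congruence of the problem -/
theorem final {p : ℕ} [hp : Fact p.Prime] {r : ℕ} (hr : 12*r+7 = p) (x y : ℤ) (hy : y % 4 = 1) (hxy : (p:ℤ) = x^2 + 3*y^2) :
    I p 2 (∑ k ∈ range p, ((lu k : ℤ) : ℚ) / 64^k * ((2*k).choose k : ℚ)^2 - (2*(y:ℚ) - p/(6*y))) := by
  have h3 : 3 < p := by omega
  have i2 := inv2 h3
  have i4 := inv4 h3
  have hA := (CM.partA (p := p) (c := 2*r+1) (by omega) (by omega) (3*r+1) (by omega) x y hy hxy).1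
  have hB := hval_rel hr
  have m4 : (-(1/4):ℚ) ∈ Zp p := by
    have : (-(1/4):ℚ) = -(4:ℚ)⁻¹ := by norm_num
    rw [this]; exact (Zp p).neg_mem i4
  have hC := CM.red (p := p) (m := 6*r+3) (by omega) (by omega) (fun k => ((lu k : ℤ) : ℚ) * (-(1/4))^k)
    (fun k _ => (Zp p).mul_mem (int_mem _) ((Zp p).pow_mem m4 k))
  have hD := D_eq (3*r+1)
  have hS := Sg1_eq (3*r+1)
  rw [show 2*(3*r+1)+1 = 6*r+3 by ring] at hD hS
  rw [show 3*(2*r+1) = 6*r+3 by ring, hS] at hA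
  rw [hD] at hC
  have e1 : ∑ k ∈ range p, ((lu k : ℤ) : ℚ) / 64^k * ((2*k).choose k : ℚ)^2 =
      ∑ k ∈ range p, ((lu k : ℤ) : ℚ) * (-(1/4))^k * (((2*k).choose k : ℚ)^2 / (-16)^k) := by
    apply sum_congr rfl
    intro k _
    have e : ((-(1/4):ℚ))^k * ((-16:ℚ)^k)⁻¹ = ((64:ℚ)^k)⁻¹ := by
      rw [← inv_pow, ← inv_pow, ← mul_pow]; norm_num
    rw [div_eq_mul_inv, div_eq_mul_inv, ← e]
    ring
  rw [e1]
  have ss : (-1:ℚ)^(3*r+1) * (-1:ℚ)^(3*r+1) = 1 := by rw [← mul_pow]; norm_num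
  have m1 : ((-1:ℚ)^(3*r+1)) ∈ Zp p := (Zp p).pow_mem ((Zp p).neg_mem (Zp p).one_mem) _
  have tot := (hC.sub (hB.mem_mul i2)).add (hA.mem_mul ((Zp p).mul_mem i2 m1))
  convert tot using 1
  have e5 : (p:ℚ)/(6*y) = 2⁻¹ * (p/(3*y)) := by
    by_cases h0 : (y:ℚ) = 0
    · rw [h0]; simp
    · field_simp; norm_num
  rw [e5]
  linear_combination (2⁻¹ * (4*(y:ℚ) - p/(3*y))) * ss

end Pool.Agent.R856.GM
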