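import Mathlib

namespace Pool.Agent.R856.JO

open Finset

section Cyc

variable {p : ℕ} [hp : Fact p.Prime] {K : Type*} [Field K] [CharP K p]

theorem zmod_prod : ∏ c : ZMod p, (Polynomial.X - Polynomial.C c) =
    (Polynomial.X ^ p - Polynomial.X : Polynomial (ZMod p)) := by
  have h1 : (Polynomial.X ^ p - Polynomial.X : Polynomial (ZMod p)).Monic := by
    apply Polynomial.monic_X_pow_sub
    rw [Polynomial.degree_X]
    exact_mod_cast hp.out.one_lt
  have h2 := FiniteField.roots_X_pow_card_sub_X (ZMod p)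
  rw [ZMod.card p] at h2
  have h3 := Polynomial.prod_multiset_X_sub_C_of_monic_of_roots_card_eq h1 (by
    rw [h2]
    rw [FiniteField.X_pow_card_sub_X_natDegree_eq (ZMod p) hp.out.one_lt]
    simp)
  rw [h2] at h3
  exact h3

theorem prod_range_zmod {M : Type*} [CommMonoid M] (f : ZMod p → M) :
    ∏ j ∈ range p, f (j : ZMod p) = ∏ c : ZMod p, f c := by
  symm
  refine Finset.prod_bij' (fun c _ => c.val) (fun j _ => (j : ZMod p)) ?_ ?_ ?_ ?_ ?_
  · intro c _
    exact mem_range.mpr (ZMod.val_lt c)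
  · intro j _; exact mem_univ _
  · intro c _; simp
  · intro j hj; exact ZMod.val_cast_of_lt (mem_range.mp hj)
  · intro c _; simp

theorem zmod_prod_eval (x : K) : ∏ c : ZMod p, (x - ZMod.castHom (dvd_refl p) K c) = x ^ p - x := by
  have h := congrArg (fun q => Polynomial.eval₂ (ZMod.castHom (dvd_refl p) K) x q) (zmod_prod (p := p))
  simp only [Polynomial.eval₂_finsetProd, Polynomial.eval₂_sub, Polynomial.eval₂_X,
    Polynomial.eval₂_C, Polynomial.eval₂_pow] at h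
  exact h

theorem prod_cyc (y : K) (u v : ℤ) (hu : (u : ZMod p) ≠ 0) :
    ∏ j ∈ range p, (y + (u : K) * (j : K) + (v : K)) = y ^ p - y := by
  rw [← zmod_prod_eval (p := p) y]
  have h1 : ∏ j ∈ range p, (y + (u : K) * (j : K) + (v : K)) =
      ∏ c : ZMod p, (y - ZMod.castHom (dvd_refl p) K (-(u : ZMod p) * c + -(v : ZMod p))) := by
    rw [← prod_range_zmod (p := p)]
    apply Finset.prod_congr rfl
    intro j _
    simp only [map_add, map_mul, map_neg, map_intCast, map_natCast]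
    ring
  rw [h1]
  have hu' : -(u : ZMod p) ≠ 0 := neg_ne_zero.mpr hu
  exact Equiv.prod_comp ((Equiv.mulLeft₀ (-(u : ZMod p)) hu').trans (Equiv.addRight (-(v : ZMod p))))
    (fun c => (y - ZMod.castHom (dvd_refl p) K c))

theorem two_pow_char : (2 : K) ^ p = 2 := by
  have h : (2 : ZMod p) ^ p = 2 := ZMod.pow_card 2
  have h2 := congrArg (ZMod.castHom (dvd_refl p) K) h
  rw [map_pow, map_ofNat] at h2
  exact h2

end Cyc

section WZ

variable {K : Type*} [Field K] (X : K)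

/-- The hypergeometric terms `y n = ∏_{j<n} 8 (2j+1+2X)^3/(j+1+X)^3`. -/
noncomputable def yK : ℕ → K
  | 0 => 1
  | n + 1 => 8 * (2 * n + 1 + 2 * X) ^ 3 / (n + 1 + X) ^ 3 * yK n

noncomputable def Fs (n k : ℕ) : K :=
  (n + X) * yK X n / 8 * ∏ j ∈ range k, ((n + X - j) / (2 * (n + X) - j - 1)) ^ 2

noncomputable def Pp (x : K) (k : ℕ) : K :=
  (x - k) ^ 2 * (2 * k - 5 * x) - 2 * (2 * x + 1) * (2 * x - k) ^ 2

noncomputable def Gs (n k : ℕ) : K := Pp (n + X) k / (n + X) ^ 3 * Fs X n k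

variable {X}

theorem Fs_succ (n k : ℕ) :
    Fs X n (k + 1) = Fs X n k * ((n + X - k) / (2 * (n + X) - k - 1)) ^ 2 := by
  unfold Fs
  rw [Finset.prod_range_succ]
  ring

theorem R2 (hX1 : ∀ a : ℤ, (a : K) + X ≠ 0) (hX2 : ∀ a : ℤ, (a : K) + 2 * X ≠ 0)
    (h2 : (2 : K) ≠ 0) (n k : ℕ) :
    Fs X (n + 1) (k + 1) =
      2 * (2 * (n + X) + 1) * (2 * (n + X) - k) ^ 2 / (n + X) ^ 3 * Fs X n k := by
  induction k with
  | zero =>
    have a1 : (n : K) + X ≠ 0 := by simpa using hX1 n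
    have a2 : (n : K) + 1 + X ≠ 0 := by simpa using hX1 (n + 1)
    have a3 : (2 : K) * n + 1 + 2 * X ≠ 0 := by simpa using hX2 (2 * n + 1)
    have h8 : (8 : K) ≠ 0 := by
      have : (8 : K) = 2 ^ 3 := by norm_num
      rw [this]; exact pow_ne_zero _ h2
    rw [Fs_succ]
    simp only [Fs, Finset.prod_range_zero, yK]
    push_cast
    have e1 : (2 : K) * (n + 1 + X) - 0 - 1 = 2 * n + 1 + 2 * X := by ring
    rw [e1]
    field_simp
    ring
  | succ k ih =>
    rw [Fs_succ, ih, Fs_succ]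
    have a1 : (n : K) + X ≠ 0 := by simpa using hX1 n
    have a2 : (2 : K) * (n + X) - k - 1 ≠ 0 := by
      have := hX2 (2 * n - k - 1)
      push_cast at this
      intro h; apply this; rw [← h]; ring
    have a3 : (2 : K) * (n + X) - k ≠ 0 := by
      have := hX2 (2 * n - k)
      push_cast at this
      intro h; apply this; rw [← h]; ring
    have e1 : (2 : K) * (((n + 1 : ℕ) : K) + X) - ((k + 1 : ℕ) : K) - 1 = 2 * (n + X) - k := by
      push_cast; ring
    have e2 : (((n + 1 : ℕ) : K) + X - ((k + 1 : ℕ) : K)) = n + X - k := by push_cast; ring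
    have e3 : (2 : K) * (n + X) - ((k + 1 : ℕ) : K) = 2 * (n + X) - k - 1 := by push_cast; ring
    rw [e1, e2, e3]
    field_simp

theorem WZ (hX1 : ∀ a : ℤ, (a : K) + X ≠ 0) (hX2 : ∀ a : ℤ, (a : K) + 2 * X ≠ 0)
    (h2 : (2 : K) ≠ 0) (n k : ℕ) :
    Fs X (n + 1) (k + 1) - Fs X n (k + 1) = Gs X n (k + 1) - Gs X n k := by
  rw [R2 hX1 hX2 h2]
  unfold Gs
  rw [Fs_succ]
  have a1 : (n : K) + X ≠ 0 := by simpa using hX1 n
  have a2 : (2 : K) * (n + X) - k - 1 ≠ 0 := by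
    have := hX2 (2 * n - k - 1)
    push_cast at this
    intro h; apply this; rw [← h]; ring
  unfold Pp
  push_cast
  field_simp
  ring

end WZ

section Per

variable {p : ℕ} [hp : Fact p.Prime] {K : Type*} [Field K] [CharP K p] {X : K}

theorem pow_sub_ne (hX1 : ∀ a : ℤ, (a : K) + X ≠ 0) (n : ℤ) :
    ((n : K) + X) ^ p - ((n : K) + X) ≠ 0 := by
  have h := prod_cyc (p := p) ((n : K) + X) (-1) 0 (by
    push_cast
    exact neg_ne_zero.mpr one_ne_zero)
  rw [← h, Finset.prod_ne_zero_iff]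
  intro j _ h0
  apply hX1 (n - j)
  rw [← h0]; push_cast; ring

theorem Fs_cyc (hX1 : ∀ a : ℤ, (a : K) + X ≠ 0) (h2 : (2 : K) ≠ 0) (n : ℕ) :
    Fs X n p = Fs X n 0 / 4 := by
  have e1 := prod_cyc (p := p) ((n : K) + X) (-1) 0 (by
    push_cast
    exact neg_ne_zero.mpr one_ne_zero)
  have e2 := prod_cyc (p := p) (2 * ((n : K) + X)) (-1) (-1) (by
    push_cast
    exact neg_ne_zero.mpr one_ne_zero)
  have e3 : ∏ j ∈ range p, (((n : K) + X - j) / (2 * (n + X) - j - 1)) ^ 2 =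
      ((((n : K) + X) ^ p - ((n : K) + X)) / ((2 * ((n : K) + X)) ^ p - 2 * ((n : K) + X))) ^ 2 := by
    rw [← e1, ← e2, ← Finset.prod_div_distrib, ← Finset.prod_pow]
    apply Finset.prod_congr rfl
    intro j _
    congr 2
    · push_cast; ring
    · push_cast; ring
  have e4 : (2 * ((n : K) + X)) ^ p - 2 * ((n : K) + X) = 2 * (((n : K) + X) ^ p - ((n : K) + X)) := by
    rw [mul_pow, two_pow_char (p := p)]; ring
  have h5 := pow_sub_ne (p := p) hX1 n
  rw [Int.cast_natCast] at h5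
  unfold Fs
  rw [e3, e4]
  have h4 : (4 : K) ≠ 0 := by
    have : (4 : K) = 2 ^ 2 := by norm_num
    rw [this]; exact pow_ne_zero _ h2
  have h6 : ((((n : K) + X) ^ p - ((n : K) + X)) / (2 * (((n : K) + X) ^ p - ((n : K) + X)))) ^ 2
      = 1 / 4 := by
    rw [div_mul_cancel_right₀ h5]
    norm_num
  rw [h6, Finset.prod_range_zero]
  ring

theorem yK_prod (n : ℕ) : yK X n = ∏ i ∈ range n, (8 * (2 * i + 1 + 2 * X) ^ 3 / (i + 1 + X) ^ 3) := by
  induction n with
  | zero => simp [yK]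
  | succ n ih => rw [Finset.prod_range_succ, ← ih]; simp only [yK]; ring

theorem yK_p (hX1 : ∀ a : ℤ, (a : K) + X ≠ 0) (h2' : (2 : ZMod p) ≠ 0) :
    yK X p = 64 := by
  rw [yK_prod, Finset.prod_div_distrib, Finset.prod_pow, Finset.prod_mul_distrib, Finset.prod_pow,
    Finset.prod_const, Finset.card_range]
  have e1 : ∏ i ∈ range p, ((i : K) + 1 + X) = X ^ p - X := by
    rw [← prod_cyc (p := p) X 1 1 (by push_cast; exact one_ne_zero)]
    apply Finset.prod_congr rfl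
    intro j _
    push_cast; ring
  have e2 : ∏ i ∈ range p, (2 * (i : K) + 1 + 2 * X) = 2 * (X ^ p - X) := by
    have h := prod_cyc (p := p) (2 * X) 2 1 (by push_cast; exact h2')
    have e3 : (2 * X) ^ p - 2 * X = 2 * (X ^ p - X) := by
      rw [mul_pow, two_pow_char (p := p)]; ring
    rw [← e3, ← h]
    apply Finset.prod_congr rfl
    intro j _
    push_cast; ring
  have e4 : (8 : K) ^ p = 8 := by
    have : (8 : K) = 2 ^ 3 := by norm_num
    rw [this, ← pow_mul, mul_comm, pow_mul, two_pow_char (p := p)]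
  have h5 := pow_sub_ne (p := p) hX1 0
  rw [Int.cast_zero, zero_add] at h5
  rw [e1, e2, e4]
  field_simp
  norm_num

theorem Gs_zero (hX1 : ∀ a : ℤ, (a : K) + X ≠ 0) (h2 : (2 : K) ≠ 0) (n : ℕ) :
    Gs X n 0 = -(21 * (n + X) + 8) * yK X n / 8 := by
  unfold Gs Pp Fs
  have a1 : (n : K) + X ≠ 0 := by simpa using hX1 n
  have h8 : (8 : K) ≠ 0 := by
    have : (8 : K) = 2 ^ 3 := by norm_num
    rw [this]; exact pow_ne_zero _ h2
  rw [Finset.prod_range_zero]
  push_cast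
  field_simp
  ring

theorem Gs_cyc (hX1 : ∀ a : ℤ, (a : K) + X ≠ 0) (h2 : (2 : K) ≠ 0) (n : ℕ) :
    Gs X n p = Gs X n 0 / 4 := by
  unfold Gs
  rw [Fs_cyc (p := p) hX1 h2 n]
  unfold Pp
  rw [CharP.cast_eq_zero K p, Nat.cast_zero]
  ring

/-- The sum over a full period. -/
noncomputable def Ph (p : ℕ) (X : K) (n : ℕ) : K := ∑ k ∈ range p, Fs X n (k + 1)

theorem Ph_succ (hX1 : ∀ a : ℤ, (a : K) + X ≠ 0) (hX2 : ∀ a : ℤ, (a : K) + 2 * X ≠ 0)
    (h2 : (2 : K) ≠ 0) (n : ℕ) :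
    Ph p X (n + 1) - Ph p X n = 3 / 32 * ((21 * (n + X) + 8) * yK X n) := by
  unfold Ph
  rw [← Finset.sum_sub_distrib]
  have : ∀ k ∈ range p, Fs X (n + 1) (k + 1) - Fs X n (k + 1) = Gs X n (k + 1) - Gs X n k :=
    fun k _ => WZ hX1 hX2 h2 n k
  rw [Finset.sum_congr rfl this, Finset.sum_range_sub, Gs_cyc (p := p) hX1 h2 n, Gs_zero hX1 h2]
  have h8 : (8 : K) ≠ 0 := by
    have : (8 : K) = 2 ^ 3 := by norm_num
    rw [this]; exact pow_ne_zero _ h2
  have h4 : (4 : K) ≠ 0 := by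
    have : (4 : K) = 2 ^ 2 := by norm_num
    rw [this]; exact pow_ne_zero _ h2
  have h32 : (32 : K) ≠ 0 := by
    have : (32 : K) = 2 ^ 5 := by norm_num
    rw [this]; exact pow_ne_zero _ h2
  field_simp
  ring

theorem Fs_p (hX1 : ∀ a : ℤ, (a : K) + X ≠ 0) (h2' : (2 : ZMod p) ≠ 0) (k : ℕ) :
    Fs X p k = 64 * Fs X 0 k := by
  unfold Fs
  rw [yK_p hX1 h2', CharP.cast_eq_zero K p, Nat.cast_zero]
  simp only [yK]
  ring

theorem exact_sum (hX1 : ∀ a : ℤ, (a : K) + X ≠ 0) (hX2 : ∀ a : ℤ, (a : K) + 2 * X ≠ 0)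
    (h2 : (2 : K) ≠ 0) (h2' : (2 : ZMod p) ≠ 0) (h3 : (3 : K) ≠ 0) :
    ∑ n ∈ range p, (21 * ((n : K) + X) + 8) * yK X n = 672 * Ph p X 0 := by
  have e1 : Ph p X p = 64 * Ph p X 0 := by
    unfold Ph
    rw [Finset.mul_sum]
    exact Finset.sum_congr rfl (fun k _ => Fs_p hX1 h2' _)
  have e2 : ∑ n ∈ range p, (Ph p X (n + 1) - Ph p X n) = 63 * Ph p X 0 := by
    rw [Finset.sum_range_sub, e1]; ring
  rw [Finset.sum_congr rfl (fun n _ => Ph_succ hX1 hX2 h2 n), ← Finset.mul_sum] at e2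
  have h32 : (32 : K) ≠ 0 := by
    have : (32 : K) = 2 ^ 5 := by norm_num
    rw [this]; exact pow_ne_zero _ h2
  have e3 : (3 : K) * ∑ n ∈ range p, (21 * ((n : K) + X) + 8) * yK X n = 3 * (672 * Ph p X 0) := by
    field_simp at e2
    linear_combination e2
  exact mul_left_cancel₀ h3 e3

theorem Ph_zero (hX1 : ∀ a : ℤ, (a : K) + X ≠ 0) (h2 : (2 : K) ≠ 0) :
    Ph p X 0 = X / 32 + X ^ 3 * ∑ k ∈ range (p - 1),
      1 / 8 * (∏ j ∈ range k, (X - (j + 1 : ℕ))) ^ 2 / (∏ j ∈ range (k + 1), (2 * X - j - 1)) ^ 2 := by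
  unfold Ph
  have hp1 : p = (p - 1) + 1 := (Nat.sub_add_cancel hp.out.one_le).symm
  have h8 : (8 : K) ≠ 0 := by
    have : (8 : K) = 2 ^ 3 := by norm_num
    rw [this]; exact pow_ne_zero _ h2
  have h4 : (4 : K) ≠ 0 := by
    have : (4 : K) = 2 ^ 2 := by norm_num
    rw [this]; exact pow_ne_zero _ h2
  have h32 : (32 : K) ≠ 0 := by
    have : (32 : K) = 2 ^ 5 := by norm_num
    rw [this]; exact pow_ne_zero _ h2
  conv_lhs => rw [hp1]
  rw [Finset.sum_range_succ]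
  rw [← hp1, Fs_cyc (p := p) hX1 h2 0, add_comm]
  congr 1
  · simp only [Fs, yK, Finset.prod_range_zero]
    push_cast
    field_simp
    ring
  · rw [Finset.mul_sum]
    apply Finset.sum_congr rfl
    intro k _
    unfold Fs
    simp only [yK]
    rw [Finset.prod_pow, Finset.prod_div_distrib, div_pow, Finset.prod_range_succ']
    push_cast
    simp only [zero_add, sub_zero, mul_one]
    ring

end Per
end Pool.Agent.R856.JO
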