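import Mathlib
import Pool.Agent.R856.JO1

namespace Pool.Agent.R856.JO

open Finset PowerSeries

section PS

variable (p : ℕ) [hp : Fact p.Prime]


/-- The power series `y n` (meaningful for `n < p`). -/
noncomputable def y : ℕ → (PowerSeries (ZMod p))
  | 0 => 1
  | n + 1 => 8 * (2 * (n : (PowerSeries (ZMod p))) + 1 + 2 * (X : PowerSeries (ZMod p))) ^ 3 * (((n : (PowerSeries (ZMod p))) + 1 + (X : PowerSeries (ZMod p))) ^ 3)⁻¹ * y n

variable {p}

theorem cc_ne {n : ℕ} (hn : n + 1 < p) :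
    constantCoeff (((n : (PowerSeries (ZMod p))) + 1 + (X : PowerSeries (ZMod p))) ^ 3) ≠ 0 := by
  rw [map_pow]
  apply pow_ne_zero
  simp only [map_add, map_natCast, map_one, constantCoeff_X, add_zero]
  intro h
  have h1 : ((n + 1 : ℕ) : ZMod p) = 0 := by push_cast; exact h
  rw [ZMod.natCast_eq_zero_iff] at h1
  exact absurd (Nat.le_of_dvd (Nat.succ_pos n) h1) (by omega)

theorem y_rec {n : ℕ} (hn : n + 1 < p) :
    ((n : (PowerSeries (ZMod p))) + 1 + (X : PowerSeries (ZMod p))) ^ 3 * y p (n + 1) = 8 * (2 * (n : (PowerSeries (ZMod p))) + 1 + 2 * (X : PowerSeries (ZMod p))) ^ 3 * y p n := by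
  have h := PowerSeries.mul_inv_cancel _ (cc_ne hn)
  rw [y]
  linear_combination (8 * (2 * (n : (PowerSeries (ZMod p))) + 1 + 2 * (X : PowerSeries (ZMod p))) ^ 3 * y p n) * h

/-- the fraction field -/
abbrev KK (p : ℕ) [Fact p.Prime] := FractionRing (PowerSeries (ZMod p))

theorem amap_inj : Function.Injective (algebraMap (PowerSeries (ZMod p)) (KK p)) :=
  IsFractionRing.injective _ _

instance : CharP (KK p) p :=
  charP_of_injective_ringHom (f := (algebraMap (PowerSeries (ZMod p)) (KK p)).comp (C (R := ZMod p))) (RingHom.injective _) p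

theorem amap_inv (u : (PowerSeries (ZMod p))) (hu : constantCoeff u ≠ 0) :
    algebraMap (PowerSeries (ZMod p)) (KK p) u⁻¹ = (algebraMap (PowerSeries (ZMod p)) (KK p) u)⁻¹ := by
  have h := congrArg (algebraMap (PowerSeries (ZMod p)) (KK p)) (PowerSeries.mul_inv_cancel u hu)
  rw [map_mul, map_one] at h
  exact eq_inv_of_mul_eq_one_right h

theorem y_map {n : ℕ} (hn : n < p) :
    algebraMap (PowerSeries (ZMod p)) (KK p) (y p n) = yK (algebraMap (PowerSeries (ZMod p)) (KK p) (X : PowerSeries (ZMod p))) n := by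
  induction n with
  | zero => simp [y, yK]
  | succ n ih =>
    rw [y, yK, ← ih (by omega)]
    simp only [map_mul, amap_inv _ (cc_ne hn), map_pow, map_add, map_natCast, map_one, map_ofNat]
    ring

theorem coeff_one_intCast (a : ℤ) : coeff 1 (a : (PowerSeries (ZMod p))) = 0 := by
  have : (a : (PowerSeries (ZMod p))) = C (a : ZMod p) := by simp
  rw [this, coeff_C]; simp

theorem coeff_ofNat_mul (a : ℕ) (n : ℕ) (f : (PowerSeries (ZMod p))) : coeff n ((a : (PowerSeries (ZMod p))) * f) = (a : ZMod p) * coeff n f := by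
  have : (a : (PowerSeries (ZMod p))) = C (a : ZMod p) := by simp
  rw [this, coeff_C_mul]

theorem hX1 (a : ℤ) : (a : KK p) + algebraMap (PowerSeries (ZMod p)) (KK p) (X : PowerSeries (ZMod p)) ≠ 0 := by
  intro h
  have h1 : algebraMap (PowerSeries (ZMod p)) (KK p) ((a : (PowerSeries (ZMod p))) + (X : PowerSeries (ZMod p))) = 0 := by
    simpa using h
  rw [map_eq_zero_iff _ amap_inj] at h1
  have h2 := congrArg (coeff 1) h1
  rw [map_add, coeff_one_intCast, coeff_one_X, map_zero, zero_add] at h2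
  exact one_ne_zero h2

theorem hX2 (h2' : (2 : ZMod p) ≠ 0) (a : ℤ) : (a : KK p) + 2 * algebraMap (PowerSeries (ZMod p)) (KK p) (X : PowerSeries (ZMod p)) ≠ 0 := by
  intro h
  have h1 : algebraMap (PowerSeries (ZMod p)) (KK p) ((a : (PowerSeries (ZMod p))) + 2 * (X : PowerSeries (ZMod p))) = 0 := by
    rw [map_add, map_mul, map_ofNat, map_intCast]; exact h
  rw [map_eq_zero_iff _ amap_inj] at h1
  have h2 := congrArg (coeff 1) h1
  have h3 := coeff_ofNat_mul 2 1 (X : PowerSeries (ZMod p))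
  rw [Nat.cast_ofNat, Nat.cast_ofNat] at h3
  rw [map_add, coeff_one_intCast, h3, coeff_one_X, map_zero, zero_add, mul_one] at h2
  exact h2' h2

theorem two_ne (hp5 : 5 ≤ p) : (2 : ZMod p) ≠ 0 := by
  intro h
  have h1 : ((2 : ℕ) : ZMod p) = 0 := by exact_mod_cast h
  rw [ZMod.natCast_eq_zero_iff] at h1
  exact absurd (Nat.le_of_dvd (by norm_num) h1) (by omega)

theorem three_ne (hp5 : 5 ≤ p) : (3 : ZMod p) ≠ 0 := by
  intro h
  have h1 : ((3 : ℕ) : ZMod p) = 0 := by exact_mod_cast h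
  rw [ZMod.natCast_eq_zero_iff] at h1
  exact absurd (Nat.le_of_dvd (by norm_num) h1) (by omega)

theorem const_KK {a : ℕ} (h : (a : ZMod p) ≠ 0) : (a : KK p) ≠ 0 := by
  intro h0
  rw [CharP.cast_eq_zero_iff (KK p) p] at h0
  exact h ((ZMod.natCast_eq_zero_iff a p).mpr h0)

/-- The key mod `X^3` evaluation. -/
theorem L_eq (hp5 : 5 ≤ p) : ∃ R : (PowerSeries (ZMod p)),
    ∑ n ∈ range p, (21 * ((n : (PowerSeries (ZMod p))) + (X : PowerSeries (ZMod p))) + 8) * y p n = 21 * (X : PowerSeries (ZMod p)) + (X : PowerSeries (ZMod p)) ^ 3 * R := by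
  have h2' := two_ne hp5
  have h3' := three_ne hp5
  have h2 : (2 : KK p) ≠ 0 := by exact_mod_cast const_KK (a := 2) (by exact_mod_cast h2')
  have h3 : (3 : KK p) ≠ 0 := by exact_mod_cast const_KK (a := 3) (by exact_mod_cast h3')
  have hE := exact_sum (p := p) (hX1 (p := p)) (hX2 h2') h2 h2' h3
  rw [Ph_zero (p := p) hX1 h2] at hE
  have h32 : (32 : KK p) ≠ 0 := by
    have : (32 : KK p) = 2 ^ 5 := by norm_num
    rw [this]; exact pow_ne_zero _ h2
  have h8' : (8 : ZMod p) ≠ 0 := by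
    have : (8 : ZMod p) = 2 ^ 3 := by norm_num
    rw [this]; exact pow_ne_zero _ h2'
  refine ⟨672 * ∑ k ∈ range (p - 1), (8 : (PowerSeries (ZMod p)))⁻¹ * (∏ j ∈ range k, ((X : PowerSeries (ZMod p)) - ((j + 1 : ℕ) : (PowerSeries (ZMod p))))) ^ 2 *
    ((∏ j ∈ range (k + 1), (2 * (X : PowerSeries (ZMod p)) - (j : (PowerSeries (ZMod p))) - 1)) ^ 2)⁻¹, ?_⟩
  apply amap_inj
  rw [map_sum]
  have e1 : ∑ n ∈ range p, algebraMap (PowerSeries (ZMod p)) (KK p) ((21 * ((n : (PowerSeries (ZMod p))) + (X : PowerSeries (ZMod p))) + 8) * y p n) =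
      ∑ n ∈ range p, (21 * ((n : KK p) + algebraMap (PowerSeries (ZMod p)) (KK p) (X : PowerSeries (ZMod p))) + 8) * yK (algebraMap (PowerSeries (ZMod p)) (KK p) (X : PowerSeries (ZMod p))) n := by
    apply Finset.sum_congr rfl
    intro n hn
    rw [map_mul, y_map (mem_range.mp hn)]
    simp only [map_mul, map_add, map_ofNat, map_natCast]
  rw [e1, hE]
  rw [map_add, map_mul, map_mul, map_mul, map_sum, map_pow]
  have e2 : ∀ k ∈ range (p - 1), algebraMap (PowerSeries (ZMod p)) (KK p) ((8 : (PowerSeries (ZMod p)))⁻¹ * (∏ j ∈ range k, ((X : PowerSeries (ZMod p)) - ((j + 1 : ℕ) : (PowerSeries (ZMod p))))) ^ 2 *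
    ((∏ j ∈ range (k + 1), (2 * (X : PowerSeries (ZMod p)) - (j : (PowerSeries (ZMod p))) - 1)) ^ 2)⁻¹) = 
      1 / 8 * (∏ j ∈ range k, (algebraMap (PowerSeries (ZMod p)) (KK p) (X : PowerSeries (ZMod p)) - (j + 1 : ℕ))) ^ 2 /
        (∏ j ∈ range (k + 1), (2 * algebraMap (PowerSeries (ZMod p)) (KK p) (X : PowerSeries (ZMod p)) - j - 1)) ^ 2 := by
    intro k hk
    rw [map_mul, map_mul, amap_inv, amap_inv, map_pow, map_pow, map_prod, map_prod]
    · simp only [map_sub, map_mul, map_natCast, map_one, map_ofNat]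
      ring
    · rw [map_pow]
      apply pow_ne_zero
      rw [map_prod, Finset.prod_ne_zero_iff]
      intro j hj
      rw [mem_range] at hj hk
      simp only [map_sub, map_mul, map_natCast, map_one, map_ofNat, constantCoeff_X]
      intro h
      have h1 : ((j + 1 : ℕ) : ZMod p) = 0 := by push_cast; linear_combination -h
      rw [ZMod.natCast_eq_zero_iff] at h1
      exact absurd (Nat.le_of_dvd (Nat.succ_pos j) h1) (by omega)
    · rw [map_ofNat]; exact h8'
  rw [Finset.sum_congr rfl e2]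
  simp only [map_ofNat]
  field_simp
  ring

/-- the involution `X ↦ -X` -/
noncomputable abbrev cj : (PowerSeries (ZMod p)) →+* (PowerSeries (ZMod p)) := evalNegHom

theorem coeff_cj_two (f : (PowerSeries (ZMod p))) : coeff 2 (cj f) = coeff 2 f := by
  unfold cj evalNegHom
  rw [coeff_rescale]; norm_num

variable (p) in
/-- `[X^2] ∑_{i+j=n} (i+X)^a (j-X)^b y_i(X) y_j(-X)` -/
noncomputable def t (a b n : ℕ) : ZMod p :=
  coeff 2 (∑ ij ∈ Finset.HasAntidiagonal.antidiagonal n,
    ((ij.1 : (PowerSeries (ZMod p))) + (X : PowerSeries (ZMod p))) ^ a * ((ij.2 : (PowerSeries (ZMod p))) - (X : PowerSeries (ZMod p))) ^ b * (y p ij.1 * cj (y p ij.2)))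

theorem cj_cj (f : (PowerSeries (ZMod p))) : cj (cj f) = f := by
  ext n
  unfold cj evalNegHom
  rw [coeff_rescale, coeff_rescale, ← mul_assoc, ← mul_pow]
  norm_num

theorem t_symm (a b n : ℕ) : t p a b n = t p b a n := by
  unfold t
  rw [← coeff_cj_two, map_sum, ← Finset.Nat.sum_antidiagonal_swap]
  congr 1
  apply Finset.sum_congr rfl
  intro ij _
  simp only [Prod.fst_swap, Prod.snd_swap, map_mul, map_pow, map_add, map_sub, map_natCast, cj_cj]
  rw [evalNegHom_X]
  ring

theorem coeff_natCast_mul (a : ℕ) (n : ℕ) (f : (PowerSeries (ZMod p))) : coeff n ((a : (PowerSeries (ZMod p))) * f) = (a : ZMod p) * coeff n f :=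
  coeff_ofNat_mul a n f

theorem t_lin (a b n : ℕ) : (n : ZMod p) * t p a b n = t p (a + 1) b n + t p a (b + 1) n := by
  unfold t
  rw [← coeff_natCast_mul, ← map_add, ← Finset.sum_add_distrib, Finset.mul_sum]
  congr 1
  apply Finset.sum_congr rfl
  intro ij hij
  rw [Finset.HasAntidiagonal.mem_antidiagonal] at hij
  have : (n : (PowerSeries (ZMod p))) = (ij.1 : (PowerSeries (ZMod p))) + (ij.2 : (PowerSeries (ZMod p))) := by rw [← hij]; push_cast; ring
  rw [this]
  ring

theorem coeff_two_X_cube (f : (PowerSeries (ZMod p))) : coeff 2 ((X : PowerSeries (ZMod p)) ^ 3 * f) = 0 := by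
  rw [coeff_X_pow_mul']; simp

theorem t_rec (b n : ℕ) (hn : n + 1 < p) :
    t p 3 b (n + 1) = 64 * t p 3 b n + 96 * t p 2 b n + 48 * t p 1 b n + 8 * t p 0 b n := by
  unfold t
  rw [Finset.Nat.sum_antidiagonal_succ, map_add]
  have h0 : coeff 2 ((((0 : ℕ) : (PowerSeries (ZMod p))) + (X : PowerSeries (ZMod p))) ^ 3 * (((n + 1 : ℕ) : (PowerSeries (ZMod p))) - (X : PowerSeries (ZMod p))) ^ b *
      (y p 0 * cj (y p (n + 1)))) = 0 := by
    rw [Nat.cast_zero, zero_add, mul_assoc]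
    exact coeff_two_X_cube _
  simp only
  rw [h0, zero_add]
  have e : ∀ (c : ℕ) (g : (PowerSeries (ZMod p))), (c : ZMod p) * coeff 2 g = coeff 2 ((c : (PowerSeries (ZMod p))) * g) :=
    fun c g => (coeff_natCast_mul c 2 g).symm
  have e1 := fun g : (PowerSeries (ZMod p)) => e 64 g
  have e2 := fun g : (PowerSeries (ZMod p)) => e 96 g
  have e3 := fun g : (PowerSeries (ZMod p)) => e 48 g
  have e4 := fun g : (PowerSeries (ZMod p)) => e 8 g
  simp only [Nat.cast_ofNat] at e1 e2 e3 e4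
  rw [e1, e2, e3, e4, ← map_add, ← map_add, ← map_add, Finset.mul_sum, Finset.mul_sum,
    Finset.mul_sum, Finset.mul_sum, ← Finset.sum_add_distrib, ← Finset.sum_add_distrib,
    ← Finset.sum_add_distrib]
  congr 1
  apply Finset.sum_congr rfl
  intro ij hij
  rw [Finset.HasAntidiagonal.mem_antidiagonal] at hij
  have h := y_rec (p := p) (n := ij.1) (by omega)
  push_cast
  linear_combination (((ij.2 : (PowerSeries (ZMod p))) - (X : PowerSeries (ZMod p))) ^ b * cj (y p ij.2)) * h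

theorem t_zero (a b : ℕ) : t p a b 0 = coeff 2 (((X : PowerSeries (ZMod p))) ^ a * (-(X : PowerSeries (ZMod p))) ^ b) := by
  unfold t
  rw [Finset.Nat.antidiagonal_zero, Finset.sum_singleton]
  simp [y]

theorem t_closed (hp5 : 5 ≤ p) (n : ℕ) (hn : n < p) :
    2 * t p 3 0 n = 3 * n * 64 ^ n ∧ 8 * t p 3 1 n = -(3 * n * (n + 1) * 64 ^ n) ∧
    16 * t p 3 2 n = n ^ 2 * (3 - n) * 64 ^ n ∧
    t p 2 0 n = 64 ^ n ∧ 2 * t p 2 1 n = -(n * 64 ^ n) ∧ 8 * t p 2 2 n = n * (3 - n) * 64 ^ n ∧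
    t p 1 0 n = 0 ∧ t p 1 1 n = -64 ^ n ∧ t p 0 0 n = 0 := by
  have h2' := two_ne hp5
  induction n with
  | zero =>
    have hm : ∀ k : ℕ, (-(X : PowerSeries (ZMod p))) ^ k = (-1) ^ k * (X : PowerSeries (ZMod p)) ^ k := fun k => by rw [neg_pow]
    have hc : ∀ (k l : ℕ), coeff 2 (((X : PowerSeries (ZMod p))) ^ k * (-(X : PowerSeries (ZMod p))) ^ l) = (-1) ^ l * (if k + l = 2 then 1 else 0) := by
      intro k l
      have : ((X : PowerSeries (ZMod p))) ^ k * (-(X : PowerSeries (ZMod p))) ^ l = C ((-1 : ZMod p) ^ l) * (X : PowerSeries (ZMod p)) ^ (k + l) := by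
        rw [hm, pow_add, map_pow, map_neg, map_one]; ring
      rw [this, coeff_C_mul, coeff_X_pow]
      congr 1
      simp only [eq_comm]
    simp only [t_zero, hc]
    norm_num
  | succ n ih =>
    obtain ⟨h30, h31, h32, h20, h21, h22, h10, h11, h00⟩ := ih (by omega)
    have r0 := t_rec (p := p) 0 n hn
    have r1 := t_rec (p := p) 1 n hn
    have r2 := t_rec (p := p) 2 n hn
    have s01 := t_symm (p := p) 0 1 n
    have s02 := t_symm (p := p) 0 2 n
    have s12 := t_symm (p := p) 1 2 n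
    have s03' := t_symm (p := p) 0 3 (n + 1)
    have s13' := t_symm (p := p) 1 3 (n + 1)
    have s23' := t_symm (p := p) 2 3 (n + 1)
    have s12' := t_symm (p := p) 1 2 (n + 1)
    have s02' := t_symm (p := p) 0 2 (n + 1)
    have s01' := t_symm (p := p) 0 1 (n + 1)
    have l22 := t_lin (p := p) 2 2 (n + 1)
    have l12 := t_lin (p := p) 1 2 (n + 1)
    have l11 := t_lin (p := p) 1 1 (n + 1)
    have l02 := t_lin (p := p) 0 2 (n + 1)
    have l01 := t_lin (p := p) 0 1 (n + 1)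
    have l00 := t_lin (p := p) 0 0 (n + 1)
    norm_num only at l22 l12 l11 l02 l01 l00
    have hn0 : ((n + 1 : ℕ) : ZMod p) ≠ 0 := by
      intro h1
      rw [ZMod.natCast_eq_zero_iff] at h1
      exact absurd (Nat.le_of_dvd (Nat.succ_pos n) h1) (by omega)
    have hN : ((n + 1 : ℕ) : ZMod p) = (n : ZMod p) + 1 := by push_cast; ring
    rw [hN] at hn0
    rw [hN] at l22 l12 l11 l02 l01 l00
    rw [s01] at r1
    rw [s02, s12] at r2
    have a30 : 2 * t p 3 0 (n + 1) = 3 * ((n : ZMod p) + 1) * 64 ^ (n + 1) := by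
      rw [r0, pow_succ]
      linear_combination 64 * h30 + 192 * h20 + 96 * h10 + 16 * h00
    have a31 : 8 * t p 3 1 (n + 1) = -(3 * ((n : ZMod p) + 1) * (n + 1 + 1) * 64 ^ (n + 1)) := by
      rw [r1, pow_succ]
      linear_combination 64 * h31 + 384 * h21 + 384 * h11 + 64 * h10
    have a32 : 16 * t p 3 2 (n + 1) = ((n : ZMod p) + 1) ^ 2 * (3 - (n + 1)) * 64 ^ (n + 1) := by
      rw [r2, pow_succ]
      linear_combination 64 * h32 + 192 * h22 + 384 * h21 + 128 * h20
    have a22 : 8 * t p 2 2 (n + 1) = ((n : ZMod p) + 1) * (3 - (n + 1)) * 64 ^ (n + 1) := by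
      apply mul_left_cancel₀ hn0
      linear_combination 8 * l22 + a32 + 8 * s23'
    have a21 : 2 * t p 2 1 (n + 1) = -(((n : ZMod p) + 1) * 64 ^ (n + 1)) := by
      apply mul_left_cancel₀ hn0
      apply mul_left_cancel₀ h2'
      apply mul_left_cancel₀ h2'
      linear_combination 8 * l12 + a22 + a31 + 8 * s13' - 8 * ((n : ZMod p) + 1) * s12'
    have a11 : t p 1 1 (n + 1) = -64 ^ (n + 1) := by
      apply mul_left_cancel₀ hn0
      linear_combination l11 + a21 + s12'
    have a20 : t p 2 0 (n + 1) = 64 ^ (n + 1) := by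
      apply mul_left_cancel₀ hn0
      apply mul_left_cancel₀ h2'
      linear_combination 2 * l02 + a21 + a30 + 2 * s03' + 2 * s12' - 2 * ((n : ZMod p) + 1) * s02'
    have a10 : t p 1 0 (n + 1) = 0 := by
      apply mul_left_cancel₀ hn0
      linear_combination l01 + a11 + a20 + s02' - ((n : ZMod p) + 1) * s01'
    have a00 : t p 0 0 (n + 1) = 0 := by
      apply mul_left_cancel₀ hn0
      linear_combination l00 + 2 * a10 + s01'
    rw [hN]
    exact ⟨a30, a31, a32, a20, a21, a22, a10, a11, a00⟩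

end PS
end Pool.Agent.R856.JO
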