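import Mathlib
import Pool.Agent.R856.JO2

namespace Pool.Agent.R856.JO

open Finset PowerSeries

section Fin

variable {p : ℕ} [hp : Fact p.Prime]


theorem y_high {m : ℕ} (hm : p = 2 * m + 1) (i : ℕ) (hi : m < i) : (X : PowerSeries (ZMod p)) ^ 3 ∣ y p i := by
  induction i, hi using Nat.le_induction with
  | base =>
    rw [y]
    have h0 : (p : (PowerSeries (ZMod p))) = 0 := by
      have : (p : (PowerSeries (ZMod p))) = C ((p : ℕ) : ZMod p) := (map_natCast C p).symm
      rw [this, ZMod.natCast_self, map_zero]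
    have h1 : 2 * (m : (PowerSeries (ZMod p))) + 1 = 0 := by
      have h2 : 2 * (m : (PowerSeries (ZMod p))) + 1 = ((2 * m + 1 : ℕ) : (PowerSeries (ZMod p))) := by push_cast; ring
      rw [h2, ← hm, h0]
    rw [h1]
    exact ⟨64 * (((m : (PowerSeries (ZMod p))) + 1 + (X : PowerSeries (ZMod p))) ^ 3)⁻¹ * y p m, by ring⟩
  | succ n hn ih =>
    rw [y]
    exact Dvd.dvd.mul_left ih _

theorem cj_X_cube {f : (PowerSeries (ZMod p))} (h : (X : PowerSeries (ZMod p)) ^ 3 ∣ f) : (X : PowerSeries (ZMod p)) ^ 3 ∣ cj f := by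
  obtain ⟨g, rfl⟩ := h
  rw [map_mul, map_pow, evalNegHom_X]
  exact ⟨-cj g, by ring⟩

theorem coeff_two_dvd {f : (PowerSeries (ZMod p))} (h : (X : PowerSeries (ZMod p)) ^ 3 ∣ f) : coeff 2 f = 0 := by
  obtain ⟨g, rfl⟩ := h
  exact coeff_two_X_cube g

theorem sum_t {m : ℕ} (hm : p = 2 * m + 1) (a b : ℕ) :
    coeff 2 (∑ i ∈ range p, ∑ j ∈ range p,
      ((i : (PowerSeries (ZMod p))) + (X : PowerSeries (ZMod p))) ^ a * ((j : (PowerSeries (ZMod p))) - (X : PowerSeries (ZMod p))) ^ b * (y p i * cj (y p j))) = ∑ n ∈ range p, t p a b n := by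
  set g : ℕ → ℕ → ZMod p := fun i j =>
    coeff 2 (((i : (PowerSeries (ZMod p))) + (X : PowerSeries (ZMod p))) ^ a * ((j : (PowerSeries (ZMod p))) - (X : PowerSeries (ZMod p))) ^ b * (y p i * cj (y p j))) with hg
  have h1 : ∑ n ∈ range p, t p a b n = ∑ n ∈ range p, ∑ k ∈ range (n + 1), g k (n - k) := by
    apply Finset.sum_congr rfl
    intro n _
    unfold t
    rw [map_sum]
    exact Finset.Nat.sum_antidiagonal_eq_sum_range_succ g n
  rw [h1, Finset.sum_range_diag_flip, map_sum]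
  apply Finset.sum_congr rfl
  intro i hi
  rw [map_sum]
  symm
  apply Finset.sum_subset
  · intro j hj
    rw [mem_range] at hj ⊢
    omega
  · intro j hj1 hj2
    rw [mem_range] at hi hj1 hj2
    apply coeff_two_dvd
    apply Dvd.dvd.mul_left
    by_cases h : m < i
    · exact Dvd.dvd.mul_right (y_high hm i h) _
    · exact Dvd.dvd.mul_left (cj_X_cube (y_high hm j (by omega))) _

/-- The main vanishing. -/
theorem coeff_one_E (hp5 : 5 ≤ p) (hp7 : p ≠ 7) {m : ℕ} (hm : p = 2 * m + 1) :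
    coeff 1 (∑ i ∈ range p, y p i) = 0 := by
  set E := ∑ i ∈ range p, y p i with hE
  set E' := ∑ i ∈ range p, ((i : (PowerSeries (ZMod p))) + (X : PowerSeries (ZMod p))) * y p i with hE'
  obtain ⟨R, hR⟩ := L_eq (p := p) hp5
  have e0 : coeff 2 (E * cj E) = 0 := by
    have h := sum_t (p := p) hm 0 0
    rw [Finset.sum_congr rfl (fun n hn => (t_closed hp5 n (mem_range.mp hn)).2.2.2.2.2.2.2.2)] at h
    rw [Finset.sum_const_zero] at h
    rw [← h, hE, map_sum, Finset.sum_mul_sum]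
    congr 1
    apply Finset.sum_congr rfl; intro i _
    apply Finset.sum_congr rfl; intro j _
    ring
  have e1 : coeff 2 (E * cj E') = 0 := by
    have h := sum_t (p := p) hm 0 1
    rw [Finset.sum_congr rfl (fun n hn => (t_symm (p := p) 0 1 n).trans
      (t_closed hp5 n (mem_range.mp hn)).2.2.2.2.2.2.1)] at h
    rw [Finset.sum_const_zero] at h
    rw [← h, hE, hE', map_sum, Finset.sum_mul_sum]
    congr 1
    apply Finset.sum_congr rfl; intro i _
    apply Finset.sum_congr rfl; intro j _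
    rw [map_mul, map_add, map_natCast, evalNegHom_X]
    ring
  have e2 : 21 * E' + 8 * E = 21 * (X : PowerSeries (ZMod p)) + (X : PowerSeries (ZMod p)) ^ 3 * R := by
    rw [← hR, hE, hE', Finset.mul_sum, Finset.mul_sum, ← Finset.sum_add_distrib]
    apply Finset.sum_congr rfl; intro i _
    ring
  have e3 := congrArg (fun f => E * cj f) e2
  simp only [map_add, map_mul, map_ofNat, map_pow, evalNegHom_X] at e3
  have e4 : (21 : (PowerSeries (ZMod p))) * (E * cj E') + 8 * (E * cj E) = (-21 : (PowerSeries (ZMod p))) * ((X : PowerSeries (ZMod p)) * E) - (X : PowerSeries (ZMod p)) ^ 3 * (E * cj R) := by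
    linear_combination e3
  have e5 := congrArg (coeff 2) e4
  have k21 := fun g : (PowerSeries (ZMod p)) => coeff_natCast_mul 21 2 g
  have k8 := fun g : (PowerSeries (ZMod p)) => coeff_natCast_mul 8 2 g
  simp only [Nat.cast_ofNat] at k21 k8
  rw [map_add, map_sub, k21, k8, e0, e1, coeff_two_X_cube, neg_mul, map_neg, k21] at e5
  have e6 : coeff 2 ((X : PowerSeries (ZMod p)) * E) = coeff 1 E := by
    rw [mul_comm]; exact coeff_succ_mul_X 1 E
  rw [e6] at e5
  have h21 : (21 : ZMod p) ≠ 0 := by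
    intro h
    have h1 : ((21 : ℕ) : ZMod p) = 0 := by exact_mod_cast h
    rw [ZMod.natCast_eq_zero_iff] at h1
    have h2 : p ∣ 3 * 7 := h1
    rcases (Nat.Prime.dvd_mul hp.out).mp h2 with h3 | h3
    · have := Nat.le_of_dvd (by norm_num) h3; omega
    · rw [Nat.prime_dvd_prime_iff_eq hp.out (by norm_num)] at h3; exact hp7 h3
  have e7 : (21 : ZMod p) * coeff 1 E = 21 * 0 := by linear_combination e5
  exact mul_left_cancel₀ h21 e7

/-- harmonic numbers in `ZMod p` -/
def hf (p : ℕ) [Fact p.Prime] (n : ℕ) : ZMod p := ∑ j ∈ range n, ((j + 1 : ℕ) : ZMod p)⁻¹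

theorem coeff_zero_lin (u v : ZMod p) (w f : (PowerSeries (ZMod p))) :
    coeff 0 ((C u + (X : PowerSeries (ZMod p)) * C v + (X : PowerSeries (ZMod p)) ^ 2 * w) * f) = u * coeff 0 f := by
  simp only [coeff_zero_eq_constantCoeff, map_add, map_mul, map_pow, constantCoeff_X,
    constantCoeff_C]
  ring

theorem coeff_one_lin (u v : ZMod p) (w f : (PowerSeries (ZMod p))) :
    coeff 1 ((C u + (X : PowerSeries (ZMod p)) * C v + (X : PowerSeries (ZMod p)) ^ 2 * w) * f) = u * coeff 1 f + v * coeff 0 f := by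
  have e : (C u + (X : PowerSeries (ZMod p)) * C v + (X : PowerSeries (ZMod p)) ^ 2 * w) * f = C u * f + (C v * f) * (X : PowerSeries (ZMod p)) + ((X : PowerSeries (ZMod p)) * w * f) * (X : PowerSeries (ZMod p)) := by ring
  have h1 := fun g : (PowerSeries (ZMod p)) => coeff_succ_mul_X 0 g
  simp only [zero_add] at h1
  rw [e, map_add, map_add, h1, h1, coeff_C_mul, coeff_C_mul]
  simp only [coeff_zero_eq_constantCoeff, map_mul, constantCoeff_X]
  ring

theorem natCast_ne {n : ℕ} (h0 : 0 < n) (hn : n < p) : (n : ZMod p) ≠ 0 := by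
  intro h1
  rw [ZMod.natCast_eq_zero_iff] at h1
  exact absurd (Nat.le_of_dvd h0 h1) (by omega)

theorem y_coeffs (hp5 : 5 ≤ p) {m : ℕ} (hm : p = 2 * m + 1) (i : ℕ) (hi : i ≤ m) :
    coeff 0 (y p i) = (Nat.centralBinom i : ZMod p) ^ 3 ∧
    coeff 1 (y p i) = 6 * (Nat.centralBinom i : ZMod p) ^ 3 * (hf p (2 * i) - hf p i) := by
  induction i with
  | zero =>
    constructor
    · simp [y]
    · rw [y]; simp [coeff_one, hf]
  | succ n ih =>
    obtain ⟨h0, h1⟩ := ih (by omega)
    have hr := y_rec (p := p) (n := n) (by omega)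
    have d1 : ((n : (PowerSeries (ZMod p))) + 1 + (X : PowerSeries (ZMod p))) ^ 3 = C (((n : ZMod p) + 1) ^ 3) + (X : PowerSeries (ZMod p)) * C (3 * ((n : ZMod p) + 1) ^ 2)
        + (X : PowerSeries (ZMod p)) ^ 2 * (3 * ((n : (PowerSeries (ZMod p))) + 1) + (X : PowerSeries (ZMod p))) := by
      simp only [map_pow, map_add, map_mul, map_natCast, map_one, map_ofNat]
      ring
    have d2 : 8 * (2 * (n : (PowerSeries (ZMod p))) + 1 + 2 * (X : PowerSeries (ZMod p))) ^ 3 = C (8 * (2 * (n : ZMod p) + 1) ^ 3) +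
        (X : PowerSeries (ZMod p)) * C (48 * (2 * (n : ZMod p) + 1) ^ 2) + (X : PowerSeries (ZMod p)) ^ 2 * (96 * (2 * (n : (PowerSeries (ZMod p))) + 1) + 64 * (X : PowerSeries (ZMod p))) := by
      simp only [map_pow, map_add, map_mul, map_natCast, map_one, map_ofNat]
      ring
    rw [d1, d2] at hr
    have c0 := congrArg (coeff 0) hr
    have c1 := congrArg (coeff 1) hr
    rw [coeff_zero_lin, coeff_zero_lin, h0] at c0
    rw [coeff_one_lin, coeff_one_lin, h0, h1] at c1
    have hn1 : ((n : ZMod p) + 1) ≠ 0 := by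
      have := natCast_ne (p := p) (n := n + 1) (by omega) (by omega)
      push_cast at this; exact this
    have hn2 : (2 * (n : ZMod p) + 1) ≠ 0 := by
      have := natCast_ne (p := p) (n := 2 * n + 1) (by omega) (by omega)
      push_cast at this; exact this
    have h2' := two_ne hp5
    have cb : ((n : ZMod p) + 1) * (Nat.centralBinom (n + 1) : ZMod p) =
        2 * (2 * (n : ZMod p) + 1) * (Nat.centralBinom n : ZMod p) := by
      have := congrArg (Nat.cast (R := ZMod p)) (Nat.succ_mul_centralBinom_succ n)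
      push_cast at this
      exact this
    have cb3 : ((n : ZMod p) + 1) ^ 3 * (Nat.centralBinom (n + 1) : ZMod p) ^ 3 =
        8 * (2 * (n : ZMod p) + 1) ^ 3 * (Nat.centralBinom n : ZMod p) ^ 3 := by
      have := congrArg (fun z => z ^ 3) cb
      linear_combination this
    have a0 : coeff 0 (y p (n + 1)) = (Nat.centralBinom (n + 1) : ZMod p) ^ 3 := by
      apply mul_left_cancel₀ (pow_ne_zero 3 hn1)
      rw [c0, cb3]
    refine ⟨a0, ?_⟩
    rw [a0] at c1
    have hh : hf p (2 * (n + 1)) - hf p (n + 1) = hf p (2 * n) - hf p n +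
        ((2 * (n : ZMod p) + 1)⁻¹ - (2 * ((n : ZMod p) + 1))⁻¹) := by
      unfold hf
      have e : 2 * (n + 1) = 2 * n + 1 + 1 := by ring
      rw [e, Finset.sum_range_succ, Finset.sum_range_succ, Finset.sum_range_succ]
      push_cast
      have e2 : (2 * (n : ZMod p) + 1 + 1) = 2 * (n + 1) := by ring
      rw [e2]
      field_simp
      ring
    rw [hh]
    apply mul_left_cancel₀ (pow_ne_zero 3 hn1)
    have c1' : ((n : ZMod p) + 1) ^ 3 * coeff 1 (y p (n + 1)) =
       8 * (2 * (n : ZMod p) + 1) ^ 3 * (6 * (Nat.centralBinom n : ZMod p) ^ 3 * (hf p (2 * n) - hf p n)) +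
       48 * (2 * (n : ZMod p) + 1) ^ 2 * (Nat.centralBinom n : ZMod p) ^ 3 -
       3 * ((n : ZMod p) + 1) ^ 2 * (Nat.centralBinom (n + 1) : ZMod p) ^ 3 := by
      linear_combination c1
    rw [c1']
    set a := (Nat.centralBinom n : ZMod p) ^ 3
    set a' := (Nat.centralBinom (n + 1) : ZMod p) ^ 3
    have ea : a = ((n : ZMod p) + 1) ^ 3 * a' / (8 * (2 * (n : ZMod p) + 1) ^ 3) := by
      rw [cb3]
      have h8' : (8 : ZMod p) ≠ 0 := by
        have : (8 : ZMod p) = 2 ^ 3 := by norm_num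
        rw [this]; exact pow_ne_zero _ h2'
      field_simp
    rw [ea]
    have h8' : (8 : ZMod p) ≠ 0 := by
      have : (8 : ZMod p) = 2 ^ 3 := by norm_num
      rw [this]; exact pow_ne_zero _ h2'
    field_simp
    ring

theorem zmod_vanish_ne7 (hp5 : 5 ≤ p) (hp7 : p ≠ 7) {m : ℕ} (hm : p = 2 * m + 1) :
    ∑ k ∈ range (m + 1), (Nat.centralBinom k : ZMod p) ^ 3 * (hf p (2 * k) - hf p k) = 0 := by
  have h := coeff_one_E (p := p) hp5 hp7 hm
  rw [map_sum] at h
  have h1 : ∑ i ∈ range (m + 1), coeff 1 (y p i) = ∑ i ∈ range p, coeff 1 (y p i) := by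
    apply Finset.sum_subset
    · intro j hj
      rw [mem_range] at hj ⊢
      omega
    · intro j hj1 hj2
      rw [mem_range] at hj1 hj2
      obtain ⟨g, hg⟩ := y_high hm j (by omega)
      rw [hg, coeff_X_pow_mul']; simp
  rw [← h1] at h
  have h2 : ∑ i ∈ range (m + 1), coeff 1 (y p i) =
      6 * ∑ k ∈ range (m + 1), (Nat.centralBinom k : ZMod p) ^ 3 * (hf p (2 * k) - hf p k) := by
    rw [Finset.mul_sum]
    apply Finset.sum_congr rfl
    intro i hi
    rw [(y_coeffs hp5 hm i (by rw [mem_range] at hi; omega)).2]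
    ring
  rw [h2] at h
  have h6 : (6 : ZMod p) ≠ 0 := by
    have : (6 : ZMod p) = 2 * 3 := by norm_num
    rw [this]; exact mul_ne_zero (two_ne hp5) (three_ne hp5)
  exact (mul_eq_zero.mp h).resolve_left h6

end Fin

/-- `∑_{1 ≤ j ≤ n} D / j` as an integer -/
def hI (D n : ℕ) : ℤ := ∑ j ∈ range n, ((D / (j + 1) : ℕ) : ℤ)

theorem hI_zmod {p : ℕ} [hp : Fact p.Prime] (n : ℕ) (hn : n < p) :
    (hI (p - 1).factorial n : ZMod p) = ((p - 1).factorial : ZMod p) * hf p n := by
  unfold hI hf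
  rw [Finset.mul_sum, Int.cast_sum]
  apply Finset.sum_congr rfl
  intro j hj
  rw [mem_range] at hj
  have hd : (j + 1) ∣ (p - 1).factorial := Nat.dvd_factorial (Nat.succ_pos j) (by omega)
  obtain ⟨c, hc⟩ := hd
  have hj0 := natCast_ne (p := p) (n := j + 1) (by omega) (by omega)
  rw [Int.cast_natCast, hc, Nat.mul_div_cancel_left c (Nat.succ_pos j)]
  push_cast at hj0 ⊢
  field_simp

theorem hI_rat {p : ℕ} (n : ℕ) (hn : n < p) :
    (hI (p - 1).factorial n : ℚ) = ((p - 1).factorial : ℚ) * ∑ j ∈ Finset.Icc 1 n, (1 : ℚ) / j := by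
  unfold hI
  rw [Finset.mul_sum]
  have h1 : ∑ j ∈ Finset.Icc 1 n, ((p - 1).factorial : ℚ) * ((1 : ℚ) / j) =
      ∑ j ∈ range n, ((p - 1).factorial : ℚ) * ((1 : ℚ) / ((j + 1 : ℕ) : ℚ)) := by
    rw [Finset.range_eq_Ico, Finset.sum_Ico_add' (fun j : ℕ => ((p - 1).factorial : ℚ) * ((1 : ℚ) / (j : ℚ))) 0 n 1]
    rfl
  rw [h1, Int.cast_sum]
  apply Finset.sum_congr rfl
  intro j hj
  rw [mem_range] at hj
  have hd : (j + 1) ∣ (p - 1).factorial := Nat.dvd_factorial (Nat.succ_pos j) (by omega)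
  obtain ⟨c, hc⟩ := hd
  have hj0 : ((j : ℚ) + 1) ≠ 0 := by positivity
  rw [Int.cast_natCast, hc, Nat.mul_div_cancel_left c (Nat.succ_pos j)]
  push_cast
  field_simp

end Pool.Agent.R856.JO
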