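import Mathlib

set_option autoImplicit false

/-!
WZ evaluation of the truncated sums of `(3k+1) C(2k,k)^3 / 16^k`.
-/

namespace Pool.Agent.R856.TK

open Finset

/-- the summand without its linear factor -/
noncomputable def t (n : ℕ) : ℚ := ((2*n).choose n : ℚ)^3 / 16^n

noncomputable def rho (n j : ℕ) : ℚ :=
  -((2*(n:ℚ) + 2*j + 1) * ((n:ℚ) - 2*j) * ((n:ℚ) - 2*j - 1)) /
    ((2*(n:ℚ) - 2*j - 1) * (((n:ℚ) + 2*j + 1) * ((n:ℚ) + 2*j + 2)))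

noncomputable def h (n j : ℕ) : ℚ := t n * ∏ i ∈ range j, rho n i

noncomputable def G (n j : ℕ) : ℚ :=
  4 * (n:ℚ)^2 * ((n:ℚ) - 2*j) * h n j / ((2*(n:ℚ) - 2*j - 1) * ((n:ℚ) + 2*j + 1))

noncomputable def F (n j : ℕ) : ℚ := (3*(n:ℚ) + 1) * h n j

lemma t_succ (n : ℕ) : t (n+1) = t n * (2*(n:ℚ)+1)^3 / (2 * ((n:ℚ)+1)^3) := by
  unfold t
  have h0 := Nat.succ_mul_centralBinom_succ n
  rw [Nat.centralBinom_eq_two_mul_choose, Nat.centralBinom_eq_two_mul_choose] at h0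
  have h1 : ((n:ℚ)+1) * ((2*(n+1)).choose (n+1) : ℚ) = 2 * (2*(n:ℚ)+1) * ((2*n).choose n : ℚ) := by
    exact_mod_cast h0
  have h2 : ((n:ℚ)+1) ≠ 0 := by positivity
  have h3 : ((2*(n+1)).choose (n+1) : ℚ) = 2 * (2*(n:ℚ)+1) * ((2*n).choose n : ℚ) / ((n:ℚ)+1) := by
    rw [← h1]; field_simp
  rw [h3, pow_succ]
  field_simp
  ring

lemma odd_ne (n j : ℕ) : (2*(n:ℚ) - 2*j - 1) ≠ 0 := by
  intro hh
  have : (2*(n:ℤ) - 2*j - 1) = 0 := by exact_mod_cast hh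
  omega

lemma odd_ne' (n j : ℕ) : (2*(n:ℚ) - 2*j + 1) ≠ 0 := by
  intro hh
  have : (2*(n:ℤ) - 2*j + 1) = 0 := by exact_mod_cast hh
  omega

lemma h_succ (n j : ℕ) : h n (j+1) = h n j * rho n j := by
  unfold h; rw [prod_range_succ]; ring

lemma kappa (n j : ℕ) : ((n:ℚ) + 1 - 2*j) * h (n+1) j =
    (2*(n:ℚ)+1) * (2*(n:ℚ) + 2*j + 1) * (2*(n:ℚ) - 2*j + 1) / (2 * ((n:ℚ)+1) * ((n:ℚ) + 2*j + 1)) * h n j := by
  induction j with
  | zero =>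
    simp only [h, prod_range_zero, mul_one, t_succ]
    have h3 : (n:ℚ) + 1 ≠ 0 := by positivity
    push_cast
    simp only [mul_zero, sub_zero, add_zero]
    field_simp
  | succ j ih =>
    rw [h_succ, h_succ]
    have e1 : ((n:ℚ) + 1 - 2*((j+1:ℕ):ℚ)) * (h (n+1) j * rho (n+1) j) =
        (((n:ℚ) + 1 - 2*j) * h (n+1) j) *
        (-((2*(n:ℚ) + 2*j + 3) * ((n:ℚ) - 1 - 2*j) * ((n:ℚ) - 2*j)) /
          ((2*(n:ℚ) - 2*j + 1) * (((n:ℚ) + 2*j + 2) * ((n:ℚ) + 2*j + 3)))) := by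
      unfold rho
      have := odd_ne' n j
      have h4 : (n:ℚ) + 2*j + 2 ≠ 0 := by positivity
      have h5 : (n:ℚ) + 2*j + 3 ≠ 0 := by positivity
      push_cast
      rw [show 2 * ((n:ℚ)+1) - 2*j - 1 = 2*(n:ℚ) - 2*j + 1 by ring,
        show (n:ℚ)+1+2*j+1 = (n:ℚ)+2*j+2 by ring, show (n:ℚ)+1+2*j+2 = (n:ℚ)+2*j+3 by ring]
      generalize hd : 2*(n:ℚ) - 2*j + 1 = d at *
      field_simp
      ring
    rw [e1, ih]
    unfold rho
    have h1 := odd_ne' n j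
    have h2 := odd_ne n j
    have h3 : (n:ℚ) + 1 ≠ 0 := by positivity
    have h4 : (n:ℚ) + 2*j + 2 ≠ 0 := by positivity
    have h5 : (n:ℚ) + 2*j + 1 ≠ 0 := by positivity
    have h6 : (n:ℚ) + 2*j + 3 ≠ 0 := by positivity
    push_cast
    rw [show (2 * (n:ℚ) - 2 * ((j:ℚ) + 1) + 1) = 2 * (n:ℚ) - 2*j - 1 by ring,
      show (n:ℚ) + 2*((j:ℚ) + 1) + 1 = n + 2*j + 3 by ring]
    generalize hd : 2*(n:ℚ) - 2*j + 1 = d at *
    generalize he : 2*(n:ℚ) - 2*j - 1 = e at *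
    field_simp
    ring

lemma wz (n j : ℕ) : G (n+1) j - G n j = F n j - F n (j+1) := by
  have e1 : G (n+1) j = 2*((n:ℚ)+1)*(2*n+1)*(2*(n:ℚ)+2*j+1)/(((n:ℚ)+2*j+1)*((n:ℚ)+2*j+2)) * h n j := by
    unfold G
    have h1 := odd_ne' n j
    have h3 : (n:ℚ) + 1 ≠ 0 := by positivity
    have h5 : (n:ℚ) + 2*j + 1 ≠ 0 := by positivity
    have h6 : (n:ℚ) + 2*j + 2 ≠ 0 := by positivity
    have k := kappa n j
    have : 4 * ((n+1:ℕ):ℚ)^2 * (((n+1:ℕ):ℚ) - 2*j) * h (n+1) j = 4 * ((n:ℚ)+1)^2 * (((n:ℚ) + 1 - 2*j) * h (n+1) j) := by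
      push_cast; ring
    rw [this, k]
    push_cast
    rw [show 2 * ((n:ℚ)+1) - 2*j - 1 = 2*(n:ℚ) - 2*j + 1 by ring, show (n:ℚ) + 1 + 2*j + 1 = n + 2*j + 2 by ring]
    generalize hd : 2*(n:ℚ) - 2*j + 1 = d at *
    field_simp
    ring
  rw [e1]
  unfold F G
  rw [h_succ]
  unfold rho
  have h2 := odd_ne n j
  have h5 : (n:ℚ) + 2*j + 1 ≠ 0 := by positivity
  have h6 : (n:ℚ) + 2*j + 2 ≠ 0 := by positivity
  generalize he : 2*(n:ℚ) - 2*j - 1 = e at *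
  field_simp
  subst he
  ring

lemma h_zero {n j : ℕ} (hj : n < 2*j) : h n j = 0 := by
  unfold h
  have : ∏ i ∈ range j, rho n i = 0 := by
    apply Finset.prod_eq_zero (i := n/2) (by rw [mem_range]; omega)
    unfold rho
    have : ((n:ℚ) - 2*((n/2:ℕ):ℚ)) * ((n:ℚ) - 2*((n/2:ℕ):ℚ) - 1) = 0 := by
      rcases Nat.even_or_odd' n with ⟨m, hm | hm⟩
      · have : n/2 = m := by omega
        rw [this, hm]; push_cast; ring
      · have : n/2 = m := by omega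
        rw [this, hm]; push_cast; ring
    rw [mul_assoc, this]; simp
  rw [this, mul_zero]

lemma sum_G (J N : ℕ) (hN : N ≤ 2*J) :
    ∑ n ∈ range N, (3*(n:ℚ)+1) * t n = ∑ j ∈ range J, G N j := by
  have e0 : ∀ n ∈ range N, (3*(n:ℚ)+1) * t n = ∑ j ∈ range J, (F n j - F n (j+1)) := by
    intro n hn
    rw [mem_range] at hn
    rw [Finset.sum_range_sub']
    have h1 : F n 0 = (3*(n:ℚ)+1) * t n := by unfold F h; simp
    have h2 : F n J = 0 := by unfold F; rw [h_zero (by omega)]; simp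
    rw [h1, h2, sub_zero]
  rw [sum_congr rfl e0, sum_comm]
  apply sum_congr rfl
  intro j _
  have : ∑ n ∈ range N, (F n j - F n (j+1)) = ∑ n ∈ range N, (G (n+1) j - G n j) :=
    sum_congr rfl (fun n _ => (wz n j).symm)
  rw [this, Finset.sum_range_sub (fun n => G n j)]
  have : G 0 j = 0 := by unfold G; simp
  rw [this, sub_zero]

/-- the ratio of consecutive terms, after reversal -/
noncomputable def w (N : ℚ) (r : ℕ) : ℚ :=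
  ∏ i ∈ range r, (-((N + 2*i) * (2*N - 2*i) * (2*N - 2*i - 1)) / ((3*N - 2*i - 2) * ((2*(i:ℚ)+1) * (2*i+2))))

lemma G_step (j r : ℕ) : G (2*(j+(r+1))+1) j = G (2*(j+(r+1))+1) (j+1) *
      (-((((2*(j+(r+1))+1:ℕ):ℚ) + 2*r) * (2*((2*(j+(r+1))+1:ℕ):ℚ) - 2*r) * (2*((2*(j+(r+1))+1:ℕ):ℚ) - 2*r - 1)) /
        ((3*((2*(j+(r+1))+1:ℕ):ℚ) - 2*r - 2) * ((2*(r:ℚ)+1) * (2*r+2)))) := by
  unfold G
  rw [h_succ]
  unfold rho
  push_cast
  generalize h (2*(j+(r+1))+1) j = H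
  have ha : (0:ℚ) ≤ j := by positivity
  have hb : (0:ℚ) ≤ r := by positivity
  generalize (j:ℚ) = a at *
  generalize (r:ℚ) = b at *
  rw [show (2 * (a + (b + 1)) + 1 - 2 * a) = 2*b+3 by ring,
    show (2 * (2 * (a + (b + 1)) + 1) - 2 * a - 1) = 2*a+4*b+5 by ring,
    show (2 * (a + (b + 1)) + 1 + 2 * a + 1) = 4*a+2*b+4 by ring,
    show (2 * (a + (b + 1)) + 1 - 2 * (a + 1)) = 2*b+1 by ring,
    show (2 * (2 * (a + (b + 1)) + 1) + 2 * a + 1) = 6*a+4*b+7 by ring,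
    show (2 * (a + (b + 1)) + 1 + 2 * a + 2) = 4*a+2*b+5 by ring,
    show (2 * (2 * (a + (b + 1)) + 1) - 2 * (a + 1) - 1) = 2*a+4*b+3 by ring,
    show (2 * (a + (b + 1)) + 1 + 2 * (a + 1) + 1) = 4*a+2*b+6 by ring,
    show (2 * (a + (b + 1)) + 1 + 2 * b) = 2*a+4*b+3 by ring,
    show (2 * (2 * (a + (b + 1)) + 1) - 2 * b) = 4*a+2*b+6 by ring,
    show (3 * (2 * (a + (b + 1)) + 1) - 2 * b - 2) = 6*a+4*b+7 by ring,
    show (4*a+2*b+6 - 1) = 4*a+2*b+5 by ring,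
    show (2*b+3 - 1) = 2*b+2 by ring]
  have h1 : 2*a+4*b+5 ≠ 0 := by positivity
  have h2 : 4*a+2*b+4 ≠ 0 := by positivity
  have h3 : 2*b+1 ≠ 0 := by positivity
  have h4 : 6*a+4*b+7 ≠ 0 := by positivity
  have h5 : 4*a+2*b+5 ≠ 0 := by positivity
  have h6 : 2*a+4*b+3 ≠ 0 := by positivity
  have h7 : 4*a+2*b+6 ≠ 0 := by positivity
  have h8 : 2*b+2 ≠ 0 := by positivity
  field_simp

lemma G_rev (R r : ℕ) (hr : r ≤ R) : G (2*R+1) (R - r) = G (2*R+1) R * w ((2*R+1:ℕ):ℚ) r := by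
  induction r with
  | zero => simp [w]
  | succ r ih =>
    have ih' := ih (by omega)
    obtain ⟨j, rfl⟩ : ∃ j, R = j + (r+1) := ⟨R - (r+1), by omega⟩
    have e1 : j + (r+1) - (r+1) = j := by omega
    have e2 : j + (r+1) - r = j + 1 := by omega
    rw [e1]
    rw [e2] at ih'
    have hw : w ((2*(j+(r+1))+1:ℕ):ℚ) (r+1) = w ((2*(j+(r+1))+1:ℕ):ℚ) r *
      (-((((2*(j+(r+1))+1:ℕ):ℚ) + 2*r) * (2*((2*(j+(r+1))+1:ℕ):ℚ) - 2*r) * (2*((2*(j+(r+1))+1:ℕ):ℚ) - 2*r - 1)) /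
        ((3*((2*(j+(r+1))+1:ℕ):ℚ) - 2*r - 2) * ((2*(r:ℚ)+1) * (2*r+2)))) := by
      unfold w; rw [prod_range_succ]
    rw [hw, ← mul_assoc, ← ih']
    exact G_step j r

/-- the product `∏_{i=1}^{2R} (1 - N^2/(4 i^2))`, `N = 2R+1` -/
noncomputable def E (R : ℕ) : ℚ := ∏ i ∈ range (2*R), (1 - ((2*R+1:ℕ):ℚ)^2 / (4 * ((i:ℚ)+1)^2))

noncomputable def P1 (R : ℕ) : ℚ := ∏ i ∈ range (2*R), (2*(i:ℚ) + 1 - 2*R)
noncomputable def P2 (R : ℕ) : ℚ := ∏ i ∈ range (2*R), (2*(i:ℚ) + 3 + 2*R)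
noncomputable def P3 (R : ℕ) : ℚ := ∏ i ∈ range (2*R), (4 * ((i:ℚ)+1)^2)

lemma P3_ne (R : ℕ) : P3 R ≠ 0 := by
  unfold P3
  apply prod_ne_zero_iff.mpr
  intro i _; positivity

lemma E_eq (R : ℕ) : E R * P3 R = P1 R * P2 R := by
  unfold E P1 P2 P3
  rw [← prod_mul_distrib, ← prod_mul_distrib]
  apply prod_congr rfl
  intro i _
  have : ((i:ℚ)+1) ≠ 0 := by positivity
  push_cast
  field_simp
  ring

lemma P1_succ (R : ℕ) : P1 (R+1) = -(2*(R:ℚ)+1)^2 * P1 R := by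
  unfold P1
  rw [show 2*(R+1) = 2*R+1+1 by ring, prod_range_succ']
  have e : ∏ k ∈ range (2*R+1), (2*((k+1:ℕ):ℚ) + 1 - 2*((R+1:ℕ):ℚ)) = ∏ i ∈ range (2*R+1), (2*(i:ℚ) + 1 - 2*R) := by
    apply prod_congr rfl; intro i _; push_cast; ring
  rw [e, prod_range_succ]
  push_cast
  ring

lemma P2_succ (R : ℕ) : (2*(R:ℚ)+3) * P2 (R+1) = (6*(R:ℚ)+3)*(6*R+5)*(6*R+7) * P2 R := by
  unfold P2
  have e : (2*(R:ℚ)+3) * ∏ i ∈ range (2*(R+1)), (2*(i:ℚ) + 3 + 2*((R+1:ℕ):ℚ)) =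
      ∏ i ∈ range (2*(R+1)+1), (2*(i:ℚ) + 3 + 2*R) := by
    rw [prod_range_succ' _ (2*(R+1)), mul_comm]
    congr 1
    · apply prod_congr rfl; intro i _; push_cast; ring
    · push_cast; ring
  rw [e, show 2*(R+1)+1 = 2*R+1+1+1 by ring, prod_range_succ, prod_range_succ, prod_range_succ]
  push_cast
  ring

lemma P3_succ (R : ℕ) : P3 (R+1) = 64 * (2*(R:ℚ)+1)^2 * ((R:ℚ)+1)^2 * P3 R := by
  unfold P3
  rw [show 2*(R+1) = 2*R+1+1 by ring, prod_range_succ, prod_range_succ]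
  push_cast
  ring

lemma h_diag_succ (R : ℕ) : h (2*(R+1)+1) (R+1) * (64 * (2*(R:ℚ)+1) * ((R:ℚ)+1)^2) =
    -(6*(R:ℚ)+3)*(6*R+5)*(6*R+7) * h (2*R+1) R := by
  have k1 := kappa (2*R+1) R
  have k2 := kappa (2*R+2) R
  have hR : (0:ℚ) ≤ R := by positivity
  rw [show 2*(R+1)+1 = 2*R+2+1 by ring, h_succ]
  unfold rho
  push_cast at k1 k2 ⊢
  rw [show (2*R+1+1) = 2*R+2 by ring] at k1
  generalize h (2*R+2+1) R = A at *
  generalize h (2*R+2) R = B at *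
  generalize h (2*R+1) R = C at *
  generalize (R:ℚ) = x at *
  have h1 : 4*x+2 ≠ 0 := by positivity
  have h2 : 4*x+3 ≠ 0 := by positivity
  have h3 : 4*x+4 ≠ 0 := by positivity
  have h4 : 4*x+5 ≠ 0 := by positivity
  have h5 : 2*x+5 ≠ 0 := by positivity
  have h6 : 2*x+3 ≠ 0 := by positivity
  have h7 : x+1 ≠ 0 := by positivity
  have h8 : 2*x+1 ≠ 0 := by positivity
  rw [show (2*x+1+1-2*x) = 2 by ring, show (2*(2*x+1)+1) = 4*x+3 by ring,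
    show (2*(2*x+1)+2*x+1) = 3*(2*x+1) by ring, show (2*(2*x+1)-2*x+1) = 2*x+3 by ring,
    show (2*x+1+1) = 2*(x+1) by ring, show (2*x+1+2*x+1) = 2*(2*x+1) by ring] at k1
  rw [show (2*x+2+1-2*x) = 3 by ring, show (2*(2*x+2)+1) = 4*x+5 by ring,
    show (2*(2*x+2)+2*x+1) = 6*x+5 by ring, show (2*(2*x+2)-2*x+1) = 2*x+5 by ring,
    show (2*x+2+1) = 2*x+3 by ring, show (2*x+2+2*x+1) = 4*x+3 by ring] at k2
  rw [show (2*(2*x+2+1)+2*x+1) = 6*x+7 by ring, show (2*x+2+1-2*x) = 3 by ring,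
    show (3-1:ℚ) = 2 by norm_num, show (2*(2*x+2+1)-2*x-1) = 2*x+5 by ring,
    show (2*x+2+1+2*x+1) = 4*(x+1) by ring, show (2*x+2+1+2*x+2) = 4*x+5 by ring]
  have hB : B = (4*x+3)*(3*(2*x+1))*(2*x+3)/(2*(2*(x+1))*(2*(2*x+1)))*C/2 := by linear_combination k1/2
  have hA : A = (4*x+5)*(6*x+5)*(2*x+5)/(2*(2*x+3)*(4*x+3))*B/3 := by linear_combination k2/3
  rw [hA, hB]
  field_simp
  ring

lemma h_diag (R : ℕ) : 2 * h (2*R+1) R = ((2*R+1:ℕ):ℚ) * E R := by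
  induction R with
  | zero =>
    unfold h t E
    norm_num [Nat.choose]
  | succ R ih =>
    have e0 := E_eq R
    have e1 := E_eq (R+1)
    rw [P1_succ, P3_succ] at e1
    have p2 := P2_succ R
    have hd := h_diag_succ R
    have hR : (0:ℚ) ≤ R := by positivity
    have h3 := P3_ne R
    have h4 : 64 * (2*(R:ℚ)+1)^2 * ((R:ℚ)+1)^2 ≠ 0 := by positivity
    have h5 : (2*(R:ℚ)+3) ≠ 0 := by positivity
    have h6 : (2*(R:ℚ)+1) ≠ 0 := by positivity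
    have h7 : ((R:ℚ)+1) ≠ 0 := by positivity
    push_cast at ih ⊢
    apply mul_right_cancel₀ (mul_ne_zero h4 h3)
    generalize h (2*(R+1)+1) (R+1) = A at *
    generalize h (2*R+1) R = B at *
    generalize E (R+1) = E' at *
    generalize E R = E0 at *
    generalize P1 R = p1 at *
    generalize P2 (R+1) = p2' at *
    generalize P2 R = p2 at *
    generalize P3 R = p3 at *
    generalize (R:ℚ) = x at *
    linear_combination (2 * (2*x+1) * p3) * hd + (-(6*x+3)*(6*x+5)*(6*x+7) * (2*x+1) * p3) * ih +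
      (-(2*(x+1)+1)) * e1 + (2*x+1)^2 * p1 * p2 + (-(2*x+1)^2*(6*x+3)*(6*x+5)*(6*x+7)) * e0

/-- The exact evaluation. -/
theorem S_eq (R : ℕ) : ∑ n ∈ range (2*R+1), (3*(n:ℚ)+1) * t n =
    ((2*R+1:ℕ):ℚ) * (E R * ∑ r ∈ range (R+1), w ((2*R+1:ℕ):ℚ) r) := by
  rw [sum_G (R+1) (2*R+1) (by omega), ← Finset.sum_range_reflect]
  have e : ∀ r ∈ range (R+1), G (2*R+1) (R + 1 - 1 - r) = G (2*R+1) R * w ((2*R+1:ℕ):ℚ) r := by
    intro r hr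
    rw [mem_range] at hr
    rw [show R + 1 - 1 - r = R - r by omega]
    exact G_rev R r (by omega)
  rw [sum_congr rfl e, ← mul_sum]
  have hG : G (2*R+1) R = 2 * h (2*R+1) R := by
    unfold G
    have h1 : (2*(R:ℚ)+1) ≠ 0 := by positivity
    push_cast
    rw [show 2*(R:ℚ)+1-2*R = 1 by ring, show 2*(2*(R:ℚ)+1)-2*R-1 = 2*(R:ℚ)+1 by ring,
      show (2*(R:ℚ)+1+2*R+1) = 2*(2*(R:ℚ)+1) by ring]
    field_simp
    ring
  rw [hG, h_diag]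
  ring

end Pool.Agent.R856.TK
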