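import Pool.Agent.R856.TKA

set_option autoImplicit false

/-!
A second WZ pair for the truncated sums of `(3k+1) C(2k,k)^3 / 16^k`, adapted to the half range.
-/

namespace Pool.Agent.R856.TK

open Finset

noncomputable def rho3 (n j : ℕ) : ℚ :=
  -((2*(n:ℚ) + 2*j + 1) * ((n:ℚ) - j)) / ((2*(j:ℚ) + 1) * ((n:ℚ) + j + 1))

noncomputable def h3 (n j : ℕ) : ℚ := t n * ∏ i ∈ range j, rho3 n i

noncomputable def G3 (n j : ℕ) : ℚ := 2 * (n:ℚ) * ((n:ℚ) - j) * h3 n j / (2*(j:ℚ) + 1)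

noncomputable def F3 (n j : ℕ) : ℚ := (3*(n:ℚ) + 1 + j) * h3 n j

lemma h3_succ (n j : ℕ) : h3 n (j+1) = h3 n j * rho3 n j := by
  unfold h3; rw [prod_range_succ]; ring

lemma kappa3 (n j : ℕ) : ((n:ℚ) + 1 - j) * h3 (n+1) j =
    (2*(n:ℚ)+1)^2 * (2*(n:ℚ) + 2*j + 1) / (2 * ((n:ℚ)+1) * ((n:ℚ) + j + 1)) * h3 n j := by
  induction j with
  | zero =>
    simp only [h3, prod_range_zero, mul_one, t_succ]
    have h3 : (n:ℚ) + 1 ≠ 0 := by positivity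
    push_cast
    simp only [mul_zero, sub_zero, add_zero]
    field_simp
  | succ j ih =>
    rw [h3_succ, h3_succ]
    have e1 : ((n:ℚ) + 1 - ((j+1:ℕ):ℚ)) * (h3 (n+1) j * rho3 (n+1) j) =
        (((n:ℚ) + 1 - j) * h3 (n+1) j) *
        (-((2*(n:ℚ) + 2*j + 3) * ((n:ℚ) - j)) / ((2*(j:ℚ) + 1) * ((n:ℚ) + j + 2))) := by
      unfold rho3
      have h4 : (n:ℚ) + j + 2 ≠ 0 := by positivity
      push_cast
      rw [show (n:ℚ)+1+j+1 = (n:ℚ)+j+2 by ring]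
      field_simp
      ring
    rw [e1, ih]
    unfold rho3
    have h3 : (n:ℚ) + 1 ≠ 0 := by positivity
    have h4 : (n:ℚ) + j + 2 ≠ 0 := by positivity
    have h5 : (n:ℚ) + j + 1 ≠ 0 := by positivity
    push_cast
    rw [show (n:ℚ) + ((j:ℚ) + 1) + 1 = n + j + 2 by ring]
    field_simp
    ring

lemma wz3 (n j : ℕ) : G3 (n+1) j - G3 n j = F3 n j - F3 n (j+1) := by
  have e1 : G3 (n+1) j = (2*(n:ℚ)+1)^2*(2*(n:ℚ)+2*j+1)/((2*(j:ℚ)+1)*((n:ℚ)+j+1)) * h3 n j := by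
    unfold G3
    have h3 : (n:ℚ) + 1 ≠ 0 := by positivity
    have h5 : (n:ℚ) + j + 1 ≠ 0 := by positivity
    have k := kappa3 n j
    have : 2 * ((n+1:ℕ):ℚ) * (((n+1:ℕ):ℚ) - j) * TK.h3 (n+1) j = 2 * ((n:ℚ)+1) * (((n:ℚ) + 1 - j) * TK.h3 (n+1) j) := by
      push_cast; ring
    rw [this, k]
    field_simp
  rw [e1]
  unfold F3 G3
  rw [h3_succ]
  unfold rho3
  have h5 : (n:ℚ) + j + 1 ≠ 0 := by positivity
  push_cast
  field_simp
  ring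

lemma h3_zero {n j : ℕ} (hj : n < j) : h3 n j = 0 := by
  unfold h3
  have : ∏ i ∈ range j, rho3 n i = 0 := by
    apply Finset.prod_eq_zero (i := n) (by rw [mem_range]; omega)
    unfold rho3
    simp
  rw [this, mul_zero]

lemma sum_G3 (N : ℕ) :
    ∑ n ∈ range N, (3*(n:ℚ)+1) * t n = ∑ j ∈ range N, G3 N j := by
  have e0 : ∀ n ∈ range N, (3*(n:ℚ)+1) * t n = ∑ j ∈ range N, (F3 n j - F3 n (j+1)) := by
    intro n hn
    rw [mem_range] at hn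
    rw [Finset.sum_range_sub']
    have h1 : F3 n 0 = (3*(n:ℚ)+1) * t n := by unfold F3 h3; simp
    have h2 : F3 n N = 0 := by unfold F3; rw [h3_zero (by omega)]; simp
    rw [h1, h2, sub_zero]
  rw [sum_congr rfl e0, sum_comm]
  apply sum_congr rfl
  intro j _
  have : ∑ n ∈ range N, (F3 n j - F3 n (j+1)) = ∑ n ∈ range N, (G3 (n+1) j - G3 n j) :=
    sum_congr rfl (fun n _ => (wz3 n j).symm)
  rw [this, Finset.sum_range_sub (fun n => G3 n j)]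
  have : G3 0 j = 0 := by unfold G3; simp
  rw [this, sub_zero]

/-- `P = 2m+1`; step of the reversed terms. -/
lemma G3_step (j l : ℕ) : G3 (j+l+1+1) j = G3 (j+l+1+1) (j+1) *
      (-(((2*(j+l+1)+1:ℕ):ℚ) - 2*l) * (((2*(j+l+1)+1:ℕ):ℚ) - l) /
        (((l:ℚ)+1) * (2*((2*(j+l+1)+1:ℕ):ℚ) - 2*l - 1))) := by
  unfold G3
  rw [h3_succ]
  unfold rho3
  push_cast
  generalize h3 (j+l+1+1) j = H
  have ha : (0:ℚ) ≤ j := by positivity
  have hb : (0:ℚ) ≤ l := by positivity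
  generalize (j:ℚ) = a at *
  generalize (l:ℚ) = b at *
  rw [show (a + b + 1 + 1 - a) = b + 2 by ring,
    show (a + b + 1 + 1 - (a + 1)) = b + 1 by ring,
    show (2 * (a + b + 1) + 1 - 2 * b) = 2*a+3 by ring,
    show (2 * (a + b + 1) + 1 - b) = 2*a+b+3 by ring,
    show (2 * (2 * (a + b + 1) + 1) - 2 * b - 1) = 4*a+2*b+5 by ring,
    show (2 * (a + b + 1 + 1) + 2 * a + 1) = 4*a+2*b+5 by ring,
    show (a + b + 1 + 1 + a + 1) = 2*a+b+3 by ring,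
    show (2 * (a + 1) + 1) = 2*a+3 by ring]
  have h1 : 2*a+3 ≠ 0 := by positivity
  have h2 : 2*a+b+3 ≠ 0 := by positivity
  have h3 : 4*a+2*b+5 ≠ 0 := by positivity
  have h4 : b+1 ≠ 0 := by positivity
  have h5 : 2*a+1 ≠ 0 := by positivity
  have h6 : b+2 ≠ 0 := by positivity
  field_simp

/-- the products of ratios -/
noncomputable def w3 (P : ℚ) (r : ℕ) : ℚ :=
  ∏ l ∈ range r, (-(P - 2*l) * (P - l) / (((l:ℚ)+1) * (2*P - 2*l - 1)))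

lemma G3_rev (m r : ℕ) (hr : r ≤ m) : G3 (m+1) (m - r) = G3 (m+1) m * w3 ((2*m+1:ℕ):ℚ) r := by
  induction r with
  | zero => simp [w3]
  | succ r ih =>
    have ih' := ih (by omega)
    obtain ⟨j, rfl⟩ : ∃ j, m = j + r + 1 := ⟨m - (r+1), by omega⟩
    have e1 : j + r + 1 - (r+1) = j := by omega
    have e2 : j + r + 1 - r = j + 1 := by omega
    rw [e1]
    rw [e2] at ih'
    have hw : w3 ((2*(j+r+1)+1:ℕ):ℚ) (r+1) = w3 ((2*(j+r+1)+1:ℕ):ℚ) r *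
      (-(((2*(j+r+1)+1:ℕ):ℚ) - 2*r) * (((2*(j+r+1)+1:ℕ):ℚ) - r) /
        (((r:ℚ)+1) * (2*((2*(j+r+1)+1:ℕ):ℚ) - 2*r - 1))) := by
      unfold w3; rw [prod_range_succ]
    rw [hw, ← mul_assoc, ← ih']
    exact G3_step j r

/-- `∏_{k=1}^m (1 - P^2/(4k^2))`, `P = 2m+1` -/
noncomputable def E3 (m : ℕ) : ℚ := ∏ i ∈ range m, (1 - ((2*m+1:ℕ):ℚ)^2 / (4 * ((i:ℚ)+1)^2))

noncomputable def A1 (m : ℕ) : ℚ := ∏ i ∈ range m, (2*(i:ℚ) + 1 - 2*m)
noncomputable def A2 (m : ℕ) : ℚ := ∏ i ∈ range m, (2*(i:ℚ) + 3 + 2*m)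
noncomputable def A3 (m : ℕ) : ℚ := ∏ i ∈ range m, (4 * ((i:ℚ)+1)^2)

lemma A3_ne (R : ℕ) : A3 R ≠ 0 := by
  unfold A3
  apply prod_ne_zero_iff.mpr
  intro i _; positivity

lemma E3_eq (R : ℕ) : E3 R * A3 R = A1 R * A2 R := by
  unfold E3 A1 A2 A3
  rw [← prod_mul_distrib, ← prod_mul_distrib]
  apply prod_congr rfl
  intro i _
  have : ((i:ℚ)+1) ≠ 0 := by positivity
  push_cast
  field_simp
  ring

lemma A1_succ (R : ℕ) : A1 (R+1) = -(2*(R:ℚ)+1) * A1 R := by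
  unfold A1
  rw [prod_range_succ']
  have e : ∏ k ∈ range R, (2*((k+1:ℕ):ℚ) + 1 - 2*((R+1:ℕ):ℚ)) = ∏ i ∈ range R, (2*(i:ℚ) + 1 - 2*R) := by
    apply prod_congr rfl; intro i _; push_cast; ring
  rw [e]
  push_cast
  ring

lemma A2_succ (R : ℕ) : (2*(R:ℚ)+3) * A2 (R+1) = (4*(R:ℚ)+3)*(4*R+5) * A2 R := by
  unfold A2
  have e : (2*(R:ℚ)+3) * ∏ i ∈ range (R+1), (2*(i:ℚ) + 3 + 2*((R+1:ℕ):ℚ)) =
      ∏ i ∈ range (R+1+1), (2*(i:ℚ) + 3 + 2*R) := by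
    rw [prod_range_succ' _ (R+1), mul_comm]
    congr 1
    · apply prod_congr rfl; intro i _; push_cast; ring
    · push_cast; ring
  rw [e, prod_range_succ, prod_range_succ]
  push_cast
  ring

lemma A3_succ (R : ℕ) : A3 (R+1) = 4 * ((R:ℚ)+1)^2 * A3 R := by
  unfold A3
  rw [prod_range_succ]
  ring

lemma h3_diag_succ (R : ℕ) : h3 (R+1+1) (R+1) * (4 * (2*(R:ℚ)+1) * (2*(R:ℚ)+3) * ((R:ℚ)+1)^2 * ((R:ℚ)+2)) =
    -((2*(R:ℚ)+3)^2 * (4*(R:ℚ)+3)*(4*R+5)) * ((R:ℚ)+1) * h3 (R+1) R := by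
  have k1 := kappa3 (R+1) R
  have hR : (0:ℚ) ≤ R := by positivity
  rw [h3_succ]
  unfold rho3
  push_cast at k1 ⊢
  generalize h3 (R+1+1) R = A at *
  generalize h3 (R+1) R = B at *
  generalize (R:ℚ) = x at *
  have h7 : x+1 ≠ 0 := by positivity
  have h8 : 2*x+1 ≠ 0 := by positivity
  have h9 : 2*x+3 ≠ 0 := by positivity
  have h10 : x+2 ≠ 0 := by positivity
  rw [show (x+1+1-x) = 2 by ring, show (2*(x+1)+1) = 2*x+3 by ring,
    show (2*(x+1)+2*x+1) = 4*x+3 by ring, show (x+1+1) = x+2 by ring, show (x+1+x+1) = 2*(x+1) by ring] at k1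
  rw [show (2*(x+1+1)+2*x+1) = 4*x+5 by ring, show (x+1+1-x) = 2 by ring,
    show (x+1+1+x+1) = 2*x+3 by ring]
  have hA : A = (2*x+3)^2*(4*x+3)/(2*(x+2)*(2*(x+1)))*B/2 := by linear_combination k1/2
  rw [hA]
  field_simp
  ring

lemma h3_diag (R : ℕ) : 2 * ((R+1:ℕ):ℚ) * h3 (R+1) R = ((2*R+1:ℕ):ℚ)^2 * E3 R := by
  induction R with
  | zero =>
    unfold h3 t E3
    norm_num [Nat.choose]
  | succ R ih =>
    have e0 := E3_eq R
    have e1 := E3_eq (R+1)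
    rw [A1_succ, A3_succ] at e1
    have q2 := A2_succ R
    have hd := h3_diag_succ R
    have hR : (0:ℚ) ≤ R := by positivity
    have h3 := A3_ne R
    have h4 : 4 * (2*(R:ℚ)+1) * (2*(R:ℚ)+3) * ((R:ℚ)+1)^2 ≠ 0 := by positivity
    have h5 : (2*(R:ℚ)+3) ≠ 0 := by positivity
    have h6 : (2*(R:ℚ)+1) ≠ 0 := by positivity
    have h7 : ((R:ℚ)+1) ≠ 0 := by positivity
    push_cast at ih ⊢
    apply mul_right_cancel₀ (mul_ne_zero h4 h3)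
    generalize TK.h3 (R+1+1) (R+1) = A at *
    generalize TK.h3 (R+1) R = B at *
    generalize E3 (R+1) = E' at *
    generalize E3 R = E0 at *
    generalize A1 R = p1 at *
    generalize A2 (R+1) = p2' at *
    generalize A2 R = p2 at *
    generalize A3 R = p3 at *
    generalize (R:ℚ) = x at *
    linear_combination (2 * p3) * hd + (-((2*x+3)^2 * (4*x+3)*(4*x+5)) * p3) * ih +
      (-(2*x+1)*(2*x+3)*(2*(x+1)+1)^2) * e1 + ((2*x+1)^2*(2*x+3)^2*p1) * q2 +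
      (-(2*x+3)^2 * (4*x+3)*(4*x+5) * (2*x+1)^2) * e0

end Pool.Agent.R856.TK
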