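import Pool.Agent.R856.TKB
import Pool.Agent.R856.TKC
import Pool.Agent.R856.EulerZ

set_option autoImplicit false

/-!
The half-range sum of `(3k+1) C(2k,k)^3 / 16^k` modulo `p^4`.
-/

namespace Pool.Agent.R856.TK

open Finset Pool.Agent.Helper857 Pool.Agent.Helper857.Pad

theorem S_eq3 (m : ℕ) : ∑ n ∈ range (m+1), (3*(n:ℚ)+1) * t n =
    ((2*m+1:ℕ):ℚ) * (E3 m * ∑ r ∈ range (m+1), w3 ((2*m+1:ℕ):ℚ) r) := by
  rw [sum_G3 (m+1), ← Finset.sum_range_reflect]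
  have e : ∀ r ∈ range (m+1), G3 (m+1) (m + 1 - 1 - r) = G3 (m+1) m * w3 ((2*m+1:ℕ):ℚ) r := by
    intro r hr
    rw [mem_range] at hr
    rw [show m + 1 - 1 - r = m - r by omega]
    exact G3_rev m r (by omega)
  rw [sum_congr rfl e, ← mul_sum]
  have hG : G3 (m+1) m = ((2*m+1:ℕ):ℚ) * E3 m := by
    have h := h3_diag m
    unfold G3
    have h1 : (2*(m:ℚ)+1) ≠ 0 := by positivity
    push_cast at h ⊢
    rw [show (m:ℚ)+1-m = 1 by ring, mul_one, h]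
    field_simp
  rw [hG]
  ring

noncomputable def bb (m l : ℕ) : ℚ := (-1) ^ (l+1) / (((l:ℚ)+1)^2 * (m.choose (l+1) : ℚ))

lemma bb_succ (m l : ℕ) (h : l + 1 < m) : bb m (l+1) =
    bb m l * (-((l:ℚ)+1)^2 / (((l:ℚ)+2) * ((m:ℚ) - (l+1)))) := by
  unfold bb
  have c := Nat.choose_succ_right_eq m (l+1)
  have c2 : (m.choose (l+1+1) : ℚ) * ((l:ℚ)+2) = (m.choose (l+1) : ℚ) * ((m:ℚ) - (l+1)) := by
    have h2 : ((m.choose (l+1+1) : ℕ) : ℚ) * ((l+1+1:ℕ):ℚ) = ((m.choose (l+1) : ℕ) : ℚ) * ((m - (l+1) : ℕ) : ℚ) := by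
      exact_mod_cast c
    rw [Nat.cast_sub (by omega)] at h2
    push_cast at h2
    linarith
  have p0 : (m.choose (l+1) : ℚ) ≠ 0 := by
    have := Nat.choose_pos (show l + 1 ≤ m by omega); exact_mod_cast this.ne'
  have p1 : (m.choose (l+1+1) : ℚ) ≠ 0 := by
    have := Nat.choose_pos (show l + 1 + 1 ≤ m by omega); exact_mod_cast this.ne'
  have hl : (l:ℚ) + 2 ≠ 0 := by positivity
  have hl1 : (l:ℚ) + 1 ≠ 0 := by positivity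
  have hm : (m:ℚ) - (l+1) ≠ 0 := by
    have : (l:ℚ) + 1 < m := by exact_mod_cast h
    intro h0; linarith
  have e : (m.choose (l+1+1) : ℚ) = (m.choose (l+1) : ℚ) * ((m:ℚ) - (l+1)) / ((l:ℚ)+2) := by
    rw [← c2]; field_simp
  rw [e, pow_succ]
  push_cast
  rw [show (l:ℚ) + 1 + 1 = l + 2 by ring]
  field_simp

lemma w3_alg (P x : ℚ) (h1 : x + 1 ≠ 0) (h2 : 2*P - 2*x - 1 ≠ 0) (h3 : P - 1 - 2*x ≠ 0) :
    (-(P - 2*x) * (P - x) / ((x+1) * (2*P - 2*x - 1))) - -x^2 / ((x+1) * ((P - 1 - 2*x)/2)) =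
    P^1 * ((-P^2 + P * (1+5*x) - 3*x - 4*x^2) * ((x+1)⁻¹ * (2*P - 2*x - 1)⁻¹ * (P - 1 - 2*x)⁻¹)) := by
  obtain ⟨D, hD⟩ : ∃ D, D = P - 1 - 2*x := ⟨_, rfl⟩
  obtain ⟨F, hF⟩ : ∃ F, F = 2*P - 2*x - 1 := ⟨_, rfl⟩
  rw [← hD] at h3 ⊢
  rw [← hF] at h2 ⊢
  field_simp
  rw [hD, hF]
  ring

section

variable {p : ℕ} [hp : Fact p.Prime] {m : ℕ} (hm : 2*m+1 = p) (hm2 : 2 ≤ m)
include hm hm2

lemma inv_small {k : ℕ} (h0 : 0 < k) (h1 : k < p) : ((k:ℚ))⁻¹ ∈ Zp p :=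
  inv_nat_mem (fun hd => absurd (Nat.le_of_dvd h0 hd) (by omega))

lemma bb_mem (l : ℕ) (hl : l < m) : bb m l ∈ Zp p := by
  induction l with
  | zero =>
    have e : bb m 0 = -((m:ℚ))⁻¹ := by
      unfold bb
      simp
      ring
    rw [e]
    exact (Zp p).neg_mem (inv_small hm hm2 (by omega) (by omega))
  | succ l ih =>
    rw [bb_succ m l hl]
    refine (Zp p).mul_mem (ih (by omega)) ?_
    have e : (-((l:ℚ)+1)^2 / (((l:ℚ)+2) * ((m:ℚ) - (l+1)))) =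
        -(((l+1:ℕ):ℚ))^2 * (((l+2:ℕ):ℚ))⁻¹ * (((m-(l+1):ℕ):ℚ))⁻¹ := by
      rw [Nat.cast_sub (by omega)]
      push_cast
      rw [div_eq_mul_inv, mul_inv]; ring
    rw [e]
    exact (Zp p).mul_mem ((Zp p).mul_mem ((Zp p).neg_mem ((Zp p).pow_mem (nat_mem _) 2))
      (inv_small hm hm2 (by omega) (by omega))) (inv_small hm hm2 (by omega) (by omega))

lemma half' : (2:ℚ)⁻¹ ∈ Zp p := by exact_mod_cast inv_small (k := 2) hm hm2 (by omega) (by omega)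

lemma w3_exp (l : ℕ) (hl : l < m) : I p 3 (w3 (p:ℚ) (l+1) - (p:ℚ)^2 * ((2:ℚ)⁻¹ * bb m l)) := by
  have hP : (p:ℚ) = 2*(m:ℚ)+1 := by rw [← hm]; push_cast; ring
  induction l with
  | zero =>
    have e : w3 (p:ℚ) (0+1) - (p:ℚ)^2 * ((2:ℚ)⁻¹ * bb m 0) =
        (p:ℚ)^3 * ((((4*m+1:ℕ):ℚ))⁻¹ * -(((2*m:ℕ):ℚ))⁻¹ * -1) := by
      unfold w3 bb
      have h1 : (m:ℚ) ≠ 0 := by
        have : m ≠ 0 := by omega
        exact_mod_cast this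
      have h2 : 4*(m:ℚ)+1 ≠ 0 := by positivity
      rw [prod_range_one, hP]
      simp only [Nat.cast_zero, mul_zero, sub_zero, zero_add, Nat.choose_one_right]
      push_cast
      rw [show 2*(2*(m:ℚ)+1) - 1 = 4*m+1 by ring]
      field_simp
      ring
    rw [e]
    have h4 : (((4*m+1:ℕ):ℚ))⁻¹ ∈ Zp p := by
      apply inv_nat_mem
      intro hd
      have h5 : p ∣ 4*m+1 + 1 := ⟨2, by omega⟩
      have h6 := (Nat.dvd_add_right hd).mp h5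
      have := Nat.le_of_dvd one_pos h6
      omega
    exact (I.p_pow 3).mul_mem ((Zp p).mul_mem ((Zp p).mul_mem h4
      ((Zp p).neg_mem (inv_small hm hm2 (by omega) (by omega)))) ((Zp p).neg_mem (Zp p).one_mem))
  | succ l ih =>
    have ih' := ih (by omega)
    have hb := bb_mem hm hm2 l (by omega)
    have hh := half' hm hm2
    have hw : w3 (p:ℚ) (l+1+1) = w3 (p:ℚ) (l+1) *
        (-((p:ℚ) - 2*((l+1:ℕ):ℚ)) * ((p:ℚ) - ((l+1:ℕ):ℚ)) / ((((l+1:ℕ):ℚ)+1) * (2*(p:ℚ) - 2*((l+1:ℕ):ℚ) - 1))) := by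
      unfold w3; rw [prod_range_succ]
    rw [hw, bb_succ m l hl]
    set x : ℚ := ((l+1:ℕ):ℚ) with hx
    have hxl : (l:ℚ)+1 = x := by rw [hx]; push_cast; ring
    have hx2 : (l:ℚ)+2 = x+1 := by rw [← hxl]; ring
    rw [hx2, hxl]
    -- the three inverses
    have i1 : (x+1)⁻¹ ∈ Zp p := by
      have := inv_small (k := l+2) hm hm2 (by omega) (by omega)
      have e : ((l+2:ℕ):ℚ) = x + 1 := by rw [hx]; push_cast; ring
      rwa [e] at this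
    have i2 : (2*(p:ℚ) - 2*x - 1)⁻¹ ∈ Zp p := by
      have : (((4*m-1-2*l:ℕ):ℚ))⁻¹ ∈ Zp p := by
        apply inv_nat_mem
        intro hd
        have h5 : p ∣ (4*m-1-2*l) + (2*l+3) := ⟨2, by omega⟩
        have h6 := (Nat.dvd_add_right hd).mp h5
        have := Nat.le_of_dvd (by omega) h6
        omega
      have e : ((4*m-1-2*l:ℕ):ℚ) = 2*(p:ℚ) - 2*x - 1 := by
        rw [Nat.cast_sub (by omega), Nat.cast_sub (by omega), hP, hx]; push_cast; ring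
      rwa [e] at this
    have i3 : (2*((m:ℚ) - x))⁻¹ ∈ Zp p := by
      have := inv_small (k := 2*(m-(l+1))) hm hm2 (by omega) (by omega)
      have e : ((2*(m-(l+1)):ℕ):ℚ) = 2*((m:ℚ) - x) := by
        push_cast [Nat.cast_sub (show l+1 ≤ m by omega)]
        rw [hx]; push_cast; ring
      rwa [e] at this
    have hx1 : x + 1 ≠ 0 := by rw [← hxl]; positivity
    have hm1 : (m:ℚ) - x ≠ 0 := by
      have : (l:ℚ) + 1 < m := by exact_mod_cast hl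
      rw [← hxl]; intro h0; linarith
    have hp1 : 2*(p:ℚ) - 2*x - 1 ≠ 0 := by
      have : (l:ℚ) + 1 < m := by exact_mod_cast hl
      rw [← hxl, hP]; intro h0; linarith
    have mx : x ∈ Zp p := nat_mem _
    have mp' : (p:ℚ) ∈ Zp p := nat_mem _
    have m1 : (1:ℚ) ∈ Zp p := (Zp p).one_mem
    set ρ := (-((p:ℚ) - 2*x) * ((p:ℚ) - x) / ((x+1) * (2*(p:ℚ) - 2*x - 1))) with hρ
    have hρm : ρ ∈ Zp p := by
      have e : ρ = (-((p:ℚ) - 2*x) * ((p:ℚ) - x)) * ((x+1)⁻¹ * (2*(p:ℚ) - 2*x - 1)⁻¹) := by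
        rw [hρ, div_eq_mul_inv, mul_inv]
      rw [e]
      exact (Zp p).mul_mem ((Zp p).mul_mem ((Zp p).neg_mem ((Zp p).sub_mem mp' ((Zp p).mul_mem m2 mx)))
        ((Zp p).sub_mem mp' mx)) ((Zp p).mul_mem i1 i2)
    have hd : I p 1 (ρ - -x^2 / ((x+1) * ((m:ℚ) - x))) := by
      have e : ρ - -x^2 / ((x+1) * ((m:ℚ) - x)) = (p:ℚ)^1 *
          ((-(p:ℚ)^2 + (p:ℚ) * (1+5*x) - 3*x - 4*x^2) * ((x+1)⁻¹ * (2*(p:ℚ) - 2*x - 1)⁻¹ * (2*((m:ℚ) - x))⁻¹)) := by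
        rw [hρ]
        have hmx : (m:ℚ) - x = ((p:ℚ) - 1 - 2*x)/2 := by rw [hP]; ring
        have hmx' : 2*((m:ℚ) - x) = (p:ℚ) - 1 - 2*x := by rw [hP]; ring
        have hm1' : (p:ℚ) - 1 - 2*x ≠ 0 := by
          rw [← hmx']; exact mul_ne_zero two_ne_zero hm1
        rw [hmx', hmx]
        exact w3_alg (p:ℚ) x hx1 hp1 hm1'
      rw [e]
      have m5 : (5:ℚ) ∈ Zp p := by exact_mod_cast nat_mem (p := p) 5
      have m4 : (4:ℚ) ∈ Zp p := by exact_mod_cast nat_mem (p := p) 4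
      exact (I.p_pow 1).mul_mem ((Zp p).mul_mem ((Zp p).sub_mem ((Zp p).sub_mem ((Zp p).add_mem
        ((Zp p).neg_mem ((Zp p).pow_mem mp' 2)) ((Zp p).mul_mem mp' ((Zp p).add_mem m1 ((Zp p).mul_mem m5 mx))))
        ((Zp p).mul_mem m3 mx)) ((Zp p).mul_mem m4 ((Zp p).pow_mem mx 2)))
        ((Zp p).mul_mem ((Zp p).mul_mem i1 i2) i3))
    have e : w3 (p:ℚ) (l+1) * ρ - (p:ℚ)^2 * ((2:ℚ)⁻¹ * (bb m l * (-x^2 / ((x+1) * ((m:ℚ) - x))))) =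
        (w3 (p:ℚ) (l+1) - (p:ℚ)^2 * ((2:ℚ)⁻¹ * bb m l)) * ρ +
        ((p:ℚ)^2 * (ρ - -x^2 / ((x+1) * ((m:ℚ) - x)))) * ((2:ℚ)⁻¹ * bb m l) := by ring
    rw [e]
    exact (ih'.mul_mem hρm).add (((I.p_pow 2).mul hd).mul_mem ((Zp p).mul_mem hh hb))

lemma H2_I : I p 1 (∑ k ∈ range m, 1 / ((k:ℚ)+1)^2) := by
  have ha : 1 ≤ 1 := le_refl 1
  have hN : 2*m+1 = p^1 := by rw [hm, pow_one]
  have sh := W.SH (p := p) ha hN
  have n6 : ¬ p ∣ 6 := by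
    intro h
    rw [show 6 = 2*3 by norm_num, hp.out.dvd_mul] at h
    rcases h with h | h
    · exact absurd (Nat.le_of_dvd (by norm_num) h) (by omega)
    · exact absurd (Nat.le_of_dvd (by norm_num) h) (by omega)
  rw [SSr, HHr] at sh
  have e1 : ∑ r ∈ range m, W.g ((2*m+1:ℕ):ℚ) (r+1) ^ 2 = (p:ℚ)^2 * ∑ k ∈ range m, 1 / ((k:ℚ)+1)^2 := by
    rw [mul_sum]; apply sum_congr rfl; intro k _
    unfold W.g; rw [hm]; push_cast; field_simp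
  have e2 : ∑ r ∈ range m, W.g ((2*m+1:ℕ):ℚ) (r+1) ^ 3 = (p:ℚ)^3 * ∑ k ∈ range m, 1 / ((k:ℚ)+1)^3 := by
    rw [mul_sum]; apply sum_congr rfl; intro k _
    unfold W.g; rw [hm]; push_cast; field_simp
  rw [e1, e2] at sh
  set H2 := ∑ k ∈ range m, 1 / ((k:ℚ)+1)^2
  set H3 := ∑ k ∈ range m, 1 / ((k:ℚ)+1)^3 with hH3
  have m3' : H3 ∈ Zp p := by
    rw [hH3]; apply (Zp p).sum_mem; intro k hk
    rw [mem_range] at hk
    have := inv_small (k := k+1) hm hm2 (by omega) (by omega)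
    have e : 1 / ((k:ℚ)+1)^3 = (((k+1:ℕ):ℚ)⁻¹)^3 := by push_cast; rw [inv_pow, one_div]
    rw [e]; exact (Zp p).pow_mem this 3
  have s1 : I p 3 ((p:ℚ) * (6 * H2 + 7 * (p:ℚ) * H3)) := by
    apply I.cancel_p
    have e : (p:ℚ) * ((p:ℚ) * (6 * H2 + 7 * (p:ℚ) * H3)) = 6 * ((p:ℚ)^2 * H2) + 7 * ((p:ℚ)^3 * H3) := by ring
    rw [e]; exact sh
  have s2 : I p 2 (6 * H2 + 7 * (p:ℚ) * H3) := I.cancel_p s1
  apply I.cancel n6
  have e : ((6:ℕ):ℚ) * H2 = (6 * H2 + 7 * (p:ℚ) * H3) - (p:ℚ)^1 * (7 * H3) := by push_cast; ring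
  rw [e]
  exact (s2.mono (by norm_num)).sub ((I.p_pow 1).mul_mem ((Zp p).mul_mem (by exact_mod_cast nat_mem (p := p) 7) m3'))

lemma alt_I : I p 1 (∑ k ∈ range m, (-1) ^ (k+1) / ((k:ℚ)+1)^2 - 2 * (-1)^m * (eulerE (p-3) : ℚ)) := by
  have hodd : p ≠ 2 := by omega
  have hmp : p = 2*m+1 := hm.symm
  have hev : Even (p-3) := ⟨m-1, by omega⟩
  have hE := eulerE_half p hodd m hmp (p-3) (by omega) hev
  -- integer congruence
  set A : ℤ := ∑ k ∈ range m, (-1) ^ (k+1) * ((k:ℤ)+1) ^ (p-3) with hA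
  have hz : ((eulerE (p-3) - 2^(p-3+1) * (-1)^m * A : ℤ) : ZMod p) = 0 := by
    rw [hA]; push_cast; rw [hE]; ring
  have hdvd := (ZMod.intCast_zmod_eq_zero_iff_dvd _ p).mp hz
  obtain ⟨c, hc⟩ := hdvd
  have hcq : (eulerE (p-3) : ℚ) = 2^(p-3+1) * (-1)^m * (A:ℚ) + p * c := by
    have : ((eulerE (p-3) - 2^(p-3+1) * (-1)^m * A : ℤ) : ℚ) = ((p:ℤ) * c : ℤ) := by rw [hc]
    push_cast at this
    linarith
  have hf2 := W.fermat (p := p) 2 (fun hd => absurd (Nat.le_of_dvd (by norm_num) hd) (by omega))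
  have hA2 : I p 1 (∑ k ∈ range m, (-1) ^ (k+1) / ((k:ℚ)+1)^2 - (A:ℚ)) := by
    rw [hA]; push_cast
    rw [← sum_sub_distrib]
    apply I.sum
    intro k hk
    rw [mem_range] at hk
    have hnd : ¬ p ∣ (k+1) := fun hd => absurd (Nat.le_of_dvd (by omega) hd) (by omega)
    have hf := W.fermat (p := p) (k+1) hnd
    have hinv := inv_nat_mem (p := p) hnd
    have hk0 : ((k:ℚ)+1) ≠ 0 := by positivity
    have e : (-1) ^ (k+1) / ((k:ℚ)+1)^2 - (-1) ^ (k+1) * ((k:ℚ)+1) ^ (p-3) =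
        -((((k+1:ℕ):ℚ))^(p-1) - 1) * ((-1)^(k+1) * ((((k+1:ℕ):ℚ))⁻¹)^2) := by
      rw [show p - 1 = p - 3 + 2 by omega, pow_add]
      push_cast
      field_simp
      ring
    rw [e]
    exact hf.neg.mul_mem ((Zp p).mul_mem ((Zp p).pow_mem ((Zp p).neg_mem (Zp p).one_mem) _) ((Zp p).pow_mem hinv 2))
  have hAm : (A:ℚ) ∈ Zp p := int_mem A
  have hs : ((-1:ℚ)^m) * ((-1:ℚ)^m) = 1 := by rw [← mul_pow]; norm_num
  have h2p : (2:ℚ) * 2^(p-3+1) = 2^(p-1) := by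
    rw [← pow_succ']; congr 1; omega
  have e : ∑ k ∈ range m, (-1) ^ (k+1) / ((k:ℚ)+1)^2 - 2 * (-1)^m * (eulerE (p-3) : ℚ) =
      (∑ k ∈ range m, (-1) ^ (k+1) / ((k:ℚ)+1)^2 - (A:ℚ)) - (((2:ℕ):ℚ)^(p-1) - 1) * (A:ℚ)
      - (p:ℚ)^1 * (2 * (-1)^m * c) := by
    rw [hcq]
    push_cast
    rw [← h2p]
    linear_combination (-2 * 2^(p-3+1) * (A:ℚ)) * hs
  rw [e]
  refine (hA2.sub (hf2.mul_mem hAm)).sub ((I.p_pow 1).mul_mem ?_)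
  exact (Zp p).mul_mem ((Zp p).mul_mem m2 ((Zp p).pow_mem ((Zp p).neg_mem (Zp p).one_mem) _)) (int_mem c)

theorem half_range : I p 4 (∑ n ∈ range (m+1), (3*(n:ℚ)+1) * t n -
    ((p:ℚ) + 2 * (-1)^m * (p:ℚ)^3 * (eulerE (p-3) : ℚ))) := by
  rw [S_eq3, hm]
  have hh := half' hm hm2
  have h2 := H2_I hm hm2
  have hA := alt_I hm hm2
  -- the product
  have hE : I p 3 (E3 m - 1) := by
    have h := prod_one_sub (p := p) (m := 2) (fun i => (p:ℚ)^2 * ((2:ℚ)⁻¹ * (2:ℚ)⁻¹ * (((i+1:ℕ):ℚ)⁻¹)^2)) m (by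
      intro i hi
      exact (I.p_pow 2).mul_mem ((Zp p).mul_mem ((Zp p).mul_mem hh hh)
        ((Zp p).pow_mem (inv_small hm hm2 (by omega) (by omega)) 2)))
    have e1 : E3 m = ∏ i ∈ range m, (1 - (p:ℚ)^2 * ((2:ℚ)⁻¹ * (2:ℚ)⁻¹ * (((i+1:ℕ):ℚ)⁻¹)^2)) := by
      unfold E3
      apply prod_congr rfl
      intro i _
      have : ((i:ℚ)+1) ≠ 0 := by positivity
      rw [hm]
      push_cast
      field_simp
      ring
    have e2 : ∑ i ∈ range m, (p:ℚ)^2 * ((2:ℚ)⁻¹ * (2:ℚ)⁻¹ * (((i+1:ℕ):ℚ)⁻¹)^2) =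
        ((p:ℚ)^2 * ∑ k ∈ range m, 1 / ((k:ℚ)+1)^2) * ((2:ℚ)⁻¹ * (2:ℚ)⁻¹) := by
      rw [mul_sum, sum_mul]
      apply sum_congr rfl; intro i _
      push_cast
      field_simp
    have e3 : E3 m - 1 = (E3 m - (1 - ∑ i ∈ range m, (p:ℚ)^2 * ((2:ℚ)⁻¹ * (2:ℚ)⁻¹ * (((i+1:ℕ):ℚ)⁻¹)^2))) -
        ∑ i ∈ range m, (p:ℚ)^2 * ((2:ℚ)⁻¹ * (2:ℚ)⁻¹ * (((i+1:ℕ):ℚ)⁻¹)^2) := by ring
    rw [e3, e2]
    rw [e2, ← e1] at h
    exact (h.mono (by norm_num)).sub (((I.p_pow 2).mul h2).mul_mem ((Zp p).mul_mem hh hh))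
  -- the sum
  have hW : I p 3 (∑ r ∈ range (m+1), w3 (p:ℚ) r -
      (1 + (p:ℚ)^2 * ((2:ℚ)⁻¹ * ∑ l ∈ range m, bb m l))) := by
    rw [sum_range_succ']
    have w0 : w3 (p:ℚ) 0 = 1 := by unfold w3; simp
    have e : ∑ k ∈ range m, w3 (p:ℚ) (k+1) + w3 (p:ℚ) 0 - (1 + (p:ℚ)^2 * ((2:ℚ)⁻¹ * ∑ l ∈ range m, bb m l)) =
        ∑ k ∈ range m, (w3 (p:ℚ) (k+1) - (p:ℚ)^2 * ((2:ℚ)⁻¹ * bb m k)) := by
      rw [w0, sum_sub_distrib, ← mul_sum, ← mul_sum]; ring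
    rw [e]
    apply I.sum
    intro l hl
    rw [mem_range] at hl
    exact w3_exp hm hm2 l hl
  have hb : ∑ l ∈ range m, bb m l = ∑ k ∈ range m, 1 / ((k:ℚ)+1)^2 + 2 * ∑ k ∈ range m, (-1) ^ (k+1) / ((k:ℚ)+1)^2 := by
    unfold bb
    rw [recip_sq_sum, mul_sum, ← sum_add_distrib]
    apply sum_congr rfl; intro k _
    ring
  rw [hb] at hW
  set H := ∑ k ∈ range m, 1 / ((k:ℚ)+1)^2
  set A := ∑ k ∈ range m, (-1) ^ (k+1) / ((k:ℚ)+1)^2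
  set W := ∑ r ∈ range (m+1), w3 (p:ℚ) r
  set c : ℚ := 2 * (-1)^m * (eulerE (p-3) : ℚ)
  have hcm : c ∈ Zp p := (Zp p).mul_mem ((Zp p).mul_mem m2 ((Zp p).pow_mem ((Zp p).neg_mem (Zp p).one_mem) _)) (int_mem _)
  have key : I p 3 (E3 m * W - (1 + (p:ℚ)^2 * c)) := by
    have hWm : I p 3 (W - (1 + (p:ℚ)^2 * c)) := by
      have e : W - (1 + (p:ℚ)^2 * c) = (W - (1 + (p:ℚ)^2 * ((2:ℚ)⁻¹ * (H + 2 * A)))) +
          ((p:ℚ)^2 * H) * (2:ℚ)⁻¹ + (p:ℚ)^2 * (A - c) := by ring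
      rw [e]
      exact (hW.add (((I.p_pow 2).mul h2).mul_mem hh)).add ((I.p_pow 2).mul hA)
    have hW0 : W ∈ Zp p := by
      have e : W = (W - (1 + (p:ℚ)^2 * c)) + (1 + (p:ℚ)^2 * c) := by ring
      rw [e]
      exact (Zp p).add_mem hWm.mem ((Zp p).add_mem (Zp p).one_mem ((Zp p).mul_mem ((Zp p).pow_mem (nat_mem p) 2) hcm))
    have e : E3 m * W - (1 + (p:ℚ)^2 * c) = (E3 m - 1) * W + (W - (1 + (p:ℚ)^2 * c)) := by ring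
    rw [e]
    exact (hE.mul_mem hW0).add hWm
  have e : (p:ℚ) * (E3 m * W) - ((p:ℚ) + 2 * (-1)^m * (p:ℚ)^3 * (eulerE (p-3) : ℚ)) =
      (p:ℚ)^1 * (E3 m * W - (1 + (p:ℚ)^2 * c)) := by ring
  rw [e]
  exact (I.p_pow 1).mul key

end

end Pool.Agent.R856.TK
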