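import Pool.Agent.R856.TKA

set_option autoImplicit false

/-!
Divisibility of the truncated sums: `2 n C(2n,n)` divides `∑_{k<n} (3k+1) C(2k,k)^3 16^(n-1-k)`.
-/

namespace Pool.Agent.R856.TK

open Finset

/-- super Catalan numbers, through their linear recurrence -/
def supZ : ℕ → ℕ → ℤ
  | a, 0 => ((2*a).choose a : ℤ)
  | a, b + 1 => 4 * supZ a b - supZ (a+1) b

noncomputable def supF (a b : ℕ) : ℚ :=
  ((2*a).factorial : ℚ) * ((2*b).factorial : ℚ) / ((a.factorial : ℚ) * (b.factorial : ℚ) * ((a+b).factorial : ℚ))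

lemma fac_ne (n : ℕ) : (n.factorial : ℚ) ≠ 0 := by exact_mod_cast n.factorial_ne_zero

lemma fac2 (n : ℕ) : ((2*(n+1)).factorial : ℚ) = (2*(n:ℚ)+2) * (2*(n:ℚ)+1) * ((2*n).factorial : ℚ) := by
  rw [show 2*(n+1) = (2*n+1)+1 by ring, Nat.factorial_succ, Nat.factorial_succ]
  push_cast; ring

lemma supF_a (a b : ℕ) : supF (a+1) b * ((a:ℚ)+b+1) = supF a b * (2 * (2*(a:ℚ)+1)) := by
  unfold supF
  rw [fac2, show a+1+b = (a+b)+1 by ring, Nat.factorial_succ (a+b), Nat.factorial_succ a]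
  push_cast
  have h1 := fac_ne a
  have h2 := fac_ne b
  have h3 := fac_ne (a+b)
  have h4 : (a:ℚ)+1 ≠ 0 := by positivity
  have h5 : (a:ℚ)+b+1 ≠ 0 := by positivity
  field_simp

lemma supF_comm (a b : ℕ) : supF a b = supF b a := by
  unfold supF
  rw [Nat.add_comm a b]; ring

lemma supF_b (a b : ℕ) : supF a (b+1) * ((a:ℚ)+b+1) = supF a b * (2 * (2*(b:ℚ)+1)) := by
  rw [supF_comm a (b+1), supF_comm a b, ← supF_a b a]; ring

lemma supF_rec (a b : ℕ) : supF a (b+1) = 4 * supF a b - supF (a+1) b := by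
  have h1 := supF_a a b
  have h2 := supF_b a b
  have h5 : (a:ℚ)+b+1 ≠ 0 := by positivity
  apply mul_right_cancel₀ h5
  linear_combination h1 + h2

lemma supF_shift (a b : ℕ) : supF a (b+1) * (2*(a:ℚ)+1) = supF (a+1) b * (2*(b:ℚ)+1) := by
  have h1 := supF_a a b
  have h2 := supF_b a b
  have h5 : (a:ℚ)+b+1 ≠ 0 := by positivity
  apply mul_right_cancel₀ h5
  linear_combination (2*(a:ℚ)+1) * h2 - (2*(b:ℚ)+1) * h1

lemma supZ_eq (a b : ℕ) : (supZ a b : ℚ) = supF a b := by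
  induction b generalizing a with
  | zero =>
    rw [supZ, supF]
    push_cast
    rw [Nat.cast_choose ℚ (by omega), show 2*a - a = a by omega]
    simp
  | succ b ih =>
    rw [supZ, supF_rec, ← ih, ← ih]
    push_cast; ring

/-- `supF (N-1) N = 2 C(2N-2,N-1)`; we state `N C(2N,N) = (2N-1) supF (N-1) N`. -/
lemma supF_base (M : ℕ) : ((M:ℚ)+1) * ((2*(M+1)).choose (M+1) : ℚ) = (2*(M:ℚ)+1) * supF M (M+1) := by
  have h := supF_b M M
  rw [Nat.cast_choose ℚ (by omega), show 2*(M+1) - (M+1) = M+1 by omega]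
  have h2 : supF M M * ((M:ℚ)+1) = supF M M * ((M:ℚ)+1) := rfl
  unfold supF
  rw [fac2, show M + (M+1) = 2*M+1 by ring, Nat.factorial_succ (2*M), Nat.factorial_succ M]
  push_cast
  have h1 := fac_ne M
  have h2 := fac_ne (2*M)
  have h4 : (M:ℚ)+1 ≠ 0 := by positivity
  have h5 : 2*(M:ℚ)+1 ≠ 0 := by positivity
  field_simp

/-- the binomial step -/
lemma choose_step (n k : ℕ) (hk : k + 2 ≤ n) :
    (n.choose k : ℚ) * (((n:ℚ) - k) * ((n:ℚ) - k - 1)) = (n.choose (k+2) : ℚ) * (((k:ℚ)+1) * ((k:ℚ)+2)) := by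
  have c1 := Nat.choose_succ_right_eq n k
  have c2 := Nat.choose_succ_right_eq n (k+1)
  have d1 : (n.choose (k+1) : ℚ) * ((k:ℚ)+1) = (n.choose k : ℚ) * ((n:ℚ) - k) := by
    have : ((n.choose (k+1) : ℕ) : ℚ) * ((k+1:ℕ):ℚ) = ((n.choose k : ℕ):ℚ) * ((n-k:ℕ):ℚ) := by exact_mod_cast c1
    rw [Nat.cast_sub (by omega)] at this
    push_cast at this; exact this
  have d2 : (n.choose (k+2) : ℚ) * ((k:ℚ)+2) = (n.choose (k+1) : ℚ) * ((n:ℚ) - k - 1) := by
    have : ((n.choose (k+1+1) : ℕ) : ℚ) * ((k+1+1:ℕ):ℚ) = ((n.choose (k+1) : ℕ):ℚ) * ((n-(k+1):ℕ):ℚ) := by exact_mod_cast c2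
    rw [Nat.cast_sub (by omega)] at this
    push_cast at this
    linear_combination this
  linear_combination (-((n:ℚ) - k - 1)) * d1 - ((k:ℚ)+1) * d2

/-- closed form of the terms -/
lemma G_closed (N j : ℕ) (hj : 2*j+1 ≤ N) : 16^N * G N j =
    4 * (N:ℚ) * ((2*N).choose N : ℚ) * ((-1)^j * supF (N-1-j) (N+j) * ((2*N).choose (N-1-2*j) : ℚ)) := by
  obtain ⟨M, rfl⟩ : ∃ M, N = M + 1 := ⟨N - 1, by omega⟩
  induction j with
  | zero =>
    simp only [Nat.add_sub_cancel, Nat.sub_zero, add_zero, mul_zero, pow_zero, one_mul]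
    have h1 := supF_base M
    have c1 := Nat.choose_succ_right_eq (2*(M+1)) M
    have d1 : ((2*(M+1)).choose (M+1) : ℚ) * ((M:ℚ)+1) = ((2*(M+1)).choose M : ℚ) * ((M:ℚ)+2) := by
      have : (((2*(M+1)).choose (M+1) : ℕ) : ℚ) * ((M+1:ℕ):ℚ) = (((2*(M+1)).choose M : ℕ):ℚ) * ((2*(M+1)-M:ℕ):ℚ) := by exact_mod_cast c1
      rw [Nat.cast_sub (by omega)] at this
      push_cast at this
      linear_combination this
    have e1 : ((2*(M+1)).choose M : ℚ) = ((2*(M+1)).choose (M+1) : ℚ) * ((M:ℚ)+1) / ((M:ℚ)+2) := by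
      rw [eq_div_iff (by positivity)]; exact d1.symm
    have e2 : supF M (M+1) = ((M:ℚ)+1) * ((2*(M+1)).choose (M+1) : ℚ) / (2*(M:ℚ)+1) := by
      rw [eq_div_iff (by positivity)]; linear_combination -h1
    rw [e1, e2]
    unfold G h t
    simp only [prod_range_zero, Nat.cast_zero, mul_zero, sub_zero, add_zero, mul_one]
    push_cast
    rw [show 2 * ((M:ℚ)+1) - 1 = 2*M+1 by ring, show (M:ℚ)+1+1 = M+2 by ring]
    have h16 : (16:ℚ)^(M+1) ≠ 0 := by positivity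
    have h5 : 2*(M:ℚ)+1 ≠ 0 := by positivity
    have h6 : (M:ℚ)+2 ≠ 0 := by positivity
    field_simp
  | succ j ih =>
    have ih' := ih (by omega)
    obtain ⟨r, rfl⟩ : ∃ r, M = 2*j+2+r := ⟨M - (2*j+2), by omega⟩
    -- relation for G
    have hG : G (2*j+2+r+1) (j+1) = G (2*j+2+r+1) j *
        (-((2*((2*j+2+r+1:ℕ):ℚ) + 2*j + 1) * ((r:ℚ)+2) * ((r:ℚ)+1)) /
          ((2*((2*j+2+r+1:ℕ):ℚ) - 2*j - 3) * ((((2*j+2+r+1:ℕ):ℚ) + 2*j + 2) * (((2*j+2+r+1:ℕ):ℚ) + 2*j + 3)))) := by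
      unfold G
      rw [h_succ]
      unfold rho
      push_cast
      generalize h (2*j+2+r+1) j = H
      have ha : (0:ℚ) ≤ j := by positivity
      have hb : (0:ℚ) ≤ r := by positivity
      generalize (j:ℚ) = a at *
      generalize (r:ℚ) = b at *
      rw [show (2*a+2+b+1-2*(a+1)) = b+1 by ring,
        show (2*(2*a+2+b+1)-2*(a+1)-1) = 2*a+2*b+3 by ring,
        show (2*(2*a+2+b+1)-2*a-3) = 2*a+2*b+3 by ring,
        show (2*(2*a+2+b+1)-2*a-1) = 2*a+2*b+5 by ring,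
        show (2*a+2+b+1-2*a) = b+3 by ring,
        show (b+3-1) = b+2 by ring,
        show (2*a+2+b+1+2*a+1) = 4*a+b+4 by ring,
        show (2*a+2+b+1+2*a+2) = 4*a+b+5 by ring,
        show (2*a+2+b+1+2*(a+1)+1) = 4*a+b+6 by ring,
        show (2*a+2+b+1+2*a+3) = 4*a+b+6 by ring]
      have h1 : 2*a+2*b+3 ≠ 0 := by positivity
      have h2 : 2*a+2*b+5 ≠ 0 := by positivity
      have h3 : 4*a+b+4 ≠ 0 := by positivity
      have h4 : 4*a+b+5 ≠ 0 := by positivity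
      have h5 : 4*a+b+6 ≠ 0 := by positivity
      field_simp
    have hs := supF_shift (2*j+2+r-(j+1)) (2*j+2+r+1+j)
    have hc := choose_step (2*(2*j+2+r+1)) r (by omega)
    rw [hG]
    rw [show 2*j+2+r+1-1-2*j = r+2 by omega] at ih'
    rw [show 2*j+2+r+1-1-j = 2*j+2+r-(j+1)+1 by omega] at ih'
    rw [show 2*j+2+r+1-1-2*(j+1) = r by omega, show 2*j+2+r+1-1-(j+1) = 2*j+2+r-(j+1) by omega,
      show 2*j+2+r+1+(j+1) = 2*j+2+r+1+j+1 by omega]
    rw [show 2*j+2+r-(j+1) = j+1+r by omega] at hs ih' ⊢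
    push_cast at hs hc ih' ⊢
    generalize G (2*j+2+r+1) j = G0 at *
    generalize supF (j+1+r) (2*j+2+r+1+j+1) = s1 at *
    generalize supF (j+1+r+1) (2*j+2+r+1+j) = s0 at *
    generalize ((2*(2*j+2+r+1)).choose r : ℚ) = c1 at *
    generalize ((2*(2*j+2+r+1)).choose (r+2) : ℚ) = c0 at *
    generalize ((2*(2*j+2+r+1)).choose (2*j+2+r+1) : ℚ) = cc at *
    generalize (16:ℚ)^(2*j+2+r+1) = K at *
    rw [pow_succ]
    generalize (-1:ℚ)^j = sg at *
    have ha : (0:ℚ) ≤ j := by positivity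
    have hb : (0:ℚ) ≤ r := by positivity
    generalize (j:ℚ) = a at *
    generalize (r:ℚ) = b at *
    have h1 : 2*a+2*b+3 ≠ 0 := by positivity
    have h4 : 4*a+b+5 ≠ 0 := by positivity
    have h5 : 4*a+b+6 ≠ 0 := by positivity
    have e1 : s1 = s0 * (2*(2*a+2+b+1+a)+1) / (2*a+2*b+3) := by
      rw [eq_div_iff h1]; linear_combination hs
    have e2 : c1 = c0 * ((b+1)*(b+2)) / ((4*a+b+6)*(4*a+b+5)) := by
      rw [eq_div_iff (mul_ne_zero h5 h4)]; linear_combination hc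
    rw [← mul_assoc, ih', e1, e2, show (2*(2*a+2+b+1)-2*a-3) = 2*a+2*b+3 by ring,
      show (2*a+2+b+1+2*a+2) = 4*a+b+5 by ring, show (2*a+2+b+1+2*a+3) = 4*a+b+6 by ring]
    field_simp

lemma G_int (N j : ℕ) : ∃ z : ℤ, 16^N * G N j = 4 * (N:ℚ) * ((2*N).choose N : ℚ) * (z:ℚ) := by
  by_cases hj : 2*j+1 ≤ N
  · refine ⟨(-1)^j * supZ (N-1-j) (N+j) * ((2*N).choose (N-1-2*j) : ℤ), ?_⟩
    rw [G_closed N j hj]
    push_cast
    rw [supZ_eq]
  · refine ⟨0, ?_⟩
    have h0 : ((N:ℚ) - 2*j) * h N j = 0 := by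
      rcases Nat.lt_or_ge N (2*j) with h1 | h1
      · rw [h_zero h1, mul_zero]
      · have : N = 2*j := by omega
        rw [this]; push_cast; ring
    unfold G
    rw [mul_assoc (4*(N:ℚ)^2), h0]
    simp

theorem X_int (N : ℕ) : ∃ z : ℤ, (16:ℚ)^N * ∑ n ∈ range N, (3*(n:ℚ)+1) * t n =
    4 * (N:ℚ) * ((2*N).choose N : ℚ) * (z:ℚ) := by
  rw [sum_G N N (by omega), mul_sum]
  choose f hf using G_int N
  refine ⟨∑ j ∈ range N, f j, ?_⟩
  push_cast
  rw [mul_sum]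
  exact sum_congr rfl (fun j _ => hf j)

/-- the integer sum -/
def XX (N : ℕ) : ℕ := ∑ k ∈ range N, (3*k+1) * ((2*k).choose k)^3 * 16^(N-1-k)

lemma XX_eq (N : ℕ) (hN : 1 ≤ N) : (16:ℚ)^N * ∑ n ∈ range N, (3*(n:ℚ)+1) * t n = 16 * (XX N : ℚ) := by
  unfold XX
  push_cast
  rw [mul_sum, mul_sum]
  apply sum_congr rfl
  intro k hk
  rw [mem_range] at hk
  unfold t
  have e : (16:ℚ)^N = 16 * 16^k * 16^(N-1-k) := by
    rw [mul_assoc, ← pow_add, ← pow_succ']; congr 1; omega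
  rw [e]
  have h16 : (16:ℚ)^k ≠ 0 := by positivity
  field_simp

theorem eight_XX (N : ℕ) (hN : 1 ≤ N) : 2 * N * (2*N).choose N ∣ 8 * XX N := by
  obtain ⟨z, hz⟩ := X_int N
  rw [XX_eq N hN] at hz
  have h1 : (8 * (XX N : ℚ)) = (2 * (N:ℚ) * ((2*N).choose N : ℚ)) * z := by linear_combination hz / 2
  have h2 : (8 * (XX N : ℤ)) = (2 * (N:ℤ) * ((2*N).choose N : ℤ)) * z := by exact_mod_cast h1
  have h3 : ((2 * N * (2*N).choose N : ℕ) : ℤ) ∣ ((8 * XX N : ℕ) : ℤ) := by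
    push_cast
    exact ⟨z, h2⟩
  exact Int.natCast_dvd_natCast.mp h3

/-- the 2-adic valuation of the central binomial coefficients grows slowly -/
lemma two_adic_step (k d : ℕ) : padicValNat 2 ((2*(k+d)).choose (k+d)) ≤ padicValNat 2 ((2*k).choose k) + d := by
  induction d with
  | zero => simp
  | succ d ih =>
    have h0 := Nat.succ_mul_centralBinom_succ (k+d)
    rw [Nat.centralBinom_eq_two_mul_choose, Nat.centralBinom_eq_two_mul_choose] at h0
    have h1 : padicValNat 2 ((k+d+1) * (2*(k+d+1)).choose (k+d+1)) =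
        padicValNat 2 (2*(2*(k+d)+1) * (2*(k+d)).choose (k+d)) := by rw [h0]
    have p1 : (2*(k+d+1)).choose (k+d+1) ≠ 0 := (Nat.choose_pos (by omega)).ne'
    have p2 : (2*(k+d)).choose (k+d) ≠ 0 := (Nat.choose_pos (by omega)).ne'
    rw [padicValNat.mul (by omega) p1, padicValNat.mul (by omega) p2, padicValNat.mul (by omega) (by omega),
      padicValNat.self (by norm_num)] at h1
    have h2 : padicValNat 2 (2*(k+d)+1) = 0 := padicValNat.eq_zero_of_not_dvd (by omega)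
    rw [h2] at h1
    rw [show k + (d+1) = k+d+1 by ring]
    omega

theorem XX_dvd (N : ℕ) (hN : 2 ≤ N) : 2 * N * (2*N).choose N ∣ XX N := by
  obtain ⟨M, rfl⟩ : ∃ M, N = M + 1 := ⟨N - 1, by omega⟩
  have hM : 1 ≤ M := by omega
  have h8 := eight_XX (M+1) (by omega)
  have h0 := Nat.succ_mul_centralBinom_succ M
  rw [Nat.centralBinom_eq_two_mul_choose, Nat.centralBinom_eq_two_mul_choose] at h0
  have hD : 2 * (M+1) * (2*(M+1)).choose (M+1) = 4 * (2*M+1) * (2*M).choose M := by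
    rw [mul_assoc, h0]; ring
  rw [hD] at h8 ⊢
  have p2 : (2*M).choose M ≠ 0 := (Nat.choose_pos (by omega)).ne'
  obtain ⟨v, m', hm', e⟩ := Nat.exists_eq_pow_mul_and_not_dvd p2 2 (by norm_num)
  have hv : padicValNat 2 ((2*M).choose M) = v := by
    rw [e, padicValNat.mul (by positivity) (by rintro rfl; exact hm' (dvd_zero 2)), padicValNat.prime_pow,
      padicValNat.eq_zero_of_not_dvd hm', add_zero]
  have e2 : 4 * (2*M+1) * (2*M).choose M = 2^(v+2) * ((2*M+1) * m') := by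
    rw [e]; ring
  rw [e2] at h8 ⊢
  have hodd : Nat.Coprime 2 ((2*M+1) * m') := by
    rw [Nat.coprime_mul_iff_right]
    refine ⟨?_, ?_⟩
    · rw [Nat.prime_two.coprime_iff_not_dvd]; omega
    · rw [Nat.prime_two.coprime_iff_not_dvd]; exact hm'
  apply Nat.Coprime.mul_dvd_of_dvd_of_dvd (Nat.Coprime.pow_left _ hodd)
  · unfold XX
    apply Finset.dvd_sum
    intro k hk
    rw [mem_range] at hk
    obtain ⟨d, hd⟩ : ∃ d, M = k + d := ⟨M - k, by omega⟩
    have hs := two_adic_step k d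
    rw [← hd, hv] at hs
    set u := padicValNat 2 ((2*k).choose k) with hu
    have hu1 : 2^u ∣ (2*k).choose k := pow_padicValNat_dvd
    have hk1 : k ≠ 0 → 1 ≤ u := by
      intro hk0
      have h2 : 2 ∣ (2*k).choose k := by
        have := Nat.two_dvd_centralBinom_of_one_le (n := k) (by omega)
        rwa [Nat.centralBinom_eq_two_mul_choose] at this
      have p3 : (2*k).choose k ≠ 0 := (Nat.choose_pos (by omega)).ne'
      exact one_le_padicValNat_of_dvd p3 h2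
    have hexp : v + 2 ≤ 3*u + 4*d := by
      by_cases hk0 : k = 0
      · subst hk0; omega
      · have := hk1 hk0; omega
    have h4 : 2^(3*u+4*d) ∣ ((2*k).choose k)^3 * 16^(M+1-1-k) := by
      rw [pow_add, show M + 1 - 1 - k = d by omega, show (16:ℕ) = 2^4 by norm_num, ← pow_mul, mul_comm 3 u, pow_mul]
      exact Nat.mul_dvd_mul (pow_dvd_pow_of_dvd hu1 3) (dvd_refl _)
    have h5 : 2^(v+2) ∣ ((2*k).choose k)^3 * 16^(M+1-1-k) := (pow_dvd_pow 2 hexp).trans h4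
    rw [mul_assoc]
    exact h5.mul_left _
  · have h6 : (2*M+1) * m' ∣ 8 * XX (M+1) := (dvd_mul_left _ _).trans h8
    have h7 : Nat.Coprime ((2*M+1) * m') 8 := by
      rw [show 8 = 2^3 by norm_num]
      exact (Nat.Coprime.pow_left _ hodd).symm
    exact h7.dvd_of_dvd_mul_left h6

end Pool.Agent.R856.TK
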