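import Pool.Agent.R856.TKE

set_option autoImplicit false

/-!
The sums over `k < p^r`, in the form used for `MP_54d89f_nt`.
-/

namespace Pool.Agent.R856.TK

open Finset Pool.Agent.Helper857 Pool.Agent.Helper857.Pad

theorem full_range {p : ℕ} [hp : Fact p.Prime] (hp3 : 3 < p) (r : ℕ) (hr : 1 ≤ r) :
    I p 4 ((∑ k ∈ range (p^r), (3 * (k:ℚ) + 1) * t k) / (p:ℚ)^r - (1 + 7/6 * (p:ℚ)^3 * bernoulli (p-3))) := by
  have hpp := hp.out
  have hp2 : p ≠ 2 := by omega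
  have h5 : 5 ≤ p := by
    by_contra h
    have : p = 4 := by omega
    rw [this] at hpp
    exact absurd hpp (by norm_num)
  have hodd : p % 2 = 1 := by
    rcases hp.out.eq_two_or_odd with h | h
    · exact absurd h hp2
    · exact h
  have hpa : (p^r) % 2 = 1 := Nat.odd_iff.mp ((Nat.odd_iff.mpr hodd).pow)
  obtain ⟨R, hR⟩ : ∃ R, 2*R+1 = p^r := ⟨p^r/2, by omega⟩
  have hS : (∑ k ∈ range (p^r), (3 * (k:ℚ) + 1) * t k) / (p:ℚ)^r = TK.TT R := by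
    unfold TK.TT
    rw [hR]
    push_cast
    rfl
  have m (n : ℕ) : ((n:ℕ):ℚ) ∈ Zp p := nat_mem n
  have n2 : ¬ p ∣ 2 := fun h => absurd (Nat.le_of_dvd (by norm_num) h) (by omega)
  have n3 : ¬ p ∣ 3 := fun h => absurd (Nat.le_of_dvd (by norm_num) h) (by omega)
  have n12 : ¬ p ∣ 12 := by
    intro h
    rw [show 12 = 2^2*3 by norm_num, hp.out.dvd_mul] at h
    exact h.elim (fun h => n2 (hp.out.dvd_of_dvd_pow h)) n3
  have cr := W.classred (p := p) hr hR hp2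
  have f := fin (p := p) hr hR h5
  have h3 := W.harm3 (p := p) h5
  rw [hS]
  apply I.cancel n12
  have e : ((12:ℕ):ℚ) * (TK.TT R - (1 + 7/6 * (p:ℚ)^3 * bernoulli (p-3))) =
      (12 * (TK.TT R - 1) + 7 * W.HH ((2*R+1:ℕ):ℚ) R) -
      7 * (W.HH ((2*R+1:ℕ):ℚ) R - (p:ℚ)^3 * ∑ j ∈ Icc 1 ((p-1)/2), 1/(j:ℚ)^3) -
      7 * ((p:ℚ)^3 * (∑ j ∈ Icc 1 ((p-1)/2), 1/(j:ℚ)^3 + 2 * bernoulli (p-3))) := by
    push_cast; ring
  rw [e]
  refine (f.sub (I.mem_mul (by exact_mod_cast m 7) cr)).sub (I.mem_mul (by exact_mod_cast m 7) ?_)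
  exact (I.p_pow 3).mul h3

/-- the linear relation modulo `p^4` -/
theorem linear_rel {p : ℕ} [hp : Fact p.Prime] (hp3 : 3 < p) :
    I p 4 (3 * (∑ k ∈ range p, (k:ℚ) * t k) + ∑ k ∈ range p, t k - (p:ℚ)) := by
  have hpp := hp.out
  have h5 : 5 ≤ p := by
    by_contra h
    have : p = 4 := by omega
    rw [this] at hpp
    exact absurd hpp (by norm_num)
  have h := full_range (p := p) hp3 1 le_rfl
  rw [pow_one, pow_one] at h
  have hp0 : (p:ℚ) ≠ 0 := by exact_mod_cast hp.out.ne_zero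
  have hs : ∑ k ∈ range p, (3 * (k:ℚ) + 1) * t k = 3 * (∑ k ∈ range p, (k:ℚ) * t k) + ∑ k ∈ range p, t k := by
    rw [mul_sum, ← sum_add_distrib]; apply sum_congr rfl; intro k _; ring
  have n6 : ¬ p ∣ 6 := by
    intro h
    rw [show 6 = 2*3 by norm_num, hp.out.dvd_mul] at h
    rcases h with h | h
    · exact absurd (Nat.le_of_dvd (by norm_num) h) (by omega)
    · exact absurd (Nat.le_of_dvd (by norm_num) h) (by omega)
  have h6 : (6:ℚ)⁻¹ ∈ Zp p := by exact_mod_cast inv_nat_mem n6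
  have hb : bernoulli (p-3) ∈ Zp p := W.bern_mem (p := p) (p-3) (by omega)
  have h2 : I p 3 ((∑ k ∈ range p, (3 * (k:ℚ) + 1) * t k) / (p:ℚ) - 1) := by
    have e : (∑ k ∈ range p, (3 * (k:ℚ) + 1) * t k) / (p:ℚ) - 1 =
        ((∑ k ∈ range p, (3 * (k:ℚ) + 1) * t k) / (p:ℚ) - (1 + 7/6 * (p:ℚ)^3 * bernoulli (p-3))) +
        (p:ℚ)^3 * (7 * (6:ℚ)⁻¹ * bernoulli (p-3)) := by ring
    rw [e]
    exact (h.mono (by norm_num)).add ((I.p_pow 3).mul_mem ((Zp p).mul_mem ((Zp p).mul_mem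
      (by exact_mod_cast nat_mem (p := p) 7) h6) hb))
  have h3 := (I.p_pow (p := p) 1).mul h2
  rw [← hs]
  have e : (p:ℚ)^1 * ((∑ k ∈ range p, (3 * (k:ℚ) + 1) * t k) / (p:ℚ) - 1) =
      ∑ k ∈ range p, (3 * (k:ℚ) + 1) * t k - (p:ℚ) := by
    field_simp
  rw [← e]
  exact h3

end Pool.Agent.R856.TK
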